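import Pool.Agent.DM.Elim

/-!
# DM, module Basis: a homogeneous independent family over `p`-th powers is a basis

Pure algebra.  `R = k[x_0, …, x_(N-1)]` with positive weights `w i`, `k` algebraically closed of
characteristic `p`.  `s A` (`A` with `0 ≤ A_i < p`) is homogeneous of degree
`∑ (p-1-A_i) w_i`, and the `s A` are independent over `p`-th powers.  Then they span `R` over the
`p`-th powers.

Proof.  It suffices to treat homogeneous `Q`, of degree `d`.  The space `R_d` has the basis of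
monomials `x^C`, `∑ C_i w_i = d`.  The map `(A, B) ↦ C = (p-1-A_i + p B_i)_i` is a bijection from
pairs with `0 ≤ A_i < p` to all exponents `C`.  So the family `x^(pB) s_A`, indexed by the pairs
with `∑ (p-1-A_i + p B_i) w_i = d`, has as many members as `dim R_d`, lies in `R_d`, and it is
linearly independent over `k`: a relation `∑ c_(A,B) x^(pB) s_A = 0` is, with
`c_(A,B) = b_(A,B)^p` (roots exist in `k`), `∑_A (∑_B b_(A,B) x^B)^p s_A = 0`.  Hence it is a basis
of `R_d`, and `Q = ∑ c_(A,B) x^(pB) s_A = ∑_A (∑_B b_(A,B) x^B)^p s_A`.  For general `Q` add up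
the homogeneous components (`(g + g')^p = g^p + g'^p`).
-/

set_option autoImplicit false

namespace Pool.Agent.DM

open Finset MvPolynomial

variable {k : Type*} [Field k] [IsAlgClosed k] {N : ℕ}

omit [IsAlgClosed k] in
private lemma monomial_pow_mul (p : ℕ) (B : Fin N →₀ ℕ) (b c : k) (hb : b ^ p = c)
    (S : MvPolynomial (Fin N) k) :
    (monomial B b : MvPolynomial (Fin N) k) ^ p * S =
      c • ((monomial B 1 : MvPolynomial (Fin N) k) ^ p * S) := by
  have h1 : (monomial B b : MvPolynomial (Fin N) k) = C b * monomial B 1 := by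
    rw [C_mul_monomial, mul_one]
  rw [h1, mul_pow, ← map_pow, hb, mul_assoc, ← smul_eq_C_mul]

private def eA (p : ℕ) (D : Fin N →₀ ℕ) : Fin N → ℕ := fun i => p - 1 - D i % p

private noncomputable def eB (p : ℕ) (D : Fin N →₀ ℕ) : Fin N →₀ ℕ :=
  Finsupp.equivFunOnFinite.symm fun i => D i / p

private lemma eB_apply (p : ℕ) (D : Fin N →₀ ℕ) (i : Fin N) : eB p D i = D i / p := rfl

private lemma eA_mem {p : ℕ} (hp : 0 < p) (D : Fin N →₀ ℕ) : eA p D ∈ Ap N p := by
  unfold Ap
  rw [Fintype.mem_piFinset]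
  intro i
  rw [mem_range]
  unfold eA
  omega

private lemma e_inj {p : ℕ} (hp : 0 < p) {D D' : Fin N →₀ ℕ} (hA : eA p D = eA p D')
    (hB : eB p D = eB p D') : D = D' := by
  ext i
  have h1 := congrFun hA i
  have h2 := DFunLike.congr_fun hB i
  rw [eB_apply, eB_apply] at h2
  have h3 := Nat.mod_lt (D i) hp
  have h4 := Nat.mod_lt (D' i) hp
  have h5 : D i % p = D' i % p := by
    unfold eA at h1
    omega
  rw [← Nat.div_add_mod (D i) p, ← Nat.div_add_mod (D' i) p, h2, h5]

private noncomputable def FF (p : ℕ) (s : (Fin N → ℕ) → MvPolynomial (Fin N) k)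
    (D : Fin N →₀ ℕ) : MvPolynomial (Fin N) k :=
  (monomial (eB p D) 1) ^ p * s (eA p D)

private lemma FF_li (p : ℕ) [Fact p.Prime] [CharP k p]
    (s : (Fin N → ℕ) → MvPolynomial (Fin N) k)
    (hind : ∀ g : (Fin N → ℕ) → MvPolynomial (Fin N) k, ∑ A ∈ Ap N p, g A ^ p * s A = 0 →
      ∀ A ∈ Ap N p, g A = 0) : LinearIndependent k (FF p s) := by
  classical
  have hp : 0 < p := (Fact.out : p.Prime).pos
  rw [linearIndependent_iff']
  intro t c hc D₀ hD₀
  have hroot : ∀ D : Fin N →₀ ℕ, ∃ b : k, b ^ p = c D := fun D =>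
    IsAlgClosed.exists_pow_nat_eq _ hp
  choose b hb using hroot
  let G : (Fin N → ℕ) → MvPolynomial (Fin N) k := fun A =>
    ∑ D ∈ t.filter (fun D => eA p D = A), monomial (eB p D) (b D)
  have hG : ∑ A ∈ Ap N p, G A ^ p * s A = 0 := by
    rw [← hc, ← Finset.sum_fiberwise_of_maps_to (s := t) (t := Ap N p) (g := fun D => eA p D)
      (fun D _ => eA_mem hp D)]
    refine sum_congr rfl fun A _ => ?_
    change (∑ D ∈ t.filter (fun D => eA p D = A), monomial (eB p D) (b D)) ^ p * s A = _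
    rw [sum_pow_char, Finset.sum_mul]
    refine sum_congr rfl fun D hD => ?_
    rw [Finset.mem_filter] at hD
    rw [monomial_pow_mul p _ _ _ (hb D), ← hD.2]
    rfl
  have h1 := hind G hG (eA p D₀) (eA_mem hp D₀)
  have h2 := congrArg (coeff (eB p D₀)) h1
  change coeff (eB p D₀) (∑ D ∈ t.filter (fun D => eA p D = eA p D₀),
    monomial (eB p D) (b D)) = _ at h2
  rw [coeff_sum, coeff_zero, Finset.sum_eq_single D₀] at h2
  · rw [coeff_monomial, if_pos rfl] at h2
    rw [← hb D₀, h2, zero_pow hp.ne']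
  · intro D hD hne
    rw [Finset.mem_filter] at hD
    rw [coeff_monomial, if_neg]
    intro h3
    exact hne (e_inj hp hD.2 h3)
  · intro h3
    exact absurd (Finset.mem_filter.2 ⟨hD₀, Eq.refl (eA p D₀)⟩) h3

omit [IsAlgClosed k] in
private lemma FF_hom (p : ℕ) (hp : 0 < p) (w : Fin N → ℕ)
    (s : (Fin N → ℕ) → MvPolynomial (Fin N) k)
    (hs : ∀ A ∈ Ap N p, IsWeightedHomogeneous w (s A) (∑ i, (p - 1 - A i) * w i))
    (D : Fin N →₀ ℕ) : IsWeightedHomogeneous w (FF p s D) (Finsupp.weight w D) := by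
  have h1 : IsWeightedHomogeneous w (monomial (eB p D) (1 : k)) (Finsupp.weight w (eB p D)) :=
    isWeightedHomogeneous_monomial w _ _ rfl
  have h2 := (h1.pow p).mul (hs _ (eA_mem hp D))
  unfold FF
  convert h2 using 1
  rw [Finsupp.weight_apply, Finsupp.weight_apply, Finsupp.sum_fintype _ _ (by simp),
    Finsupp.sum_fintype _ _ (by simp), Finset.smul_sum, ← Finset.sum_add_distrib]
  refine sum_congr rfl fun i _ => ?_
  rw [smul_eq_mul, smul_eq_mul, smul_eq_mul, eB_apply]
  have h3 := Nat.mod_lt (D i) hp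
  have h4 : p - 1 - eA p D i = D i % p := by
    unfold eA
    omega
  rw [h4, ← mul_assoc, ← add_mul, Nat.div_add_mod]

/-- the combinations of the `s A` over `p`-th powers -/
private def ZZ (p : ℕ) [Fact p.Prime] [CharP k p] (s : (Fin N → ℕ) → MvPolynomial (Fin N) k) :
    Submodule k (MvPolynomial (Fin N) k) where
  carrier := {Q | ∃ g : (Fin N → ℕ) → MvPolynomial (Fin N) k, Q = ∑ A ∈ Ap N p, g A ^ p * s A}
  zero_mem' := by
    refine ⟨fun _ => 0, ?_⟩
    simp only [zero_pow (Fact.out : p.Prime).pos.ne', zero_mul, Finset.sum_const_zero]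
  add_mem' := by
    rintro _ _ ⟨g, rfl⟩ ⟨g', rfl⟩
    refine ⟨fun A => g A + g' A, ?_⟩
    simp only [add_pow_char, add_mul, Finset.sum_add_distrib]
  smul_mem' := by
    rintro c _ ⟨g, rfl⟩
    obtain ⟨b, hb⟩ := IsAlgClosed.exists_pow_nat_eq c (Fact.out : p.Prime).pos
    refine ⟨fun A => C b * g A, ?_⟩
    rw [Finset.smul_sum]
    refine sum_congr rfl fun A _ => ?_
    rw [mul_pow, ← map_pow, hb, mul_assoc, smul_eq_C_mul]

private lemma FF_mem (p : ℕ) [Fact p.Prime] [CharP k p]
    (s : (Fin N → ℕ) → MvPolynomial (Fin N) k) (D : Fin N →₀ ℕ) : FF p s D ∈ ZZ p s := by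
  classical
  have hp : 0 < p := (Fact.out : p.Prime).pos
  refine ⟨fun A => if A = eA p D then monomial (eB p D) 1 else 0, ?_⟩
  rw [Finset.sum_eq_single (eA p D)]
  · simp only [if_true]
    rfl
  · intro A _ hA
    simp only [if_neg hA]
    rw [zero_pow hp.ne', zero_mul]
  · intro h
    exact absurd (eA_mem hp D) h

theorem basis_of_weights (p : ℕ) [Fact p.Prime] [CharP k p] (w : Fin N → ℕ) (hw : ∀ i, 0 < w i)
    (s : (Fin N → ℕ) → MvPolynomial (Fin N) k)
    (hs : ∀ A ∈ Ap N p, IsWeightedHomogeneous w (s A) (∑ i, (p - 1 - A i) * w i))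
    (hind : ∀ g : (Fin N → ℕ) → MvPolynomial (Fin N) k, ∑ A ∈ Ap N p, g A ^ p * s A = 0 →
      ∀ A ∈ Ap N p, g A = 0) (Q : MvPolynomial (Fin N) k) :
    ∃ g : (Fin N → ℕ) → MvPolynomial (Fin N) k, Q = ∑ A ∈ Ap N p, g A ^ p * s A := by
  classical
  have hp : 0 < p := (Fact.out : p.Prime).pos
  change Q ∈ ZZ p s
  have hmono : ∀ D : Fin N →₀ ℕ, (monomial D 1 : MvPolynomial (Fin N) k) ∈ ZZ p s := by
    intro D₀
    let T : Set (Fin N →₀ ℕ) := {D | Finsupp.weight w D = Finsupp.weight w D₀}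
    have hT : T.Finite := Finsupp.finite_of_nat_weight_eq w (fun i => (hw i).ne') _
    have : Fintype T := hT.fintype
    let W : Submodule k (MvPolynomial (Fin N) k) :=
      Submodule.span k (Set.range fun D : T => (monomial (D : Fin N →₀ ℕ) (1 : k)))
    have : FiniteDimensional k W :=
      FiniteDimensional.span_of_finite k (Set.finite_range _)
    have hW : Module.finrank k W ≤ Fintype.card T := finrank_range_le_card _
    have hli : LinearIndependent k (fun D : T => FF p s (D : Fin N →₀ ℕ)) :=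
      (FF_li p s hind).comp _ Subtype.val_injective
    have hfr := finrank_span_eq_card hli
    have hle : Submodule.span k (Set.range fun D : T => FF p s (D : Fin N →₀ ℕ)) ≤ W := by
      rw [Submodule.span_le]
      rintro _ ⟨D, rfl⟩
      have h1 := FF_hom p hp w s hs (D : Fin N →₀ ℕ)
      change FF p s (D : Fin N →₀ ℕ) ∈ W
      rw [← (FF p s (D : Fin N →₀ ℕ)).support_sum_monomial_coeff]
      refine Submodule.sum_mem _ fun E hE => ?_
      have h2 : Finsupp.weight w E = Finsupp.weight w D₀ := by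
        rw [h1 (mem_support_iff.1 hE)]
        exact D.2
      have h3 : (monomial E (coeff E (FF p s (D : Fin N →₀ ℕ))) : MvPolynomial (Fin N) k) =
          coeff E (FF p s (D : Fin N →₀ ℕ)) • monomial E 1 := by
        rw [smul_monomial, smul_eq_mul, mul_one]
      rw [h3]
      exact Submodule.smul_mem _ _ (Submodule.subset_span ⟨⟨E, h2⟩, rfl⟩)
    have heq := Submodule.eq_of_le_of_finrank_le hle (hW.trans hfr.ge)
    have h4 : (monomial D₀ 1 : MvPolynomial (Fin N) k) ∈ W :=
      Submodule.subset_span ⟨⟨D₀, rfl⟩, rfl⟩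
    rw [← heq] at h4
    refine (Submodule.span_le.2 ?_) h4
    rintro _ ⟨D, rfl⟩
    exact FF_mem p s _
  rw [← Q.support_sum_monomial_coeff]
  refine Submodule.sum_mem _ fun E _ => ?_
  have h3 : (monomial E (coeff E Q) : MvPolynomial (Fin N) k) = coeff E Q • monomial E 1 := by
    rw [smul_monomial, smul_eq_mul, mul_one]
  rw [h3]
  exact Submodule.smul_mem _ _ (hmono E)

end Pool.Agent.DM
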