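import Pool.Agent.DM.WtMul

/-!
# DM, module Box: box products and `p`-th powers of spaces of functions
-/

set_option autoImplicit false

namespace Pool.Agent.DM

variable {k : Type*} [Field k] {Y Y' Y'' : Type*}

lemma box_mem {A : Submodule k (Y → k)} {B : Submodule k (Y' → k)} {f : Y → k} {f' : Y' → k}
    (hf : f ∈ A) (hf' : f' ∈ B) : box f f' ∈ bx A B :=
  Submodule.subset_span ⟨f, hf, f', hf', rfl⟩

/-- Induction principle. -/
lemma bx_induct {A : Submodule k (Y → k)} {B : Submodule k (Y' → k)} (K : Submodule k (Y × Y' → k))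
    (h : ∀ f ∈ A, ∀ f' ∈ B, box f f' ∈ K) : bx A B ≤ K := by
  refine Submodule.span_le.2 ?_
  rintro _ ⟨f, hf, f', hf', rfl⟩
  exact h f hf f' hf'

lemma bx_mono {A A' : Submodule k (Y → k)} {B B' : Submodule k (Y' → k)} (h : A ≤ A')
    (h' : B ≤ B') : bx A B ≤ bx A' B' :=
  bx_induct _ fun _ hf _ hf' => box_mem (h hf) (h' hf')

private lemma mem_bx_aux {A : Submodule k (Y → k)} {B : Submodule k (Y' → k)} {F : Y × Y' → k}
    (hF : F ∈ bx A B) : ∃ (n : ℕ) (a : Fin n → Y → k) (b : Fin n → Y' → k),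
      (∀ i, a i ∈ A) ∧ (∀ i, b i ∈ B) ∧ F = ∑ i, box (a i) (b i) := by
  refine Submodule.span_induction (p := fun F _ => ∃ (n : ℕ) (a : Fin n → Y → k)
    (b : Fin n → Y' → k), (∀ i, a i ∈ A) ∧ (∀ i, b i ∈ B) ∧ F = ∑ i, box (a i) (b i))
    ?_ ?_ ?_ ?_ hF
  · rintro _ ⟨f, hf, f', hf', rfl⟩
    exact ⟨1, fun _ => f, fun _ => f', fun _ => hf, fun _ => hf', by
      rw [Fin.sum_univ_one]
      rfl⟩
  · exact ⟨0, Fin.elim0, Fin.elim0, fun i => i.elim0, fun i => i.elim0, by simp⟩
  · rintro _ _ _ _ ⟨n, a, b, ha, hb, rfl⟩ ⟨m, c, d, hc, hd, rfl⟩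
    refine ⟨n + m, Fin.append a c, Fin.append b d, fun i => ?_, fun i => ?_, ?_⟩
    · refine Fin.addCases (fun j => ?_) (fun j => ?_) i
      · rw [Fin.append_left]
        exact ha j
      · rw [Fin.append_right]
        exact hc j
    · refine Fin.addCases (fun j => ?_) (fun j => ?_) i
      · rw [Fin.append_left]
        exact hb j
      · rw [Fin.append_right]
        exact hd j
    · rw [Fin.sum_univ_add]
      simp only [Fin.append_left, Fin.append_right]
  · rintro c _ _ ⟨n, a, b, ha, hb, rfl⟩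
    refine ⟨n, fun i => c • a i, b, fun i => A.smul_mem c (ha i), hb, ?_⟩
    rw [Finset.smul_sum]
    refine Finset.sum_congr rfl fun i _ => ?_
    funext y
    simp only [box, Pi.smul_apply, smul_eq_mul]
    ring

/-- Elements of `A ⊗ B` are finite sums of products with linearly independent left factors. -/
lemma mem_bx {A : Submodule k (Y → k)} {B : Submodule k (Y' → k)} {F : Y × Y' → k}
    (hF : F ∈ bx A B) : ∃ (n : ℕ) (a : Fin n → Y → k) (b : Fin n → Y' → k),
      (∀ i, a i ∈ A) ∧ (∀ i, b i ∈ B) ∧ LinearIndependent k a ∧ F = ∑ i, box (a i) (b i) := by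
  obtain ⟨m, a, b, ha, hb, rfl⟩ := mem_bx_aux hF
  obtain ⟨S, hS⟩ : ∃ S : Submodule k (Y → k), S = Submodule.span k (Set.range a) := ⟨_, rfl⟩
  have hSf : FiniteDimensional k S := by
    rw [hS]
    exact FiniteDimensional.span_of_finite k (Set.finite_range a)
  have hSA : S ≤ A := by
    rw [hS, Submodule.span_le]
    rintro _ ⟨i, rfl⟩
    exact ha i
  have haS : ∀ i, a i ∈ S := fun i => by
    rw [hS]
    exact Submodule.subset_span ⟨i, rfl⟩
  obtain ⟨e⟩ : Nonempty (Module.Basis (Fin (Module.finrank k S)) k S) := ⟨Module.finBasis k S⟩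
  refine ⟨Module.finrank k S, fun j => (e j : Y → k),
    fun j => ∑ i, e.repr ⟨a i, haS i⟩ j • b i, fun j => hSA (e j).2,
    fun j => Submodule.sum_mem _ fun i _ => B.smul_mem _ (hb i), ?_, ?_⟩
  · exact e.linearIndependent.map' S.subtype (Submodule.ker_subtype S)
  · have h1 : ∀ i, a i = ∑ j, e.repr ⟨a i, haS i⟩ j • (e j : Y → k) := by
      intro i
      have h2 := congrArg (fun x : S => (x : Y → k)) (e.sum_repr ⟨a i, haS i⟩)
      simp only [Submodule.coe_sum, Submodule.coe_smul] at h2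
      exact h2.symm
    funext y
    simp only [Finset.sum_apply, box, Pi.smul_apply, smul_eq_mul]
    have h3 : ∀ i, a i y.1 = ∑ j, e.repr ⟨a i, haS i⟩ j * (e j : Y → k) y.1 := by
      intro i
      have h4 := congrFun (h1 i) y.1
      simp only [Finset.sum_apply, Pi.smul_apply, smul_eq_mul] at h4
      exact h4
    simp only [h3, Finset.sum_mul, Finset.mul_sum]
    rw [Finset.sum_comm]
    refine Finset.sum_congr rfl fun j _ => Finset.sum_congr rfl fun i _ => ?_
    ring

/-- If the left factors are linearly independent the right factors are determined. -/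
lemma box_sum_eq_zero {n : ℕ} {a : Fin n → Y → k} (ha : LinearIndependent k a)
    {b : Fin n → Y' → k} (h : ∑ i, box (a i) (b i) = 0) (i : Fin n) : b i = 0 := by
  funext y'
  refine Fintype.linearIndependent_iff.1 ha (fun i => b i y') ?_ i
  funext y
  have h1 := congrFun h (y, y')
  simp only [Finset.sum_apply, box, Pi.zero_apply] at h1
  rw [Finset.sum_apply, Pi.zero_apply, ← h1]
  refine Finset.sum_congr rfl fun i _ => ?_
  rw [Pi.smul_apply, smul_eq_mul, mul_comm]

private lemma exists_dual {n : ℕ} {a : Fin n → Y → k} (ha : LinearIndependent k a) (i : Fin n) :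
    ∃ φ : (Y → k) →ₗ[k] k, ∀ j, φ (a j) = if j = i then 1 else 0 := by
  classical
  obtain ⟨φ, hφ⟩ := LinearMap.exists_extend ((Module.Basis.span ha).coord i)
  refine ⟨φ, fun j => ?_⟩
  have h1 := DFunLike.congr_fun hφ (Module.Basis.span ha j)
  rw [LinearMap.comp_apply, Submodule.subtype_apply, 
    Module.Basis.coord_apply, Module.Basis.repr_self, Finsupp.single_apply] at h1
  have h2 : ((Module.Basis.span ha j : Submodule.span k (Set.range a)) : Y → k) = a j := by
    rw [Module.Basis.span_apply]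
  rw [h2] at h1
  exact h1

/-- slices with a functional -/
private def slc (φ : (Y → k) →ₗ[k] k) : (Y × Y' → k) →ₗ[k] (Y' → k) where
  toFun F y' := φ fun y => F (y, y')
  map_add' F F' := by
    funext y'
    exact map_add φ (fun y => F (y, y')) (fun y => F' (y, y'))
  map_smul' c F := by
    funext y'
    exact map_smul φ c (fun y => F (y, y'))

private lemma slc_box (φ : (Y → k) →ₗ[k] k) (f : Y → k) (f' : Y' → k) :
    slc φ (box f f') = φ f • f' := by
  funext y'
  have h1 : (fun y => box f f' (y, y')) = f' y' • f := by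
    funext y
    simp only [box, Pi.smul_apply, smul_eq_mul]
    ring
  show φ (fun y => box f f' (y, y')) = _
  rw [h1, map_smul, Pi.smul_apply, smul_eq_mul, smul_eq_mul, mul_comm]

/-- More generally modulo a subspace: apply functionals `∑ c_j ev_(y_j)` on the left, dual to the
`a i`. -/
lemma box_sum_mem {n : ℕ} {a : Fin n → Y → k} (ha : LinearIndependent k a)
    {b : Fin n → Y' → k} {A : Submodule k (Y → k)} {B : Submodule k (Y' → k)}
    (h : ∑ i, box (a i) (b i) ∈ bx A B) (i : Fin n) : b i ∈ B := by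
  obtain ⟨φ, hφ⟩ := exists_dual ha i
  have h1 : bx A B ≤ B.comap (slc φ) := by
    refine bx_induct _ fun f _ f' hf' => ?_
    rw [Submodule.mem_comap, slc_box]
    exact B.smul_mem _ hf'
  have h2 := h1 h
  rw [Submodule.mem_comap, map_sum] at h2
  simp only [slc_box, hφ, ite_smul, one_smul, zero_smul] at h2
  rwa [Finset.sum_ite_eq' Finset.univ i, if_pos (Finset.mem_univ i)] at h2

/-- slices of elements of `A ⊗ B` -/
lemma bx_slice {A : Submodule k (Y → k)} {B : Submodule k (Y' → k)} {F : Y × Y' → k}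
    (hF : F ∈ bx A B) (y' : Y') : (fun y => F (y, y')) ∈ A := by
  have h1 : bx A B ≤ A.comap (LinearMap.funLeft k k fun y : Y => (y, y')) := by
    refine bx_induct _ fun f hf f' _ => ?_
    rw [Submodule.mem_comap]
    have h2 : LinearMap.funLeft k k (fun y : Y => (y, y')) (box f f') = f' y' • f := by
      funext y
      simp only [LinearMap.funLeft_apply, box, Pi.smul_apply, smul_eq_mul]
      ring
    rw [h2]
    exact A.smul_mem _ hf
  exact h1 hF

section frob

variable (p : ℕ) [Fact p.Prime] [CharP k p] [IsAlgClosed k]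

omit [IsAlgClosed k] in
private lemma frob_add_aux (f f' : Y → k) : (f + f') ^ p = f ^ p + f' ^ p := by
  funext y
  exact add_pow_char (f y) (f' y) p

omit [IsAlgClosed k] in
private lemma frob_sum_aux {ι : Type*} (F : Finset ι) (f : ι → Y → k) :
    (∑ i ∈ F, f i) ^ p = ∑ i ∈ F, f i ^ p := by
  funext y
  simp only [Finset.sum_apply, Pi.pow_apply]
  exact sum_pow_char p F (fun i => f i y)

omit [Fact p.Prime] [CharP k p] [IsAlgClosed k] in
private lemma box_pow (f : Y → k) (f' : Y' → k) : box (f ^ p) (f' ^ p) = box f f' ^ p := by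
  funext y
  simp only [box, Pi.pow_apply, mul_pow]

/-- over an algebraically closed field `fr p A` consists of the `p`-th powers -/
lemma mem_fr {A : Submodule k (Y → k)} {F : Y → k} : F ∈ fr p A ↔ ∃ f ∈ A, F = f ^ p := by
  constructor
  · intro hF
    refine Submodule.span_induction (p := fun F _ => ∃ f ∈ A, F = f ^ p) ?_ ?_ ?_ ?_ hF
    · rintro _ ⟨f, hf, rfl⟩
      exact ⟨f, hf, rfl⟩
    · exact ⟨0, zero_mem _, by rw [zero_pow (Fact.out : p.Prime).ne_zero]⟩
    · rintro _ _ _ _ ⟨f, hf, rfl⟩ ⟨f', hf', rfl⟩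
      exact ⟨f + f', add_mem hf hf', (frob_add_aux p f f').symm⟩
    · rintro c _ _ ⟨f, hf, rfl⟩
      obtain ⟨d, hd⟩ := IsAlgClosed.exists_pow_nat_eq c (Fact.out : p.Prime).pos
      refine ⟨d • f, A.smul_mem _ hf, ?_⟩
      rw [smul_pow, hd]
  · rintro ⟨f, hf, rfl⟩
    exact Submodule.subset_span ⟨f, hf, rfl⟩

lemma fr_bx (A : Submodule k (Y → k)) (B : Submodule k (Y' → k)) :
    fr p (bx A B) = bx (fr p A) (fr p B) := by
  apply le_antisymm
  · intro F hF
    obtain ⟨f, hf, rfl⟩ := (mem_fr p).1 hF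
    obtain ⟨n, a, b, ha, hb, rfl⟩ := mem_bx_aux hf
    rw [frob_sum_aux]
    refine Submodule.sum_mem _ fun i _ => ?_
    rw [← box_pow]
    exact box_mem ((mem_fr p).2 ⟨_, ha i, rfl⟩) ((mem_fr p).2 ⟨_, hb i, rfl⟩)
  · refine bx_induct _ fun f hf f' hf' => ?_
    obtain ⟨g, hg, rfl⟩ := (mem_fr p).1 hf
    obtain ⟨g', hg', rfl⟩ := (mem_fr p).1 hf'
    rw [box_pow]
    exact (mem_fr p).2 ⟨_, box_mem hg hg', rfl⟩

lemma fr_mono {A A' : Submodule k (Y → k)} (h : A ≤ A') : fr p A ≤ fr p A' := by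
  intro F hF
  obtain ⟨f, hf, rfl⟩ := (mem_fr p).1 hF
  exact (mem_fr p).2 ⟨f, h hf, rfl⟩

/-- `p`-th powers are injective on functions -/
lemma frob_inj {f f' : Y → k} (h : f ^ p = f' ^ p) : f = f' := by
  funext y
  have h1 := congrFun h y
  rw [Pi.pow_apply, Pi.pow_apply] at h1
  exact frobenius_inj k p h1

/-- `(f + f')^p = f^p + f'^p`, `(f - f')^p = f^p - f'^p` for functions -/
lemma frob_add (f f' : Y → k) : (f + f') ^ p = f ^ p + f' ^ p := by
  exact frob_add_aux p f f'

lemma frob_sub (f f' : Y → k) : (f - f') ^ p = f ^ p - f' ^ p := by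
  rw [eq_sub_iff_add_eq, ← frob_add_aux, sub_add_cancel]

end frob

end Pool.Agent.DM
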