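import Mathlib

/-!
# DM, module Pow: powers of subspaces of a domain

`A` a commutative domain over the field `k`, `L, Z` finite dimensional subspaces, `0 < q`,
`Z L^d ⊆ L^(d+q)` for all `d ≥ D`.  Then `Z^M ⊆ L^(Mq)` for all large `M`.

Proof.  Work in `A[T]` (`Polynomial A`).  Let `𝓡` be the subalgebra generated by the `a T`,
`a ∈ L`; it is a finitely generated `k`-algebra, so noetherian; the coefficient of `T^d` of an
element of `𝓡` lies in `L^d`, and `a T^d ∈ 𝓡` for `a ∈ L^d`.  Take `r ∈ L^D`, `r ≠ 0` (a power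
of a nonzero element of `L`).  By the hypothesis `Z^j L^d ⊆ L^(d+jq)` for `d ≥ D` (induction), in
particular `r z ∈ L^(D+jq)` for `z ∈ Z^j`.  Let `𝓙_K` be the ideal of `𝓡` generated by the
`r z T^(D+jq)`, `j ≤ K`, `z ∈ Z^j`.  The chain `𝓙_0 ⊆ 𝓙_1 ⊆ …` stops: `𝓙_(K+1) = 𝓙_K` for some
`K`.  For `z ∈ Z^(K+1)` we get `r z T^(D+(K+1)q) = ∑ r z_i T^(D+j_i q) ρ_i` with `j_i ≤ K`,
`z_i ∈ Z^(j_i)`, `ρ_i ∈ 𝓡`; compare the coefficients of `T^(D+(K+1)q)` and cancel `r`:
  (1) `Z^(K+1) ⊆ ∑_(j≤K) Z^j L^((K+1-j)q)`.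
By induction on `M ≥ K`: (2) `Z^M ⊆ ∑_(j≤K) Z^j L^((M-j)q)`: `M = K` is trivial, and
`Z (Z^j L^((M-j)q))` is the term with index `j+1` if `j < K`, and for `j = K` use (1).
For `M ≥ K + D` all terms satisfy `(M-j)q ≥ D`, so `Z^j L^((M-j)q) ⊆ L^(Mq)`.
-/

set_option autoImplicit false

namespace Pool.Agent.DM

open Polynomial

variable {k : Type*} [Field k] {A : Type*} [CommRing A] [IsDomain A] [Algebra k A]

/-- The polynomials whose coefficient of `T^d` lies in `L^d`. -/
private def powRees (L : Submodule k A) : Subalgebra k A[X] where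
  carrier := {f | ∀ d, f.coeff d ∈ L ^ d}
  mul_mem' := by
    intro f g hf hg d
    rw [Polynomial.coeff_mul]
    refine Submodule.sum_mem _ fun p hp => ?_
    rw [Finset.HasAntidiagonal.mem_antidiagonal] at hp
    rw [← hp, pow_add]
    exact Submodule.mul_mem_mul (hf _) (hg _)
  add_mem' := by
    intro f g hf hg d
    rw [Polynomial.coeff_add]
    exact Submodule.add_mem _ (hf d) (hg d)
  algebraMap_mem' := by
    intro c d
    rw [Polynomial.algebraMap_apply, Polynomial.coeff_C]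
    split_ifs with h
    · subst h
      rw [pow_zero]
      exact Submodule.algebraMap_mem c
    · exact Submodule.zero_mem _

/-- `Z^j L^d ⊆ L^(d+jq)` for `d ≥ D`. -/
private theorem pow_mul_le_iter (L Z : Submodule k A) (D q : ℕ)
    (h : ∀ d, D ≤ d → Z * L ^ d ≤ L ^ (d + q)) (j : ℕ) :
    ∀ d, D ≤ d → Z ^ j * L ^ d ≤ L ^ (d + j * q) := by
  induction j with
  | zero => intro d _; simp
  | succ j ih =>
    intro d hd
    rw [pow_succ, mul_assoc]
    calc Z ^ j * (Z * L ^ d) ≤ Z ^ j * L ^ (d + q) := mul_le_mul_right (h d hd) _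
      _ ≤ L ^ (d + q + j * q) := ih _ (by omega)
      _ = L ^ (d + (j + 1) * q) := by congr 1; ring

/-- The sum of the `Z^j L^(n-D-jq)` with `j ≤ K`, `D + jq ≤ n`. -/
private def powW (L Z : Submodule k A) (D q K n : ℕ) : Submodule k A :=
  ⨆ j : {j : ℕ // j ≤ K ∧ D + j * q ≤ n}, Z ^ (j : ℕ) * L ^ (n - D - (j : ℕ) * q)

private theorem powW_mul (L Z : Submodule k A) (D q K n a : ℕ) :
    L ^ a * powW L Z D q K n ≤ powW L Z D q K (a + n) := by
  unfold powW
  rw [Submodule.mul_iSup]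
  refine iSup_le fun j => ?_
  refine le_trans ?_ (le_iSup _ (⟨j.1, j.2.1, by have := j.2.2; omega⟩ :
    {j : ℕ // j ≤ K ∧ D + j * q ≤ a + n}))
  show L ^ a * (Z ^ (j : ℕ) * L ^ (n - D - (j : ℕ) * q)) ≤
    Z ^ (j : ℕ) * L ^ (a + n - D - (j : ℕ) * q)
  have h1 : a + n - D - (j : ℕ) * q = a + (n - D - (j : ℕ) * q) := by
    have := j.2.2
    omega
  rw [h1, pow_add, mul_left_comm]

/-- Main step: (1). -/
private theorem pow_step (L Z : Submodule k A) (hL : L.FG) (D q : ℕ)
    (hL0 : L ≠ ⊥) (h : ∀ d, D ≤ d → Z * L ^ d ≤ L ^ (d + q)) :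
    ∃ K : ℕ, Z ^ (K + 1) ≤ ⨆ j : {j : ℕ // j ≤ K}, Z ^ (j : ℕ) * L ^ ((K + 1 - (j : ℕ)) * q) := by
  classical
  obtain ⟨S, hS⟩ := hL
  set R : Subalgebra k A[X] := Algebra.adjoin k ((S.image fun a => monomial 1 a : Finset A[X]) :
    Set A[X]) with hR
  have : IsNoetherianRing R := isNoetherianRing_of_fg ⟨_, rfl⟩
  have hRle : R ≤ powRees L := by
    rw [hR, Algebra.adjoin_le_iff]
    intro f hf
    rw [Finset.mem_coe, Finset.mem_image] at hf
    obtain ⟨a, ha, rfl⟩ := hf
    intro d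
    rw [coeff_monomial]
    split_ifs with hd
    · subst hd
      rw [pow_one, ← hS]
      exact Submodule.subset_span ha
    · exact Submodule.zero_mem _
  have hmem : ∀ d : ℕ, ∀ a ∈ L ^ d, monomial d a ∈ R := by
    intro d
    induction d with
    | zero =>
      intro a ha
      rw [pow_zero, Submodule.mem_one] at ha
      obtain ⟨c, rfl⟩ := ha
      exact R.algebraMap_mem c
    | succ d ih =>
      intro a ha
      rw [pow_succ'] at ha
      refine Submodule.mul_induction_on ha ?_ ?_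
      · intro x hx y hy
        have h1 : monomial (d + 1) (x * y) = monomial 1 x * monomial d y := by
          rw [monomial_mul_monomial, add_comm]
        rw [h1]
        refine R.mul_mem ?_ (ih y hy)
        rw [← hS] at hx
        refine Submodule.span_induction (p := fun x _ => monomial 1 x ∈ R) ?_ ?_ ?_ ?_ hx
        · intro x hx
          exact Algebra.subset_adjoin (by simpa using ⟨x, hx, rfl⟩)
        · simp
        · intro x y _ _ hx hy
          rw [map_add]
          exact R.add_mem hx hy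
        · intro c x _ hx
          rw [← smul_monomial]
          exact R.smul_mem hx c
      · intro x y hx hy
        rw [map_add]
        exact R.add_mem hx hy
  obtain ⟨a, haL, ha0⟩ := (Submodule.ne_bot_iff L).1 hL0
  set r : A := a ^ D with hr
  have hr0 : r ≠ 0 := pow_ne_zero _ ha0
  have hrL : r ∈ L ^ D := Submodule.pow_mem_pow L haL D
  -- the chain of ideals
  let J : ℕ →o Ideal R :=
    { toFun := fun K => Ideal.span {x : R | ∃ j ≤ K, ∃ z ∈ Z ^ j,
        (x : A[X]) = monomial (D + j * q) (r * z)}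
      monotone' := by
        intro K K' hK
        refine Ideal.span_mono ?_
        rintro x ⟨j, hj, z, hz, hx⟩
        exact ⟨j, le_trans hj hK, z, hz, hx⟩ }
  obtain ⟨K, hK⟩ := (monotone_stabilizes_iff_noetherian (R := R) (M := R)).2 inferInstance J
  refine ⟨K, fun z hz => ?_⟩
  have hkey : ∀ x ∈ J K, ∀ n, ∃ w ∈ powW L Z D q K n, (x : A[X]).coeff n = r * w := by
    intro x hx
    refine Submodule.span_induction (p := fun (x : R) _ =>
      ∀ n, ∃ w ∈ powW L Z D q K n, (x : A[X]).coeff n = r * w) ?_ ?_ ?_ ?_ hx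
    · rintro x ⟨j, hj, z, hz, hx⟩ n
      rw [hx, coeff_monomial]
      split_ifs with hn
      · refine ⟨z, ?_, rfl⟩
        refine Submodule.mem_iSup_of_mem (⟨j, hj, by omega⟩ :
          {j : ℕ // j ≤ K ∧ D + j * q ≤ n}) ?_
        have h1 : n - D - j * q = 0 := by omega
        show z ∈ Z ^ j * L ^ (n - D - j * q)
        rw [h1, pow_zero, mul_one]
        exact hz
      · exact ⟨0, Submodule.zero_mem _, by simp⟩
    · intro n
      exact ⟨0, Submodule.zero_mem _, by simp⟩
    · intro x y _ _ hx hy n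
      obtain ⟨w, hw, hw'⟩ := hx n
      obtain ⟨v, hv, hv'⟩ := hy n
      exact ⟨w + v, Submodule.add_mem _ hw hv, by
        rw [Subalgebra.coe_add, coeff_add, hw', hv', mul_add]⟩
    · intro ρ x _ hx n
      choose w hw hw' using hx
      refine ⟨∑ p ∈ Finset.HasAntidiagonal.antidiagonal n, (ρ : A[X]).coeff p.1 * w p.2, ?_, ?_⟩
      · refine Submodule.sum_mem _ fun p hp => ?_
        rw [Finset.HasAntidiagonal.mem_antidiagonal] at hp
        rw [← hp]
        exact powW_mul L Z D q K p.2 p.1 (Submodule.mul_mem_mul (hRle ρ.2 p.1) (hw _))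
      · rw [smul_eq_mul, Subalgebra.coe_mul, coeff_mul, Finset.mul_sum]
        refine Finset.sum_congr rfl fun p _ => ?_
        rw [hw']
        ring
  have hrz : r * z ∈ L ^ (D + (K + 1) * q) := by
    refine pow_mul_le_iter L Z D q h (K + 1) D le_rfl ?_
    rw [mul_comm r z]
    exact Submodule.mul_mem_mul hz hrL
  have hx : (⟨monomial (D + (K + 1) * q) (r * z), hmem _ _ hrz⟩ : R) ∈ J K := by
    rw [hK (K + 1) (Nat.le_succ K)]
    exact Ideal.subset_span ⟨K + 1, le_rfl, z, hz, rfl⟩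
  obtain ⟨w, hw, hw'⟩ := hkey _ hx (D + (K + 1) * q)
  rw [coeff_monomial, if_pos rfl] at hw'
  have hzw : z = w := mul_left_cancel₀ hr0 hw'
  rw [hzw]
  refine (iSup_le fun j => ?_ : powW L Z D q K (D + (K + 1) * q) ≤ _) hw
  refine le_trans (le_of_eq ?_) (le_iSup _ (⟨j.1, j.2.1⟩ : {j : ℕ // j ≤ K}))
  have h1 : D + (K + 1) * q - D - (j : ℕ) * q = (K + 1 - (j : ℕ)) * q := by
    rw [Nat.add_sub_cancel_left, Nat.sub_mul]
  rw [h1]

theorem pow_le_of_mul_le (L Z : Submodule k A) (hL : L.FG) (hZ : Z.FG) (D q : ℕ) (hq : 0 < q)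
    (hL0 : L ≠ ⊥) (h : ∀ d, D ≤ d → Z * L ^ d ≤ L ^ (d + q)) :
    ∃ M₀ : ℕ, ∀ M, M₀ ≤ M → Z ^ M ≤ L ^ (M * q) := by
  obtain ⟨K, hK⟩ := pow_step L Z hL D q hL0 h
  have h2 : ∀ m : ℕ, Z ^ (K + m) ≤
      ⨆ j : {j : ℕ // j ≤ K}, Z ^ (j : ℕ) * L ^ ((K + m - (j : ℕ)) * q) := by
    intro m
    induction m with
    | zero =>
      refine le_trans (le_of_eq ?_) (le_iSup _ (⟨K, le_rfl⟩ : {j : ℕ // j ≤ K}))
      simp
    | succ m ih =>
      rw [← add_assoc, pow_succ']
      refine (mul_le_mul_right ih _).trans ?_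
      rw [Submodule.mul_iSup]
      refine iSup_le fun j => ?_
      rw [← mul_assoc, ← pow_succ']
      rcases Nat.lt_or_ge j.1 K with hj | hj
      · refine le_trans (le_of_eq ?_) (le_iSup _ (⟨j.1 + 1, hj⟩ : {j : ℕ // j ≤ K}))
        show Z ^ ((j : ℕ) + 1) * L ^ ((K + m - (j : ℕ)) * q) =
          Z ^ ((j : ℕ) + 1) * L ^ ((K + m + 1 - ((j : ℕ) + 1)) * q)
        congr 3
        omega
      · have hj' : (j : ℕ) = K := le_antisymm j.2 hj
        rw [hj']
        refine (mul_le_mul_left hK _).trans ?_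
        rw [Submodule.iSup_mul]
        refine iSup_le fun i => ?_
        refine le_trans (le_of_eq ?_) (le_iSup _ i)
        rw [mul_assoc, ← pow_add, ← Nat.add_mul]
        congr 3
        have := i.2
        omega
  refine ⟨K + D, fun M hM => ?_⟩
  obtain ⟨m, rfl⟩ := Nat.exists_eq_add_of_le (show K ≤ M by omega)
  refine (h2 m).trans (iSup_le fun j => ?_)
  have hj := j.2
  have hd : D ≤ (K + m - (j : ℕ)) * q :=
    le_trans (show D ≤ K + m - (j : ℕ) by omega) (Nat.le_mul_of_pos_right _ hq)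
  refine (pow_mul_le_iter L Z D q h j _ hd).trans (le_of_eq ?_)
  rw [← Nat.add_mul]
  congr 2
  omega

end Pool.Agent.DM
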