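import Pool.Agent.DM.PIb
import Pool.Agent.DM.Pow

/-!
# DM, module PIc: `x^(p^e)` is a polynomial in the translates of `v`

Proof of `pure_insep`.  Let `e, j` be as in `pi_mul`, `q' = p^e`.  Work in the domain
`A = MvPolynomial (Fin P.N) k` with `L = P.Lu v` (finite dimensional: `Lsp v ≤ Ind n`, `Ind_fin`;
nonzero: it contains `1`) and `Z` the span of the `Q^q'`, `Q` restriction of an element of
`Ind n` (finite dimensional: spanned by the `q'`-th powers of the restrictions of a basis).  Let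
`g_1 v, …, g_r v` span `Lsp v` (`r = dim`).  Then `L^d` is spanned by the restrictions of the
monomials of degree `d` in the `g_i v`; if `d ≥ D = r j` such a monomial contains some `(g_i v)^j`,
so by `pi_mul` (restricted to `U`, `Lu_pow`) `Z L^d ⊆ L^(d+q')`.  By `pow_le_of_mul_le` there is
`M₀` with `Z^M ≤ L^(M q')` for `M ≥ M₀`; take `M = p^m ≥ M₀`.  For `x ∈ Ind n` with restriction
`Q`, `Q^(p^(e+m)) = (Q^q')^M ∈ L^(M q') = L^(p^(e+m))`, so by `Lu_pow` there is
`f ∈ (Lsp v)^(p^(e+m))` with the same restriction as `x^(p^(e+m))`; both are in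
`Ind(p^(e+m) • n)`, so they are equal.
-/

set_option autoImplicit false

namespace Pool.Agent.DM

open MvPolynomial

section aux

variable {k : Type*} [Field k] {A : Type*} [CommRing A] [Algebra k A]

private lemma prod_mem_pow (L : Submodule k A) {ι : Type*} [DecidableEq ι] (K : Finset ι)
    (f : ι → A) (h : ∀ i ∈ K, f i ∈ L) : ∏ i ∈ K, f i ∈ L ^ K.card := by
  induction K using Finset.induction_on with
  | empty =>
    rw [Finset.prod_empty, Finset.card_empty, pow_zero]
    exact Submodule.one_le.1 le_rfl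
  | insert a K ha ih =>
    rw [Finset.prod_insert ha, Finset.card_insert_of_notMem ha, pow_succ']
    exact Submodule.mul_mem_mul (h a (Finset.mem_insert_self _ _))
      (ih fun i hi => h i (Finset.mem_insert_of_mem hi))

/-- pigeonhole: monomials of large degree contain a large power of a generator -/
private lemma mul_pow_le (S : Finset A) (hS : S.Nonempty) (j q : ℕ) (z : A)
    (h : ∀ t ∈ S, z * t ^ j ∈ Submodule.span k (S : Set A) ^ (q + j)) (d : ℕ)
    (hd : S.card * j ≤ d) (x : A) (hx : x ∈ Submodule.span k (S : Set A) ^ d) :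
    z * x ∈ Submodule.span k (S : Set A) ^ (d + q) := by
  classical
  have hx' := hx
  rw [Submodule.span_pow] at hx'
  refine Submodule.span_induction
    (p := fun x _ => z * x ∈ Submodule.span k (S : Set A) ^ (d + q)) ?_ ?_ ?_ ?_ hx'
  · intro x hx
    obtain ⟨f, hf⟩ := Set.mem_pow.1 hx
    rw [List.prod_ofFn] at hf
    obtain ⟨t, ht, htj⟩ := Finset.exists_le_card_fiber_of_mul_le_card_of_maps_to
      (s := (Finset.univ : Finset (Fin d))) (t := S) (f := fun i => (f i : A)) (n := j)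
      (fun i _ => (f i).2) hS (by rw [Finset.card_univ, Fintype.card_fin]; exact hd)
    have h1 := Finset.prod_filter_mul_prod_filter_not (Finset.univ : Finset (Fin d))
      (fun i => (f i : A) = t) (fun i => (f i : A))
    have h2 : ∏ i ∈ Finset.univ.filter (fun i => (f i : A) = t), (f i : A) =
        t ^ (Finset.univ.filter (fun i => (f i : A) = t)).card := by
      rw [Finset.prod_congr rfl (fun i hi => (Finset.mem_filter.1 hi).2), Finset.prod_const]
    have h3 := prod_mem_pow (Submodule.span k (S : Set A))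
      (Finset.univ.filter (fun i => ¬ (f i : A) = t)) (fun i => (f i : A))
      (fun i _ => Submodule.subset_span (f i).2)
    have h4 := Finset.card_filter_add_card_filter_not (s := (Finset.univ : Finset (Fin d)))
      (fun i => (f i : A) = t)
    rw [Finset.card_univ, Fintype.card_fin] at h4
    obtain ⟨a, ha⟩ : ∃ a, (Finset.univ.filter (fun i => (f i : A) = t)).card = j + a :=
      Nat.exists_eq_add_of_le htj
    rw [h2, hf, ha, pow_add] at h1
    rw [ha] at h4
    rw [← h1]
    have h5 : z * (t ^ j * t ^ a * ∏ i ∈ Finset.univ.filter (fun i => ¬ (f i : A) = t), (f i : A)) =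
        (z * t ^ j) * (t ^ a * ∏ i ∈ Finset.univ.filter (fun i => ¬ (f i : A) = t), (f i : A)) := by
      ring
    rw [h5]
    have h6 : d + q = (q + j) + (a + (Finset.univ.filter (fun i => ¬ (f i : A) = t)).card) := by
      omega
    rw [h6, pow_add _ (q + j), pow_add _ a]
    exact Submodule.mul_mem_mul (h t ht) (Submodule.mul_mem_mul
      (Submodule.pow_mem_pow _ (Submodule.subset_span ht) a) h3)
  · rw [mul_zero]
    exact Submodule.zero_mem _
  · intro x y _ _ hx hy
    rw [mul_add]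
    exact Submodule.add_mem _ hx hy
  · intro c x _ hx
    rw [mul_smul_comm]
    exact Submodule.smul_mem _ _ hx

end aux

variable {k : Type*} [Field k] [IsAlgClosed k] [Infinite k] {G : Type*} [Group G]
  {T : Type*} [CommGroup T] {X : Type*} [AddCommGroup X] {P : PinData k G T X}

namespace PinData

omit [IsAlgClosed k] in
/-- restriction to `U` as a linear map -/
private lemma exists_rs (P : PinData k G T X) (n : X) :
    ∃ rs : P.Ind n →ₗ[k] MvPolynomial (Fin P.N) k, ∀ (f : P.Ind n) c,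
      (f : G → k) (P.u c) = eval c (rs f) := by
  have h : ∀ f : P.Ind n, ∃ Q : MvPolynomial (Fin P.N) k, ∀ c,
      (f : G → k) (P.u c) = eval c Q := by
    intro f
    obtain ⟨Q, hQ⟩ := polyMap_iff.1 (f.2.2 1)
    exact ⟨Q, fun c => by rw [← hQ c, one_mul]⟩
  choose r hr using h
  refine ⟨{ toFun := r, map_add' := ?_, map_smul' := ?_ }, hr⟩
  · intro f f'
    apply MvPolynomial.funext
    intro c
    rw [map_add, ← hr, ← hr, ← hr]
    rfl
  · intro a f
    apply MvPolynomial.funext
    intro c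
    rw [RingHom.id_apply, smul_eval, ← hr, ← hr]
    rfl

omit [IsAlgClosed k] in
private lemma Lu_eq {n : X} {v : G → k} (hv : v ∈ P.Ind n)
    {rs : P.Ind n →ₗ[k] MvPolynomial (Fin P.N) k}
    (hrs : ∀ (f : P.Ind n) c, (f : G → k) (P.u c) = eval c (rs f)) :
    P.Lu v = Submodule.span k (Set.range fun g =>
      rs ⟨lreg k G G g v, Ind_stable n g v hv⟩) := by
  apply le_antisymm
  · rintro Q ⟨f, hf, hfQ⟩
    have key : ∃ Q' ∈ Submodule.span k (Set.range fun g =>
        rs ⟨lreg k G G g v, Ind_stable n g v hv⟩), ∀ c, f (P.u c) = eval c Q' := by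
      refine Submodule.span_induction (p := fun f _ => ∃ Q' ∈ Submodule.span k
        (Set.range fun g => rs ⟨lreg k G G g v, Ind_stable n g v hv⟩),
        ∀ c, f (P.u c) = eval c Q') ?_ ?_ ?_ ?_ hf
      · rintro _ ⟨g, rfl⟩
        exact ⟨_, Submodule.subset_span ⟨g, rfl⟩, fun c =>
          hrs ⟨lreg k G G g v, Ind_stable n g v hv⟩ c⟩
      · exact ⟨0, Submodule.zero_mem _, fun c => by simp⟩
      · rintro f f' _ _ ⟨Q, hQ, h⟩ ⟨Q', hQ', h'⟩
        exact ⟨Q + Q', Submodule.add_mem _ hQ hQ', fun c => by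
          rw [Pi.add_apply, h, h', map_add]⟩
      · rintro a f _ ⟨Q, hQ, h⟩
        exact ⟨a • Q, Submodule.smul_mem _ _ hQ, fun c => by
          rw [Pi.smul_apply, h, smul_eval, smul_eq_mul]⟩
    obtain ⟨Q', hQ', h⟩ := key
    have h1 : Q = Q' := by
      apply MvPolynomial.funext
      intro c
      rw [← hfQ, h]
    rw [h1]
    exact hQ'
  · rw [Submodule.span_le]
    rintro _ ⟨g, rfl⟩
    exact ⟨lreg k G G g v, Submodule.subset_span ⟨g, rfl⟩, fun c =>
      hrs ⟨lreg k G G g v, Ind_stable n g v hv⟩ c⟩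

theorem pure_insep (p : ℕ) [Fact p.Prime] [CharP k p] (hP : P.Ax) {n : X} {v : G → k}
    (hv : P.IsV n v) (hv0 : ∀ g, g ∉ P.cell → v g = 0) :
    ∃ e : ℕ, ∀ x ∈ P.Ind n, x ^ (p ^ e) ∈ Lsp v ^ (p ^ e) := by
  classical
  have hp : 1 < p := (Fact.out : p.Prime).one_lt
  obtain ⟨e, j, hej⟩ := pi_mul p hP hv hv0
  obtain ⟨rs, hrs⟩ := exists_rs P n
  have hfin : FiniteDimensional k (P.Ind n) := Ind_fin hP n
  have hLeq := Lu_eq hv.1 hrs
  have hLle : P.Lu v ≤ LinearMap.range rs := by
    rw [hLeq, Submodule.span_le]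
    rintro _ ⟨g, rfl⟩
    exact ⟨_, rfl⟩
  have hLfin : FiniteDimensional k (P.Lu v) := Submodule.finiteDimensional_of_le hLle
  have hLfg : (P.Lu v).FG := Module.Finite.iff_fg.1 hLfin
  have h1L : (1 : MvPolynomial (Fin P.N) k) ∈ P.Lu v := by
    refine ⟨v, Submodule.subset_span ⟨1, ?_⟩, fun c => ?_⟩
    · simp
    · rw [hv.2, map_one]
  have hL0 : P.Lu v ≠ ⊥ := by
    intro h
    rw [h, Submodule.mem_bot] at h1L
    exact one_ne_zero h1L
  obtain ⟨S, hSr, hS⟩ := Submodule.fg_span_iff_fg_span_finset_subset _ |>.1 (hLeq ▸ hLfg)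
  rw [← hLeq] at hS
  have hSne : S.Nonempty := by
    rw [Finset.nonempty_iff_ne_empty]
    rintro rfl
    rw [Finset.coe_empty, Submodule.span_empty] at hS
    exact hL0 hS
  obtain ⟨b, hb⟩ : ∃ b : Module.Basis (Fin (Module.finrank k (P.Ind n))) k (P.Ind n),
      b = Module.finBasis k (P.Ind n) := ⟨_, rfl⟩
  obtain ⟨Z, hZ⟩ : ∃ Z : Submodule k (MvPolynomial (Fin P.N) k),
      Z = Submodule.span k (Set.range fun i => rs (b i) ^ (p ^ e)) := ⟨_, rfl⟩
  have hZfg : Z.FG := by
    rw [hZ]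
    exact Submodule.fg_span (Set.finite_range _)
  have hZmem : ∀ y : P.Ind n, rs y ^ (p ^ e) ∈ Z := by
    intro y
    have h1 : rs y = ∑ i, b.repr y i • rs (b i) := by
      conv_lhs => rw [← b.sum_repr y, map_sum]
      exact Finset.sum_congr rfl fun i _ => map_smul _ _ _
    rw [h1, sum_pow_char_pow, hZ]
    refine Submodule.sum_mem _ fun i _ => ?_
    rw [smul_pow]
    exact Submodule.smul_mem _ _ (Submodule.subset_span ⟨i, rfl⟩)
  have hmul : ∀ d, S.card * j ≤ d → Z * P.Lu v ^ d ≤ P.Lu v ^ (d + p ^ e) := by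
    intro d hd
    rw [Submodule.mul_le]
    intro z hz x hx
    rw [hZ] at hz
    refine Submodule.span_induction (p := fun z _ => z * x ∈ P.Lu v ^ (d + p ^ e))
      ?_ ?_ ?_ ?_ hz
    · rintro _ ⟨i, rfl⟩
      rw [hS] at hx ⊢
      refine mul_pow_le S hSne j (p ^ e) _ (fun t ht => ?_) d hd x hx
      obtain ⟨g, rfl⟩ := hSr ht
      rw [← hS, Lu_pow hP hv.1]
      refine ⟨_, hej (b i) (b i).2 g, fun c => ?_⟩
      beta_reduce
      rw [Pi.mul_apply, Pi.pow_apply, Pi.pow_apply, map_mul, map_pow, map_pow, ← hrs, ← hrs]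
    · rw [zero_mul]
      exact Submodule.zero_mem _
    · intro x y _ _ hx hy
      rw [add_mul]
      exact Submodule.add_mem _ hx hy
    · intro a x _ hx
      rw [smul_mul_assoc]
      exact Submodule.smul_mem _ _ hx
  obtain ⟨M, hM⟩ := pow_le_of_mul_le (P.Lu v) Z hLfg hZfg (S.card * j) (p ^ e)
    (pow_pos (by omega) e) hL0 hmul
  refine ⟨e + M, fun x hx => ?_⟩
  have h1 : rs ⟨x, hx⟩ ^ (p ^ (e + M)) ∈ P.Lu v ^ (p ^ (e + M)) := by
    rw [pow_add p e M, pow_mul (rs ⟨x, hx⟩)]
    have h2 := hM (p ^ M) (Nat.lt_pow_self hp).le (Submodule.pow_mem_pow Z (hZmem ⟨x, hx⟩) (p ^ M))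
    rw [mul_comm (p ^ M)] at h2
    exact h2
  obtain ⟨f, hf, hfQ⟩ := (Lu_pow hP hv.1 _ _).1 h1
  have h2 : x ^ (p ^ (e + M)) = f := by
    refine Ind_ext hP (Ind_pow hP hx _) (Lsp_pow_le hP hv.1 _ hf) fun c => ?_
    rw [hfQ, map_pow, ← hrs, Pi.pow_apply]
  rw [h2]
  exact hf

end PinData

end Pool.Agent.DM
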