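import Pool.Agent.DM.IndA

/-!
# DM, module Trans: translations on the ring of polynomial functions on `U`

`R = MvPolynomial (Fin P.N) k` is the ring of polynomial functions on `U` in the coordinates
`P.u`.  `mu hP b c` are the coordinates of `u b * u c`, `ltr hP b` is the left translation
`Q(c) ↦ Q(mu b c)`, `rtr hP b` the right translation `Q(c) ↦ Q(mu c b)`.

Degree: the height degree of the monomial `c^B` is `∑ B_i h(rt_i)`.
Key fact for `one_mem_of_stable`: `ltr b Q - Q` only contains monomials of height degree smaller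
than the maximal height degree `d` of `Q`.  Indeed the polynomials `m_j(b, c)` giving the
coordinates of `u b * u c` satisfy `m_j(t·b, t·c) = ch(rt_j)(t) m_j(b, c)` (conjugate by `t`,
`tor_u`, `u_inj`) where `t·c = (ch(rt_i)(t) c_i)`, so (as in `homog_coeff`) a monomial `b^B c^C` in
`m_j` has `∑ (B_i + C_i) rt_i = rt_j`, and `m_j(0, c) = c_j`.  So
`m_j(b, c) = c_j + (monomials in c of height degree < h(rt_j))`.
Then: take `Q ∈ E` nonzero of minimal maximal height degree; `ltr b Q - Q ∈ E` is zero for all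
`b`, so `Q(mu b 0) = Q(0)`, i.e. `Q` is a nonzero constant.
-/

set_option autoImplicit false

namespace Pool.Agent.DM

open MvPolynomial

variable {k : Type*} [Field k] [Infinite k] {G : Type*} [Group G] {T : Type*} [CommGroup T]
  {X : Type*} [AddCommGroup X] {P : PinData k G T X}

section scale

/-- the coefficients after scaling the variables -/
private lemma coeff_scale {τ : Type*} (a : τ → k) (B : τ →₀ ℕ) (Q : MvPolynomial τ k) :
    coeff B (aeval (fun i => C (a i) * MvPolynomial.X i) Q : MvPolynomial τ k) =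
      (B.prod fun i n => a i ^ n) * coeff B Q := by
  classical
  induction Q using MvPolynomial.induction_on' with
  | monomial u c =>
    have h1 : (aeval (fun i => C (a i) * MvPolynomial.X i) (monomial u c) : MvPolynomial τ k) =
        monomial u ((u.prod fun i n => a i ^ n) * c) := by
      rw [aeval_monomial]
      have h2 : (u.prod fun i n => (C (a i) * MvPolynomial.X i : MvPolynomial τ k) ^ n) =
          C (u.prod fun i n => a i ^ n) * (u.prod fun i n => MvPolynomial.X i ^ n) := by
        simp only [mul_pow]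
        rw [Finsupp.prod_mul, map_finsuppProd]
        simp only [map_pow]
      rw [h2, monomial_eq, C_mul, algebraMap_eq]
      ring
    rw [h1, coeff_monomial, coeff_monomial]
    split_ifs with h
    · rw [h]
    · rw [mul_zero]
  | add p q hp hq => rw [map_add, coeff_add, coeff_add, hp, hq, mul_add]

end scale

namespace PinData

/-- left translation by `u b` on polynomial functions on `U` -/
noncomputable def ltr (hP : P.Ax) (b : Fin P.N → k) :
    MvPolynomial (Fin P.N) k →ₐ[k] MvPolynomial (Fin P.N) k :=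
  aeval fun i => aeval (Sum.elim (fun j => C (b j)) MvPolynomial.X) (hP.u_mul.choose i)

/-- right translation by `u b` on polynomial functions on `U` -/
noncomputable def rtr (hP : P.Ax) (b : Fin P.N → k) :
    MvPolynomial (Fin P.N) k →ₐ[k] MvPolynomial (Fin P.N) k :=
  aeval fun i => aeval (Sum.elim MvPolynomial.X (fun j => C (b j))) (hP.u_mul.choose i)

/-- the coordinates of a product -/
noncomputable def mu (hP : P.Ax) (b c : Fin P.N → k) : Fin P.N → k :=
  fun i => eval (Sum.elim b c) (hP.u_mul.choose i)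

lemma u_mu (hP : P.Ax) (b c : Fin P.N → k) : P.u b * P.u c = P.u (P.mu hP b c) :=
  hP.u_mul.choose_spec b c

private lemma eval_aeval {σ τ : Type*} (f : σ → MvPolynomial τ k) (c : τ → k)
    (Q : MvPolynomial σ k) : eval c (aeval f Q) = eval (fun i => eval c (f i)) Q := by
  induction Q using MvPolynomial.induction_on with
  | C a => rw [aeval_C, algebraMap_eq, eval_C, eval_C]
  | add p q hp hq => rw [map_add, map_add, map_add, hp, hq]
  | mul_X p i hp => rw [map_mul, map_mul, map_mul, hp, aeval_X, eval_X]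

lemma eval_ltr (hP : P.Ax) (b c : Fin P.N → k) (Q : MvPolynomial (Fin P.N) k) :
    eval c (P.ltr hP b Q) = eval (P.mu hP b c) Q := by
  unfold ltr
  rw [eval_aeval]
  congr 2
  funext i
  rw [eval_aeval]
  unfold mu
  congr 2
  funext j
  rcases j with j | j
  · simp
  · simp

lemma eval_rtr (hP : P.Ax) (b c : Fin P.N → k) (Q : MvPolynomial (Fin P.N) k) :
    eval c (P.rtr hP b Q) = eval (P.mu hP c b) Q := by
  unfold rtr
  rw [eval_aeval]
  congr 2
  funext i
  rw [eval_aeval]
  unfold mu
  congr 2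
  funext j
  rcases j with j | j
  · simp
  · simp

lemma mu_zero_left (hP : P.Ax) (c : Fin P.N → k) : P.mu hP 0 c = c := by
  apply hP.u_inj
  rw [← u_mu, u_zero, one_mul]

lemma mu_zero_right (hP : P.Ax) (c : Fin P.N → k) : P.mu hP c 0 = c := by
  apply hP.u_inj
  rw [← u_mu, u_zero, mul_one]

/-- the weight of a monomial -/
private def wx (P : PinData k G T X) (B : Fin P.N →₀ ℕ) : X := ∑ i, B i • P.rt i

omit [Infinite k] in
private lemma wx_add (B B' : Fin P.N →₀ ℕ) : wx P (B + B') = wx P B + wx P B' := by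
  unfold wx
  rw [← Finset.sum_add_distrib]
  refine Finset.sum_congr rfl fun i _ => ?_
  rw [Finsupp.add_apply, add_smul]

omit [Infinite k] in
private lemma wx_zero : wx P 0 = 0 := by
  unfold wx
  exact Finset.sum_eq_zero fun i _ => by rw [Finsupp.zero_apply, zero_smul]

omit [Infinite k] in
private lemma wx_single (i : Fin P.N) (n : ℕ) : wx P (Finsupp.single i n) = n • P.rt i := by
  classical
  unfold wx
  rw [Finset.sum_eq_single i]
  · rw [Finsupp.single_eq_same]
  · intro j _ hj
    rw [Finsupp.single_eq_of_ne hj, zero_smul]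
  · intro h
    exact absurd (Finset.mem_univ i) h

omit [Infinite k] in
private lemma hwx_nonneg (hP : P.Ax) (B : Fin P.N →₀ ℕ) : 0 ≤ P.h (wx P B) := by
  unfold wx
  rw [map_sum]
  refine Finset.sum_nonneg fun i _ => ?_
  rw [map_nsmul]
  exact nsmul_nonneg (hP.h_pos i).le _

/-- all monomials have height less than `d` -/
private def LTd (P : PinData k G T X) (d : ℤ) (Q : MvPolynomial (Fin P.N) k) : Prop :=
  ∀ B, coeff B Q ≠ 0 → P.h (wx P B) < d

omit [Infinite k] in
private lemma LTd.mono {d e : ℤ} {Q : MvPolynomial (Fin P.N) k} (h : LTd P d Q) (hde : d ≤ e) :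
    LTd P e Q := fun B hB => lt_of_lt_of_le (h B hB) hde

omit [Infinite k] in
private lemma LTd.zero (d : ℤ) : LTd P d 0 := fun B hB => absurd (coeff_zero B) hB

omit [Infinite k] in
private lemma LTd.add {d : ℤ} {Q R : MvPolynomial (Fin P.N) k} (h : LTd P d Q)
    (h' : LTd P d R) : LTd P d (Q + R) := by
  intro B hB
  rw [coeff_add] at hB
  by_cases h1 : coeff B Q = 0
  · rw [h1, zero_add] at hB
    exact h' B hB
  · exact h B h1

omit [Infinite k] in
private lemma LTd.neg {d : ℤ} {Q : MvPolynomial (Fin P.N) k} (h : LTd P d Q) :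
    LTd P d (-Q) := by
  intro B hB
  rw [coeff_neg, neg_ne_zero] at hB
  exact h B hB

omit [Infinite k] in
private lemma LTd.sub {d : ℤ} {Q R : MvPolynomial (Fin P.N) k} (h : LTd P d Q)
    (h' : LTd P d R) : LTd P d (Q - R) := by
  rw [sub_eq_add_neg]
  exact h.add h'.neg

omit [Infinite k] in
private lemma LTd.sum {d : ℤ} {ι : Type*} (s : Finset ι) {Q : ι → MvPolynomial (Fin P.N) k}
    (h : ∀ i ∈ s, LTd P d (Q i)) : LTd P d (∑ i ∈ s, Q i) := by
  classical
  induction s using Finset.induction_on with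
  | empty => exact LTd.zero d
  | insert a s ha ih =>
    rw [Finset.sum_insert ha]
    exact (h a (Finset.mem_insert_self _ _)).add
      (ih fun i hi => h i (Finset.mem_insert_of_mem hi))

omit [Infinite k] in
private lemma LTd.mul {d e : ℤ} {Q R : MvPolynomial (Fin P.N) k} (h : LTd P d Q)
    (h' : LTd P e R) : LTd P (d + e - 1) (Q * R) := by
  classical
  intro B hB
  rw [coeff_mul] at hB
  obtain ⟨x, hx, hx'⟩ := Finset.exists_ne_zero_of_sum_ne_zero hB
  have h1 := h x.1 (left_ne_zero_of_mul hx')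
  have h2 := h' x.2 (right_ne_zero_of_mul hx')
  rw [Finset.HasAntidiagonal.mem_antidiagonal] at hx
  rw [← hx, wx_add, map_add]
  lia

omit [Infinite k] in
private lemma LTd.monomial (B : Fin P.N →₀ ℕ) (c : k) :
    LTd P (P.h (wx P B) + 1) (MvPolynomial.monomial B c) := by
  classical
  intro B' hB'
  rw [coeff_monomial] at hB'
  split_ifs at hB' with h
  · rw [h]
    lia
  · exact absurd rfl hB'

/-- the coordinates of a product are homogeneous -/
private lemma mu_homog (hP : P.Ax) (i : Fin P.N) (B : (Fin P.N ⊕ Fin P.N) →₀ ℕ)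
    (hB : coeff B (hP.u_mul.choose i) ≠ 0) :
    ∑ j, B (Sum.inl j) • P.rt j + ∑ j, B (Sum.inr j) • P.rt j = P.rt i := by
  classical
  apply hP.ch_inj
  apply MonoidHom.ext
  intro t
  obtain ⟨a, ha⟩ : ∃ a : Fin P.N ⊕ Fin P.N → k, a = Sum.elim
      (fun j => ((P.ch (P.rt j) t : kˣ) : k)) (fun j => ((P.ch (P.rt j) t : kˣ) : k)) := ⟨_, rfl⟩
  have h1 : (aeval (fun j => C (a j) * MvPolynomial.X j) (hP.u_mul.choose i) :
      MvPolynomial (Fin P.N ⊕ Fin P.N) k) = C ((P.ch (P.rt i) t : kˣ) : k) * hP.u_mul.choose i := by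
    apply MvPolynomial.funext
    intro c
    obtain ⟨b, hb⟩ : ∃ b : Fin P.N → k, b = fun j => c (Sum.inl j) := ⟨_, rfl⟩
    obtain ⟨e, he⟩ : ∃ e : Fin P.N → k, e = fun j => c (Sum.inr j) := ⟨_, rfl⟩
    have hc : c = Sum.elim b e := by
      funext j
      rcases j with j | j
      · rw [hb]; rfl
      · rw [he]; rfl
    rw [eval_aeval, map_mul, eval_C, hc]
    have h2 : P.mu hP (fun j => ((P.ch (P.rt j) t : kˣ) : k) * b j)
        (fun j => ((P.ch (P.rt j) t : kˣ) : k) * e j) =
        fun j => ((P.ch (P.rt j) t : kˣ) : k) * P.mu hP b e j := by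
      apply hP.u_inj
      rw [← u_mu, ← tor_u hP, ← tor_u hP, ← tor_u hP, ← u_mu]
      group
    have h3 := congrFun h2 i
    unfold mu at h3
    rw [← h3]
    congr 2
    funext j
    rw [map_mul, eval_C, eval_X, ha]
    rcases j with j | j <;> rfl
  have h2 := congrArg (coeff B) h1
  rw [coeff_scale, coeff_C_mul] at h2
  have h3 := mul_right_cancel₀ hB h2
  apply Units.ext
  rw [← h3, hP.ch_add, ch_sum hP, ch_sum hP, Finsupp.prod_fintype _ _ (fun j => pow_zero _),
    Fintype.prod_sum_type, Units.val_mul, Units.coe_prod, Units.coe_prod, ha]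
  congr 1
  · refine Finset.prod_congr rfl fun j _ => ?_
    rw [ch_nsmul hP, Units.val_pow_eq_pow_val]
    rfl
  · refine Finset.prod_congr rfl fun j _ => ?_
    rw [ch_nsmul hP, Units.val_pow_eq_pow_val]
    rfl

omit [Infinite k] in
private lemma aeval_elim (b : Fin P.N → k) (s : (Fin P.N ⊕ Fin P.N) →₀ ℕ) (c : k) :
    (aeval (Sum.elim (fun j => C (b j)) MvPolynomial.X) (MvPolynomial.monomial s c) :
      MvPolynomial (Fin P.N) k) =
    MvPolynomial.monomial (Finsupp.equivFunOnFinite.symm fun i => s (Sum.inr i))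
      (c * ∏ i, b i ^ s (Sum.inl i)) := by
  classical
  rw [aeval_monomial, Finsupp.prod_fintype _ _ (fun j => pow_zero _), Fintype.prod_sum_type,
    monomial_eq, Finsupp.prod_fintype _ _ (fun j => pow_zero _), algebraMap_eq, C_mul, map_prod]
  simp only [Sum.elim_inl, Sum.elim_inr, map_pow, Finsupp.equivFunOnFinite_symm_apply_apply]
  ring

private lemma ltr_X (hP : P.Ax) (b : Fin P.N → k) (i : Fin P.N) :
    LTd P (P.h (P.rt i)) (P.ltr hP b (MvPolynomial.X i) - MvPolynomial.X i) := by
  classical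
  have h0 : P.ltr hP 0 (MvPolynomial.X i) = MvPolynomial.X i := by
    apply MvPolynomial.funext
    intro c
    rw [eval_ltr, mu_zero_left]
  have h1 : P.ltr hP b (MvPolynomial.X i) - MvPolynomial.X i =
      P.ltr hP b (MvPolynomial.X i) - P.ltr hP 0 (MvPolynomial.X i) := by rw [h0]
  rw [h1]
  unfold ltr
  rw [aeval_X, aeval_X]
  obtain ⟨m, hm⟩ : ∃ m, m = hP.u_mul.choose i := ⟨_, rfl⟩
  have hh : ∀ B : (Fin P.N ⊕ Fin P.N) →₀ ℕ, coeff B m ≠ 0 →
      ∑ j, B (Sum.inl j) • P.rt j + ∑ j, B (Sum.inr j) • P.rt j = P.rt i := by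
    intro B hB
    exact mu_homog hP i B (hm ▸ hB)
  rw [← hm]
  have h2 := MvPolynomial.support_sum_monomial_coeff m
  rw [← h2, map_sum, map_sum, ← Finset.sum_sub_distrib]
  refine LTd.sum _ fun s hs => ?_
  rw [aeval_elim, aeval_elim]
  have h3 := hh s (mem_support_iff.1 hs)
  by_cases h4 : ∀ j, s (Sum.inl j) = 0
  · have h5 : ∀ b' : Fin P.N → k, ∏ j, b' j ^ s (Sum.inl j) = 1 := fun b' =>
      Finset.prod_eq_one fun j _ => by rw [h4 j, pow_zero]
    rw [h5, h5, sub_self]
    exact LTd.zero _
  · push Not at h4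
    obtain ⟨j, hj⟩ := h4
    have h5 : wx P (Finsupp.equivFunOnFinite.symm fun i => s (Sum.inr i)) =
        ∑ j, s (Sum.inr j) • P.rt j := rfl
    have h6 : 0 < P.h (∑ j, s (Sum.inl j) • P.rt j) := by
      rw [map_sum]
      refine Finset.sum_pos' (fun l _ => ?_) ⟨j, Finset.mem_univ _, ?_⟩
      · rw [map_nsmul]
        exact nsmul_nonneg (hP.h_pos l).le _
      · rw [map_nsmul]
        exact nsmul_pos (hP.h_pos j) hj
    have h7 := congrArg P.h h3
    rw [map_add, ← h5] at h7
    exact ((LTd.monomial _ _).mono (by lia)).sub ((LTd.monomial _ _).mono (by lia))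

/-- `Q` has degree at most `d` and its translates differ from it by terms of smaller degree -/
private def Dg (hP : P.Ax) (b : Fin P.N → k) (d : ℤ) (Q : MvPolynomial (Fin P.N) k) : Prop :=
  LTd P (d + 1) Q ∧ LTd P d (P.ltr hP b Q - Q)

private lemma Dg.mul {hP : P.Ax} {b : Fin P.N → k} {d e : ℤ} {Q R : MvPolynomial (Fin P.N) k}
    (h : Dg hP b d Q) (h' : Dg hP b e R) : Dg hP b (d + e) (Q * R) := by
  refine ⟨(h.1.mul h'.1).mono (by lia), ?_⟩
  have h1 : P.ltr hP b (Q * R) - Q * R = (P.ltr hP b Q - Q) * (P.ltr hP b R - R) +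
      (P.ltr hP b Q - Q) * R + Q * (P.ltr hP b R - R) := by
    rw [map_mul]
    ring
  rw [h1]
  exact (((h.2.mul h'.2).mono (by lia)).add ((h.2.mul h'.1).mono (by lia))).add
    ((h.1.mul h'.2).mono (by lia))

private lemma Dg.const (hP : P.Ax) (b : Fin P.N → k) (a : k) : Dg hP b 0 (C a) := by
  refine ⟨?_, ?_⟩
  · have h1 := LTd.monomial (P := P) 0 a
    rw [wx_zero, map_zero] at h1
    exact h1
  · unfold ltr
    rw [aeval_C, algebraMap_eq, sub_self]
    exact LTd.zero _

private lemma Dg.var (hP : P.Ax) (b : Fin P.N → k) (i : Fin P.N) :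
    Dg hP b (P.h (P.rt i)) (MvPolynomial.X i) := by
  refine ⟨?_, ltr_X hP b i⟩
  have h1 := LTd.monomial (P := P) (Finsupp.single i 1) (1 : k)
  rw [wx_single, one_smul] at h1
  exact h1

private lemma Dg.monomial (hP : P.Ax) (b : Fin P.N → k) (B : Fin P.N →₀ ℕ) :
    ∀ c : k, Dg hP b (P.h (wx P B)) (MvPolynomial.monomial B c) := by
  classical
  induction B using Finsupp.induction_linear with
  | zero =>
    intro c
    rw [wx_zero, map_zero]
    exact Dg.const hP b c
  | add B B' h h' =>
    intro c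
    rw [wx_add, map_add]
    have h1 : (MvPolynomial.monomial (B + B') c : MvPolynomial (Fin P.N) k) =
        MvPolynomial.monomial B c * MvPolynomial.monomial B' 1 := by
      rw [monomial_mul, mul_one]
    rw [h1]
    exact (h c).mul (h' 1)
  | single i n =>
    induction n with
    | zero =>
      intro c
      rw [Finsupp.single_zero, wx_zero, map_zero]
      exact Dg.const hP b c
    | succ n ih =>
      intro c
      have h1 : (MvPolynomial.monomial (Finsupp.single i (n + 1)) c : MvPolynomial (Fin P.N) k) =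
          MvPolynomial.monomial (Finsupp.single i n) c * MvPolynomial.X i := by
        have h2 : (MvPolynomial.X i : MvPolynomial (Fin P.N) k) =
          MvPolynomial.monomial (Finsupp.single i 1) 1 := rfl
        rw [h2, monomial_mul, mul_one, ← Finsupp.single_add]
      rw [h1, wx_single, succ_nsmul, map_add, ← wx_single]
      exact (ih c).mul (Dg.var hP b i)

private lemma ltr_lt (hP : P.Ax) (b : Fin P.N → k) {d : ℤ} {Q : MvPolynomial (Fin P.N) k}
    (h : LTd P (d + 1) Q) : LTd P d (P.ltr hP b Q - Q) := by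
  classical
  have h2 := MvPolynomial.support_sum_monomial_coeff Q
  have h3 : P.ltr hP b Q - Q = ∑ B ∈ Q.support, (P.ltr hP b (MvPolynomial.monomial B (coeff B Q)) -
      MvPolynomial.monomial B (coeff B Q)) := by
    rw [Finset.sum_sub_distrib, ← map_sum, h2]
  rw [h3]
  refine LTd.sum _ fun B hB => ?_
  have h4 := h B (mem_support_iff.1 hB)
  exact (Dg.monomial hP b B _).2.mono (by lia)

/-- A nonzero subspace of the polynomial functions on `U` which is stable under left translations
contains the constants. -/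
theorem one_mem_of_stable (hP : P.Ax) (E : Submodule k (MvPolynomial (Fin P.N) k)) (hE : E ≠ ⊥)
    (hst : ∀ b, ∀ Q ∈ E, P.ltr hP b Q ∈ E) : 1 ∈ E := by
  classical
  obtain ⟨Q0, hQ0, hne⟩ := (Submodule.ne_bot_iff E).1 hE
  have hex : ∃ n : ℕ, ∃ Q ∈ E, Q ≠ 0 ∧ LTd P (n : ℤ) Q := by
    refine ⟨(Q0.support.sup fun B => (P.h (wx P B)).toNat) + 1, Q0, hQ0, hne, fun B hB => ?_⟩
    have h1 := Finset.le_sup (f := fun B => (P.h (wx P B)).toNat) (mem_support_iff.2 hB)
    have h2 : P.h (wx P B) ≤ ((P.h (wx P B)).toNat : ℤ) := Int.self_le_toNat _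
    push_cast
    have h3 : ((P.h (wx P B)).toNat : ℤ) ≤ ((Q0.support.sup fun B => (P.h (wx P B)).toNat : ℕ) : ℤ) := by
      exact_mod_cast h1
    lia
  obtain ⟨Q, hQ, hQne, hlt⟩ := Nat.find_spec hex
  have hmin := fun m hm => Nat.find_min hex (m := m) hm
  obtain ⟨n, hn⟩ : ∃ n, n = Nat.find hex := ⟨_, rfl⟩
  rw [← hn] at hlt
  rcases n with _ | n
  · exfalso
    apply hQne
    rw [MvPolynomial.ext_iff]
    intro B
    rw [coeff_zero]
    by_contra hB
    have h1 := hlt B hB
    have h2 := hwx_nonneg hP B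
    push_cast at h1
    lia
  · have hfix : ∀ b, P.ltr hP b Q = Q := by
      intro b
      by_contra hb
      apply hmin n (by lia)
      exact ⟨P.ltr hP b Q - Q, Submodule.sub_mem _ (hst b Q hQ) hQ, sub_ne_zero.2 hb,
        ltr_lt hP b (by push_cast at hlt; exact hlt)⟩
    have hev : ∀ b, eval b Q = eval 0 Q := by
      intro b
      have h1 := congrArg (eval 0) (hfix b)
      rw [eval_ltr, mu_zero_right] at h1
      exact h1
    have hQC : Q = C (eval 0 Q) := by
      apply MvPolynomial.funext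
      intro c
      rw [eval_C, hev c]
    have ha : eval 0 Q ≠ 0 := by
      intro h0
      apply hQne
      rw [hQC, h0, C_0]
    have h1 : (1 : MvPolynomial (Fin P.N) k) = (eval 0 Q)⁻¹ • Q := by
      conv_rhs => rw [hQC]
      rw [eval_C, smul_eq_C_mul, ← C_mul, inv_mul_cancel₀ ha, C_1]
    rw [h1]
    exact Submodule.smul_mem _ _ hQ

/-- A polynomial function on `U` which is invariant under right translation by the simple root
groups is constant.  Proof: the set of all `g ∈ G` such that for all `c` there is `c'` with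
`u c * g = u c'` and `Q(c') = Q(c)`, and the same for `g⁻¹`, is a subgroup which contains the
simple root groups, so it contains all `u b` (`hP.gen_u`); take `c = 0`. -/
theorem const_of_rtr (hP : P.Ax) (Q : MvPolynomial (Fin P.N) k)
    (h : ∀ i ∈ P.S, ∀ s, P.rtr hP (Pi.single i s) Q = Q) : ∃ a : k, Q = C a := by
  classical
  let K : Subgroup G :=
    { carrier := {g | (∀ c, ∃ c', P.u c * g = P.u c' ∧ eval c' Q = eval c Q) ∧
        (∀ c, ∃ c', P.u c * g⁻¹ = P.u c' ∧ eval c' Q = eval c Q)}
      mul_mem' := by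
        rintro g g' ⟨h1, h2⟩ ⟨h1', h2'⟩
        refine ⟨fun c => ?_, fun c => ?_⟩
        · obtain ⟨c', e1, e2⟩ := h1 c
          obtain ⟨c'', e3, e4⟩ := h1' c'
          exact ⟨c'', by rw [← mul_assoc, e1, e3], by rw [e4, e2]⟩
        · obtain ⟨c', e1, e2⟩ := h2' c
          obtain ⟨c'', e3, e4⟩ := h2 c'
          exact ⟨c'', by rw [mul_inv_rev, ← mul_assoc, e1, e3], by rw [e4, e2]⟩
      one_mem' := ⟨fun c => ⟨c, by rw [mul_one], rfl⟩, fun c => ⟨c, by rw [inv_one, mul_one], rfl⟩⟩
      inv_mem' := by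
        rintro g ⟨h1, h2⟩
        exact ⟨h2, fun c => by rw [inv_inv]; exact h1 c⟩ }
  have hK : ∀ i ∈ P.S, ∀ s, P.xp i s ∈ K := by
    intro i hi s
    have key : ∀ s c, ∃ c', P.u c * P.xp i s = P.u c' ∧ eval c' Q = eval c Q := by
      intro s c
      refine ⟨P.mu hP c (Pi.single i s), ?_, ?_⟩
      · rw [← u_mu, u_single]
      · rw [← eval_rtr, h i hi s]
    refine ⟨key s, ?_⟩
    rw [xp_inv]
    exact key (-s)
  refine ⟨eval 0 Q, ?_⟩
  apply MvPolynomial.funext
  intro c
  rw [eval_C]
  obtain ⟨c', e1, e2⟩ := (hP.gen_u K hK c).1 0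
  rw [u_zero, one_mul] at e1
  rw [hP.u_inj e1, e2]

end PinData

end Pool.Agent.DM
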