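import Pool.Agent.DM.StDef
import Pool.Agent.DM.Trans

/-!
# DM, module StSpan: `St` is spanned by the `e^A f₋`

Statement: let `s A ∈ Ind z` (`A` in the box) have restrictions `q A` to `U`, which are a basis of
`R = k[U]` over `p`-th powers, and `pair i z = p - 1` for simple `i`.  Then the `s A` span `Ind z`.

Proof.  Let `f ∈ Ind z` with restriction `Q = ∑ g_A^p q_A`.  We show that all `g_A` are constant;
then `f = ∑ a_A s_A` on `U` (`a_A = g_A^p`) and hence everywhere (`Ind_ext`).  By `const_of_rtr` it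
suffices that `rtr (s δ_i) g_A = g_A` for simple `i`.  Let `r : R → R[s]` be the algebra
homomorphism `Q(c) ↦ Q(m(c, s δ_i))` (`hP.u_mul`); its constant coefficient is `Q`
(`m(c,0) = c`).  By `Ind_cf` (with `g = u c`; `f(u(c) x_i(s)) = Q(m(c, s δ_i))`) elements of
`Ind z` restrict to polynomials with `deg r(Q) ≤ p - 1`; this applies to `Q` and to all `q_A`.  Let
`d` be the maximal degree of the `r(g_A)` and suppose `d > 0`.  In
`r(Q) = ∑_A r(g_A)^p r(q_A)` look at the coefficient of `s^(pd)`: `r(g_A)^p = ∑_n a_(A,n)^p s^(pn)`,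
`n ≤ d`, and `r(q_A)` has degree `≤ p-1`, so it is `∑_A a_(A,d)^p q_A`.  It is `0` as
`pd > p - 1`, so all `a_(A,d) = 0`, contradicting the choice of `d`.  So `d = 0`, which means
`g_A(m(c, s δ_i)) = g_A(c)`.
-/

set_option autoImplicit false

namespace Pool.Agent.DM

open MvPolynomial

variable {k : Type*} [Field k] [Infinite k] {G : Type*} [Group G] {T : Type*} [CommGroup T]
  {X : Type*} [AddCommGroup X] {P : PinData k G T X} {p : ℕ} {z : X}

section aux

variable {N : ℕ}

/-- the values of the variables -/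
private noncomputable def rv (k : Type*) [Field k] {N : ℕ} (j : Fin N) :
    Fin N ⊕ Fin N → Polynomial (MvPolynomial (Fin N) k)
  | Sum.inl l => Polynomial.C (MvPolynomial.X l)
  | Sum.inr l => if l = j then Polynomial.X else 0

omit [Infinite k] in
private lemma rv_eval (j : Fin N) (c : Fin N → k) (s : k)
    (M : MvPolynomial (Fin N ⊕ Fin N) k) :
    (Polynomial.map (eval c) (aeval (rv k j) M)).eval s =
      eval (Sum.elim c (Pi.single j s)) M := by
  induction M using MvPolynomial.induction_on with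
  | C a => simp
  | add p q hp hq => rw [map_add, Polynomial.map_add, Polynomial.eval_add, hp, hq, map_add]
  | mul_X p n hp =>
    rw [map_mul, Polynomial.map_mul, Polynomial.eval_mul, hp, map_mul, aeval_X, eval_X]
    congr 1
    rcases n with l | l
    · simp [rv]
    · by_cases h : l = j
      · subst h
        simp [rv]
      · simp [rv, h]

/-- the substitution `Q ↦ Q(m(c, s δ_j))` -/
private noncomputable def rr (m : Fin N → MvPolynomial (Fin N ⊕ Fin N) k) (j : Fin N) :
    MvPolynomial (Fin N) k →ₐ[k] Polynomial (MvPolynomial (Fin N) k) :=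
  aeval fun i => aeval (rv k j) (m i)

omit [Infinite k] in
private lemma rr_eval (m : Fin N → MvPolynomial (Fin N ⊕ Fin N) k) (j : Fin N) (c : Fin N → k)
    (s : k) (Q : MvPolynomial (Fin N) k) :
    (Polynomial.map (eval c) (rr m j Q)).eval s =
      eval (fun i => eval (Sum.elim c (Pi.single j s)) (m i)) Q := by
  induction Q using MvPolynomial.induction_on with
  | C a => simp
  | add p q hp hq => rw [map_add, Polynomial.map_add, Polynomial.eval_add, hp, hq, map_add]
  | mul_X p n hp =>
    have h1 : rr m j (MvPolynomial.X n) = aeval (rv k j) (m n) := by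
      rw [rr, aeval_X]
    rw [map_mul, Polynomial.map_mul, Polynomial.eval_mul, hp, map_mul, h1, rv_eval, eval_X]

private lemma cf_poly (K : Polynomial k) (n : ℕ) : cf (fun s => K.eval s) n = K.coeff n := by
  rw [cf_eq (d := K.natDegree + n + 1) (w := fun n => K.coeff n) (fun s => ?_),
    if_pos (by omega)]
  rw [Polynomial.eval_eq_sum_range' (n := K.natDegree + n + 1) (by omega)]
  refine Finset.sum_congr rfl fun n _ => ?_
  rw [smul_eq_mul, mul_comm]

private lemma coeff_pow_p [Fact p.Prime] {R : Type*} [CommRing R] [CharP R p]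
    (h : Polynomial R) (n : ℕ) :
    (h ^ p).coeff n = if p ∣ n then (h.coeff (n / p)) ^ p else 0 := by
  have hp : 0 < p := (Fact.out : p.Prime).pos
  rw [← Polynomial.map_frobenius_expand p, Polynomial.coeff_map, Polynomial.coeff_expand hp]
  split_ifs
  · rfl
  · exact map_zero _

private lemma coeff_mul_top [Fact p.Prime] {R : Type*} [CommRing R] [CharP R p]
    (h K : Polynomial R) (hK : ∀ n, p ≤ n → K.coeff n = 0) (d : ℕ) :
    (h ^ p * K).coeff (p * d) = (h.coeff d) ^ p * K.coeff 0 := by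
  have hp : 0 < p := (Fact.out : p.Prime).pos
  rw [Polynomial.coeff_mul, Finset.sum_eq_single (p * d, 0)]
  · rw [coeff_pow_p, if_pos (dvd_mul_right p d), Nat.mul_div_cancel_left _ hp]
  · rintro ⟨a, b⟩ hab hne
    rw [Finset.HasAntidiagonal.mem_antidiagonal] at hab
    by_cases hb : p ≤ b
    · rw [hK b hb, mul_zero]
    · rw [coeff_pow_p, if_neg, zero_mul]
      intro hpa
      simp only at hab
      have h1 : p ∣ b := (Nat.dvd_add_right hpa).1 (by rw [hab]; exact dvd_mul_right p d)
      have h2 : b = 0 := Nat.eq_zero_of_dvd_of_lt h1 (not_le.1 hb)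
      apply hne
      rw [h2, add_zero] at hab
      rw [hab, h2]
  · intro h1
    simp at h1

end aux

namespace PinData

/-- the degree bound -/
private lemma rr_deg (hP : P.Ax) {i : Fin P.N} {f : G → k} (hf : f ∈ P.Ind z)
    {Q : MvPolynomial (Fin P.N) k} (hQ : ∀ c, f (P.u c) = eval c Q) (n : ℕ)
    (hn : P.pair i z < n) : (rr hP.u_mul.choose i Q).coeff n = 0 := by
  apply MvPolynomial.funext
  intro c
  have h1 := Ind_cf hP hf i (P.u c) n hn
  have h2 : (fun s => f (P.u c * P.xp i s)) =
      fun s => (Polynomial.map (eval c) (rr hP.u_mul.choose i Q)).eval s := by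
    funext s
    rw [rr_eval, ← u_single, u_mu hP, hQ]
    rfl
  rw [h2, cf_poly, Polynomial.coeff_map] at h1
  rw [h1, map_zero]

private lemma rr_zero (hP : P.Ax) (i : Fin P.N) (Q : MvPolynomial (Fin P.N) k) :
    (rr hP.u_mul.choose i Q).coeff 0 = Q := by
  apply MvPolynomial.funext
  intro c
  have h1 := rr_eval hP.u_mul.choose i c 0 Q
  rw [Pi.single_zero] at h1
  have h2 : (fun j => eval (Sum.elim c 0) (hP.u_mul.choose j)) = c := mu_zero_right hP c
  rw [h2] at h1
  rw [← h1, ← Polynomial.coeff_zero_eq_eval_zero, Polynomial.coeff_map]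

/-- constant polynomials correspond to invariants -/
private lemma rtr_of_rr (hP : P.Ax) {i : Fin P.N} {Q : MvPolynomial (Fin P.N) k}
    (h : (rr hP.u_mul.choose i Q).natDegree = 0) (s : k) :
    P.rtr hP (Pi.single i s) Q = Q := by
  apply MvPolynomial.funext
  intro c
  have h1 := rr_eval hP.u_mul.choose i c s Q
  have h2 : eval c (P.rtr hP (Pi.single i s) Q) =
      eval (fun j => eval (Sum.elim c (Pi.single i s)) (hP.u_mul.choose j)) Q := by
    rw [eval_rtr]
    rfl
  rw [h2, ← h1, Polynomial.eq_C_of_natDegree_eq_zero h, rr_zero hP, Polynomial.map_C,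
    Polynomial.eval_C]

theorem st_span [Fact p.Prime] [CharP k p] (hP : P.Ax)
    (hz : ∀ i ∈ P.S, P.pair i z = (p : ℤ) - 1) (s : (Fin P.N → ℕ) → G → k)
    (q : (Fin P.N → ℕ) → MvPolynomial (Fin P.N) k) (hs : ∀ A ∈ Ap P.N p, s A ∈ P.Ind z)
    (hq : ∀ A ∈ Ap P.N p, ∀ c, s A (P.u c) = eval c (q A))
    (hind : ∀ g : (Fin P.N → ℕ) → MvPolynomial (Fin P.N) k,
      ∑ A ∈ Ap P.N p, g A ^ p * q A = 0 → ∀ A ∈ Ap P.N p, g A = 0)
    (hbas : ∀ Q : MvPolynomial (Fin P.N) k, ∃ g : (Fin P.N → ℕ) → MvPolynomial (Fin P.N) k,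
      Q = ∑ A ∈ Ap P.N p, g A ^ p * q A)
    {f : G → k} (hf : f ∈ P.Ind z) : ∃ a : (Fin P.N → ℕ) → k, f = ∑ A ∈ Ap P.N p, a A • s A := by
  classical
  have hp : 0 < p := (Fact.out : p.Prime).pos
  obtain ⟨Q, hQ⟩ : ∃ Q : MvPolynomial (Fin P.N) k, ∀ c, f (P.u c) = eval c Q := by
    obtain ⟨Q, hQ⟩ := polyMap_iff.1 (hf.2 1)
    exact ⟨Q, fun c => by rw [← hQ c, one_mul]⟩
  obtain ⟨g, hg⟩ := hbas Q
  have key : ∀ i ∈ P.S, ∀ A ∈ Ap P.N p, (rr hP.u_mul.choose i (g A)).natDegree = 0 := by
    intro i hi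
    obtain ⟨d, hd⟩ : ∃ d, d = (Ap P.N p).sup fun A => (rr hP.u_mul.choose i (g A)).natDegree :=
      ⟨_, rfl⟩
    have hle : ∀ A ∈ Ap P.N p, (rr hP.u_mul.choose i (g A)).natDegree ≤ d := by
      intro A hA
      rw [hd]
      exact Finset.le_sup (f := fun A => (rr hP.u_mul.choose i (g A)).natDegree) hA
    rcases Nat.eq_zero_or_pos d with h0 | h0
    · intro A hA
      exact Nat.le_zero.1 (h0 ▸ hle A hA)
    · exfalso
      have hqd : ∀ A ∈ Ap P.N p, ∀ n, p ≤ n → (rr hP.u_mul.choose i (q A)).coeff n = 0 := by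
        intro A hA n hn
        refine rr_deg hP (hs A hA) (hq A hA) n ?_
        rw [hz i hi]
        omega
      have hpd : p ≤ p * d := Nat.le_mul_of_pos_right p h0
      have hQd : (rr hP.u_mul.choose i Q).coeff (p * d) = 0 := by
        refine rr_deg hP hf hQ (p * d) ?_
        rw [hz i hi]
        omega
      have h1 : (rr hP.u_mul.choose i Q).coeff (p * d) =
          ∑ A ∈ Ap P.N p, ((rr hP.u_mul.choose i (g A)).coeff d) ^ p * q A := by
        conv_lhs => rw [hg]
        rw [map_sum, Polynomial.finsetSum_coeff]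
        refine Finset.sum_congr rfl fun A hA => ?_
        rw [map_mul, map_pow, coeff_mul_top _ _ (hqd A hA), rr_zero hP]
      have h2 := hind (fun A => (rr hP.u_mul.choose i (g A)).coeff d) (h1.symm.trans hQd)
      have hne : (Ap P.N p).Nonempty := ⟨fun _ => 0, by
        rw [Ap, Fintype.mem_piFinset]
        intro j
        exact Finset.mem_range.2 hp⟩
      obtain ⟨A, hA, hAd⟩ := Finset.exists_mem_eq_sup (Ap P.N p) hne
        (fun A => (rr hP.u_mul.choose i (g A)).natDegree)
      rw [← hd] at hAd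
      have h3 := h2 A hA
      rw [hAd, Polynomial.coeff_natDegree, Polynomial.leadingCoeff_eq_zero] at h3
      rw [h3, Polynomial.natDegree_zero] at hAd
      omega
  have hconst : ∀ A, ∃ a : k, A ∈ Ap P.N p → g A = C a := by
    intro A
    by_cases hA : A ∈ Ap P.N p
    · obtain ⟨a, ha⟩ := const_of_rtr hP (g A) (fun i hi s => rtr_of_rr hP (key i hi A hA) s)
      exact ⟨a, fun _ => ha⟩
    · exact ⟨0, fun h => absurd h hA⟩
  choose a ha using hconst
  refine ⟨fun A => a A ^ p, ?_⟩
  refine Ind_ext hP hf (Submodule.sum_mem _ fun A hA => Submodule.smul_mem _ _ (hs A hA)) ?_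
  intro c
  rw [hQ c, hg, map_sum, Finset.sum_apply]
  refine Finset.sum_congr rfl fun A hA => ?_
  rw [Pi.smul_apply, hq A hA, map_mul, map_pow, ha A hA, eval_C, smul_eq_mul]

end PinData

end Pool.Agent.DM
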