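import Pool.Agent.DM.StBas
import Pool.Agent.DM.StSpan

/-!
# DM, module StFin: the Steinberg module, final statement

Take `v` from `hP.dom` (`z` is dominant: `2 pair i z = (p-1) 2`), `fm = lreg(w₀) v`,
`s A = mono (P.eI hP z) A fm`, `q A` the restriction of `s A` to `U`.  `mem`, `eval` clear,
`wts`: `fm_wt`, `mono_wt`; `indep`, `basis`: StBas; `span`: StSpan, `pair_z`.
`top`: `f = ∑ a_A e^A fm`; `elim_top` on `M = Ind z`, `e = P.eI hP z` (`tri_epL`),
`K = k fm` (`mono top (a fm) = a c v = 0` implies `a = 0`), `y A = a_A fm`: so `a_A = 0` for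
`A ≠ top` and `f = a_top c v`.
`gen`: let `K ∋ v` be stable under the `em i` on `Ind z`.  `Ind z = lreg(w₀⁻¹)(Ind z)` is spanned by
the `lreg(w₀⁻¹)(e-word f₋)` (`span`; each `s A` is a word), and by `w0_inv_ep` this is a nonzero
multiple of an `em`-word applied to `lreg(w₀⁻¹) f₋ = v`, so it lies in `K` (every index is some
`σ i`; `K ∩ Ind z` is stable under the `em i`).
-/

set_option autoImplicit false

namespace Pool.Agent.DM

open MvPolynomial

variable {k : Type*} [Field k] [IsAlgClosed k] {G : Type*} [Group G] {T : Type*} [CommGroup T]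
  {X : Type*} [AddCommGroup X] {P : PinData k G T X} {p : ℕ} {z : X}

namespace PinData

theorem exists_st [Infinite k] [Fact p.Prime] [CharP k p] (hP : P.Ax) (hz : P.Stz p z) :
    ∃ v s q, P.IsSt p z v s q := by
  classical
  have hp : 0 < p := (Fact.out : p.Prime).pos
  have hpair : ∀ i ∈ P.S, P.pair i z = (p : ℤ) - 1 := fun i hi => pair_z hP hp hz hi
  have hdom : P.Dom z := by
    intro i hi
    rw [hpair i hi]
    omega
  obtain ⟨v, hv⟩ := exists_isV_of_dom hP hdom
  obtain ⟨fm, hfm⟩ : ∃ fm : P.Ind z, (fm : G → k) = lreg k G G P.w0 v :=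
    ⟨⟨lreg k G G P.w0 v, Ind_stable z _ _ hv.1⟩, rfl⟩
  have hqex : ∀ A : Fin P.N → ℕ, ∃ Q : MvPolynomial (Fin P.N) k,
      ∀ c, (mono (P.eI hP z) A fm : G → k) (P.u c) = eval c Q := by
    intro A
    obtain ⟨Q, hQ⟩ := polyMap_iff.1 ((mono (P.eI hP z) A fm).2.2 1)
    exact ⟨Q, fun c => by rw [← hQ c, one_mul]⟩
  choose q hq using hqex
  have hind := st_indep hP hz hv fm hfm q fun A _ => hq A
  have hbas := st_basis hP hz hv fm hfm q fun A _ => hq A
  have hspan : ∀ f ∈ P.Ind z, ∃ a : (Fin P.N → ℕ) → k,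
      f = ∑ A ∈ Ap P.N p, a A • (mono (P.eI hP z) A fm : G → k) := fun f hf =>
    st_span hP hpair (fun A => (mono (P.eI hP z) A fm : G → k)) q
      (fun A _ => (mono (P.eI hP z) A fm).2) (fun A _ => hq A) hind hbas hf
  have hv1 : v 1 = 1 := hv.one
  have hv0 : v ≠ 0 := by
    intro h
    rw [h, Pi.zero_apply] at hv1
    exact zero_ne_one hv1
  refine ⟨v, fun A => (mono (P.eI hP z) A fm : G → k), q, hv, fun A _ => (mono (P.eI hP z) A fm).2,
    fun A _ => hq A, fun A _ => mono_wt hP fm (by rw [hfm]; exact fm_wt hP hz hv) A, hind, hbas,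
    hspan, ?_, ?_⟩
  · intro f hf hf0
    obtain ⟨a, ha⟩ := hspan f hf
    obtain ⟨c₀, hc₀, htop⟩ := mono_top hP hz hv fm hfm
    have hsum : (⟨f, hf⟩ : P.Ind z) = ∑ A ∈ Ap P.N p, mono (P.eI hP z) A (a A • fm) := by
      apply Subtype.ext
      rw [Submodule.coe_sum]
      simp only [map_smul, Submodule.coe_smul]
      exact ha
    have hKe : ∀ y : P.Ind z, y ∈ (Submodule.span k {fm}).toAddSubgroup ↔ ∃ b : k, b • fm = y := by
      intro y
      rw [Submodule.mem_toAddSubgroup, Submodule.mem_span_singleton]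
    have htopv : ∀ b : k, (mono (P.eI hP z) (fun _ => p - 1) (b • fm) : G → k) = (b * c₀) • v := by
      intro b
      rw [map_smul, Submodule.coe_smul, htop, smul_smul]
    have hK : ∀ y ∈ (Submodule.span k {fm}).toAddSubgroup,
        mono (P.eI hP z) (fun _ => p - 1) y = 0 → y = 0 := by
      intro y hy h0
      obtain ⟨b, rfl⟩ := (hKe y).1 hy
      have h1 := htopv b
      rw [h0, Submodule.coe_zero] at h1
      have h2 : b * c₀ = 0 := by
        rcases smul_eq_zero.1 h1.symm with h | h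
        · exact h
        · exact absurd h hv0
      rw [(mul_eq_zero.1 h2).resolve_right hc₀, zero_smul]
    have hel := elim_top hp (tri_epL p hP (Ind_rat hP z)) (Submodule.span k {fm}).toAddSubgroup hK
      (fun A => a A • fm) (fun A _ => (hKe _).2 ⟨a A, rfl⟩) (fun j => by
        change (Ind_rat hP z).epL j (∑ A ∈ Ap P.N p, mono (P.eI hP z) A (a A • fm)) = 0
        rw [← hsum]
        exact Subtype.ext (hf0 j))
    refine ⟨a (fun _ => p - 1) * c₀, ?_⟩
    have h3 : (⟨f, hf⟩ : P.Ind z) =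
        mono (P.eI hP z) (fun _ => p - 1) (a (fun _ => p - 1) • fm) := by
      rw [hsum]
      refine Finset.sum_eq_single_of_mem (fun _ => p - 1) ?_ fun A hA hne => ?_
      · unfold Ap
        rw [Fintype.mem_piFinset]
        intro j
        rw [Finset.mem_range]
        omega
      · rw [hel A hA hne, map_zero]
    have h4 := congrArg (fun y : P.Ind z => (y : G → k)) h3
    simp only at h4
    rw [h4, htopv]
  · intro K hvK hK f hf
    have hcanc : ∀ x : G → k, lreg k G G P.w0⁻¹ (lreg k G G P.w0 x) = x := by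
      intro x
      rw [← Module.End.mul_apply, ← map_mul, inv_mul_cancel, map_one]
      rfl
    have hmon : ∀ A : Fin P.N → ℕ,
        lreg k G G P.w0⁻¹ (mono (P.eI hP z) A fm : G → k) ∈ K := by
      intro A
      obtain ⟨M, hM⟩ : ∃ M : Submonoid (Module.End k (P.Ind z)), ∀ E, E ∈ M ↔
          ∀ x : P.Ind z, lreg k G G P.w0⁻¹ (x : G → k) ∈ K →
            lreg k G G P.w0⁻¹ (E x : G → k) ∈ K :=
        ⟨{ carrier := {E | ∀ x : P.Ind z, lreg k G G P.w0⁻¹ (x : G → k) ∈ K →
              lreg k G G P.w0⁻¹ (E x : G → k) ∈ K}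
           mul_mem' := fun {E E'} h1 h2 x hx => h1 _ (h2 x hx)
           one_mem' := fun x hx => hx }, fun E => Iff.rfl⟩
      have hMe : ∀ j, P.eI hP z j ∈ M := by
        intro j
        rw [hM]
        intro x hx
        obtain ⟨i, rfl⟩ := P.sg.surjective j
        obtain ⟨c, -, hc⟩ := w0_inv_ep (ρ := lreg k G G) hP i
        have h1 := hc (P.Ind z) (Ind_rat hP z) x x.2
        have h2 : (P.eI hP z (P.sg i) x : G → k) = P.ep (lreg k G G) (P.sg i) (x : G → k) := rfl
        rw [h2, h1]
        exact Submodule.smul_mem _ _ (hK i _ hx (Ind_stable z _ _ x.2))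
      have hmem : mono (P.eI hP z) A ∈ M := by
        rw [mono]
        apply Submonoid.list_prod_mem
        intro E hE
        rw [List.mem_ofFn] at hE
        obtain ⟨j, rfl⟩ := hE
        exact pow_mem (hMe j) _
      refine (hM _).1 hmem fm ?_
      rw [hfm, hcanc]
      exact hvK
    obtain ⟨a, ha⟩ := hspan _ (Ind_stable z P.w0 f hf)
    rw [← hcanc f, ha, map_sum]
    refine Submodule.sum_mem _ fun A _ => ?_
    rw [map_smul]
    exact Submodule.smul_mem _ _ (hmon A)

end PinData

end Pool.Agent.DM
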