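import Pool.Agent.DM.Desc
import Pool.Agent.DM.PIc
import Pool.Agent.DM.StFin

/-!
# DM, module Core: the theorem of Donkin and Mathieu

`P.Good (lreg k G (G × G)) (bx (P.Ind l) (P.Ind l'))` for all weights `l, l'`.
-/

set_option autoImplicit false

namespace Pool.Agent.DM

open MvPolynomial

variable {k : Type*} [Field k] [IsAlgClosed k] [Infinite k] {G : Type*} [Group G]
  {T : Type*} [CommGroup T] {X : Type*} [AddCommGroup X] {P : PinData k G T X}
  {z : X} {v : G → k} {p : ℕ} {s : (Fin P.N → ℕ) → G → k}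
  {q : (Fin P.N → ℕ) → MvPolynomial (Fin P.N) k}

namespace PinData

/-- `v_z² = δ^(p-1)` (both are `1` on `U` and lie in `Ind(2z) = Ind((p-1) 2ρ)`), so the highest
weight vector of `Ind(p n + z)` (`v_n^p v_z`) vanishes outside the cell. -/
theorem regular_v [Fact p.Prime] [CharP k p] (hP : P.Ax) (hz : P.Stz p z) (hv : P.IsV z v)
    {n : X} {vn : G → k} (hn : P.IsV n vn) :
    P.IsV (p • n + z) (vn ^ p * v) ∧ ∀ g, g ∉ P.cell → (vn ^ p * v) g = 0 := by
  refine ⟨(hn.pow hP p).mul hP hv, fun g hg => ?_⟩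
  obtain ⟨d, hd, hd1, hd0⟩ := hP.delta
  have hdV : P.IsV P.rho2 d := ⟨hd, hd1⟩
  have e1 : P.IsV (2 • z) (v ^ 2) := hv.pow hP 2
  have e2 : P.IsV (2 • z) (d ^ (p - 1)) := by
    rw [hz.two]
    exact hdV.pow hP (p - 1)
  have e3 := IsV.unique hP e1 e2
  have hp : 2 ≤ p := (Fact.out : p.Prime).two_le
  have e4 := congrFun e3 g
  rw [Pi.pow_apply, Pi.pow_apply, hd0 g hg, zero_pow (by omega)] at e4
  have e5 : v g = 0 := pow_eq_zero_iff (two_ne_zero) |>.mp e4
  rw [Pi.mul_apply, e5, mul_zero]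

/-- Symbols of regular weight.  Let `e` be as in `pure_insep`.  Claim for `j = e, e-1, …, 0`: there
is `b ∈ bx (Ind (p^j l)) (Ind (p^j l'))` with
`lreg(g⁻¹) b - (x g)^(p^j) • m^(p^j) ∈ low (p^j h n)` for all `g`.  `j = e`: `prod_symbol` with
`y = x^(p^e) ∈ Lsp v^(p^e)`.  `j+1 ⇒ j`: `descent` for the weights `p^j l, p^j l', p^j n` and
`m^(p^j)`, `x^(p^j)` (`bx_pow`, `wt_pow`, `Ind_pow`, `IsV.pow`). -/
theorem good_regular [Fact p.Prime] [CharP k p] (hP : P.Ax) (hst : P.IsSt p z v s q)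
    {l l' n : X} {vl vl' vn : G → k} (hl : P.IsV l vl) (hl' : P.IsV l' vl') (hn : P.IsV n vn)
    (hn0 : ∀ g, g ∉ P.cell → vn g = 0) {m : G × G → k} (hm : m ∈ bx (P.Ind l) (P.Ind l'))
    (hm' : m ∈ P.hw (lreg k G (G × G)) n) {x : G → k} (hx : x ∈ P.Ind n) :
    ∃ a ∈ bx (P.Ind l) (P.Ind l'), ∀ g,
      lreg k G (G × G) g⁻¹ a - x g • m ∈ P.low (lreg k G (G × G)) (P.h n) := by
  obtain ⟨e, he⟩ := pure_insep p hP hn hn0
  have hh : ∀ j : ℕ, P.h (p ^ j • n) = ((p ^ j : ℕ) : ℤ) * P.h n := by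
    intro j
    rw [map_nsmul, nsmul_eq_mul]
  have claim : ∀ i : ℕ, ∀ j : ℕ, j + i = e →
      ∃ b ∈ bx (P.Ind (p ^ j • l)) (P.Ind (p ^ j • l')), ∀ g,
        lreg k G (G × G) g⁻¹ b - (x ^ p ^ j) g • m ^ p ^ j ∈
          P.low (lreg k G (G × G)) (P.h (p ^ j • n)) := by
    intro i
    induction i with
    | zero =>
      intro j hj
      rw [add_zero] at hj
      subst hj
      obtain ⟨b, hb, hb'⟩ := prod_symbol hP hn hm hm' (p ^ j) (he x hx)
      refine ⟨b, hb, fun g => ?_⟩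
      rw [hh]
      exact hb' g
    | succ i ih =>
      intro j hj
      obtain ⟨b, hb, hb'⟩ := ih (j + 1) (by omega)
      refine descent hP hst (hl.pow hP (p ^ j)) (hl'.pow hP (p ^ j)) (bx_pow hP hm (p ^ j))
        (wt_pow hP hm'.1 (p ^ j)) (Ind_pow hP hx (p ^ j)) (b := b) ?_ ?_
      · rw [smul_smul, smul_smul, ← pow_succ']
        exact hb
      · intro g
        have h1 := hb' g
        rw [hh, pow_succ] at h1
        rw [hh]
        have e1 : ((p ^ j * p : ℕ) : ℤ) * P.h n = (p : ℤ) * (((p ^ j : ℕ) : ℤ) * P.h n) := by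
          push_cast
          ring
        rw [e1, Pi.pow_apply, pow_mul, pow_mul] at h1
        rw [Pi.pow_apply]
        exact h1
  obtain ⟨a, ha, ha'⟩ := claim e 0 (by omega)
  rw [pow_zero, one_smul, one_smul] at ha
  refine ⟨a, ha, fun g => ?_⟩
  have h1 := ha' g
  rw [pow_zero, pow_one, pow_one, one_smul] at h1
  exact h1

/-- **Theorem (Donkin, Mathieu).**  If `Ind l` or `Ind l'` is zero the module is zero.  Otherwise
`v_l`, `v_l'` exist (`exists_isV`).  Let `m ∈ bx (Ind l) (Ind l')` be a highest weight vector of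
weight `n`, `x ∈ Ind n`; if `m = 0` take `a = 0`; otherwise `v_n` exists (`hw_symbol`).  Apply
`twist`: for `y ∈ Ind (p n + z)` use `good_regular` for `l := z + p l`, `l' := p l'`,
`n := p n + z` (`regular_v`) and the highest weight vector `(box v 1) m^p` of weight `z + p n`
(`wt_box`/`lreg_box`, `lreg_mul`, `IsV.inv`). -/
theorem donkin_mathieu [Fact p.Prime] [CharP k p] (hP : P.Ax) (hz : P.Stz p z) (l l' : X) :
    P.Good (lreg k G (G × G)) (bx (P.Ind l) (P.Ind l')) := by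
  intro n m hm hm' x hx
  by_cases h0 : m = 0
  · refine ⟨0, zero_mem _, fun g => ?_⟩
    rw [h0, map_zero, smul_zero, sub_zero]
    exact zero_mem _
  have hne : ∃ f ∈ P.Ind l, ∃ f' ∈ P.Ind l', f ≠ 0 ∧ f' ≠ 0 := by
    by_contra hcon
    push Not at hcon
    apply h0
    have h1 : bx (P.Ind l) (P.Ind l') ≤ ⊥ := by
      rw [bx, Submodule.span_le]
      rintro F ⟨f, hf, f', hf', rfl⟩
      by_cases h2 : f = 0
      · funext y
        rw [h2, Pi.zero_apply, zero_mul]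
        rfl
      · funext y
        rw [hcon f hf f' hf' h2, Pi.zero_apply, mul_zero]
        rfl
    exact (Submodule.mem_bot k).mp (h1 hm)
  obtain ⟨f, hf, f', hf', hf0, hf0'⟩ := hne
  obtain ⟨vl, hl⟩ := exists_isV hP hf hf0
  obtain ⟨vl', hl'⟩ := exists_isV hP hf' hf0'
  obtain ⟨vn, hn, -⟩ := hw_symbol hP (bx_rat hP (Ind_rat hP l) (Ind_rat hP l')) hm hm' h0
  obtain ⟨v, s, q, hst⟩ := exists_st hP hz
  have hv := hst.isV
  have h1V : P.IsV 0 (1 : G → k) := ⟨Ind_one hP, fun c => rfl⟩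
  obtain ⟨hr1, hr2⟩ := regular_v hP hz hv hn
  refine twist hP hst hl hl' hm hx fun y hy => ?_
  have hbox : box v (1 : G → k) ∈ bx (P.Ind z) (P.Ind 0) :=
    Submodule.subset_span ⟨v, hv.1, 1, h1V.1, rfl⟩
  have hmem : box v (1 : G → k) * m ^ p ∈ bx (P.Ind (z + p • l)) (P.Ind (p • l')) := by
    have h1 := bx_mul hP hbox (bx_pow hP hm p)
    rwa [zero_add] at h1
  have hwt : box v (1 : G → k) * m ^ p ∈ P.hw (lreg k G (G × G)) (p • n + z) := by
    refine ⟨?_, fun c => ?_⟩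
    · have h1 := wt_mul hP (wt_box hP (hv.wt hP) (h1V.wt hP)) (wt_pow hP hm'.1 p)
      rwa [add_zero, add_comm] at h1
    · rw [lreg_mul, lreg_pow, lreg_box, hv.inv hP, h1V.inv hP, hm'.2]
  obtain ⟨a, ha, ha'⟩ := good_regular hP hst (hv.mul hP (hl.pow hP p)) (hl'.pow hP p) hr1 hr2
    hmem hwt hy
  refine ⟨a, ha, fun g => ?_⟩
  have h1 := ha' g
  rw [map_add, map_nsmul, nsmul_eq_mul, add_comm] at h1
  exact h1

end PinData

end Pool.Agent.DM
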