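import Pool.Agent.DM.StDef

/-!
# DM, module Curtis: the words in the `e_i` applied to the lowest weight vector of `St`

`f₋ = lreg(w₀) v`, `v` the highest weight vector of `Ind z`, `2z = (p-1) 2ρ`, `w₀ z = -z`.

## Proof of `curtis`
Let `L = eSpan f₋ ⊆ Ind z`, spanned by words, which are weight vectors (`ep_wt`).  `L` is stable
under all `e_l` (linear on `Ind z`).  The set of all `g` such that `g` and `g⁻¹` map `L` into `L` is a
subgroup, so by `hP.gen` it suffices to treat `g = tor t`, `x_i(s)`, `x_-i(s)`, `i` simple.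
* `tor t`: words are weight vectors.
* `x_i(s)`: by induction on the word: `x_i(s) e_j y = (x_i(s) e_j x_i(-s)) (x_i(s) y) =
  ∑_l a_l(s) e_l (x_i(s) y)` (`conj_xp`), and `x_i(s) f₋ ∈ L`: by `cf_xp_eq_zero` (`f₋` has weight
  `-z`, `pair i z = p - 1` since `2 z = (p-1) 2ρ` and `pair i 2ρ = 2`; `fm_inv`) the coefficients of
  `s^n`, `n ≥ p`, vanish, and for `n < p` they are `(1/n!) e_i^n f₋` (`dv_iterate`).
* `e` negative: first, `L` is stable under `em i` (`i` simple): `em_i f₋ = 0`,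
  `em_i e_j y = e_j em_i y + ∑ c_l e_l y` (`j ≠ i`, `comm_em_ep`),
  `em_i e_i y = e_i em_i y - (pair i l) y` for `y` of weight `l` (`comm_self`); words are weight
  vectors.
* `x_-i(s)`: by induction on the word: `j ≠ i`: `x_-i(s) e_j y = ∑ a_l(s) e_l (x_-i(s) y)`
  (`conj_xm`).  `j = i`: `x_-i(s) e_i y = (x_-i(s) e_i x_-i(-s)) y'` with `y' = x_-i(s) y ∈ L`, and
  `x_-i(s) e_i x_-i(-s)` maps `L` to `L` by `conj_self` (apply it to words, which span `L`).
-/

set_option autoImplicit false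

namespace Pool.Agent.DM

open MvPolynomial

variable {k : Type*} [Field k] [Infinite k] {G : Type*} [Group G] {T : Type*} [CommGroup T]
  {X : Type*} [AddCommGroup X] {P : PinData k G T X} {p : ℕ} {z : X} {v : G → k}

namespace PinData

/-- `pair i z = p - 1` for simple `i` -/
theorem pair_z (hP : P.Ax) (hp : 0 < p) (hz : P.Stz p z) {i : Fin P.N} (hi : i ∈ P.S) :
    P.pair i z = (p : ℤ) - 1 := by
  have h1 := congrArg (P.pair i) hz.two
  rw [map_nsmul, map_nsmul, hP.pair_rho i hi] at h1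
  simp only [nsmul_eq_mul] at h1
  rw [Nat.cast_sub (by omega : 1 ≤ p)] at h1
  push_cast at h1
  lia

private lemma mul_app' {V : Type*} [AddCommGroup V] [Module k V] (ρ : Representation k G V)
    (g g' : G) (x : V) : ρ (g * g') x = ρ g (ρ g' x) := by
  rw [map_mul]; rfl

theorem fm_wt (hP : P.Ax) (hz : P.Stz p z) (hv : P.IsV z v) :
    lreg k G G P.w0 v ∈ P.wt (lreg k G G) (-z) := by
  intro t
  have h1 : P.tor t * P.w0 = P.w0 * P.tor (P.wT t) := by
    have h2 := hP.w0_tor (P.wT t)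
    rw [hP.wT_wT] at h2
    rw [← h2]
    group
  have h3 : lreg k G G (P.tor (P.wT t)) v = ((P.ch z (P.wT t) : kˣ) : k) • v := hv.wt hP (P.wT t)
  rw [← mul_app', h1, mul_app', h3, map_smul, ← hP.ch_wX, hz.neg]

/-- `x_-i(s) w₀ = w₀ x_j(s/c)` with `i = σ j`; `v` is invariant under `U`. -/
theorem fm_inv (hP : P.Ax) (hv : P.IsV z v) (i : Fin P.N) (s : k) :
    lreg k G G (P.xm i s) (lreg k G G P.w0 v) = lreg k G G P.w0 v := by
  obtain ⟨c, hc, h⟩ := hP.w0_xp (P.sg.symm i)
  rw [Equiv.apply_symm_apply] at h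
  have h1 := h (s / c)
  rw [mul_div_cancel₀ s hc] at h1
  have h2 : P.xm i s * P.w0 = P.w0 * P.xp (P.sg.symm i) (s / c) := by
    rw [← h1]
    group
  have h3 : lreg k G G (P.xp (P.sg.symm i) (s / c)) v = v := by
    rw [← u_single]
    exact hv.inv hP _
  rw [← mul_app', h2, mul_app', h3]

private lemma ext_lin {V : Type*} [AddCommGroup V] [Module k V] {W : Submodule k V}
    (F : Module.End k W) : ∃ L : V →ₗ[k] V, ∀ y (hy : y ∈ W), L y = F ⟨y, hy⟩ := by
  obtain ⟨L, hL⟩ := LinearMap.exists_extend (W.subtype.comp F)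
  exact ⟨L, fun y hy => LinearMap.congr_fun hL ⟨y, hy⟩⟩

theorem curtis [Fact p.Prime] [CharP k p] (hP : P.Ax) (hz : P.Stz p z) (hv : P.IsV z v) :
    Stable (lreg k G G) (P.eSpan (lreg k G G) (lreg k G G P.w0 v)) := by
  classical
  obtain ⟨ρ, hρ⟩ : ∃ ρ : Representation k G (G → k), ρ = lreg k G G := ⟨_, rfl⟩
  obtain ⟨W, hWdef⟩ : ∃ W, W = P.Ind z := ⟨_, rfl⟩
  have hW : P.RatOn ρ W := by rw [hρ, hWdef]; exact Ind_rat hP z
  obtain ⟨f, hf⟩ : ∃ f, f = lreg k G G P.w0 v := ⟨_, rfl⟩
  have hfW : f ∈ W := by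
    rw [hf, hWdef]
    exact Ind_stable z _ _ hv.1
  have hfwt : f ∈ P.wt ρ (-z) := by rw [hf, hρ]; exact fm_wt hP hz hv
  have hfinv : ∀ i s, ρ (P.xm i s) f = f := by
    intro i s
    rw [hf, hρ]
    exact fm_inv hP hv i s
  rw [← hf, ← hρ]
  obtain ⟨L, hL⟩ : ∃ L, L = P.eSpan ρ f := ⟨_, rfl⟩
  rw [← hL]
  -- words
  have hword : ∀ w, P.ewd ρ w f ∈ L := by
    intro w
    rw [hL]
    exact Submodule.subset_span ⟨w, rfl⟩
  have hcons : ∀ j w, P.ewd ρ (j :: w) f = P.ep ρ j (P.ewd ρ w f) := fun j w => rfl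
  have hwW : ∀ w, P.ewd ρ w f ∈ W ∧ ∃ l, P.ewd ρ w f ∈ P.wt ρ l := by
    intro w
    induction w with
    | nil => exact ⟨hfW, _, hfwt⟩
    | cons j w ih =>
      obtain ⟨h1, l, h2⟩ := ih
      rw [hcons]
      exact ⟨hW.ep_mem h1 j, _, ep_wt hP hW h1 h2 j⟩
  have hLW : L ≤ W := by
    rw [hL]
    refine Submodule.span_le.2 ?_
    rintro _ ⟨w, rfl⟩
    exact (hwW w).1
  have hlin : ∀ A : (G → k) →ₗ[k] (G → k), (∀ w, A (P.ewd ρ w f) ∈ L) → ∀ x ∈ L, A x ∈ L := by
    intro A hA x hx
    have h1 : L ≤ L.comap A := by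
      conv_lhs => rw [hL]
      refine Submodule.span_le.2 ?_
      rintro _ ⟨w, rfl⟩
      exact hA w
    exact h1 hx
  have hepL : ∀ j, ∀ x ∈ L, P.ep ρ j x ∈ L := by
    intro j x hx
    obtain ⟨A, hA⟩ := ext_lin (hW.epL j)
    have h1 := hlin A (fun w => by
      rw [hA _ (hwW w).1]
      exact hword (j :: w)) x hx
    rw [hA x (hLW hx)] at h1
    exact h1
  -- inverse elements
  have hinvp : ∀ (i : Fin P.N) (s : k) (y : G → k),
      ρ (P.xp i (-s)) (ρ (P.xp i s) y) = y := by
    intro i s y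
    rw [← mul_app', xp_add, neg_add_cancel, xp_zero, map_one]
    rfl
  have hinvm : ∀ (i : Fin P.N) (s : k) (y : G → k),
      ρ (P.xm i (-s)) (ρ (P.xm i s) y) = y := by
    intro i s y
    rw [← mul_app', xm_add, neg_add_cancel, xm_zero, map_one]
    rfl
  -- the torus
  have htor : ∀ t, ∀ x ∈ L, ρ (P.tor t) x ∈ L := by
    intro t
    refine hlin (ρ (P.tor t)) fun w => ?_
    obtain ⟨l, hl⟩ := (hwW w).2
    rw [hl t]
    exact Submodule.smul_mem _ _ (hword w)
  -- positive root groups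
  have hxp : ∀ i ∈ P.S, ∀ s, ∀ x ∈ L, ρ (P.xp i s) x ∈ L := by
    intro i hi s
    refine hlin (ρ (P.xp i s)) fun w => ?_
    induction w with
    | nil =>
      change ρ (P.xp i s) f ∈ L
      refine mem_of_cf L (hW.pol_xp hfW i) (fun n => ?_) s
      by_cases hn : n < p
      · have h1 := dv_iterate (ρ := ρ) (γ := P.xp i) (x := f) (fun a b => xp_add i a b)
          (fun g => hW.pol_xp (hW.stable _ _ hfW) i) n
        have h2 : ((n.factorial : ℕ) : k) ≠ 0 := by
          rw [Ne, CharP.cast_eq_zero_iff k p, (Fact.out : p.Prime).dvd_factorial]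
          omega
        have h3 : cf (fun s => ρ (P.xp i s) f) n =
            ((n.factorial : ℕ) : k)⁻¹ • (dv ρ (P.xp i))^[n] f := by
          rw [h1, smul_smul, inv_mul_cancel₀ h2, one_smul]
        have h4 : ∀ n : ℕ, (dv ρ (P.xp i))^[n] f = P.ewd ρ (List.replicate n i) f := by
          intro n
          induction n with
          | zero => rfl
          | succ n ih =>
            rw [Function.iterate_succ_apply', ih, List.replicate_succ, hcons]
            rfl
        rw [h3, h4]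
        exact Submodule.smul_mem _ _ (hword _)
      · have h1 : cf (fun s => ρ (P.xp i s) f) n = 0 := by
          refine cf_xp_eq_zero hP hW hfW hfwt i (hfinv i) n ?_
          rw [map_neg, neg_neg, pair_z hP (Fact.out : p.Prime).pos hz hi]
          omega
        rw [h1]
        exact zero_mem _
    | cons j w ih =>
      obtain ⟨a, ha⟩ := conj_xp hP hW i j
      have h1 := ha (ρ (P.xp i s) (P.ewd ρ w f)) (hW.stable _ _ (hwW w).1) s
      rw [hinvp] at h1
      rw [hcons, h1]
      exact Submodule.sum_mem _ fun l _ => Submodule.smul_mem _ _ (hepL l _ ih)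
  -- negative operators
  have hemL : ∀ i ∈ P.S, ∀ x ∈ L, P.em ρ i x ∈ L := by
    intro i hi x hx
    have hw : ∀ w, P.em ρ i (P.ewd ρ w f) ∈ L := by
      intro w
      induction w with
      | nil =>
        have h1 : P.em ρ i (P.ewd ρ [] f) = 0 := dv_inv (ρ := ρ) (hfinv i)
        rw [h1]
        exact zero_mem _
      | cons j w ih =>
        rw [hcons]
        by_cases hij : j = i
        · subst hij
          obtain ⟨l, hl⟩ := (hwW w).2
          have h1 := comm_self hP hW (hwW w).1 hl j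
          rw [sub_eq_iff_eq_add] at h1
          rw [h1]
          exact Submodule.add_mem _ (Submodule.neg_mem _ (Submodule.smul_mem _ _ (hword w)))
            (hepL j _ ih)
        · obtain ⟨c, hc⟩ := comm_em_ep hP hW hi hij
          have h1 := hc _ (hwW w).1
          rw [sub_eq_iff_eq_add] at h1
          rw [h1]
          exact Submodule.add_mem _ (Submodule.sum_mem _ fun l _ =>
            Submodule.smul_mem _ _ (hepL l _ (hword w))) (hepL j _ ih)
    obtain ⟨A, hA⟩ := ext_lin (hW.emL i)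
    have h1 := hlin A (fun w => by
      rw [hA _ (hwW w).1]
      exact hw w) x hx
    rw [hA x (hLW hx)] at h1
    exact h1
  -- negative root groups
  have hxm : ∀ i ∈ P.S, ∀ s, ∀ x ∈ L, ρ (P.xm i s) x ∈ L := by
    intro i hi s
    refine hlin (ρ (P.xm i s)) fun w => ?_
    induction w with
    | nil =>
      change ρ (P.xm i s) f ∈ L
      rw [hfinv]
      exact hword []
    | cons j w ih =>
      rw [hcons]
      by_cases hij : j = i
      · subst hij
        obtain ⟨A, hA⟩ := ext_lin (hW.epL j)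
        have h1 := hlin ((ρ (P.xm j s)) ∘ₗ A ∘ₗ (ρ (P.xm j (-s)))) (fun u => by
          obtain ⟨l, hl⟩ := (hwW u).2
          have h2 := conj_self hP hW (hwW u).1 hl j s
          have h3 : ((ρ (P.xm j s)) ∘ₗ A ∘ₗ (ρ (P.xm j (-s)))) (P.ewd ρ u f) =
              ρ (P.xm j s) (P.ep ρ j (ρ (P.xm j (-s)) (P.ewd ρ u f))) := by
            rw [LinearMap.comp_apply, LinearMap.comp_apply, hA _ (hW.stable _ _ (hwW u).1)]
            rfl
          rw [h3, h2]
          exact Submodule.sub_mem _ (Submodule.sub_mem _ (hword (j :: u))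
            (Submodule.smul_mem _ _ (hword u))) (Submodule.smul_mem _ _
              (hemL j hi _ (hword u)))) (ρ (P.xm j s) (P.ewd ρ w f)) ih
        rw [LinearMap.comp_apply, LinearMap.comp_apply, hinvm, hA _ (hwW w).1] at h1
        exact h1
      · obtain ⟨a, ha⟩ := conj_xm hP hW hi hij
        have h1 := ha (ρ (P.xm i s) (P.ewd ρ w f)) (hW.stable _ _ (hwW w).1) s
        rw [hinvm] at h1
        rw [h1]
        exact Submodule.sum_mem _ fun l _ => Submodule.smul_mem _ _ (hepL l _ ih)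
  let K : Subgroup G :=
    { carrier := {g | (∀ x ∈ L, ρ g x ∈ L) ∧ ∀ x ∈ L, ρ g⁻¹ x ∈ L}
      mul_mem' := by
        rintro g g' ⟨h1, h2⟩ ⟨h1', h2'⟩
        refine ⟨fun x hx => ?_, fun x hx => ?_⟩
        · rw [mul_app']
          exact h1 _ (h1' x hx)
        · rw [mul_inv_rev, mul_app']
          exact h2' _ (h2 x hx)
      one_mem' := by
        refine ⟨fun x hx => ?_, fun x hx => ?_⟩
        · rw [map_one]
          exact hx
        · rw [inv_one, map_one]
          exact hx
      inv_mem' := by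
        rintro g ⟨h1, h2⟩
        exact ⟨h2, fun x hx => by rw [inv_inv]; exact h1 x hx⟩ }
  have hK := hP.gen K (fun t => ⟨htor t, by rw [← map_inv]; exact htor t⁻¹⟩)
    (fun i hi s => ⟨⟨hxp i hi s, by rw [xp_inv]; exact hxp i hi (-s)⟩,
      ⟨hxm i hi s, by rw [xm_inv]; exact hxm i hi (-s)⟩⟩)
  intro g x hx
  have h1 : g ∈ K := by rw [hK]; trivial
  exact h1.1 x hx

end PinData

end Pool.Agent.DM
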