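import Mathlib

/-!
# DM: pinned reductive groups, rational modules, induced modules, good modules

Project DM (MP_720b6c_al): tilting covers of equivariant modules with good filtration, for all
connected reductive groups.  Blueprint: /team-store/dm_blueprint.md (numbers refer to it).
-/

set_option autoImplicit false

namespace Pool.Agent.DM

open MvPolynomial

section Poly

variable {k : Type*} [Field k] {σ V : Type*} [AddCommGroup V] [Module k V]

/-- Polynomial maps from `k ^ σ` into a vector space. -/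
def PolyMap (f : (σ → k) → V) : Prop :=
  ∃ (r : ℕ) (P : Fin r → MvPolynomial σ k) (v : Fin r → V),
    ∀ c, f c = ∑ j, eval c (P j) • v j

end Poly

section SL

variable {k : Type*} [Field k]

/-- upper unipotent matrices -/
def up (a : k) : Matrix.SpecialLinearGroup (Fin 2) k := ⟨!![1, a; 0, 1], by simp⟩

/-- lower unipotent matrices -/
def lo (a : k) : Matrix.SpecialLinearGroup (Fin 2) k := ⟨!![1, 0; a, 1], by simp⟩

/-- diagonal matrices -/
def dg (z : kˣ) : Matrix.SpecialLinearGroup (Fin 2) k :=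
  ⟨!![(z : k), 0; 0, ((z⁻¹ : kˣ) : k)], by simp⟩

end SL

/-- The data of a group `G` with torus `T`, weights `X` and positive roots `0, …, N-1`: the root
homomorphisms `SL₂ → G`, characters, coroots, simple roots and the longest Weyl element. -/
structure PinData (k : Type*) [Field k] (G : Type*) [Group G] (T : Type*) [CommGroup T]
    (X : Type*) [AddCommGroup X] where
  /-- number of positive roots -/
  N : ℕ
  /-- the torus -/
  tor : T →* G
  /-- the character of the torus given by a weight -/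
  ch : X → T →* kˣ
  /-- the positive roots -/
  rt : Fin N → X
  /-- the homomorphisms from `SL₂` belonging to the positive roots -/
  phi : Fin N → Matrix.SpecialLinearGroup (Fin 2) k →* G
  /-- the coroots as homomorphisms into the torus -/
  cr : Fin N → kˣ →* T
  /-- the coroots as linear forms on the weights -/
  pair : Fin N → X →+ ℤ
  /-- the simple roots -/
  S : Finset (Fin N)
  /-- the height function, twice the sum of the fundamental coweights or the sum of the positive
  coroots -/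
  h : X →+ ℤ
  /-- a representative of the longest element of the Weyl group -/
  w0 : G
  /-- its action on the torus -/
  wT : T →* T
  /-- its action on the weights -/
  wX : X →+ X
  /-- its action on the roots: root `i` goes to minus root `sg i` -/
  sg : Equiv.Perm (Fin N)

namespace PinData

variable {k : Type*} [Field k] {G : Type*} [Group G] {T : Type*} [CommGroup T]
  {X : Type*} [AddCommGroup X] (P : PinData k G T X)

/-- root groups of the positive roots -/
def xp (i : Fin P.N) (a : k) : G := P.phi i (up a)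

/-- root groups of the negative roots -/
def xm (i : Fin P.N) (a : k) : G := P.phi i (lo a)

/-- coordinates on the unipotent radical of the positive Borel subgroup -/
def u (c : Fin P.N → k) : G := (List.ofFn fun i => P.xp i (c i)).prod

/-- coordinates on the unipotent radical of the negative Borel subgroup -/
def v (c : Fin P.N → k) : G := (List.ofFn fun i => P.xm i (c i)).prod

/-- the big cell -/
def cell : Set G := {g | ∃ a t b, g = P.u a * P.tor t * P.v b}

/-- sum of the positive roots -/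
def rho2 : X := ∑ i, P.rt i

/-- dominant weights -/
def Dom (l : X) : Prop := ∀ i ∈ P.S, 0 ≤ P.pair i l

/-- The induced module `∇(l)`: functions `f` on `G` with `f (g t b) = l(t)⁻¹ f(g)` for `t` in the
torus and `b` in the negative unipotent group, such that all left translates of `f` are polynomial
on the positive unipotent group. -/
def Ind (l : X) : Submodule k (G → k) where
  carrier := {f | (∀ g t b, f (g * (P.tor t * P.v b)) = (((P.ch l t)⁻¹ : kˣ) : k) * f g) ∧
    ∀ g, PolyMap fun c => f (g * P.u c)}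
  add_mem' := by
    rintro f f' ⟨h1, h2⟩ ⟨h1', h2'⟩
    refine ⟨fun g t b => ?_, fun g => ?_⟩
    · rw [Pi.add_apply, Pi.add_apply, h1, h1', mul_add]
    · obtain ⟨r, Q, w, hw⟩ := h2 g
      obtain ⟨r', Q', w', hw'⟩ := h2' g
      refine ⟨r + r', Fin.append Q Q', Fin.append w w', fun c => ?_⟩
      have e1 := hw c
      have e2 := hw' c
      simp only at e1 e2
      change f (g * P.u c) + f' (g * P.u c) = _
      rw [e1, e2, Fin.sum_univ_add]
      simp
  zero_mem' := ⟨fun g t b => by simp, fun g => ⟨0, Fin.elim0, Fin.elim0, fun c => by simp⟩⟩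
  smul_mem' := by
    rintro a f ⟨h1, h2⟩
    refine ⟨fun g t b => ?_, fun g => ?_⟩
    · rw [Pi.smul_apply, Pi.smul_apply, h1, smul_eq_mul, smul_eq_mul]; ring
    · obtain ⟨r, Q, w, hw⟩ := h2 g
      refine ⟨r, Q, fun j => a • w j, fun c => ?_⟩
      have e1 := hw c
      simp only at e1
      change a • f (g * P.u c) = _
      rw [e1, Finset.smul_sum]
      exact Finset.sum_congr rfl fun j _ => smul_comm _ _ _

section Rep

variable {V : Type*} [AddCommGroup V] [Module k V] (ρ : Representation k G V)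

/-- weight spaces -/
def wt (l : X) : Submodule k V where
  carrier := {x | ∀ t, ρ (P.tor t) x = ((P.ch l t : kˣ) : k) • x}
  add_mem' := by
    intro x y hx hy t
    rw [map_add, hx, hy, smul_add]
  zero_mem' := fun t => by simp
  smul_mem' := by
    intro a x hx t
    rw [map_smul, hx, smul_comm]

/-- sum of the weight spaces of height less than `c` -/
def low (c : ℤ) : Submodule k V := ⨆ (l : X) (_ : P.h l < c), P.wt ρ l

/-- weight vectors of weight `l` fixed by the positive unipotent group -/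
def hw (l : X) : Submodule k V where
  carrier := {x | x ∈ P.wt ρ l ∧ ∀ c, ρ (P.u c) x = x}
  add_mem' := by
    rintro x y ⟨hx, hx'⟩ ⟨hy, hy'⟩
    exact ⟨add_mem hx hy, fun c => by rw [map_add, hx', hy']⟩
  zero_mem' := ⟨zero_mem _, fun c => by simp⟩
  smul_mem' := by
    rintro a x ⟨hx, hx'⟩
    exact ⟨Submodule.smul_mem _ _ hx, fun c => by rw [map_smul, hx']⟩

/-- The largest stable subspace of the stable subspace `W` with all weights of height less
than `c`. -/
def cut (W : Submodule k V) (c : ℤ) : Submodule k V where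
  carrier := {x | x ∈ W ∧ ∀ g, ρ g x ∈ P.low ρ c}
  add_mem' := by
    rintro x y ⟨hx, hx'⟩ ⟨hy, hy'⟩
    exact ⟨add_mem hx hy, fun g => by rw [map_add]; exact add_mem (hx' g) (hy' g)⟩
  zero_mem' := ⟨zero_mem _, fun g => by rw [map_zero]; exact zero_mem _⟩
  smul_mem' := by
    rintro a x ⟨hx, hx'⟩
    exact ⟨Submodule.smul_mem _ _ hx, fun g => by
      rw [map_smul]; exact Submodule.smul_mem _ _ (hx' g)⟩

end Rep

end PinData

section Stab

variable {k : Type*} [Field k] {G : Type*} [Group G] {V : Type*} [AddCommGroup V] [Module k V]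

/-- stable subspaces -/
def Stable (ρ : Representation k G V) (W : Submodule k V) : Prop := ∀ g, ∀ x ∈ W, ρ g x ∈ W

/-- left translation of functions on a `G`-set: `(g f)(y) = f(g⁻¹ y)` -/
def lreg (k : Type*) [Field k] (G : Type*) [Group G] (Y : Type*) [MulAction G Y] :
    Representation k G (Y → k) where
  toFun g :=
    { toFun := fun f y => f (g⁻¹ • y)
      map_add' := fun _ _ => rfl
      map_smul' := fun _ _ => rfl }
  map_one' := by
    ext f y
    simp
  map_mul' g g' := by
    apply LinearMap.ext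
    intro f
    funext y
    change f ((g * g')⁻¹ • y) = f (g'⁻¹ • g⁻¹ • y)
    rw [mul_inv_rev, mul_smul]

end Stab

section Prod

variable {k : Type*} [Field k] {Y Y' : Type*}

/-- `A ⊗ B` as a space of functions on `Y × Y'`: the span of the products `f(y) f'(y')`. -/
def bx (A : Submodule k (Y → k)) (B : Submodule k (Y' → k)) : Submodule k (Y × Y' → k) :=
  Submodule.span k {F | ∃ f ∈ A, ∃ f' ∈ B, F = fun y => f y.1 * f' y.2}

/-- The span of the `p`-th powers of the elements of `A`. -/
def fr (p : ℕ) (A : Submodule k (Y → k)) : Submodule k (Y → k) :=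
  Submodule.span k {F | ∃ f ∈ A, F = f ^ p}

end Prod

/-- The axioms (A1)-(A9) of the blueprint. -/
structure PinData.Ax {k : Type*} [Field k] {G : Type*} [Group G] {T : Type*} [CommGroup T]
    {X : Type*} [AddCommGroup X] (P : PinData k G T X) : Prop where
  ch_add : ∀ l m t, P.ch (l + m) t = P.ch l t * P.ch m t
  ch_inj : Function.Injective P.ch
  rt_inj : Function.Injective P.rt
  rt_red : ∀ i j (m n : ℕ), 0 < m → m • P.rt i = n • P.rt j → i = j
  h_pos : ∀ i, 0 < P.h (P.rt i)
  h_mono : ∀ i j, i ≤ j → P.h (P.rt i) ≤ P.h (P.rt j)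
  h_dom : ∀ l, P.Dom l → 0 ≤ P.h l
  tor_xp : ∀ i t a, P.tor t * P.xp i a * (P.tor t)⁻¹ = P.xp i (((P.ch (P.rt i) t : kˣ) : k) * a)
  tor_xm : ∀ i t a, P.tor t * P.xm i a * (P.tor t)⁻¹ =
    P.xm i ((((P.ch (P.rt i) t)⁻¹ : kˣ) : k) * a)
  phi_dg : ∀ i z, P.phi i (dg z) = P.tor (P.cr i z)
  ch_cr : ∀ i l z, P.ch l (P.cr i z) = z ^ (P.pair i l)
  pair_rt : ∀ i, P.pair i (P.rt i) = 2
  pair_rho : ∀ i ∈ P.S, P.pair i P.rho2 = 2
  u_inj : Function.Injective P.u
  u_mul : ∃ m : Fin P.N → MvPolynomial (Fin P.N ⊕ Fin P.N) k, ∀ a b,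
    P.u a * P.u b = P.u fun i => eval (Sum.elim a b) (m i)
  u_inv : ∃ m : Fin P.N → MvPolynomial (Fin P.N) k, ∀ a, (P.u a)⁻¹ = P.u fun i => eval a (m i)
  v_inj : Function.Injective P.v
  v_mul : ∃ m : Fin P.N → MvPolynomial (Fin P.N ⊕ Fin P.N) k, ∀ a b,
    P.v a * P.v b = P.v fun i => eval (Sum.elim a b) (m i)
  v_inv : ∃ m : Fin P.N → MvPolynomial (Fin P.N) k, ∀ a, (P.v a)⁻¹ = P.v fun i => eval a (m i)
  cell_inj : ∀ a t b a' t' b', P.u a * P.tor t * P.v b = P.u a' * P.tor t' * P.v b' →
    a = a' ∧ t = t' ∧ b = b'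
  dense : ∀ g, ∃ c, g * P.u c ∈ P.cell
  conj_u : ∀ i ∈ P.S, ∃ q : Fin P.N → MvPolynomial (Option (Fin P.N)) k,
    ∀ (s : k) (c : Fin P.N → k), c i = 0 → eval (fun o => o.elim s c) (q i) = 0 ∧
      P.xm i s * P.u c * P.xm i (-s) = P.u fun j => eval (fun o => o.elim s c) (q j)
  conj_v : ∀ i ∈ P.S, ∃ q : Fin P.N → MvPolynomial (Option (Fin P.N)) k,
    ∀ (s : k) (c : Fin P.N → k), c i = 0 → eval (fun o => o.elim s c) (q i) = 0 ∧
      P.xp i s * P.v c * P.xp i (-s) = P.v fun j => eval (fun o => o.elim s c) (q j)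
  w0_tor : ∀ t, P.w0 * P.tor t * P.w0⁻¹ = P.tor (P.wT t)
  wT_wT : ∀ t, P.wT (P.wT t) = t
  ch_wX : ∀ l t, P.ch (P.wX l) t = P.ch l (P.wT t)
  wX_rt : ∀ i, P.wX (P.rt i) = - P.rt (P.sg i)
  w0_xp : ∀ i, ∃ c : k, c ≠ 0 ∧ ∀ s, P.w0 * P.xp i s * P.w0⁻¹ = P.xm (P.sg i) (c * s)
  w0_xm : ∀ i, ∃ c : k, c ≠ 0 ∧ ∀ s, P.w0 * P.xm i s * P.w0⁻¹ = P.xp (P.sg i) (c * s)
  sg_S : ∀ i ∈ P.S, P.sg i ∈ P.S
  h_wX : ∀ l, P.h (P.wX l) = - P.h l
  dom : ∀ l, P.Dom l → ∃ f ∈ P.Ind l, ∀ c, f (P.u c) = 1
  delta : ∃ f ∈ P.Ind P.rho2, (∀ c, f (P.u c) = 1) ∧ ∀ g, g ∉ P.cell → f g = 0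
  ext : ∀ Q : MvPolynomial (Fin P.N) k, ∃ (n : ℕ), ∃ f ∈ P.Ind (n • P.rho2),
    ∀ c, f (P.u c) = eval c Q
  gen_u : ∀ K : Subgroup G, (∀ i ∈ P.S, ∀ s, P.xp i s ∈ K) → ∀ c, P.u c ∈ K
  gen_v : ∀ K : Subgroup G, (∀ i ∈ P.S, ∀ s, P.xm i s ∈ K) → ∀ c, P.v c ∈ K
  gen : ∀ K : Subgroup G, (∀ t, P.tor t ∈ K) → (∀ i ∈ P.S, ∀ s, P.xp i s ∈ K ∧ P.xm i s ∈ K) →
    K = ⊤

namespace PinData

variable {k : Type*} [Field k] {G : Type*} [Group G] {T : Type*} [CommGroup T]
  {X : Type*} [AddCommGroup X] (P : PinData k G T X)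
  {V : Type*} [AddCommGroup V] [Module k V]

/-- The weight `z` of the Steinberg module: `2 z = (p-1) ∑ positive roots`, `w₀ z = -z`. -/
structure Stz (p : ℕ) (z : X) : Prop where
  two : 2 • z = (p - 1) • P.rho2
  neg : P.wX z = -z

/-- `f` is the highest weight vector of `∇(l)`, normalised to be `1` on the positive unipotent
group. -/
def IsV (l : X) (f : G → k) : Prop := f ∈ P.Ind l ∧ ∀ c, f (P.u c) = 1

/-- `W` is a rational `G`-module: a stable subspace of the representation `ρ`, locally finite, sum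
of weight vectors, with polynomial action of both unipotent groups. -/
structure RatOn (ρ : Representation k G V) (W : Submodule k V) : Prop where
  stable : Stable ρ W
  fin : ∀ x ∈ W, ∃ F : Submodule k V, x ∈ F ∧ F ≤ W ∧ FiniteDimensional k F ∧ Stable ρ F
  wts : W ≤ ⨆ l, P.wt ρ l
  pu : ∀ x ∈ W, PolyMap fun c => ρ (P.u c) x
  pv : ∀ x ∈ W, PolyMap fun c => ρ (P.v c) x

/-- Good modules: for every highest weight vector `m` of weight `n` in `W` and every `x` in
`∇(n)` there is an element `a` of `W` with leading symbol `x m`. -/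
def Good (ρ : Representation k G V) (W : Submodule k V) : Prop :=
  ∀ n, ∀ m ∈ W, m ∈ P.hw ρ n → ∀ x ∈ P.Ind n, ∃ a ∈ W, ∀ g,
    ρ g⁻¹ a - x g • m ∈ P.low ρ (P.h n)

end PinData

end Pool.Agent.DM
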