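import Pool.Agent.DM.StDef

/-!
# DM, module Der: the operators `e_j` as derivations of `k[U]`

`R = MvPolynomial (Fin P.N) k`.  Construction: let `m_i(b, c)` be the polynomials with
`u b * u c = u (m(b, c))` (`hP.u_mul`).  For `Q ∈ R` the polynomial `Q(m(-s δ_j, c)) ∈ R[s]`
depends on `Q` by an algebra homomorphism `R → R[s]` with constant coefficient `Q` (as
`m(0, c) = c`), so its coefficient `D_j Q` of `s` is a derivation of `R`.
* compatibility: `(lreg(x_j(s)) f)(u c) = f(x_j(-s) u(c))`, so by `cf_map` (evaluation at `u c`)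
  `(ep_j f)(u c)` is the coefficient of `s` in `Q(m(-s δ_j, c))`.
* `Tri p D`: every `Q` is the restriction of some `f ∈ Ind(n • 2ρ)` (`hP.ext`).
  `D_j^p Q` is the restriction of `ep_j^p f = 0` (`epL_pow`, `Ind_rat`).  For the commutators let
  `W = ⨆ n, Ind(n • 2ρ)`, a rational submodule of `G → k` (`iSup_rat`); `comm_ep` for `W` gives
  constants `c` valid for all `f ∈ W`; `c l ≠ 0` implies `rt l = rt i + rt j`, hence `i < l`,
  `j < l` (`h_mono`, `h_pos`).  Polynomials are determined by their values (`k` infinite).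
* `D_j (Q^p) = p Q^(p-1) D_j Q = 0`.
-/

set_option autoImplicit false

namespace Pool.Agent.DM

open MvPolynomial

variable {k : Type*} [Field k] [Infinite k] {G : Type*} [Group G] {T : Type*} [CommGroup T]
  {X : Type*} [AddCommGroup X] {P : PinData k G T X} {p : ℕ}

section aux

variable {N : ℕ}

/-- the values of the variables -/
private noncomputable def sv (k : Type*) [Field k] {N : ℕ} (j : Fin N) :
    Fin N ⊕ Fin N → Polynomial (MvPolynomial (Fin N) k)
  | Sum.inl l => if l = j then -Polynomial.X else 0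
  | Sum.inr l => Polynomial.C (MvPolynomial.X l)

omit [Infinite k] in
private lemma inner_eval (j : Fin N) (c : Fin N → k) (s : k)
    (M : MvPolynomial (Fin N ⊕ Fin N) k) :
    (Polynomial.map (eval c) (aeval (sv k j) M)).eval s =
      eval (Sum.elim (Pi.single j (-s)) c) M := by
  induction M using MvPolynomial.induction_on with
  | C a => simp
  | add p q hp hq => rw [map_add, Polynomial.map_add, Polynomial.eval_add, hp, hq, map_add]
  | mul_X p n hp =>
    rw [map_mul, Polynomial.map_mul, Polynomial.eval_mul, hp, map_mul, aeval_X, eval_X]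
    congr 1
    rcases n with l | l
    · by_cases h : l = j
      · subst h
        simp [sv]
      · simp [sv, h]
    · simp [sv]

/-- the substitution `Q ↦ Q(m(-s δ_j, c))` -/
private noncomputable def th (m : Fin N → MvPolynomial (Fin N ⊕ Fin N) k) (j : Fin N) :
    MvPolynomial (Fin N) k →ₐ[k] Polynomial (MvPolynomial (Fin N) k) :=
  aeval fun i => aeval (sv k j) (m i)

omit [Infinite k] in
private lemma th_eval (m : Fin N → MvPolynomial (Fin N ⊕ Fin N) k) (j : Fin N) (c : Fin N → k)
    (s : k) (Q : MvPolynomial (Fin N) k) :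
    (Polynomial.map (eval c) (th m j Q)).eval s =
      eval (fun i => eval (Sum.elim (Pi.single j (-s)) c) (m i)) Q := by
  induction Q using MvPolynomial.induction_on with
  | C a => simp
  | add p q hp hq => rw [map_add, Polynomial.map_add, Polynomial.eval_add, hp, hq, map_add]
  | mul_X p n hp =>
    have h1 : th m j (MvPolynomial.X n) = aeval (sv k j) (m n) := by
      rw [th, aeval_X]
    rw [map_mul, Polynomial.map_mul, Polynomial.eval_mul, hp, map_mul, h1, inner_eval, eval_X]

private lemma th_coeff_zero {m : Fin N → MvPolynomial (Fin N ⊕ Fin N) k}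
    (hm : ∀ (c : Fin N → k) i, eval (Sum.elim 0 c) (m i) = c i) (j : Fin N)
    (Q : MvPolynomial (Fin N) k) : (th m j Q).coeff 0 = Q := by
  apply MvPolynomial.funext
  intro c
  have h1 := th_eval m j c 0 Q
  rw [neg_zero, Pi.single_zero] at h1
  simp only [hm] at h1
  rw [← h1, ← Polynomial.coeff_zero_eq_eval_zero, Polynomial.coeff_map]

/-- the derivation -/
private noncomputable def DD (m : Fin N → MvPolynomial (Fin N ⊕ Fin N) k) (j : Fin N) :
    Module.End k (MvPolynomial (Fin N) k) where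
  toFun Q := (th m j Q).coeff 1
  map_add' Q Q' := by rw [map_add, Polynomial.coeff_add]
  map_smul' a Q := by rw [map_smul, Polynomial.coeff_smul]; rfl

private lemma DD_mul {m : Fin N → MvPolynomial (Fin N ⊕ Fin N) k}
    (hm : ∀ (c : Fin N → k) i, eval (Sum.elim 0 c) (m i) = c i) (j : Fin N)
    (Q Q' : MvPolynomial (Fin N) k) : DD m j (Q * Q') = DD m j Q * Q' + Q * DD m j Q' := by
  change (th m j (Q * Q')).coeff 1 = (th m j Q).coeff 1 * Q' + Q * (th m j Q').coeff 1
  rw [map_mul, Polynomial.mul_coeff_one, th_coeff_zero hm, th_coeff_zero hm, add_comm]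

private lemma DD_pow {m : Fin N → MvPolynomial (Fin N ⊕ Fin N) k}
    (hm : ∀ (c : Fin N → k) i, eval (Sum.elim 0 c) (m i) = c i) (j : Fin N)
    (Q : MvPolynomial (Fin N) k) (n : ℕ) :
    DD m j (Q ^ (n + 1)) = ((n + 1 : ℕ) : k) • (Q ^ n * DD m j Q) := by
  induction n with
  | zero => simp
  | succ n ih =>
    have h1 : Q ^ n * DD m j Q * Q = Q ^ (n + 1) * DD m j Q := by ring
    rw [pow_succ, DD_mul hm, ih, smul_mul_assoc, h1]
    push_cast
    rw [add_smul ((n : k) + 1) 1, one_smul]

private lemma cf_poly (K : Polynomial k) : cf (fun s => K.eval s) 1 = K.coeff 1 := by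
  rw [cf_eq (d := K.natDegree + 2) (w := fun n => K.coeff n) (fun s => ?_), if_pos (by omega)]
  rw [Polynomial.eval_eq_sum_range' (n := K.natDegree + 2) (by omega)]
  refine Finset.sum_congr rfl fun n _ => ?_
  rw [smul_eq_mul, mul_comm]

end aux

namespace PinData

private lemma ep_res (hP : P.Ax) {m : Fin P.N → MvPolynomial (Fin P.N ⊕ Fin P.N) k}
    (hm : ∀ a b, P.u a * P.u b = P.u fun i => eval (Sum.elim a b) (m i)) {l : X} {f : G → k}
    (hf : f ∈ P.Ind l) {Q : MvPolynomial (Fin P.N) k} (hQ : ∀ c, f (P.u c) = eval c Q)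
    (j : Fin P.N) (c : Fin P.N → k) :
    P.ep (lreg k G G) j f (P.u c) = eval c (DD m j Q) := by
  have h1 := cf_map ((Ind_rat hP l).pol_xp hf j)
    (LinearMap.proj (R := k) (φ := fun _ : G => k) (P.u c)) 1
  have h2 : (fun s => (LinearMap.proj (R := k) (φ := fun _ : G => k) (P.u c))
      (lreg k G G (P.xp j s) f)) = fun s => (Polynomial.map (eval c) (th m j Q)).eval s := by
    funext s
    rw [LinearMap.proj_apply, lreg_apply, smul_eq_mul, xp_inv, ← u_single, hm, hQ, th_eval]
  rw [h2, cf_poly, Polynomial.coeff_map] at h1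
  exact h1.symm

theorem exists_der [Fact p.Prime] [CharP k p] (hP : P.Ax) :
    ∃ D : Fin P.N → Module.End k (MvPolynomial (Fin P.N) k),
      (∀ j Q Q', D j (Q * Q') = D j Q * Q' + Q * D j Q') ∧ (∀ j Q, D j (Q ^ p) = 0) ∧ Tri p D ∧
      ∀ (l : X), ∀ f ∈ P.Ind l, ∀ Q : MvPolynomial (Fin P.N) k, (∀ c, f (P.u c) = eval c Q) →
        ∀ j c, P.ep (lreg k G G) j f (P.u c) = eval c (D j Q) := by
  obtain ⟨m, hm⟩ := hP.u_mul
  have hm0 : ∀ (c : Fin P.N → k) i, eval (Sum.elim 0 c) (m i) = c i := by
    intro c i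
    have h1 := hm 0 c
    rw [u_zero, one_mul] at h1
    exact (congrFun (hP.u_inj h1) i).symm
  refine ⟨DD m, DD_mul hm0, fun j Q => ?_, ⟨fun j => ?_, fun i j => ?_⟩,
    fun l f hf Q hQ j c => ep_res hP hm hf hQ j c⟩
  · have hp : p - 1 + 1 = p := Nat.succ_pred_eq_of_pos (Fact.out : p.Prime).pos
    have h1 := DD_pow hm0 j Q (p - 1)
    rw [hp, CharP.cast_eq_zero, zero_smul] at h1
    exact h1
  · apply LinearMap.ext
    intro Q
    obtain ⟨n, f, hf, hfQ⟩ := hP.ext Q
    have hit : ∀ (i : ℕ), ∀ c, ((((Ind_rat hP (n • P.rho2)).epL j ^ i) ⟨f, hf⟩ :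
        P.Ind (n • P.rho2)) : G → k) (P.u c) = eval c ((DD m j ^ i) Q) := by
      intro i
      induction i with
      | zero => exact hfQ
      | succ i ih =>
        intro c
        rw [pow_succ', pow_succ', Module.End.mul_apply, Module.End.mul_apply]
        exact ep_res hP hm (((Ind_rat hP (n • P.rho2)).epL j ^ i) ⟨f, hf⟩).2 ih j c
    apply MvPolynomial.funext
    intro c
    rw [← hit p c, epL_pow p hP (Ind_rat hP (n • P.rho2)) j]
    simp
  · have hWr : P.RatOn (lreg k G G) (⨆ n : ℕ, P.Ind (n • P.rho2)) :=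
      iSup_rat _ fun n => Ind_rat hP _
    obtain ⟨c, hc, h⟩ := (tri_epL p hP hWr).comm i j
    refine ⟨c, hc, ?_⟩
    apply LinearMap.ext
    intro Q
    obtain ⟨n, f, hf, hfQ⟩ := hP.ext Q
    have hfW : f ∈ ⨆ n : ℕ, P.Ind (n • P.rho2) := Submodule.mem_iSup_of_mem n hf
    have h1 := congrArg (fun L : Module.End k (⨆ n : ℕ, P.Ind (n • P.rho2) :
      Submodule k (G → k)) => ((L ⟨f, hfW⟩ : (⨆ n : ℕ, P.Ind (n • P.rho2) :
      Submodule k (G → k))) : G → k)) h
    have h2 : P.ep (lreg k G G) i (P.ep (lreg k G G) j f) -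
        P.ep (lreg k G G) j (P.ep (lreg k G G) i f) = ∑ l, c l • P.ep (lreg k G G) l f := by
      beta_reduce at h1
      rw [LinearMap.sum_apply, Submodule.coe_sum] at h1
      exact h1
    have hR := Ind_rat hP (n • P.rho2)
    have hD : ∀ l, ∀ c, P.ep (lreg k G G) l f (P.u c) = eval c (DD m l Q) :=
      fun l c => ep_res hP hm hf hfQ l c
    apply MvPolynomial.funext
    intro a
    have h3 := congrFun h2 (P.u a)
    rw [Pi.sub_apply, ep_res hP hm (hR.ep_mem hf j) (hD j) i a,
      ep_res hP hm (hR.ep_mem hf i) (hD i) j a, Finset.sum_apply] at h3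
    rw [LinearMap.sub_apply, LinearMap.sum_apply, map_sub, map_sum]
    rw [Module.End.mul_apply, Module.End.mul_apply, h3]
    refine Finset.sum_congr rfl fun l _ => ?_
    rw [Pi.smul_apply, hD l a, LinearMap.smul_apply, smul_eval, smul_eq_mul]

end PinData

end Pool.Agent.DM
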