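import Pool.Agent.DM.Kap

/-!
# DM, module Sig: the maps `σ` and `σ'`

`M(l, m) = bx (Ind l) (Ind m)`, functions on `G × G`.

`exists_sigma`: let `κ₁`, `κ₂` be the maps of `exists_kappa` for `l`, `m`, and
`σ φ (x, (x₁, x₂)) = κ₂ (x' ↦ κ₁ (φ(·, x')) (x', x₁)) (x, x₂)`, linear in `φ`.  For
`φ = box f f'`, `f ∈ Ind(z + p l)`, `f' ∈ Ind(p m)`, `κ₁ f = ∑ box s_i (a_i^p)` (`s_i ∈ Ind z`,
`a_i ∈ Ind l`): the inner function is `x' ↦ f'(x') ∑ s_i(x') a_i(x₁)^p` and
`σ φ (x, (x₁, x₂)) = ∑ a_i(x₁)^p κ₂(f' s_i)(x, x₂)`, `f' s_i ∈ Ind(z + p m)`,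
`κ₂(f' s_i) = ∑_j box s_(ij) (b_(ij)^p)`.  So `σ φ ∈ bx (Ind z) (fr p (bx (Ind l) (Ind m)))`
(`fr_bx`).  Equivariance on the generators `box f f'` from the equivariance of `κ₁`, `κ₂`.  Value on
`(box s' 1) a^p`: for `a = ∑ box a_i b_i`, `a^p = ∑ box (a_i^p) (b_i^p)`,
`(box s' 1) a^p = ∑ box (s' a_i^p) (b_i^p)`, `κ₁(s' a_i^p) = box s' (a_i^p)`,
`κ₂(s' b_i^p) = box s' (b_i^p)`.

`exists_sigma'`: `σ' φ = σ ((x, w) ↦ φ (x, (x, w)))`; for `φ = box s' (box f f')` with
`s' ∈ Ind z`, `f ∈ Ind(p l)`, the function is `box (s' f) f'`, `s' f ∈ Ind(z + p l)`.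
-/

set_option autoImplicit false

namespace Pool.Agent.DM

open MvPolynomial

variable {k : Type*} [Field k] [IsAlgClosed k] [Infinite k] {G : Type*} [Group G]
  {T : Type*} [CommGroup T] {X : Type*} [AddCommGroup X] {P : PinData k G T X} {p : ℕ} {z l m : X}
  {v vl vm : G → k} {s : (Fin P.N → ℕ) → G → k}
  {q : (Fin P.N → ℕ) → MvPolynomial (Fin P.N) k}

section aux

variable {k : Type*} [Field k] {G : Type*} [Group G] {Y Y' Y'' : Type*}

/-- the box product with a fixed left factor -/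
private def boxL (f : Y → k) : (Y' → k) →ₗ[k] (Y × Y' → k) where
  toFun f' := box f f'
  map_add' a b := by
    funext y
    exact mul_add _ _ _
  map_smul' c a := by
    funext y
    exact mul_left_comm _ _ _

/-- the map `σ` made from `κ₁` and `κ₂` -/
private def sgm (κ₁ κ₂ : (G → k) →ₗ[k] (G × G → k)) : (G × G → k) →ₗ[k] (G × (G × G) → k) where
  toFun φ y := κ₂ (fun x' => κ₁ (fun x => φ (x, x')) (x', y.2.1)) (y.1, y.2.2)
  map_add' φ φ' := by
    funext y
    have h1 : (fun x' => κ₁ (fun x => (φ + φ') (x, x')) (x', y.2.1)) =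
        (fun x' => κ₁ (fun x => φ (x, x')) (x', y.2.1)) +
          fun x' => κ₁ (fun x => φ' (x, x')) (x', y.2.1) := by
      funext x'
      exact congrFun (map_add κ₁ (fun x => φ (x, x')) (fun x => φ' (x, x'))) (x', y.2.1)
    rw [h1, map_add]
    rfl
  map_smul' c φ := by
    funext y
    have h1 : (fun x' => κ₁ (fun x => (c • φ) (x, x')) (x', y.2.1)) =
        c • fun x' => κ₁ (fun x => φ (x, x')) (x', y.2.1) := by
      funext x'
      exact congrFun (map_smul κ₁ c (fun x => φ (x, x'))) (x', y.2.1)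
    rw [h1, map_smul]
    rfl

/-- insert a function in the middle variable -/
private def ins (b : Y' → k) : (Y × Y'' → k) →ₗ[k] (Y × (Y' × Y'') → k) where
  toFun F y := b y.2.1 * F (y.1, y.2.2)
  map_add' F F' := by
    funext y
    exact mul_add _ _ _
  map_smul' c F := by
    funext y
    exact mul_left_comm _ _ _

private lemma ins_box (b : Y' → k) (f : Y → k) (g : Y'' → k) :
    ins b (box f g) = box f (box b g) := by
  funext y
  exact mul_left_comm _ _ _

private lemma ins_mem {A : Submodule k (Y → k)} {B : Submodule k (Y' → k)}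
    {C : Submodule k (Y'' → k)} {b : Y' → k} (hb : b ∈ B) {F : Y × Y'' → k} (hF : F ∈ bx A C) :
    ins b F ∈ bx A (bx B C) := by
  have h1 : bx A C ≤ (bx A (bx B C)).comap (ins b) := by
    refine bx_induct _ fun f hf g hg => ?_
    rw [Submodule.mem_comap, ins_box]
    exact box_mem hf (box_mem hb hg)
  exact h1 hF

omit [Group G] in
private lemma sgm_box {κ₁ κ₂ : (G → k) →ₗ[k] (G × G → k)} {n : ℕ} {f f' : G → k}
    {a b : Fin n → G → k} (h : κ₁ f = ∑ i, box (a i) (b i)) :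
    sgm κ₁ κ₂ (box f f') = ∑ i, ins (b i) (κ₂ (a i * f')) := by
  funext y
  have h1 : (fun x' => κ₁ (fun x => box f f' (x, x')) (x', y.2.1)) =
      ∑ i, b i y.2.1 • (a i * f') := by
    funext x'
    have h2 : (fun x => box f f' (x, x')) = f' x' • f := by
      funext x
      exact mul_comm _ _
    rw [h2, map_smul, h, Pi.smul_apply, Finset.sum_apply, Finset.sum_apply, smul_eq_mul,
      Finset.mul_sum]
    refine Finset.sum_congr rfl fun i _ => ?_
    simp only [box, Pi.smul_apply, Pi.mul_apply, smul_eq_mul]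
    ring
  change κ₂ (fun x' => κ₁ (fun x => box f f' (x, x')) (x', y.2.1)) (y.1, y.2.2) = _
  rw [h1, map_sum, Finset.sum_apply, Finset.sum_apply]
  refine Finset.sum_congr rfl fun i _ => ?_
  rw [map_smul]
  rfl

private lemma lreg_ins (g : G) [MulAction G Y] [MulAction G Y'] [MulAction G Y''] (b : Y' → k)
    (F : Y × Y'' → k) : lreg k G (Y × (Y' × Y'')) g (ins b F) =
      ins (lreg k G Y' g b) (lreg k G (Y × Y'') g F) := rfl

end aux

namespace PinData

theorem exists_sigma [Fact p.Prime] [CharP k p] (hP : P.Ax) (hst : P.IsSt p z v s q)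
    (hl : P.IsV l vl) (hm : P.IsV m vm) :
    ∃ σ : (G × G → k) →ₗ[k] (G × (G × G) → k),
      (∀ φ ∈ bx (P.Ind (z + p • l)) (P.Ind (p • m)),
        σ φ ∈ bx (P.Ind z) (fr p (bx (P.Ind l) (P.Ind m)))) ∧
      (∀ φ ∈ bx (P.Ind (z + p • l)) (P.Ind (p • m)), ∀ g,
        σ (lreg k G (G × G) g φ) = lreg k G (G × (G × G)) g (σ φ)) ∧
      ∀ s' ∈ P.Ind z, ∀ a ∈ bx (P.Ind l) (P.Ind m),
        σ (box s' (1 : G → k) * a ^ p) = box s' (a ^ p) := by
  obtain ⟨κ₁, k1, k2, k3⟩ := exists_kappa hP hst hl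
  obtain ⟨κ₂, j1, j2, j3⟩ := exists_kappa hP hst hm
  refine ⟨sgm κ₁ κ₂, ?_, ?_, ?_⟩
  · intro φ hφ
    rw [fr_bx]
    have h1 : bx (P.Ind (z + p • l)) (P.Ind (p • m)) ≤
        (bx (P.Ind z) (bx (fr p (P.Ind l)) (fr p (P.Ind m)))).comap (sgm κ₁ κ₂) := by
      refine bx_induct _ fun f hf f' hf' => ?_
      obtain ⟨n, a, b, ha, hb, -, h⟩ := mem_bx (k1 f hf)
      rw [Submodule.mem_comap, sgm_box h]
      refine Submodule.sum_mem _ fun i _ => ?_
      exact ins_mem (hb i) (j1 _ (Ind_mul hP (ha i) hf'))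
    exact h1 hφ
  · intro φ hφ g
    have h1 : bx (P.Ind (z + p • l)) (P.Ind (p • m)) ≤
        LinearMap.eqLocus ((sgm κ₁ κ₂) ∘ₗ (lreg k G (G × G) g))
          ((lreg k G (G × (G × G)) g) ∘ₗ (sgm κ₁ κ₂)) := by
      refine bx_induct _ fun f hf f' hf' => ?_
      obtain ⟨n, a, b, ha, hb, -, h⟩ := mem_bx (k1 f hf)
      have h' : κ₁ (lreg k G G g f) = ∑ i, box (lreg k G G g (a i)) (lreg k G G g (b i)) := by
        rw [k3 f hf g, h, map_sum]
        rfl
      rw [LinearMap.mem_eqLocus, LinearMap.comp_apply, LinearMap.comp_apply, lreg_box, sgm_box h',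
        sgm_box h, map_sum]
      refine Finset.sum_congr rfl fun i _ => ?_
      rw [lreg_ins, ← j3 _ (Ind_mul hP (ha i) hf')]
      rfl
    exact h1 hφ
  · intro s' hs' a ha
    have h1 : bx (fr p (P.Ind l)) (fr p (P.Ind m)) ≤
        LinearMap.eqLocus ((sgm κ₁ κ₂) ∘ₗ (LinearMap.mulLeft k (box s' (1 : G → k))))
          (boxL s') := by
      refine bx_induct _ fun c hc d hd => ?_
      obtain ⟨c, hc0, rfl⟩ := (mem_fr p).1 hc
      obtain ⟨d, hd0, rfl⟩ := (mem_fr p).1 hd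
      have h2 : box s' (1 : G → k) * box (c ^ p) (d ^ p) = box (s' * c ^ p) (d ^ p) := by
        funext y
        simp only [box, Pi.mul_apply, Pi.one_apply]
        ring
      have h3 : κ₁ (s' * c ^ p) = ∑ i : Fin 1, box s' (c ^ p) := by
        rw [k2 s' hs' c hc0, Fin.sum_univ_one]
      rw [LinearMap.mem_eqLocus, LinearMap.comp_apply, LinearMap.mulLeft_apply, h2, sgm_box h3,
        Fin.sum_univ_one, j2 s' hs' d hd0, ins_box]
      rfl
    have h4 : a ^ p ∈ fr p (bx (P.Ind l) (P.Ind m)) := (mem_fr p).2 ⟨a, ha, rfl⟩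
    rw [fr_bx] at h4
    exact h1 h4

theorem exists_sigma' [Fact p.Prime] [CharP k p] (hP : P.Ax) (hst : P.IsSt p z v s q)
    (hl : P.IsV l vl) (hm : P.IsV m vm) :
    ∃ σ : (G × (G × G) → k) →ₗ[k] (G × (G × G) → k),
      (∀ φ ∈ bx (P.Ind z) (bx (P.Ind (p • l)) (P.Ind (p • m))),
        σ φ ∈ bx (P.Ind z) (fr p (bx (P.Ind l) (P.Ind m)))) ∧
      (∀ φ ∈ bx (P.Ind z) (bx (P.Ind (p • l)) (P.Ind (p • m))), ∀ g,
        σ (lreg k G (G × (G × G)) g φ) = lreg k G (G × (G × G)) g (σ φ)) ∧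
      ∀ s' ∈ P.Ind z, ∀ a ∈ bx (P.Ind l) (P.Ind m), σ (box s' (a ^ p)) = box s' (a ^ p) := by
  obtain ⟨σ, h1, h2, h3⟩ := exists_sigma hP hst hl hm
  have hd : ∀ φ ∈ bx (P.Ind z) (bx (P.Ind (p • l)) (P.Ind (p • m))),
      LinearMap.funLeft k k (fun y : G × G => (y.1, (y.1, y.2))) φ ∈
        bx (P.Ind (z + p • l)) (P.Ind (p • m)) := by
    intro φ hφ
    have h4 : bx (P.Ind z) (bx (P.Ind (p • l)) (P.Ind (p • m))) ≤
        (bx (P.Ind (z + p • l)) (P.Ind (p • m))).comap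
          (LinearMap.funLeft k k (fun y : G × G => (y.1, (y.1, y.2)))) := by
      refine bx_induct _ fun f hf F hF => ?_
      have h5 : bx (P.Ind (p • l)) (P.Ind (p • m)) ≤
          ((bx (P.Ind (z + p • l)) (P.Ind (p • m))).comap
            (LinearMap.funLeft k k (fun y : G × G => (y.1, (y.1, y.2))))).comap (boxL f) := by
        refine bx_induct _ fun a ha b hb => ?_
        rw [Submodule.mem_comap, Submodule.mem_comap]
        have h6 : LinearMap.funLeft k k (fun y : G × G => (y.1, (y.1, y.2))) (boxL f (box a b)) =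
            box (f * a) b := by
          funext y
          exact (mul_assoc _ _ _).symm
        rw [h6]
        exact box_mem (Ind_mul hP hf ha) hb
      exact h5 hF
    exact h4 hφ
  refine ⟨σ ∘ₗ LinearMap.funLeft k k (fun y : G × G => (y.1, (y.1, y.2))), ?_, ?_, ?_⟩
  · intro φ hφ
    exact h1 _ (hd φ hφ)
  · intro φ hφ g
    rw [LinearMap.comp_apply, LinearMap.comp_apply, ← h2 _ (hd φ hφ)]
    rfl
  · intro s' hs' a ha
    have h4 : LinearMap.funLeft k k (fun y : G × G => (y.1, (y.1, y.2))) (box s' (a ^ p)) =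
        box s' (1 : G → k) * a ^ p := by
      funext y
      simp only [LinearMap.funLeft_apply, box, Pi.mul_apply, Pi.one_apply, Pi.pow_apply, mul_one]
    rw [LinearMap.comp_apply, h4, h3 s' hs' a ha]

end PinData

end Pool.Agent.DM
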