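import Pool.Agent.DM.ULb
import Pool.Agent.DM.Sig

/-!
# DM, module Desc: descent and twist

`M = bx (Ind l) (Ind l')`.

`descent`: `untwist` with `Y' = G × (G × G)`, `M' = bx (Ind z) (bx (Ind (p l)) (Ind (p l')))`,
`σ` from `exists_sigma'`, `m' = box v (m^p)`, `c = h n`; for `s' ∈ Ind z` take `box s' b`:
`lreg(g⁻¹)(box s' b) - s'(g) x(g)^p box v (m^p) = box (lreg(g⁻¹) s' - s'(g) v) (lreg(g⁻¹) b)
  + s'(g) box v (lreg(g⁻¹) b - x(g)^p m^p)`.  Here `lreg(g⁻¹) s' - s'(g) v ∈ low(h z)`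
(`Ind_sub_low`, `(lreg(g⁻¹) s')(1) = s'(g)`), `lreg(g⁻¹) b ∈ low(p h n + 1)` (`m^p` has weight
`p n`), `v ∈ low(h z + 1)`; use `low_box`.  (`(m ^ p ∈ bx (Ind (p l)) (Ind (p l'))`: expand
`m = ∑ box a_i b_i`, `m^p = ∑ box (a_i^p) (b_i^p)`, `Ind_pow`.)

`twist`: `untwist` with `Y' = G × G`, `M' = bx (Ind (z + p l)) (Ind (p l'))`, `σ` from
`exists_sigma`, `m' = (box v 1) m^p`; for `s' ∈ Ind z` apply `hex` to
`y = s' x^p ∈ Ind (p n + z)`.
-/

set_option autoImplicit false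

namespace Pool.Agent.DM

open MvPolynomial

variable {k : Type*} [Field k] [IsAlgClosed k] [Infinite k] {G : Type*} [Group G]
  {T : Type*} [CommGroup T] {X : Type*} [AddCommGroup X] {P : PinData k G T X} {p : ℕ}
  {z l l' n : X} {v vl vl' : G → k} {s : (Fin P.N → ℕ) → G → k}
  {q : (Fin P.N → ℕ) → MvPolynomial (Fin P.N) k}

namespace PinData

omit [Infinite k] in
private theorem desc_pow [Fact p.Prime] [CharP k p] [Infinite k] (hP : P.Ax) {m : G × G → k}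
    (hm : m ∈ bx (P.Ind l) (P.Ind l')) :
    m ^ p ∈ bx (P.Ind (p • l)) (P.Ind (p • l')) := by
  have h1 : m ^ p ∈ fr p (bx (P.Ind l) (P.Ind l')) := Submodule.subset_span ⟨m, hm, rfl⟩
  rw [fr_bx] at h1
  have h2 : ∀ l : X, fr p (P.Ind l) ≤ P.Ind (p • l) := by
    intro l
    refine Submodule.span_le.2 ?_
    rintro _ ⟨f, hf, rfl⟩
    exact Ind_pow hP hf p
  exact bx_mono (h2 l) (h2 l') h1

theorem descent [Fact p.Prime] [CharP k p] (hP : P.Ax) (hst : P.IsSt p z v s q)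
    (hl : P.IsV l vl) (hl' : P.IsV l' vl') {m : G × G → k} (hm : m ∈ bx (P.Ind l) (P.Ind l'))
    (hmw : m ∈ P.wt (lreg k G (G × G)) n) {x : G → k} (hx : x ∈ P.Ind n) {b : G × G → k}
    (hb : b ∈ bx (P.Ind (p • l)) (P.Ind (p • l')))
    (h : ∀ g, lreg k G (G × G) g⁻¹ b - (x g ^ p) • m ^ p ∈
      P.low (lreg k G (G × G)) (p * P.h n)) :
    ∃ a ∈ bx (P.Ind l) (P.Ind l'), ∀ g,
      lreg k G (G × G) g⁻¹ a - x g • m ∈ P.low (lreg k G (G × G)) (P.h n) := by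
  obtain ⟨σ, hσ1, hσ2, hσ3⟩ := exists_sigma' hP hst hl hl'
  have hM := bx_rat hP (Ind_rat hP l) (Ind_rat hP l')
  have hM' := bx_rat hP (Ind_rat hP z) (bx_rat hP (Ind_rat hP (p • l)) (Ind_rat hP (p • l')))
  have hv := hst.isV
  refine untwist hP hst hM hM' σ hσ1 hσ2 hm (m' := box v (m ^ p))
    (box_mem hv.1 (desc_pow hP hm)) (hσ3 v hv.1 m hm) hx (P.h n) ?_
  intro s' hs'
  refine ⟨box s' b, box_mem hs' hb, fun g => ?_⟩
  set S := lreg k G G g⁻¹ s' with hS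
  set B := lreg k G (G × G) g⁻¹ b with hB
  have hS1 : S - s' g • v ∈ P.low (lreg k G G) (P.h z) := by
    have h1 := Ind_sub_low hP (Ind_stable z g⁻¹ _ hs') hv
    have h2 : lreg k G G g⁻¹ s' 1 = s' g := by
      rw [lreg_apply, inv_inv, smul_eq_mul, mul_one]
    rwa [h2] at h1
  have hmp : m ^ p ∈ P.low (lreg k G (G × G)) (p * P.h n + 1) := by
    refine wt_le_low ?_ (wt_pow hP hmw p)
    rw [map_nsmul, nsmul_eq_mul]
    omega
  have hB1 : B - (x g ^ p) • m ^ p ∈ P.low (lreg k G (G × G)) (p * P.h n) := h g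
  have hB2 : B ∈ P.low (lreg k G (G × G)) (p * P.h n + 1) := by
    have e : B = (B - (x g ^ p) • m ^ p) + (x g ^ p) • m ^ p := by abel
    rw [e]
    exact add_mem (low_mono (by omega) hB1) (Submodule.smul_mem _ _ hmp)
  have hv1 : s' g • v ∈ P.low (lreg k G G) (P.h z + 1) :=
    Submodule.smul_mem _ _ (wt_le_low (by omega) (hv.wt hP))
  have e1 : lreg k G (G × (G × G)) g⁻¹ (box s' b) - (s' g * x g ^ p) • box v (m ^ p) =
      box (S - s' g • v) B + box (s' g • v) (B - (x g ^ p) • m ^ p) := by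
    rw [lreg_box, ← hS, ← hB]
    funext y
    simp only [box, Pi.add_apply, Pi.sub_apply, Pi.smul_apply, smul_eq_mul]
    ring
  rw [e1]
  have f1 := low_box hP hS1 hB2
  have f2 := low_box hP hv1 hB1
  refine add_mem (low_mono ?_ f1) (low_mono ?_ f2) <;> omega

theorem twist [Fact p.Prime] [CharP k p] (hP : P.Ax) (hst : P.IsSt p z v s q)
    (hl : P.IsV l vl) (hl' : P.IsV l' vl') {m : G × G → k} (hm : m ∈ bx (P.Ind l) (P.Ind l'))
    {x : G → k} (hx : x ∈ P.Ind n)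
    (hex : ∀ y ∈ P.Ind (p • n + z), ∃ b ∈ bx (P.Ind (z + p • l)) (P.Ind (p • l')), ∀ g,
      lreg k G (G × G) g⁻¹ b - y g • (box v (1 : G → k) * m ^ p) ∈
        P.low (lreg k G (G × G)) (P.h z + p * P.h n)) :
    ∃ a ∈ bx (P.Ind l) (P.Ind l'), ∀ g,
      lreg k G (G × G) g⁻¹ a - x g • m ∈ P.low (lreg k G (G × G)) (P.h n) := by
  obtain ⟨σ, hσ1, hσ2, hσ3⟩ := exists_sigma hP hst hl hl'
  have hM := bx_rat hP (Ind_rat hP l) (Ind_rat hP l')
  have hM' := bx_rat hP (Ind_rat hP (z + p • l)) (Ind_rat hP (p • l'))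
  have hv := hst.isV
  have hm' : box v (1 : G → k) * m ^ p ∈ bx (P.Ind (z + p • l)) (P.Ind (p • l')) := by
    have h1 : bx (P.Ind (p • l)) (P.Ind (p • l')) ≤
        (bx (P.Ind (z + p • l)) (P.Ind (p • l'))).comap
          (LinearMap.mulLeft k (box v (1 : G → k))) := by
      refine bx_induct _ fun a ha b hb => ?_
      have e : box v (1 : G → k) * box a b = box (v * a) b := by
        funext y
        simp only [box, Pi.mul_apply, Pi.one_apply]
        ring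
      rw [Submodule.mem_comap, LinearMap.mulLeft_apply, e]
      exact box_mem (Ind_mul hP hv.1 ha) hb
    exact h1 (desc_pow hP hm)
  refine untwist hP hst hM hM' σ hσ1 hσ2 hm hm' (hσ3 v hv.1 m hm) hx (P.h n) ?_
  intro s' hs'
  obtain ⟨b, hb, h⟩ := hex (x ^ p * s') (Ind_mul hP (Ind_pow hP hx p) hs')
  refine ⟨b, hb, fun g => ?_⟩
  have h1 := h g
  rwa [Pi.mul_apply, Pi.pow_apply, mul_comm (x g ^ p)] at h1

end PinData

end Pool.Agent.DM
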