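import Mathlib

/-!
# DM, module Elim: ordered products of triangular nilpotent operators

Pure linear algebra.  `e 0, …, e (N-1)` are linear operators with `(e j)^p = 0` whose commutators
`[e i, e j]` are linear combinations of operators `e l` with `l > i` and `l > j`.
`mono e A = e 0 ^ A 0 * e 1 ^ A 1 * ⋯` (the last factor is applied first).

## Proof of `pbw` (straightening)
Let `W_j` be the span of the vectors `e_j^(A_j) ⋯ e_(N-1)^(A_(N-1)) x`.  Claim: `e_l W_j ⊆ W_j` for
`l ≥ j`; downward induction on `j`.  `e_j W_j ⊆ W_j` is clear (`e_j^p = 0`).  For `l > j`, `w` in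
`W_(j+1)` show `e_l e_j^a w ∈ W_j` for all `l > j` by induction on `a`: `a = 0` by induction on `j`,
`e_l e_j^(a+1) w = e_j (e_l e_j^a w) + ∑_(m>l) c_m e_m e_j^a w`.

## Proof of `elim` (elimination)
(K) For `j` let `w_j = e_(j+1)^(p-1) ⋯ e_(N-1)^(p-1)`.  For every `l > j` and every word `E` in the
operators, `e_l E w_j = 0`.  First `e_l w_j = 0` for `l > j`, downward induction on `j`:
`w_j = e_(j+1)^(p-1) w_(j+1)`; `l = j+1`: `e_(j+1)^p = 0`; `l > j+1`: by induction on `r`,
`e_l e_(j+1)^r w_(j+1) = 0` for all `l > j+1`: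
`e_l e_(j+1)^(r+1) w = e_(j+1) e_l e_(j+1)^r w + ∑_(m>l) c_m e_m e_(j+1)^r w`.  Then induction on
the length of `E`: `e_l e_i E w_j = e_i e_l E w_j + ∑_(m > l) c_m e_m E w_j`.
(M) If `A_l = p-1` for all `l > j` then `e_j (mono A y) = mono (A + δ_j) y` when `A_j + 1 < p`,
and `= 0` when `A_j = p-1`: move `e_j` past `e_0^(A_0) ⋯ e_(j-1)^(A_(j-1))`, the commutators only
contain `e_l` with `l > j` and vanish by (K).
(C) Claim(j), for `j = 0, …, N`: if `y A = 0` unless `A_l = p-1` for all `l ≥ j`, and
`∑ mono A (y A) = 0`, then `y = 0`.  Claim(0) is the hypothesis on `K`.  Claim(j) ⇒ Claim(j+1):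
show `y A = 0` for `A_j = a` by strong induction on `a`: apply `e_j^(p-1-a)`; by (M) the terms
with `A_j > a` vanish, those with `A_j < a` are zero by induction, and the rest is
`∑_(A_j = a) mono (A with A_j := p-1) (y A) = 0`, so Claim(j) applies.  `elim` is Claim(N).

## Proof of `elim_top`
`x = ∑ mono A (y A)` and `e_j x = 0` for all `j`.  Show by downward induction on `j` that `y A = 0`
unless `A_l = p-1` for all `l ≥ j`: given it for `j+1`, (M) gives
`0 = e_j x = ∑_(A_j < p-1) mono (A + δ_j) (y A)` and `elim` gives `y A = 0` for `A_j < p-1`.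
-/

set_option autoImplicit false

namespace Pool.Agent.DM

open Finset

variable {k : Type*} [Field k] {M : Type*} [AddCommGroup M] [Module k M] {N : ℕ}

/-- the ordered product `e 0 ^ A 0 * e 1 ^ A 1 * ⋯ * e (N-1) ^ A (N-1)` -/
def mono (e : Fin N → Module.End k M) (A : Fin N → ℕ) : Module.End k M :=
  (List.ofFn fun j => e j ^ A j).prod

/-- exponents less than `p` -/
def Ap (N p : ℕ) : Finset (Fin N → ℕ) := Fintype.piFinset fun _ => range p

/-- triangular nilpotent families of operators -/
structure Tri (p : ℕ) (e : Fin N → Module.End k M) : Prop where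
  nil : ∀ j, e j ^ p = 0
  comm : ∀ i j, ∃ c : Fin N → k, (∀ l, c l ≠ 0 → i < l ∧ j < l) ∧
    e i * e j - e j * e i = ∑ l, c l • e l

theorem mono_zero_apply (e : Fin 0 → Module.End k M) (A : Fin 0 → ℕ) (x : M) :
    mono e A x = x := by
  rw [mono, List.ofFn_zero, List.prod_nil, Module.End.one_apply]

theorem mono_head (e : Fin (N + 1) → Module.End k M) (A : Fin (N + 1) → ℕ) :
    mono e A = e 0 ^ A 0 * mono (fun j => e j.succ) (fun j => A j.succ) := by
  rw [mono, List.ofFn_succ, List.prod_cons]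
  rfl

theorem mono_last (e : Fin (N + 1) → Module.End k M) (A : Fin (N + 1) → ℕ) :
    mono e A = mono (fun j => e j.castSucc) (fun j => A j.castSucc) *
      e (Fin.last N) ^ A (Fin.last N) := by
  rw [mono, List.ofFn_succ', List.concat_eq_append, List.prod_append, List.prod_singleton]
  rfl

theorem mono_eq_zero {p : ℕ} {e : Fin N → Module.End k M} (h : ∀ j, e j ^ p = 0)
    {A : Fin N → ℕ} {j : Fin N} (hj : p ≤ A j) : mono e A = 0 := by
  have h1 : e j ^ A j = 0 := by
    rw [← Nat.sub_add_cancel hj, pow_add, h, mul_zero]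
  rw [mono]
  apply List.prod_eq_zero
  rw [List.mem_ofFn]
  exact ⟨j, h1⟩

/-- the span of all ordered monomials applied to `x` -/
def Full (e : Fin N → Module.End k M) (x : M) : Submodule k M :=
  Submodule.span k (Set.range fun A => mono e A x)

theorem full_pow (e : Fin (N + 1) → Module.End k M) (x : M) (b : ℕ) {w : M}
    (hw : w ∈ Full (fun j => e j.succ) x) : (e 0 ^ b) w ∈ Full e x := by
  refine Submodule.span_induction ?_ ?_ ?_ ?_ hw
  · rintro _ ⟨A, rfl⟩
    apply Submodule.subset_span
    refine ⟨Fin.cons b A, ?_⟩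
    simp only
    rw [mono_head, Fin.cons_zero]
    rfl
  · rw [map_zero]
    exact zero_mem _
  · intro x y _ _ h1 h2
    rw [map_add]
    exact add_mem h1 h2
  · intro a x _ h
    rw [map_smul]
    exact Submodule.smul_mem _ _ h

theorem full_e0 (e : Fin (N + 1) → Module.End k M) (x : M) {w : M}
    (hw : w ∈ Full e x) : e 0 w ∈ Full e x := by
  refine Submodule.span_induction ?_ ?_ ?_ ?_ hw
  · rintro _ ⟨A, rfl⟩
    apply Submodule.subset_span
    refine ⟨Fin.cons (A 0 + 1) fun j => A j.succ, ?_⟩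
    simp only
    rw [mono_head, mono_head, Fin.cons_zero, pow_succ']
    rfl
  · rw [map_zero]
    exact zero_mem _
  · intro x y _ _ h1 h2
    rw [map_add]
    exact add_mem h1 h2
  · intro a x _ h
    rw [map_smul]
    exact Submodule.smul_mem _ _ h

theorem full_stable {N : ℕ} {e : Fin N → Module.End k M}
    (hc : ∀ i j, ∃ c : Fin N → k, (∀ l, c l ≠ 0 → i < l ∧ j < l) ∧
      e i * e j - e j * e i = ∑ l, c l • e l) (x : M) (j : Fin N) {y : M} (hy : y ∈ Full e x) :
    e j y ∈ Full e x := by
  induction N generalizing y with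
  | zero => exact j.elim0
  | succ N ih =>
    have hc' : ∀ i j, ∃ c : Fin N → k, (∀ l, c l ≠ 0 → i < l ∧ j < l) ∧
        e i.succ * e j.succ - e j.succ * e i.succ = ∑ l, c l • e l.succ := by
      intro i j
      obtain ⟨c, h1, h2⟩ := hc i.succ j.succ
      refine ⟨fun l => c l.succ, fun l hl => ?_, ?_⟩
      · obtain ⟨h3, h4⟩ := h1 l.succ hl
        exact ⟨Fin.succ_lt_succ_iff.1 h3, Fin.succ_lt_succ_iff.1 h4⟩
      · rw [h2, Fin.sum_univ_succ]
        have h3 : c 0 = 0 := by
          by_contra h4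
          exact absurd (h1 0 h4).1 (Fin.not_lt_zero _)
        rw [h3, zero_smul, zero_add]
    have key : ∀ b : ℕ, ∀ w ∈ Full (fun j => e j.succ) x, ∀ j : Fin N,
        e j.succ ((e 0 ^ b) w) ∈ Full e x := by
      intro b
      induction b with
      | zero =>
        intro w hw j
        rw [pow_zero, Module.End.one_apply]
        have h1 := ih (e := fun j => e j.succ) hc' j hw
        have h2 := full_pow e x 0 h1
        rwa [pow_zero, Module.End.one_apply] at h2
      | succ b ihb =>
        intro w hw j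
        obtain ⟨c, h1, h2⟩ := hc j.succ 0
        have h3 : e j.succ ((e 0 ^ (b + 1)) w) = e 0 (e j.succ ((e 0 ^ b) w)) +
            ∑ l, c l • e l ((e 0 ^ b) w) := by
          have h4 := congrArg (fun f : Module.End k M => f ((e 0 ^ b) w)) h2
          simp only [LinearMap.sub_apply, Module.End.mul_apply, LinearMap.sum_apply,
            LinearMap.smul_apply] at h4
          rw [← h4, pow_succ', Module.End.mul_apply]
          abel
        rw [h3]
        refine add_mem (full_e0 e x (ihb w hw j)) (sum_mem fun l _ => ?_)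
        by_cases hl : c l = 0
        · rw [hl, zero_smul]
          exact zero_mem _
        · have hl0 : l ≠ 0 := by
            rintro rfl
            exact absurd (h1 0 hl).1 (Fin.not_lt_zero _)
          obtain ⟨l', rfl⟩ := Fin.exists_succ_eq.2 hl0
          exact Submodule.smul_mem _ _ (ihb w hw l')
    refine Fin.cases (full_e0 e x hy) (fun j => ?_) j
    refine Submodule.span_induction ?_ ?_ ?_ ?_ hy
    · rintro _ ⟨A, rfl⟩
      simp only
      rw [mono_head, Module.End.mul_apply]
      exact key _ _ (Submodule.subset_span ⟨_, rfl⟩) j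
    · rw [map_zero]
      exact zero_mem _
    · intro x y _ _ h1 h2
      rw [map_add]
      exact add_mem h1 h2
    · intro a x _ h
      rw [map_smul]
      exact Submodule.smul_mem _ _ h

theorem full_eq {p : ℕ} {e : Fin N → Module.End k M} (h : ∀ j, e j ^ p = 0) (x : M) :
    Full e x = Submodule.span k ((fun A => mono e A x) '' (Ap N p : Set (Fin N → ℕ))) := by
  apply le_antisymm
  · rw [Full, Submodule.span_le]
    rintro _ ⟨A, rfl⟩
    by_cases hA : A ∈ Ap N p
    · exact Submodule.subset_span ⟨A, hA, rfl⟩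
    · rw [Ap, Fintype.mem_piFinset] at hA
      push Not at hA
      obtain ⟨j, hj⟩ := hA
      rw [mem_range, not_lt] at hj
      simp only [SetLike.mem_coe]
      rw [mono_eq_zero h hj, LinearMap.zero_apply]
      exact zero_mem _
  · apply Submodule.span_mono
    rintro _ ⟨A, _, rfl⟩
    exact ⟨A, rfl⟩

/-- Straightening: the span of the ordered monomials with exponents `< p` applied to `x` is stable
under all the operators. -/
theorem pbw {p : ℕ} (hp : 0 < p) {e : Fin N → Module.End k M} (h : Tri p e) (x : M) (j : Fin N)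
    {y : M} (hy : y ∈ Submodule.span k ((fun A => mono e A x) '' (Ap N p : Set (Fin N → ℕ)))) :
    e j y ∈ Submodule.span k ((fun A => mono e A x) '' (Ap N p : Set (Fin N → ℕ))) := by
  rw [← full_eq h.nil] at hy ⊢
  exact full_stable h.comm x j hy

/-- triangular nilpotent families of operators on a stable subspace -/
structure TriOn (p : ℕ) (M₁ : Submodule k M) (e : Fin N → Module.End k M) : Prop where
  stable : ∀ j, ∀ x ∈ M₁, e j x ∈ M₁
  nil : ∀ j, ∀ x ∈ M₁, (e j ^ p) x = 0
  comm : ∀ i j, ∃ c : Fin N → k, (∀ l, c l ≠ 0 → i < l ∧ j < l) ∧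
    ∀ x ∈ M₁, e i (e j x) - e j (e i x) = ∑ l, c l • e l x

theorem Tri.on {p : ℕ} {e : Fin N → Module.End k M} (h : Tri p e) : TriOn p ⊤ e where
  stable _ _ _ := Submodule.mem_top
  nil j x _ := by rw [h.nil, LinearMap.zero_apply]
  comm i j := by
    obtain ⟨c, h1, h2⟩ := h.comm i j
    refine ⟨c, h1, fun x _ => ?_⟩
    have h3 := congrArg (fun f : Module.End k M => f x) h2
    simpa only [LinearMap.sub_apply, Module.End.mul_apply, LinearMap.sum_apply,
      LinearMap.smul_apply] using h3

/-- operators which preserve `M₁` and commute with `g` on it -/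
def Cent (M₁ : Submodule k M) (g : Module.End k M) : Submonoid (Module.End k M) where
  carrier := {f | (∀ x ∈ M₁, f x ∈ M₁) ∧ ∀ x ∈ M₁, g (f x) = f (g x)}
  mul_mem' := by
    rintro f f' ⟨h1, h2⟩ ⟨h3, h4⟩
    refine ⟨fun x hx => h1 _ (h3 x hx), fun x hx => ?_⟩
    rw [Module.End.mul_apply, Module.End.mul_apply, h2 _ (h3 x hx), h4 x hx]
  one_mem' := ⟨fun x hx => hx, fun x _ => rfl⟩

theorem mono_mem_cent {M₁ : Submodule k M} {g : Module.End k M} {e : Fin N → Module.End k M}
    (h : ∀ j, e j ∈ Cent M₁ g) (A : Fin N → ℕ) : mono e A ∈ Cent M₁ g := by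
  rw [mono]
  apply Submonoid.list_prod_mem
  intro f hf
  rw [List.mem_ofFn] at hf
  obtain ⟨j, rfl⟩ := hf
  exact pow_mem (h j) _

theorem TriOn.last_comm {p : ℕ} {M₁ : Submodule k M} {e : Fin (N + 1) → Module.End k M}
    (h : TriOn p M₁ e) (i : Fin (N + 1)) : ∀ x ∈ M₁, e (Fin.last N) (e i x) =
      e i (e (Fin.last N) x) := by
  intro x hx
  obtain ⟨c, h1, h2⟩ := h.comm (Fin.last N) i
  rw [← sub_eq_zero, h2 x hx]
  apply Finset.sum_eq_zero
  intro l _
  have h3 : c l = 0 := by
    by_contra h4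
    exact absurd (h1 l h4).1 (Fin.le_last l).not_gt
  rw [h3, zero_smul]

theorem TriOn.last_pow_mem {p : ℕ} {M₁ : Submodule k M} {e : Fin (N + 1) → Module.End k M}
    (h : TriOn p M₁ e) (m : ℕ) : ∀ x ∈ M₁, (e (Fin.last N) ^ m) x ∈ M₁ := by
  induction m with
  | zero => intro x hx; exact hx
  | succ m ih =>
    intro x hx
    rw [pow_succ', Module.End.mul_apply]
    exact h.stable _ _ (ih x hx)

theorem TriOn.cent {p : ℕ} {M₁ : Submodule k M} {e : Fin (N + 1) → Module.End k M}
    (h : TriOn p M₁ e) (m : ℕ) (i : Fin (N + 1)) : e i ∈ Cent M₁ (e (Fin.last N) ^ m) := by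
  refine ⟨h.stable i, ?_⟩
  induction m with
  | zero => intro x _; rfl
  | succ m ih =>
    intro x hx
    rw [pow_succ', Module.End.mul_apply, Module.End.mul_apply, ih x hx,
      h.last_comm i _ (h.last_pow_mem m x hx)]

theorem TriOn.mono_comm {p : ℕ} {M₁ : Submodule k M} {e : Fin (N + 1) → Module.End k M}
    (h : TriOn p M₁ e) (m : ℕ) (A : Fin N → ℕ) {x : M} (hx : x ∈ M₁) :
    (e (Fin.last N) ^ m) (mono (fun j => e j.castSucc) A x) =
      mono (fun j => e j.castSucc) A ((e (Fin.last N) ^ m) x) :=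
  (mono_mem_cent (fun j => h.cent m j.castSucc) A).2 x hx

theorem TriOn.nil' {p : ℕ} {M₁ : Submodule k M} {e : Fin (N + 1) → Module.End k M}
    (h : TriOn p M₁ e) {m : ℕ} (hm : p ≤ m) {x : M} (hx : x ∈ M₁) :
    (e (Fin.last N) ^ m) x = 0 := by
  rw [← Nat.sub_add_cancel hm, pow_add, Module.End.mul_apply, h.nil _ x hx, map_zero]

theorem TriOn.init {p : ℕ} (hp : 0 < p) {M₁ : Submodule k M} {e : Fin (N + 1) → Module.End k M}
    (h : TriOn p M₁ e) :
    TriOn p (M₁.map (e (Fin.last N) ^ (p - 1))) (fun j => e (Fin.castSucc j)) where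
  stable j := by
    rintro _ ⟨x, hx, rfl⟩
    refine ⟨e j.castSucc x, h.stable _ x hx, ?_⟩
    exact (h.cent (p - 1) j.castSucc).2 x hx
  nil j := by
    rintro _ ⟨x, hx, rfl⟩
    exact h.nil _ _ (h.last_pow_mem _ x hx)
  comm i j := by
    obtain ⟨c, h1, h2⟩ := h.comm i.castSucc j.castSucc
    refine ⟨fun l => c l.castSucc, fun l hl => ?_, ?_⟩
    · obtain ⟨h3, h4⟩ := h1 _ hl
      exact ⟨Fin.castSucc_lt_castSucc_iff.1 h3, Fin.castSucc_lt_castSucc_iff.1 h4⟩
    · rintro _ ⟨x, hx, rfl⟩
      rw [h2 _ (h.last_pow_mem _ x hx), Fin.sum_univ_castSucc, ← Module.End.mul_apply]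
      have h5 : (e (Fin.last N) * e (Fin.last N) ^ (p - 1)) x = 0 := by
        rw [← pow_succ']
        exact h.nil' (by omega) hx
      rw [h5, smul_zero, add_zero]

theorem sum_Ap_succ {p : ℕ} {M : Type*} [AddCommMonoid M] (F : (Fin (N + 1) → ℕ) → M) :
    ∑ A ∈ Ap (N + 1) p, F A = ∑ a ∈ range p, ∑ B ∈ Ap N p,
      F (Fin.snoc (α := fun _ => ℕ) B a) := by
  rw [← Finset.sum_product' (range p) (Ap N p) fun a B => F (Fin.snoc (α := fun _ => ℕ) B a)]
  refine Finset.sum_bij' (fun A _ => (A (Fin.last N), Fin.init (α := fun _ => ℕ) A))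
    (fun q _ => Fin.snoc (α := fun _ => ℕ) q.2 q.1) ?_ ?_ ?_ ?_ ?_
  · intro A hA
    rw [Ap, Fintype.mem_piFinset] at hA
    rw [mem_product, Ap, Fintype.mem_piFinset]
    exact ⟨hA _, fun j => hA _⟩
  · rintro ⟨a, B⟩ hq
    rw [mem_product, Ap, Fintype.mem_piFinset] at hq
    rw [Ap, Fintype.mem_piFinset]
    intro j
    refine Fin.lastCases ?_ (fun j => ?_) j
    · rw [Fin.snoc_last]
      exact hq.1
    · rw [Fin.snoc_castSucc]
      exact hq.2 j
  · intro A _
    exact Fin.snoc_init_self A
  · rintro ⟨a, B⟩ _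
    simp
  · intro A _
    simp

theorem snoc_mem {p a : ℕ} (ha : a < p) {B : Fin N → ℕ} (hB : B ∈ Ap N p) :
    Fin.snoc (α := fun _ => ℕ) B a ∈ Ap (N + 1) p := by
  rw [Ap, Fintype.mem_piFinset] at hB ⊢
  intro j
  refine Fin.lastCases ?_ (fun j => ?_) j
  · rw [Fin.snoc_last]
    exact mem_range.2 ha
  · rw [Fin.snoc_castSucc]
    exact hB j

theorem mono_snoc (e : Fin (N + 1) → Module.End k M) (B : Fin N → ℕ) (a : ℕ) (x : M) :
    mono e (Fin.snoc (α := fun _ => ℕ) B a) x =
      mono (fun j => e j.castSucc) B ((e (Fin.last N) ^ a) x) := by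
  rw [mono_last, Module.End.mul_apply, Fin.snoc_last]
  congr 2
  funext j
  rw [Fin.snoc_castSucc]

theorem top_last (e : Fin (N + 1) → Module.End k M) (p : ℕ) (x : M) :
    mono e (fun _ => p - 1) x =
      mono (fun j => e j.castSucc) (fun _ => p - 1) ((e (Fin.last N) ^ (p - 1)) x) := by
  rw [mono_last, Module.End.mul_apply]

theorem elimOn {N : ℕ} {p : ℕ} (hp : 0 < p) (M₁ : Submodule k M) {e : Fin N → Module.End k M}
    (h : TriOn p M₁ e) (K : AddSubgroup M) (hKM : ∀ y ∈ K, y ∈ M₁)
    (hK : ∀ y ∈ K, mono e (fun _ => p - 1) y = 0 → y = 0) (y : (Fin N → ℕ) → M)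
    (hy : ∀ A ∈ Ap N p, y A ∈ K) (h0 : ∑ A ∈ Ap N p, mono e A (y A) = 0) :
    ∀ A ∈ Ap N p, y A = 0 := by
  induction N generalizing M₁ K with
  | zero =>
    intro A hA
    have h1 : Ap 0 p = {A} := by
      ext B
      rw [mem_singleton]
      exact ⟨fun _ => Subsingleton.elim _ _, fun hB => by rw [hB]; exact hA⟩
    rw [h1, sum_singleton, mono_zero_apply] at h0
    exact h0
  | succ N ih =>
    rw [sum_Ap_succ] at h0
    have key : ∀ a < p, ∀ B ∈ Ap N p, y (Fin.snoc (α := fun _ => ℕ) B a) = 0 := by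
      intro a
      induction a using Nat.strong_induction_on with
      | _ a iha =>
        intro ha
        have h1 : ∑ B ∈ Ap N p, mono (fun j => e j.castSucc) B
            ((e (Fin.last N) ^ (p - 1)) (y (Fin.snoc (α := fun _ => ℕ) B a))) = 0 := by
          have h2 := congrArg (fun x => (e (Fin.last N) ^ (p - 1 - a)) x) h0
          simp only [map_sum, map_zero] at h2
          rw [Finset.sum_eq_single a] at h2
          · rw [← h2]
            refine Finset.sum_congr rfl fun B hB => ?_
            rw [mono_snoc, h.mono_comm _ _ (h.last_pow_mem _ _ (hKM _ (hy _ (snoc_mem ha hB)))),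
              ← Module.End.mul_apply (e (Fin.last N) ^ (p - 1 - a)), ← pow_add,
              Nat.sub_add_cancel (by omega)]
          · intro b hb hba
            rw [mem_range] at hb
            refine Finset.sum_eq_zero fun B hB => ?_
            rcases lt_or_gt_of_ne hba with hlt | hgt
            · rw [iha b hlt hb B hB, map_zero, map_zero]
            · rw [mono_snoc, h.mono_comm _ _ (h.last_pow_mem _ _ (hKM _ (hy _ (snoc_mem hb hB)))),
                ← Module.End.mul_apply (e (Fin.last N) ^ (p - 1 - a)), ← pow_add,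
                h.nil' (by omega) (hKM _ (hy _ (snoc_mem hb hB))), map_zero]
          · intro hc
            exact absurd (mem_range.2 ha) hc
        have h2 := ih (M₁.map (e (Fin.last N) ^ (p - 1))) (h.init hp)
          (K.map ((e (Fin.last N) ^ (p - 1) : Module.End k M) : M →+ M))
          (by
            rintro _ ⟨x, hx, rfl⟩
            exact ⟨x, hKM x hx, rfl⟩)
          (by
            rintro _ ⟨x, hx, rfl⟩ hz
            have h3 : mono e (fun _ => p - 1) x = 0 := by
              rw [top_last]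
              exact hz
            rw [hK x hx h3, map_zero])
          (fun B => (e (Fin.last N) ^ (p - 1)) (y (Fin.snoc (α := fun _ => ℕ) B a)))
          (fun B hB => ⟨_, hy _ (snoc_mem ha hB), rfl⟩) h1
        intro B hB
        apply hK _ (hy _ (snoc_mem ha hB))
        rw [top_last, h2 B hB, map_zero]
    intro A hA
    rw [Ap, Fintype.mem_piFinset] at hA
    rw [← Fin.snoc_init_self (α := fun _ => ℕ) A]
    apply key _ (mem_range.1 (hA _))
    rw [Ap, Fintype.mem_piFinset]
    exact fun j => hA _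

theorem elimTopOn {N : ℕ} {p : ℕ} (hp : 0 < p) (M₁ : Submodule k M) {e : Fin N → Module.End k M}
    (h : TriOn p M₁ e) (K : AddSubgroup M) (hKM : ∀ y ∈ K, y ∈ M₁)
    (hK : ∀ y ∈ K, mono e (fun _ => p - 1) y = 0 → y = 0) (y : (Fin N → ℕ) → M)
    (hy : ∀ A ∈ Ap N p, y A ∈ K) (h0 : ∀ j, e j (∑ A ∈ Ap N p, mono e A (y A)) = 0) :
    ∀ A ∈ Ap N p, A ≠ (fun _ => p - 1) → y A = 0 := by
  induction N generalizing M₁ K with
  | zero =>
    intro A _ hA
    exact absurd (Subsingleton.elim _ _) hA
  | succ N ih =>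
    obtain ⟨q, rfl⟩ : ∃ q, p = q + 1 := ⟨p - 1, by omega⟩
    rw [sum_Ap_succ] at h0
    rw [Nat.add_sub_cancel] at hK ⊢
    -- step 1: the last operator
    have s1 : ∀ a < q, ∀ B ∈ Ap N (q + 1), y (Fin.snoc (α := fun _ => ℕ) B a) = 0 := by
      have h1 : ∑ a ∈ range q, ∑ B ∈ Ap N (q + 1), mono (fun j => e j.castSucc) B
          ((e (Fin.last N) ^ (a + 1)) (y (Fin.snoc (α := fun _ => ℕ) B a))) = 0 := by
        have h2 := h0 (Fin.last N)
        rw [map_sum, Finset.sum_range_succ] at h2
        have h3 : ∀ a ∈ range (q + 1), e (Fin.last N) (∑ B ∈ Ap N (q + 1),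
            mono e (Fin.snoc (α := fun _ => ℕ) B a) (y (Fin.snoc (α := fun _ => ℕ) B a))) =
            ∑ B ∈ Ap N (q + 1), mono (fun j => e j.castSucc) B
              ((e (Fin.last N) ^ (a + 1)) (y (Fin.snoc (α := fun _ => ℕ) B a))) := by
          intro a ha
          rw [mem_range] at ha
          rw [map_sum]
          refine Finset.sum_congr rfl fun B hB => ?_
          have h4 := h.mono_comm 1 B
            (h.last_pow_mem a _ (hKM _ (hy _ (snoc_mem ha hB))))
          rw [pow_one] at h4
          rw [mono_snoc, h4, ← Module.End.mul_apply (e (Fin.last N)), ← pow_succ']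
        rw [h3 q (mem_range.2 (Nat.lt_succ_self q)), Finset.sum_congr rfl fun a ha =>
          h3 a (mem_range.2 (by have := mem_range.1 ha; omega))] at h2
        rw [Finset.sum_eq_zero (s := Ap N (q + 1)) (fun B hB => by
          rw [h.nil' le_rfl (hKM _ (hy _ (snoc_mem (Nat.lt_succ_self q) hB))), map_zero]),
          add_zero] at h2
        exact h2
      have h2 := elimOn hp M₁ h K hKM (by rw [Nat.add_sub_cancel]; exact hK)
        (fun A => if A (Fin.last N) = 0 then 0 else
          y (Fin.snoc (α := fun _ => ℕ) (Fin.init (α := fun _ => ℕ) A) (A (Fin.last N) - 1)))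
        (by
          intro A hA
          split_ifs with h4
          · exact zero_mem _
          · rw [Ap, Fintype.mem_piFinset] at hA
            have h5 := mem_range.1 (hA (Fin.last N))
            apply hy
            apply snoc_mem (by omega)
            rw [Ap, Fintype.mem_piFinset]
            exact fun j => hA _)
        (by
          rw [sum_Ap_succ, Finset.sum_range_succ']
          have h4 : ∑ B ∈ Ap N (q + 1), mono e (Fin.snoc (α := fun _ => ℕ) B 0)
              (if (Fin.snoc (α := fun _ => ℕ) B 0 : Fin (N + 1) → ℕ) (Fin.last N) = 0 then 0 else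
                y (Fin.snoc (α := fun _ => ℕ) (Fin.init (α := fun _ => ℕ)
                  (Fin.snoc (α := fun _ => ℕ) B 0))
                  ((Fin.snoc (α := fun _ => ℕ) B 0 : Fin (N + 1) → ℕ) (Fin.last N) - 1))) = 0 := by
            refine Finset.sum_eq_zero fun B _ => ?_
            rw [if_pos (Fin.snoc_last _ _), map_zero]
          rw [h4, add_zero, ← h1]
          refine Finset.sum_congr rfl fun a _ => Finset.sum_congr rfl fun B _ => ?_
          rw [mono_snoc, Fin.snoc_last, if_neg (Nat.succ_ne_zero a), Nat.add_sub_cancel,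
            Fin.init_snoc])
      intro a ha B hB
      have h3 := h2 (Fin.snoc (α := fun _ => ℕ) B (a + 1)) (snoc_mem (by omega) hB)
      rwa [Fin.snoc_last, if_neg (Nat.succ_ne_zero a), Nat.add_sub_cancel, Fin.init_snoc] at h3
    -- step 2: the other operators
    have e1 : ∑ a ∈ range (q + 1), ∑ B ∈ Ap N (q + 1), mono e (Fin.snoc (α := fun _ => ℕ) B a)
        (y (Fin.snoc (α := fun _ => ℕ) B a)) = ∑ B ∈ Ap N (q + 1),
        mono (fun j => e j.castSucc) B
          ((e (Fin.last N) ^ q) (y (Fin.snoc (α := fun _ => ℕ) B q))) := by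
      rw [Finset.sum_range_succ, Finset.sum_eq_zero (s := range q), zero_add]
      · exact Finset.sum_congr rfl fun B _ => mono_snoc _ _ _ _
      · intro a ha
        refine Finset.sum_eq_zero fun B hB => ?_
        rw [s1 a (mem_range.1 ha) B hB, map_zero]
    rw [e1] at h0
    have hi := h.init hp
    rw [Nat.add_sub_cancel] at hi
    have s2 := ih (M₁.map (e (Fin.last N) ^ q)) hi
      (K.map ((e (Fin.last N) ^ q : Module.End k M) : M →+ M))
      (by
        rintro _ ⟨x, hx, rfl⟩
        exact ⟨x, hKM x hx, rfl⟩)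
      (by
        rintro _ ⟨x, hx, rfl⟩ hz
        have h3 : mono e (fun _ => q) x = 0 := by
          have h4 := top_last e (q + 1) x
          rw [Nat.add_sub_cancel] at h4 hz
          rw [h4]
          exact hz
        rw [hK x hx h3, map_zero])
      (fun B => (e (Fin.last N) ^ q) (y (Fin.snoc (α := fun _ => ℕ) B q)))
      (fun B hB => ⟨_, hy _ (snoc_mem (Nat.lt_succ_self q) hB), rfl⟩)
      (fun j => h0 j.castSucc)
    rw [Nat.add_sub_cancel] at s2
    intro A hA hne
    rw [Ap, Fintype.mem_piFinset] at hA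
    have hAi : Fin.init (α := fun _ => ℕ) A ∈ Ap N (q + 1) := by
      rw [Ap, Fintype.mem_piFinset]
      exact fun j => hA _
    rw [← Fin.snoc_init_self (α := fun _ => ℕ) A]
    by_cases hlt : A (Fin.last N) < q
    · exact s1 _ hlt _ hAi
    · have heq : A (Fin.last N) = q := by
        have := mem_range.1 (hA (Fin.last N))
        omega
      rw [heq]
      have hne' : Fin.init (α := fun _ => ℕ) A ≠ fun _ => q := by
        intro hc
        apply hne
        rw [← Fin.snoc_init_self (α := fun _ => ℕ) A, hc, heq]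
        funext j
        refine Fin.lastCases ?_ (fun j => ?_) j
        · rw [Fin.snoc_last]
        · rw [Fin.snoc_castSucc]
      have h3 := s2 _ hAi hne'
      apply hK _ (hy _ (snoc_mem (Nat.lt_succ_self q) hAi))
      have h4 := top_last e (q + 1) (y (Fin.snoc (α := fun _ => ℕ)
        (Fin.init (α := fun _ => ℕ) A) q))
      rw [Nat.add_sub_cancel] at h4
      rw [h4, h3, map_zero]

/-- Elimination. -/
theorem elim {p : ℕ} (hp : 0 < p) {e : Fin N → Module.End k M} (h : Tri p e) (K : AddSubgroup M)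
    (hK : ∀ y ∈ K, mono e (fun _ => p - 1) y = 0 → y = 0) (y : (Fin N → ℕ) → M)
    (hy : ∀ A ∈ Ap N p, y A ∈ K) (h0 : ∑ A ∈ Ap N p, mono e A (y A) = 0) :
    ∀ A ∈ Ap N p, y A = 0 :=
  elimOn hp ⊤ h.on K (fun _ _ => Submodule.mem_top) hK y hy h0

/-- Vectors killed by all operators. -/
theorem elim_top {p : ℕ} (hp : 0 < p) {e : Fin N → Module.End k M} (h : Tri p e)
    (K : AddSubgroup M) (hK : ∀ y ∈ K, mono e (fun _ => p - 1) y = 0 → y = 0)
    (y : (Fin N → ℕ) → M) (hy : ∀ A ∈ Ap N p, y A ∈ K)
    (h0 : ∀ j, e j (∑ A ∈ Ap N p, mono e A (y A)) = 0) :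
    ∀ A ∈ Ap N p, A ≠ (fun _ => p - 1) → y A = 0 :=
  elimTopOn hp ⊤ h.on K (fun _ _ => Submodule.mem_top) hK y hy h0

end Pool.Agent.DM
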