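import Pool.Agent.DM.Nbhd
import Pool.Agent.DM.Trans

/-!
# DM, module Eps: the Steinberg part of an element of `Ind(z + p l)` near `1`

`hst : P.IsSt p z v s q`; `vl` is the highest weight vector of `Ind l`.  For `f ∈ Ind(z + p l)` write
the restriction to `U` as `∑_A g_A^p q_A` (`hst.basis`) and put `ε f = ∑_A g_A(0)^p s_A ∈ Ind z`
(`ε f = 0` for `f` outside `Ind(z + p l)`).
(U) `ε f` is the unique `s' ∈ Ind z` such that the restriction of `f - s' vl^p` to `U` lies in `Mp`: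
  `(f - ε f vl^p)|_U = ∑ (g_A^p - g_A(0)^p) q_A ∈ Mp` (`pow_sub_mem_Mp`); and if `s' ∈ Ind z` has
  restriction in `Mp` then `s' = 0`: `s' = ∑ a_A s_A` (`hst.span`), `a_A = b_A^p`,
  `∑ a_A q_A = ∑_j x_j^p r_j`, `r_j = ∑_A r_(j,A)^p q_A`, so by `hst.indep`
  `b_A = ∑_j x_j r_(j,A)`, evaluate at `0`: `b_A = 0`.
(2) `b = tor t * v b'`: `H = f - ε f vl^p ∈ Ind(z + p l)` has `H|_U ∈ Mp`, so by `nbhd` the
  restriction of `lreg(b⁻¹) H` lies in `Mp`; it is
  `lreg(b⁻¹) f - (lreg(b⁻¹) ε f) (lreg(b⁻¹) vl)^p`, and `vl(b u(c))^p ≡ vl(b)^p = (ch l t)^(-p)`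
  modulo `Mp`.  So by (U) `ε(lreg(b⁻¹) f) = (ch l t)^(-p) lreg(b⁻¹) (ε f)`.
(3) if `f|_U = ∑ g_A^p q_A`, then `lreg((u c)⁻¹) f` restricts to
  `∑ (ltr c g_A)^p ltr c q_A` and `lreg((u c)⁻¹) s_A` to `ltr c q_A`; `(ltr c g_A)(0) = g_A(c)`, so
  `(ltr c g_A)^p - g_A(c)^p ∈ Mp` and (U) gives the formula.
-/

set_option autoImplicit false

namespace Pool.Agent.DM

open MvPolynomial

variable {k : Type*} [Field k] [IsAlgClosed k] [Infinite k] {G : Type*} [Group G]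
  {T : Type*} [CommGroup T] {X : Type*} [AddCommGroup X] {P : PinData k G T X} {p : ℕ} {z l : X}
  {v vl : G → k} {s : (Fin P.N → ℕ) → G → k}
  {q : (Fin P.N → ℕ) → MvPolynomial (Fin P.N) k}

namespace PinData

/-- `s'` is the Steinberg part of `f` near `1` -/
private def IsE (P : PinData k G T X) (p : ℕ) (z : X) (f s' : G → k) : Prop :=
  s' ∈ P.Ind z ∧ ∃ Qf Qs : MvPolynomial (Fin P.N) k, (∀ c, f (P.u c) = eval c Qf) ∧
    (∀ c, s' (P.u c) = eval c Qs) ∧ Qf - Qs ∈ Mp k P.N p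

omit [IsAlgClosed k] [Infinite k] in
private theorem eps_one {l : X} {f : G → k} (hf : f ∈ P.Ind l) (g : G) :
    ∃ Q : MvPolynomial (Fin P.N) k, ∀ c, f (g * P.u c) = eval c Q :=
  polyMap_iff.1 (hf.2 g)

omit [IsAlgClosed k] [Infinite k] in
private theorem eps_lreg (f : G → k) (g x : G) : lreg k G G g⁻¹ f x = f (g * x) := by
  change f (g⁻¹⁻¹ • x) = f (g * x)
  rw [inv_inv, smul_eq_mul]

private theorem eps_exists [Fact p.Prime] [CharP k p] (hst : P.IsSt p z v s q) {f : G → k}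
    {Qf : MvPolynomial (Fin P.N) k} (hf : ∀ c, f (P.u c) = eval c Qf) :
    ∃ s', IsE P p z f s' := by
  obtain ⟨g, hg⟩ := hst.basis Qf
  refine ⟨∑ A ∈ Ap P.N p, (eval 0 (g A) ^ p) • s A, ?_, Qf,
    ∑ A ∈ Ap P.N p, C (eval 0 (g A) ^ p) * q A, hf, fun c => ?_, ?_⟩
  · exact Submodule.sum_mem _ fun A hA => Submodule.smul_mem _ _ (hst.mem A hA)
  · rw [Finset.sum_apply, map_sum]
    refine Finset.sum_congr rfl fun A hA => ?_
    rw [Pi.smul_apply, smul_eq_mul, hst.eval A hA, map_mul, eval_C]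
  · rw [hg, ← Finset.sum_sub_distrib]
    refine Ideal.sum_mem _ fun A _ => ?_
    rw [← sub_mul]
    exact Ideal.mul_mem_right _ _ (pow_sub_mem_Mp (g A))

private theorem eps_zero [Fact p.Prime] [CharP k p] (hst : P.IsSt p z v s q) {f : G → k}
    (hf : f ∈ P.Ind z) {Q : MvPolynomial (Fin P.N) k} (hQ : ∀ c, f (P.u c) = eval c Q)
    (hm : Q ∈ Mp k P.N p) : f = 0 := by
  have hp : 0 < p := (Fact.out : p.Prime).pos
  obtain ⟨a, ha⟩ := hst.span f hf
  have hroot : ∀ A, ∃ b : k, b ^ p = a A := fun A => IsAlgClosed.exists_pow_nat_eq (a A) hp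
  choose b hb using hroot
  have hQ1 : Q = ∑ A ∈ Ap P.N p, C (b A) ^ p * q A := by
    apply MvPolynomial.funext
    intro c
    rw [← hQ, ha, Finset.sum_apply, map_sum]
    refine Finset.sum_congr rfl fun A hA => ?_
    rw [Pi.smul_apply, smul_eq_mul, hst.eval A hA, map_mul, map_pow, eval_C, hb]
  unfold Mp at hm
  rw [Ideal.mem_span_range_iff_exists_fun] at hm
  obtain ⟨r, hr⟩ := hm
  choose rr hrr using fun j => hst.basis (r j)
  have hQ2 : Q = ∑ A ∈ Ap P.N p, (∑ j, MvPolynomial.X j * rr j A) ^ p * q A := by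
    have h1 : ∀ A, (∑ j, MvPolynomial.X j * rr j A) ^ p =
        ∑ j, (MvPolynomial.X j * rr j A : MvPolynomial (Fin P.N) k) ^ p := fun A => sum_pow_char p _ _
    simp only [h1, Finset.sum_mul]
    rw [Finset.sum_comm, ← hr]
    refine Finset.sum_congr rfl fun j _ => ?_
    conv_lhs => rw [hrr j]
    rw [Finset.sum_mul]
    refine Finset.sum_congr rfl fun A _ => ?_
    rw [mul_pow]
    ring
  have h2 : ∑ A ∈ Ap P.N p, (C (b A) - ∑ j, MvPolynomial.X j * rr j A) ^ p * q A = 0 := by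
    have h3 : ∀ A, (C (b A) - ∑ j, MvPolynomial.X j * rr j A) ^ p =
        (C (b A) : MvPolynomial (Fin P.N) k) ^ p - (∑ j, MvPolynomial.X j * rr j A) ^ p :=
      fun A => sub_pow_char _ _
    simp only [h3, sub_mul, Finset.sum_sub_distrib]
    rw [← hQ1, ← hQ2, sub_self]
  have h4 := hst.indep _ h2
  have h5 : ∀ A ∈ Ap P.N p, a A = 0 := by
    intro A hA
    have h6 := congrArg (eval (0 : Fin P.N → k)) (h4 A hA)
    rw [map_sub, eval_C, map_sum, map_zero] at h6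
    have h7 : ∑ j, eval (0 : Fin P.N → k) (MvPolynomial.X j * rr j A) = 0 :=
      Finset.sum_eq_zero fun j _ => by rw [map_mul, eval_X, Pi.zero_apply, zero_mul]
    rw [h7, sub_zero] at h6
    rw [← hb, h6, zero_pow hp.ne']
  rw [ha]
  exact Finset.sum_eq_zero fun A hA => by rw [h5 A hA, zero_smul]

private theorem eps_unique [Fact p.Prime] [CharP k p] (hst : P.IsSt p z v s q) {f s' s'' : G → k}
    (h1 : IsE P p z f s') (h2 : IsE P p z f s'') : s' = s'' := by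
  obtain ⟨m1, Qf, Qs, hf, hs, hm⟩ := h1
  obtain ⟨m2, Qf', Qs', hf', hs', hm'⟩ := h2
  have hQ : Qf = Qf' := MvPolynomial.funext fun c => by rw [← hf, ← hf']
  apply sub_eq_zero.1
  refine eps_zero hst (sub_mem m1 m2) (Q := Qs - Qs') (fun c => ?_) ?_
  · rw [Pi.sub_apply, hs, hs', map_sub]
  · have h3 : Qs - Qs' = (Qf' - Qs') - (Qf - Qs) := by
      rw [hQ]
      ring
    rw [h3]
    exact Ideal.sub_mem _ hm' hm

theorem exists_eps [Fact p.Prime] [CharP k p] (hP : P.Ax) (hst : P.IsSt p z v s q)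
    (hl : P.IsV l vl) :
    ∃ ε : (G → k) → G → k, (∀ f ∈ P.Ind (z + p • l), ε f ∈ P.Ind z) ∧
      (∀ f ∈ P.Ind (z + p • l), ∀ t b,
        ε (lreg k G G (P.tor t * P.v b)⁻¹ f) =
          ((((P.ch l t)⁻¹ : kˣ) : k) ^ p) • lreg k G G (P.tor t * P.v b)⁻¹ (ε f)) ∧
      ∀ f ∈ P.Ind (z + p • l), ∀ g : (Fin P.N → ℕ) → MvPolynomial (Fin P.N) k,
        (∀ c, f (P.u c) = ∑ A ∈ Ap P.N p, eval c (g A) ^ p * s A (P.u c)) →
        ∀ c, ε (lreg k G G (P.u c)⁻¹ f) =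
          ∑ A ∈ Ap P.N p, (eval c (g A) ^ p) • lreg k G G (P.u c)⁻¹ (s A) := by
  classical
  have hex : ∀ f ∈ P.Ind (z + p • l), ∃ s', IsE P p z f s' := by
    intro f hf
    obtain ⟨Q, hQ⟩ := eps_one hf 1
    exact eps_exists hst (Qf := Q) fun c => by rw [← hQ, one_mul]
  set ε : (G → k) → G → k := fun f => if h : ∃ s', IsE P p z f s' then h.choose else 0 with hε
  have hε1 : ∀ f s', IsE P p z f s' → ε f = s' := by
    intro f s' h
    have h1 : ∃ s', IsE P p z f s' := ⟨s', h⟩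
    rw [hε]
    simp only [dif_pos h1]
    exact eps_unique hst h1.choose_spec h
  have hε2 : ∀ f ∈ P.Ind (z + p • l), IsE P p z f (ε f) := by
    intro f hf
    obtain ⟨s', hs'⟩ := hex f hf
    rw [hε1 f s' hs']
    exact hs'
  refine ⟨ε, fun f hf => (hε2 f hf).1, fun f hf t b => ?_, fun f hf g hg c => ?_⟩
  · apply hε1
    obtain ⟨m1, Qf, Qs, hQf, hQs, hm⟩ := hε2 f hf
    set y : G := P.tor t * P.v b with hy
    obtain ⟨Q1, hQ1⟩ := eps_one hf y
    obtain ⟨Q2, hQ2⟩ := eps_one m1 y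
    obtain ⟨Q3, hQ3⟩ := eps_one hl.1 y
    have hQ30 : eval 0 Q3 = (((P.ch l t)⁻¹ : kˣ) : k) := by
      rw [← hQ3, u_zero, mul_one]
      have h1 := hl.1.1 1 t b
      rw [one_mul] at h1
      rw [hy, h1, hl.one, mul_one]
    have hH : f - ε f * vl ^ p ∈ P.Ind (z + p • l) :=
      sub_mem hf (Ind_mul hP m1 (Ind_pow hP hl.1 p))
    have hHm := nbhd hP hH (Q := Qf - Qs) (fun c => by
      rw [Pi.sub_apply, Pi.mul_apply, Pi.pow_apply, hl.2, one_pow, mul_one, hQf, hQs, map_sub])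
      hm t b (Q' := Q1 - Q2 * Q3 ^ p) (fun c => by
      rw [Pi.sub_apply, Pi.mul_apply, Pi.pow_apply, ← hy, hQ1, hQ2, hQ3, map_sub, map_mul,
        map_pow])
    refine ⟨Submodule.smul_mem _ _ (Ind_stable z _ _ m1), Q1,
      C ((((P.ch l t)⁻¹ : kˣ) : k) ^ p) * Q2, fun c => ?_, fun c => ?_, ?_⟩
    · rw [eps_lreg, hQ1]
    · rw [Pi.smul_apply, smul_eq_mul, eps_lreg, hQ2, map_mul, eval_C]
    · have h2 : Q1 - C ((((P.ch l t)⁻¹ : kˣ) : k) ^ p) * Q2 =
          (Q1 - Q2 * Q3 ^ p) + Q2 * (Q3 ^ p - C (eval 0 Q3 ^ p)) := by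
        rw [hQ30]
        ring
      rw [h2]
      exact Ideal.add_mem _ hHm (Ideal.mul_mem_left _ _ (pow_sub_mem_Mp Q3))
  · apply hε1
    refine ⟨Submodule.sum_mem _ fun A hA => Submodule.smul_mem _ _
      (Ind_stable z _ _ (hst.mem A hA)), ∑ A ∈ Ap P.N p, P.ltr hP c (g A) ^ p * P.ltr hP c (q A),
      ∑ A ∈ Ap P.N p, C (eval c (g A) ^ p) * P.ltr hP c (q A), fun c' => ?_, fun c' => ?_, ?_⟩
    · rw [eps_lreg, u_mu hP, hg, map_sum]
      refine Finset.sum_congr rfl fun A hA => ?_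
      rw [hst.eval A hA, map_mul, map_pow, eval_ltr, eval_ltr]
    · rw [Finset.sum_apply, map_sum]
      refine Finset.sum_congr rfl fun A hA => ?_
      rw [Pi.smul_apply, smul_eq_mul, eps_lreg, u_mu hP, hst.eval A hA, map_mul, eval_C, eval_ltr]
    · rw [← Finset.sum_sub_distrib]
      refine Ideal.sum_mem _ fun A _ => ?_
      rw [← sub_mul]
      refine Ideal.mul_mem_right _ _ ?_
      have h1 := pow_sub_mem_Mp (p := p) (P.ltr hP c (g A))
      rwa [eval_ltr, mu_zero_right] at h1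

end PinData

end Pool.Agent.DM
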