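import Pool.Agent.DM.RatX
import Pool.Agent.DM.Trans

/-!
# DM, module IndC: leading terms in induced modules; highest weight vectors
-/

set_option autoImplicit false

namespace Pool.Agent.DM

open MvPolynomial

variable {k : Type*} [Field k] [Infinite k] {G : Type*} [Group G] {T : Type*} [CommGroup T]
  {X : Type*} [AddCommGroup X] {P : PinData k G T X}

namespace PinData

/-- All weights of `Ind l` have height at most `h l` (`Ind_wts`, `Ind_wt_h`). -/
theorem Ind_low (hP : P.Ax) {l : X} {f : G → k} (hf : f ∈ P.Ind l) :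
    f ∈ P.low (lreg k G G) (P.h l + 1) := by
  obtain ⟨F, y, hy, rfl⟩ := Ind_wts hP l hf
  refine Submodule.sum_mem _ fun e he => ?_
  by_cases h0 : y e = 0
  · rw [h0]
    exact Submodule.zero_mem _
  · by_cases hne : e = l
    · exact wt_le_low (by rw [hne]; omega) (hy e he).1
    · have := Ind_wt_h hP (hy e he).2 (hy e he).1 h0 hne
      exact wt_le_low (by omega) (hy e he).1

/-- An element which vanishes at `1` has weights of height less than `h l`.  (Decompose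
`f = ∑ f_e`; `f_e(1) = 0` for `e ≠ l` (`Ind_eval_one`), so `f_l(1) = 0` and `f_l = 0` by `Ind_top`,
`Ind_ext`; `Ind_wt_h` for the others.) -/
theorem Ind_low_of (hP : P.Ax) {l : X} {f : G → k} (hf : f ∈ P.Ind l) (h1 : f 1 = 0) :
    f ∈ P.low (lreg k G G) (P.h l) := by
  obtain ⟨F, y, hy, rfl⟩ := Ind_wts hP l hf
  refine Submodule.sum_mem _ fun e he => ?_
  by_cases h0 : y e = 0
  · rw [h0]
    exact Submodule.zero_mem _
  · by_cases hne : e = l
    · exfalso
      subst hne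
      apply h0
      have h2 : y e 1 = 0 := by
        rw [Finset.sum_apply, Finset.sum_eq_single e] at h1
        · exact h1
        · intro b hb hbe
          exact Ind_eval_one hP (hy b hb).2 (hy b hb).1 hbe
        · intro h
          exact absurd he h
      refine Ind_ext hP (hy e he).2 (Submodule.zero_mem _) fun c => ?_
      rw [Ind_top hP (hy e he).2 (hy e he).1 c, h2]
      rfl
    · have := Ind_wt_h hP (hy e he).2 (hy e he).1 h0 hne
      exact wt_le_low this (hy e he).1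

/-- `f - f(1) v_l` has smaller weights. -/
theorem Ind_sub_low (hP : P.Ax) {l : X} {f v : G → k} (hf : f ∈ P.Ind l) (hv : P.IsV l v) :
    f - f 1 • v ∈ P.low (lreg k G G) (P.h l) := by
  refine Ind_low_of hP (Submodule.sub_mem _ hf (Submodule.smul_mem _ _ hv.1)) ?_
  rw [Pi.sub_apply, Pi.smul_apply, hv.one, smul_eq_mul, mul_one, sub_self]

/-- The translates of a highest weight vector `m ≠ 0` of weight `n` in a rational module: there is
`v = v_n` in `Ind n` and `ρ(g⁻¹) m ≡ v(g) m` modulo smaller weights.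
Proof.  Let `K = k m + low(h n)`.  For `g = u t v` in the cell
`ρ(g⁻¹) m = ρ(v⁻¹) ρ(t⁻¹) ρ(u⁻¹) m = ch(n)(t)⁻¹ ρ(v⁻¹) m ∈ K` (`v_inv_sub`).  For arbitrary `g` the
map `c ↦ ρ((g u(c))⁻¹) m = ρ(u(c)⁻¹) ρ(g⁻¹) m` is polynomial (`pu_inv`) and lies in `K` where
`D(c) ≠ 0` (`dense_poly`), so `ρ(g⁻¹) m ∈ K` (`PolyMap.mem_of`, `c = 0`).  As `m ∉ low(h n)`
(`wt_low`) there is a functional `λ` with `λ(m) = 1` and `λ = 0` on `low(h n)`; put
`v(g) = λ(ρ(g⁻¹) m)`, so `ρ(g⁻¹) m - v(g) m ∈ low(h n)`.  `c ↦ v(g u(c))` is polynomial;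
`v(g t b) = λ(ρ(b⁻¹) ρ(t⁻¹) ρ(g⁻¹) m) = ch(n)(t)⁻¹ v(g)` for `b = P.v _` by `v_inv_sub`,
`v_inv_low`; `v(u(c)) = 1`. -/
theorem hw_symbol (hP : P.Ax) {V : Type*} [AddCommGroup V] [Module k V]
    {ρ : Representation k G V} {W : Submodule k V} (hW : P.RatOn ρ W) {n : X} {m : V}
    (hm : m ∈ W) (hm' : m ∈ P.hw ρ n) (h0 : m ≠ 0) :
    ∃ v, P.IsV n v ∧ ∀ g : G, ρ g⁻¹ m - v g • m ∈ P.low ρ (P.h n) := by
  have mulr : ∀ (g g' : G) (x : V), ρ (g * g') x = ρ g (ρ g' x) := by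
    intro g g' x
    rw [map_mul]
    rfl
  have uinv : ∀ a, ρ (P.u a)⁻¹ m = m := by
    intro a
    have h1 := hm'.2 a
    conv_lhs => rw [← h1, ← mulr, inv_mul_cancel, map_one]
    rfl
  have tinv : ∀ t, ρ (P.tor t)⁻¹ m = (((P.ch n t)⁻¹ : kˣ) : k) • m := by
    intro t
    rw [← map_inv, hm'.1 t⁻¹, map_inv]
  -- everything lies in `K`
  have hcell : ∀ g ∈ P.cell, ρ g⁻¹ m ∈ Submodule.span k {m} ⊔ P.low ρ (P.h n) := by
    rintro g ⟨a, t, b, rfl⟩
    have h1 : (P.u a * P.tor t * P.v b)⁻¹ = (P.v b)⁻¹ * ((P.tor t)⁻¹ * (P.u a)⁻¹) := by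
      rw [mul_inv_rev, mul_inv_rev]
    rw [h1, mulr, mulr, uinv, tinv, map_smul]
    refine Submodule.smul_mem _ _ ?_
    have h2 := hW.v_inv_sub hP hm hm'.1 b
    have h3 : ρ (P.v b)⁻¹ m = m + (ρ (P.v b)⁻¹ m - m) := by abel
    rw [h3]
    exact Submodule.add_mem_sup (Submodule.mem_span_singleton_self m) h2
  have hall : ∀ g, ρ g⁻¹ m ∈ Submodule.span k {m} ⊔ P.low ρ (P.h n) := by
    intro g
    obtain ⟨D, hD, hDc⟩ := dense_poly hP g
    have h1 := hW.pu_inv hP (hW.stable g⁻¹ m hm)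
    have h2 := h1.mem_of (Submodule.span k {m} ⊔ P.low ρ (P.h n)) D hD (fun c hc => by
      have h3 := hcell _ (hDc c hc)
      rw [mul_inv_rev, mulr] at h3
      exact h3) 0
    rw [u_zero, inv_one, map_one] at h2
    exact h2
  have hnot : m ∉ P.low ρ (P.h n) := fun h => h0 (wt_low hP hm'.1 h le_rfl)
  obtain ⟨lam, hlm, hll⟩ : ∃ lam : V →ₗ[k] k, lam m = 1 ∧ ∀ x ∈ P.low ρ (P.h n), lam x = 0 := by
    obtain ⟨φ, hφ, hφ'⟩ := Submodule.exists_dual_map_eq_bot_of_notMem hnot inferInstance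
    refine ⟨(φ m)⁻¹ • φ, ?_, fun x hx => ?_⟩
    · rw [LinearMap.smul_apply, smul_eq_mul, inv_mul_cancel₀ hφ]
    · have h1 : φ x ∈ (P.low ρ (P.h n)).map φ := Submodule.mem_map_of_mem hx
      rw [hφ', Submodule.mem_bot] at h1
      rw [LinearMap.smul_apply, h1, smul_zero]
  have hsub : ∀ g, ρ g⁻¹ m - lam (ρ g⁻¹ m) • m ∈ P.low ρ (P.h n) := by
    intro g
    obtain ⟨x, hx, y, hy, hxy⟩ := Submodule.mem_sup.1 (hall g)
    obtain ⟨a, rfl⟩ := Submodule.mem_span_singleton.1 hx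
    have h1 : lam (ρ g⁻¹ m) = a := by
      rw [← hxy, map_add, map_smul, hlm, hll y hy, smul_eq_mul, mul_one, add_zero]
    rw [h1, ← hxy, add_sub_cancel_left]
    exact hy
  refine ⟨fun g => lam (ρ g⁻¹ m), ⟨⟨?_, ?_⟩, ?_⟩, hsub⟩
  · intro g t b
    obtain ⟨y, hy⟩ : ∃ y, y = ρ g⁻¹ m - lam (ρ g⁻¹ m) • m := ⟨_, rfl⟩
    have hyl : y ∈ P.low ρ (P.h n) := by rw [hy]; exact hsub g
    have hyW : y ∈ W := by
      rw [hy]
      exact Submodule.sub_mem _ (hW.stable _ _ hm) (Submodule.smul_mem _ _ hm)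
    have h1 : ρ g⁻¹ m = lam (ρ g⁻¹ m) • m + y := by rw [hy]; abel
    have h2 : (g * (P.tor t * P.v b))⁻¹ = (P.v b)⁻¹ * ((P.tor t)⁻¹ * g⁻¹) := by
      rw [mul_inv_rev, mul_inv_rev, mul_assoc]
    have h3 : ρ (P.tor t)⁻¹ y ∈ P.low ρ (P.h n) := by
      rw [← map_inv]
      exact tor_low hyl t⁻¹
    have h4 := hW.v_inv_low hP (hW.stable (P.tor t)⁻¹ y hyW) h3 b
    have h5 := hW.v_inv_sub hP hm hm'.1 b
    have h6 : lam (ρ (P.v b)⁻¹ m) = 1 := by
      have := hll _ h5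
      rw [map_sub, hlm, sub_eq_zero] at this
      exact this
    show lam (ρ (g * (P.tor t * P.v b))⁻¹ m) = (((P.ch n t)⁻¹ : kˣ) : k) * lam (ρ g⁻¹ m)
    rw [h2, mulr, mulr]
    conv_lhs => rw [h1]
    rw [map_add, map_add, map_smul, map_smul, tinv, map_smul, map_add, hll _ h4, add_zero,
      map_smul, map_smul, h6, smul_eq_mul, smul_eq_mul, mul_one, mul_comm]
  · intro g
    have h1 := (hW.pu_inv hP (hW.stable g⁻¹ m hm)).map lam
    have h2 : (fun c => lam (ρ (g * P.u c)⁻¹ m)) = fun c => lam (ρ (P.u c)⁻¹ (ρ g⁻¹ m)) := by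
      funext c
      rw [mul_inv_rev, mulr]
    show PolyMap fun c => lam (ρ (g * P.u c)⁻¹ m)
    rw [h2]
    exact h1
  · intro c
    show lam (ρ (P.u c)⁻¹ m) = 1
    rw [uinv, hlm]

/-- If `Ind l` is nonzero it contains the highest weight vector: take a nonzero element of minimal
height degree on `U`; or: `f ≠ 0` in `Ind l`, the nonzero finite dimensional stable subspace
`Ind l` contains a nonzero `U`-invariant vector because its restriction to `U` is a nonzero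
subspace stable under left translations, so contains the constant `1` (`one_mem_of_stable` in
module Trans; `lreg (u b)⁻¹ f` restricts to `ltr b` of the restriction of `f`). -/
theorem exists_isV (hP : P.Ax) {l : X} {f : G → k} (hf : f ∈ P.Ind l) (h0 : f ≠ 0) :
    ∃ v, P.IsV l v := by
  let E : Submodule k (MvPolynomial (Fin P.N) k) :=
    { carrier := {Q | ∃ f ∈ P.Ind l, ∀ c, f (P.u c) = eval c Q}
      add_mem' := by
        rintro Q Q' ⟨f, hf, h⟩ ⟨f', hf', h'⟩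
        refine ⟨f + f', Submodule.add_mem _ hf hf', fun c => ?_⟩
        rw [Pi.add_apply, h, h', map_add]
      zero_mem' := ⟨0, Submodule.zero_mem _, fun c => by rw [Pi.zero_apply, map_zero]⟩
      smul_mem' := by
        rintro a Q ⟨f, hf, h⟩
        refine ⟨a • f, Submodule.smul_mem _ _ hf, fun c => ?_⟩
        rw [Pi.smul_apply, h, smul_eval, smul_eq_mul] }
  have hE : E ≠ ⊥ := by
    intro hE
    apply h0
    refine Ind_ext hP hf (Submodule.zero_mem _) fun c => ?_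
    obtain ⟨Q, hQ⟩ := polyMap_iff.1 (hf.2 1)
    have hQE : Q ∈ E := ⟨f, hf, fun c => by rw [← hQ c, one_mul]⟩
    rw [hE, Submodule.mem_bot] at hQE
    have h1 := hQ c
    rw [one_mul, hQE, map_zero] at h1
    rw [h1]
    rfl
  have hst : ∀ b, ∀ Q ∈ E, P.ltr hP b Q ∈ E := by
    rintro b Q ⟨f, hf, h⟩
    refine ⟨lreg k G G (P.u b)⁻¹ f, Ind_stable l _ _ hf, fun c => ?_⟩
    show f (((P.u b)⁻¹)⁻¹ * P.u c) = _
    rw [inv_inv, u_mu hP, h, eval_ltr]
  obtain ⟨v, hv, h1⟩ := one_mem_of_stable hP E hE hst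
  exact ⟨v, hv, fun c => by rw [h1 c, map_one]⟩

/-- `P.Dom l` is equivalent to the existence of `v_l` (`hP.dom`, and `Ind_cf`-type degree bound:
module LieD `Ind_eq_zero`; here only the easy direction). -/
theorem exists_isV_of_dom (hP : P.Ax) {l : X} (hl : P.Dom l) : ∃ v, P.IsV l v := by
  obtain ⟨f, hf, h⟩ := hP.dom l hl
  exact ⟨f, hf, h⟩

end PinData

end Pool.Agent.DM
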