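import Pool.Agent.DM.LieF
import Pool.Agent.DM.IndC

/-!
# DM, module Fix: highest weight vectors of weights divisible by `p` on the coroots

`l` a weight with `p ∣ pair i l` for all simple `i`, `v` the highest weight vector of `Ind l`,
`L₀ = {F ∈ Ind l | ep i F = em i F = 0 for all i}`.

(a) `v ∈ L₀`: `ep_i v = 0` (`IsV.inv`, `dv_inv`).  `em_i v = 0` by induction on the height
`h(rt i)`: it suffices that `em_i v` is invariant under `x_j(s)`, `j` simple: then it is
invariant under `U` (`hP.gen_u` for the stabiliser) and, having weight `l - rt i ≠ l`, vanishes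
(`Ind_inv`, `IsV.wt`, `wt_indep`).  `x_j(s) em_i v = (x_j(s) em_i x_j(-s)) v` as `v` is invariant.
If `i = j`: it is `em_j v + s (pair j l) v - s² ep_j v = em_j v` (`conj_self_em`, `p ∣ pair j l`).
If `i ≠ j`: it is `∑_l' a_l'(s) em_l' v` (`conj_xp_em`); as polynomial in `s` (`cf_xp_wt`), the
coefficient of `s^n` of the left side has weight `l - rt i + n rt j`, and `em_l' v` has weight
`l - rt l'`; so (`wt_comp`/`wt_indep`) the coefficient of `s^n`, `n ≥ 1`, is a combination of
`em_l' v` with `rt l' = rt i - n rt j`, which has smaller height, so it is `0` by induction; the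
coefficient of `s^0` is `em_i v`.
(b) `L₀` is `G`-stable: the set of `g` such that `g`, `g⁻¹` map `L₀` into itself is a subgroup, so
(`hP.gen`) take `g = tor t` (clear: `tor t x_i(s) = x_i(..) tor t`), `x_i(s)`, `x_-i(s)`, `i` simple.
`L₀` is `T`-stable, so its elements are sums of weight vectors in `L₀` (`Ind_wts`, `wt_comp`); for a
weight vector `F ∈ L₀` of weight `e`, `comm_self` gives `(pair i e) F = 0` in `k`.
For `g = x_i(s)`: `ep_j (g F) = g (x_i(-s) ep_j x_i(s)) F = g ∑ a_l ep_l F = 0` (`conj_xp`);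
`em_j (g F) = g (x_i(-s) em_j x_i(s)) F`, which is `0` by `conj_xp_em` for `j ≠ i` and by
`conj_self_em` for `j = i` (for weight vectors `F`, and by linearity in general).  For
`g = x_-i(s)` use `conj_xm_em`, `conj_xm`, `conj_self`.
-/

set_option autoImplicit false

namespace Pool.Agent.DM

open MvPolynomial

variable {k : Type*} [Field k] [Infinite k] {G : Type*} [Group G] {T : Type*} [CommGroup T]
  {X : Type*} [AddCommGroup X] {P : PinData k G T X} {p : ℕ} {l : X} {v : G → k}

namespace PinData

omit [Infinite k] in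
private theorem fix_proj {V : Type*} [AddCommGroup V] [Module k V] {ρ : Representation k G V}
    (hP : P.Ax) {ι : Type*} (I : Finset ι) (y : ι → V) (m : ι → X)
    (hy : ∀ i ∈ I, y i ∈ P.wt ρ (m i)) {e : X} {x : V} (hx : x ∈ P.wt ρ e)
    (h : x = ∑ i ∈ I, y i) (h0 : ∀ i ∈ I, m i = e → y i = 0) : x = 0 := by
  classical
  have h1 : ∀ q ∈ insert e (I.image m),
      (∑ i ∈ I with m i = q, y i) - (if q = e then x else 0) ∈ P.wt ρ q := by
    intro q _
    refine sub_mem (Submodule.sum_mem _ fun i hi => ?_) ?_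
    · rw [Finset.mem_filter] at hi
      rw [← hi.2]
      exact hy i hi.1
    · split_ifs with hq
      · rw [hq]; exact hx
      · exact zero_mem _
  have h2 : ∑ q ∈ insert e (I.image m),
      ((∑ i ∈ I with m i = q, y i) - (if q = e then x else 0)) = 0 := by
    rw [Finset.sum_sub_distrib, Finset.sum_fiberwise_of_maps_to (fun i hi =>
      Finset.mem_insert_of_mem (Finset.mem_image_of_mem m hi)), ← h, Finset.sum_ite_eq',
      if_pos (Finset.mem_insert_self _ _), sub_self]
  have h3 := wt_indep hP h1 h2 e (Finset.mem_insert_self _ _)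
  rw [if_pos rfl, sub_eq_zero] at h3
  rw [← h3]
  refine Finset.sum_eq_zero fun i hi => ?_
  rw [Finset.mem_filter] at hi
  exact h0 i hi.1 hi.2

omit [Infinite k] in
private theorem fix_two {V : Type*} [AddCommGroup V] [Module k V] {ρ : Representation k G V}
    (hP : P.Ax) {e e' : X} {x : V} (hx : x ∈ P.wt ρ e) (hx' : x ∈ P.wt ρ e') (hne : e ≠ e') :
    x = 0 :=
  fix_proj hP {()} (fun _ => x) (fun _ => e') (fun _ _ => hx') hx (by simp)
    (fun _ _ h => (hne h.symm).elim)

omit [Infinite k] in
private theorem fix_app {V : Type*} [AddCommGroup V] [Module k V] (ρ : Representation k G V)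
    (g g' : G) (x : V) : ρ (g * g') x = ρ g (ρ g' x) := by
  rw [map_mul]
  rfl

omit [Infinite k] in
private theorem fix_zero {V : Type*} [AddCommGroup V] [Module k V] (ρ : Representation k G V)
    {g g' : G} {x : V} (h : ρ g x = 0) (hg : g' * g = 1) : x = 0 := by
  have h1 := congrArg (ρ g') h
  rw [← fix_app, hg, map_zero, map_one] at h1
  exact h1

private theorem fix_ep_v (hP : P.Ax) (hv : P.IsV l v) (i : Fin P.N) :
    P.ep (lreg k G G) i v = 0 :=
  dv_inv fun s => by rw [← u_single]; exact hv.inv hP _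

omit [Infinite k] in
private theorem fix_pair [Fact p.Prime] [CharP k p] {i : Fin P.N} (h : (p : ℤ) ∣ P.pair i l) :
    ((P.pair i l : ℤ) : k) = 0 := (CharP.intCast_eq_zero_iff k p _).2 h

theorem em_v [Fact p.Prime] [CharP k p] (hP : P.Ax) (hl : ∀ i ∈ P.S, (p : ℤ) ∣ P.pair i l)
    (hv : P.IsV l v) (i : Fin P.N) : P.em (lreg k G G) i v = 0 := by
  have hW : P.RatOn (lreg k G G) (P.Ind l) := Ind_rat hP l
  have hvw := hv.wt hP
  have hpos : ∀ i, 0 < P.h (P.rt i) := hP.h_pos
  induction hn : (P.h (P.rt i)).toNat using Nat.strong_induction_on generalizing i with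
  | _ n ih =>
  have hinv : ∀ j s, lreg k G G (P.xp j s) v = v := fun j s => by
    rw [← u_single]; exact hv.inv hP _
  set F := P.em (lreg k G G) i v with hF
  have hFW : F ∈ P.Ind l := hW.em_mem hv.1 i
  have hFw : F ∈ P.wt (lreg k G G) (l - P.rt i) := em_wt hP hW hv.1 hvw i
  have key : ∀ j ∈ P.S, ∀ s, lreg k G G (P.xp j s) F = F := by
    intro j hj s
    by_cases hij : i = j
    · subst hij
      have h1 := conj_self_em hP hW hv.1 hvw i s
      rw [hinv, fix_ep_v hP hv, fix_pair (hl i hj), mul_zero, zero_smul, add_zero, smul_zero,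
        sub_zero] at h1
      exact h1
    · obtain ⟨a, ha⟩ := conj_xp_em hP hW hj hij
      have h1 : ∀ s, lreg k G G (P.xp j s) F =
          ∑ m, (a m).eval s • P.em (lreg k G G) m v := by
        intro s
        have := ha v hv.1 s
        rwa [hinv] at this
      have hpol := hW.pol_xp hFW j
      have h2 : ∀ n, 1 ≤ n → cf (fun s => lreg k G G (P.xp j s) F) n = 0 := by
        intro n hn1
        have h3 : cf (fun s => lreg k G G (P.xp j s) F) n =
            ∑ m, (a m).coeff n • P.em (lreg k G G) m v := by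
          have h4 : (fun s => lreg k G G (P.xp j s) F) =
              fun s => ∑ m, (a m).eval s • P.em (lreg k G G) m v := by
            funext s
            exact h1 s
          rw [h4]
          have h5 : ∀ m, ∃ d : ℕ, (∀ D, d ≤ D → ∀ s : k,
              (a m).eval s • P.em (lreg k G G) m v =
                ∑ j ∈ Finset.range D, s ^ j • ((a m).coeff j • P.em (lreg k G G) m v)) := by
            intro m
            refine ⟨(a m).natDegree + 1, fun D hD s => ?_⟩
            rw [Polynomial.eval_eq_sum_range' (lt_of_lt_of_le (Nat.lt_succ_self _) hD),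
              Finset.sum_smul]
            refine Finset.sum_congr rfl fun j _ => ?_
            rw [smul_smul, mul_comm]
          choose d hd using h5
          have h6 : ∀ s, ∑ m, (a m).eval s • P.em (lreg k G G) m v =
              ∑ j ∈ Finset.range (n + 1 + ∑ m, d m), s ^ j •
                ∑ m, (a m).coeff j • P.em (lreg k G G) m v := by
            intro s
            rw [Finset.sum_congr rfl fun m _ => hd m _ ((Finset.single_le_sum (f := d)
              (fun _ _ => Nat.zero_le _) (Finset.mem_univ m)).trans (Nat.le_add_left _ _)) s,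
              Finset.sum_comm]
            refine Finset.sum_congr rfl fun j _ => ?_
            rw [Finset.smul_sum]
          rw [cf_eq h6, if_pos (by omega)]
        have h4 := cf_xp_wt hP hFw hpol n
        refine fix_proj hP Finset.univ _ (fun m => l - P.rt m) (fun m _ => ?_) h4 h3
          (fun m _ hm => ?_)
        · exact Submodule.smul_mem _ _ (em_wt hP hW hv.1 hvw m)
        · have h5 : P.rt i = P.rt m + n • P.rt j := by
            have h6 : l - P.rt m = l - P.rt i + n • P.rt j := hm
            have h7 : P.rt i = P.rt m + n • P.rt j + (l - P.rt m - (l - P.rt i + n • P.rt j)) := by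
              abel
            rw [h6, sub_self, add_zero] at h7
            exact h7
          have h6 : P.h (P.rt m) < P.h (P.rt i) := by
            rw [h5, map_add, map_nsmul, nsmul_eq_mul]
            have := hpos j
            have h8 : (0 : ℤ) < n := by exact_mod_cast hn1
            have := mul_pos h8 this
            linarith
          have h7 : P.em (lreg k G G) m v = 0 := by
            refine ih (P.h (P.rt m)).toNat ?_ m rfl
            rw [← hn]
            have := hpos m
            omega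
          rw [h7, smul_zero]
      obtain ⟨d, hd0, hd⟩ := hpol.sum_cf
      have h0 : cf (fun s => lreg k G G (P.xp j s) F) 0 = F := by
        rw [cf_zero hpol, xp_zero, map_one]
        rfl
      have h3 := hd s
      rw [h3, Finset.sum_eq_single 0]
      · rw [pow_zero, one_smul, h0]
      · intro b _ hb
        rw [h2 b (Nat.one_le_iff_ne_zero.2 hb), smul_zero]
      · intro h4
        rw [Finset.mem_range, not_lt] at h4
        rw [hd0 0 h4, smul_zero]
  let K : Subgroup G :=
    { carrier := {g | lreg k G G g F = F}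
      mul_mem' := by
        intro g g' hg hg'
        change lreg k G G (g * g') F = F
        rw [fix_app, hg', hg]
      one_mem' := by
        change lreg k G G 1 F = F
        rw [map_one]
        rfl
      inv_mem' := by
        intro g hg
        change lreg k G G g⁻¹ F = F
        conv_lhs => rw [← (show lreg k G G g F = F from hg)]
        rw [← fix_app, inv_mul_cancel, map_one]
        rfl }
  have hu : ∀ c, lreg k G G (P.u c) F = F := hP.gen_u K key
  rcases Ind_inv hP hFW hu with h0 | ⟨v', hv', hF'⟩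
  · exact h0
  · have h1 : F ∈ P.wt (lreg k G G) l := by
      rw [hF']
      exact Submodule.smul_mem _ _ (hv'.wt hP)
    refine fix_two hP h1 hFw fun h2 => ?_
    have h3 : P.rt i = 0 := by
      have h4 : P.rt i = l - (l - P.rt i) := by abel
      rw [← h2, sub_self] at h4
      exact h4
    have h4 := hpos i
    rw [h3, map_zero] at h4
    exact lt_irrefl _ h4

/-- the vectors killed by all operators -/
private def L0 (P : PinData k G T X) {l : X} (hW : P.RatOn (lreg k G G) (P.Ind l)) :
    Submodule k (G → k) where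
  carrier := {F | F ∈ P.Ind l ∧ ∀ i, P.ep (lreg k G G) i F = 0 ∧ P.em (lreg k G G) i F = 0}
  add_mem' := by
    rintro F F' ⟨h1, h2⟩ ⟨h1', h2'⟩
    refine ⟨add_mem h1 h1', fun i => ⟨?_, ?_⟩⟩
    · have := dv_add (hW.pol_xp h1 i) (hW.pol_xp h1' i)
      change dv (lreg k G G) (P.xp i) (F + F') = 0
      have e1 : dv (lreg k G G) (P.xp i) F = 0 := (h2 i).1
      have e2 : dv (lreg k G G) (P.xp i) F' = 0 := (h2' i).1
      rw [this, e1, e2, add_zero]
    · have := dv_add (hW.pol_xm h1 i) (hW.pol_xm h1' i)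
      change dv (lreg k G G) (P.xm i) (F + F') = 0
      have e1 : dv (lreg k G G) (P.xm i) F = 0 := (h2 i).2
      have e2 : dv (lreg k G G) (P.xm i) F' = 0 := (h2' i).2
      rw [this, e1, e2, add_zero]
  zero_mem' := ⟨zero_mem _, fun i => ⟨dv_inv fun s => map_zero _, dv_inv fun s => map_zero _⟩⟩
  smul_mem' := by
    rintro a F ⟨h1, h2⟩
    refine ⟨Submodule.smul_mem _ _ h1, fun i => ⟨?_, ?_⟩⟩
    · have := dv_smul (hW.pol_xp h1 i) a
      change dv (lreg k G G) (P.xp i) (a • F) = 0
      have e1 : dv (lreg k G G) (P.xp i) F = 0 := (h2 i).1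
      rw [this, e1, smul_zero]
    · have := dv_smul (hW.pol_xm h1 i) a
      change dv (lreg k G G) (P.xm i) (a • F) = 0
      have e1 : dv (lreg k G G) (P.xm i) F = 0 := (h2 i).2
      rw [this, e1, smul_zero]

private theorem L0_tor (hP : P.Ax) (hW : P.RatOn (lreg k G G) (P.Ind l)) (t : T) {F : G → k}
    (hF : F ∈ L0 P hW) : lreg k G G (P.tor t) F ∈ L0 P hW := by
  obtain ⟨h1, h2⟩ := hF
  refine ⟨Ind_stable l _ _ h1, fun i => ⟨?_, ?_⟩⟩
  · have e : (fun s => lreg k G G (P.xp i s) (lreg k G G (P.tor t) F)) = fun s =>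
        lreg k G G (P.tor t)
          (lreg k G G (P.xp i ((((P.ch (P.rt i) t)⁻¹ : kˣ) : k) * s)) F) := by
      funext s
      rw [← fix_app, ← fix_app]
      congr 2
      have h3 := hP.tor_xp i t ((((P.ch (P.rt i) t)⁻¹ : kˣ) : k) * s)
      rw [Units.mul_inv_cancel_left] at h3
      rw [← h3, inv_mul_cancel_right]
    have h3 := (hW.pol_xp h1 i).dil (((P.ch (P.rt i) t)⁻¹ : kˣ) : k)
    change cf (fun s => lreg k G G (P.xp i s) (lreg k G G (P.tor t) F)) 1 = 0
    rw [e, cf_map h3 (lreg k G G (P.tor t)), cf_dil (hW.pol_xp h1 i)]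
    have e1 : cf (fun s => lreg k G G (P.xp i s) F) 1 = 0 := (h2 i).1
    rw [e1, smul_zero, map_zero]
  · have e : (fun s => lreg k G G (P.xm i s) (lreg k G G (P.tor t) F)) = fun s =>
        lreg k G G (P.tor t)
          (lreg k G G (P.xm i (((P.ch (P.rt i) t : kˣ) : k) * s)) F) := by
      funext s
      rw [← fix_app, ← fix_app]
      congr 2
      have h3 := hP.tor_xm i t (((P.ch (P.rt i) t : kˣ) : k) * s)
      rw [Units.inv_mul_cancel_left] at h3
      rw [← h3, inv_mul_cancel_right]
    have h3 := (hW.pol_xm h1 i).dil ((P.ch (P.rt i) t : kˣ) : k)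
    change cf (fun s => lreg k G G (P.xm i s) (lreg k G G (P.tor t) F)) 1 = 0
    rw [e, cf_map h3 (lreg k G G (P.tor t)), cf_dil (hW.pol_xm h1 i)]
    have e1 : cf (fun s => lreg k G G (P.xm i s) F) 1 = 0 := (h2 i).2
    rw [e1, smul_zero, map_zero]

private theorem L0_wts (hP : P.Ax) (hW : P.RatOn (lreg k G G) (P.Ind l)) {φ : G → k}
    {g : G} (hφ : φ ∈ L0 P hW) (h : ∀ e, ∀ F ∈ L0 P hW, F ∈ P.wt (lreg k G G) e →
      lreg k G G g F ∈ L0 P hW) : lreg k G G g φ ∈ L0 P hW := by
  obtain ⟨S, y, hy, rfl⟩ := Ind_wts hP l hφ.1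
  have h1 := wt_comp hP (W := L0 P hW) (fun t F hF => L0_tor hP hW t hF)
    (fun e he => (hy e he).1) hφ
  rw [map_sum]
  exact Submodule.sum_mem _ fun e he => h e (y e) (h1 e he) (hy e he).1

private theorem L0_pair (hP : P.Ax) (hW : P.RatOn (lreg k G G) (P.Ind l)) {e : X} {F : G → k}
    (hF : F ∈ L0 P hW) (he : F ∈ P.wt (lreg k G G) e) (i : Fin P.N) :
    ((P.pair i e : ℤ) : k) • F = 0 := by
  have h1 := comm_self hP hW hF.1 he i
  rw [(hF.2 i).1, (hF.2 i).2] at h1
  have h2 : P.em (lreg k G G) i (0 : G → k) = 0 := dv_inv fun s => map_zero _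
  have h3 : P.ep (lreg k G G) i (0 : G → k) = 0 := dv_inv fun s => map_zero _
  rw [h2, h3, sub_zero] at h1
  rw [← neg_eq_zero]
  exact h1.symm

private theorem L0_xp (hP : P.Ax) (hW : P.RatOn (lreg k G G) (P.Ind l)) {i : Fin P.N}
    (hi : i ∈ P.S) (s : k) {φ : G → k} (hφ : φ ∈ L0 P hW) :
    lreg k G G (P.xp i s) φ ∈ L0 P hW := by
  refine L0_wts hP hW hφ fun e F hF he => ?_
  have hg : P.xp i s * P.xp i (-s) = 1 := by rw [xp_add, add_neg_cancel, xp_zero]
  refine ⟨Ind_stable l _ _ hF.1, fun j => ⟨?_, ?_⟩⟩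
  · obtain ⟨a, ha⟩ := conj_xp hP hW i j
    have h1 := ha F hF.1 (-s)
    rw [neg_neg, Finset.sum_eq_zero fun m _ => by rw [(hF.2 m).1, smul_zero]] at h1
    exact fix_zero _ h1 hg
  · by_cases hij : j = i
    · subst hij
      have h1 := conj_self_em hP hW hF.1 he j (-s)
      rw [neg_neg, (hF.2 j).1, (hF.2 j).2, smul_zero, sub_zero, zero_add, mul_smul,
        L0_pair hP hW hF he, smul_zero] at h1
      exact fix_zero _ h1 hg
    · obtain ⟨a, ha⟩ := conj_xp_em hP hW hi hij
      have h1 := ha F hF.1 (-s)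
      rw [neg_neg, Finset.sum_eq_zero fun m _ => by rw [(hF.2 m).2, smul_zero]] at h1
      exact fix_zero _ h1 hg

private theorem L0_xm (hP : P.Ax) (hW : P.RatOn (lreg k G G) (P.Ind l)) {i : Fin P.N}
    (hi : i ∈ P.S) (s : k) {φ : G → k} (hφ : φ ∈ L0 P hW) :
    lreg k G G (P.xm i s) φ ∈ L0 P hW := by
  refine L0_wts hP hW hφ fun e F hF he => ?_
  have hg : P.xm i s * P.xm i (-s) = 1 := by rw [xm_add, add_neg_cancel, xm_zero]
  refine ⟨Ind_stable l _ _ hF.1, fun j => ⟨?_, ?_⟩⟩
  · by_cases hij : j = i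
    · subst hij
      have h1 := conj_self hP hW hF.1 he j (-s)
      rw [neg_neg, (hF.2 j).1, (hF.2 j).2, smul_zero, sub_zero, zero_sub, mul_smul,
        L0_pair hP hW hF he, smul_zero, neg_zero] at h1
      exact fix_zero _ h1 hg
    · obtain ⟨a, ha⟩ := conj_xm hP hW hi hij
      have h1 := ha F hF.1 (-s)
      rw [neg_neg, Finset.sum_eq_zero fun m _ => by rw [(hF.2 m).1, smul_zero]] at h1
      exact fix_zero _ h1 hg
  · obtain ⟨a, ha⟩ := conj_xm_em hP hW i j
    have h1 := ha F hF.1 (-s)
    rw [neg_neg, Finset.sum_eq_zero fun m _ => by rw [(hF.2 m).2, smul_zero]] at h1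
    exact fix_zero _ h1 hg

theorem ep_translate [Fact p.Prime] [CharP k p] (hP : P.Ax)
    (hl : ∀ i ∈ P.S, (p : ℤ) ∣ P.pair i l) (hv : P.IsV l v) (i : Fin P.N) (g : G) :
    P.ep (lreg k G G) i (lreg k G G g v) = 0 := by
  have hW : P.RatOn (lreg k G G) (P.Ind l) := Ind_rat hP l
  let K : Subgroup G :=
    { carrier := {g | ∀ F ∈ L0 P hW, lreg k G G g F ∈ L0 P hW ∧ lreg k G G g⁻¹ F ∈ L0 P hW}
      mul_mem' := by
        intro g g' hg hg' F hF
        refine ⟨?_, ?_⟩
        · rw [fix_app]
          exact (hg _ (hg' F hF).1).1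
        · rw [mul_inv_rev, fix_app]
          exact (hg' _ (hg F hF).2).2
      one_mem' := by
        intro F hF
        rw [inv_one, map_one]
        exact ⟨hF, hF⟩
      inv_mem' := by
        intro g hg F hF
        rw [inv_inv]
        exact (hg F hF).symm }
  have hK : K = ⊤ := by
    apply hP.gen K
    · intro t F hF
      refine ⟨L0_tor hP hW t hF, ?_⟩
      rw [← map_inv]
      exact L0_tor hP hW t⁻¹ hF
    · intro i hi s
      refine ⟨fun F hF => ⟨L0_xp hP hW hi s hF, ?_⟩, fun F hF => ⟨L0_xm hP hW hi s hF, ?_⟩⟩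
      · rw [xp_inv]
        exact L0_xp hP hW hi _ hF
      · rw [xm_inv]
        exact L0_xm hP hW hi _ hF
  have hg : g ∈ K := by rw [hK]; exact Subgroup.mem_top g
  exact ((hg v ⟨hv.1, fun i => ⟨fix_ep_v hP hv i, em_v hP hl hv i⟩⟩).1.2 i).1

end PinData

end Pool.Agent.DM
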