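import Pool.Agent.DM.GLead

/-!
# DM, module GExt: extensions of good modules are good

Situation: `K ⊆ W ⊆ V` stable, `W` rational, `π : V → C` linear, equivariant on `W`, with
`W ∩ ker π = K` and `π(W) = D`; `K` and `D` good.  Then `W` is good.

Proof.  Let `m ∈ W` be a highest weight vector of weight `n`, `x ∈ Ind n`, `c = h n`.  `π m` is a
highest weight vector of `D`, so there is `d ∈ D` with `τ(g⁻¹) d - x(g) π m ∈ low c`.  Let `a₀ ∈ W`
with `π a₀ = d`.  If `y ∈ W` and `π y ∈ low c` then `y ∈ K + low c`: decompose `y = ∑ y_l` into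
weight vectors in `W` (`RatOn.exists_wt`), `π y = ∑ π y_l`, so `π y_l = 0` unless `h l < c`
(`low_comp`), i.e. `y_l ∈ K`.  So
(1) `ρ(g⁻¹) a₀ - x(g) m ∈ K + low c` for all `g`.
As `m ∈ low (c+1)`, `ρ(g) a₀ ∈ K + low (c+1)`, and `lift_cut` gives `κ ∈ K` with
`a₁ = a₀ - κ ∈ cut W (c+1)`; (1) holds for `a₁` too.  Let `φ(g)` be the height `c` component of
`ρ(g⁻¹) a₁ - x(g) m`, i.e. (height `c` component of `ρ(g⁻¹) a₁`) `- x(g) m`.  By (1) it lies in `K`.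
As in `lift_cut`, `φ` satisfies the hypotheses of `lead` (`x(g) m` is `U`-invariant of weight `n`,
`x(g (tor t * v b)) m = ch(n)(t)⁻¹ x(g) m = ρ(t)⁻¹ (x(g) m)`), so `φ = ∑ x_j m_j`, and since `K` is
good there is `κ' ∈ K` with `ρ(g⁻¹) κ' - φ(g) ∈ low c`.  Then `a = a₁ - κ'` satisfies
`ρ(g⁻¹) a - x(g) m ∈ low c`.
-/

set_option autoImplicit false

namespace Pool.Agent.DM

open MvPolynomial

variable {k : Type*} [Field k] [Infinite k] {G : Type*} [Group G] {T : Type*} [CommGroup T]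
  {X : Type*} [AddCommGroup X] {P : PinData k G T X}
  {V : Type*} [AddCommGroup V] [Module k V] {ρ : Representation k G V}
  {C : Type*} [AddCommGroup C] [Module k C] {τ : Representation k G C}

namespace PinData

omit [Infinite k] in
private lemma mul_app (g g' : G) (x : V) : ρ (g * g') x = ρ g (ρ g' x) := by
  rw [map_mul]; rfl

omit [Infinite k] in
private lemma mem_lev {c : ℤ} {x : V} (hx : x ∈ P.lev ρ c) : ∃ (F : Finset X) (y : X → V),
    (∀ l ∈ F, P.h l = c ∧ y l ∈ P.wt ρ l) ∧ x = ∑ l ∈ F, y l := by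
  unfold lev at hx
  obtain ⟨f, hf, hs⟩ := (Submodule.mem_iSup_iff_exists_finsupp _ _).1 hx
  refine ⟨f.support, f, fun l hl => ?_, hs.symm⟩
  have hl0 : f l ≠ 0 := Finsupp.mem_support_iff.1 hl
  have h1 := hf l
  by_cases hc : P.h l = c
  · rw [iSup_pos hc] at h1
    exact ⟨hc, h1⟩
  · rw [iSup_neg hc] at h1
    exact absurd ((Submodule.mem_bot k).1 h1) hl0

omit [Infinite k] in
/-- the projection to the part of height `c` -/
private lemma exists_pr (hP : P.Ax) (ρ : Representation k G V) (c : ℤ) :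
    ∃ pr : V →ₗ[k] V, (∀ y, pr y ∈ P.lev ρ c) ∧
      (∀ l, P.h l = c → ∀ y ∈ P.wt ρ l, pr y = y) ∧ ∀ y ∈ P.low ρ c, pr y = 0 := by
  have hdis : ∀ z ∈ P.lev ρ c, z ∈ P.low ρ c → z = 0 := by
    intro z hz hz'
    obtain ⟨F, y, hy, rfl⟩ := mem_lev hz
    have h1 := low_comp (ρ := ρ) hP (fun l hl => (hy l hl).2) hz'
    refine Finset.sum_eq_zero fun l hl => ?_
    by_contra h0
    exact absurd (h1 l hl h0) (by rw [(hy l hl).1]; exact lt_irrefl _)
  obtain ⟨g, hg⟩ := LinearMap.exists_leftInverse_of_injective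
    ((P.low ρ c).mkQ ∘ₗ (P.lev ρ c).subtype) (by
      rw [LinearMap.ker_eq_bot']
      intro z hz
      rw [LinearMap.comp_apply, Submodule.mkQ_apply, Submodule.Quotient.mk_eq_zero] at hz
      exact Subtype.ext (hdis z z.2 hz))
  refine ⟨(P.lev ρ c).subtype ∘ₗ g ∘ₗ (P.low ρ c).mkQ, fun y => (g _).2, fun l hl y hy => ?_,
    fun y hy => ?_⟩
  · have hy' : y ∈ P.lev ρ c := Submodule.mem_iSup_of_mem l (Submodule.mem_iSup_of_mem hl hy)
    have h1 := congrArg (fun f => ((f ⟨y, hy'⟩ : P.lev ρ c) : V)) hg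
    exact h1
  · rw [LinearMap.comp_apply, LinearMap.comp_apply, Submodule.mkQ_apply,
      (Submodule.Quotient.mk_eq_zero _).2 hy, map_zero, map_zero]

section pr

variable {c : ℤ} {pr : V →ₗ[k] V}

omit [Infinite k] in
private lemma pr_mem (hP : P.Ax) (p2 : ∀ l, P.h l = c → ∀ y ∈ P.wt ρ l, pr y = y)
    (p3 : ∀ y ∈ P.low ρ c, pr y = 0) {K' : Submodule k V}
    (hK' : ∀ t, ∀ y ∈ K', ρ (P.tor t) y ∈ K') {z : V} (hz : z ∈ K')
    (hz' : z ∈ P.low ρ (c + 1)) : pr z ∈ K' ∧ z - pr z ∈ P.low ρ c := by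
  obtain ⟨F, y, hy, rfl⟩ := mem_low_iff.1 hz'
  have h1 := wt_comp (ρ := ρ) hP hK' (fun l hl => (hy l hl).2) hz
  have h2 : ∀ l ∈ F, pr (y l) ∈ K' ∧ y l - pr (y l) ∈ P.low ρ c := by
    intro l hl
    rcases lt_or_eq_of_le (Int.lt_add_one_iff.1 (hy l hl).1) with h | h
    · have h3 : y l ∈ P.low ρ c := wt_le_low h (hy l hl).2
      rw [p3 _ h3, sub_zero]
      exact ⟨zero_mem _, h3⟩
    · rw [p2 l h _ (hy l hl).2, sub_self]
      exact ⟨h1 l hl, zero_mem _⟩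
  rw [map_sum, ← Finset.sum_sub_distrib]
  exact ⟨sum_mem fun l hl => (h2 l hl).1, sum_mem fun l hl => (h2 l hl).2⟩

omit [Infinite k] in
private lemma pr_tor (p2 : ∀ l, P.h l = c → ∀ y ∈ P.wt ρ l, pr y = y)
    (p3 : ∀ y ∈ P.low ρ c, pr y = 0) {z : V} (hz : z ∈ P.low ρ (c + 1)) (t : T) :
    pr (ρ (P.tor t) z) = ρ (P.tor t) (pr z) := by
  obtain ⟨F, y, hy, rfl⟩ := mem_low_iff.1 hz
  rw [map_sum, map_sum, map_sum, map_sum]
  refine Finset.sum_congr rfl fun l hl => ?_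
  rcases lt_or_eq_of_le (Int.lt_add_one_iff.1 (hy l hl).1) with h | h
  · have h3 : y l ∈ P.low ρ c := wt_le_low h (hy l hl).2
    rw [p3 _ h3, map_zero, p3 _ (tor_low h3 t)]
  · rw [p2 l h _ (hy l hl).2, p2 l h _ (tor_wt (hy l hl).2 t)]

private lemma pr_v (hP : P.Ax) {W : Submodule k V} (hW : P.RatOn ρ W)
    (p3 : ∀ y ∈ P.low ρ c, pr y = 0) {z : V} (hz : z ∈ W)
    (hz' : z ∈ P.low ρ (c + 1)) (b : Fin P.N → k) : pr (ρ (P.v b)⁻¹ z) = pr z := by
  obtain ⟨F, y, hy, rfl⟩ := mem_low_iff.1 hz'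
  have h1 := wt_comp (ρ := ρ) hP (fun t y hy => hW.stable (P.tor t) y hy)
    (fun l hl => (hy l hl).2) hz
  rw [map_sum, map_sum, map_sum]
  refine Finset.sum_congr rfl fun l hl => ?_
  have h2 := hW.v_inv_sub hP (h1 l hl) (hy l hl).2 b
  have h3 := p3 _ (low_mono (ρ := ρ) (Int.lt_add_one_iff.1 (hy l hl).1) h2)
  rw [map_sub] at h3
  exact sub_eq_zero.1 h3

end pr

/-- top weight vectors are invariant -/
private lemma top_xp (hP : P.Ax) {W : Submodule k V} (hW : P.RatOn ρ W) {c : ℤ} {l : X}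
    (hl : P.h l = c) {z : V} (hz : z ∈ P.cut ρ W (c + 1)) (hz' : z ∈ P.wt ρ l) (i : Fin P.N)
    (s : k) : ρ (P.xp i s) z = z := by
  have hf := hW.pol_xp hz.1 i
  have hg := Pol.const (k := k) (-z)
  have h1 : ρ (P.xp i s) z + -z ∈ (⊥ : Submodule k V) := by
    refine mem_of_cf ⊥ (Pol.add hf hg) (fun n => ?_) s
    rw [cf_add hf hg, cf_const, Submodule.mem_bot]
    rcases Nat.eq_zero_or_pos n with hn | hn
    · subst hn
      rw [if_pos rfl, cf_zero hf, xp_zero, map_one, Module.End.one_apply, add_neg_cancel]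
    · rw [if_neg hn.ne', add_zero]
      refine wt_low hP (cf_xp_wt hP hz' hf n) (cf_mem _ hf (fun s => hz.2 _) n) ?_
      rw [map_add, map_nsmul, hl]
      have := nsmul_pos (hP.h_pos i) hn.ne'
      omega
  rw [Submodule.mem_bot] at h1
  exact add_neg_eq_zero.1 h1

private lemma top_u (hP : P.Ax) {W : Submodule k V} (hW : P.RatOn ρ W) {c : ℤ} {z : V}
    (hz : z ∈ P.cut ρ W (c + 1)) (hz' : z ∈ P.lev ρ c) (b : Fin P.N → k) :
    ρ (P.u b) z = z := by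
  have hst : Stable ρ (P.cut ρ W (c + 1)) := fun g y hy =>
    ⟨hW.stable g y hy.1, fun g' => by rw [← mul_app]; exact hy.2 _⟩
  obtain ⟨F, y, hy, rfl⟩ := mem_lev hz'
  have h1 := wt_comp (ρ := ρ) hP (fun t y hy => hst (P.tor t) y hy) (fun l hl => (hy l hl).2) hz
  refine u_induct (P := P) (fun g => ρ g (∑ l ∈ F, y l) = ∑ l ∈ F, y l) ?_ ?_ b
  · rw [map_one, Module.End.one_apply]
  · intro i s g hg
    show ρ (P.xp i s * g) _ = _
    rw [mul_app, hg, map_sum]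
    exact Finset.sum_congr rfl fun l hl =>
      top_xp hP hW (hy l hl).1 (h1 l hl) (hy l hl).2 i s

theorem good_ext (hP : P.Ax) {W K : Submodule k V} (hW : P.RatOn ρ W) (hKW : K ≤ W)
    (hK : Stable ρ K) (gK : P.Good ρ K) {D : Submodule k C} (gD : P.Good τ D) (π : V →ₗ[k] C)
    (h1 : ∀ x ∈ W, ∀ g, π (ρ g x) = τ g (π x)) (h2 : ∀ x ∈ W, π x = 0 ↔ x ∈ K)
    (h3 : ∀ x ∈ W, π x ∈ D) (h4 : ∀ y ∈ D, ∃ x ∈ W, π x = y) : P.Good ρ W := by
  intro n m hmW hm x hx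
  obtain ⟨c, hc⟩ : ∃ c, c = P.h n := ⟨_, rfl⟩
  rw [← hc]
  -- the image of `m`
  have hπm : π m ∈ P.hw τ n := by
    refine ⟨wt_map (W := W) π (fun y hy t => h1 y hy _) hmW hm.1, fun b => ?_⟩
    rw [← h1 m hmW, hm.2]
  obtain ⟨d, hd, hd'⟩ := gD n (π m) (h3 m hmW) hπm x hx
  obtain ⟨a₀, ha₀, rfl⟩ := h4 d hd
  rw [← hc] at hd'
  -- lifting of `low`
  have hlift : ∀ y ∈ W, π y ∈ P.low τ c → y ∈ K ⊔ P.low ρ c := by
    intro y hy hy'
    obtain ⟨F, w, hw, rfl⟩ := hW.exists_wt hP hy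
    rw [map_sum] at hy'
    have h5 := low_comp (ρ := τ) hP (fun l hl =>
      wt_map (W := W) π (fun y hy t => h1 y hy _) (hw l hl).2 (hw l hl).1) hy'
    refine sum_mem fun l hl => ?_
    by_cases h0 : π (w l) = 0
    · exact Submodule.mem_sup_left ((h2 _ (hw l hl).2).1 h0)
    · exact Submodule.mem_sup_right (wt_le_low (h5 l hl h0) (hw l hl).1)
  have e1 : ∀ g, ρ g⁻¹ a₀ - x g • m ∈ K ⊔ P.low ρ c := by
    intro g
    refine hlift _ (sub_mem (hW.stable _ _ ha₀) (Submodule.smul_mem _ _ hmW)) ?_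
    rw [map_sub, map_smul, h1 a₀ ha₀]
    exact hd' g
  have hm1 : m ∈ P.low ρ (c + 1) := wt_le_low (by rw [← hc]; exact lt_add_one c) hm.1
  obtain ⟨κ, hκ, hκ'⟩ := lift_cut hP hW hKW hK gK (c + 1) ha₀ (by
    intro g
    have h5 := e1 g⁻¹
    rw [inv_inv] at h5
    have h6 : K ⊔ P.low ρ c ≤ K ⊔ P.low ρ (c + 1) :=
      sup_le_sup_left (low_mono (le_of_lt (lt_add_one c))) K
    have h7 := add_mem (h6 h5) (Submodule.mem_sup_right (S := K)
      (Submodule.smul_mem _ (x g⁻¹) hm1))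
    rwa [sub_add_cancel] at h7)
  obtain ⟨a₁, ha₁⟩ : ∃ a₁, a₁ = a₀ - κ := ⟨_, rfl⟩
  rw [← ha₁] at hκ'
  have e2 : ∀ g, ρ g⁻¹ a₁ - x g • m ∈ K ⊔ P.low ρ c := by
    intro g
    have h5 := sub_mem (e1 g) (Submodule.mem_sup_left (T := P.low ρ c) (hK g⁻¹ κ hκ))
    rw [ha₁, map_sub]
    rwa [sub_right_comm] at h5
  obtain ⟨pr, p1, p2, p3⟩ := exists_pr hP ρ c
  have hprm : pr m = m := p2 n hc.symm m hm.1
  have hst : Stable ρ (P.cut ρ W (c + 1)) := fun g y hy =>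
    ⟨hW.stable g y hy.1, fun g' => by rw [← mul_app]; exact hy.2 _⟩
  have hKt : ∀ t, ∀ y ∈ K, ρ (P.tor t) y ∈ K := fun t y hy => hK (P.tor t) y hy
  have hct : ∀ t, ∀ y ∈ P.cut ρ W (c + 1), ρ (P.tor t) y ∈ P.cut ρ W (c + 1) :=
    fun t y hy => hst (P.tor t) y hy
  have hlow : ∀ g, ρ g⁻¹ a₁ - x g • m ∈ P.low ρ (c + 1) := fun g =>
    sub_mem (hκ'.2 _) (Submodule.smul_mem _ _ hm1)
  -- the leading symbol
  obtain ⟨r, n', x', m', hj, hφ⟩ := lead hP (ρ := ρ) (K := K) c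
    (fun g => pr (ρ g⁻¹ a₁ - x g • m)) (by
      intro g
      obtain ⟨y, hy, z, hz, hyz⟩ := Submodule.mem_sup.1 (e2 g)
      have h5 : y ∈ P.low ρ (c + 1) := by
        have h6 := sub_mem (hlow g) (low_mono (le_of_lt (lt_add_one c)) hz)
        rwa [← hyz, add_sub_cancel_right] at h6
      show pr (ρ g⁻¹ a₁ - x g • m) ∈ K
      rw [← hyz, map_add, p3 z hz, add_zero]
      exact (pr_mem hP p2 p3 hKt hy h5).1) (fun g => p1 _) (by
      intro g b
      show ρ (P.u b) (pr (ρ g⁻¹ a₁ - x g • m)) = pr (ρ g⁻¹ a₁ - x g • m)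
      rw [map_sub, map_sub, map_smul, hprm, map_smul, hm.2 b]
      congr 1
      exact top_u hP hW (pr_mem hP p2 p3 hct (hst g⁻¹ _ hκ') (hκ'.2 _)).1 (p1 _) b) (by
      intro g t b
      show pr (ρ (g * (P.tor t * P.v b))⁻¹ a₁ - x (g * (P.tor t * P.v b)) • m) =
        ρ (P.tor t)⁻¹ (pr (ρ g⁻¹ a₁ - x g • m))
      have h5 : (g * (P.tor t * P.v b))⁻¹ = (P.v b)⁻¹ * ((P.tor t)⁻¹ * g⁻¹) := by
        rw [mul_inv_rev, mul_inv_rev, mul_assoc]
      have h6 := hst ((P.tor t)⁻¹ * g⁻¹) _ hκ'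
      have h7 : ρ (P.tor t)⁻¹ m = (((P.ch n t)⁻¹ : kˣ) : k) • m := by
        rw [← map_inv, hm.1 t⁻¹, map_inv]
      rw [h5, mul_app, hx.1, map_sub, map_sub, map_sub, map_smul, map_smul, map_smul, hprm,
        pr_v hP hW p3 h6.1 (by
          have h8 := h6.2 1
          rwa [map_one, Module.End.one_apply] at h8) b, mul_app, ← map_inv,
        pr_tor p2 p3 (hκ'.2 _), map_inv, h7, smul_smul, mul_comm (x g)]) (by
      intro g
      have h5 : (fun b => pr (ρ (g * P.u b)⁻¹ a₁ - x (g * P.u b) • m)) =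
          fun b => pr (ρ (P.u b)⁻¹ (ρ g⁻¹ a₁)) + (-1 : k) • (x (g * P.u b) • m) := by
        funext b
        rw [map_sub, map_smul, hprm, mul_inv_rev, mul_app, neg_one_smul, sub_eq_add_neg]
      rw [h5]
      exact PolyMap.add (PolyMap.map (hW.pu_inv hP (hW.stable _ _ hκ'.1)) pr)
        (PolyMap.smul (PolyMap.smul' (hx.2 g) (PolyMap.const m)) _)) (by
      obtain ⟨F, hF1, hF2, hF3, hF4⟩ := hW.fin a₁ hκ'.1
      refine ⟨(F ⊔ Submodule.span k {m}).map pr, ?_, fun g => ?_⟩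
      · have : FiniteDimensional k (Submodule.span k ({m} : Set V)) :=
          FiniteDimensional.span_singleton k m
        infer_instance
      · exact Submodule.mem_map_of_mem (sub_mem (Submodule.mem_sup_left (hF4 _ _ hF1))
          (Submodule.mem_sup_right (Submodule.smul_mem _ _ (Submodule.mem_span_singleton_self m)))))
  have hκj : ∀ j, ∃ y ∈ K, ∀ g, ρ g⁻¹ y - x' j g • m' j ∈ P.low ρ c := by
    intro j
    obtain ⟨q1, q2, q3, q4⟩ := hj j
    obtain ⟨y, hy, hy'⟩ := gK (n' j) (m' j) q3 q4 (x' j) q2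
    rw [q1] at hy'
    exact ⟨y, hy, hy'⟩
  choose y hy hy' using hκj
  refine ⟨a₁ - ∑ j, y j, sub_mem hκ'.1 (sum_mem fun j _ => hKW (hy j)), fun g => ?_⟩
  have h5 := (pr_mem hP p2 p3 (K' := W) (fun t y hy => hW.stable (P.tor t) y hy)
    (sub_mem (hW.stable g⁻¹ _ hκ'.1) (Submodule.smul_mem _ (x g) hmW)) (hlow g)).2
  have h6 : ∑ j, (ρ g⁻¹ (y j) - x' j g • m' j) ∈ P.low ρ c := sum_mem fun j _ => hy' j g
  have h7 := sub_mem h5 h6
  have h8 := hφ g
  beta_reduce at h8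
  rw [h8, Finset.sum_sub_distrib] at h7
  rw [map_sub, map_sum]
  convert h7 using 1
  abel

/-- Transport by injective equivariant maps. -/
theorem good_map (hP : P.Ax) {W : Submodule k V} (hW : P.RatOn ρ W) {D : Submodule k C}
    (gD : P.Good τ D) (π : V →ₗ[k] C) (h1 : ∀ x ∈ W, ∀ g, π (ρ g x) = τ g (π x))
    (h2 : ∀ x ∈ W, π x = 0 → x = 0) (h3 : ∀ x ∈ W, π x ∈ D) (h4 : ∀ y ∈ D, ∃ x ∈ W, π x = y) :
    P.Good ρ W := by
  refine good_ext hP hW (K := ⊥) bot_le ?_ ?_ gD π h1 ?_ h3 h4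
  · intro g y hy
    rw [(Submodule.mem_bot k).1 hy, map_zero]
    exact zero_mem _
  · intro n m hm _ x _
    refine ⟨0, zero_mem _, fun g => ?_⟩
    rw [(Submodule.mem_bot k).1 hm, map_zero, smul_zero, sub_zero]
    exact zero_mem _
  · intro x hx
    rw [Submodule.mem_bot]
    exact ⟨h2 x hx, fun h => by rw [h, map_zero]⟩

end PinData

end Pool.Agent.DM
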