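import Pool.Agent.DM.IndC

/-!
# DM, module GLead: leading symbols and lifting

`ρ` on `V`, `W ⊆ V` rational, `K ⊆ W` stable.

`lead`: let `φ : G → V` be a function with values in `K`, `φ(g)` a sum of weight vectors of height
`c`, `U`-invariant, `φ(g (tor t * v b)) = ρ(tor t)⁻¹ φ(g)`, polynomial along all `g U`.  Then
`φ = ∑ x_j m_j` with `m_j ∈ K ∩ hw n_j`, `h n_j = c`, `x_j ∈ Ind n_j`.
Proof: let `S` be the span of the values of `φ`; it is finite dimensional: by hypothesis (`hfin`) the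
values lie in a finite dimensional space.  `S ⊆ K` is `T`-stable (`ρ(t) φ(g) = φ(g t⁻¹)`), consists
of `U`-invariants, so it has a basis `m_j` of weight vectors (`wt_comp`: components of values lie
in `S`), of weights `n_j`, `h n_j = c`.  The coordinates `x_j(g)` of `φ(g)` are linear functions of
`φ(g)`, so polynomial along `g U` (`PolyMap.map` with an extension of the coordinate functional to
`V`), and `x_j(g (tor t * v b)) = ch(n_j)(t)⁻¹ x_j(g)`.

`lift_cut`: `K` good, `a ∈ W`, `ρ(g) a ∈ K + low c` for all `g` (i.e. the class of `a` in `W/K` has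
only small weights).  Then there is `κ ∈ K` with `a - κ ∈ cut W c`.
Proof: `a ∈ cut W d` for large `d` (`hW.fin`, finitely many weights).  It suffices: if `d ≥ c` and
`a ∈ cut W (d+1)`, then there is `κ ∈ K` with `a - κ ∈ cut W d` (and `a - κ` satisfies the
hypothesis again).  Let `φ(g)` be the component of `ρ(g⁻¹) a` of height `d` (the sum of the weight
components with `h = d`).  All weights of `ρ(g⁻¹) a ∈ cut W (d+1)` have height `≤ d`, and
`ρ(g⁻¹) a ∈ K + low c ⊆ K + low d`, so `φ(g) ∈ K` (`wt_comp` in `V/K`, or: `K` is `T`-stable,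
subtract the element of `low d`).  `φ(g) ∈ cut W (d+1)`, so `ρ(u) φ(g) - φ(g)`, a sum of weight
vectors of height `> d` (`cf_xp_wt`), vanishes.
`φ(g (tor t * v b))` is the height `d` component of `ρ(v b)⁻¹ ρ(t)⁻¹ ρ(g⁻¹) a`, which is
`ρ(t)⁻¹ φ(g)` by `v_inv_sub`, `v_inv_low`.  Polynomial along `g U`: `pu_inv`.  So `lead` applies, and
as `K` is good there is `κ ∈ K` with `ρ(g⁻¹) κ - φ(g) ∈ low d` for all `g` (add up the elements for
the `x_j m_j`), hence `ρ(g⁻¹)(a - κ) ∈ low d`.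
-/

set_option autoImplicit false

namespace Pool.Agent.DM

open MvPolynomial

variable {k : Type*} [Field k] [Infinite k] {G : Type*} [Group G] {T : Type*} [CommGroup T]
  {X : Type*} [AddCommGroup X] {P : PinData k G T X}
  {V : Type*} [AddCommGroup V] [Module k V] {ρ : Representation k G V}

namespace PinData

/-- the sum of the weight spaces of height `c` -/
def lev (P : PinData k G T X) (ρ : Representation k G V) (c : ℤ) : Submodule k V :=
  ⨆ (l : X) (_ : P.h l = c), P.wt ρ l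

omit [Infinite k] in
private theorem gl_mem_lev {c : ℤ} {x : V} : x ∈ P.lev ρ c ↔ ∃ (F : Finset X) (y : X → V),
    (∀ l ∈ F, P.h l = c ∧ y l ∈ P.wt ρ l) ∧ x = ∑ l ∈ F, y l := by
  constructor
  · intro hx
    unfold lev at hx
    obtain ⟨f, hf, hs⟩ := (Submodule.mem_iSup_iff_exists_finsupp _ _).1 hx
    refine ⟨f.support, f, fun l hl => ?_, hs.symm⟩
    have hl0 : f l ≠ 0 := Finsupp.mem_support_iff.1 hl
    have h1 := hf l
    by_cases hc : P.h l = c
    · rw [iSup_pos hc] at h1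
      exact ⟨hc, h1⟩
    · rw [iSup_neg hc] at h1
      exact absurd ((Submodule.mem_bot k).1 h1) hl0
  · rintro ⟨F, y, hy, rfl⟩
    refine Submodule.sum_mem _ fun l hl => ?_
    exact Submodule.mem_iSup_of_mem l (Submodule.mem_iSup_of_mem (hy l hl).1 (hy l hl).2)

omit [Infinite k] in
private theorem gl_app (g g' : G) (x : V) : ρ (g * g') x = ρ g (ρ g' x) := by
  rw [map_mul]; rfl

omit [Infinite k] in
/-- components of height `d` of an element of a `T`-stable subspace -/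
private theorem gl_comp (hP : P.Ax) {K : Submodule k V} (hK : ∀ t, ∀ y ∈ K, ρ (P.tor t) y ∈ K)
    {d : ℤ} {F : Finset X} {y : X → V} (hy : ∀ l ∈ F, P.h l = d ∧ y l ∈ P.wt ρ l) {w : V}
    (hw : w ∈ P.low ρ d) (h : (∑ l ∈ F, y l) + w ∈ K) : ∀ l ∈ F, y l ∈ K := by
  classical
  obtain ⟨F', y', hy', rfl⟩ := mem_low_iff.1 hw
  have hdis : Disjoint F F' := by
    rw [Finset.disjoint_left]
    intro l hl hl'
    have h1 := (hy l hl).1
    have h2 := (hy' l hl').1
    omega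
  have h1 : ∑ l ∈ F ∪ F', (if l ∈ F then y l else y' l) = (∑ l ∈ F, y l) + ∑ l ∈ F', y' l := by
    rw [Finset.sum_union hdis]
    congr 1
    · exact Finset.sum_congr rfl fun l hl => if_pos hl
    · exact Finset.sum_congr rfl fun l hl => if_neg fun hl' => Finset.disjoint_left.1 hdis hl' hl
  have h2 := wt_comp (ρ := ρ) hP hK (F := F ∪ F') (x := fun l => if l ∈ F then y l else y' l) (by
    intro l hl
    by_cases hl' : l ∈ F
    · simp only [if_pos hl']
      exact (hy l hl').2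
    · simp only [if_neg hl']
      exact (hy' l ((Finset.mem_union.1 hl).resolve_left hl')).2) (by rw [h1]; exact h)
  intro l hl
  have h3 := h2 l (Finset.mem_union_left _ hl)
  simp only [if_pos hl] at h3
  exact h3

omit [Infinite k] in
private theorem gl_lev_mem (hP : P.Ax) {K : Submodule k V} (hK : ∀ t, ∀ y ∈ K, ρ (P.tor t) y ∈ K)
    {d : ℤ} {z w : V} (hz : z ∈ P.lev ρ d) (hw : w ∈ P.low ρ d) (h : z + w ∈ K) : z ∈ K := by
  obtain ⟨F, y, hy, rfl⟩ := gl_mem_lev.1 hz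
  exact Submodule.sum_mem _ (gl_comp hP hK hy hw h)

omit [Infinite k] in
private theorem gl_lev_low (hP : P.Ax) {d : ℤ} {z : V} (hz : z ∈ P.lev ρ d)
    (hz' : z ∈ P.low ρ d) : z = 0 := by
  have h1 := gl_lev_mem (ρ := ρ) hP (K := ⊥) (fun t y hy => by
    rw [(Submodule.mem_bot k).1 hy, map_zero]
    exact zero_mem _) hz (neg_mem hz') (by rw [add_neg_cancel]; exact zero_mem _)
  exact (Submodule.mem_bot k).1 h1

omit [Infinite k] in
private theorem gl_split {d : ℤ} {x : V} (hx : x ∈ P.low ρ (d + 1)) :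
    ∃ z ∈ P.lev ρ d, x - z ∈ P.low ρ d := by
  classical
  obtain ⟨F, y, hy, rfl⟩ := mem_low_iff.1 hx
  refine ⟨∑ l ∈ F with P.h l = d, y l, gl_mem_lev.2 ⟨_, y, fun l hl => ?_, rfl⟩, ?_⟩
  · obtain ⟨h1, h2⟩ := Finset.mem_filter.1 hl
    exact ⟨h2, (hy l h1).2⟩
  · rw [← Finset.sum_filter_add_sum_filter_not F (fun l => P.h l = d) y, add_sub_cancel_left]
    refine mem_low_iff.2 ⟨_, y, fun l hl => ?_, rfl⟩
    obtain ⟨h1, h2⟩ := Finset.mem_filter.1 hl
    have h3 := (hy l h1).1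
    exact ⟨by omega, (hy l h1).2⟩

omit [Infinite k] in
/-- the projection to the part of height `d` -/
private theorem gl_proj (hP : P.Ax) (ρ : Representation k G V) (d : ℤ) :
    ∃ pr : V →ₗ[k] V, (∀ z ∈ P.lev ρ d, pr z = z) ∧ ∀ y ∈ P.low ρ d, pr y = 0 := by
  set f : P.lev ρ d →ₗ[k] (V ⧸ P.low ρ d) := (P.low ρ d).mkQ ∘ₗ (P.lev ρ d).subtype with hf
  have hinj : LinearMap.ker f = ⊥ := by
    rw [LinearMap.ker_eq_bot']
    intro z hz
    have h1 : (z : V) ∈ P.low ρ d := by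
      rw [← Submodule.Quotient.mk_eq_zero]
      exact hz
    exact Subtype.ext (gl_lev_low hP z.2 h1)
  obtain ⟨L, hL⟩ := LinearMap.exists_leftInverse_of_injective f hinj
  refine ⟨(P.lev ρ d).subtype ∘ₗ L ∘ₗ (P.low ρ d).mkQ, fun z hz => ?_, fun y hy => ?_⟩
  · have h1 := DFunLike.congr_fun hL ⟨z, hz⟩
    exact congrArg Subtype.val h1
  · have h1 : (P.low ρ d).mkQ y = 0 := by
      rw [Submodule.mkQ_apply, Submodule.Quotient.mk_eq_zero]
      exact hy
    rw [LinearMap.comp_apply, LinearMap.comp_apply, h1, map_zero, map_zero]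

private theorem gl_fix_xp (hP : P.Ax) {W : Submodule k V} (hW : P.RatOn ρ W) {z : V} (hz : z ∈ W)
    {l : X} (hl : z ∈ P.wt ρ l) (hlow : ∀ g, ρ g z ∈ P.low ρ (P.h l + 1)) (i : Fin P.N) (s : k) :
    ρ (P.xp i s) z = z := by
  have hf := hW.pol_xp hz i
  have hg := Pol.const (k := k) (-z)
  have h1 : ρ (P.xp i s) z + -z ∈ (⊥ : Submodule k V) := by
    refine mem_of_cf ⊥ (Pol.add hf hg) (fun n => ?_) s
    rw [cf_add hf hg, cf_const]
    rcases Nat.eq_zero_or_pos n with hn | hn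
    · subst hn
      rw [if_pos rfl, cf_zero hf, xp_zero, map_one]
      have : (1 : V →ₗ[k] V) z + -z = 0 := by
        rw [Module.End.one_apply, add_neg_cancel]
      rw [this]
      exact zero_mem _
    · rw [if_neg hn.ne', add_zero]
      have h2 := cf_xp_wt hP hl hf n
      have h3 := cf_mem (P.low ρ (P.h l + 1)) hf (fun s => hlow _) n
      have h4 := wt_low hP h2 h3 (by
        rw [map_add, map_nsmul]
        have := nsmul_pos (hP.h_pos i) hn.ne'
        omega)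
      rw [h4]
      exact zero_mem _
  rw [Submodule.mem_bot, ← sub_eq_add_neg] at h1
  exact sub_eq_zero.1 h1

private theorem gl_fix (hP : P.Ax) {W : Submodule k V} (hW : P.RatOn ρ W) {z : V} (hz : z ∈ W)
    {l : X} (hl : z ∈ P.wt ρ l) (hlow : ∀ g, ρ g z ∈ P.low ρ (P.h l + 1)) (b : Fin P.N → k) :
    ρ (P.u b) z = z := by
  refine u_induct (P := P) (fun g => ρ g z = z) ?_ ?_ b
  · simp only [map_one, Module.End.one_apply]
  · intro i s g hg
    show ρ (P.xp i s * g) z = z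
    rw [gl_app, hg, gl_fix_xp hP hW hz hl hlow]

theorem lead (hP : P.Ax) {K : Submodule k V} (c : ℤ) (φ : G → V) (h1 : ∀ g, φ g ∈ K)
    (h2 : ∀ g, φ g ∈ P.lev ρ c) (h3 : ∀ g b, ρ (P.u b) (φ g) = φ g)
    (h4 : ∀ g t b, φ (g * (P.tor t * P.v b)) = ρ (P.tor t)⁻¹ (φ g))
    (h5 : ∀ g, PolyMap fun b => φ (g * P.u b))
    (hfin : ∃ F : Submodule k V, FiniteDimensional k F ∧ ∀ g, φ g ∈ F) :
    ∃ (r : ℕ) (n : Fin r → X) (x : Fin r → G → k) (m : Fin r → V),
      (∀ j, P.h (n j) = c ∧ x j ∈ P.Ind (n j) ∧ m j ∈ K ∧ m j ∈ P.hw ρ (n j)) ∧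
      ∀ g, φ g = ∑ j, x j g • m j := by
  classical
  obtain ⟨F, hF, hφF⟩ := hfin
  -- the span of the values
  obtain ⟨S, hS⟩ : ∃ S : Submodule k V, S = Submodule.span k (Set.range φ) := ⟨_, rfl⟩
  have hφS : ∀ g, φ g ∈ S := fun g => hS ▸ Submodule.subset_span ⟨g, rfl⟩
  have hSF : S ≤ F := by
    rw [hS, Submodule.span_le]
    rintro _ ⟨g, rfl⟩
    exact hφF g
  have hSK : S ≤ K := by
    rw [hS, Submodule.span_le]
    rintro _ ⟨g, rfl⟩
    exact h1 g
  have hST : ∀ t, ∀ y ∈ S, ρ (P.tor t) y ∈ S := by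
    intro t y hy
    rw [hS] at hy
    induction hy using Submodule.span_induction with
    | mem y hy =>
      obtain ⟨g, rfl⟩ := hy
      have h6 := h4 g t⁻¹ 0
      rw [v_zero, mul_one, map_inv, inv_inv] at h6
      rw [← h6]
      exact hφS _
    | zero => rw [map_zero]; exact zero_mem _
    | add x y _ _ hx hy => rw [map_add]; exact add_mem hx hy
    | smul a x _ hx => rw [map_smul]; exact Submodule.smul_mem _ _ hx
  have hSU : ∀ y ∈ S, ∀ b, ρ (P.u b) y = y := by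
    intro y hy b
    rw [hS] at hy
    induction hy using Submodule.span_induction with
    | mem y hy =>
      obtain ⟨g, rfl⟩ := hy
      exact h3 g b
    | zero => rw [map_zero]
    | add x y _ _ hx hy => rw [map_add, hx, hy]
    | smul a x _ hx => rw [map_smul, hx]
  -- weight vectors in `S`
  set B : Set V := {y | y ∈ S ∧ ∃ l, P.h l = c ∧ y ∈ P.wt ρ l} with hB
  have hBS : ∀ g, φ g ∈ Submodule.span k B := by
    intro g
    obtain ⟨F', y, hy, hyg⟩ := gl_mem_lev.1 (h2 g)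
    have h6 := gl_comp (ρ := ρ) hP hST hy (w := 0) (zero_mem _)
      (by rw [add_zero, ← hyg]; exact hφS g)
    rw [hyg]
    exact Submodule.sum_mem _ fun l hl =>
      Submodule.subset_span ⟨h6 l hl, l, (hy l hl).1, (hy l hl).2⟩
  obtain ⟨b, hbB, hspan, hli⟩ := exists_linearIndependent k B
  have hbF : b ⊆ (F : Set V) := fun y hy => hSF (hbB hy).1
  have hbfin : b.Finite := by
    have h6 : LinearIndependent k (fun y : b => (⟨(y : V), hbF y.2⟩ : F)) := by
      refine LinearIndependent.of_comp F.subtype ?_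
      exact hli
    have := h6.finite
    exact Set.toFinite b
  obtain ⟨r, m, hminj, hmb⟩ : ∃ (r : ℕ) (m : Fin r → V), Function.Injective m ∧ Set.range m = b := by
    have : Fintype b := hbfin.fintype
    refine ⟨Fintype.card b, fun j => ((Fintype.equivFin b).symm j : V), ?_, ?_⟩
    · intro i j hij
      exact (Fintype.equivFin b).symm.injective (Subtype.ext hij)
    · ext y
      constructor
      · rintro ⟨j, rfl⟩
        exact ((Fintype.equivFin b).symm j).2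
      · intro hy
        exact ⟨Fintype.equivFin b ⟨y, hy⟩, by simp⟩
  have hmli : LinearIndependent k m := by
    rw [← hmb] at hli
    exact (linearIndepOn_id_range_iff hminj).1 (linearIndependent_subtype_iff.1 hli)
  have hmB : ∀ j, m j ∈ B := fun j => hbB (hmb ▸ ⟨j, rfl⟩)
  choose n hn using fun j => (hmB j).2
  -- coordinates
  set f : (Fin r → k) →ₗ[k] V := Fintype.linearCombination k m with hf
  have hfinj : LinearMap.ker f = ⊥ := by
    rw [LinearMap.ker_eq_bot]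
    exact linearIndependent_iff_injective_fintypeLinearCombination.1 hmli
  obtain ⟨L, hL⟩ := LinearMap.exists_leftInverse_of_injective f hfinj
  have hL' : ∀ a : Fin r → k, L (∑ j, a j • m j) = a := fun a => DFunLike.congr_fun hL a
  have hφr : ∀ g, φ g = ∑ j, L (φ g) j • m j := by
    intro g
    have h6 := hBS g
    rw [← hspan, ← hmb] at h6
    obtain ⟨a, ha⟩ := (Submodule.mem_span_range_iff_exists_fun k).1 h6
    rw [← ha, hL']
  refine ⟨r, n, fun j g => L (φ g) j, m, fun j => ⟨(hn j).1, ⟨fun g t b => ?_, fun g => ?_⟩,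
    hSK (hmB j).1, (hn j).2, hSU _ (hmB j).1⟩, hφr⟩
  · have h6 : φ (g * (P.tor t * P.v b)) =
        ∑ i, ((((P.ch (n i) t)⁻¹ : kˣ) : k) * L (φ g) i) • m i := by
      rw [h4]
      conv_lhs => rw [hφr g]
      rw [map_sum]
      refine Finset.sum_congr rfl fun i _ => ?_
      rw [map_smul, ← map_inv, (hn i).2 t⁻¹, map_inv, smul_smul, mul_comm]
    show L (φ (g * (P.tor t * P.v b))) j = _
    rw [h6, hL']
  · exact (h5 g).map (LinearMap.proj j ∘ₗ L)

omit [Infinite k] in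
private theorem gl_bound {W : Submodule k V} (hW : P.RatOn ρ W) {F : Submodule k V} (hF : F ≤ W)
    (hfin : FiniteDimensional k F) : ∃ d : ℤ, F ≤ P.low ρ d := by
  classical
  have h1 : ∀ x ∈ W, ∃ d : ℤ, x ∈ P.low ρ d := by
    intro x hx
    obtain ⟨F', y, hy, rfl⟩ := mem_iSup_wt (hW.wts hx)
    obtain ⟨d, hd⟩ : ∃ d : ℤ, ∀ l ∈ F', P.h l < d := by
      obtain ⟨M, hM⟩ := (F'.image P.h).bddAbove
      exact ⟨M + 1, fun l hl => by
        have := hM (Finset.mem_coe.2 (Finset.mem_image_of_mem P.h hl))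
        omega⟩
    exact ⟨d, mem_low_iff.2 ⟨F', y, fun l hl => ⟨hd l hl, hy l hl⟩, rfl⟩⟩
  obtain ⟨S, hS⟩ := (Submodule.fg_iff_finiteDimensional F).2 hfin
  choose! D hD using h1
  obtain ⟨M, hM⟩ := (S.image D).bddAbove
  refine ⟨M, ?_⟩
  rw [← hS, Submodule.span_le]
  intro x hx
  have hxW : x ∈ W := hF (hS ▸ Submodule.subset_span hx)
  exact low_mono (hM (Finset.mem_coe.2 (Finset.mem_image_of_mem D hx))) (hD x hxW)

private theorem gl_step (hP : P.Ax) {W K : Submodule k V} (hW : P.RatOn ρ W) (hKW : K ≤ W)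
    (hK : Stable ρ K) (gK : P.Good ρ K) {d : ℤ} {a : V} (ha : a ∈ P.cut ρ W (d + 1))
    (h : ∀ g, ρ g a ∈ K ⊔ P.low ρ d) : ∃ κ ∈ K, a - κ ∈ P.cut ρ W d := by
  obtain ⟨haW, hal⟩ := ha
  obtain ⟨pr, hpr1, hpr2⟩ := gl_proj hP ρ d
  obtain ⟨φ, hφ⟩ : ∃ φ : G → V, ∀ g, φ g = pr (ρ g⁻¹ a) := ⟨_, fun g => rfl⟩
  -- decomposition
  have hdec : ∀ x ∈ P.low ρ (d + 1), pr x ∈ P.lev ρ d ∧ x - pr x ∈ P.low ρ d := by
    intro x hx
    obtain ⟨z, hz, hz'⟩ := gl_split hx
    have h1 : pr x = z := by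
      have h2 := hpr2 _ hz'
      rw [map_sub, hpr1 z hz, sub_eq_zero] at h2
      exact h2
    rw [h1]
    exact ⟨hz, hz'⟩
  have hφ1 : ∀ g, φ g ∈ P.lev ρ d := fun g => by rw [hφ]; exact (hdec _ (hal _)).1
  have hφ2 : ∀ g, ρ g⁻¹ a - φ g ∈ P.low ρ d := fun g => by rw [hφ]; exact (hdec _ (hal _)).2
  have hφK : ∀ g, φ g ∈ K := by
    intro g
    obtain ⟨κ, hκ, y, hy, hκy⟩ := Submodule.mem_sup.1 (h g⁻¹)
    refine gl_lev_mem (ρ := ρ) hP (fun t x hx => hK _ x hx) (hφ1 g)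
      (w := κ - φ g) ?_ (by rw [add_sub_cancel]; exact hκ)
    have h1 : κ - φ g = (ρ g⁻¹ a - φ g) - y := by rw [← hκy]; abel
    rw [h1]
    exact sub_mem (hφ2 g) hy
  have hcutst : ∀ g, ∀ x ∈ P.cut ρ W (d + 1), ρ g x ∈ P.cut ρ W (d + 1) := by
    rintro g x ⟨hx, hx'⟩
    refine ⟨hW.stable g x hx, fun g' => ?_⟩
    rw [← gl_app]
    exact hx' _
  have hxcut : ∀ g, ρ g⁻¹ a ∈ P.cut ρ W (d + 1) := fun g => hcutst _ _ ⟨haW, hal⟩
  have hφU : ∀ g b, ρ (P.u b) (φ g) = φ g := by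
    intro g b
    obtain ⟨F, y, hy, hyg⟩ := gl_mem_lev.1 (hφ1 g)
    have h1 := gl_comp (ρ := ρ) hP (K := P.cut ρ W (d + 1)) (fun t x hx => hcutst _ x hx) hy
      (w := ρ g⁻¹ a - φ g) (hφ2 g) (by rw [← hyg, add_sub_cancel]; exact hxcut g)
    rw [hyg, map_sum]
    refine Finset.sum_congr rfl fun l hl => ?_
    refine gl_fix hP hW (h1 l hl).1 (hy l hl).2 (fun g' => ?_) b
    rw [(hy l hl).1]
    exact (h1 l hl).2 g'
  have hφT : ∀ g t b, φ (g * (P.tor t * P.v b)) = ρ (P.tor t)⁻¹ (φ g) := by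
    intro g t b
    have htz : ρ (P.tor t)⁻¹ (φ g) ∈ P.lev ρ d := by
      obtain ⟨F, y, hy, hyg⟩ := gl_mem_lev.1 (hφ1 g)
      rw [hyg, map_sum]
      refine gl_mem_lev.2 ⟨F, fun l => ρ (P.tor t)⁻¹ (y l), fun l hl => ⟨(hy l hl).1, ?_⟩, rfl⟩
      rw [← map_inv]
      exact tor_wt (hy l hl).2 _
    have htzW : ρ (P.tor t)⁻¹ (φ g) ∈ W := hW.stable _ _ (hKW (hφK g))
    have hty : ρ (P.tor t)⁻¹ (ρ g⁻¹ a - φ g) ∈ P.low ρ d := by
      rw [← map_inv]
      exact tor_low (hφ2 g) _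
    have htyW : ρ (P.tor t)⁻¹ (ρ g⁻¹ a - φ g) ∈ W :=
      hW.stable _ _ (sub_mem (hW.stable _ _ haW) (hKW (hφK g)))
    have h1 : ρ (g * (P.tor t * P.v b))⁻¹ a =
        ρ (P.v b)⁻¹ (ρ (P.tor t)⁻¹ (φ g)) + ρ (P.v b)⁻¹ (ρ (P.tor t)⁻¹ (ρ g⁻¹ a - φ g)) := by
      rw [← map_add, ← map_add, add_sub_cancel, ← gl_app, ← gl_app]
      congr 2
      group
    have h2 : ρ (P.v b)⁻¹ (ρ (P.tor t)⁻¹ (φ g)) - ρ (P.tor t)⁻¹ (φ g) ∈ P.low ρ d := by
      obtain ⟨F, y, hy, hyg⟩ := gl_mem_lev.1 htz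
      have h3 := gl_comp (ρ := ρ) hP (K := W) (fun t x hx => hW.stable _ x hx) hy (w := 0)
        (zero_mem _) (by rw [add_zero, ← hyg]; exact htzW)
      rw [hyg, map_sum, ← Finset.sum_sub_distrib]
      refine Submodule.sum_mem _ fun l hl => ?_
      have h4 := hW.v_inv_sub hP (h3 l hl) (hy l hl).2 b
      rwa [(hy l hl).1] at h4
    have h3 := hW.v_inv_low hP htyW hty b
    rw [hφ, h1, map_add, hpr2 _ h3, add_zero]
    have h4 := hpr2 _ h2
    rw [map_sub, hpr1 _ htz, sub_eq_zero] at h4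
    exact h4
  have hφp : ∀ g, PolyMap fun b => φ (g * P.u b) := by
    intro g
    have h1 := (hW.pu_inv hP (hW.stable g⁻¹ a haW)).map pr
    have h2 : (fun b => φ (g * P.u b)) = fun b => pr (ρ (P.u b)⁻¹ (ρ g⁻¹ a)) := by
      funext b
      rw [hφ, mul_inv_rev, gl_app]
    rw [h2]
    exact h1
  obtain ⟨F, haF, -, hFfin, hFst⟩ := hW.fin a haW
  obtain ⟨r, n, x, m, hj, hφs⟩ := lead (ρ := ρ) hP d φ hφK hφ1 hφU hφT hφp
    ⟨F.map pr, inferInstance, fun g => by
      rw [hφ]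
      exact Submodule.mem_map_of_mem (hFst _ _ haF)⟩
  choose κ hκ hκ' using fun j => gK (n j) (m j) (hj j).2.2.1 (hj j).2.2.2 (x j) (hj j).2.1
  refine ⟨∑ j, κ j, Submodule.sum_mem _ fun j _ => hκ j,
    sub_mem haW (hKW (Submodule.sum_mem _ fun j _ => hκ j)), fun g => ?_⟩
  have h1 : ρ g (∑ j, κ j) - φ g⁻¹ ∈ P.low ρ d := by
    rw [hφs, map_sum, ← Finset.sum_sub_distrib]
    refine Submodule.sum_mem _ fun j _ => ?_
    have h2 := hκ' j g⁻¹
    rwa [inv_inv, (hj j).1] at h2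
  have h2 := hφ2 g⁻¹
  rw [inv_inv] at h2
  have h3 := sub_mem h2 h1
  rwa [sub_sub_sub_cancel_right, ← map_sub] at h3

theorem lift_cut (hP : P.Ax) {W K : Submodule k V} (hW : P.RatOn ρ W) (hKW : K ≤ W)
    (hK : Stable ρ K) (gK : P.Good ρ K) (c : ℤ) {a : V} (ha : a ∈ W)
    (h : ∀ g, ρ g a ∈ K ⊔ P.low ρ c) : ∃ κ ∈ K, a - κ ∈ P.cut ρ W c := by
  -- large heights
  obtain ⟨F, haF, hFW, hFfin, hFst⟩ := hW.fin a ha
  obtain ⟨d, hd⟩ := gl_bound hW hFW hFfin
  obtain ⟨n, hn⟩ : ∃ n : ℕ, d ≤ c + n := ⟨(d - c).toNat, by omega⟩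
  have hcut : a ∈ P.cut ρ W (c + n) := ⟨ha, fun g => low_mono hn (hd (hFst g a haF))⟩
  clear hd hn haF hFst hFfin hFW
  induction n generalizing a with
  | zero =>
    refine ⟨0, zero_mem _, ?_⟩
    rw [sub_zero]
    simpa using hcut
  | succ n ih =>
    obtain ⟨κ₁, hκ₁, hκ₁'⟩ := gl_step hP hW hKW hK gK (d := c + n) (a := a) (by
      have : c + ((n + 1 : ℕ) : ℤ) = c + n + 1 := by push_cast; ring
      rwa [this] at hcut) (fun g => by
        refine (sup_le_sup_left (low_mono ?_) K) (h g)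
        omega)
    obtain ⟨κ₂, hκ₂, hκ₂'⟩ := ih (a := a - κ₁) (sub_mem ha (hKW hκ₁)) (fun g => by
      rw [map_sub]
      exact sub_mem (h g) (Submodule.mem_sup_left (hK g _ hκ₁))) hκ₁'
    refine ⟨κ₁ + κ₂, add_mem hκ₁ hκ₂, ?_⟩
    rw [← sub_sub]
    exact hκ₂'

end PinData

end Pool.Agent.DM
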