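import Pool.Agent.DM.IndC
import Mathlib.RepresentationTheory.Basic

/-!
# DM: representations on induced modules, Steinberg weights (definitions for section 7)
-/

set_option autoImplicit false

namespace Pool.Agent.DM

open MvPolynomial

variable {k : Type*} [Field k] {G : Type*} [Group G] {T : Type*} [CommGroup T]
  {X : Type*} [AddCommGroup X] (P : PinData k G T X)

namespace PinData

lemma Ind_lreg (l : X) (g : G) (f : G → k) (hf : f ∈ P.Ind l) : lreg k G G g f ∈ P.Ind l := by
  refine ⟨fun g' t b => ?_, fun g' => ?_⟩
  · change f (g⁻¹ * (g' * (P.tor t * P.v b))) = _ * f (g⁻¹ * g')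
    rw [← mul_assoc g⁻¹, hf.1]
  · have h := hf.2 (g⁻¹ * g')
    have h2 : (fun c => lreg k G G g f (g' * P.u c)) = fun c => f (g⁻¹ * g' * P.u c) := by
      funext c
      change f (g⁻¹ * (g' * P.u c)) = _
      rw [mul_assoc]
    rw [h2]
    exact h

/-- the representation on the induced module -/
def indRep (l : X) : Representation k G (P.Ind l) where
  toFun g := (lreg k G G g).restrict (P.Ind_lreg l g)
  map_one' := by
    ext f
    simp
  map_mul' g g' := by
    apply LinearMap.ext
    intro f
    apply Subtype.ext
    change lreg k G G (g * g') f = lreg k G G g (lreg k G G g' f)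
    rw [map_mul]
    rfl

lemma indRep_coe (l : X) (g : G) (f : P.Ind l) :
    ((P.indRep l g f : P.Ind l) : G → k) = lreg k G G g f := rfl

/-- The part of the structure of the big cell which also involves the negative unipotent group:
for a polynomial function `Q` on the negative unipotent group, `δ^n Q(b)` (for `g = u t v(b)` in
the big cell, extended by zero) is polynomial along all cosets `g U`; `δ` is the function
`ch(2ρ)(t)⁻¹`. -/
def Ext2 : Prop :=
  ∀ Q : MvPolynomial (Fin P.N) k, ∃ n : ℕ, ∀ g : G, ∃ Q' : MvPolynomial (Fin P.N) k, ∀ c,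
    (∀ a t b, g * P.u c = P.u a * P.tor t * P.v b →
      eval c Q' = (((P.ch P.rho2 t)⁻¹ : kˣ) : k) ^ n * eval b Q) ∧
    (g * P.u c ∉ P.cell → eval c Q' = 0)

/-- the weights `z_n = (1 + p + ⋯ + p^(n-1)) z` -/
def zn (p : ℕ) (z : X) (n : ℕ) : X := (∑ i ∈ Finset.range n, p ^ i) • z

end PinData

end Pool.Agent.DM
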