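import Pool.Agent.DM.GExt
import Pool.Agent.DM.Core
import Pool.Agent.DM.Rep

/-!
# DM, module GTen: tensor products as abstract representations
-/

set_option autoImplicit false

namespace Pool.Agent.DM

open MvPolynomial TensorProduct

variable {k : Type*} [Field k] [IsAlgClosed k] [Infinite k] {G : Type*} [Group G]
  {T : Type*} [CommGroup T] {X : Type*} [AddCommGroup X] {P : PinData k G T X}
  {z : X} {p : ℕ} {V : Type*} [AddCommGroup V] [Module k V] {ρ : Representation k G V}
  {V' : Type*} [AddCommGroup V'] [Module k V'] {ρ' : Representation k G V'}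

section aux

omit [IsAlgClosed k] [Infinite k] in
/-- polynomial maps into tensor products -/
private lemma polyMap_tmul {σ : Type*} {f : (σ → k) → V} {g : (σ → k) → V'}
    (hf : PolyMap f) (hg : PolyMap g) : PolyMap fun c => f c ⊗ₜ[k] g c := by
  obtain ⟨r, Q, w, hw⟩ := hg
  have h1 : (fun c => f c ⊗ₜ[k] g c) = fun c =>
      ∑ j, eval c (Q j) • ((TensorProduct.mk k V V').flip (w j) (f c)) := by
    funext c
    rw [hw, TensorProduct.tmul_sum]
    refine Finset.sum_congr rfl fun j _ => ?_
    rw [TensorProduct.tmul_smul]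
    rfl
  rw [h1]
  exact PolyMap.sum _ fun j _ => (hf.map _).psmul (Q j)

omit [IsAlgClosed k] [Infinite k] in
private lemma tprod_tmul (g : G) (a : V) (b : V') :
    (ρ.tprod ρ') g (a ⊗ₜ[k] b) = ρ g a ⊗ₜ[k] ρ' g b := rfl

/-- the box product as a bilinear map on induced modules -/
private def ibox (A B : Submodule k (G → k)) : A →ₗ[k] B →ₗ[k] (G × G → k) :=
  LinearMap.mk₂ k (fun f f' => box (f : G → k) (f' : G → k))
    (fun f g h => by funext y; simp only [box, Submodule.coe_add, Pi.add_apply]; ring)
    (fun c f h => by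
      funext y; simp only [box, Submodule.coe_smul, Pi.smul_apply, smul_eq_mul]; ring)
    (fun f g h => by funext y; simp only [box, Submodule.coe_add, Pi.add_apply]; ring)
    (fun c f h => by
      funext y; simp only [box, Submodule.coe_smul, Pi.smul_apply, smul_eq_mul]; ring)

end aux

namespace PinData

omit [IsAlgClosed k] [Infinite k] in
/-- stable subspaces of rational modules are rational -/
private lemma rat_sub {W W' : Submodule k V} (h : P.RatOn ρ W) (hW' : W' ≤ W)
    (hs : Stable ρ W') : P.RatOn ρ W' := by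
  refine ⟨hs, fun x hx => ?_, hW'.trans h.wts, fun x hx => h.pu x (hW' hx),
    fun x hx => h.pv x (hW' hx)⟩
  obtain ⟨F, h1, h2, h3, h4⟩ := h.fin x (hW' hx)
  refine ⟨F ⊓ W', ⟨h1, hx⟩, inf_le_right, ?_, fun g y hy => ⟨h4 g y hy.1, hs g y hy.2⟩⟩
  exact Submodule.finiteDimensional_of_le (inf_le_left : F ⊓ W' ≤ F)

/-- `Ind l` as an abstract rational representation (`Ind_rat`). -/
theorem indRep_rat (hP : P.Ax) (l : X) : P.RatOn (P.indRep l) ⊤ := by
  have hR := Ind_rat hP l
  have hfd : FiniteDimensional k (P.Ind l) := Ind_fin hP l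
  have hpoly : ∀ (w : (Fin P.N → k) → G) (x : P.Ind l),
      (PolyMap fun c => lreg k G G (w c) (x : G → k)) → PolyMap fun c => P.indRep l (w c) x := by
    intro w x hx
    obtain ⟨r, Q, v, hv, hQ⟩ := PolyMap.exists_mem (P.Ind l) hx (fun c => P.Ind_lreg l _ _ x.2)
    refine ⟨r, Q, fun j => ⟨v j, hv j⟩, fun c => Subtype.ext ?_⟩
    rw [indRep_coe, hQ c, Submodule.coe_sum]
    rfl
  refine ⟨fun g x _ => Submodule.mem_top,
    fun x _ => ⟨⊤, Submodule.mem_top, le_rfl, inferInstance, fun g x _ => Submodule.mem_top⟩, ?_,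
    fun x _ => hpoly _ x (hR.pu x x.2), fun x _ => hpoly _ x (hR.pv x x.2)⟩
  intro x _
  obtain ⟨F, y, hy, hx⟩ := hR.exists_wt hP x.2
  have h1 : x = ∑ e ∈ F.attach, (⟨y e.1, (hy e.1 e.2).2⟩ : P.Ind l) := by
    apply Subtype.ext
    rw [Submodule.coe_sum, hx]
    exact (Finset.sum_attach F y).symm
  rw [h1]
  refine Submodule.sum_mem _ fun e _ => Submodule.mem_iSup_of_mem e.1 ?_
  intro t
  apply Subtype.ext
  exact (hy e.1 e.2).1 t

/-- Tensor products of rational representations are rational. -/
theorem tprod_rat (hP : P.Ax) (hρ : P.RatOn ρ ⊤) (hρ' : P.RatOn ρ' ⊤) :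
    P.RatOn (ρ.tprod ρ') ⊤ := by
  refine ⟨fun g x _ => Submodule.mem_top, fun x _ => ?_, ?_, fun x _ => ?_, fun x _ => ?_⟩
  · induction x using TensorProduct.induction_on with
    | zero =>
      refine ⟨⊥, zero_mem _, bot_le, inferInstance, fun g x hx => ?_⟩
      rw [Submodule.mem_bot] at hx
      rw [hx, map_zero]
      exact zero_mem _
    | tmul a b =>
      obtain ⟨F, h1, -, h3, h4⟩ := hρ.fin a Submodule.mem_top
      obtain ⟨F', h1', -, h3', h4'⟩ := hρ'.fin b Submodule.mem_top
      refine ⟨Submodule.map₂ (TensorProduct.mk k V V') F F', Submodule.apply_mem_map₂ _ h1 h1',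
        le_top, ?_, fun g x hx => ?_⟩
      · have hA' : F.FG := Submodule.fg_iff_finiteDimensional _ |>.2 h3
        have hB' : F'.FG := Submodule.fg_iff_finiteDimensional _ |>.2 h3'
        exact Submodule.fg_iff_finiteDimensional _ |>.1 (hA'.map₂ _ hB')
      · have h5 : Submodule.map₂ (TensorProduct.mk k V V') F F' ≤
            (Submodule.map₂ (TensorProduct.mk k V V') F F').comap ((ρ.tprod ρ') g) := by
          rw [Submodule.map₂_le]
          intro m hm n hn
          rw [Submodule.mem_comap, TensorProduct.mk_apply, tprod_tmul]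
          exact Submodule.apply_mem_map₂ _ (h4 g m hm) (h4' g n hn)
        exact h5 hx
    | add x y hx hy =>
      obtain ⟨F, h1, -, h3, h4⟩ := hx Submodule.mem_top
      obtain ⟨F', h1', -, h3', h4'⟩ := hy Submodule.mem_top
      refine ⟨F ⊔ F', add_mem (Submodule.mem_sup_left h1) (Submodule.mem_sup_right h1'), le_top,
        inferInstance, fun g x hx => ?_⟩
      obtain ⟨y, hy, z, hz, rfl⟩ := Submodule.mem_sup.1 hx
      rw [map_add]
      exact add_mem (Submodule.mem_sup_left (h4 g y hy)) (Submodule.mem_sup_right (h4' g z hz))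
  · intro x _
    induction x using TensorProduct.induction_on with
    | zero => exact zero_mem _
    | tmul a b =>
      obtain ⟨F, y, hy, rfl⟩ := mem_iSup_wt (hρ.wts (Submodule.mem_top (x := a)))
      obtain ⟨F', y', hy', rfl⟩ := mem_iSup_wt (hρ'.wts (Submodule.mem_top (x := b)))
      rw [TensorProduct.sum_tmul]
      refine Submodule.sum_mem _ fun l hl => ?_
      rw [TensorProduct.tmul_sum]
      refine Submodule.sum_mem _ fun m hm => Submodule.mem_iSup_of_mem (l + m) ?_
      intro t
      rw [tprod_tmul, hy l hl t, hy' m hm t, TensorProduct.smul_tmul_smul, hP.ch_add,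
        Units.val_mul]
    | add x y hx hy => exact add_mem (hx Submodule.mem_top) (hy Submodule.mem_top)
  · induction x using TensorProduct.induction_on with
    | zero =>
      simp only [map_zero]
      exact PolyMap.const 0
    | tmul a b =>
      simp only [tprod_tmul]
      exact polyMap_tmul (hρ.pu a Submodule.mem_top) (hρ'.pu b Submodule.mem_top)
    | add x y hx hy =>
      simp only [map_add]
      exact (hx Submodule.mem_top).add (hy Submodule.mem_top)
  · induction x using TensorProduct.induction_on with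
    | zero =>
      simp only [map_zero]
      exact PolyMap.const 0
    | tmul a b =>
      simp only [tprod_tmul]
      exact polyMap_tmul (hρ.pv a Submodule.mem_top) (hρ'.pv b Submodule.mem_top)
    | add x y hx hy =>
      simp only [map_add]
      exact (hx Submodule.mem_top).add (hy Submodule.mem_top)

/-- `f ⊗ f' ↦ box f f'` is an equivariant isomorphism of `Ind l ⊗ Ind m` onto
`bx (Ind l) (Ind m)` (`box_sum_eq_zero` for injectivity); then `donkin_mathieu` and
`good_map`. -/
theorem ind_tprod_good [Fact p.Prime] [CharP k p] (hP : P.Ax) (hz : P.Stz p z) (l m : X) :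
    P.Good (V := (P.Ind l) ⊗[k] (P.Ind m)) ((P.indRep l).tprod (P.indRep m)) ⊤ := by
  have hfd : FiniteDimensional k (P.Ind l) := Ind_fin hP l
  obtain ⟨π, hπ⟩ : ∃ π : (P.Ind l) ⊗[k] (P.Ind m) →ₗ[k] (G × G → k),
      ∀ f f', π (f ⊗ₜ[k] f') = box (f : G → k) (f' : G → k) :=
    ⟨TensorProduct.lift (ibox (P.Ind l) (P.Ind m)), fun f f' => TensorProduct.lift.tmul f f'⟩
  refine good_map hP (tprod_rat hP (indRep_rat hP l) (indRep_rat hP m))
    (donkin_mathieu hP hz l m) π (fun x _ g => ?_) (fun x _ hx => ?_) (fun x _ => ?_)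
    (fun y hy => ?_)
  · induction x using TensorProduct.induction_on with
    | zero => simp only [map_zero]
    | tmul a b =>
      rw [tprod_tmul, hπ, hπ, lreg_box]
      rfl
    | add x y hx hy =>
      rw [map_add, map_add, map_add, map_add, hx Submodule.mem_top, hy Submodule.mem_top]
  · obtain ⟨n, ⟨e⟩⟩ : ∃ n, Nonempty (Module.Basis (Fin n) k (P.Ind l)) :=
      ⟨_, ⟨Module.finBasis k (P.Ind l)⟩⟩
    have hli : LinearIndependent k (fun j => (e j : G → k)) :=
      e.linearIndependent.map' (P.Ind l).subtype (Submodule.ker_subtype _)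
    obtain ⟨b, hb⟩ := TensorProduct.eq_repr_basis_left e x
    have hb' : x = ∑ i, e i ⊗ₜ[k] b i := by
      rw [← hb, Finsupp.sum_fintype]
      intro i
      exact TensorProduct.tmul_zero _ _
    have h1 : ∑ i, box (e i : G → k) ((b i : P.Ind m) : G → k) = 0 := by
      rw [← hx, hb', map_sum]
      exact Finset.sum_congr rfl fun i _ => (hπ _ _).symm
    have h2 : ∀ i, b i = 0 := fun i => Subtype.ext (box_sum_eq_zero hli h1 i)
    rw [hb']
    refine Finset.sum_eq_zero fun i _ => ?_
    rw [h2 i, TensorProduct.tmul_zero]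
  · induction x using TensorProduct.induction_on with
    | zero =>
      rw [map_zero]
      exact zero_mem _
    | tmul a b =>
      rw [hπ]
      exact box_mem a.2 b.2
    | add x y hx hy =>
      rw [map_add]
      exact add_mem (hx Submodule.mem_top) (hy Submodule.mem_top)
  · have h1 : bx (P.Ind l) (P.Ind m) ≤ LinearMap.range π := by
      refine bx_induct _ fun f hf f' hf' => ?_
      exact ⟨(⟨f, hf⟩ : P.Ind l) ⊗ₜ[k] (⟨f', hf'⟩ : P.Ind m), hπ _ _⟩
    obtain ⟨x, hx⟩ := h1 hy
    exact ⟨x, Submodule.mem_top, hx⟩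

/-- If `V` has a finite filtration with layers `Ind (w j)` then `V ⊗ Ind m` is good.
Proof: let `M_j` be the image of `N_j ⊗ Ind m` in `V ⊗ Ind m` (range of
`LinearMap.rTensor _ (N j).subtype`).  `M_0 = 0` is good, `M_r = ⊤`, and if `M_j` is good so is
`M_(j+1)` by `good_ext` with `K = M_j`, `W = M_(j+1)` (rational: stable subspaces of rational
modules are rational), `D = ⊤` in `Ind (w j) ⊗ Ind m`, and `π` a linear extension to `V ⊗ Ind m` of
the map on `M_(j+1) ≅ N_(j+1) ⊗ Ind m` induced by `π_j` (flatness over a field: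
`Module.Flat.rTensor_preserves_injective_linearMap`; kernel: right exactness
`rTensor_exact`). -/
theorem filt_tprod_good [Fact p.Prime] [CharP k p] (hP : P.Ax) (hz : P.Stz p z)
    (hρ : P.RatOn ρ ⊤) (m : X) (r : ℕ) (w : ℕ → X) (N : ℕ → Submodule k V) (h0 : N 0 = ⊥)
    (hr : N r = ⊤) (hst : ∀ j, Stable ρ (N j))
    (h : ∀ j < r, N j ≤ N (j + 1) ∧ ∃ π : N (j + 1) →ₗ[k] P.Ind (w j),
        Function.Surjective π ∧ (∀ y : N (j + 1), π y = 0 ↔ (y : V) ∈ N j) ∧
        ∀ (g : G) (y y' : N (j + 1)), (y' : V) = ρ g y → π y' = P.indRep (w j) g (π y)) :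
    P.Good (ρ.tprod (P.indRep m)) ⊤ := by
  have hRat : P.RatOn (ρ.tprod (P.indRep m)) ⊤ := tprod_rat hP hρ (indRep_rat hP m)
  obtain ⟨M, hM⟩ : ∃ M : ℕ → Submodule k (V ⊗[k] (P.Ind m)),
      ∀ j, M j = LinearMap.range (LinearMap.rTensor (P.Ind m) (N j).subtype) :=
    ⟨_, fun _ => rfl⟩
  have hmem : ∀ (j : ℕ) (n : V) (_ : n ∈ N j) (i : P.Ind m), n ⊗ₜ[k] i ∈ M j := by
    intro j n hn i
    rw [hM]
    exact ⟨(⟨n, hn⟩ : N j) ⊗ₜ[k] i, rfl⟩
  have hind : ∀ (j : ℕ) (K : Submodule k (V ⊗[k] (P.Ind m))),
      (∀ n ∈ N j, ∀ i : P.Ind m, n ⊗ₜ[k] i ∈ K) → M j ≤ K := by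
    intro j K hK x hx
    rw [hM] at hx
    obtain ⟨y, rfl⟩ := hx
    induction y using TensorProduct.induction_on with
    | zero =>
      rw [map_zero]
      exact zero_mem _
    | tmul a b => exact hK a a.2 b
    | add x y hx hy =>
      rw [map_add]
      exact add_mem hx hy
  have hMst : ∀ j, Stable (ρ.tprod (P.indRep m)) (M j) := by
    intro j g x hx
    have h1 : M j ≤ (M j).comap ((ρ.tprod (P.indRep m)) g) := by
      refine hind j _ fun n hn i => ?_
      rw [Submodule.mem_comap, tprod_tmul]
      exact hmem j _ (hst j g n hn) _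
    exact h1 hx
  have key : ∀ j ≤ r, P.Good (ρ.tprod (P.indRep m)) (M j) := by
    intro j
    induction j with
    | zero =>
      intro _ n x hx _ f _
      have hbot : M 0 ≤ ⊥ := by
        refine hind 0 _ fun n hn i => ?_
        rw [h0, Submodule.mem_bot] at hn
        rw [hn, TensorProduct.zero_tmul]
        exact zero_mem _
      have hx0 : x = 0 := (Submodule.mem_bot k).1 (hbot hx)
      refine ⟨0, zero_mem _, fun g => ?_⟩
      rw [hx0, map_zero, smul_zero, sub_zero]
      exact zero_mem _
    | succ j ih =>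
      intro hj
      have gK := ih (by omega)
      obtain ⟨hle, π₀, hsurj, hker, hequi⟩ := h j (by omega)
      obtain ⟨π₁, hπ₁⟩ := LinearMap.exists_extend π₀
      have hπ₁' : ∀ y : N (j + 1), π₁ y = π₀ y := fun y => by
        rw [← hπ₁]
        rfl
      have hMle : M j ≤ M (j + 1) := hind j _ fun n hn i => hmem (j + 1) n (hle hn) i
      refine good_ext hP (rat_sub hRat le_top (hMst (j + 1))) hMle (hMst j) gK
        (ind_tprod_good hP hz (w j) m) (LinearMap.rTensor (P.Ind m) π₁) ?_ ?_
        (fun _ _ => Submodule.mem_top) ?_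
      · intro x hx g
        have h1 : M (j + 1) ≤ LinearMap.eqLocus
            ((LinearMap.rTensor (P.Ind m) π₁) ∘ₗ ((ρ.tprod (P.indRep m)) g))
            ((((P.indRep (w j)).tprod (P.indRep m)) g) ∘ₗ (LinearMap.rTensor (P.Ind m) π₁)) := by
          refine hind (j + 1) _ fun n hn i => ?_
          rw [LinearMap.mem_eqLocus, LinearMap.comp_apply, LinearMap.comp_apply, tprod_tmul,
            LinearMap.rTensor_tmul, LinearMap.rTensor_tmul, tprod_tmul]
          congr 1
          have h2 := hequi g ⟨n, hn⟩ ⟨ρ g n, hst (j + 1) g n hn⟩ rfl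
          have h3 := hπ₁' ⟨n, hn⟩
          have h4 := hπ₁' ⟨ρ g n, hst (j + 1) g n hn⟩
          rw [← h3, ← h4] at h2
          exact h2
        exact h1 hx
      · intro x hx
        constructor
        · intro hx0
          rw [hM] at hx
          obtain ⟨y, rfl⟩ := hx
          have hex : Function.Exact (Submodule.inclusion hle) π₀ := by
            intro y
            rw [hker]
            constructor
            · intro hy
              exact ⟨⟨y, hy⟩, rfl⟩
            · rintro ⟨y', rfl⟩
              exact y'.2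
          have hex' := rTensor_exact (P.Ind m) hex hsurj
          rw [← LinearMap.rTensor_comp_apply, hπ₁] at hx0
          obtain ⟨y', rfl⟩ := (hex' y).1 hx0
          rw [← LinearMap.rTensor_comp_apply, hM]
          exact ⟨y', rfl⟩
        · intro hx'
          have h1 : M j ≤ LinearMap.ker (LinearMap.rTensor (P.Ind m) π₁) := by
            refine hind j _ fun n hn i => ?_
            have h2 := (hker ⟨n, hle hn⟩).2 hn
            rw [← hπ₁'] at h2
            have h3 : π₁ n = 0 := h2
            rw [LinearMap.mem_ker, LinearMap.rTensor_tmul, h3, TensorProduct.zero_tmul]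
          exact h1 hx'
      · intro y _
        obtain ⟨y', hy'⟩ := LinearMap.rTensor_surjective (P.Ind m) hsurj y
        refine ⟨LinearMap.rTensor (P.Ind m) (N (j + 1)).subtype y', ?_, ?_⟩
        · rw [hM]
          exact ⟨y', rfl⟩
        · rw [← LinearMap.rTensor_comp_apply, hπ₁, hy']
  have htop : M r = ⊤ := by
    rw [eq_top_iff]
    intro x _
    induction x using TensorProduct.induction_on with
    | zero => exact zero_mem _
    | tmul a b => exact hmem r a (by rw [hr]; exact Submodule.mem_top) b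
    | add x y hx hy => exact add_mem (hx Submodule.mem_top) (hy Submodule.mem_top)
  have := key r le_rfl
  rwa [htop] at this

end PinData

end Pool.Agent.DM
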