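import Pool.Agent.DM.SLid

/-!
# DM, module Grp: elementary facts on the group elements `xp, xm, u, v`

`P.u c` is a product over a list `List.ofFn`; useful: `List.prod_ofFn`, `List.ofFn_succ`,
`List.prod_hom`, induction on the list.  For `u_single`, `v_single`: all factors but one are `1`.
-/

set_option autoImplicit false

namespace Pool.Agent.DM

open MvPolynomial

variable {k : Type*} [Field k] {G : Type*} [Group G] {T : Type*} [CommGroup T]
  {X : Type*} [AddCommGroup X] {P : PinData k G T X}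

namespace PinData

lemma xp_zero (i : Fin P.N) : P.xp i 0 = 1 := by
  rw [xp, up_zero, map_one]

lemma xm_zero (i : Fin P.N) : P.xm i 0 = 1 := by
  rw [xm, lo_zero, map_one]

lemma xp_add (i : Fin P.N) (a b : k) : P.xp i a * P.xp i b = P.xp i (a + b) := by
  rw [xp, xp, xp, ← map_mul, up_add]

lemma xm_add (i : Fin P.N) (a b : k) : P.xm i a * P.xm i b = P.xm i (a + b) := by
  rw [xm, xm, xm, ← map_mul, lo_add]

lemma xp_inv (i : Fin P.N) (a : k) : (P.xp i a)⁻¹ = P.xp i (-a) := by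
  rw [xp, xp, ← map_inv, up_inv]

lemma xm_inv (i : Fin P.N) (a : k) : (P.xm i a)⁻¹ = P.xm i (-a) := by
  rw [xm, xm, ← map_inv, lo_inv]

private lemma prod_ofFn_single {G : Type*} [Group G] : ∀ {n : ℕ} (f : Fin n → G) (i : Fin n),
    (∀ j, j ≠ i → f j = 1) → (List.ofFn f).prod = f i
  | 0, _, i, _ => i.elim0
  | n + 1, f, i, h => by
    rw [List.ofFn_succ, List.prod_cons]
    induction i using Fin.cases with
    | zero =>
      have h1 : (List.ofFn fun j : Fin n => f j.succ).prod = 1 := by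
        apply List.prod_eq_one
        intro x hx
        obtain ⟨j, rfl⟩ := (List.mem_ofFn' _ _).1 hx
        exact h _ (Fin.succ_ne_zero j)
      rw [h1, mul_one]
    | succ i =>
      rw [h 0 (Fin.succ_ne_zero i).symm, one_mul]
      refine prod_ofFn_single (fun j : Fin n => f j.succ) i ?_
      intro j hj
      exact h _ (fun hc => hj (Fin.succ_injective _ hc))

private lemma prod_induct {G : Type*} [Group G] (R Q : G → Prop) (h1 : Q 1)
    (hm : ∀ x g, R x → Q g → Q (x * g)) (l : List G) (hl : ∀ x ∈ l, R x) : Q l.prod := by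
  induction l with
  | nil => simpa using h1
  | cons a l ih =>
    rw [List.prod_cons]
    exact hm _ _ (hl a (List.mem_cons_self ..)) (ih fun x hx => hl x (List.mem_cons_of_mem _ hx))

private lemma prod_induct' {G : Type*} [Group G] (R Q : G → Prop) (h1 : Q 1)
    (hm : ∀ x g, R x → Q g → Q (g * x)) (l : List G) (hl : ∀ x ∈ l, R x) : Q l.prod := by
  induction l using List.reverseRecOn with
  | nil => simpa using h1
  | append_singleton l a ih =>
    rw [List.prod_append, List.prod_singleton]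
    exact hm _ _ (hl a (by simp)) (ih fun x hx => hl x (by simp [hx]))

lemma u_zero : P.u 0 = 1 := by
  apply List.prod_eq_one
  intro x hx
  obtain ⟨j, rfl⟩ := (List.mem_ofFn' _ _).1 hx
  exact xp_zero j

lemma v_zero : P.v 0 = 1 := by
  apply List.prod_eq_one
  intro x hx
  obtain ⟨j, rfl⟩ := (List.mem_ofFn' _ _).1 hx
  exact xm_zero j

lemma u_single (i : Fin P.N) (s : k) : P.u (Pi.single i s) = P.xp i s := by
  have h := prod_ofFn_single (fun j => P.xp j ((Pi.single i s : Fin P.N → k) j)) i (by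
    intro j hj
    rw [Pi.single_eq_of_ne hj, xp_zero])
  rw [PinData.u, h, Pi.single_eq_same]

lemma v_single (i : Fin P.N) (s : k) : P.v (Pi.single i s) = P.xm i s := by
  have h := prod_ofFn_single (fun j => P.xm j ((Pi.single i s : Fin P.N → k) j)) i (by
    intro j hj
    rw [Pi.single_eq_of_ne hj, xm_zero])
  rw [PinData.v, h, Pi.single_eq_same]

/-- Induction: a property of group elements which holds for `1` and is preserved by left
multiplication with `xp i s` holds for all `u c`. -/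
lemma u_induct (Q : G → Prop) (h1 : Q 1) (hm : ∀ i s g, Q g → Q (P.xp i s * g))
    (c : Fin P.N → k) : Q (P.u c) := by
  refine prod_induct (fun x => ∃ i s, x = P.xp i s) Q h1 ?_ _ ?_
  · rintro x g ⟨i, s, rfl⟩ hg
    exact hm i s g hg
  · intro x hx
    obtain ⟨j, rfl⟩ := (List.mem_ofFn' _ _).1 hx
    exact ⟨j, c j, rfl⟩

lemma v_induct (Q : G → Prop) (h1 : Q 1) (hm : ∀ i s g, Q g → Q (P.xm i s * g))
    (c : Fin P.N → k) : Q (P.v c) := by
  refine prod_induct (fun x => ∃ i s, x = P.xm i s) Q h1 ?_ _ ?_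
  · rintro x g ⟨i, s, rfl⟩ hg
    exact hm i s g hg
  · intro x hx
    obtain ⟨j, rfl⟩ := (List.mem_ofFn' _ _).1 hx
    exact ⟨j, c j, rfl⟩

/-- the same for right multiplication -/
lemma u_induct' (Q : G → Prop) (h1 : Q 1) (hm : ∀ i s g, Q g → Q (g * P.xp i s))
    (c : Fin P.N → k) : Q (P.u c) := by
  refine prod_induct' (fun x => ∃ i s, x = P.xp i s) Q h1 ?_ _ ?_
  · rintro x g ⟨i, s, rfl⟩ hg
    exact hm i s g hg
  · intro x hx
    obtain ⟨j, rfl⟩ := (List.mem_ofFn' _ _).1 hx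
    exact ⟨j, c j, rfl⟩

lemma v_induct' (Q : G → Prop) (h1 : Q 1) (hm : ∀ i s g, Q g → Q (g * P.xm i s))
    (c : Fin P.N → k) : Q (P.v c) := by
  refine prod_induct' (fun x => ∃ i s, x = P.xm i s) Q h1 ?_ _ ?_
  · rintro x g ⟨i, s, rfl⟩ hg
    exact hm i s g hg
  · intro x hx
    obtain ⟨j, rfl⟩ := (List.mem_ofFn' _ _).1 hx
    exact ⟨j, c j, rfl⟩

lemma tor_u (hP : P.Ax) (t : T) (c : Fin P.N → k) :
    P.tor t * P.u c * (P.tor t)⁻¹ = P.u fun i => ((P.ch (P.rt i) t : kˣ) : k) * c i := by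
  have h1 : P.tor t * P.u c * (P.tor t)⁻¹ = MulAut.conj (P.tor t) (P.u c) := rfl
  rw [h1, PinData.u, map_list_prod, List.map_ofFn, PinData.u]
  congr 2
  funext i
  exact hP.tor_xp i t (c i)

lemma tor_v (hP : P.Ax) (t : T) (c : Fin P.N → k) :
    P.tor t * P.v c * (P.tor t)⁻¹ = P.v fun i => (((P.ch (P.rt i) t)⁻¹ : kˣ) : k) * c i := by
  have h1 : P.tor t * P.v c * (P.tor t)⁻¹ = MulAut.conj (P.tor t) (P.v c) := rfl
  rw [h1, PinData.v, map_list_prod, List.map_ofFn, PinData.v]
  congr 2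
  funext i
  exact hP.tor_xm i t (c i)

lemma u_mem_cell (c : Fin P.N → k) : P.u c ∈ P.cell := by
  refine ⟨c, 1, 0, ?_⟩
  rw [map_one, v_zero, mul_one, mul_one]

lemma ch_zero (hP : P.Ax) (t : T) : P.ch 0 t = 1 := by
  have h := hP.ch_add 0 0 t
  rw [add_zero] at h
  exact left_eq_mul.mp h

lemma ch_neg (hP : P.Ax) (l : X) (t : T) : P.ch (-l) t = (P.ch l t)⁻¹ := by
  have h := hP.ch_add (-l) l t
  rw [neg_add_cancel, ch_zero hP] at h
  exact eq_inv_of_mul_eq_one_left h.symm

lemma ch_nsmul (hP : P.Ax) (n : ℕ) (l : X) (t : T) : P.ch (n • l) t = P.ch l t ^ n := by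
  induction n with
  | zero => rw [zero_smul, ch_zero hP, pow_zero]
  | succ n ih => rw [succ_nsmul, hP.ch_add, ih, pow_succ]

lemma ch_sum (hP : P.Ax) {ι : Type*} (F : Finset ι) (l : ι → X) (t : T) :
    P.ch (∑ i ∈ F, l i) t = ∏ i ∈ F, P.ch (l i) t := by
  classical
  induction F using Finset.induction_on with
  | empty => rw [Finset.sum_empty, Finset.prod_empty, ch_zero hP]
  | insert a s ha ih => rw [Finset.sum_insert ha, Finset.prod_insert ha, hP.ch_add, ih]

/-- in characteristic `p` the group of weights has no `p`-torsion -/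
lemma nsmul_inj (hP : P.Ax) (p : ℕ) [Fact p.Prime] [CharP k p] {l m : X} (h : p • l = p • m) :
    l = m := by
  apply hP.ch_inj
  apply MonoidHom.ext
  intro t
  have h1 : P.ch l t ^ p = P.ch m t ^ p := by
    rw [← ch_nsmul hP, ← ch_nsmul hP, h]
  apply Units.ext
  apply frobenius_inj k p
  rw [frobenius_def, frobenius_def, ← Units.val_pow_eq_pow_val, ← Units.val_pow_eq_pow_val, h1]

/-- The Weyl element `phi i (wy c)` of a positive root is not in the big cell.
Proof: put `w = phi i (wy c)`.  By `tor_xp`, `tor_xm` and `wy_scale`, for `a = ch (rt i) t`: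
`t w t⁻¹ = phi i (wy (c a⁻¹)) = phi i (dg a) w = tor (cr i a) w` (as
`t (x_i(-1/c) x_-i(c) x_i(-1/c)) t⁻¹ = x_i(-a/c) x_-i(c/a) x_i(-a/c)`), so by `wy_dg`
`t w = w (tor (cr i a))⁻¹ t = w t₁`, `t₁ = (cr i a)⁻¹ t`.  If `w = u(α) tor(t₀) v(β)` then
`(t u(α) t⁻¹) (t t₀) v(β) = u(α) (t₀ t₁) (t₁⁻¹ v(β) t₁)` and `cell_inj` gives `t t₀ = t₀ t₁`, so
`cr i a = 1`, so `1 = ch (rt i) (cr i a) = a²` (`ch_cr`, `pair_rt`).  Take `t = cr i z`:
`a = z²`, so `z⁴ = 1` for all `z ∈ kˣ`: impossible as `k` is infinite. -/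
lemma wy_not_mem [Infinite k] (hP : P.Ax) (i : Fin P.N) (c : kˣ) :
    P.phi i (wy c) ∉ P.cell := by
  rintro ⟨α, t₀, β, hw⟩
  have key : ∀ t : T, P.cr i (P.ch (P.rt i) t) = 1 := by
    intro t
    set a := P.ch (P.rt i) t with ha
    have h0 : ∀ d : kˣ, P.phi i (wy d) =
        P.xp i (-((d⁻¹ : kˣ) : k)) * P.xm i (d : k) * P.xp i (-((d⁻¹ : kˣ) : k)) := by
      intro d
      rw [wy, map_mul, map_mul]
      rfl
    have h1 : P.tor t * P.phi i (wy c) * (P.tor t)⁻¹ = P.phi i (wy (c * a⁻¹)) := by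
      have e1 : ((a : kˣ) : k) * -((c⁻¹ : kˣ) : k) = -(((c * a⁻¹)⁻¹ : kˣ) : k) := by
        rw [mul_inv, inv_inv, mul_neg, Units.val_mul, mul_comm]
      have e2 : ((a⁻¹ : kˣ) : k) * (c : k) = ((c * a⁻¹ : kˣ) : k) := by
        rw [Units.val_mul, mul_comm]
      rw [h0, h0]
      have e3 := hP.tor_xp i t (-((c⁻¹ : kˣ) : k))
      have e4 := hP.tor_xm i t (c : k)
      rw [← ha, e1] at e3
      rw [← ha, e2] at e4
      rw [← e3, ← e4]
      group
    have h2 : P.phi i (wy (c * a⁻¹)) = P.tor (P.cr i a) * P.phi i (wy c) := by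
      rw [wy_scale, map_mul, hP.phi_dg]
    have h3 : P.phi i (wy c) * P.tor (P.cr i a⁻¹) = P.tor (P.cr i a) * P.phi i (wy c) := by
      have h4 := congrArg (P.phi i) (wy_dg c a⁻¹)
      rw [map_mul, map_mul, hP.phi_dg, hP.phi_dg, inv_inv] at h4
      exact h4
    have h5 : P.tor t * P.phi i (wy c) = P.phi i (wy c) * P.tor (P.cr i a⁻¹ * t) := by
      have h6 : P.tor t * P.phi i (wy c) = P.phi i (wy (c * a⁻¹)) * P.tor t := by
        rw [← h1, inv_mul_cancel_right]
      rw [h6, h2, ← h3, map_mul, mul_assoc]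
    clear_value a
    generalize ht₁ : P.cr i a⁻¹ * t = t₁ at h5
    have h7 := tor_u hP t α
    have h8 := tor_v hP t₁⁻¹ β
    have h9 : (P.u fun j => ((P.ch (P.rt j) t : kˣ) : k) * α j) * P.tor (t * t₀) * P.v β =
        P.u α * P.tor (t₀ * t₁) *
          P.v fun j => (((P.ch (P.rt j) t₁⁻¹)⁻¹ : kˣ) : k) * β j := by
      rw [← h7, ← h8, map_mul, map_mul P.tor t₀, map_inv P.tor, inv_inv]
      have h10 : P.tor t * (P.u α * P.tor t₀ * P.v β) =
          P.u α * P.tor t₀ * P.v β * P.tor t₁ := by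
        rw [← hw]
        exact h5
      calc P.tor t * P.u α * (P.tor t)⁻¹ * (P.tor t * P.tor t₀) * P.v β
          = P.tor t * (P.u α * P.tor t₀ * P.v β) := by group
        _ = P.u α * P.tor t₀ * P.v β * P.tor t₁ := h10
        _ = _ := by group
    obtain ⟨-, h11, -⟩ := hP.cell_inj _ _ _ _ _ _ h9
    rw [mul_comm t t₀, mul_left_cancel_iff, ← ht₁, map_inv] at h11
    exact inv_eq_one.mp (right_eq_mul.mp h11)
  have key2 : ∀ z : kˣ, z ^ 4 = 1 := by
    intro z
    have h1 := hP.ch_cr i (P.rt i) z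
    rw [hP.pair_rt] at h1
    have h2 := key (P.cr i z)
    rw [h1] at h2
    have h3 := hP.ch_cr i (P.rt i) (z ^ (2 : ℤ))
    rw [h2, map_one, hP.pair_rt] at h3
    rw [← zpow_mul] at h3
    have h4 : z ^ (4 : ℤ) = 1 := by
      rw [h3]
      norm_num
    exact_mod_cast h4
  have h5 : (Polynomial.X ^ 5 : Polynomial k) = Polynomial.X := by
    apply Polynomial.funext
    intro x
    rw [Polynomial.eval_pow, Polynomial.eval_X]
    by_cases hx : x = 0
    · rw [hx]
      norm_num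
    · have h6 := congrArg (fun y : kˣ => (y : k)) (key2 (Units.mk0 x hx))
      simp only [Units.val_pow_eq_pow_val, Units.val_mk0, Units.val_one] at h6
      rw [pow_succ, h6, one_mul]
  have h7 := congrArg Polynomial.natDegree h5
  rw [Polynomial.natDegree_X_pow, Polynomial.natDegree_X] at h7
  omega

end PinData

end Pool.Agent.DM
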