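import Pool.Agent.DM.Pol

/-!
# DM, module PMap: polynomial maps of several variables with values in a vector space

`PolyMap f` (Defs) : `f c = ∑_j P_j(c) v_j`, finite sum.
-/

set_option autoImplicit false

namespace Pool.Agent.DM

open MvPolynomial

variable {k : Type*} [Field k] {σ τ V W : Type*} [AddCommGroup V] [Module k V] [AddCommGroup W]
  [Module k W]

lemma PolyMap.const (x : V) : PolyMap (fun _ : σ → k => x) := by
  exact ⟨1, fun _ => 1, fun _ => x, fun c => by simp⟩

lemma PolyMap.add {f g : (σ → k) → V} (hf : PolyMap f) (hg : PolyMap g) :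
    PolyMap fun c => f c + g c := by
  obtain ⟨r, Q, w, hw⟩ := hf
  obtain ⟨r', Q', w', hw'⟩ := hg
  refine ⟨r + r', Fin.append Q Q', Fin.append w w', fun c => ?_⟩
  beta_reduce
  rw [hw, hw', Fin.sum_univ_add]
  simp

lemma PolyMap.smul {f : (σ → k) → V} (hf : PolyMap f) (a : k) : PolyMap fun c => a • f c := by
  obtain ⟨r, Q, w, hw⟩ := hf
  refine ⟨r, Q, fun j => a • w j, fun c => ?_⟩
  beta_reduce
  rw [hw, Finset.smul_sum]
  exact Finset.sum_congr rfl fun j _ => smul_comm _ _ _

lemma PolyMap.sum {ι : Type*} (F : Finset ι) {f : ι → (σ → k) → V} (h : ∀ i ∈ F, PolyMap (f i)) :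
    PolyMap fun c => ∑ i ∈ F, f i c := by
  classical
  induction F using Finset.induction_on with
  | empty =>
    simp only [Finset.sum_empty]
    exact PolyMap.const 0
  | insert a s ha ih =>
    simp only [Finset.sum_insert ha]
    exact (h a (Finset.mem_insert_self a s)).add
      (ih fun i hi => h i (Finset.mem_insert_of_mem hi))

lemma PolyMap.map {f : (σ → k) → V} (hf : PolyMap f) (L : V →ₗ[k] W) :
    PolyMap fun c => L (f c) := by
  obtain ⟨r, Q, w, hw⟩ := hf
  refine ⟨r, Q, fun j => L (w j), fun c => ?_⟩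
  beta_reduce
  rw [hw, map_sum]
  exact Finset.sum_congr rfl fun j _ => map_smul _ _ _

/-- multiplication with a polynomial -/
lemma PolyMap.psmul {f : (σ → k) → V} (hf : PolyMap f) (Q : MvPolynomial σ k) :
    PolyMap fun c => eval c Q • f c := by
  obtain ⟨r, P, w, hw⟩ := hf
  refine ⟨r, fun j => Q * P j, w, fun c => ?_⟩
  beta_reduce
  rw [hw, Finset.smul_sum]
  exact Finset.sum_congr rfl fun j _ => by rw [map_mul, mul_smul]

/-- substitution of polynomials -/
lemma PolyMap.subst {f : (σ → k) → V} (hf : PolyMap f) (q : σ → MvPolynomial τ k) :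
    PolyMap fun c : τ → k => f fun i => eval c (q i) := by
  obtain ⟨r, P, w, hw⟩ := hf
  refine ⟨r, fun j => bind₁ q (P j), w, fun c => ?_⟩
  beta_reduce
  rw [hw]
  refine Finset.sum_congr rfl fun j _ => ?_
  congr 1
  exact (eval₂Hom_bind₁ (RingHom.id k) c q (P j)).symm

/-- scalar valued polynomial maps -/
lemma polyMap_iff {f : (σ → k) → k} : PolyMap f ↔ ∃ Q : MvPolynomial σ k, ∀ c, f c = eval c Q := by
  constructor
  · rintro ⟨r, P, w, hw⟩
    refine ⟨∑ j, P j * C (w j), fun c => ?_⟩
    rw [hw, map_sum]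
    refine Finset.sum_congr rfl fun j _ => ?_
    rw [map_mul, eval_C, smul_eq_mul]
  · rintro ⟨Q, hQ⟩
    exact ⟨1, fun _ => Q, fun _ => 1, fun c => by simp [hQ]⟩

/-- products, values in a space of functions -/
lemma PolyMap.mul {Y : Type*} {f g : (σ → k) → Y → k} (hf : PolyMap f) (hg : PolyMap g) :
    PolyMap fun c => f c * g c := by
  obtain ⟨r, P, w, hw⟩ := hg
  have h1 : (fun c => f c * g c) = fun c => ∑ j, eval c (P j) • (f c * w j) := by
    funext c
    rw [hw, Finset.mul_sum]
    exact Finset.sum_congr rfl fun j _ => mul_smul_comm _ _ _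
  rw [h1]
  exact PolyMap.sum _ fun j _ => (hf.map (LinearMap.mulRight k (w j))).psmul (P j)

/-- scalar valued products -/
lemma PolyMap.mul' {f g : (σ → k) → k} (hf : PolyMap f) (hg : PolyMap g) :
    PolyMap fun c => f c * g c := by
  obtain ⟨P, hP⟩ := polyMap_iff.1 hf
  obtain ⟨Q, hQ⟩ := polyMap_iff.1 hg
  exact polyMap_iff.2 ⟨P * Q, fun c => by rw [map_mul, hP, hQ]⟩

/-- a scalar polynomial map times a vector valued one -/
lemma PolyMap.smul' {f : (σ → k) → k} {g : (σ → k) → V} (hf : PolyMap f) (hg : PolyMap g) :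
    PolyMap fun c => f c • g c := by
  obtain ⟨P, hP⟩ := polyMap_iff.1 hf
  have h1 : (fun c => f c • g c) = fun c => eval c P • g c := funext fun c => by rw [hP]
  rw [h1]
  exact hg.psmul P

/-- A polynomial map which takes values in the subspace `K` outside the zeros of a nonzero
polynomial takes values in `K` everywhere.  (Pass to the quotient; for `K = 0` apply linear
functionals and `MvPolynomial.funext`, `MvPolynomial` is a domain.) -/
lemma PolyMap.mem_of [Infinite k] (K : Submodule k V) {f : (σ → k) → V} (hf : PolyMap f)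
    (D : MvPolynomial σ k) (hD : D ≠ 0) (h : ∀ c, eval c D ≠ 0 → f c ∈ K) (c : σ → k) :
    f c ∈ K := by
  rw [← Submodule.Quotient.mk_eq_zero K, ← Module.forall_dual_apply_eq_zero_iff k]
  intro ξ
  obtain ⟨Q, hQ⟩ := polyMap_iff.1 (hf.map (ξ ∘ₗ K.mkQ))
  have h1 : D * Q = 0 := by
    apply MvPolynomial.funext
    intro c
    rw [map_mul, map_zero]
    by_cases h0 : eval c D = 0
    · rw [h0, zero_mul]
    · rw [← hQ]
      have h2 : K.mkQ (f c) = 0 := (Submodule.Quotient.mk_eq_zero K).2 (h c h0)
      rw [LinearMap.comp_apply, h2, map_zero, mul_zero]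
  have h2 : Q = 0 := (mul_eq_zero.1 h1).resolve_left hD
  have h3 := hQ c
  rw [h2, map_zero] at h3
  exact h3

/-- Two polynomial maps which agree outside the zeros of a nonzero polynomial are equal. -/
lemma PolyMap.eq_of [Infinite k] {f g : (σ → k) → V} (hf : PolyMap f) (hg : PolyMap g)
    (D : MvPolynomial σ k) (hD : D ≠ 0) (h : ∀ c, eval c D ≠ 0 → f c = g c) (c : σ → k) :
    f c = g c := by
  have h1 : PolyMap fun c => f c + (-1 : k) • g c := hf.add (hg.smul (-1))
  have h2 := h1.mem_of ⊥ D hD (fun c hc => by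
    rw [h c hc, Submodule.mem_bot, neg_smul, one_smul, add_neg_cancel]) c
  rw [Submodule.mem_bot, neg_smul, one_smul, ← sub_eq_add_neg] at h2
  exact sub_eq_zero.1 h2

/-- The vectors in the representation of a polynomial map with values in `K` can be taken from
`K`.  Proof: write `f c = ∑_m c^m v_m` (sum over monomials, `v_m = ∑_j coeff m P_j • v_j`); in the
quotient by `K` the function is zero, so all `v_m` lie in `K` (functionals, `funext`). -/
lemma PolyMap.exists_mem [Infinite k] (K : Submodule k V) {f : (σ → k) → V} (hf : PolyMap f)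
    (h : ∀ c, f c ∈ K) :
    ∃ (r : ℕ) (P : Fin r → MvPolynomial σ k) (v : Fin r → V), (∀ j, v j ∈ K) ∧
      ∀ c, f c = ∑ j, eval c (P j) • v j := by
  obtain ⟨r, P, w, hw⟩ := hf
  obtain ⟨g, hg⟩ := LinearMap.exists_leftInverse_of_injective K.subtype (Submodule.ker_subtype K)
  refine ⟨r, P, fun j => (g (w j) : V), fun j => (g (w j)).2, fun c => ?_⟩
  have h1 : (g (f c) : V) = f c := by
    have h2 := DFunLike.congr_fun hg ⟨f c, h c⟩
    exact congrArg Subtype.val h2
  rw [← h1, hw, map_sum, Submodule.coe_sum]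
  exact Finset.sum_congr rfl fun j _ => by rw [map_smul]; rfl

private lemma eval_curve (q : σ → Polynomial k) (P : MvPolynomial σ k) (s : k) :
    eval (fun i => (q i).eval s) P = (aeval q P : Polynomial k).eval s := by
  induction P using MvPolynomial.induction_on with
  | C a => simp
  | add p q hp hq => rw [map_add, map_add, Polynomial.eval_add, hp, hq]
  | mul_X p i hp => rw [map_mul, map_mul, Polynomial.eval_mul, hp, eval_X, aeval_X]

private lemma curve_rep {f : (σ → k) → V} {r : ℕ} {P : Fin r → MvPolynomial σ k} {v : Fin r → V}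
    (hf : ∀ c, f c = ∑ j, eval c (P j) • v j) (q : σ → Polynomial k) :
    ∃ d : ℕ, 2 ≤ d ∧ ∀ s, (f fun i => (q i).eval s) = ∑ n ∈ Finset.range d,
      s ^ n • ∑ j, (aeval q (P j) : Polynomial k).coeff n • v j := by
  refine ⟨(Finset.univ.sup fun j => (aeval q (P j) : Polynomial k).natDegree) + 2, by omega,
    fun s => ?_⟩
  rw [hf]
  simp only [Finset.smul_sum]
  rw [Finset.sum_comm]
  refine Finset.sum_congr rfl fun j _ => ?_
  have h1 : (aeval q (P j) : Polynomial k).natDegree <
      (Finset.univ.sup fun j => (aeval q (P j) : Polynomial k).natDegree) + 2 := by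
    have := Finset.le_sup (f := fun j => (aeval q (P j) : Polynomial k).natDegree)
      (Finset.mem_univ j)
    omega
  rw [eval_curve, Polynomial.eval_eq_sum_range' h1, Finset.sum_smul]
  refine Finset.sum_congr rfl fun n _ => ?_
  rw [smul_smul, mul_comm]

private lemma coeff_zero_curve (q : σ → Polynomial k) (hq : ∀ i, (q i).coeff 0 = 0)
    (P : MvPolynomial σ k) : (aeval q P : Polynomial k).coeff 0 = constantCoeff P := by
  induction P using MvPolynomial.induction_on with
  | C a => simp
  | add p q hp hq => rw [map_add, map_add, Polynomial.coeff_add, hp, hq]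
  | mul_X p i hp =>
    rw [map_mul, map_mul, Polynomial.mul_coeff_zero, aeval_X, hq, constantCoeff_X, mul_zero,
      mul_zero]

private lemma coeff_one_curve [Fintype σ] [DecidableEq σ] (q : σ → Polynomial k)
    (hq : ∀ i, (q i).coeff 0 = 0) (P : MvPolynomial σ k) :
    (aeval q P : Polynomial k).coeff 1 = ∑ i, (q i).coeff 1 *
      (aeval (fun j => if j = i then (Polynomial.X : Polynomial k) else 0) P).coeff 1 := by
  have hs : ∀ i : σ, ∀ j : σ, ((if j = i then (Polynomial.X : Polynomial k) else 0)).coeff 0 = 0 := by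
    intro i j
    split_ifs
    · exact Polynomial.coeff_X_zero
    · exact Polynomial.coeff_zero 0
  induction P using MvPolynomial.induction_on with
  | C a =>
    simp
  | add p p' hp hp' =>
    simp only [map_add, Polynomial.coeff_add, mul_add, Finset.sum_add_distrib]
    rw [hp, hp']
  | mul_X p n hp =>
    rw [map_mul, Polynomial.mul_coeff_one, aeval_X, hq, mul_zero, add_zero,
      coeff_zero_curve q hq]
    have h1 : ∀ i : σ, (aeval (fun j => if j = i then (Polynomial.X : Polynomial k) else 0)
        (p * MvPolynomial.X n)).coeff 1 = if n = i then constantCoeff p else 0 := by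
      intro i
      rw [map_mul, Polynomial.mul_coeff_one, aeval_X, hs, mul_zero, add_zero,
        coeff_zero_curve _ (hs i)]
      split_ifs with h
      · rw [Polynomial.coeff_X_one, mul_one]
      · rw [Polynomial.coeff_zero, mul_zero]
    simp only [h1, mul_ite, mul_zero]
    rw [Finset.sum_ite_eq Finset.univ n]
    simp [mul_comm]

/-- Polynomial curves: substituting one-variable polynomials gives a function in `Pol`. -/
lemma PolyMap.curve {f : (σ → k) → V} (hf : PolyMap f) (q : σ → Polynomial k) :
    Pol fun s => f fun i => (q i).eval s := by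
  obtain ⟨r, P, w, hw⟩ := hf
  obtain ⟨d, -, hd⟩ := curve_rep hw q
  exact ⟨d, _, hd⟩

/-- Chain rule at the origin: for a polynomial curve `q` with `q(0) = 0` the coefficient of `s` in
`f(q(s))` is `∑_i q_i'(0) ∂_i f`, where `∂_i f` is the coefficient of `s` in `f(s e_i)`.
Proof: by linearity `f c = c^m v`; if `m = 0` both sides are `0`; if `m = e_i` both sides are
`(q i).coeff 1 • v`; if the degree of `m` is at least two both sides are `0` (`s^2` divides
`q(s)^m`, and `(s e_i)^m` is `0` or `s^(deg m)`). -/
lemma PolyMap.chain [Infinite k] [Fintype σ] [DecidableEq σ] {f : (σ → k) → V} (hf : PolyMap f)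
    (q : σ → Polynomial k) (hq : ∀ i, (q i).coeff 0 = 0) :
    cf (fun s => f fun i => (q i).eval s) 1 =
      ∑ i, (q i).coeff 1 • cf (fun s => f (Pi.single i s)) 1 := by
  obtain ⟨r, P, w, hw⟩ := hf
  have key : ∀ q : σ → Polynomial k, cf (fun s => f fun i => (q i).eval s) 1 =
      ∑ j, (aeval q (P j) : Polynomial k).coeff 1 • w j := by
    intro q
    obtain ⟨d, hd2, hd⟩ := curve_rep hw q
    rw [cf_eq hd, if_pos (by omega)]
  have h1 : ∀ i : σ, (fun s : k => f (Pi.single i s)) = fun s => f fun j =>
      ((if j = i then (Polynomial.X : Polynomial k) else 0)).eval s := by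
    intro i
    funext s
    congr 1
    funext j
    by_cases h : j = i
    · subst h
      simp
    · simp [h]
  rw [key]
  have h2 : ∀ i : σ, cf (fun s : k => f (Pi.single i s)) 1 = ∑ j,
      (aeval (fun l => if l = i then (Polynomial.X : Polynomial k) else 0) (P j)).coeff 1 • w j := by
    intro i
    rw [h1, key]
  simp only [h2, Finset.smul_sum]
  rw [Finset.sum_comm]
  refine Finset.sum_congr rfl fun j _ => ?_
  rw [coeff_one_curve q hq, Finset.sum_smul]
  refine Finset.sum_congr rfl fun i _ => ?_
  rw [smul_smul]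

end Pool.Agent.DM
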