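import Pool.Agent.DM.WtMul
import Pool.Agent.DM.PMap

/-!
# DM, module IndA: first properties of the induced modules `P.Ind l`
-/

set_option autoImplicit false
set_option linter.unusedSectionVars false

namespace Pool.Agent.DM

open MvPolynomial

variable {k : Type*} [Field k] [Infinite k] {G : Type*} [Group G] {T : Type*} [CommGroup T]
  {X : Type*} [AddCommGroup X] {P : PinData k G T X}

namespace PinData

/-- Density of the big cell: for every `g` there is a nonzero polynomial `D` such that `D(c) ≠ 0`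
implies `g u(c)` in the cell.  Proof: `hP.delta` gives `δ ∈ Ind(2ρ)`, zero outside the cell; take
`D` with `D(c) = δ(g u(c))` (`polyMap_iff`); it is nonzero because `hP.dense g` gives `c` with
`g u(c) = u(a) t v(b)` in the cell, where `δ` is `ch(2ρ)(t)⁻¹ ≠ 0`. -/
theorem dense_poly (hP : P.Ax) (g : G) :
    ∃ D : MvPolynomial (Fin P.N) k, D ≠ 0 ∧ ∀ c, eval c D ≠ 0 → g * P.u c ∈ P.cell := by
  obtain ⟨f, hf, hf1, hf2⟩ := hP.delta
  obtain ⟨D, hD⟩ := polyMap_iff.1 (hf.2 g)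
  refine ⟨D, ?_, fun c hc => ?_⟩
  · rintro rfl
    obtain ⟨c, a, t, b, hc⟩ := hP.dense g
    have h1 := hD c
    rw [map_zero, hc, mul_assoc, hf.1, hf1, mul_one] at h1
    exact Units.ne_zero _ h1
  · by_contra hcon
    rw [← hD c] at hc
    exact hc (hf2 _ hcon)

/-- Elements of `Ind l` on the cell. -/
theorem Ind_cell {l : X} {f : G → k} (hf : f ∈ P.Ind l) (a : Fin P.N → k) (t : T)
    (b : Fin P.N → k) :
    f (P.u a * P.tor t * P.v b) = (((P.ch l t)⁻¹ : kˣ) : k) * f (P.u a) := by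
  rw [mul_assoc]
  exact hf.1 _ _ _

/-- An element of `Ind l` is determined by its restriction to the positive unipotent group:
for `g` the polynomial maps `c ↦ f(g u(c))`, `c ↦ f'(g u(c))` agree where `D(c) ≠ 0`
(`dense_poly`), take `c = 0`. -/
theorem Ind_ext (hP : P.Ax) {l : X} {f f' : G → k} (hf : f ∈ P.Ind l) (hf' : f' ∈ P.Ind l)
    (h : ∀ c, f (P.u c) = f' (P.u c)) : f = f' := by
  funext g
  obtain ⟨D, hD, hDc⟩ := dense_poly hP g
  have h1 := PolyMap.eq_of (hf.2 g) (hf'.2 g) D hD (fun c hc => by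
    obtain ⟨a, t, b, hc'⟩ := hDc c hc
    rw [hc', Ind_cell hf, Ind_cell hf', h a]) 0
  beta_reduce at h1
  rwa [u_zero, mul_one] at h1

theorem Ind_stable (l : X) : Stable (lreg k G G) (P.Ind l) := by
  intro g f hf
  refine ⟨fun x t b => ?_, fun x => ?_⟩
  · rw [lreg_apply, lreg_apply, smul_eq_mul, smul_eq_mul, ← mul_assoc]
    exact hf.1 _ _ _
  · have h1 : (fun c => lreg k G G g f (x * P.u c)) = fun c => f (g⁻¹ * x * P.u c) := by
      funext c
      rw [lreg_apply, smul_eq_mul, mul_assoc]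
    rw [h1]
    exact hf.2 _

theorem Ind_mul (hP : P.Ax) {l m : X} {f f' : G → k} (hf : f ∈ P.Ind l) (hf' : f' ∈ P.Ind m) :
    f * f' ∈ P.Ind (l + m) := by
  refine ⟨fun g t b => ?_, fun g => ?_⟩
  · rw [Pi.mul_apply, Pi.mul_apply, hf.1, hf'.1, hP.ch_add, mul_inv, Units.val_mul]
    ring
  · exact PolyMap.mul' (hf.2 g) (hf'.2 g)

theorem Ind_one (hP : P.Ax) : (1 : G → k) ∈ P.Ind 0 := by
  refine ⟨fun g t b => ?_, fun g => ?_⟩
  · rw [Pi.one_apply, Pi.one_apply, ch_zero hP, inv_one, Units.val_one, mul_one]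
  · exact PolyMap.const (1 : k)

theorem Ind_pow (hP : P.Ax) {l : X} {f : G → k} (hf : f ∈ P.Ind l) (n : ℕ) :
    f ^ n ∈ P.Ind (n • l) := by
  induction n with
  | zero =>
    rw [pow_zero, zero_smul]
    exact Ind_one hP
  | succ n ih =>
    rw [pow_succ, succ_nsmul]
    exact Ind_mul hP ih hf

/-- The element of `Ind l` which is `1` on the positive unipotent group is unique. -/
theorem IsV.unique (hP : P.Ax) {l : X} {f f' : G → k} (h : P.IsV l f) (h' : P.IsV l f') :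
    f = f' := by
  exact Ind_ext hP h.1 h'.1 fun c => by rw [h.2, h'.2]

theorem IsV.mul (hP : P.Ax) {l m : X} {f f' : G → k} (h : P.IsV l f) (h' : P.IsV m f') :
    P.IsV (l + m) (f * f') := by
  refine ⟨Ind_mul hP h.1 h'.1, fun c => ?_⟩
  rw [Pi.mul_apply, h.2, h'.2, mul_one]

theorem IsV.pow (hP : P.Ax) {l : X} {f : G → k} (h : P.IsV l f) (n : ℕ) :
    P.IsV (n • l) (f ^ n) := by
  refine ⟨Ind_pow hP h.1 n, fun c => ?_⟩
  rw [Pi.pow_apply, h.2, one_pow]

/-- `f(u c) = 1`, in particular `f 1 = 1`. -/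
theorem IsV.one {l : X} {f : G → k} (h : P.IsV l f) : f 1 = 1 := by
  have h1 := h.2 0
  rwa [u_zero] at h1

/-- it is invariant under the positive unipotent group: both sides are in `Ind l` and agree on
`U`, as `(P.u c)⁻¹ * P.u c'` is some `P.u c''` (`hP.u_mul`, `hP.u_inv`) -/
theorem IsV.inv (hP : P.Ax) {l : X} {f : G → k} (h : P.IsV l f) (c : Fin P.N → k) :
    lreg k G G (P.u c) f = f := by
  refine Ind_ext hP (Ind_stable l _ _ h.1) h.1 fun c' => ?_
  obtain ⟨m, hm⟩ := hP.u_inv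
  obtain ⟨m', hm'⟩ := hP.u_mul
  rw [lreg_apply, smul_eq_mul, hm, hm', h.2, h.2]

/-- it has weight `l`: `f(t⁻¹ u(c)) = f((t⁻¹ u(c) t) t⁻¹)` -/
theorem IsV.wt (hP : P.Ax) {l : X} {f : G → k} (h : P.IsV l f) :
    f ∈ P.wt (lreg k G G) l := by
  intro t
  refine Ind_ext hP (Ind_stable l _ _ h.1) (Submodule.smul_mem _ _ h.1) fun c => ?_
  have e1 : (P.tor t)⁻¹ * P.u c = P.tor t⁻¹ * P.u c * (P.tor t⁻¹)⁻¹ * (P.tor t⁻¹ * P.v 0) := by
    rw [v_zero, mul_one, inv_mul_cancel_right, map_inv]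
  rw [lreg_apply, smul_eq_mul, e1, tor_u hP, h.1.1, h.2, Pi.smul_apply, h.2, map_inv, inv_inv,
    smul_eq_mul]

/-- it is nonzero on the cell -/
theorem IsV.ne_zero {l : X} {f : G → k} (h : P.IsV l f) {g : G} (hg : g ∈ P.cell) : f g ≠ 0 := by
  obtain ⟨a, t, b, rfl⟩ := hg
  rw [Ind_cell h.1, h.2, mul_one]
  exact Units.ne_zero _

/-- An element of `Ind l` which is invariant under the positive unipotent group is a multiple of
the highest weight vector, which exists if the element is nonzero. -/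
theorem Ind_inv (hP : P.Ax) {l : X} {f : G → k} (hf : f ∈ P.Ind l)
    (h : ∀ c, lreg k G G (P.u c) f = f) : f = 0 ∨ ∃ v, P.IsV l v ∧ f = f 1 • v := by
  have h1 : ∀ c, f (P.u c) = f 1 := by
    intro c
    have h2 := congrFun (h c) (P.u c)
    rw [lreg_apply, smul_eq_mul, inv_mul_cancel] at h2
    exact h2.symm
  by_cases h0 : f 1 = 0
  · left
    refine Ind_ext hP hf (Submodule.zero_mem _) fun c => ?_
    rw [h1, h0, Pi.zero_apply]
  · right
    refine ⟨(f 1)⁻¹ • f, ⟨Submodule.smul_mem _ _ hf, fun c => ?_⟩, ?_⟩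
    · rw [Pi.smul_apply, h1, smul_eq_mul, inv_mul_cancel₀ h0]
    · rw [smul_smul, mul_inv_cancel₀ h0, one_smul]

/-- Evaluation at `1` kills weight vectors of weight different from `l`:
`f(t⁻¹)` is `ch(l)(t) f(1)` and `ch(e)(t) f(1)`. -/
theorem Ind_eval_one (hP : P.Ax) {l e : X} {f : G → k} (hf : f ∈ P.Ind l)
    (he : f ∈ P.wt (lreg k G G) e) (hne : e ≠ l) : f 1 = 0 := by
  by_contra h0
  apply hne
  apply hP.ch_inj
  apply MonoidHom.ext
  intro t
  have h1 := congrFun (he t) 1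
  have e1 : (P.tor t)⁻¹ * 1 = 1 * (P.tor t⁻¹ * P.v 0) := by
    rw [v_zero, mul_one, mul_one, one_mul, map_inv]
  rw [lreg_apply, smul_eq_mul, e1, hf.1, Pi.smul_apply, smul_eq_mul, map_inv, inv_inv] at h1
  exact Units.ext (mul_right_cancel₀ h0 h1).symm

/-- The restriction of a weight vector to `U` is homogeneous:
`f(u(c)) = f(t⁻¹ (t u(c) t⁻¹) t) = ...`. -/
theorem Ind_homog (hP : P.Ax) {l e : X} {f : G → k} (hf : f ∈ P.Ind l)
    (he : f ∈ P.wt (lreg k G G) e) (t : T) (c : Fin P.N → k) :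
    f (P.u fun i => ((P.ch (P.rt i) t : kˣ) : k) * c i) =
      ((P.ch (l - e) t : kˣ) : k) * f (P.u c) := by
  have e1 : P.tor t * P.u c * (P.tor t)⁻¹ = P.tor t * P.u c * (P.tor t⁻¹ * P.v 0) := by
    rw [v_zero, mul_one, map_inv]
  have e2 : f (P.tor t * P.u c) = (((P.ch e t)⁻¹ : kˣ) : k) * f (P.u c) := by
    have h1 := congrFun (he t⁻¹) (P.u c)
    rw [lreg_apply, smul_eq_mul, Pi.smul_apply, smul_eq_mul, map_inv, map_inv, inv_inv] at h1
    exact h1
  rw [← tor_u hP, e1, hf.1, e2, sub_eq_add_neg, hP.ch_add, ch_neg hP, Units.val_mul, map_inv,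
    inv_inv]
  ring

end PinData

end Pool.Agent.DM
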