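import Pool.Agent.DM.Wt
import Pool.Agent.DM.PMap

/-!
# DM, module Lower: root groups shift weights

`x_i(s)` raises weights by multiples of the root, `x_-i(s)` lowers them, hence elements of the
negative unipotent group change a weight vector only by terms of smaller height.
-/

set_option autoImplicit false

namespace Pool.Agent.DM

open MvPolynomial

variable {k : Type*} [Field k] [Infinite k] {G : Type*} [Group G] {T : Type*} [CommGroup T]
  {X : Type*} [AddCommGroup X] {P : PinData k G T X}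
  {V : Type*} [AddCommGroup V] [Module k V] {ρ : Representation k G V} {W : Submodule k V}

namespace PinData

omit [Infinite k] in
private lemma single_eval {N : ℕ} (i : Fin N) (s : k) :
    (fun j => ((Pi.single i Polynomial.X : Fin N → Polynomial k) j).eval s) = Pi.single i s := by
  funext j
  by_cases h : j = i
  · subst h
    rw [Pi.single_eq_same, Pi.single_eq_same, Polynomial.eval_X]
  · rw [Pi.single_eq_of_ne h, Pi.single_eq_of_ne h, Polynomial.eval_zero]

/-- `PolyMap.curve` with `u_single`. -/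
theorem RatOn.pol_xp (hW : P.RatOn ρ W) {x : V} (hx : x ∈ W) (i : Fin P.N) :
    Pol fun s => ρ (P.xp i s) x := by
  have h := PolyMap.curve (hW.pu x hx) (Pi.single i Polynomial.X)
  simp only [single_eval, u_single] at h
  exact h

theorem RatOn.pol_xm (hW : P.RatOn ρ W) {x : V} (hx : x ∈ W) (i : Fin P.N) :
    Pol fun s => ρ (P.xm i s) x := by
  have h := PolyMap.curve (hW.pv x hx) (Pi.single i Polynomial.X)
  simp only [single_eval, v_single] at h
  exact h

/-- `ρ(t) ρ(x_i(s)) x = ρ(x_i(α_i(t) s)) ρ(t) x`; compare coefficients (`cf_map`, `cf_dil`,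
`cf_smul`). -/
theorem cf_xp_wt (hP : P.Ax) {x : V} {l : X} (hl : x ∈ P.wt ρ l) {i : Fin P.N}
    (hx : Pol fun s => ρ (P.xp i s) x) (n : ℕ) :
    cf (fun s => ρ (P.xp i s) x) n ∈ P.wt ρ (l + n • P.rt i) := by
  intro t
  rw [← cf_map hx (ρ (P.tor t)) n]
  have h1 : (fun s => ρ (P.tor t) (ρ (P.xp i s) x)) =
      fun s => ((P.ch l t : kˣ) : k) • (fun s => ρ (P.xp i s) x)
        (((P.ch (P.rt i) t : kˣ) : k) * s) := by
    funext s
    have h2 : P.tor t * P.xp i s = P.xp i (((P.ch (P.rt i) t : kˣ) : k) * s) * P.tor t := by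
      rw [← hP.tor_xp i t s, inv_mul_cancel_right]
    have h3 : ρ (P.tor t) (ρ (P.xp i s) x) = ρ (P.tor t * P.xp i s) x := by
      rw [map_mul]; rfl
    have h4 : ρ (P.xp i (((P.ch (P.rt i) t : kˣ) : k) * s) * P.tor t) x =
        ρ (P.xp i (((P.ch (P.rt i) t : kˣ) : k) * s)) (ρ (P.tor t) x) := by
      rw [map_mul]; rfl
    rw [h3, h2, h4, hl t, map_smul]
  rw [h1, cf_smul (Pol.dil hx _), cf_dil hx, hP.ch_add, ch_nsmul hP, Units.val_mul,
    Units.val_pow_eq_pow_val, mul_smul]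

theorem cf_xm_wt (hP : P.Ax) {x : V} {l : X} (hl : x ∈ P.wt ρ l) {i : Fin P.N}
    (hx : Pol fun s => ρ (P.xm i s) x) (n : ℕ) :
    cf (fun s => ρ (P.xm i s) x) n ∈ P.wt ρ (l - n • P.rt i) := by
  intro t
  rw [← cf_map hx (ρ (P.tor t)) n]
  have h1 : (fun s => ρ (P.tor t) (ρ (P.xm i s) x)) =
      fun s => ((P.ch l t : kˣ) : k) • (fun s => ρ (P.xm i s) x)
        ((((P.ch (P.rt i) t)⁻¹ : kˣ) : k) * s) := by
    funext s
    have h2 : P.tor t * P.xm i s = P.xm i ((((P.ch (P.rt i) t)⁻¹ : kˣ) : k) * s) * P.tor t := by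
      rw [← hP.tor_xm i t s, inv_mul_cancel_right]
    have h3 : ρ (P.tor t) (ρ (P.xm i s) x) = ρ (P.tor t * P.xm i s) x := by
      rw [map_mul]; rfl
    have h4 : ρ (P.xm i ((((P.ch (P.rt i) t)⁻¹ : kˣ) : k) * s) * P.tor t) x =
        ρ (P.xm i ((((P.ch (P.rt i) t)⁻¹ : kˣ) : k) * s)) (ρ (P.tor t) x) := by
      rw [map_mul]; rfl
    rw [h3, h2, h4, hl t, map_smul]
  rw [h1, cf_smul (Pol.dil hx _), cf_dil hx, sub_eq_add_neg, hP.ch_add, ch_neg hP,
    ch_nsmul hP, ← inv_pow, Units.val_mul, Units.val_pow_eq_pow_val, mul_smul]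

/-- The part of degree `0` is `x`, the others have smaller height (`mem_low`). -/
theorem RatOn.xm_sub (hP : P.Ax) (hW : P.RatOn ρ W) {x : V} (hx : x ∈ W) {l : X}
    (hl : x ∈ P.wt ρ l) (i : Fin P.N) (s : k) : ρ (P.xm i s) x - x ∈ P.low ρ (P.h l) := by
  have hf := hW.pol_xm hx i
  have hg := Pol.const (k := k) (-x)
  rw [sub_eq_add_neg]
  refine mem_of_cf (P.low ρ (P.h l)) (Pol.add hf hg) (fun n => ?_) s
  rw [cf_add hf hg, cf_const]
  rcases Nat.eq_zero_or_pos n with hn | hn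
  · subst hn
    rw [if_pos rfl, cf_zero hf, xm_zero, map_one]
    have : (1 : V →ₗ[k] V) x + -x = 0 := by
      rw [Module.End.one_apply, add_neg_cancel]
    rw [this]
    exact zero_mem _
  · rw [if_neg hn.ne', add_zero]
    refine wt_le_low ?_ (cf_xm_wt hP hl hf n)
    rw [map_sub, map_nsmul, sub_lt_self_iff]
    exact nsmul_pos (hP.h_pos i) hn.ne'

/-- Components of a vector of `W ∩ low c` lie in `W ∩ low c` (`RatOn.exists_wt`, `low_comp`). -/
theorem RatOn.xm_low (hP : P.Ax) (hW : P.RatOn ρ W) {x : V} (hx : x ∈ W) {c : ℤ}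
    (hc : x ∈ P.low ρ c) (i : Fin P.N) (s : k) : ρ (P.xm i s) x ∈ P.low ρ c := by
  obtain ⟨F, y, hy, rfl⟩ := hW.exists_wt hP hx
  have h1 := low_comp hP (fun l hl => (hy l hl).1) hc
  rw [map_sum]
  refine sum_mem fun l hl => ?_
  by_cases h0 : y l = 0
  · rw [h0, map_zero]
    exact zero_mem _
  · have h2 := h1 l hl h0
    have h3 := low_mono (ρ := ρ) h2.le (hW.xm_sub hP (hy l hl).2 (hy l hl).1 i s)
    have h4 := add_mem h3 (wt_le_low h2 (hy l hl).1)
    rwa [sub_add_cancel] at h4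

omit [Infinite k] in
private lemma mul_app (g g' : G) (x : V) : ρ (g * g') x = ρ g (ρ g' x) := by
  rw [map_mul]; rfl

/-- `v_induct`. -/
theorem RatOn.v_sub (hP : P.Ax) (hW : P.RatOn ρ W) {x : V} (hx : x ∈ W) {l : X}
    (hl : x ∈ P.wt ρ l) (c : Fin P.N → k) : ρ (P.v c) x - x ∈ P.low ρ (P.h l) := by
  refine v_induct (P := P) (fun g => ρ g x - x ∈ P.low ρ (P.h l)) ?_ ?_ c
  · simp only [map_one, Module.End.one_apply, sub_self]
    exact zero_mem _
  · intro i s g hg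
    have h1 := hW.xm_low hP (sub_mem (hW.stable g x hx) hx) hg i s
    have h2 := add_mem h1 (hW.xm_sub hP hx hl i s)
    rw [map_sub, sub_add_sub_cancel] at h2
    show ρ (P.xm i s * g) x - x ∈ _
    rw [mul_app]
    exact h2

theorem RatOn.v_low (hP : P.Ax) (hW : P.RatOn ρ W) {x : V} (hx : x ∈ W) {c : ℤ}
    (hc : x ∈ P.low ρ c) (b : Fin P.N → k) : ρ (P.v b) x ∈ P.low ρ c := by
  refine v_induct (P := P) (fun g => ρ g x ∈ P.low ρ c) ?_ ?_ b
  · simp only [map_one, Module.End.one_apply]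
    exact hc
  · intro i s g hg
    show ρ (P.xm i s * g) x ∈ _
    rw [mul_app]
    exact hW.xm_low hP (hW.stable g x hx) hg i s

/-- the same for inverses (induction with `v_induct'`, `(g x_-i(s))⁻¹ = x_-i(-s) g⁻¹`) -/
theorem RatOn.v_inv_sub (hP : P.Ax) (hW : P.RatOn ρ W) {x : V} (hx : x ∈ W) {l : X}
    (hl : x ∈ P.wt ρ l) (c : Fin P.N → k) : ρ (P.v c)⁻¹ x - x ∈ P.low ρ (P.h l) := by
  refine v_induct' (P := P) (fun g => ρ g⁻¹ x - x ∈ P.low ρ (P.h l)) ?_ ?_ c
  · simp only [inv_one, map_one, Module.End.one_apply, sub_self]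
    exact zero_mem _
  · intro i s g hg
    have h1 := hW.xm_low hP (sub_mem (hW.stable g⁻¹ x hx) hx) hg i (-s)
    have h2 := add_mem h1 (hW.xm_sub hP hx hl i (-s))
    rw [map_sub, sub_add_sub_cancel] at h2
    show ρ (g * P.xm i s)⁻¹ x - x ∈ _
    rw [mul_inv_rev, xm_inv, mul_app]
    exact h2

theorem RatOn.v_inv_low (hP : P.Ax) (hW : P.RatOn ρ W) {x : V} (hx : x ∈ W) {c : ℤ}
    (hc : x ∈ P.low ρ c) (b : Fin P.N → k) : ρ (P.v b)⁻¹ x ∈ P.low ρ c := by
  refine v_induct' (P := P) (fun g => ρ g⁻¹ x ∈ P.low ρ c) ?_ ?_ b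
  · simp only [inv_one, map_one, Module.End.one_apply]
    exact hc
  · intro i s g hg
    show ρ (g * P.xm i s)⁻¹ x ∈ _
    rw [mul_inv_rev, xm_inv, mul_app]
    exact hW.xm_low hP (hW.stable g⁻¹ x hx) hg i (-s)

/-- polynomial action of inverses of `u c` (`hP.u_inv`, `PolyMap.subst`) -/
theorem RatOn.pu_inv (hP : P.Ax) (hW : P.RatOn ρ W) {x : V} (hx : x ∈ W) :
    PolyMap fun c => ρ (P.u c)⁻¹ x := by
  obtain ⟨m, hm⟩ := hP.u_inv
  have h := PolyMap.subst (hW.pu x hx) m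
  simp only [hm]
  exact h

end PinData

end Pool.Agent.DM
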