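import Pool.Agent.DM.IndA
import Pool.Agent.DM.Lower

/-!
# DM, module IndB: weights of the induced modules, finite dimension, rationality
-/

set_option autoImplicit false

namespace Pool.Agent.DM

open MvPolynomial

variable {k : Type*} [Field k] [Infinite k] {G : Type*} [Group G] {T : Type*} [CommGroup T]
  {X : Type*} [AddCommGroup X] {P : PinData k G T X}

namespace PinData

/-- substitution of multiples of the variables -/
private noncomputable def dil {σ : Type*} [Fintype σ] (a : σ → k) (Q : MvPolynomial σ k) :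
    MvPolynomial σ k :=
  ∑ B ∈ Q.support, monomial B ((∏ i, a i ^ B i) * coeff B Q)

omit [Infinite k] in
private theorem eval_dil {σ : Type*} [Fintype σ] (a c : σ → k) (Q : MvPolynomial σ k) :
    eval c (dil a Q) = eval (fun i => a i * c i) Q := by
  unfold dil
  rw [map_sum, eval_eq']
  refine Finset.sum_congr rfl fun B _ => ?_
  rw [eval_monomial, Finsupp.prod_fintype _ _ fun i => pow_zero _]
  simp only [mul_pow, Finset.prod_mul_distrib]
  ring

omit [Infinite k] in
private theorem coeff_dil {σ : Type*} [Fintype σ] (a : σ → k) (Q : MvPolynomial σ k)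
    (B : σ →₀ ℕ) : coeff B (dil a Q) = (∏ i, a i ^ B i) * coeff B Q := by
  classical
  unfold dil
  rw [coeff_sum]
  simp only [coeff_monomial]
  rw [Finset.sum_ite_eq' Q.support B]
  split_ifs with h
  · rfl
  · rw [notMem_support_iff.1 h, mul_zero]

/-- A polynomial `Q` with `Q(ch(rt i)(t) c_i) = ch(d)(t) Q(c)` only involves monomials `c^B` with
`∑ B_i rt_i = d`.  (Compare coefficients of `c^B`: `ch(∑ B_i rt_i)(t) coeff B Q = ch(d)(t) coeff B Q`
for all `t`, and `P.ch` is injective.) -/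
theorem homog_coeff (hP : P.Ax) {d : X} {Q : MvPolynomial (Fin P.N) k}
    (h : ∀ (t : T) (c : Fin P.N → k),
      eval (fun i => ((P.ch (P.rt i) t : kˣ) : k) * c i) Q = ((P.ch d t : kˣ) : k) * eval c Q)
    (B : Fin P.N →₀ ℕ) (hB : coeff B Q ≠ 0) : ∑ i, B i • P.rt i = d := by
  have hk : ∀ t : T, (∏ i, ((P.ch (P.rt i) t : kˣ) : k) ^ B i) = ((P.ch d t : kˣ) : k) := by
    intro t
    have h1 : dil (fun i => ((P.ch (P.rt i) t : kˣ) : k)) Q = C ((P.ch d t : kˣ) : k) * Q := by
      apply MvPolynomial.funext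
      intro c
      rw [eval_dil, h t c, map_mul, eval_C]
    have h2 := congrArg (coeff B) h1
    rw [coeff_dil, coeff_C_mul] at h2
    exact mul_right_cancel₀ hB h2
  apply hP.ch_inj
  ext t
  rw [ch_sum hP, Units.coe_prod, ← hk t]
  refine Finset.prod_congr rfl fun i _ => ?_
  rw [ch_nsmul hP, Units.val_pow_eq_pow_val]

omit [Infinite k] in
/-- the polynomial of an element of `Ind l` -/
private theorem Ind_pol {l : X} {f : G → k} (hf : f ∈ P.Ind l) :
    ∃ Q : MvPolynomial (Fin P.N) k, ∀ c, f (P.u c) = eval c Q := by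
  obtain ⟨Q, hQ⟩ := polyMap_iff.1 (hf.2 1)
  exact ⟨Q, fun c => by rw [← hQ c, one_mul]⟩

private theorem Ind_pol_homog (hP : P.Ax) {l e : X} {f : G → k} (hf : f ∈ P.Ind l)
    (he : f ∈ P.wt (lreg k G G) e) {Q : MvPolynomial (Fin P.N) k}
    (hQ : ∀ c, f (P.u c) = eval c Q) (t : T) (c : Fin P.N → k) :
    eval (fun i => ((P.ch (P.rt i) t : kˣ) : k) * c i) Q =
      ((P.ch (l - e) t : kˣ) : k) * eval c Q := by
  rw [← hQ, ← hQ]
  exact Ind_homog hP hf he t c

omit [Infinite k] in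
private theorem h_sum (B : Fin P.N → ℕ) :
    P.h (∑ i, B i • P.rt i) = ∑ i, (B i : ℤ) * P.h (P.rt i) := by
  rw [map_sum]
  refine Finset.sum_congr rfl fun i _ => ?_
  rw [map_nsmul, nsmul_eq_mul]

omit [Infinite k] in
private theorem h_sum_nonneg (hP : P.Ax) (B : Fin P.N → ℕ) :
    0 ≤ ∑ i, (B i : ℤ) * P.h (P.rt i) :=
  Finset.sum_nonneg fun i _ => mul_nonneg (Int.natCast_nonneg _) (hP.h_pos i).le

omit [Infinite k] in
private theorem h_sum_ge (hP : P.Ax) (B : Fin P.N → ℕ) (i : Fin P.N) :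
    (B i : ℤ) ≤ ∑ j, (B j : ℤ) * P.h (P.rt j) := by
  have h1 : (B i : ℤ) * P.h (P.rt i) ≤ ∑ j, (B j : ℤ) * P.h (P.rt j) :=
    Finset.single_le_sum (f := fun j => (B j : ℤ) * P.h (P.rt j))
      (fun j _ => mul_nonneg (Int.natCast_nonneg _) (hP.h_pos j).le) (Finset.mem_univ i)
  refine le_trans ?_ h1
  have h2 := hP.h_pos i
  have h3 : (0 : ℤ) ≤ (B i : ℤ) := Int.natCast_nonneg _
  nlinarith

/-- Weights of `Ind l` are `l` minus sums of positive roots (`Ind_homog`, `homog_coeff`; the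
restriction of `f` to `U` is nonzero by `Ind_ext`). -/
theorem Ind_wt (hP : P.Ax) {l e : X} {f : G → k} (hf : f ∈ P.Ind l)
    (he : f ∈ P.wt (lreg k G G) e) (h0 : f ≠ 0) : ∃ B : Fin P.N → ℕ, ∑ i, B i • P.rt i = l - e := by
  obtain ⟨Q, hQ⟩ := Ind_pol hf
  have hQ0 : Q ≠ 0 := by
    rintro rfl
    apply h0
    refine Ind_ext hP hf (zero_mem _) fun c => ?_
    rw [hQ, map_zero]
    rfl
  obtain ⟨B, hB⟩ := MvPolynomial.ne_zero_iff.1 hQ0
  exact ⟨B, homog_coeff hP (Ind_pol_homog hP hf he hQ) B hB⟩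

/-- hence of height at most `h l`, with equality only for `e = l` -/
theorem Ind_wt_h (hP : P.Ax) {l e : X} {f : G → k} (hf : f ∈ P.Ind l)
    (he : f ∈ P.wt (lreg k G G) e) (h0 : f ≠ 0) (hne : e ≠ l) : P.h e < P.h l := by
  obtain ⟨B, hB⟩ := Ind_wt hP hf he h0
  have h1 := h_sum (P := P) B
  rw [hB, map_sub] at h1
  have h2 := h_sum_nonneg hP B
  rcases eq_or_lt_of_le h2 with h3 | h3
  · exfalso
    apply hne
    have h4 : ∀ i, B i = 0 := by
      intro i
      have h5 := h_sum_ge hP B i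
      omega
    have h6 : l - e = 0 := by
      rw [← hB]
      exact Finset.sum_eq_zero fun i _ => by rw [h4 i, zero_smul]
    exact (sub_eq_zero.1 h6).symm
  · linarith

/-- A weight vector of weight `l` in `Ind l` is a multiple of the highest weight vector: the
restriction to `U` is constant (`homog_coeff` with `d = 0`, `h_pos`). -/
theorem Ind_top (hP : P.Ax) {l : X} {f : G → k} (hf : f ∈ P.Ind l)
    (he : f ∈ P.wt (lreg k G G) l) (c : Fin P.N → k) : f (P.u c) = f 1 := by
  obtain ⟨Q, hQ⟩ := Ind_pol hf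
  have h1 : Q = C (coeff 0 Q) := by
    ext B
    rw [coeff_C]
    split_ifs with hB
    · rw [← hB]
    · by_contra hne
      apply hB
      have h2 := homog_coeff hP (Ind_pol_homog hP hf he hQ) B hne
      rw [sub_self] at h2
      have h3 := h_sum (P := P) B
      rw [h2, map_zero] at h3
      ext i
      have h4 := h_sum_ge hP B i
      rw [Finsupp.coe_zero, Pi.zero_apply]
      omega
  have h5 : f (P.u c) = coeff 0 Q := by
    rw [hQ, h1, eval_C, coeff_C, if_pos rfl]
  have h6 : f 1 = coeff 0 Q := by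
    rw [← u_zero (P := P), hQ, h1, eval_C, coeff_C, if_pos rfl]
  rw [h5, h6]

omit [Infinite k] in
/-- the action of the torus on the restriction to `U` -/
private theorem lreg_tor_u (hP : P.Ax) {l : X} {f : G → k} (hf : f ∈ P.Ind l) (t : T)
    (c : Fin P.N → k) : lreg k G G (P.tor t) f (P.u c) =
      ((P.ch l t : kˣ) : k) * f (P.u fun i => (((P.ch (P.rt i) t)⁻¹ : kˣ) : k) * c i) := by
  rw [lreg_apply, smul_eq_mul, ← map_inv]
  have h1 := tor_u hP t⁻¹ c
  have h2 : P.tor t⁻¹ * P.u c = P.u (fun i => ((P.ch (P.rt i) t⁻¹ : kˣ) : k) * c i) *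
      (P.tor t⁻¹ * P.v 0) := by
    rw [← h1, v_zero, mul_one, inv_mul_cancel_right]
  rw [h2, hf.1]
  simp only [map_inv, inv_inv]

omit [Infinite k] in
/-- Characters are linearly independent: the values at one of them of functions on the finite
set `F` of characters are linear combinations of evaluations. -/
private theorem dual_comb [DecidableEq X] (hP : P.Ax) (F : Finset X) (e : X) :
    ∃ a : T →₀ k, ∀ e' ∈ F, (a.sum fun t s => s * ((P.ch e' t : kˣ) : k)) =
      if e' = e then 1 else 0 := by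
  classical
  obtain ⟨Φ, hΦ⟩ : ∃ Φ : (T →₀ k) →ₗ[k] (F → k), Φ = Finsupp.lsum k fun t =>
      LinearMap.toSpanSingleton k (F → k) (fun e' : F => ((P.ch (e' : X) t : kˣ) : k)) := ⟨_, rfl⟩
  have hΦa : ∀ (a : T →₀ k) (e' : F), Φ a e' = a.sum fun t s => s * ((P.ch (e' : X) t : kˣ) : k) := by
    intro a e'
    rw [hΦ, Finsupp.lsum_apply, Finsupp.sum, Finsupp.sum, Finset.sum_apply]
    rfl
  have htop : LinearMap.range Φ = ⊤ := by
    by_contra hne
    obtain ⟨φ, hφ, hφΦ⟩ := Submodule.exists_le_ker_of_lt_top _ (lt_top_iff_ne_top.2 hne)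
    apply hφ
    have hli := linearIndependent_monoidHom T k
    have hinj : Function.Injective fun e' : F => (Units.coeHom k).comp (P.ch (e' : X)) := by
      intro e₁ e₂ h12
      apply Subtype.ext
      apply hP.ch_inj
      ext t
      exact congrArg (fun g : T →* k => g t) h12
    have hli2 := hli.comp _ hinj
    rw [Fintype.linearIndependent_iff] at hli2
    have hb := hli2 (fun e' => φ (Pi.single e' 1)) (by
      funext t
      have h1 : Φ (Finsupp.single t 1) ∈ LinearMap.ker φ := hφΦ ⟨_, rfl⟩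
      rw [LinearMap.mem_ker] at h1
      have h2 : Φ (Finsupp.single t 1) = ∑ e' : F, ((P.ch (e' : X) t : kˣ) : k) •
          (Pi.single e' (1 : k) : F → k) := by
        funext e'
        rw [hΦa, Finsupp.sum_single_index (by rw [zero_mul]), one_mul, Finset.sum_apply]
        simp only [Pi.smul_apply, Pi.single_apply, smul_eq_mul, mul_ite, mul_one, mul_zero]
        rw [Finset.sum_ite_eq Finset.univ e', if_pos (Finset.mem_univ _)]
      rw [h2, map_sum] at h1
      rw [Finset.sum_apply, Pi.zero_apply, ← h1]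
      refine Finset.sum_congr rfl fun e' _ => ?_
      rw [map_smul, smul_eq_mul, mul_comm]
      rfl)
    refine LinearMap.pi_ext' fun e' => ?_
    ext
    simpa using hb e'
  have h1 : (fun e' : F => if (e' : X) = e then (1 : k) else 0) ∈ LinearMap.range Φ := by
    rw [htop]
    exact Submodule.mem_top
  obtain ⟨a, ha⟩ := h1
  refine ⟨a, fun e' he' => ?_⟩
  rw [← hΦa a ⟨e', he'⟩, ha]

/-- `Ind l` is the sum of its weight spaces.  Proof: let `Q` be the polynomial of `f` on `U`, and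
for a weight `e` let `Q_e` be the part of `Q` with the monomials `c^B`, `∑ B_i rt_i = l - e`.  The
restriction map `res : Ind l → MvPolynomial` is injective (`Ind_ext`) and
`res(lreg t f)(c) = f(t⁻¹ u(c)) = ch(l)(t) Q(ch(rt i)(t)⁻¹ c_i)`.  The action
`(t·Q)(c) = ch(l)(t) Q(ch(rt i)(t)⁻¹ c_i)` makes `MvPolynomial` a representation of `T` for which
the image of `res` is stable and `Q_e` is a weight vector of weight `e`; components of elements of
stable subspaces lie in the subspace (as in `wt_comp`, whose proof by linear combinations of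
translates applies: there are `t_i, a_i` with `∑ a_i ch(e')(t_i) = δ_{e e'}` for the finitely many
`e'` which occur, then `∑ a_i lreg(t_i) f` is the component in `Ind l`). -/
theorem Ind_wts (hP : P.Ax) (l : X) {f : G → k} (hf : f ∈ P.Ind l) :
    ∃ (F : Finset X) (y : X → G → k), (∀ e ∈ F, y e ∈ P.wt (lreg k G G) e ∧ y e ∈ P.Ind l) ∧
      f = ∑ e ∈ F, y e := by
  classical
  obtain ⟨Q, hQ⟩ := Ind_pol hf
  obtain ⟨wB, hwB⟩ : ∃ wB : (Fin P.N →₀ ℕ) → X, ∀ B, wB B = l - ∑ i, B i • P.rt i :=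
    ⟨fun B => l - ∑ i, B i • P.rt i, fun _ => rfl⟩
  have hchw : ∀ (B : Fin P.N →₀ ℕ) (t : T), ((P.ch (wB B) t : kˣ) : k) =
      ((P.ch l t : kˣ) : k) * ∏ i, ((((P.ch (P.rt i) t)⁻¹ : kˣ) : k)) ^ B i := by
    intro B t
    rw [hwB, sub_eq_add_neg, hP.ch_add, ch_neg hP, ch_sum hP, Units.val_mul,
      ← Finset.prod_inv_distrib, Units.coe_prod]
    congr 1
    refine Finset.prod_congr rfl fun i _ => ?_
    rw [ch_nsmul hP, ← inv_pow, Units.val_pow_eq_pow_val]
  have hact : ∀ (S : Finset (Fin P.N →₀ ℕ)) (g : G → k), g ∈ P.Ind l →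
      (∀ c, g (P.u c) = ∑ B ∈ S, coeff B Q * ∏ i, c i ^ B i) → ∀ t c,
      lreg k G G (P.tor t) g (P.u c) =
        ∑ B ∈ S, ((P.ch (wB B) t : kˣ) : k) * (coeff B Q * ∏ i, c i ^ B i) := by
    intro S g hg hgS t c
    rw [lreg_tor_u hP hg, hgS, Finset.mul_sum]
    refine Finset.sum_congr rfl fun B _ => ?_
    rw [hchw]
    simp only [mul_pow, Finset.prod_mul_distrib]
    ring
  have hfQ : ∀ c, f (P.u c) = ∑ B ∈ Q.support, coeff B Q * ∏ i, c i ^ B i := by
    intro c
    rw [hQ, eval_eq']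
  obtain ⟨F, hF⟩ : ∃ F, F = Q.support.image wB := ⟨_, rfl⟩
  have hdual := fun e : X => dual_comb hP F e
  choose a ha using hdual
  obtain ⟨y, hy⟩ : ∃ y : X → G → k, ∀ e, y e = (a e).sum fun t s => s • lreg k G G (P.tor t) f :=
    ⟨_, fun _ => rfl⟩
  have hyI : ∀ e, y e ∈ P.Ind l := by
    intro e
    rw [hy]
    exact Submodule.sum_mem _ fun t _ => Submodule.smul_mem _ _ (Ind_stable l _ _ hf)
  have hyu : ∀ e, ∀ c, y e (P.u c) =
      ∑ B ∈ Q.support.filter (fun B => wB B = e), coeff B Q * ∏ i, c i ^ B i := by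
    intro e c
    rw [hy, Finsupp.sum, Finset.sum_apply, Finset.sum_filter]
    have h1 : ∀ t ∈ (a e).support, ((a e) t • lreg k G G (P.tor t) f) (P.u c) =
        ∑ B ∈ Q.support, ((a e) t * ((P.ch (wB B) t : kˣ) : k)) *
          (coeff B Q * ∏ i, c i ^ B i) := by
      intro t _
      rw [Pi.smul_apply, smul_eq_mul, hact _ f hf hfQ, Finset.mul_sum]
      exact Finset.sum_congr rfl fun B _ => (mul_assoc _ _ _).symm
    rw [Finset.sum_congr rfl h1, Finset.sum_comm]
    refine Finset.sum_congr rfl fun B hB => ?_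
    rw [← Finset.sum_mul]
    have h2 := ha e (wB B) (by rw [hF]; exact Finset.mem_image_of_mem _ hB)
    rw [Finsupp.sum] at h2
    rw [h2]
    split_ifs with h3
    · rw [one_mul]
    · rw [zero_mul]
  refine ⟨F, y, fun e _ => ⟨fun t => ?_, hyI e⟩, ?_⟩
  · refine Ind_ext hP (Ind_stable l _ _ (hyI e)) (Submodule.smul_mem _ _ (hyI e)) fun c => ?_
    rw [hact _ (y e) (hyI e) (hyu e), Pi.smul_apply, hyu e, smul_eq_mul, Finset.mul_sum]
    refine Finset.sum_congr rfl fun B hB => ?_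
    rw [(Finset.mem_filter.1 hB).2]
  · refine Ind_ext hP hf (Submodule.sum_mem _ fun e _ => hyI e) fun c => ?_
    rw [hfQ, Finset.sum_apply]
    simp only [hyu]
    rw [hF]
    exact (Finset.sum_fiberwise_of_maps_to (fun B hB => Finset.mem_image_of_mem _ hB) _).symm

/-- `w₀` maps weight vectors to weight vectors: `ρ(w₀)` maps `wt l` into `wt (wX l)`
(`ρ(t) ρ(w₀) x = ρ(w₀) ρ(w₀⁻¹ t w₀) x`, `w₀⁻¹ t w₀ = tor (wT t)` by `w0_tor` and `wT_wT`,
`ch (wX l) t = ch l (wT t)`). -/
theorem wt_w0 (hP : P.Ax) {V : Type*} [AddCommGroup V] [Module k V] {ρ : Representation k G V}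
    {l : X} {x : V} (hx : x ∈ P.wt ρ l) : ρ P.w0 x ∈ P.wt ρ (P.wX l) := by
  intro t
  have h1 : P.tor t * P.w0 = P.w0 * P.tor (P.wT t) := by
    have h2 := hP.w0_tor (P.wT t)
    rw [hP.wT_wT] at h2
    rw [← h2, inv_mul_cancel_right]
  have h3 : ρ (P.tor t) (ρ P.w0 x) = ρ P.w0 (ρ (P.tor (P.wT t)) x) := by
    rw [← Module.End.mul_apply, ← map_mul, h1, map_mul, Module.End.mul_apply]
  rw [h3, hx (P.wT t), map_smul, hP.ch_wX]

/-- The weights `e` of `Ind l` satisfy `- h l ≤ h e` (apply `Ind_wt` to `ρ(w₀) f`, and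
`h (wX e) = - h e`). -/
theorem Ind_wt_ge (hP : P.Ax) {l e : X} {f : G → k} (hf : f ∈ P.Ind l)
    (he : f ∈ P.wt (lreg k G G) e) (h0 : f ≠ 0) : - P.h l ≤ P.h e := by
  have h1 : lreg k G G P.w0 f ∈ P.Ind l := Ind_stable l _ _ hf
  have h2 : lreg k G G P.w0 f ∈ P.wt (lreg k G G) (P.wX e) := wt_w0 hP he
  have h3 : lreg k G G P.w0 f ≠ 0 := by
    intro h
    apply h0
    have h4 : lreg k G G P.w0⁻¹ (lreg k G G P.w0 f) = f := by
      rw [← Module.End.mul_apply, ← map_mul, inv_mul_cancel, map_one]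
      rfl
    rw [← h4, h, map_zero]
  obtain ⟨B, hB⟩ := Ind_wt hP h1 h2 h3
  have h5 := h_sum (P := P) B
  have h6 := h_sum_nonneg hP B
  rw [hB, map_sub, hP.h_wX] at h5
  linarith

/-- The restriction of an element of `Ind l` to `U` is given by a polynomial in which only
monomials `c^B` with `∑ B_i h(rt_i) ≤ 2 h(l)` occur. -/
theorem Ind_deg (hP : P.Ax) {l : X} {f : G → k} (hf : f ∈ P.Ind l)
    {Q : MvPolynomial (Fin P.N) k} (hQ : ∀ c, f (P.u c) = eval c Q) (B : Fin P.N →₀ ℕ)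
    (hB : coeff B Q ≠ 0) : ∑ i, (B i : ℤ) * P.h (P.rt i) ≤ 2 * P.h l := by
  classical
  obtain ⟨F, y, hy, hfy⟩ := Ind_wts hP l hf
  have hex : ∀ e : X, ∃ R : MvPolynomial (Fin P.N) k, e ∈ F → ∀ c, y e (P.u c) = eval c R := by
    intro e
    by_cases he : e ∈ F
    · obtain ⟨R, hR⟩ := Ind_pol (hy e he).2
      exact ⟨R, fun _ => hR⟩
    · exact ⟨0, fun h => absurd h he⟩
  choose R hR using hex
  have hQR : Q = ∑ e ∈ F, R e := by
    apply MvPolynomial.funext
    intro c
    rw [← hQ c, map_sum, hfy, Finset.sum_apply]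
    exact Finset.sum_congr rfl fun e he => hR e he c
  have h1 : ∃ e ∈ F, coeff B (R e) ≠ 0 := by
    by_contra hcon
    push Not at hcon
    apply hB
    rw [hQR, coeff_sum]
    exact Finset.sum_eq_zero hcon
  obtain ⟨e, he, hBe⟩ := h1
  have h2 := homog_coeff hP (Ind_pol_homog hP (hy e he).2 (hy e he).1 (hR e he)) B hBe
  have h3 : y e ≠ 0 := by
    intro h
    apply hBe
    have h4 : R e = 0 := by
      apply MvPolynomial.funext
      intro c
      rw [← hR e he c, h, map_zero]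
      rfl
    rw [h4, coeff_zero]
  have h5 := Ind_wt_ge hP (hy e he).2 (hy e he).1 h3
  have h6 := h_sum (P := P) B
  rw [h2, map_sub] at h6
  linarith

/-- `Ind l` is finite dimensional: restriction to `U` is injective into the span of finitely many
monomials. -/
theorem Ind_fin (hP : P.Ax) (l : X) : FiniteDimensional k (P.Ind l) := by
  classical
  obtain ⟨Φ, hΦ⟩ : ∃ Φ : Finset (Fin P.N → ℕ), Φ = Fintype.piFinset fun _ =>
    Finset.range ((2 * P.h l).toNat + 1) := ⟨_, rfl⟩
  obtain ⟨S, hS⟩ : ∃ S : Submodule k ((Fin P.N → k) → k), S = Submodule.span k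
    ((Φ.image fun (B : Fin P.N → ℕ) (c : Fin P.N → k) => ∏ i, c i ^ B i :
      Finset ((Fin P.N → k) → k)) : Set ((Fin P.N → k) → k)) := ⟨_, rfl⟩
  have hSf : FiniteDimensional k S := by
    rw [hS]
    exact FiniteDimensional.span_finset k _
  have hmem : ∀ f ∈ P.Ind l, (fun c => f (P.u c)) ∈ S := by
    intro f hf
    obtain ⟨Q, hQ⟩ := Ind_pol hf
    have h1 : (fun c => f (P.u c)) =
        ∑ B ∈ Q.support, coeff B Q • fun c : Fin P.N → k => ∏ i, c i ^ B i := by
      funext c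
      rw [hQ, eval_eq', Finset.sum_apply]
      rfl
    rw [h1]
    refine Submodule.sum_mem _ fun B hB => Submodule.smul_mem _ _ ?_
    rw [hS]
    apply Submodule.subset_span
    rw [Finset.mem_coe, Finset.mem_image]
    refine ⟨B, ?_, rfl⟩
    rw [hΦ, Fintype.mem_piFinset]
    intro i
    rw [Finset.mem_range]
    have h2 := Ind_deg hP hf hQ B (mem_support_iff.1 hB)
    have h3 := h_sum_ge hP B i
    omega
  obtain ⟨L, hL⟩ : ∃ L : P.Ind l →ₗ[k] S, ∀ f c, (L f : (Fin P.N → k) → k) c = f.1 (P.u c) :=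
    ⟨{ toFun := fun f => ⟨fun c => f.1 (P.u c), hmem f.1 f.2⟩
       map_add' := fun _ _ => rfl
       map_smul' := fun _ _ => rfl }, fun _ _ => rfl⟩
  refine Module.Finite.of_injective L fun f f' hff => ?_
  apply Subtype.ext
  refine Ind_ext hP f.2 f'.2 fun c => ?_
  rw [← hL, ← hL, hff]

end PinData

end Pool.Agent.DM
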