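import Pool.Agent.DM.ThK
import Pool.Agent.DM.Box

/-!
# DM, module Kap: the isomorphism `Ind(z + p l) → St ⊗ Ind(l)^(1)` as a map of functions

On `Ind(z + p l)` define `κ(∑ s_A F_A^p) = ∑ box s_A (F_A^p)` (`thmK`, `uniqK`; additive by
`(F + F')^p = F^p + F'^p`, `k`-linear by `p`-th roots of scalars) and extend it linearly to all
functions (`LinearMap.exists_extend`).  For `s' = ∑ a_A s_A ∈ Ind z`, `a ∈ Ind l`:
`s' a^p = ∑ s_A (a_A^(1/p) a)^p`, so `κ(s' a^p) = box s' (a^p)`.  Equivariance: with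
`f = ∑ s_A F_A^p`, `lreg(g) f = ∑ (lreg(g) s_A) (lreg(g) F_A)^p` and the previous formula.
-/

set_option autoImplicit false

namespace Pool.Agent.DM

open MvPolynomial

variable {k : Type*} [Field k] [IsAlgClosed k] [Infinite k] {G : Type*} [Group G]
  {T : Type*} [CommGroup T] {X : Type*} [AddCommGroup X] {P : PinData k G T X} {p : ℕ} {z l : X}
  {v vl : G → k} {s : (Fin P.N → ℕ) → G → k}
  {q : (Fin P.N → ℕ) → MvPolynomial (Fin P.N) k}

namespace PinData

omit [IsAlgClosed k] [Infinite k] [Group G] in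
private lemma kap_add_pow [Fact p.Prime] [CharP k p] (a b : G → k) :
    (a + b) ^ p = a ^ p + b ^ p := by
  funext y
  simp only [Pi.add_apply, Pi.pow_apply]
  exact add_pow_char _ _ _

omit [IsAlgClosed k] [Infinite k] [Group G] in
private lemma kap_sub_pow [Fact p.Prime] [CharP k p] (a b : G → k) :
    (a - b) ^ p = a ^ p - b ^ p := by
  funext y
  simp only [Pi.sub_apply, Pi.pow_apply]
  exact sub_pow_char _ _

omit [Infinite k] in
private lemma kap_root [Fact p.Prime] (a : k) : ∃ b : k, b ^ p = a := by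
  have hp : 0 < p := (Fact.out : p.Prime).pos
  exact IsAlgClosed.exists_pow_nat_eq a hp

omit [IsAlgClosed k] [Infinite k] [Group G] in
private lemma kap_box_add (f a b : G → k) : box f (a + b) = box f a + box f b := by
  funext y
  simp only [box, Pi.add_apply]
  ring

omit [IsAlgClosed k] [Infinite k] [Group G] in
private lemma kap_box_smul (c : k) (f a : G → k) : box f (c • a) = c • box f a := by
  funext y
  simp only [box, Pi.smul_apply, smul_eq_mul]
  ring

omit [IsAlgClosed k] [Infinite k] [Group G] in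
private lemma kap_box_sum {ι : Type*} (F : Finset ι) (c : ι → k) (f : ι → G → k) (a : G → k) :
    box (∑ i ∈ F, c i • f i) a = ∑ i ∈ F, c i • box (f i) a := by
  funext y
  simp only [box, Finset.sum_apply, Pi.smul_apply, smul_eq_mul, Finset.sum_mul, mul_assoc]

private theorem kap_uniq [Fact p.Prime] [CharP k p] (hP : P.Ax) (hst : P.IsSt p z v s q)
    {F F' : (Fin P.N → ℕ) → G → k} (hF : ∀ A ∈ Ap P.N p, F A ∈ P.Ind l)
    (hF' : ∀ A ∈ Ap P.N p, F' A ∈ P.Ind l)
    (h : ∑ A ∈ Ap P.N p, s A * F A ^ p = ∑ A ∈ Ap P.N p, s A * F' A ^ p) :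
    ∑ A ∈ Ap P.N p, box (s A) (F A ^ p) = ∑ A ∈ Ap P.N p, box (s A) (F' A ^ p) := by
  have h1 := uniqK (F := fun A => F A - F' A) hP hst (fun A hA => sub_mem (hF A hA) (hF' A hA)) (by
    have e : ∀ A, s A * (F A - F' A) ^ p = s A * F A ^ p - s A * F' A ^ p := fun A => by
      rw [kap_sub_pow, mul_sub]
    simp only [e, Finset.sum_sub_distrib]
    rw [h, sub_self])
  refine Finset.sum_congr rfl fun A hA => ?_
  rw [sub_eq_zero.1 (h1 A hA)]

theorem exists_kappa [Fact p.Prime] [CharP k p] (hP : P.Ax) (hst : P.IsSt p z v s q)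
    (hl : P.IsV l vl) :
    ∃ κ : (G → k) →ₗ[k] (G × G → k),
      (∀ f ∈ P.Ind (z + p • l), κ f ∈ bx (P.Ind z) (fr p (P.Ind l))) ∧
      (∀ s' ∈ P.Ind z, ∀ a ∈ P.Ind l, κ (s' * a ^ p) = box s' (a ^ p)) ∧
      ∀ f ∈ P.Ind (z + p • l), ∀ g, κ (lreg k G G g f) = lreg k G (G × G) g (κ f) := by
  choose Φ hΦI hΦe using fun f : P.Ind (z + p • l) => thmK hP hst hl f.2
  let κ0 : P.Ind (z + p • l) →ₗ[k] (G × G → k) :=
    { toFun := fun f => ∑ A ∈ Ap P.N p, box (s A) (Φ f A ^ p)
      map_add' := by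
        intro f f'
        have h := kap_uniq (F := Φ (f + f')) (F' := fun A => Φ f A + Φ f' A) hP hst
          (hΦI (f + f')) (fun A hA => add_mem (hΦI f A hA) (hΦI f' A hA)) (by
            rw [← hΦe (f + f')]
            have e : ∀ A, s A * (Φ f A + Φ f' A) ^ p = s A * Φ f A ^ p + s A * Φ f' A ^ p :=
              fun A => by rw [kap_add_pow, mul_add]
            simp only [e, Finset.sum_add_distrib]
            rw [← hΦe f, ← hΦe f']
            rfl)
        rw [h, ← Finset.sum_add_distrib]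
        refine Finset.sum_congr rfl fun A _ => ?_
        rw [kap_add_pow, kap_box_add]
      map_smul' := by
        intro c f
        obtain ⟨b, hb⟩ := kap_root (p := p) c
        have h := kap_uniq (F := Φ (c • f)) (F' := fun A => b • Φ f A) hP hst
          (hΦI (c • f)) (fun A hA => Submodule.smul_mem _ _ (hΦI f A hA)) (by
            rw [← hΦe (c • f)]
            have e : ∀ A, s A * (b • Φ f A) ^ p = c • (s A * Φ f A ^ p) :=
              fun A => by rw [smul_pow, hb, mul_smul_comm]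
            simp only [e, ← Finset.smul_sum]
            rw [← hΦe f]
            rfl)
        rw [h, RingHom.id_apply, Finset.smul_sum]
        refine Finset.sum_congr rfl fun A _ => ?_
        rw [smul_pow, hb, kap_box_smul] }
  have hκ0 : ∀ f : P.Ind (z + p • l), κ0 f = ∑ A ∈ Ap P.N p, box (s A) (Φ f A ^ p) :=
    fun _ => rfl
  obtain ⟨κ, hκ⟩ := LinearMap.exists_extend κ0
  have hκ1 : ∀ f (hf : f ∈ P.Ind (z + p • l)),
      κ f = ∑ A ∈ Ap P.N p, box (s A) (Φ ⟨f, hf⟩ A ^ p) := by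
    intro f hf
    have h := DFunLike.congr_fun hκ ⟨f, hf⟩
    rw [hκ0] at h
    exact h
  have hmul : ∀ s' ∈ P.Ind z, ∀ a ∈ P.Ind l, s' * a ^ p ∈ P.Ind (z + p • l) := fun s' hs' a ha =>
    Ind_mul hP hs' (Ind_pow hP ha p)
  have h2 : ∀ s' ∈ P.Ind z, ∀ a ∈ P.Ind l, κ (s' * a ^ p) = box s' (a ^ p) := by
    intro s' hs' a ha
    obtain ⟨α, hα⟩ := hst.span s' hs'
    choose b hb using fun A => kap_root (p := p) (α A)
    rw [hκ1 _ (hmul s' hs' a ha)]
    have h := kap_uniq (F := Φ ⟨s' * a ^ p, hmul s' hs' a ha⟩) (F' := fun A => b A • a) hP hst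
      (hΦI _) (fun A _ => Submodule.smul_mem _ _ ha) (by
        rw [← hΦe]
        have e : ∀ A, s A * (b A • a) ^ p = (α A • s A) * a ^ p :=
          fun A => by rw [smul_pow, hb, mul_smul_comm, smul_mul_assoc]
        simp only [e, ← Finset.sum_mul]
        rw [← hα])
    rw [h]
    have e : ∀ A, box (s A) ((b A • a) ^ p) = α A • box (s A) (a ^ p) := fun A => by
      rw [smul_pow, hb, kap_box_smul]
    simp only [e]
    rw [← kap_box_sum, ← hα]
  refine ⟨κ, fun f hf => ?_, h2, fun f hf g => ?_⟩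
  · rw [hκ1 f hf]
    exact Submodule.sum_mem _ fun A hA => box_mem (hst.mem A hA)
      (Submodule.subset_span ⟨_, hΦI _ A hA, rfl⟩)
  · have e1 := hΦe ⟨f, hf⟩
    have e2 : lreg k G G g f = ∑ A ∈ Ap P.N p,
        lreg k G G g (s A) * (lreg k G G g (Φ ⟨f, hf⟩ A)) ^ p := by
      have := congrArg (lreg k G G g) e1
      rw [map_sum] at this
      rw [this]
      rfl
    rw [e2, map_sum, hκ1 f hf, map_sum]
    refine Finset.sum_congr rfl fun A hA => ?_
    rw [h2 _ (Ind_stable z g _ (hst.mem A hA)) _ (Ind_stable l g _ (hΦI _ A hA)), lreg_box,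
      lreg_pow]

end PinData

end Pool.Agent.DM
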