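import Pool.Agent.DM.Wt

/-!
# DM, module WtMul: weights of products, box products and `p`-th powers of functions

Everything is for functions on a `G`-set with the left translation `lreg`.
-/

set_option autoImplicit false

namespace Pool.Agent.DM

variable {k : Type*} [Field k] {G : Type*} [Group G] {T : Type*} [CommGroup T]
  {X : Type*} [AddCommGroup X] {P : PinData k G T X}
  {Y : Type*} [MulAction G Y] {Y' : Type*} [MulAction G Y']

/-- the box product of two functions -/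
def box (f : Y → k) (f' : Y' → k) : Y × Y' → k := fun y => f y.1 * f' y.2

lemma lreg_apply (g : G) (f : Y → k) (y : Y) : lreg k G Y g f y = f (g⁻¹ • y) := rfl

lemma lreg_mul (g : G) (f f' : Y → k) : lreg k G Y g (f * f') = lreg k G Y g f * lreg k G Y g f' := rfl

lemma lreg_pow (g : G) (f : Y → k) (n : ℕ) : lreg k G Y g (f ^ n) = (lreg k G Y g f) ^ n := rfl

lemma lreg_box (g : G) (f : Y → k) (f' : Y' → k) :
    lreg k G (Y × Y') g (box f f') = box (lreg k G Y g f) (lreg k G Y' g f') := rfl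

private lemma box_sum {ι ι' : Type*} (F : Finset ι) (F' : Finset ι') (f : ι → Y → k)
    (f' : ι' → Y' → k) :
    box (∑ i ∈ F, f i) (∑ j ∈ F', f' j) = ∑ i ∈ F, ∑ j ∈ F', box (f i) (f' j) := by
  funext y
  simp only [box, Finset.sum_apply, Finset.sum_mul_sum]

private lemma box_sum_right {ι' : Type*} (F' : Finset ι') (f : Y → k)
    (f' : ι' → Y' → k) :
    box f (∑ j ∈ F', f' j) = ∑ j ∈ F', box f (f' j) := by
  funext y
  simp only [box, Finset.sum_apply, Finset.mul_sum]

private lemma sum_pow_fun (p : ℕ) [Fact p.Prime] [CharP k p] {ι : Type*} (F : Finset ι)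
    (f : ι → Y → k) : (∑ i ∈ F, f i) ^ p = ∑ i ∈ F, (f i) ^ p := by
  funext y
  simp only [Finset.sum_apply, Pi.pow_apply]
  exact sum_pow_char p F (fun i => f i y)

namespace PinData

private lemma mem_wt {V : Type*} [AddCommGroup V] [Module k V] {ρ : Representation k G V}
    {l : X} {x : V} : x ∈ P.wt ρ l ↔ ∀ t, ρ (P.tor t) x = ((P.ch l t : kˣ) : k) • x := Iff.rfl

theorem wt_mul (hP : P.Ax) {l m : X} {f f' : Y → k} (hf : f ∈ P.wt (lreg k G Y) l)
    (hf' : f' ∈ P.wt (lreg k G Y) m) : f * f' ∈ P.wt (lreg k G Y) (l + m) := by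
  rw [mem_wt] at *
  intro t
  rw [lreg_mul, hf t, hf' t, smul_mul_smul_comm, hP.ch_add, Units.val_mul]

theorem wt_pow (hP : P.Ax) {l : X} {f : Y → k} (hf : f ∈ P.wt (lreg k G Y) l) (n : ℕ) :
    f ^ n ∈ P.wt (lreg k G Y) (n • l) := by
  induction n with
  | zero =>
    rw [pow_zero, zero_smul, mem_wt]
    intro t
    rw [ch_zero hP, Units.val_one, one_smul]
    rfl
  | succ n ih =>
    rw [pow_succ, succ_nsmul]
    exact wt_mul hP ih hf

theorem low_mul (hP : P.Ax) {c c' : ℤ} {f f' : Y → k} (hf : f ∈ P.low (lreg k G Y) c)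
    (hf' : f' ∈ P.low (lreg k G Y) c') : f * f' ∈ P.low (lreg k G Y) (c + c' - 1) := by
  obtain ⟨F, y, hy, rfl⟩ := mem_low_iff.1 hf
  obtain ⟨F', y', hy', rfl⟩ := mem_low_iff.1 hf'
  rw [Finset.sum_mul_sum]
  refine Submodule.sum_mem _ fun l hl => Submodule.sum_mem _ fun m hm => ?_
  refine wt_le_low ?_ (wt_mul hP (hy l hl).2 (hy' m hm).2)
  have h1 := (hy l hl).1
  have h2 := (hy' m hm).1
  rw [map_add]
  omega

theorem low_mul_wt (hP : P.Ax) {c : ℤ} {m : X} {f f' : Y → k} (hf : f ∈ P.low (lreg k G Y) c)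
    (hf' : f' ∈ P.wt (lreg k G Y) m) : f * f' ∈ P.low (lreg k G Y) (c + P.h m) := by
  obtain ⟨F, y, hy, rfl⟩ := mem_low_iff.1 hf
  rw [Finset.sum_mul]
  refine Submodule.sum_mem _ fun l hl => ?_
  refine wt_le_low ?_ (wt_mul hP (hy l hl).2 hf')
  have h1 := (hy l hl).1
  rw [map_add]
  omega

theorem wt_box (hP : P.Ax) {l m : X} {f : Y → k} {f' : Y' → k} (hf : f ∈ P.wt (lreg k G Y) l)
    (hf' : f' ∈ P.wt (lreg k G Y') m) : box f f' ∈ P.wt (lreg k G (Y × Y')) (l + m) := by
  rw [mem_wt] at *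
  intro t
  rw [lreg_box, hf t, hf' t, hP.ch_add, Units.val_mul]
  funext y
  simp only [box, Pi.smul_apply, smul_eq_mul]
  ring

theorem low_box (hP : P.Ax) {c c' : ℤ} {f : Y → k} {f' : Y' → k}
    (hf : f ∈ P.low (lreg k G Y) c) (hf' : f' ∈ P.low (lreg k G Y') c') :
    box f f' ∈ P.low (lreg k G (Y × Y')) (c + c' - 1) := by
  obtain ⟨F, y, hy, rfl⟩ := mem_low_iff.1 hf
  obtain ⟨F', y', hy', rfl⟩ := mem_low_iff.1 hf'
  rw [box_sum]
  refine Submodule.sum_mem _ fun l hl => Submodule.sum_mem _ fun m hm => ?_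
  refine wt_le_low ?_ (wt_box hP (hy l hl).2 (hy' m hm).2)
  have h1 := (hy l hl).1
  have h2 := (hy' m hm).1
  rw [map_add]
  omega

/-- `p`-th powers: `(∑ f_l)^p = ∑ f_l^p`. -/
theorem low_frob (hP : P.Ax) (p : ℕ) [Fact p.Prime] [CharP k p] {c : ℤ} {f : Y → k}
    (hf : f ∈ P.low (lreg k G Y) c) : f ^ p ∈ P.low (lreg k G Y) (p * (c - 1) + 1) := by
  obtain ⟨F, y, hy, rfl⟩ := mem_low_iff.1 hf
  rw [sum_pow_fun]
  refine Submodule.sum_mem _ fun l hl => ?_
  refine wt_le_low ?_ (wt_pow hP (hy l hl).2 p)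
  have h1 : P.h l ≤ c - 1 := by
    have := (hy l hl).1
    omega
  rw [map_nsmul, nsmul_eq_mul]
  have h2 : (p : ℤ) * P.h l ≤ p * (c - 1) := mul_le_mul_of_nonneg_left h1 (Int.natCast_nonneg p)
  omega

/-- Converse for a box product with a nonzero weight vector: if `s ⊠ b^p` lies in
`low (h e + p c)` then `b` lies in `low c`.
Proof: `b = ∑ b_l`, `s ⊠ b^p = ∑ s ⊠ b_l^p`, the summands are weight vectors of the distinct
(`nsmul_inj`) weights `e + p l`; by `low_comp` (reindex by `l ↦ e + p l`) those with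
`h e + p h(l) ≥ h e + p c` vanish, and `s ⊠ b_l^p = 0` implies `b_l = 0` since `s x ≠ 0` for some
`x`. -/
theorem low_of_box (hP : P.Ax) (p : ℕ) [Fact p.Prime] [CharP k p] {c : ℤ} {e : X} {s : Y → k}
    (hs : s ∈ P.wt (lreg k G Y) e) (hs' : s ≠ 0) {b : Y' → k}
    (hb : b ∈ ⨆ l, P.wt (lreg k G Y') l)
    (h : box s (b ^ p) ∈ P.low (lreg k G (Y × Y')) (P.h e + p * c)) :
    b ∈ P.low (lreg k G Y') c := by
  classical
  obtain ⟨F, y, hy, rfl⟩ := mem_iSup_wt hb
  rw [sum_pow_fun, box_sum_right] at h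
  have hinj : ∀ l m : X, e + p • l = e + p • m → l = m := fun l m hlm =>
    nsmul_inj hP p (add_left_cancel hlm)
  obtain ⟨x, hx⟩ : ∃ x : X → (Y × Y' → k), x = fun m =>
    ∑ l ∈ F.filter (fun l => e + p • l = m), box s (y l ^ p) := ⟨_, rfl⟩
  have hx1 : ∀ m ∈ F.image (fun l => e + p • l), x m ∈ P.wt (lreg k G (Y × Y')) m := by
    intro m _
    rw [hx]
    refine Submodule.sum_mem _ fun l hl => ?_
    rw [Finset.mem_filter] at hl
    rw [← hl.2]
    exact wt_box hP hs (wt_pow hP (hy l hl.1) p)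
  have hx2 : ∑ m ∈ F.image (fun l => e + p • l), x m = ∑ l ∈ F, box s (y l ^ p) := by
    rw [hx]
    exact Finset.sum_fiberwise_of_maps_to (fun l hl => Finset.mem_image_of_mem _ hl) _
  have hx3 : ∀ l ∈ F, x (e + p • l) = box s (y l ^ p) := by
    intro l hl
    rw [hx]
    have : F.filter (fun l' => e + p • l' = e + p • l) = {l} := by
      ext l'
      rw [Finset.mem_filter, Finset.mem_singleton]
      constructor
      · rintro ⟨_, h2⟩
        exact hinj _ _ h2
      · rintro rfl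
        exact ⟨hl, rfl⟩
    simp only [this, Finset.sum_singleton]
  rw [← hx2] at h
  have key := low_comp hP hx1 h
  have hy0 : ∀ l ∈ F, c ≤ P.h l → y l = 0 := by
    intro l hl hcl
    have h0 : x (e + p • l) = 0 := by
      by_contra hne
      have h1 := key _ (Finset.mem_image_of_mem _ hl) hne
      rw [map_add, map_nsmul, nsmul_eq_mul] at h1
      have h2 : (p : ℤ) * c ≤ p * P.h l := mul_le_mul_of_nonneg_left hcl (Int.natCast_nonneg p)
      omega
    rw [hx3 l hl] at h0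
    obtain ⟨z, hz⟩ : ∃ z, s z ≠ 0 := by
      by_contra hcon
      push Not at hcon
      exact hs' (funext hcon)
    funext w
    have h3 := congrFun h0 (z, w)
    simp only [box, Pi.pow_apply, Pi.zero_apply, mul_eq_zero, hz, false_or] at h3
    exact pow_eq_zero_iff (Fact.out : p.Prime).ne_zero |>.1 h3
  refine Submodule.sum_mem _ fun l hl => ?_
  by_cases hcl : c ≤ P.h l
  · rw [hy0 l hl hcl]
    exact zero_mem _
  · exact wt_le_low (by omega) (hy l hl)

end PinData

end Pool.Agent.DM
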