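import Pool.Agent.DM.LieDef
import Pool.Agent.DM.Lower
import Pool.Agent.DM.WtMul

/-!
# DM, module LieA: first order operators, elementary properties

All statements follow from the API of `Pol` and `cf` (`cf_add`, `cf_map`, `cf_mem`, `cf_mul_one`,
`cf_frob`, ...).
-/

set_option autoImplicit false

namespace Pool.Agent.DM

open MvPolynomial

variable {k : Type*} [Field k] [Infinite k] {G : Type*} [Group G]
  {V : Type*} [AddCommGroup V] [Module k V] {ρ : Representation k G V}
  {V' : Type*} [AddCommGroup V'] [Module k V'] {ρ' : Representation k G V'}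
  {γ : k → G} {x y : V}

lemma dv_add (hx : Pol fun s => ρ (γ s) x) (hy : Pol fun s => ρ (γ s) y) :
    dv ρ γ (x + y) = dv ρ γ x + dv ρ γ y := by
  have h := cf_add hx hy 1
  unfold dv
  rw [← h]
  congr 1
  funext s
  exact map_add _ _ _

lemma dv_smul (hx : Pol fun s => ρ (γ s) x) (a : k) : dv ρ γ (a • x) = a • dv ρ γ x := by
  have h := cf_smul hx a 1
  unfold dv
  rw [← h]
  congr 1
  funext s
  exact map_smul _ _ _

lemma dv_mem (K : Submodule k V) (hx : Pol fun s => ρ (γ s) x) (h : ∀ s, ρ (γ s) x ∈ K) :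
    dv ρ γ x ∈ K := cf_mem K hx h 1

lemma dv_inv (h : ∀ s, ρ (γ s) x = x) : dv ρ γ x = 0 := by
  have h1 : (fun s => ρ (γ s) x) = fun _ => x := funext h
  unfold dv
  rw [h1, cf_const, if_neg one_ne_zero]

lemma dv_map (hx : Pol fun s => ρ (γ s) x) (φ : V →ₗ[k] V')
    (h : ∀ s, φ (ρ (γ s) x) = ρ' (γ s) (φ x)) : φ (dv ρ γ x) = dv ρ' γ (φ x) := by
  have h1 := cf_map hx φ 1
  unfold dv
  rw [← h1]
  congr 1
  funext s
  exact h s

/-- the action on the coefficients, `x_n = cf F n`: `ρ(γ s) x_n = ∑ binom(m, n) s^(m-n) x_m` -/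
lemma act_cf (hγ : ∀ a b, γ a * γ b = γ (a + b)) {d : ℕ}
    (hd : ∀ s, ρ (γ s) x = ∑ j ∈ Finset.range d, s ^ j • cf (fun s => ρ (γ s) x) j) (n : ℕ)
    (s : k) : ρ (γ s) (cf (fun s => ρ (γ s) x) n) = ∑ m ∈ Finset.range d,
      s ^ (m - n) • ((m.choose n : k) • cf (fun s => ρ (γ s) x) m) := by
  have hF : Pol fun s => ρ (γ s) x := ⟨d, _, hd⟩
  rw [← cf_map hF (ρ (γ s)) n]
  have h1 : ∀ t, ρ (γ s) (ρ (γ t) x) = ∑ i ∈ Finset.range d, t ^ i •
      ∑ m ∈ Finset.range d, s ^ (m - i) • ((m.choose i : k) • cf (fun s => ρ (γ s) x) m) := by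
    intro t
    have h2 : ρ (γ s) (ρ (γ t) x) = ρ (γ (t + s)) x := by
      rw [add_comm t s, ← hγ, map_mul]
      rfl
    rw [h2, hd (t + s)]
    simp only [Finset.smul_sum]
    rw [Finset.sum_comm]
    refine Finset.sum_congr rfl fun m hm => ?_
    rw [add_pow, Finset.sum_smul]
    have h3 : Finset.range (m + 1) ⊆ Finset.range d := by
      apply Finset.range_subset_range.2
      exact Finset.mem_range.1 hm
    rw [Finset.sum_subset h3]
    · refine Finset.sum_congr rfl fun i _ => ?_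
      rw [smul_smul, smul_smul, mul_assoc]
    · intro i _ hi
      rw [Finset.mem_range, not_lt] at hi
      rw [Nat.choose_eq_zero_of_lt (by omega), Nat.cast_zero, mul_zero, zero_smul]
  rw [cf_eq h1 n]
  split_ifs with hn
  · rfl
  · symm
    refine Finset.sum_eq_zero fun m hm => ?_
    rw [Finset.mem_range] at hm
    rw [Nat.choose_eq_zero_of_lt (by omega), Nat.cast_zero, zero_smul, smul_zero]

/-- Additive one-parameter groups: the `n`-th power of the derivative is `n!` times the `n`-th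
coefficient.  (`ρ(γ(s+t)) x = ρ(γ s) ρ(γ t) x`, so for the coefficients `x_n` of
`s ↦ ρ(γ s) x`: `dv x_n = (n+1) x_(n+1)`; compare coefficients of `s t^n`.) -/
lemma dv_iterate (hγ : ∀ a b, γ a * γ b = γ (a + b)) (hx : ∀ g, Pol fun s => ρ (γ s) (ρ (γ g) x))
    (n : ℕ) : (dv ρ γ)^[n] x = (n.factorial : k) • cf (fun s => ρ (γ s) x) n := by
  have hγ0 : γ 0 = 1 := by
    have h := hγ 0 0
    rw [add_zero] at h
    exact mul_eq_left.1 h
  have hF : Pol fun s => ρ (γ s) x := by
    have h := hx 0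
    rw [hγ0, map_one] at h
    exact h
  obtain ⟨d, hd0, hd⟩ := hF.sum_cf
  have hpol : ∀ n, Pol fun s => ρ (γ s) (cf (fun s => ρ (γ s) x) n) := by
    intro n
    rw [funext (act_cf hγ hd n)]
    exact Pol.sum _ fun m _ => (Pol.const _).pow_smul _
  have key : ∀ n, dv ρ γ (cf (fun s => ρ (γ s) x) n) =
      ((n + 1 : ℕ) : k) • cf (fun s => ρ (γ s) x) (n + 1) := by
    intro n
    unfold dv
    rw [funext (act_cf hγ hd n), cf_sum _ (fun m _ => (Pol.const _).pow_smul _)]
    have h1 : ∀ m ∈ Finset.range d,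
        cf (fun s : k => s ^ (m - n) • ((m.choose n : k) • cf (fun s => ρ (γ s) x) m)) 1 =
          if m = n + 1 then ((n + 1 : ℕ) : k) • cf (fun s => ρ (γ s) x) (n + 1) else 0 := by
      intro m _
      rw [cf_pow_smul (Pol.const _), cf_const]
      by_cases h2 : m = n + 1
      · subst h2
        rw [if_pos (by omega), if_pos (by omega), if_pos rfl, Nat.choose_succ_self_right]
      · rw [if_neg h2]
        by_cases h3 : m - n ≤ 1
        · rw [if_pos h3]
          split_ifs with h4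
          · omega
          · rfl
        · rw [if_neg h3]
    rw [Finset.sum_congr rfl h1]
    by_cases h2 : n + 1 < d
    · rw [Finset.sum_ite_eq' (Finset.range d) (n + 1), if_pos (Finset.mem_range.2 h2)]
    · rw [hd0 (n + 1) (not_lt.1 h2), smul_zero]
      simp
  induction n with
  | zero =>
    rw [Function.iterate_zero, id, Nat.factorial_zero, Nat.cast_one, one_smul, cf_zero hF, hγ0,
      map_one]
    rfl
  | succ n ih =>
    rw [Function.iterate_succ_apply', ih, dv_smul (hpol n), key, smul_smul, Nat.factorial_succ,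
      Nat.cast_mul, mul_comm]

section fun_

variable {Y : Type*} [MulAction G Y] {Y' : Type*} [MulAction G Y']

/-- Leibniz rule; `lreg` evaluates to `1` at `γ 0 = 1`. -/
lemma dv_mul {f f' : Y → k} (hγ : γ 0 = 1) (hf : Pol fun s => lreg k G Y (γ s) f)
    (hf' : Pol fun s => lreg k G Y (γ s) f') :
    dv (lreg k G Y) γ (f * f') = dv (lreg k G Y) γ f * f' + f * dv (lreg k G Y) γ f' := by
  have h := cf_mul_one hf hf'
  rw [cf_zero hf, cf_zero hf', hγ, map_one] at h
  exact h

lemma dv_box {f : Y → k} {f' : Y' → k} (hγ : γ 0 = 1) (hf : Pol fun s => lreg k G Y (γ s) f)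
    (hf' : Pol fun s => lreg k G Y' (γ s) f') :
    dv (lreg k G (Y × Y')) γ (box f f') =
      box (dv (lreg k G Y) γ f) f' + box f (dv (lreg k G Y') γ f') := by
  have h := cf_mul_one (hf.map (LinearMap.funLeft k k (Prod.fst : Y × Y' → Y)))
    (hf'.map (LinearMap.funLeft k k (Prod.snd : Y × Y' → Y')))
  rw [cf_zero (hf.map _), cf_zero (hf'.map _), cf_map hf, cf_map hf', hγ, map_one, map_one] at h
  exact h

/-- `p`-th powers are killed. -/
lemma dv_frob (p : ℕ) [Fact p.Prime] [CharP k p] {f : Y → k}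
    (hf : Pol fun s => lreg k G Y (γ s) f) : dv (lreg k G Y) γ (f ^ p) = 0 := by
  have h := cf_frob p hf 1
  rw [if_neg] at h
  · exact h
  · intro h1
    have h2 := Nat.le_of_dvd one_pos h1
    have h3 := (Fact.out : p.Prime).two_le
    omega

end fun_

variable {T : Type*} [CommGroup T] {X : Type*} [AddCommGroup X] {P : PinData k G T X}
  {W : Submodule k V}

namespace PinData

/-- membership in stable subspaces of rational modules -/
theorem RatOn.ep_mem (hW : P.RatOn ρ W) {x : V} (hx : x ∈ W) (i : Fin P.N) : P.ep ρ i x ∈ W :=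
  dv_mem W (hW.pol_xp hx i) fun _ => hW.stable _ x hx

theorem RatOn.em_mem (hW : P.RatOn ρ W) {x : V} (hx : x ∈ W) (i : Fin P.N) : P.em ρ i x ∈ W :=
  dv_mem W (hW.pol_xm hx i) fun _ => hW.stable _ x hx

theorem ep_wt (hP : P.Ax) (hW : P.RatOn ρ W) {x : V} (hx : x ∈ W) {l : X} (hl : x ∈ P.wt ρ l)
    (i : Fin P.N) : P.ep ρ i x ∈ P.wt ρ (l + P.rt i) := by
  have h := cf_xp_wt hP hl (hW.pol_xp hx i) 1
  rwa [one_nsmul] at h

theorem em_wt (hP : P.Ax) (hW : P.RatOn ρ W) {x : V} (hx : x ∈ W) {l : X} (hl : x ∈ P.wt ρ l)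
    (i : Fin P.N) : P.em ρ i x ∈ P.wt ρ (l - P.rt i) := by
  have h := cf_xm_wt hP hl (hW.pol_xm hx i) 1
  rwa [one_nsmul] at h

/-- the operators as linear maps on a rational module -/
noncomputable def RatOn.epL (hW : P.RatOn ρ W) (i : Fin P.N) : Module.End k W where
  toFun x := ⟨P.ep ρ i x, hW.ep_mem x.2 i⟩
  map_add' x y := Subtype.ext (dv_add (hW.pol_xp x.2 i) (hW.pol_xp y.2 i))
  map_smul' a x := Subtype.ext (dv_smul (hW.pol_xp x.2 i) a)

noncomputable def RatOn.emL (hW : P.RatOn ρ W) (i : Fin P.N) : Module.End k W where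
  toFun x := ⟨P.em ρ i x, hW.em_mem x.2 i⟩
  map_add' x y := Subtype.ext (dv_add (hW.pol_xm x.2 i) (hW.pol_xm y.2 i))
  map_smul' a x := Subtype.ext (dv_smul (hW.pol_xm x.2 i) a)

end PinData

end Pool.Agent.DM
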