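import Pool.Agent.DM.LieA

/-!
# DM, module LieB: conjugation of the operators of positive roots

`conj_xp`: `x_i(s) x_j(t) x_i(-s) = u(q(s,t))` with polynomials `q_l ∈ k[s,t]` (`hP.u_mul` twice,
`u_single`), `q_l(s,0) = 0` (`u_inj`).  For fixed `s` the chain rule `PolyMap.chain` for the
polynomial map `c ↦ ρ(u c) x` and the curve `t ↦ q(s,t)` gives
`dv ρ (t ↦ x_i(s) x_j(t) x_i(-s)) x = ∑_l (∂q_l/∂t)(s,0) ep_l x`, and the left side is
`ρ(x_i(s)) ep_j ρ(x_i(-s)) x` (`cf_map`).
`conj_xm`: the same with `hP.conj_u` (`c = Pi.single j t`, `c i = 0`).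
-/

set_option autoImplicit false

namespace Pool.Agent.DM

open MvPolynomial

variable {k : Type*} [Field k] [Infinite k] {G : Type*} [Group G]
  {V : Type*} [AddCommGroup V] [Module k V] {ρ : Representation k G V}
  {T : Type*} [CommGroup T] {X : Type*} [AddCommGroup X] {P : PinData k G T X}
  {W : Submodule k V}

namespace PinData

omit [Infinite k] in
private lemma mul_app (g g' : G) (x : V) : ρ (g * g') x = ρ g (ρ g' x) := by
  rw [map_mul]; rfl

/-- evaluation of polynomials in `s` (inner) and `t` (outer variable) -/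
private noncomputable def ev2 {k : Type*} [Field k] (s t : k) :
    Polynomial (Polynomial k) →+* k :=
  (Polynomial.evalRingHom t).comp (Polynomial.mapRingHom (Polynomial.evalRingHom s))

omit [Infinite k] in
private lemma ev2_aeval {σ : Type*} (s t : k) (f : σ → Polynomial (Polynomial k))
    (p : MvPolynomial σ k) : ev2 s t (aeval f p) = eval (fun i => ev2 s t (f i)) p := by
  rw [MvPolynomial.map_aeval]
  have h : (ev2 s t).comp (algebraMap k (Polynomial (Polynomial k))) = RingHom.id k := by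
    ext a
    have h1 : algebraMap k (Polynomial (Polynomial k)) a = Polynomial.C (Polynomial.C a) := rfl
    rw [RingHom.comp_apply, h1]
    simp [ev2]
  rw [h]
  rfl

omit [Infinite k] in
private lemma ev2_CX (s t : k) : ev2 s t (Polynomial.C Polynomial.X) = s := by
  simp [ev2]

omit [Infinite k] in
private lemma ev2_X (s t : k) : ev2 s t Polynomial.X = t := by
  simp [ev2]

omit [Infinite k] in
private lemma ev2_single {N : ℕ} (s t : k) (i : Fin N) (f : Polynomial (Polynomial k)) (r : Fin N) :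
    ev2 s t ((Pi.single i f : Fin N → Polynomial (Polynomial k)) r) =
      (Pi.single i (ev2 s t f) : Fin N → k) r := by
  by_cases h : r = i
  · subst h
    rw [Pi.single_eq_same, Pi.single_eq_same]
  · rw [Pi.single_eq_of_ne h, Pi.single_eq_of_ne h, map_zero]

private lemma conj_aux (hP : P.Ax) (hW : P.RatOn ρ W) (g : k → G) (j : Fin P.N)
    (Q : Fin P.N → Polynomial (Polynomial k))
    (hQ : ∀ s t, g s * P.xp j t * (g s)⁻¹ = P.u fun l => ev2 s t (Q l)) {x : V} (hx : x ∈ W)
    (s : k) : ρ (g s) (P.ep ρ j (ρ (g s)⁻¹ x)) = ∑ l, ((Q l).coeff 1).eval s • P.ep ρ l x := by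
  set q : Fin P.N → Polynomial k := fun l => (Q l).map (Polynomial.evalRingHom s) with hq
  have hqe : ∀ l t, (q l).eval t = ev2 s t (Q l) := fun l t => rfl
  have hq0 : ∀ l, (q l).coeff 0 = 0 := by
    intro l
    have h1 := hQ s 0
    rw [xp_zero, mul_one, mul_inv_cancel, ← u_zero (P := P)] at h1
    have h2 := congrFun (hP.u_inj h1) l
    rw [Polynomial.coeff_zero_eq_eval_zero, hqe]
    exact h2.symm
  have h1 := PolyMap.chain (hW.pu x hx) q hq0
  have h2 : (fun t => ρ (P.u fun i => (q i).eval t) x) =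
      fun t => ρ (g s) ((fun t => ρ (P.xp j t) (ρ (g s)⁻¹ x)) t) := by
    funext t
    have h3 : (P.u fun i => (q i).eval t) = g s * P.xp j t * (g s)⁻¹ := (hQ s t).symm
    show ρ (P.u fun i => (q i).eval t) x = ρ (g s) (ρ (P.xp j t) (ρ (g s)⁻¹ x))
    rw [h3, mul_app, mul_app]
  rw [h2, cf_map (hW.pol_xp (hW.stable _ x hx) j)] at h1
  refine h1.trans ?_
  refine Finset.sum_congr rfl fun l _ => ?_
  have h3 : (q l).coeff 1 = ((Q l).coeff 1).eval s := by
    rw [hq]
    simp [Polynomial.coeff_map]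
  rw [h3]
  simp only [u_single]
  rfl

theorem conj_xp (hP : P.Ax) (hW : P.RatOn ρ W) (i j : Fin P.N) :
    ∃ a : Fin P.N → Polynomial k, ∀ x ∈ W, ∀ s,
      ρ (P.xp i s) (P.ep ρ j (ρ (P.xp i (-s)) x)) = ∑ l, (a l).eval s • P.ep ρ l x := by
  obtain ⟨m, hm⟩ := hP.u_mul
  let A : Fin P.N ⊕ Fin P.N → Polynomial (Polynomial k) := Sum.elim
      (Pi.single i (Polynomial.C Polynomial.X)) (Pi.single j Polynomial.X)
  let A' : Fin P.N ⊕ Fin P.N → Polynomial (Polynomial k) := Sum.elim (fun r => aeval A (m r))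
      (Pi.single i (Polynomial.C (-Polynomial.X)))
  let Q : Fin P.N → Polynomial (Polynomial k) := fun l => aeval A' (m l)
  have hQ : ∀ s t, P.xp i s * P.xp j t * (P.xp i s)⁻¹ = P.u fun l => ev2 s t (Q l) := by
    intro s t
    rw [xp_inv, ← u_single i s, ← u_single j t, ← u_single i (-s), hm, hm]
    congr 1
    funext l
    show _ = ev2 s t (aeval _ (m l))
    rw [ev2_aeval]
    congr 2
    funext r
    rcases r with r | r
    · show eval _ (m r) = ev2 s t (aeval _ (m r))
      rw [ev2_aeval]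
      congr 2
      funext r'
      rcases r' with r' | r'
      · show _ = ev2 s t ((Pi.single i _ : Fin P.N → Polynomial (Polynomial k)) r')
        rw [ev2_single, ev2_CX]
        rfl
      · show _ = ev2 s t ((Pi.single j _ : Fin P.N → Polynomial (Polynomial k)) r')
        rw [ev2_single, ev2_X]
        rfl
    · show _ = ev2 s t ((Pi.single i _ : Fin P.N → Polynomial (Polynomial k)) r)
      rw [ev2_single, map_neg, map_neg, ev2_CX]
      rfl
  refine ⟨fun l => (Q l).coeff 1, fun x hx s => ?_⟩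
  have h := conj_aux hP hW (P.xp i) j Q hQ hx s
  rw [xp_inv] at h
  exact h

theorem conj_xm (hP : P.Ax) (hW : P.RatOn ρ W) {i : Fin P.N} (hi : i ∈ P.S) {j : Fin P.N}
    (hij : j ≠ i) :
    ∃ a : Fin P.N → Polynomial k, ∀ x ∈ W, ∀ s,
      ρ (P.xm i s) (P.ep ρ j (ρ (P.xm i (-s)) x)) = ∑ l, (a l).eval s • P.ep ρ l x := by
  obtain ⟨m, hm⟩ := hP.conj_u i hi
  let Q : Fin P.N → Polynomial (Polynomial k) := fun l =>
    aeval (fun o : Option (Fin P.N) => o.elim (Polynomial.C Polynomial.X)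
      (Pi.single j Polynomial.X)) (m l)
  have hQ : ∀ s t, P.xm i s * P.xp j t * (P.xm i s)⁻¹ = P.u fun l => ev2 s t (Q l) := by
    intro s t
    rw [xm_inv, ← u_single j t, (hm s (Pi.single j t) (Pi.single_eq_of_ne hij.symm _)).2]
    congr 1
    funext l
    show _ = ev2 s t (aeval _ (m l))
    rw [ev2_aeval]
    congr 2
    funext o
    rcases o with _ | r
    · show _ = ev2 s t (Polynomial.C Polynomial.X)
      rw [ev2_CX]
      rfl
    · show _ = ev2 s t ((Pi.single j _ : Fin P.N → Polynomial (Polynomial k)) r)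
      rw [ev2_single, ev2_X]
      rfl
  refine ⟨fun l => (Q l).coeff 1, fun x hx s => ?_⟩
  have h := conj_aux hP hW (P.xm i) j Q hQ hx s
  rw [xm_inv] at h
  exact h

private lemma exists_lin (hW : P.RatOn ρ W) (j : Fin P.N) :
    ∃ L : V →ₗ[k] V, ∀ y ∈ W, L y = P.ep ρ j y := by
  obtain ⟨L, hL⟩ := LinearMap.exists_extend (W.subtype.comp (hW.epL j))
  exact ⟨L, fun y hy => LinearMap.congr_fun hL ⟨y, hy⟩⟩

private lemma comm_aux {γ : k → G} (h0 : γ 0 = 1) (hst : ∀ s, ∀ y ∈ W, ρ (γ s) y ∈ W)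
    (hpol : ∀ y ∈ W, Pol fun s => ρ (γ s) y) (L : V →ₗ[k] V) (hL : ∀ y ∈ W, L y ∈ W)
    {ι : Type*} [Fintype ι] (a : ι → Polynomial k) (v : ι → V) {x : V} (hx : x ∈ W)
    (h : ∀ s, ρ (γ s) (L (ρ (γ (-s)) x)) = ∑ l, (a l).eval s • v l) :
    dv ρ γ (L x) - L (dv ρ γ x) = ∑ l, (a l).coeff 1 • v l := by
  have hp := hpol x hx
  set p : k → V := fun s => ρ (γ s) x with hpdef
  obtain ⟨d, hd0, hd⟩ := hp.sum_cf
  have hd' : ∀ s, p s = ∑ j ∈ Finset.range (d + 2), s ^ j • cf p j := by
    intro s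
    rw [Finset.sum_range_succ, Finset.sum_range_succ, hd0 d le_rfl, hd0 (d + 1) (Nat.le_succ d),
      smul_zero, smul_zero, add_zero, add_zero, ← hd s]
  have hcW : ∀ n, cf p n ∈ W := fun n => cf_mem W hp (fun s => hst s x hx) n
  have hF : (fun s => ∑ l, (a l).eval s • v l) = fun s => ∑ m ∈ Finset.range (d + 2),
      s ^ m • (((-1 : k) ^ m) • ρ (γ s) (L (cf p m))) := by
    funext s
    rw [← h s]
    have h1 : ρ (γ (-s)) x = p (-s) := rfl
    rw [h1, hd' (-s), map_sum, map_sum]
    refine Finset.sum_congr rfl fun m _ => ?_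
    rw [map_smul, map_smul, neg_pow, mul_comm, mul_smul]
  have hq : ∀ m, Pol fun s => ρ (γ s) (L (cf p m)) := fun m => hpol _ (hL _ (hcW m))
  have h1 : cf (fun s => ∑ l, (a l).eval s • v l) 1 = ∑ l, (a l).coeff 1 • v l := by
    rw [cf_sum Finset.univ (fun l _ => (Pol.const (v l)).psmul (a l))]
    refine Finset.sum_congr rfl fun l _ => ?_
    rw [cf_psmul_one (Pol.const (v l)), cf_const, cf_const, if_neg one_ne_zero, if_pos rfl,
      smul_zero, zero_add]
  have h2 : cf (fun s => ∑ m ∈ Finset.range (d + 2),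
      s ^ m • (((-1 : k) ^ m) • ρ (γ s) (L (cf p m)))) 1 = dv ρ γ (L x) - L (dv ρ γ x) := by
    rw [cf_sum _ (fun m _ => ((hq m).smul _).pow_smul m)]
    have h3 : ∀ m, cf (fun s => s ^ m • (((-1 : k) ^ m) • ρ (γ s) (L (cf p m)))) 1 =
        if m ≤ 1 then ((-1 : k) ^ m) • cf (fun s => ρ (γ s) (L (cf p m))) (1 - m) else 0 := by
      intro m
      rw [cf_pow_smul ((hq m).smul _), cf_smul (hq m)]
    simp only [h3]
    rw [Finset.sum_range_succ', Finset.sum_range_succ', Finset.sum_eq_zero, zero_add]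
    · have h4 : cf p 0 = x := by
        rw [cf_zero hp, hpdef]
        simp only [h0, map_one, Module.End.one_apply]
      have h5 : cf (fun s => ρ (γ s) (L (cf p 1))) 0 = L (cf p 1) := by
        rw [cf_zero (hq 1)]
        simp only [h0, map_one, Module.End.one_apply]
      simp only [zero_add, le_refl, if_true, Nat.sub_self, zero_le_one, Nat.sub_zero, pow_one,
        pow_zero, one_smul, h4, h5, neg_smul]
      rw [neg_add_eq_sub]
      rfl
    · intro m _
      rw [if_neg (by omega)]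
  rw [← h2, ← hF, h1]

/-- Commutators of the operators of positive roots.
Proof: compare coefficients of `s` in `conj_xp`: `ep_i ep_j x - ep_j ep_i x = ∑_l a_l'(0) ep_l x`
(the left side of `conj_xp` is `ρ(x_i(s)) L ρ(x_i(-s)) x` with the linear map `L = ep_j` on `W`;
write `ρ(x_i(-s)) x = ∑ (-s)^m x_m` and use that `ρ(x_i(s)) ep_j x_m` is polynomial in `s`).  For a
weight vector `x` of weight `e` the left side has weight `e + rt i + rt j` and `ep_l x` has weight
`e + rt l`, so only the `l` with `rt l = rt i + rt j` contribute (`wt_indep`, `rt_inj`); `W` is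
spanned by weight vectors. -/
theorem comm_ep (hP : P.Ax) (hW : P.RatOn ρ W) (i j : Fin P.N) :
    ∃ c : Fin P.N → k, (∀ l, c l ≠ 0 → P.rt l = P.rt i + P.rt j) ∧
      ∀ x ∈ W, P.ep ρ i (P.ep ρ j x) - P.ep ρ j (P.ep ρ i x) = ∑ l, c l • P.ep ρ l x := by
  classical
  obtain ⟨a, ha⟩ := conj_xp hP hW i j
  obtain ⟨L, hL⟩ := exists_lin hW j
  have key : ∀ x ∈ W, P.ep ρ i (P.ep ρ j x) - P.ep ρ j (P.ep ρ i x) =
      ∑ l, (a l).coeff 1 • P.ep ρ l x := by
    intro x hx
    have h := comm_aux (ρ := ρ) (W := W) (γ := P.xp i) (xp_zero i)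
      (fun s y hy => hW.stable _ y hy) (fun y hy => hW.pol_xp hy i) L
      (fun y hy => by rw [hL y hy]; exact hW.ep_mem hy j) a (fun l => P.ep ρ l x) hx
      (fun s => by rw [hL _ (hW.stable _ x hx)]; exact ha x hx s)
    rw [hL x hx] at h
    have h1 : L (dv ρ (P.xp i) x) = P.ep ρ j (P.ep ρ i x) := hL _ (hW.ep_mem hx i)
    rw [h1] at h
    exact h
  -- the coefficients of the wrong roots do not contribute
  have hwt : ∀ (e : X), ∀ x ∈ W, x ∈ P.wt ρ e → ∀ l, P.rt l ≠ P.rt i + P.rt j →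
      (a l).coeff 1 • P.ep ρ l x = 0 := by
    intro e x hx hxe l hl
    set μ : X := e + P.rt j + P.rt i with hμ
    have hLHS : P.ep ρ i (P.ep ρ j x) - P.ep ρ j (P.ep ρ i x) ∈ P.wt ρ μ := by
      refine sub_mem (ep_wt hP hW (hW.ep_mem hx j) (ep_wt hP hW hx hxe j) i) ?_
      have := ep_wt hP hW (hW.ep_mem hx i) (ep_wt hP hW hx hxe i) j
      rwa [add_right_comm] at this
    rw [key x hx] at hLHS
    have hmem : ∀ r, (a r).coeff 1 • P.ep ρ r x ∈ P.wt ρ (e + P.rt r) := fun r =>
      Submodule.smul_mem _ _ (ep_wt hP hW hx hxe r)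
    let z : X → V := fun w => ∑ r ∈ Finset.univ.filter (fun r => e + P.rt r = w),
      (a r).coeff 1 • P.ep ρ r x
    have hz : ∀ w, z w ∈ P.wt ρ w := by
      intro w
      refine sum_mem fun r hr => ?_
      rw [← (Finset.mem_filter.1 hr).2]
      exact hmem r
    have hsum : ∑ w ∈ Finset.univ.image (fun r => e + P.rt r), z w =
        ∑ r, (a r).coeff 1 • P.ep ρ r x :=
      Finset.sum_fiberwise_of_maps_to (fun r _ => Finset.mem_image_of_mem _ (Finset.mem_univ r)) _
    have h1 := wt_comp (W := P.wt ρ μ) (F := Finset.univ.image (fun r => e + P.rt r)) (x := z) hP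
      (fun t y hy => tor_wt hy t) (fun w _ => hz w)
      (by rw [hsum]; exact hLHS) (e + P.rt l)
      (Finset.mem_image_of_mem (fun r => e + P.rt r) (Finset.mem_univ l))
    have h2 : z (e + P.rt l) = (a l).coeff 1 • P.ep ρ l x := by
      have h3 : Finset.univ.filter (fun r => e + P.rt r = e + P.rt l) = {l} := by
        ext r
        simp only [Finset.mem_filter, Finset.mem_univ, true_and, Finset.mem_singleton,
          add_right_inj]
        exact hP.rt_inj.eq_iff
      show ∑ r ∈ Finset.univ.filter (fun r => e + P.rt r = e + P.rt l), _ = _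
      rw [h3, Finset.sum_singleton]
    rw [h2] at h1
    have hne : e + P.rt l ≠ μ := by
      intro h3
      apply hl
      rw [hμ, add_assoc, add_right_inj] at h3
      rw [h3, add_comm]
    have hch : P.ch (e + P.rt l) ≠ P.ch μ := fun h3 => hne (hP.ch_inj h3)
    obtain ⟨t, ht⟩ : ∃ t, P.ch (e + P.rt l) t ≠ P.ch μ t := by
      by_contra hcon
      push Not at hcon
      exact hch (MonoidHom.ext hcon)
    have h4 := hmem l t
    rw [h1 t] at h4
    have h5 : (((P.ch μ t : kˣ) : k) - ((P.ch (e + P.rt l) t : kˣ) : k)) •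
        ((a l).coeff 1 • P.ep ρ l x) = 0 := by
      rw [sub_smul, h4, sub_self]
    refine (smul_eq_zero.1 h5).resolve_left ?_
    exact fun h6 => ht (Units.ext (sub_eq_zero.1 h6).symm)
  have hall : ∀ x ∈ W, ∀ l, P.rt l ≠ P.rt i + P.rt j → (a l).coeff 1 • P.ep ρ l x = 0 := by
    intro x hx l hl
    obtain ⟨F, y, hy, hxy⟩ := hW.exists_wt hP hx
    obtain ⟨L', hL'⟩ := exists_lin hW l
    rw [← hL' x hx, hxy, map_sum, Finset.smul_sum]
    refine Finset.sum_eq_zero fun w hw => ?_
    rw [hL' _ (hy w hw).2]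
    exact hwt w _ (hy w hw).2 (hy w hw).1 l hl
  refine ⟨fun l => if P.rt l = P.rt i + P.rt j then (a l).coeff 1 else 0, ?_, fun x hx => ?_⟩
  · intro l hl
    by_contra hcon
    exact hl (if_neg hcon)
  · rw [key x hx]
    refine Finset.sum_congr rfl fun l _ => ?_
    by_cases h : P.rt l = P.rt i + P.rt j
    · simp only [if_pos h]
    · simp only [if_neg h, zero_smul]
      exact hall x hx l h

/-- The same from `conj_xm`. -/
theorem comm_em_ep (hP : P.Ax) (hW : P.RatOn ρ W) {i : Fin P.N} (hi : i ∈ P.S) {j : Fin P.N}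
    (hij : j ≠ i) :
    ∃ c : Fin P.N → k, ∀ x ∈ W,
      P.em ρ i (P.ep ρ j x) - P.ep ρ j (P.em ρ i x) = ∑ l, c l • P.ep ρ l x := by
  obtain ⟨a, ha⟩ := conj_xm hP hW hi hij
  obtain ⟨L, hL⟩ := exists_lin hW j
  refine ⟨fun l => (a l).coeff 1, fun x hx => ?_⟩
  have h := comm_aux (ρ := ρ) (W := W) (γ := P.xm i) (xm_zero i)
    (fun s y hy => hW.stable _ y hy) (fun y hy => hW.pol_xm hy i) L
    (fun y hy => by rw [hL y hy]; exact hW.ep_mem hy j) a (fun l => P.ep ρ l x) hx
    (fun s => by rw [hL _ (hW.stable _ x hx)]; exact ha x hx s)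
  rw [hL x hx] at h
  have h1 : L (dv ρ (P.xm i) x) = P.ep ρ j (P.em ρ i x) := hL _ (hW.em_mem hx i)
  rw [h1] at h
  exact h

end PinData

end Pool.Agent.DM
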