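import Pool.Agent.DM.LieA

/-!
# DM, module LieC: `SL₂` computations

`conj_self`: for `t` with `w = 1 - s t ≠ 0` (`lo_up_lo`):
`x_-i(s) x_i(t) x_-i(-s) = x_-i(-s² t/w) α∨(w) x_i(t/w)`.  Write `ρ(x_i(r)) x = ∑_n r^n x_n`
(`x_n` of weight `l + n rt i`, `cf_xp_wt`) and `ρ(x_-i(r)) x_n = ∑_m r^m x_(n,m)`; then (`hP.phi_dg`,
`hP.ch_cr`, `hP.pair_rt`) `ρ(x_-i(s) x_i(t) x_-i(-s)) x = ∑_(m,n) (-s² t)^m t^n w^(l_i + n - m)
x_(n,m)`, `l_i = pair i l`.  Multiply by `w^K`, `K` large: both sides are polynomial in `t`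
(`Pol.eq_of` with `D = 1 - s t`); compare the coefficients of `t`: on the left
`ρ(x_-i(s)) ep_i ρ(x_-i(-s)) x - K s x`, on the right `-s² em_i x` (`m=1, n=0`), `ep_i x`
(`m=0, n=1`), and `-s (l_i + K) x` (`m=n=0`).
`comm_self`: the coefficient of `s` in `conj_self`.
-/

set_option autoImplicit false

namespace Pool.Agent.DM

open MvPolynomial

variable {k : Type*} [Field k] [Infinite k] {G : Type*} [Group G]
  {V : Type*} [AddCommGroup V] [Module k V] {ρ : Representation k G V}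
  {T : Type*} [CommGroup T] {X : Type*} [AddCommGroup X] {P : PinData k G T X}
  {W : Submodule k V}

omit [Infinite k] in
lemma lieC_one_sub (s : k) (a : ℕ) :
    (((1 : Polynomial k) - Polynomial.C s * Polynomial.X) ^ a).coeff 0 = 1 ∧
    (((1 : Polynomial k) - Polynomial.C s * Polynomial.X) ^ a).coeff 1 = -((a : k) * s) := by
  induction a with
  | zero =>
    simp [Polynomial.coeff_one]
  | succ a ih =>
    rw [pow_succ, Polynomial.mul_coeff_zero, Polynomial.mul_coeff_one, ih.1, ih.2]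
    have h0 : ((1 : Polynomial k) - Polynomial.C s * Polynomial.X).coeff 0 = 1 := by
      simp
    have h1 : ((1 : Polynomial k) - Polynomial.C s * Polynomial.X).coeff 1 = -s := by
      simp [Polynomial.coeff_one]
    rw [h0, h1]
    push_cast
    constructor <;> ring

lemma lieC_ge {f : k → V} (h : Pol f) : ∃ d : ℕ, ∀ D, d ≤ D → ∀ s,
    f s = ∑ j ∈ Finset.range D, s ^ j • cf f j := by
  obtain ⟨d, h1, h2⟩ := h.sum_cf
  refine ⟨d, fun D hD s => ?_⟩
  rw [h2 s]
  apply Finset.sum_subset (Finset.range_subset_range.2 hD)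
  intro j _ hj
  rw [h1 j (not_lt.1 fun h => hj (Finset.mem_range.2 h)), smul_zero]

lemma lieC_cf_const (Q : Polynomial k) (c : V) :
    cf (fun t => Q.eval t • c) 1 = Q.coeff 1 • c := by
  have h := cf_psmul_one (Pol.const (k := k) c) Q
  rw [cf_const, cf_const, if_neg one_ne_zero, if_pos rfl, smul_zero, zero_add] at h
  exact h

omit [Infinite k] in
lemma lieC_scal (s t : k) (w : kˣ) (li : ℤ) (n m K a : ℕ) (ha : (a : ℤ) = li + n - m + K) :
    (w : k) ^ K * (t / w) ^ n * ((w ^ (li + n * 2) : kˣ) : k) * (-(s ^ 2 * t) / w) ^ m =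
      t ^ (m + n) * (w : k) ^ a * (-s ^ 2) ^ m := by
  have hw : (w : k) ≠ 0 := w.ne_zero
  have e1 : (w : k) ^ a = (w : k) ^ K * ((w : k) ^ n)⁻¹ * ((w ^ (li + n * 2) : kˣ) : k) *
      ((w : k) ^ m)⁻¹ := by
    rw [Units.val_zpow_eq_zpow_val, ← zpow_natCast, ← zpow_natCast, ← zpow_natCast, ← zpow_natCast,
      ← zpow_neg, ← zpow_neg, ← zpow_add₀ hw, ← zpow_add₀ hw, ← zpow_add₀ hw, ha]
    congr 1
    ring
  rw [e1, div_pow, div_pow, pow_add, show -(s ^ 2 * t) = -s ^ 2 * t by ring, mul_pow]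
  ring

namespace PinData

omit [Infinite k] in
lemma lieC_app (g g' : G) (x : V) : ρ (g * g') x = ρ g (ρ g' x) := by
  rw [map_mul]; rfl

theorem lieC_ep_sum (hW : P.RatOn ρ W) (i : Fin P.N) (F : Finset ℕ) (c : ℕ → k) (y : ℕ → V)
    (hy : ∀ j, y j ∈ W) :
    P.ep ρ i (∑ j ∈ F, c j • y j) = ∑ j ∈ F, c j • P.ep ρ i (y j) := by
  have h := congrArg (Subtype.val) (map_sum (hW.epL i) (fun j => c j • (⟨y j, hy j⟩ : W)) F)
  have e1 : ((∑ j ∈ F, c j • (⟨y j, hy j⟩ : W) : W) : V) = ∑ j ∈ F, c j • y j := by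
    rw [Submodule.coe_sum]
    rfl
  have e2 : ((hW.epL i (∑ j ∈ F, c j • (⟨y j, hy j⟩ : W)) : W) : V) =
      P.ep ρ i (∑ j ∈ F, c j • y j) := by
    rw [← e1]
    rfl
  rw [← e2, h, Submodule.coe_sum]
  refine Finset.sum_congr rfl fun j _ => ?_
  rw [map_smul]
  rfl

theorem conj_self (hP : P.Ax) (hW : P.RatOn ρ W) {x : V} (hx : x ∈ W) {l : X}
    (hl : x ∈ P.wt ρ l) (i : Fin P.N) (s : k) :
    ρ (P.xm i s) (P.ep ρ i (ρ (P.xm i (-s)) x)) =
      P.ep ρ i x - (s * ((P.pair i l : ℤ) : k)) • x - s ^ 2 • P.em ρ i x := by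
  -- the coefficients
  have hpx := hW.pol_xp hx i
  obtain ⟨d, hd⟩ := lieC_ge hpx
  set X1 : ℕ → V := cf (fun r => ρ (P.xp i r) x) with hX1
  have hX1W : ∀ n, X1 n ∈ W := fun n => cf_mem W hpx (fun r => hW.stable _ x hx) n
  have hX1wt : ∀ n, X1 n ∈ P.wt ρ (l + n • P.rt i) := fun n => cf_xp_wt hP hl hpx n
  have hpm : ∀ n, Pol fun r => ρ (P.xm i r) (X1 n) := fun n => hW.pol_xm (hX1W n) i
  choose e he using fun n => lieC_ge (hpm n)
  set X2 : ℕ → ℕ → V := fun n => cf (fun r => ρ (P.xm i r) (X1 n)) with hX2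
  set E : ℕ := (Finset.range (d + 2)).sup e with hE
  have hEe : ∀ n < d + 2, e n ≤ E + 2 := fun n hn =>
    (Finset.le_sup (f := e) (Finset.mem_range.2 hn)).trans (Nat.le_add_right _ _)
  set li : ℤ := P.pair i l with hli
  set K : ℕ := li.natAbs + (E + 2) with hK
  set a : ℕ → ℕ → ℕ := fun n m => (li + n - m + K).toNat with ha
  have ha' : ∀ n m, m < E + 2 → ((a n m : ℕ) : ℤ) = li + n - m + K := by
    intro n m hm
    simp only [ha]
    rw [Int.toNat_of_nonneg]
    have h2 : -(li.natAbs : ℤ) ≤ li := by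
      rw [← Int.abs_eq_natAbs]
      exact neg_abs_le li
    have h3 : (K : ℤ) = (li.natAbs : ℤ) + ((E + 2 : ℕ) : ℤ) := by rw [hK, Nat.cast_add]
    omega
  -- the function
  set f : k → V := fun t => ρ (P.xm i s) (ρ (P.xp i t) (ρ (P.xm i (-s)) x)) with hf
  have hfp : Pol f := (hW.pol_xp (hW.stable (P.xm i (-s)) x hx) i).map (ρ (P.xm i s))
  have hf1 : cf f 1 = ρ (P.xm i s) (P.ep ρ i (ρ (P.xm i (-s)) x)) :=
    cf_map (hW.pol_xp (hW.stable (P.xm i (-s)) x hx) i) (ρ (P.xm i s)) 1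
  have hf0 : cf f 0 = x := by
    rw [cf_zero hfp, hf]
    beta_reduce
    rw [xp_zero, map_one, Module.End.one_apply, ← lieC_app, xm_add, add_neg_cancel, xm_zero,
      map_one, Module.End.one_apply]
  set D : Polynomial k := 1 - Polynomial.C s * Polynomial.X with hD
  have hDe : ∀ t, D.eval t = 1 - s * t := by
    intro t
    rw [hD]
    simp
  have hD0 : D ≠ 0 := by
    intro h
    have := hDe 0
    rw [h] at this
    simp at this
  set Q : ℕ → ℕ → Polynomial k := fun n m => Polynomial.X ^ (m + n) * D ^ (a n m) with hQ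
  have key : ∀ t, (D ^ K).eval t • f t = ∑ n ∈ Finset.range (d + 2),
      ∑ m ∈ Finset.range (E + 2), (Q n m).eval t • ((-s ^ 2) ^ m • X2 n m) := by
    refine Pol.eq_of (hfp.psmul _) ?_ D hD0 ?_
    · exact Pol.sum _ fun n _ => Pol.sum _ fun m _ => (Pol.const _).psmul _
    · intro t ht
      rw [hDe] at ht
      set w : kˣ := Units.mk0 (1 - s * t) ht with hw
      have hwv : (w : k) = 1 - s * t := rfl
      have e1 : P.xm i s * P.xp i t * P.xm i (-s) =
          P.xm i (-(s ^ 2 * t) / w) * P.tor (P.cr i w) * P.xp i (t / w) := by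
        rw [xm, xp, xm, xm, xp, ← hP.phi_dg, ← map_mul, ← map_mul, ← map_mul, ← map_mul,
          lo_up_lo s t w hwv]
      have e2 : f t = ρ (P.xm i (-(s ^ 2 * t) / w)) (ρ (P.tor (P.cr i w))
          (ρ (P.xp i (t / w)) x)) := by
        rw [hf]
        beta_reduce
        rw [← lieC_app, ← lieC_app, e1, lieC_app, lieC_app]
      rw [e2, hd (d + 2) (by omega) (t / w)]
      rw [map_sum, map_sum, Finset.smul_sum]
      refine Finset.sum_congr rfl fun n hn => ?_
      rw [map_smul, map_smul, hX1wt n (P.cr i w), hP.ch_cr, map_smul,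
        he n (E + 2) (hEe n (Finset.mem_range.1 hn)) (-(s ^ 2 * t) / w)]
      rw [Finset.smul_sum, Finset.smul_sum, Finset.smul_sum]
      refine Finset.sum_congr rfl fun m hm => ?_
      have hp : P.pair i (l + n • P.rt i) = li + n * 2 := by
        rw [map_add, map_nsmul, hP.pair_rt, nsmul_eq_mul]
      have e3 := lieC_scal s t w li n m K (a n m) (ha' n m (Finset.mem_range.1 hm))
      rw [hp, smul_smul, smul_smul, smul_smul, smul_smul, Polynomial.eval_pow, hDe, ← hwv, e3]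
      congr 1
      simp only [hQ, Polynomial.eval_mul, Polynomial.eval_pow, Polynomial.eval_X, hDe, ← hwv]
  have key2 : cf (fun t => (D ^ K).eval t • f t) 1 = ∑ n ∈ Finset.range (d + 2),
      ∑ m ∈ Finset.range (E + 2), (Q n m).coeff 1 • ((-s ^ 2) ^ m • X2 n m) := by
    rw [funext key, cf_sum _ fun n _ => Pol.sum _ fun m _ => (Pol.const _).psmul _]
    refine Finset.sum_congr rfl fun n _ => ?_
    rw [cf_sum _ fun m _ => (Pol.const _).psmul _]
    exact Finset.sum_congr rfl fun m _ => lieC_cf_const _ _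
  rw [cf_psmul_one hfp, hf0, (lieC_one_sub s K).1, (lieC_one_sub s K).2, one_smul] at key2
  have hQ0 : ∀ n m, 2 ≤ n + m → (Q n m).coeff 1 = 0 := by
    intro n m h
    simp only [hQ, Polynomial.coeff_X_pow_mul']
    rw [if_neg (by omega)]
  have hQ1 : ∀ n m, n + m = 1 → (Q n m).coeff 1 = 1 := by
    intro n m h
    simp only [hQ, Polynomial.coeff_X_pow_mul']
    rw [if_pos (by omega), show 1 - (m + n) = 0 by omega]
    exact (lieC_one_sub s _).1
  have hQ00 : (Q 0 0).coeff 1 = -((a 0 0 : ℕ) * s : k) := by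
    simp only [hQ, Polynomial.coeff_X_pow_mul']
    rw [if_pos (by omega)]
    exact (lieC_one_sub s _).2
  have h00 : X2 0 0 = x := by
    have h1 : X2 0 0 = ρ (P.xm i 0) (X1 0) := cf_zero (hpm 0)
    have h2 : X1 0 = ρ (P.xp i 0) x := cf_zero hpx
    rw [h1, h2, xm_zero, xp_zero, map_one]
    rfl
  have hX10 : X1 0 = x := by
    have h2 : X1 0 = ρ (P.xp i 0) x := cf_zero hpx
    rw [h2, xp_zero, map_one]
    rfl
  have h10 : X2 1 0 = P.ep ρ i x := by
    have h1 : X2 1 0 = ρ (P.xm i 0) (X1 1) := cf_zero (hpm 1)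
    rw [h1, xm_zero, map_one]
    rfl
  have h01 : X2 0 1 = P.em ρ i x := by
    have h1 : X2 0 1 = cf (fun r => ρ (P.xm i r) (X1 0)) 1 := rfl
    rw [h1, hX10]
    rfl
  have hsum : ∑ n ∈ Finset.range (d + 2),
      ∑ m ∈ Finset.range (E + 2), (Q n m).coeff 1 • ((-s ^ 2) ^ m • X2 n m) =
      P.ep ρ i x + (-(s ^ 2)) • P.em ρ i x + (-((a 0 0 : ℕ) * s : k)) • x := by
    have z1 : ∀ n, 2 ≤ n → ∑ m ∈ Finset.range (E + 2),
        (Q n m).coeff 1 • ((-s ^ 2) ^ m • X2 n m) = 0 := fun n hn =>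
      Finset.sum_eq_zero fun m _ => by rw [hQ0 n m (by omega), zero_smul]
    rw [Finset.sum_range_succ', Finset.sum_range_succ', Finset.sum_eq_zero (fun n _ => z1 _ (by omega))]
    rw [Finset.sum_range_succ', Finset.sum_range_succ', Finset.sum_eq_zero (fun m _ => by
      rw [hQ0 _ _ (by omega), zero_smul])]
    rw [Finset.sum_range_succ', Finset.sum_range_succ', Finset.sum_eq_zero (fun m _ => by
      rw [hQ0 _ _ (by omega), zero_smul])]
    simp only [zero_add]
    rw [hQ0 1 1 (by omega), hQ1 1 0 rfl, hQ1 0 1 rfl, hQ00, h00, h10, h01]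
    simp only [zero_smul, one_smul, pow_zero, pow_one, zero_add]
    rw [add_assoc]
  rw [hsum, hf1] at key2
  have ha0 : ((a 0 0 : ℕ) : k) = ((li : ℤ) : k) + (K : k) := by
    have h1 := ha' 0 0 (by omega)
    have h2 : (((a 0 0 : ℕ) : ℤ) : k) = ((li + (0 : ℕ) - (0 : ℕ) + K : ℤ) : k) := by rw [h1]
    push_cast at h2
    rw [h2]
    ring
  rw [ha0] at key2
  rw [← sub_eq_zero] at key2 ⊢
  rw [← key2]
  module

theorem comm_self (hP : P.Ax) (hW : P.RatOn ρ W) {x : V} (hx : x ∈ W) {l : X}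
    (hl : x ∈ P.wt ρ l) (i : Fin P.N) :
    P.em ρ i (P.ep ρ i x) - P.ep ρ i (P.em ρ i x) = -(((P.pair i l : ℤ) : k) • x) := by
  have hpm := hW.pol_xm hx i
  obtain ⟨d, hd⟩ := lieC_ge hpm
  set Y : ℕ → V := cf (fun r => ρ (P.xm i r) x) with hY
  have hYW : ∀ n, Y n ∈ W := fun n => cf_mem W hpm (fun r => hW.stable _ x hx) n
  have hY0 : Y 0 = x := by
    have h2 : Y 0 = ρ (P.xm i 0) x := cf_zero hpm
    rw [h2, xm_zero, map_one]
    rfl
  have hepm : ∀ j, Pol fun s => ρ (P.xm i s) (P.ep ρ i (Y j)) := fun j =>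
    hW.pol_xm (hW.ep_mem (hYW j) i) i
  have e1 : ∀ s, ρ (P.xm i s) (P.ep ρ i (ρ (P.xm i (-s)) x)) =
      ∑ j ∈ Finset.range (d + 2), (((-Polynomial.X) ^ j : Polynomial k).eval s) •
        ρ (P.xm i s) (P.ep ρ i (Y j)) := by
    intro s
    rw [hd (d + 2) (by omega) (-s), lieC_ep_sum hW i _ (fun j => (-s) ^ j) Y hYW, map_sum]
    refine Finset.sum_congr rfl fun j _ => ?_
    rw [map_smul]
    simp
  have e2 : ∀ s, ρ (P.xm i s) (P.ep ρ i (ρ (P.xm i (-s)) x)) =
      P.ep ρ i x + (s ^ 1 • (-(((P.pair i l : ℤ) : k)) • x) + s ^ 2 • (-P.em ρ i x)) := by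
    intro s
    rw [conj_self hP hW hx hl i s]
    module
  have h1 : cf (fun s => ρ (P.xm i s) (P.ep ρ i (ρ (P.xm i (-s)) x))) 1 =
      P.em ρ i (P.ep ρ i x) - P.ep ρ i (P.em ρ i x) := by
    rw [funext e1, cf_sum _ fun j _ => (hepm j).psmul _]
    have hz : ∀ j, cf (fun s => ((-Polynomial.X) ^ j : Polynomial k).eval s •
        ρ (P.xm i s) (P.ep ρ i (Y j))) 1 =
        ((-Polynomial.X) ^ j : Polynomial k).coeff 0 • cf (fun s => ρ (P.xm i s) (P.ep ρ i (Y j))) 1
        + ((-Polynomial.X) ^ j : Polynomial k).coeff 1 • cf (fun s => ρ (P.xm i s)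
          (P.ep ρ i (Y j))) 0 := fun j => cf_psmul_one (hepm j) _
    have hc : ∀ j, ((-Polynomial.X) ^ j : Polynomial k) =
        Polynomial.C ((-1) ^ j) * Polynomial.X ^ j := by
      intro j
      rw [neg_pow, map_pow, map_neg, map_one]
    have hz2 : ∀ j, 2 ≤ j → cf (fun s => ((-Polynomial.X) ^ j : Polynomial k).eval s •
        ρ (P.xm i s) (P.ep ρ i (Y j))) 1 = 0 := by
      intro j hj
      rw [hz, hc, Polynomial.coeff_C_mul_X_pow, Polynomial.coeff_C_mul_X_pow,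
        if_neg (by omega), if_neg (by omega), zero_smul, zero_smul, add_zero]
    rw [Finset.sum_range_succ', Finset.sum_range_succ', Finset.sum_eq_zero
      (fun n _ => hz2 _ (by omega))]
    rw [zero_add, zero_add, hz 0, hz 1, hc 0, hc 1]
    have q1 : (0 : ℕ) ≠ 1 := by omega
    have q2 : (1 : ℕ) ≠ 0 := by omega
    simp only [Polynomial.coeff_C_mul_X_pow, zero_add, if_true, if_neg q1, if_neg q2, zero_smul,
      add_zero]
    rw [cf_zero (hepm 1), hY0, xm_zero, map_one]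
    simp only [pow_one, pow_zero, one_smul, neg_smul, Module.End.one_apply]
    rw [neg_add_eq_sub]
    rfl
  have h2 : cf (fun s => ρ (P.xm i s) (P.ep ρ i (ρ (P.xm i (-s)) x))) 1 =
      -(((P.pair i l : ℤ) : k) • x) := by
    have hc := Pol.const (k := k) (P.ep ρ i x)
    have hc1 := Pol.const (k := k) (-(((P.pair i l : ℤ) : k)) • x)
    have hc2 := Pol.const (k := k) (-P.em ρ i x)
    rw [funext e2, cf_add hc ((hc1.pow_smul 1).add (hc2.pow_smul 2)),
      cf_add (hc1.pow_smul 1) (hc2.pow_smul 2), cf_pow_smul hc1, cf_pow_smul hc2, cf_const]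
    simp [cf_const]
  rw [← h1, h2]

end PinData

end Pool.Agent.DM
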