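import Pool.Agent.DM.LieB
import Pool.Agent.DM.Elim

/-!
# DM, module LieD: the operators form a triangular nilpotent family; transfer by `w₀`
-/

set_option autoImplicit false

namespace Pool.Agent.DM

open MvPolynomial

variable {k : Type*} [Field k] [Infinite k] {G : Type*} [Group G]
  {V : Type*} [AddCommGroup V] [Module k V] {ρ : Representation k G V}
  {T : Type*} [CommGroup T] {X : Type*} [AddCommGroup X] {P : PinData k G T X}
  {W : Submodule k V}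

namespace PinData

/-- `dv_iterate` with `n = p`: `p! = 0` in `k`. -/
theorem epL_pow (p : ℕ) [Fact p.Prime] [CharP k p] (hP : P.Ax) (hW : P.RatOn ρ W) (i : Fin P.N) :
    hW.epL i ^ p = 0 := by
  have hit : ∀ (n : ℕ) (x : W), ((((hW.epL i : W → W))^[n] x : W) : V) =
      (dv ρ (P.xp i))^[n] (x : V) := by
    intro n
    induction n with
    | zero => intro x; rfl
    | succ n ih =>
      intro x
      rw [Function.iterate_succ_apply, Function.iterate_succ_apply, ih]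
      rfl
  apply LinearMap.ext
  intro x
  apply Subtype.ext
  rw [Module.End.pow_apply, hit p x,
    dv_iterate (ρ := ρ) (γ := P.xp i) (x := (x : V)) (fun a b => xp_add i a b)
      (fun g => hW.pol_xp (hW.stable _ _ x.2) i) p]
  have h1 : ((p.factorial : ℕ) : k) = 0 := by
    rw [CharP.cast_eq_zero_iff k p]
    exact Nat.dvd_factorial (Fact.out : p.Prime).pos le_rfl
  rw [h1, zero_smul]
  rfl

/-- `comm_ep`, and `rt l = rt i + rt j` implies `i < l`, `j < l` by `h_mono`, `h_pos`. -/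
theorem tri_epL (p : ℕ) [Fact p.Prime] [CharP k p] (hP : P.Ax) (hW : P.RatOn ρ W) :
    Tri p fun i => hW.epL i := by
  refine ⟨fun j => epL_pow p hP hW j, fun i j => ?_⟩
  obtain ⟨c, hc, h⟩ := comm_ep hP hW i j
  refine ⟨c, fun l hl => ?_, ?_⟩
  · have h1 : P.h (P.rt l) = P.h (P.rt i) + P.h (P.rt j) := by
      rw [hc l hl, map_add]
    have h2 := hP.h_pos i
    have h3 := hP.h_pos j
    constructor
    · by_contra h4
      have h5 := hP.h_mono l i (not_lt.1 h4)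
      omega
    · by_contra h4
      have h5 := hP.h_mono l j (not_lt.1 h4)
      omega
  · apply LinearMap.ext
    intro x
    apply Subtype.ext
    have h1 := h x x.2
    rw [LinearMap.sum_apply, Submodule.coe_sum]
    exact h1

/-- Transfer by `w₀`: `ρ(w₀) ρ(x_i(s)) x = ρ(x_-σi(c s)) ρ(w₀) x`. -/
theorem w0_ep (hP : P.Ax) (i : Fin P.N) : ∃ c : k, c ≠ 0 ∧ ∀ W : Submodule k V, P.RatOn ρ W →
    ∀ x ∈ W, ρ P.w0 (P.ep ρ i x) = c • P.em ρ (P.sg i) (ρ P.w0 x) := by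
  obtain ⟨c, hc, h⟩ := hP.w0_xp i
  refine ⟨c, hc, fun W hW x hx => ?_⟩
  have h1 := cf_map (hW.pol_xp hx i) (ρ P.w0) 1
  have h2 := cf_dil (hW.pol_xm (hW.stable P.w0 x hx) (P.sg i)) c 1
  rw [pow_one] at h2
  have h3 : (fun s => ρ P.w0 (ρ (P.xp i s) x)) =
      fun s => ρ (P.xm (P.sg i) (c * s)) (ρ P.w0 x) := by
    funext s
    rw [← Module.End.mul_apply, ← map_mul, ← Module.End.mul_apply, ← map_mul, ← h s,
      inv_mul_cancel_right]
  rw [ep, dv, ← h1, h3, h2]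
  rfl

theorem w0_em (hP : P.Ax) (i : Fin P.N) : ∃ c : k, c ≠ 0 ∧ ∀ W : Submodule k V, P.RatOn ρ W →
    ∀ x ∈ W, ρ P.w0 (P.em ρ i x) = c • P.ep ρ (P.sg i) (ρ P.w0 x) := by
  obtain ⟨c, hc, h⟩ := hP.w0_xm i
  refine ⟨c, hc, fun W hW x hx => ?_⟩
  have h1 := cf_map (hW.pol_xm hx i) (ρ P.w0) 1
  have h2 := cf_dil (hW.pol_xp (hW.stable P.w0 x hx) (P.sg i)) c 1
  rw [pow_one] at h2
  have h3 : (fun s => ρ P.w0 (ρ (P.xm i s) x)) =
      fun s => ρ (P.xp (P.sg i) (c * s)) (ρ P.w0 x) := by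
    funext s
    rw [← Module.End.mul_apply, ← map_mul, ← Module.End.mul_apply, ← map_mul, ← h s,
      inv_mul_cancel_right]
  rw [em, dv, ← h1, h3, h2]
  rfl

/-- the same with `w₀⁻¹`: `w₀⁻¹ x_j(s) w₀ = x_-i(s/c)` with `j = σ i` (`hP.w0_xm`) -/
theorem w0_inv_ep (hP : P.Ax) (i : Fin P.N) : ∃ c : k, c ≠ 0 ∧ ∀ W : Submodule k V, P.RatOn ρ W →
    ∀ x ∈ W, ρ P.w0⁻¹ (P.ep ρ (P.sg i) x) = c • P.em ρ i (ρ P.w0⁻¹ x) := by
  obtain ⟨c, hc, h⟩ := hP.w0_xm i
  refine ⟨c⁻¹, inv_ne_zero hc, fun W hW x hx => ?_⟩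
  have h1 := cf_map (hW.pol_xp hx (P.sg i)) (ρ P.w0⁻¹) 1
  have h2 := cf_dil (hW.pol_xm (hW.stable P.w0⁻¹ x hx) i) c⁻¹ 1
  rw [pow_one] at h2
  have h3 : (fun s => ρ P.w0⁻¹ (ρ (P.xp (P.sg i) s) x)) =
      fun s => ρ (P.xm i (c⁻¹ * s)) (ρ P.w0⁻¹ x) := by
    funext s
    have h4 := h (c⁻¹ * s)
    rw [mul_inv_cancel_left₀ hc] at h4
    rw [← Module.End.mul_apply, ← map_mul, ← Module.End.mul_apply, ← map_mul, ← h4]
    congr 2
    group
  rw [ep, dv, ← h1, h3, h2]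
  rfl

/-- A vector of weight `l` fixed by `x_-i`: `s ↦ ρ(x_i(s)) x` has degree at most `-l_i`.
Proof: `up_eq2`: `ρ(x_i(s)) x = s^(-l_i) ρ(x_-i(1/s)) (ρ(n) x)` for `s ≠ 0`, `n = phi i nn`
(`phi_dg`, `ch_cr`); `cf_inv_bound`. -/
theorem cf_xp_eq_zero (hP : P.Ax) (hW : P.RatOn ρ W) {x : V} (hx : x ∈ W) {l : X}
    (hl : x ∈ P.wt ρ l) (i : Fin P.N) (hinv : ∀ s, ρ (P.xm i s) x = x) (n : ℕ)
    (hn : -P.pair i l < n) : cf (fun s => ρ (P.xp i s) x) n = 0 := by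
  refine cf_inv_bound (hW.pol_xp hx i) (hW.pol_xm (hW.stable (P.phi i nn) x hx) i)
    (-P.pair i l) (fun s hs => ?_) n hn
  obtain ⟨z, hz⟩ : ∃ z : kˣ, (z : k) = s := ⟨Units.mk0 s hs, rfl⟩
  have h1 := congrArg (P.phi i) (up_eq2 z)
  rw [map_mul, map_mul, map_mul, hP.phi_dg] at h1
  have h2 : P.xp i s = P.xm i (1 / s) * P.phi i nn * P.tor (P.cr i z⁻¹) * P.xm i (1 / s) := by
    rw [one_div, ← hz, ← Units.val_inv_eq_inv_val]
    exact h1
  have h3 : ((P.ch l (P.cr i z⁻¹) : kˣ) : k) = s ^ (-P.pair i l) := by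
    rw [hP.ch_cr, ← hz, Units.val_zpow_eq_zpow_val, Units.val_inv_eq_inv_val, inv_zpow']
  rw [h2, map_mul, map_mul, map_mul, Module.End.mul_apply, Module.End.mul_apply,
    Module.End.mul_apply, hinv, hl, h3, map_smul, map_smul]

omit [Infinite k] in
private lemma single_eval' {N : ℕ} (i : Fin N) (s : k) :
    (fun j => ((Pi.single i Polynomial.X : Fin N → Polynomial k) j).eval s) = Pi.single i s := by
  funext j
  by_cases h : j = i
  · subst h
    rw [Pi.single_eq_same, Pi.single_eq_same, Polynomial.eval_X]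
  · rw [Pi.single_eq_of_ne h, Pi.single_eq_of_ne h, Polynomial.eval_zero]

omit [Infinite k] in
private lemma ind_pol_aux {l : X} {f : G → k} (hf : f ∈ P.Ind l) (i : Fin P.N) (g : G) :
    Pol fun s => f (g * P.xp i s) := by
  have h := PolyMap.curve (hf.2 g) (Pi.single i Polynomial.X)
  simp only [single_eval', u_single] at h
  exact h

/-- Elements of `Ind l`: `s ↦ f(g x_i(s))` has degree at most `l_i`.
Proof: `up_eq1`: `f(g x_i(s)) = s^(l_i) f(g n x_i(-1/s))` for `s ≠ 0`; `cf_inv_bound`. -/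
theorem Ind_cf (hP : P.Ax) {l : X} {f : G → k} (hf : f ∈ P.Ind l) (i : Fin P.N) (g : G) (n : ℕ)
    (hn : P.pair i l < n) : cf (fun s => f (g * P.xp i s)) n = 0 := by
  have hpol := Pol.dil (ind_pol_aux hf i (g * P.phi i nn)) (-1)
  refine cf_inv_bound (ind_pol_aux hf i g) hpol (P.pair i l) (fun s hs => ?_) n hn
  obtain ⟨z, hz⟩ : ∃ z : kˣ, (z : k) = s := ⟨Units.mk0 s hs, rfl⟩
  have h1 := congrArg (P.phi i) (up_eq1 z)
  rw [map_mul, map_mul, map_mul, hP.phi_dg] at h1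
  have h2 : P.xp i s = P.phi i nn * P.xp i (-1 * (1 / s)) *
      (P.tor (P.cr i z⁻¹) * P.v (Pi.single i (1 / s))) := by
    rw [v_single, one_div, neg_one_mul, ← hz, ← Units.val_inv_eq_inv_val]
    exact h1
  have h3 : (((P.ch l (P.cr i z⁻¹))⁻¹ : kˣ) : k) = s ^ (P.pair i l) := by
    rw [hP.ch_cr, ← hz, inv_zpow', zpow_neg, inv_inv, Units.val_zpow_eq_zpow_val]
  rw [h2, ← mul_assoc g, ← mul_assoc g, hf.1, h3, smul_eq_mul]

theorem Ind_pol (hP : P.Ax) {l : X} {f : G → k} (hf : f ∈ P.Ind l) (i : Fin P.N) (g : G) :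
    Pol fun s => f (g * P.xp i s) :=
  ind_pol_aux hf i g

/-- `Ind l = 0` if some `l_i < 0`. -/
theorem Ind_eq_zero (hP : P.Ax) {l : X} {i : Fin P.N} (hi : P.pair i l < 0) {f : G → k}
    (hf : f ∈ P.Ind l) : f = 0 := by
  funext g
  have h1 := Ind_cf hP hf i g 0 (by exact_mod_cast hi)
  rw [cf_zero (Ind_pol hP hf i g), xp_zero, mul_one] at h1
  exact h1

end PinData

end Pool.Agent.DM
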