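import Pool.Agent.DM.Pol
import Pool.Agent.DM.Grp

/-!
# DM: first order operators (definitions)
-/

set_option autoImplicit false

namespace Pool.Agent.DM

variable {k : Type*} [Field k] {G : Type*} [Group G] {V : Type*} [AddCommGroup V] [Module k V]

/-- derivative at `0` of the action of a one-parameter family of group elements -/
noncomputable def dv (ρ : Representation k G V) (γ : k → G) (x : V) : V :=
  cf (fun s => ρ (γ s) x) 1

variable {T : Type*} [CommGroup T] {X : Type*} [AddCommGroup X] (P : PinData k G T X)

/-- the operator of a positive root -/
noncomputable def PinData.ep (ρ : Representation k G V) (i : Fin P.N) (x : V) : V :=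
  dv ρ (P.xp i) x

/-- the operator of a negative root -/
noncomputable def PinData.em (ρ : Representation k G V) (i : Fin P.N) (x : V) : V :=
  dv ρ (P.xm i) x

end Pool.Agent.DM
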