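import Pool.Agent.DM.LieB
import Pool.Agent.DM.LieC

/-!
# DM, module LieF: conjugation of the operators of negative roots by positive simple root groups

`conj_xp_em`: as `conj_xm` in LieB, with `hP.conj_v` and the polynomial map `c ↦ ρ(v c) x`
(`hW.pv`, `v_single`).  `conj_xm_em`: `x_-i(s) x_-j(t) x_-i(-s)` for arbitrary positive roots: as
`conj_xp` with `hP.v_mul`.
`conj_self_em`: as `conj_self` in LieC, from
`up s * lo t * up (-s) = up (-(s² t)/w) * dg w⁻¹ * lo (t/w)`, `w = 1 - s t ≠ 0`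
(matrix `(1+st, -s²t; t, 1-st)`), which gives, for `x` of weight `l`,
`ρ(x_i(s)) em_i ρ(x_i(-s)) x = em_i x + s l_i x - s² ep_i x`.
-/

set_option autoImplicit false

namespace Pool.Agent.DM

open MvPolynomial

variable {k : Type*} [Field k] [Infinite k] {G : Type*} [Group G]
  {V : Type*} [AddCommGroup V] [Module k V] {ρ : Representation k G V}
  {T : Type*} [CommGroup T] {X : Type*} [AddCommGroup X] {P : PinData k G T X}
  {W : Submodule k V}

namespace PinData

omit [Infinite k] in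
private lemma lfApp (g g' : G) (x : V) : ρ (g * g') x = ρ g (ρ g' x) := by
  rw [map_mul]; rfl

/-- evaluation of polynomials in `s` (inner) and `t` (outer variable) -/
private noncomputable def ev3 {k : Type*} [Field k] (s t : k) :
    Polynomial (Polynomial k) →+* k :=
  (Polynomial.evalRingHom t).comp (Polynomial.mapRingHom (Polynomial.evalRingHom s))

omit [Infinite k] in
private lemma ev3_aeval {σ : Type*} (s t : k) (f : σ → Polynomial (Polynomial k))
    (p : MvPolynomial σ k) : ev3 s t (aeval f p) = eval (fun i => ev3 s t (f i)) p := by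
  rw [MvPolynomial.map_aeval]
  have h : (ev3 s t).comp (algebraMap k (Polynomial (Polynomial k))) = RingHom.id k := by
    ext a
    have h1 : algebraMap k (Polynomial (Polynomial k)) a = Polynomial.C (Polynomial.C a) := rfl
    rw [RingHom.comp_apply, h1]
    simp [ev3]
  rw [h]
  rfl

omit [Infinite k] in
private lemma ev3_CX (s t : k) : ev3 s t (Polynomial.C Polynomial.X) = s := by
  simp [ev3]

omit [Infinite k] in
private lemma ev3_X (s t : k) : ev3 s t Polynomial.X = t := by
  simp [ev3]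

omit [Infinite k] in
private lemma ev3_single {N : ℕ} (s t : k) (i : Fin N) (f : Polynomial (Polynomial k)) (r : Fin N) :
    ev3 s t ((Pi.single i f : Fin N → Polynomial (Polynomial k)) r) =
      (Pi.single i (ev3 s t f) : Fin N → k) r := by
  by_cases h : r = i
  · subst h
    rw [Pi.single_eq_same, Pi.single_eq_same]
  · rw [Pi.single_eq_of_ne h, Pi.single_eq_of_ne h, map_zero]

private lemma conj_auxm (hP : P.Ax) (hW : P.RatOn ρ W) (g : k → G) (j : Fin P.N)
    (Q : Fin P.N → Polynomial (Polynomial k))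
    (hQ : ∀ s t, g s * P.xm j t * (g s)⁻¹ = P.v fun l => ev3 s t (Q l)) {x : V} (hx : x ∈ W)
    (s : k) : ρ (g s) (P.em ρ j (ρ (g s)⁻¹ x)) = ∑ l, ((Q l).coeff 1).eval s • P.em ρ l x := by
  set q : Fin P.N → Polynomial k := fun l => (Q l).map (Polynomial.evalRingHom s) with hq
  have hqe : ∀ l t, (q l).eval t = ev3 s t (Q l) := fun l t => rfl
  have hq0 : ∀ l, (q l).coeff 0 = 0 := by
    intro l
    have h1 := hQ s 0
    rw [xm_zero, mul_one, mul_inv_cancel, ← v_zero (P := P)] at h1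
    have h2 := congrFun (hP.v_inj h1) l
    rw [Polynomial.coeff_zero_eq_eval_zero, hqe]
    exact h2.symm
  have h1 := PolyMap.chain (hW.pv x hx) q hq0
  have h2 : (fun t => ρ (P.v fun i => (q i).eval t) x) =
      fun t => ρ (g s) ((fun t => ρ (P.xm j t) (ρ (g s)⁻¹ x)) t) := by
    funext t
    have h3 : (P.v fun i => (q i).eval t) = g s * P.xm j t * (g s)⁻¹ := (hQ s t).symm
    show ρ (P.v fun i => (q i).eval t) x = ρ (g s) (ρ (P.xm j t) (ρ (g s)⁻¹ x))
    rw [h3, lfApp, lfApp]
  rw [h2, cf_map (hW.pol_xm (hW.stable _ x hx) j)] at h1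
  refine h1.trans ?_
  refine Finset.sum_congr rfl fun l _ => ?_
  have h3 : (q l).coeff 1 = ((Q l).coeff 1).eval s := by
    rw [hq]
    simp [Polynomial.coeff_map]
  rw [h3]
  simp only [v_single]
  rfl

omit [Infinite k] in
private lemma sl_ext {A B : Matrix.SpecialLinearGroup (Fin 2) k} (h00 : A.1 0 0 = B.1 0 0)
    (h01 : A.1 0 1 = B.1 0 1) (h10 : A.1 1 0 = B.1 1 0) (h11 : A.1 1 1 = B.1 1 1) : A = B := by
  apply Subtype.ext
  apply Matrix.ext
  intro i j
  fin_cases i <;> fin_cases j <;> assumption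

omit [Infinite k] in
private lemma up_lo_up (s t : k) (w : kˣ) (hw : (w : k) = 1 - s * t) :
    up s * lo t * up (-s) = up (-(s ^ 2 * t) / w) * dg w⁻¹ * lo (t / w) := by
  have hw0 : (w : k) ≠ 0 := w.ne_zero
  apply sl_ext
  · simp [up, lo, dg, Matrix.mul_apply, Fin.sum_univ_two]
    field_simp
    rw [hw]
    ring
  · simp [up, lo, dg, Matrix.mul_apply, Fin.sum_univ_two]
    field_simp
    ring
  · simp [up, lo, dg, Matrix.mul_apply, Fin.sum_univ_two]
    field_simp
  · simp [up, lo, dg, Matrix.mul_apply, Fin.sum_univ_two]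
    linear_combination -hw

theorem conj_xp_em (hP : P.Ax) (hW : P.RatOn ρ W) {i : Fin P.N} (hi : i ∈ P.S) {j : Fin P.N}
    (hij : j ≠ i) :
    ∃ a : Fin P.N → Polynomial k, ∀ x ∈ W, ∀ s,
      ρ (P.xp i s) (P.em ρ j (ρ (P.xp i (-s)) x)) = ∑ l, (a l).eval s • P.em ρ l x := by
  obtain ⟨m, hm⟩ := hP.conj_v i hi
  let Q : Fin P.N → Polynomial (Polynomial k) := fun l =>
    aeval (fun o : Option (Fin P.N) => o.elim (Polynomial.C Polynomial.X)
      (Pi.single j Polynomial.X)) (m l)
  have hQ : ∀ s t, P.xp i s * P.xm j t * (P.xp i s)⁻¹ = P.v fun l => ev3 s t (Q l) := by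
    intro s t
    rw [xp_inv, ← v_single j t, (hm s (Pi.single j t) (Pi.single_eq_of_ne hij.symm _)).2]
    congr 1
    funext l
    show _ = ev3 s t (aeval _ (m l))
    rw [ev3_aeval]
    congr 2
    funext o
    rcases o with _ | r
    · show _ = ev3 s t (Polynomial.C Polynomial.X)
      rw [ev3_CX]
      rfl
    · show _ = ev3 s t ((Pi.single j _ : Fin P.N → Polynomial (Polynomial k)) r)
      rw [ev3_single, ev3_X]
      rfl
  refine ⟨fun l => (Q l).coeff 1, fun x hx s => ?_⟩
  have h := conj_auxm hP hW (P.xp i) j Q hQ hx s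
  rw [xp_inv] at h
  exact h

theorem conj_xm_em (hP : P.Ax) (hW : P.RatOn ρ W) (i j : Fin P.N) :
    ∃ a : Fin P.N → Polynomial k, ∀ x ∈ W, ∀ s,
      ρ (P.xm i s) (P.em ρ j (ρ (P.xm i (-s)) x)) = ∑ l, (a l).eval s • P.em ρ l x := by
  obtain ⟨m, hm⟩ := hP.v_mul
  let A : Fin P.N ⊕ Fin P.N → Polynomial (Polynomial k) := Sum.elim
      (Pi.single i (Polynomial.C Polynomial.X)) (Pi.single j Polynomial.X)
  let A' : Fin P.N ⊕ Fin P.N → Polynomial (Polynomial k) := Sum.elim (fun r => aeval A (m r))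
      (Pi.single i (Polynomial.C (-Polynomial.X)))
  let Q : Fin P.N → Polynomial (Polynomial k) := fun l => aeval A' (m l)
  have hQ : ∀ s t, P.xm i s * P.xm j t * (P.xm i s)⁻¹ = P.v fun l => ev3 s t (Q l) := by
    intro s t
    rw [xm_inv, ← v_single i s, ← v_single j t, ← v_single i (-s), hm, hm]
    congr 1
    funext l
    show _ = ev3 s t (aeval _ (m l))
    rw [ev3_aeval]
    congr 2
    funext r
    rcases r with r | r
    · show eval _ (m r) = ev3 s t (aeval _ (m r))
      rw [ev3_aeval]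
      congr 2
      funext r'
      rcases r' with r' | r'
      · show _ = ev3 s t ((Pi.single i _ : Fin P.N → Polynomial (Polynomial k)) r')
        rw [ev3_single, ev3_CX]
        rfl
      · show _ = ev3 s t ((Pi.single j _ : Fin P.N → Polynomial (Polynomial k)) r')
        rw [ev3_single, ev3_X]
        rfl
    · show _ = ev3 s t ((Pi.single i _ : Fin P.N → Polynomial (Polynomial k)) r)
      rw [ev3_single, map_neg, map_neg, ev3_CX]
      rfl
  refine ⟨fun l => (Q l).coeff 1, fun x hx s => ?_⟩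
  have h := conj_auxm hP hW (P.xm i) j Q hQ hx s
  rw [xm_inv] at h
  exact h

theorem conj_self_em (hP : P.Ax) (hW : P.RatOn ρ W) {x : V} (hx : x ∈ W) {l : X}
    (hl : x ∈ P.wt ρ l) (i : Fin P.N) (s : k) :
    ρ (P.xp i s) (P.em ρ i (ρ (P.xp i (-s)) x)) =
      P.em ρ i x + (s * ((P.pair i l : ℤ) : k)) • x - s ^ 2 • P.ep ρ i x := by
  -- the coefficients
  have hpx := hW.pol_xm hx i
  obtain ⟨d, hd⟩ := lieC_ge hpx
  set X1 : ℕ → V := cf (fun r => ρ (P.xm i r) x) with hX1
  have hX1W : ∀ n, X1 n ∈ W := fun n => cf_mem W hpx (fun r => hW.stable _ x hx) n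
  have hX1wt : ∀ n, X1 n ∈ P.wt ρ (l - n • P.rt i) := fun n => cf_xm_wt hP hl hpx n
  have hpm : ∀ n, Pol fun r => ρ (P.xp i r) (X1 n) := fun n => hW.pol_xp (hX1W n) i
  choose e he using fun n => lieC_ge (hpm n)
  set X2 : ℕ → ℕ → V := fun n => cf (fun r => ρ (P.xp i r) (X1 n)) with hX2
  set E : ℕ := (Finset.range (d + 2)).sup e with hE
  have hEe : ∀ n < d + 2, e n ≤ E + 2 := fun n hn =>
    (Finset.le_sup (f := e) (Finset.mem_range.2 hn)).trans (Nat.le_add_right _ _)
  set li : ℤ := -P.pair i l with hli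
  set K : ℕ := li.natAbs + (E + 2) with hK
  set a : ℕ → ℕ → ℕ := fun n m => (li + n - m + K).toNat with ha
  have ha' : ∀ n m, m < E + 2 → ((a n m : ℕ) : ℤ) = li + n - m + K := by
    intro n m hm
    simp only [ha]
    rw [Int.toNat_of_nonneg]
    have h2 : -(li.natAbs : ℤ) ≤ li := by
      rw [← Int.abs_eq_natAbs]
      exact neg_abs_le li
    have h3 : (K : ℤ) = (li.natAbs : ℤ) + ((E + 2 : ℕ) : ℤ) := by rw [hK, Nat.cast_add]
    omega
  -- the function
  set f : k → V := fun t => ρ (P.xp i s) (ρ (P.xm i t) (ρ (P.xp i (-s)) x)) with hf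
  have hfp : Pol f := (hW.pol_xm (hW.stable (P.xp i (-s)) x hx) i).map (ρ (P.xp i s))
  have hf1 : cf f 1 = ρ (P.xp i s) (P.em ρ i (ρ (P.xp i (-s)) x)) :=
    cf_map (hW.pol_xm (hW.stable (P.xp i (-s)) x hx) i) (ρ (P.xp i s)) 1
  have hf0 : cf f 0 = x := by
    rw [cf_zero hfp, hf]
    beta_reduce
    rw [xm_zero, map_one, Module.End.one_apply, ← lieC_app, xp_add, add_neg_cancel, xp_zero,
      map_one, Module.End.one_apply]
  set D : Polynomial k := 1 - Polynomial.C s * Polynomial.X with hD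
  have hDe : ∀ t, D.eval t = 1 - s * t := by
    intro t
    rw [hD]
    simp
  have hD0 : D ≠ 0 := by
    intro h
    have := hDe 0
    rw [h] at this
    simp at this
  set Q : ℕ → ℕ → Polynomial k := fun n m => Polynomial.X ^ (m + n) * D ^ (a n m) with hQ
  have key : ∀ t, (D ^ K).eval t • f t = ∑ n ∈ Finset.range (d + 2),
      ∑ m ∈ Finset.range (E + 2), (Q n m).eval t • ((-s ^ 2) ^ m • X2 n m) := by
    refine Pol.eq_of (hfp.psmul _) ?_ D hD0 ?_
    · exact Pol.sum _ fun n _ => Pol.sum _ fun m _ => (Pol.const _).psmul _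
    · intro t ht
      rw [hDe] at ht
      set w : kˣ := Units.mk0 (1 - s * t) ht with hw
      have hwv : (w : k) = 1 - s * t := rfl
      have e1 : P.xp i s * P.xm i t * P.xp i (-s) =
          P.xp i (-(s ^ 2 * t) / w) * P.tor (P.cr i w⁻¹) * P.xm i (t / w) := by
        rw [xp, xm, xp, xp, xm, ← hP.phi_dg, ← map_mul, ← map_mul, ← map_mul, ← map_mul,
          up_lo_up s t w hwv]
      have e2 : f t = ρ (P.xp i (-(s ^ 2 * t) / w)) (ρ (P.tor (P.cr i w⁻¹))
          (ρ (P.xm i (t / w)) x)) := by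
        rw [hf]
        beta_reduce
        rw [← lieC_app, ← lieC_app, e1, lieC_app, lieC_app]
      rw [e2, hd (d + 2) (by omega) (t / w)]
      rw [map_sum, map_sum, Finset.smul_sum]
      refine Finset.sum_congr rfl fun n hn => ?_
      rw [map_smul, map_smul, hX1wt n (P.cr i w⁻¹), hP.ch_cr, map_smul,
        he n (E + 2) (hEe n (Finset.mem_range.1 hn)) (-(s ^ 2 * t) / w)]
      rw [Finset.smul_sum, Finset.smul_sum, Finset.smul_sum]
      refine Finset.sum_congr rfl fun m hm => ?_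
      have hp : w⁻¹ ^ P.pair i (l - n • P.rt i) = w ^ (li + n * 2) := by
        rw [map_sub, map_nsmul, hP.pair_rt, nsmul_eq_mul, inv_zpow', hli]
        congr 1
        ring
      have e3 := lieC_scal s t w li n m K (a n m) (ha' n m (Finset.mem_range.1 hm))
      rw [hp, smul_smul, smul_smul, smul_smul, smul_smul, Polynomial.eval_pow, hDe, ← hwv, e3]
      congr 1
      simp only [hQ, Polynomial.eval_mul, Polynomial.eval_pow, Polynomial.eval_X, hDe, ← hwv]
  have key2 : cf (fun t => (D ^ K).eval t • f t) 1 = ∑ n ∈ Finset.range (d + 2),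
      ∑ m ∈ Finset.range (E + 2), (Q n m).coeff 1 • ((-s ^ 2) ^ m • X2 n m) := by
    rw [funext key, cf_sum _ fun n _ => Pol.sum _ fun m _ => (Pol.const _).psmul _]
    refine Finset.sum_congr rfl fun n _ => ?_
    rw [cf_sum _ fun m _ => (Pol.const _).psmul _]
    exact Finset.sum_congr rfl fun m _ => lieC_cf_const _ _
  rw [cf_psmul_one hfp, hf0, (lieC_one_sub s K).1, (lieC_one_sub s K).2, one_smul] at key2
  have hQ0 : ∀ n m, 2 ≤ n + m → (Q n m).coeff 1 = 0 := by
    intro n m h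
    simp only [hQ, Polynomial.coeff_X_pow_mul']
    rw [if_neg (by omega)]
  have hQ1 : ∀ n m, n + m = 1 → (Q n m).coeff 1 = 1 := by
    intro n m h
    simp only [hQ, Polynomial.coeff_X_pow_mul']
    rw [if_pos (by omega), show 1 - (m + n) = 0 by omega]
    exact (lieC_one_sub s _).1
  have hQ00 : (Q 0 0).coeff 1 = -((a 0 0 : ℕ) * s : k) := by
    simp only [hQ, Polynomial.coeff_X_pow_mul']
    rw [if_pos (by omega)]
    exact (lieC_one_sub s _).2
  have h00 : X2 0 0 = x := by
    have h1 : X2 0 0 = ρ (P.xp i 0) (X1 0) := cf_zero (hpm 0)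
    have h2 : X1 0 = ρ (P.xm i 0) x := cf_zero hpx
    rw [h1, h2, xp_zero, xm_zero, map_one]
    rfl
  have hX10 : X1 0 = x := by
    have h2 : X1 0 = ρ (P.xm i 0) x := cf_zero hpx
    rw [h2, xm_zero, map_one]
    rfl
  have h10 : X2 1 0 = P.em ρ i x := by
    have h1 : X2 1 0 = ρ (P.xp i 0) (X1 1) := cf_zero (hpm 1)
    rw [h1, xp_zero, map_one]
    rfl
  have h01 : X2 0 1 = P.ep ρ i x := by
    have h1 : X2 0 1 = cf (fun r => ρ (P.xp i r) (X1 0)) 1 := rfl
    rw [h1, hX10]
    rfl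
  have hsum : ∑ n ∈ Finset.range (d + 2),
      ∑ m ∈ Finset.range (E + 2), (Q n m).coeff 1 • ((-s ^ 2) ^ m • X2 n m) =
      P.em ρ i x + (-(s ^ 2)) • P.ep ρ i x + (-((a 0 0 : ℕ) * s : k)) • x := by
    have z1 : ∀ n, 2 ≤ n → ∑ m ∈ Finset.range (E + 2),
        (Q n m).coeff 1 • ((-s ^ 2) ^ m • X2 n m) = 0 := fun n hn =>
      Finset.sum_eq_zero fun m _ => by rw [hQ0 n m (by omega), zero_smul]
    rw [Finset.sum_range_succ', Finset.sum_range_succ', Finset.sum_eq_zero (fun n _ => z1 _ (by omega))]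
    rw [Finset.sum_range_succ', Finset.sum_range_succ', Finset.sum_eq_zero (fun m _ => by
      rw [hQ0 _ _ (by omega), zero_smul])]
    rw [Finset.sum_range_succ', Finset.sum_range_succ', Finset.sum_eq_zero (fun m _ => by
      rw [hQ0 _ _ (by omega), zero_smul])]
    simp only [zero_add]
    rw [hQ0 1 1 (by omega), hQ1 1 0 rfl, hQ1 0 1 rfl, hQ00, h00, h10, h01]
    simp only [zero_smul, one_smul, pow_zero, pow_one, zero_add]
    rw [add_assoc]
  rw [hsum, hf1] at key2
  have ha0 : ((a 0 0 : ℕ) : k) = ((li : ℤ) : k) + (K : k) := by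
    have h1 := ha' 0 0 (by omega)
    have h2 : (((a 0 0 : ℕ) : ℤ) : k) = ((li + (0 : ℕ) - (0 : ℕ) + K : ℤ) : k) := by rw [h1]
    push_cast at h2
    rw [h2]
    ring
  rw [ha0] at key2
  have hli' : ((li : ℤ) : k) = -((P.pair i l : ℤ) : k) := by
    rw [hli, Int.cast_neg]
  rw [hli'] at key2
  rw [← sub_eq_zero] at key2 ⊢
  rw [← key2]
  module

end PinData

end Pool.Agent.DM
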