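import Pool.Agent.DM.Core

/-!
# DM, module Mult: `Ind l · Ind m = Ind (l + m)`

`⊆` is `Ind_mul`.  `⊇`: let `x ∈ Ind (l + m)`, `vl`, `vm` the highest weight vectors.  The element
`m₀ = box vl vm` is a highest weight vector of weight `l + m` of `bx (Ind l) (Ind m)` (`wt_box`,
`lreg_box`, `IsV.inv`), so by `donkin_mathieu` there is `a ∈ bx (Ind l) (Ind m)` with
`r_g = lreg(g⁻¹) a - x(g) m₀ ∈ low(h (l + m))` for all `g`.  Let `mlt φ (y) = φ(y, y)`, an
equivariant linear map from functions on `G × G` to functions on `G`, mapping `bx (Ind l) (Ind m)`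
into `Ind l * Ind m ⊆ Ind (l + m)`.  `mlt r_g ∈ Ind (l + m) ∩ low(h (l + m))` (`low_map`), and
elements `f` of this intersection vanish at `1` (decompose `f` into weight vectors in
`Ind (l + m)` by `Ind_wts`, all of weight `≠ l + m` by `low_comp`; `Ind_eval_one`).  So
`0 = (mlt r_g)(1) = a(g, g) - x(g)`, i.e. `x = mlt a`.
-/

set_option autoImplicit false

namespace Pool.Agent.DM

open MvPolynomial

variable {k : Type*} [Field k] [IsAlgClosed k] [Infinite k] {G : Type*} [Group G]
  {T : Type*} [CommGroup T] {X : Type*} [AddCommGroup X] {P : PinData k G T X}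
  {z : X} {p : ℕ}

namespace PinData

/-- restriction to the diagonal -/
private def mlt (k G : Type*) [Field k] : (G × G → k) →ₗ[k] (G → k) where
  toFun φ := fun y => φ (y, y)
  map_add' _ _ := rfl
  map_smul' _ _ := rfl

omit [IsAlgClosed k] [Infinite k] in
private theorem mlt_bx {A B : Submodule k (G → k)} {a : G × G → k} (ha : a ∈ bx A B) :
    mlt k G a ∈ A * B := by
  unfold bx at ha
  induction ha using Submodule.span_induction with
  | mem x hx =>
    obtain ⟨f, hf, f', hf', rfl⟩ := hx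
    exact Submodule.mul_mem_mul hf hf'
  | zero => rw [map_zero]; exact zero_mem _
  | add x y _ _ hx hy => rw [map_add]; exact add_mem hx hy
  | smul a x _ hx => rw [map_smul]; exact Submodule.smul_mem _ _ hx

omit [IsAlgClosed k] in
private theorem mult_low_one (hP : P.Ax) {n : X} {f : G → k} (hf : f ∈ P.Ind n)
    (hl : f ∈ P.low (lreg k G G) (P.h n)) : f 1 = 0 := by
  obtain ⟨F, y, hy, rfl⟩ := Ind_wts hP n hf
  rw [Finset.sum_apply]
  refine Finset.sum_eq_zero fun e he => ?_
  by_cases h0 : y e = 0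
  · rw [h0]
    rfl
  · have h1 := low_comp hP (fun e he => (hy e he).1) hl e he h0
    refine Ind_eval_one hP (hy e he).2 (hy e he).1 fun h2 => ?_
    rw [h2] at h1
    exact lt_irrefl _ h1

theorem mult_surj [Fact p.Prime] [CharP k p] (hP : P.Ax) (hz : P.Stz p z) {l m : X}
    {vl vm : G → k} (hl : P.IsV l vl) (hm : P.IsV m vm) :
    P.Ind l * P.Ind m = P.Ind (l + m) := by
  apply le_antisymm
  · exact Submodule.mul_le.2 fun f hf f' hf' => Ind_mul hP hf hf'
  intro x hx
  have hm0 : box vl vm ∈ bx (P.Ind l) (P.Ind m) :=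
    Submodule.subset_span ⟨vl, hl.1, vm, hm.1, rfl⟩
  have hm1 : box vl vm ∈ P.hw (lreg k G (G × G)) (l + m) := by
    refine ⟨wt_box hP (hl.wt hP) (hm.wt hP), fun c => ?_⟩
    rw [lreg_box, hl.inv hP, hm.inv hP]
  obtain ⟨a, ha, hag⟩ := donkin_mathieu hP hz l m (l + m) _ hm0 hm1 x hx
  have key : x = mlt k G a := by
    funext g
    have h1 := low_map hP (P := P) (ρ' := lreg k G G) (W := ⊤) (fun _ _ _ => Submodule.mem_top)
      (mlt k G) (fun y _ t => rfl) (Submodule.mem_top) (hag g)
    have h2 : mlt k G (lreg k G (G × G) g⁻¹ a - x g • box vl vm) =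
        lreg k G G g⁻¹ (mlt k G a) - x g • (vl * vm) := by
      rw [map_sub, map_smul]
      rfl
    rw [h2] at h1
    have h3 : mlt k G a ∈ P.Ind (l + m) :=
      (Submodule.mul_le.2 fun f hf f' hf' => Ind_mul hP hf hf') (mlt_bx ha)
    have h4 : lreg k G G g⁻¹ (mlt k G a) - x g • (vl * vm) ∈ P.Ind (l + m) :=
      sub_mem (Ind_stable _ _ _ h3) (Submodule.smul_mem _ _ (Ind_mul hP hl.1 hm.1))
    have h5 := mult_low_one hP h4 h1
    rw [Pi.sub_apply, Pi.smul_apply, Pi.mul_apply, hl.one, hm.one, lreg_apply, inv_inv,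
      smul_eq_mul, mul_one, mul_one, smul_eq_mul, mul_one, sub_eq_zero] at h5
    exact h5.symm
  rw [key]
  exact mlt_bx ha

end PinData

end Pool.Agent.DM
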