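import Pool.Agent.DM.StDef

/-!
# DM, module Nbhd: the Frobenius neighbourhood of `1`

`Mp k N p` is the ideal generated by the `x_i^p` in `k[x_0, …, x_(N-1)]`.  In characteristic `p`
the `p`-th power of a polynomial without constant term lies in `Mp`, more generally
`f^p - f(0)^p ∈ Mp`.

Proof of `nbhd`.  Let `b = tor t * v b'`.  Write `Q = ∑_j x_j^p r_j`.  By `hP.ext` and
multiplication by powers of `δ ∈ Ind(2ρ)` (`hP.delta`, `δ = 1` on `U`) there are `n` and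
`E_j, R_j ∈ Ind(n • 2ρ)` with `E_j(u c) = c_j`, `R_j(u c) = r_j(c)`; by `hP.dom` (`pair i (2ρ) = 2`,
finitely many simple roots) there are `n₀` and `V ∈ Ind(μ + n₀ • 2ρ)`, `V = 1` on `U`.  Then with
`K = p n + n + n₀` the functions `H δ^K` and `∑_j E_j^p R_j V` are both in `Ind(μ + K • 2ρ)` and
agree on `U`, so they are equal (`Ind_ext`).  Evaluate at `b u(c)`:
`Q'(c) D(c)^K = ∑_j e_j(c)^p (…)` with polynomials `D(c) = δ(b u(c))`, `e_j(c) = E_j(b u(c))`, and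
`e_j(0) = E_j(b) = ch(…)(t)⁻¹ E_j(1) = 0`.  So `D^K Q' ∈ Mp`, hence `D^(pK) Q' ∈ Mp`, and
`D^(pK) ≡ D(0)^(pK)` modulo `Mp`, `D(0) = δ(b) ≠ 0`.  So `Q' ∈ Mp`.
-/

set_option autoImplicit false

namespace Pool.Agent.DM

open MvPolynomial

/-- the ideal generated by the `p`-th powers of the variables -/
noncomputable def Mp (k : Type*) [Field k] (N p : ℕ) : Ideal (MvPolynomial (Fin N) k) :=
  Ideal.span (Set.range fun i : Fin N => (MvPolynomial.X i : MvPolynomial (Fin N) k) ^ p)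

variable {k : Type*} [Field k] [Infinite k] {G : Type*} [Group G] {T : Type*} [CommGroup T]
  {X : Type*} [AddCommGroup X] {P : PinData k G T X} {p : ℕ}

omit [Infinite k] in
theorem nbhd_X_mem {N : ℕ} (i : Fin N) :
    (MvPolynomial.X i : MvPolynomial (Fin N) k) ^ p ∈ Mp k N p :=
  Ideal.subset_span ⟨i, rfl⟩

omit [Infinite k] in
theorem nbhd_pow_sub [Fact p.Prime] [CharP k p] {N : ℕ} (f : MvPolynomial (Fin N) k) :
    f ^ p - C (eval 0 f ^ p) ∈ Mp k N p := by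
  have hp : p ≠ 0 := (Fact.out : p.Prime).ne_zero
  induction f using MvPolynomial.induction_on with
  | C a =>
    rw [eval_C, map_pow, sub_self]
    exact zero_mem _
  | add f g hf hg =>
    have h := add_mem hf hg
    rw [add_pow_char, map_add, add_pow_char, map_add]
    have e : f ^ p + g ^ p - (C (eval 0 f ^ p) + C (eval 0 g ^ p)) =
        (f ^ p - C (eval 0 f ^ p)) + (g ^ p - C (eval 0 g ^ p)) := by ring
    rw [e]
    exact h
  | mul_X f i hf =>
    rw [map_mul, eval_X, Pi.zero_apply, mul_zero, zero_pow hp, map_zero, sub_zero, mul_pow]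
    exact Ideal.mul_mem_left _ _ (nbhd_X_mem i)

theorem pow_sub_mem_Mp [Fact p.Prime] [CharP k p] {N : ℕ} (f : MvPolynomial (Fin N) k) :
    f ^ p - C (eval 0 f ^ p) ∈ Mp k N p := nbhd_pow_sub f

/-- multiplication by a polynomial with nonzero constant term is injective modulo `Mp` -/
theorem mem_Mp_of_pow_mul [Fact p.Prime] [CharP k p] {N : ℕ} {D Q : MvPolynomial (Fin N) k}
    (hD : eval 0 D ≠ 0) (K : ℕ) (h : D ^ K * Q ∈ Mp k N p) : Q ∈ Mp k N p := by
  have hp : 1 ≤ p := (Fact.out : p.Prime).one_le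
  have h1 : (D ^ K) ^ p * Q ∈ Mp k N p := by
    have e : (D ^ K) ^ p * Q = (D ^ K) ^ (p - 1) * (D ^ K * Q) := by
      obtain ⟨m, hm⟩ : ∃ m, p = m + 1 := ⟨p - 1, by omega⟩
      rw [hm, Nat.add_sub_cancel, pow_succ]
      ring
    rw [e]
    exact Ideal.mul_mem_left _ _ h
  set c : k := eval 0 (D ^ K) ^ p with hc
  have hc0 : c ≠ 0 := by
    rw [hc, map_pow]
    exact pow_ne_zero _ (pow_ne_zero _ hD)
  have h2 : ((D ^ K) ^ p - C c) * Q ∈ Mp k N p := Ideal.mul_mem_right _ _ (nbhd_pow_sub (D ^ K))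
  have h3 : C c * Q ∈ Mp k N p := by
    have e : C c * Q = (D ^ K) ^ p * Q - ((D ^ K) ^ p - C c) * Q := by ring
    rw [e]
    exact sub_mem h1 h2
  have h4 : C c⁻¹ * (C c * Q) ∈ Mp k N p := Ideal.mul_mem_left _ _ h3
  rwa [← mul_assoc, ← C_mul, inv_mul_cancel₀ hc0, C_1, one_mul] at h4

namespace PinData

theorem nbhd_ext_big (hP : P.Ax) (Q : MvPolynomial (Fin P.N) k) :
    ∃ n₀ : ℕ, ∀ n, n₀ ≤ n → ∃ f ∈ P.Ind (n • P.rho2), ∀ c, f (P.u c) = eval c Q := by
  obtain ⟨n₀, f, hf, hfe⟩ := hP.ext Q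
  obtain ⟨δ, hδ, hδ1, -⟩ := hP.delta
  refine ⟨n₀, fun n hn => ⟨f * δ ^ (n - n₀), ?_, fun c => ?_⟩⟩
  · have h := Ind_mul hP hf (Ind_pow hP hδ (n - n₀))
    rwa [← add_smul, Nat.add_sub_cancel' hn] at h
  · rw [Pi.mul_apply, Pi.pow_apply, hfe, hδ1, one_pow, mul_one]

theorem nbhd_V (hP : P.Ax) (μ : X) :
    ∃ n₀ : ℕ, ∃ f ∈ P.Ind (μ + n₀ • P.rho2), ∀ c, f (P.u c) = 1 := by
  refine ⟨∑ i, (P.pair i μ).natAbs, hP.dom _ fun i hi => ?_⟩
  rw [map_add, map_nsmul, hP.pair_rho i hi, nsmul_eq_mul]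
  have h1 : (P.pair i μ).natAbs ≤ ∑ i, (P.pair i μ).natAbs :=
    Finset.single_le_sum (f := fun i => (P.pair i μ).natAbs) (fun _ _ => Nat.zero_le _)
      (Finset.mem_univ i)
  omega

theorem nbhd_poly {l : X} {f : G → k} (hf : f ∈ P.Ind l) (g : G) :
    ∃ Q : MvPolynomial (Fin P.N) k, ∀ c, f (g * P.u c) = eval c Q :=
  polyMap_iff.1 (hf.2 g)

theorem nbhd_at {l : X} {f : G → k} (hf : f ∈ P.Ind l) (t : T) (b : Fin P.N → k) :
    f (P.tor t * P.v b * P.u 0) = (((P.ch l t)⁻¹ : kˣ) : k) * f (P.u 0) := by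
  rw [u_zero, mul_one]
  have := hf.1 1 t b
  rwa [one_mul] at this

theorem nbhd [Fact p.Prime] [CharP k p] (hP : P.Ax) {μ : X} {H : G → k} (hH : H ∈ P.Ind μ)
    {Q : MvPolynomial (Fin P.N) k} (hQ : ∀ c, H (P.u c) = eval c Q) (hm : Q ∈ Mp k P.N p) (t : T)
    (b : Fin P.N → k) {Q' : MvPolynomial (Fin P.N) k}
    (hQ' : ∀ c, H (P.tor t * P.v b * P.u c) = eval c Q') : Q' ∈ Mp k P.N p := by
  have hp : p ≠ 0 := (Fact.out : p.Prime).ne_zero
  obtain ⟨r, hr⟩ := (Ideal.mem_span_range_iff_exists_fun).1 hm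
  obtain ⟨δ, hδ, hδ1, -⟩ := hP.delta
  choose nE hE using fun j : Fin P.N => nbhd_ext_big hP (MvPolynomial.X j)
  choose nR hR using fun j : Fin P.N => nbhd_ext_big hP (r j)
  set n : ℕ := ∑ j, (nE j + nR j) with hn
  have hnj : ∀ j, nE j + nR j ≤ n := fun j =>
    Finset.single_le_sum (f := fun j => nE j + nR j) (fun _ _ => Nat.zero_le _)
      (Finset.mem_univ j)
  choose E hEI hEe using fun j => hE j n (by have := hnj j; omega)
  choose R hRI hRe using fun j => hR j n (by have := hnj j; omega)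
  obtain ⟨n₀, V, hV, hV1⟩ := nbhd_V hP μ
  set K : ℕ := p * n + n + n₀ with hK
  have hL : H * δ ^ K ∈ P.Ind (μ + K • P.rho2) := Ind_mul hP hH (Ind_pow hP hδ K)
  have hRj : ∀ j, E j ^ p * (R j * V) ∈ P.Ind (μ + K • P.rho2) := by
    intro j
    have h := Ind_mul hP (Ind_pow hP (hEI j) p) (Ind_mul hP (hRI j) hV)
    have e : p • n • P.rho2 + (n • P.rho2 + (μ + n₀ • P.rho2)) = μ + K • P.rho2 := by
      rw [hK, add_smul, add_smul, mul_smul]
      abel
    rwa [e] at h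
  have hRs : ∑ j, E j ^ p * (R j * V) ∈ P.Ind (μ + K • P.rho2) :=
    Submodule.sum_mem _ fun j _ => hRj j
  have heq : H * δ ^ K = ∑ j, E j ^ p * (R j * V) := by
    refine Ind_ext hP hL hRs fun c => ?_
    rw [Pi.mul_apply, Pi.pow_apply, hδ1, one_pow, mul_one, hQ, ← hr, map_sum, Finset.sum_apply]
    refine Finset.sum_congr rfl fun j _ => ?_
    rw [Pi.mul_apply, Pi.mul_apply, Pi.pow_apply, hEe, hRe, hV1, map_mul, map_pow, mul_one,
      mul_comm]
  set β : G := P.tor t * P.v b with hβ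
  obtain ⟨D, hD⟩ := nbhd_poly hδ β
  choose ep hep using fun j => nbhd_poly (hEI j) β
  choose S hS using fun j => nbhd_poly (Ind_mul hP (hRI j) hV) β
  have hpol : D ^ K * Q' = ∑ j, ep j ^ p * S j := by
    apply MvPolynomial.funext
    intro c
    have h1 := congrFun heq (β * P.u c)
    rw [Pi.mul_apply, Pi.pow_apply, hD, hQ', Finset.sum_apply] at h1
    rw [map_mul, map_pow, mul_comm, h1, map_sum]
    refine Finset.sum_congr rfl fun j _ => ?_
    rw [Pi.mul_apply, Pi.pow_apply, hep, hS, map_mul, map_pow]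
  have hep0 : ∀ j, eval 0 (ep j) = 0 := by
    intro j
    rw [← hep, hβ, nbhd_at (hEI j), hEe, eval_X, Pi.zero_apply, mul_zero]
  refine mem_Mp_of_pow_mul (D := D) ?_ K ?_
  · rw [← hD, hβ, nbhd_at hδ, hδ1, mul_one]
    exact Units.ne_zero _
  · rw [hpol]
    refine sum_mem fun j _ => Ideal.mul_mem_right _ _ ?_
    have h := nbhd_pow_sub (p := p) (ep j)
    rwa [hep0, zero_pow hp, map_zero, sub_zero] at h

end PinData

end Pool.Agent.DM
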