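import Mathlib

/-!
# DM, module Sep: a subalgebra which separates points is purely inseparable

`R = k[x_0, …, x_(N-1)]`, `k` algebraically closed of characteristic `p`, `A ⊆ R` a subalgebra
which separates the points of `k^N`.  Then for every `x ∈ R` some `x^(p^n)` lies in the fraction
field of `A`.

Proof.  In `R₂ = k[x_i, x'_i]` (`MvPolynomial (Fin N ⊕ Fin N) k`) let `I` be the ideal generated by
the `a(x) - a(x')`, `a ∈ A`.  Its zeros are pairs `(c, c')` with `a(c) = a(c')` for all `a ∈ A`, so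
`c = c'`, and `x(x) - x(x')` vanishes there.  Nullstellensatz
(`MvPolynomial.vanishingIdeal_zeroLocus_eq_radical`): `(x(x) - x(x'))^m ∈ I`; taking `p^n ≥ m`,
`y(x) - y(x') ∈ I` with `y = x^(p^n)` (characteristic `p`).  Let `F` be the fraction field of `R`
and `K ⊆ F` the subfield generated by `A`.  The ring homomorphism `R₂ → F ⊗[K] F`,
`x_i ↦ x_i ⊗ 1`, `x'_i ↦ 1 ⊗ x_i`, kills `I`, so `y ⊗ 1 = 1 ⊗ y` in `F ⊗[K] F`, and `y ∈ K`.
-/

set_option autoImplicit false

namespace Pool.Agent.DM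

open MvPolynomial TensorProduct

/-- Elements `y` of a field extension with `y ⊗ 1 = 1 ⊗ y` are in the base field. -/
theorem sep_mem {F : Type*} [Field F] (K : Subfield F) (y : F)
    (h : (y ⊗ₜ[K] (1 : F)) = (1 : F) ⊗ₜ[K] y) : y ∈ K := by
  by_contra hy
  have h0 : (Submodule.span K {(1 : F)}).mkQ y ≠ 0 := by
    intro h1
    rw [Submodule.mkQ_apply, Submodule.Quotient.mk_eq_zero, Submodule.mem_span_singleton] at h1
    obtain ⟨a, ha⟩ := h1
    apply hy
    rw [← ha]
    have : a • (1 : F) = (a : F) := by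
      rw [Algebra.smul_def, mul_one]
      rfl
    rw [this]
    exact a.2
  have h2 : ∃ φ : Module.Dual K (F ⧸ Submodule.span K {(1 : F)}),
      φ ((Submodule.span K {(1 : F)}).mkQ y) ≠ 0 := by
    by_contra hcon
    push Not at hcon
    exact h0 ((Module.forall_dual_apply_eq_zero_iff K _).1 hcon)
  obtain ⟨φ, hφ⟩ := h2
  let lam : F →ₗ[K] K := φ ∘ₗ (Submodule.span K {(1 : F)}).mkQ
  have hl1 : lam 1 = 0 := by
    change φ ((Submodule.span K {(1 : F)}).mkQ 1) = 0
    have : (Submodule.span K {(1 : F)}).mkQ 1 = 0 := by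
      rw [Submodule.mkQ_apply, Submodule.Quotient.mk_eq_zero]
      exact Submodule.mem_span_singleton_self _
    rw [this, map_zero]
  have h3 := congrArg (fun t => TensorProduct.lid K F (LinearMap.rTensor F lam t)) h
  simp only [LinearMap.rTensor_tmul, TensorProduct.lid_tmul, hl1, zero_smul] at h3
  have h4 : (lam y : F) = 0 := by
    have h5 : lam y • (1 : F) = (lam y : F) := by
      rw [Algebra.smul_def, mul_one]
      rfl
    rw [← h5]
    exact h3
  exact hφ (Subtype.ext h4)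

theorem sep_eval {k σ T : Type*} [CommSemiring k] [CommSemiring T] (g : MvPolynomial σ k →+* T)
    (f : MvPolynomial σ k) : eval₂ (g.comp C) (fun i => g (X i)) f = g f := by
  have h : eval₂Hom (g.comp C) (fun i => g (X i)) = g := by
    apply ringHom_ext
    · intro c
      rw [coe_eval₂Hom, eval₂_C]
      rfl
    · intro i
      rw [coe_eval₂Hom, eval₂_X]
  exact congrArg (fun t : MvPolynomial σ k →+* T => t f) h

variable {k : Type*} [Field k] [IsAlgClosed k] {N : ℕ}

/-- The Nullstellensatz part. -/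
theorem sep_null (p : ℕ) [Fact p.Prime] [CharP k p] (A : Subalgebra k (MvPolynomial (Fin N) k))
    (hA : ∀ c c' : Fin N → k, (∀ a ∈ A, eval c a = eval c' a) → c = c')
    (x : MvPolynomial (Fin N) k) :
    ∃ n : ℕ, rename (Sum.inl : Fin N → Fin N ⊕ Fin N) (x ^ p ^ n) -
      rename (Sum.inr : Fin N → Fin N ⊕ Fin N) (x ^ p ^ n) ∈
      Ideal.span {f : MvPolynomial (Fin N ⊕ Fin N) k | ∃ a ∈ A,
        f = rename (Sum.inl : Fin N → Fin N ⊕ Fin N) a -
          rename (Sum.inr : Fin N → Fin N ⊕ Fin N) a} := by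
  set I := Ideal.span {f : MvPolynomial (Fin N ⊕ Fin N) k | ∃ a ∈ A,
        f = rename (Sum.inl : Fin N → Fin N ⊕ Fin N) a -
          rename (Sum.inr : Fin N → Fin N ⊕ Fin N) a} with hI
  have h1 : rename (Sum.inl : Fin N → Fin N ⊕ Fin N) x -
      rename (Sum.inr : Fin N → Fin N ⊕ Fin N) x ∈ I.radical := by
    rw [← vanishingIdeal_zeroLocus_eq_radical (K := k) I, mem_vanishingIdeal_iff]
    intro z hz
    rw [mem_zeroLocus_iff] at hz
    have h2 : (fun i => z (Sum.inl i)) = fun i => z (Sum.inr i) := by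
      apply hA
      intro a ha
      have h3 := hz _ (Ideal.subset_span ⟨a, ha, rfl⟩)
      rw [map_sub, aeval_rename, aeval_rename, sub_eq_zero] at h3
      exact h3
    rw [map_sub, aeval_rename, aeval_rename, sub_eq_zero]
    change aeval (fun i => z (Sum.inl i)) x = aeval (fun i => z (Sum.inr i)) x
    rw [h2]
  obtain ⟨m, hm⟩ := h1
  refine ⟨m, ?_⟩
  have hp : 1 < p := (Fact.out : p.Prime).one_lt
  have hmp : m ≤ p ^ m := (Nat.lt_pow_self hp).le
  have h4 := Ideal.mem_of_dvd I (pow_dvd_pow _ hmp) hm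
  rw [sub_pow_char_pow] at h4
  rw [map_pow, map_pow]
  exact h4

theorem sep (p : ℕ) [Fact p.Prime] [CharP k p] (A : Subalgebra k (MvPolynomial (Fin N) k))
    (hA : ∀ c c' : Fin N → k, (∀ a ∈ A, eval c a = eval c' a) → c = c')
    (x : MvPolynomial (Fin N) k) :
    ∃ (n : ℕ) (r : MvPolynomial (Fin N) k), r ∈ A ∧ r ≠ 0 ∧ r * x ^ (p ^ n) ∈ A := by
  obtain ⟨n, hn⟩ := sep_null p A hA x
  refine ⟨n, ?_⟩
  set y := x ^ p ^ n with hy
  let F := FractionRing (MvPolynomial (Fin N) k)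
  let j : MvPolynomial (Fin N) k →+* F := algebraMap _ _
  have hj : Function.Injective j := IsFractionRing.injective _ _
  let S : Subring F := A.toSubring.map j
  let K : Subfield F := Subfield.closure (S : Set F)
  have hAK : ∀ a ∈ A, j a ∈ K := fun a ha => Subfield.subset_closure ⟨a, ha, rfl⟩
  let j₁ : MvPolynomial (Fin N) k →+* F ⊗[K] F :=
    (Algebra.TensorProduct.includeLeftRingHom : F →+* F ⊗[K] F).comp j
  let j₂ : MvPolynomial (Fin N) k →+* F ⊗[K] F :=
    ((Algebra.TensorProduct.includeRight : F →ₐ[K] F ⊗[K] F) : F →+* F ⊗[K] F).comp j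
  have e₁ : ∀ f, j₁ f = j f ⊗ₜ[K] 1 := fun _ => rfl
  have e₂ : ∀ f, j₂ f = 1 ⊗ₜ[K] j f := fun _ => rfl
  have hjA : ∀ a ∈ A, j₁ a = j₂ a := by
    intro a ha
    rw [e₁, e₂]
    have h1 : j a = (⟨j a, hAK a ha⟩ : K) • (1 : F) := by
      rw [Algebra.smul_def, mul_one]
      rfl
    rw [h1, TensorProduct.smul_tmul]
  let θ : MvPolynomial (Fin N ⊕ Fin N) k →+* F ⊗[K] F :=
    eval₂Hom (j₁.comp C) (Sum.elim (fun i => j₁ (X i)) (fun i => j₂ (X i)))
  have hθ₁ : ∀ f, θ (rename Sum.inl f) = j₁ f := by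
    intro f
    change eval₂ _ _ (rename Sum.inl f) = _
    rw [eval₂_rename]
    exact sep_eval j₁ f
  have hθ₂ : ∀ f, θ (rename Sum.inr f) = j₂ f := by
    intro f
    have hC : (j₁.comp C : k →+* F ⊗[K] F) = j₂.comp C := by
      ext c
      exact hjA (C c) (A.algebraMap_mem c)
    change eval₂ _ _ (rename Sum.inr f) = _
    rw [eval₂_rename]
    change eval₂ (j₁.comp C) (fun i => j₂ (X i)) f = j₂ f
    rw [hC]
    exact sep_eval j₂ f
  have hker : Ideal.span {f : MvPolynomial (Fin N ⊕ Fin N) k | ∃ a ∈ A,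
        f = rename (Sum.inl : Fin N → Fin N ⊕ Fin N) a -
          rename (Sum.inr : Fin N → Fin N ⊕ Fin N) a} ≤ RingHom.ker θ := by
    rw [Ideal.span_le]
    rintro _ ⟨a, ha, rfl⟩
    change θ _ = 0
    rw [map_sub, hθ₁, hθ₂, hjA a ha, sub_self]
  have h1 : θ (rename Sum.inl y - rename Sum.inr y) = 0 := hker hn
  rw [map_sub, hθ₁, hθ₂, sub_eq_zero, e₁, e₂] at h1
  have h2 : j y ∈ K := sep_mem K (j y) h1
  have h3 : ∃ a ∈ Subring.closure (S : Set F), ∃ b ∈ Subring.closure (S : Set F), a / b = j y :=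
    Subfield.mem_closure_iff.1 h2
  rw [Subring.closure_eq] at h3
  obtain ⟨_, ⟨a, ha, rfl⟩, _, ⟨b, hb, rfl⟩, hab⟩ := h3
  by_cases hb0 : b = 0
  · have h4 : y = 0 := by
      apply hj
      rw [← hab, hb0, map_zero, div_zero]
    refine ⟨1, A.one_mem, one_ne_zero, ?_⟩
    rw [h4, mul_zero]
    exact A.zero_mem
  · refine ⟨b, hb, hb0, ?_⟩
    have hjb : j b ≠ 0 := (map_ne_zero_iff j hj).2 hb0
    have h4 : b * y = a := by
      apply hj
      rw [map_mul, ← hab, mul_comm, div_mul_cancel₀ _ hjb]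
    rw [h4]
    exact ha

end Pool.Agent.DM
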