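import Pool.Agent.DM.Vert
import Pool.Agent.DM.IndB

/-!
# DM, module USep: translates of a regular highest weight vector separate points of `U`

Let `v` be the highest weight vector of `∇(n)`, zero outside the big cell.

Proof of `u_sep`.  `u c' = u c * x` with `x = u d` (`hP.u_mul`, `hP.u_inv`); replacing `g` by
`g (u c)⁻¹`: `v(g x) = v(g)` for all `g`.  Suppose `d ≠ 0`, let `S = {i | d i ≠ 0}` and `a ∈ S` as
in `exists_isolated` (with `r = P.rt`, `h = P.h`, `hP.rt_red`).  For `t ∈ T`, by `tor_u`,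
`t x t⁻¹ = u (ch(rt i)(t) d_i)` and `v(g t x t⁻¹) = ch(n)(t) v(g t x) = ch(n)(t) v(g t) = v(g)`.
Let `Q` be the polynomial with `Q(c) = v(g u(c))`; so `Q(ch(rt i)(t) d_i) = v(g)` for all `t`, i.e.
`∑_B coeff B Q d^B ch(∑ B_i rt_i)(t) = v(g)`; characters are independent, so for every weight
`e ≠ 0` the sum of `coeff B Q d^B` over the `B` with `∑ B_i rt_i = e` is `0`.  For `e = m rt_a`,
`m ≥ 1`: if `d^B ≠ 0` then `B` is supported in `S`, so `B = m δ_a`.  Hence
`coeff (m δ_a) Q = 0` for all `m ≥ 1` and `v(g x_a(s)) = v(g)` for all `g, s`.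
Take `g = x_-a(c)`, `s = -1/c`, `c ≠ 0`: `v(x_-a(c) x_a(-1/c)) = v(x_-a(c)) = v(1) = 1`, but
`x_-a(c) x_a(-1/c) = x_a(1/c) phi a (wy c)` is not in the cell: otherwise `phi a (wy c)` would be in
the cell (`U · cell = cell`), contradicting `wy_not_mem`.
-/

set_option autoImplicit false

namespace Pool.Agent.DM

open MvPolynomial

variable {k : Type*} [Field k] [Infinite k] {G : Type*} [Group G] {T : Type*} [CommGroup T]
  {X : Type*} [AddCommGroup X] {P : PinData k G T X}

namespace PinData

omit [Infinite k] in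
private theorem usep_char (hP : P.Ax) (F : Finset X) (c : X → k)
    (h : ∀ t, ∑ e ∈ F, c e * ((P.ch e t : kˣ) : k) = 0) : ∀ e ∈ F, c e = 0 := by
  have hli := (linearIndependent_monoidHom T k).comp
    (fun e : X => (Units.coeHom k).comp (P.ch e)) (by
      intro e e' hee
      apply hP.ch_inj
      ext t
      exact DFunLike.congr_fun hee t)
  rw [linearIndependent_iff'] at hli
  refine hli F c ?_
  funext t
  have := h t
  rw [Finset.sum_apply, Pi.zero_apply, ← this]
  rfl

omit [Infinite k] in
/-- translation by the element `x = u d` and conjugation by the torus -/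
private theorem usep_tor (hP : P.Ax) {n : X} {v : G → k} (hv : P.IsV n v) {d : Fin P.N → k}
    (h : ∀ g, v (g * P.u d) = v g) (t : T) (g : G) :
    v (g * P.u fun i => ((P.ch (P.rt i) t : kˣ) : k) * d i) = v g := by
  rw [← tor_u hP t d]
  have h1 : ∀ y (t' : T), v (y * P.tor t') = (((P.ch n t')⁻¹ : kˣ) : k) * v y := by
    intro y t'
    have := hv.1.1 y t' 0
    rwa [v_zero, mul_one] at this
  have h2 : g * (P.tor t * P.u d * (P.tor t)⁻¹) = (g * P.tor t) * P.u d * P.tor t⁻¹ := by
    rw [map_inv]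
    group
  rw [h2, h1, h, h1, map_inv, inv_inv, ← mul_assoc, ← Units.val_mul, mul_inv_cancel,
    Units.val_one, one_mul]

/-- the coefficients of the powers of one variable vanish -/
private theorem usep_coeff (hP : P.Ax) {d : Fin P.N → k} {a : Fin P.N} (hda : d a ≠ 0)
    {S : Finset (Fin P.N)} (hS : ∀ i, i ∈ S ↔ d i ≠ 0)
    (hiso : ∀ (m : ℕ) (B : Fin P.N → ℕ),
      ∑ i ∈ S, B i • P.rt i = m • P.rt a → ∀ i ∈ S, i ≠ a → B i = 0)
    {Q : MvPolynomial (Fin P.N) k} {w : k}
    (hQ : ∀ t : T, eval (fun i => ((P.ch (P.rt i) t : kˣ) : k) * d i) Q = w) (m : ℕ)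
    (hm : 0 < m) : coeff (Finsupp.single a m) Q = 0 := by
  classical
  by_contra hne
  set wt' : (Fin P.N →₀ ℕ) → X := fun B => ∑ i, B i • P.rt i with hwt
  set I : X → k := fun e => ∑ B ∈ Q.support with wt' B = e, coeff B Q * ∏ i, d i ^ B i with hI
  have h1 : ∀ t : T, ∑ e ∈ insert 0 (Q.support.image wt'),
      (I e - if e = 0 then w else 0) * ((P.ch e t : kˣ) : k) = 0 := by
    intro t
    have h2 : ∑ e ∈ insert 0 (Q.support.image wt'), I e * ((P.ch e t : kˣ) : k) = w := by
      rw [← hQ t, eval_eq']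
      rw [← Finset.sum_fiberwise_of_maps_to (s := Q.support)
        (t := insert 0 (Q.support.image wt')) (g := wt')
        (fun B hB => Finset.mem_insert_of_mem (Finset.mem_image_of_mem wt' hB))]
      refine Finset.sum_congr rfl fun e _ => ?_
      rw [hI]
      simp only
      rw [Finset.sum_mul]
      refine Finset.sum_congr rfl fun B hB => ?_
      rw [Finset.mem_filter] at hB
      rw [← hB.2, hwt, ch_sum hP, Units.coe_prod]
      simp only [mul_pow, Finset.prod_mul_distrib]
      have h3 : ∀ i, ((P.ch (B i • P.rt i) t : kˣ) : k) = ((P.ch (P.rt i) t : kˣ) : k) ^ B i := by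
        intro i
        rw [ch_nsmul hP, Units.val_pow_eq_pow_val]
      simp only [h3]
      ring
    simp only [sub_mul, Finset.sum_sub_distrib]
    rw [h2, sub_eq_zero]
    have h4 : ∀ e, (if e = 0 then w else 0) * ((P.ch e t : kˣ) : k) = if e = 0 then w else 0 := by
      intro e
      split_ifs with he
      · rw [he, ch_zero hP, Units.val_one, mul_one]
      · rw [zero_mul]
    simp only [h4]
    rw [Finset.sum_ite_eq' _ 0, if_pos (Finset.mem_insert_self _ _)]
  have h5 := usep_char hP _ _ h1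
  have hB0 : Finsupp.single a m ∈ Q.support := mem_support_iff.2 hne
  have hwB0 : wt' (Finsupp.single a m) = m • P.rt a := by
    rw [hwt]
    simp only
    rw [Finset.sum_eq_single a]
    · rw [Finsupp.single_eq_same]
    · intro i _ hi
      rw [Finsupp.single_eq_of_ne hi, zero_smul]
    · intro hcon
      exact absurd (Finset.mem_univ a) hcon
  have he0 : m • P.rt a ≠ 0 := by
    intro hcon
    have h6 := congrArg P.h hcon
    rw [map_nsmul, map_zero, nsmul_eq_mul] at h6
    have h7 := hP.h_pos a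
    have h8 : (0 : ℤ) < m := by exact_mod_cast hm
    have := mul_pos h8 h7
    linarith
  have h6 := h5 (m • P.rt a) (Finset.mem_insert_of_mem (by
    rw [← hwB0]
    exact Finset.mem_image_of_mem wt' hB0))
  rw [if_neg he0, sub_zero, hI] at h6
  simp only at h6
  rw [Finset.sum_eq_single_of_mem (Finsupp.single a m) (Finset.mem_filter.2 ⟨hB0, hwB0⟩)] at h6
  · rw [_root_.mul_eq_zero] at h6
    rcases h6 with h6 | h6
    · exact hne h6
    · rw [Finset.prod_eq_zero_iff] at h6
      obtain ⟨i, -, hi⟩ := h6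
      by_cases hia : i = a
      · rw [hia] at hi
        rw [Finsupp.single_eq_same, pow_eq_zero_iff hm.ne'] at hi
        exact hda hi
      · rw [Finsupp.single_eq_of_ne hia, pow_zero] at hi
        exact one_ne_zero hi
  · intro B hB hBne
    rw [Finset.mem_filter] at hB
    by_contra hcon
    have hprod : ∏ i, d i ^ B i ≠ 0 := fun h0 => hcon (by rw [h0, mul_zero])
    rw [Finset.prod_ne_zero_iff] at hprod
    have hsupp : ∀ i, d i = 0 → B i = 0 := by
      intro i hi
      by_contra hBi
      exact hprod i (Finset.mem_univ i) (by rw [hi, zero_pow hBi])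
    have hsum : ∑ i ∈ S, B i • P.rt i = m • P.rt a := by
      rw [← hB.2, hwt]
      refine Finset.sum_subset (Finset.subset_univ _) fun i _ hi => ?_
      have : d i = 0 := by
        by_contra hdi
        exact hi ((hS i).2 hdi)
      rw [hsupp i this, zero_smul]
    have hz : ∀ i, i ≠ a → B i = 0 := by
      intro i hia
      by_cases hdi : d i = 0
      · exact hsupp i hdi
      · exact hiso m B hsum i ((hS i).2 hdi) hia
    have hBa : B a • P.rt a = m • P.rt a := by
      rw [← hB.2, hwt]
      simp only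
      rw [Finset.sum_eq_single a]
      · intro i _ hi
        rw [hz i hi, zero_smul]
      · intro hcon
        exact absurd (Finset.mem_univ a) hcon
    have hBm : B a = m := by
      have h7 := congrArg P.h hBa
      rw [map_nsmul, map_nsmul, nsmul_eq_mul, nsmul_eq_mul] at h7
      have h8 := mul_right_cancel₀ (hP.h_pos a).ne' h7
      exact_mod_cast h8
    apply hBne
    ext i
    by_cases hia : i = a
    · rw [hia, Finsupp.single_eq_same, hBm]
    · rw [Finsupp.single_eq_of_ne hia, hz i hia]

omit [Infinite k] in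
private theorem usep_cell (hP : P.Ax) {g : G} {c : Fin P.N → k} (h : P.u c * g ∈ P.cell) :
    g ∈ P.cell := by
  obtain ⟨α, t, β, hg⟩ := h
  obtain ⟨mi, hmi⟩ := hP.u_inv
  obtain ⟨mm, hmm⟩ := hP.u_mul
  refine ⟨fun i => eval (Sum.elim (fun i => eval c (mi i)) α) (mm i), t, β, ?_⟩
  have h1 : g = ((P.u c)⁻¹ * P.u α) * P.tor t * P.v β := by
    rw [mul_assoc, mul_assoc, ← mul_assoc (P.u α), ← hg, inv_mul_cancel_left]
  rw [← hmm, ← hmi]
  exact h1

theorem u_sep (hP : P.Ax) {n : X} {v : G → k} (hv : P.IsV n v) (hv0 : ∀ g, g ∉ P.cell → v g = 0)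
    {c c' : Fin P.N → k} (h : ∀ g, v (g * P.u c) = v (g * P.u c')) : c = c' := by
  classical
  obtain ⟨mi, hmi⟩ := hP.u_inv
  obtain ⟨mm, hmm⟩ := hP.u_mul
  obtain ⟨d, hd⟩ : ∃ d, (P.u c)⁻¹ * P.u c' = P.u d := ⟨_, by rw [hmi, hmm]⟩
  have hx : ∀ g, v (g * P.u d) = v g := by
    intro g
    rw [← hd, ← mul_assoc, ← h, inv_mul_cancel_right]
  by_cases hd0 : d = 0
  · apply hP.u_inj
    rw [hd0, u_zero, inv_mul_eq_one] at hd
    exact hd
  exfalso
  have hS : (Finset.univ.filter fun i => d i ≠ 0).Nonempty := by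
    obtain ⟨i, hi⟩ := Function.ne_iff.1 hd0
    exact ⟨i, Finset.mem_filter.2 ⟨Finset.mem_univ i, hi⟩⟩
  obtain ⟨a, haS, hiso⟩ := exists_isolated P.rt P.h hP.h_pos hP.rt_red _ hS
  have hda : d a ≠ 0 := (Finset.mem_filter.1 haS).2
  have hxa : ∀ g s, v (g * P.xp a s) = v g := by
    intro g s
    obtain ⟨Q, hQ⟩ := polyMap_iff.1 (hv.1.2 g)
    have hc := usep_coeff hP hda (fun i => by simp) hiso (Q := Q) (w := v g) (fun t => by
      rw [← hQ]
      exact usep_tor hP hv hx t g)
    have h0 : eval (0 : Fin P.N → k) Q = v g := by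
      rw [← hQ, u_zero, mul_one]
    rw [← u_single, ← h0]
    have h1 : v (g * P.u (Pi.single a s)) = eval (Pi.single a s) Q := hQ _
    rw [h1, eval_eq', eval_eq']
    refine Finset.sum_congr rfl fun B hB => ?_
    by_cases hB0 : B = 0
    · rw [hB0]
      simp
    congr 1
    obtain ⟨i, hi⟩ := Finsupp.ne_iff.1 hB0
    rw [Finsupp.coe_zero, Pi.zero_apply] at hi
    have hr : ∏ i, (0 : Fin P.N → k) i ^ B i = 0 :=
      Finset.prod_eq_zero (Finset.mem_univ i) (by rw [Pi.zero_apply, zero_pow hi])
    rw [hr]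
    by_cases hex : ∃ j, j ≠ a ∧ B j ≠ 0
    · obtain ⟨j, hja, hBj⟩ := hex
      exact Finset.prod_eq_zero (Finset.mem_univ j) (by
        rw [Pi.single_eq_of_ne hja, zero_pow hBj])
    · exfalso
      push Not at hex
      have hBs : B = Finsupp.single a (B a) := by
        ext j
        by_cases hja : j = a
        · rw [hja, Finsupp.single_eq_same]
        · rw [Finsupp.single_eq_of_ne hja, hex j hja]
      have hBa : 0 < B a := by
        rcases Nat.eq_zero_or_pos (B a) with h2 | h2
        · exfalso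
          apply hB0
          rw [hBs, h2, Finsupp.single_zero]
        · exact h2
      have h3 := hc (B a) hBa
      rw [← hBs] at h3
      exact (mem_support_iff.1 hB) h3
  have h1 : v (P.xm a 1 * P.xp a (-1)) = 1 := by
    rw [hxa]
    have h2 := hv.1.1 1 1 (Pi.single a 1)
    rw [map_one, one_mul, one_mul, map_one, inv_one, Units.val_one, one_mul, v_single] at h2
    rw [h2]
    have h3 := hv.2 0
    rwa [u_zero] at h3
  have h2 : P.xm a 1 * P.xp a (-1) ∉ P.cell := by
    intro hmem
    apply wy_not_mem hP a 1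
    have h3 : P.phi a (wy 1) = P.u (Pi.single a (-1)) * (P.xm a 1 * P.xp a (-1)) := by
      rw [u_single, wy, map_mul, map_mul, inv_one, Units.val_one, xp, xm, mul_assoc]
    apply usep_cell hP (c := Pi.single a 1)
    rw [h3, ← mul_assoc, u_single, u_single, xp_add, add_neg_cancel, xp_zero, one_mul]
    exact hmem
  rw [hv0 _ h2] at h1
  exact zero_ne_one h1

end PinData

end Pool.Agent.DM
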