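import Pool.Agent.DM.Prod
import Pool.Agent.DM.Sep
import Pool.Agent.DM.USep

/-!
# DM, module PIa: pure inseparability on `U`

`v` is the highest weight vector of `Ind n`, zero outside the cell, `Lu v` the space of
restrictions of `Lsp v` to `U` (polynomials), `R₀ = Algebra.adjoin k (Lu v)`.

Proof of `pi_unip`.  `R₀` separates points (`u_sep`: if all translates of `v` agree at `u c` and
`u c'`, then `c = c'`).  Let `y_1, …, y_r` be a basis of `Ind n` (`Ind_fin`), `Q_i` their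
restrictions.  `sep` gives `n_i`, `r_i ∈ R₀`, `r_i ≠ 0`, `r_i Q_i^(p^(n_i)) ∈ R₀`; raising to powers
of `p` we may take all `n_i` equal, `q' = p^(n_i)`, and then `r_i = r` (product).  As
`(∑ a_i Q_i)^q' = ∑ a_i^q' Q_i^q'`, `r Q^q' ∈ R₀` for the restriction `Q` of every `y ∈ Ind n`.
Let `E = {r ∈ R₀ | r Q^q' ∈ R₀ for all restrictions Q of elements of Ind n}`, a nonzero subspace
of `R`, stable under left translations: `Lu v` and the space of restrictions of `Ind n` are stable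
under `ltr b` (`lreg((u b)⁻¹) y` restricts to `ltr b` of the restriction of `y`), so `R₀` is, and
`(ltr b r) Q^q' = ltr b (r (ltr b⁻¹ Q)^q')` where `ltr b` has an inverse (`u b` has an inverse
`u b'`).  By `one_mem_of_stable`, `1 ∈ E`.
-/

set_option autoImplicit false

namespace Pool.Agent.DM

open MvPolynomial

variable {k : Type*} [Field k] [IsAlgClosed k] [Infinite k] {G : Type*} [Group G]
  {T : Type*} [CommGroup T] {X : Type*} [AddCommGroup X] (P : PinData k G T X)

namespace PinData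

/-- restrictions to `U` of the elements of `Lsp v` -/
def Lu (v : G → k) : Submodule k (MvPolynomial (Fin P.N) k) where
  carrier := {Q | ∃ f ∈ Lsp v, ∀ c, f (P.u c) = eval c Q}
  add_mem' := by
    rintro Q Q' ⟨f, hf, h⟩ ⟨f', hf', h'⟩
    exact ⟨f + f', add_mem hf hf', fun c => by rw [Pi.add_apply, h, h', map_add]⟩
  zero_mem' := ⟨0, zero_mem _, fun c => by simp⟩
  smul_mem' := by
    rintro a Q ⟨f, hf, h⟩
    exact ⟨a • f, Submodule.smul_mem _ _ hf, fun c => by rw [Pi.smul_apply, h, smul_eval,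
      smul_eq_mul]⟩

variable {P}

omit [IsAlgClosed k] [Infinite k] in
/-- translates of elements of `Lsp v` -/
private theorem pia_lsp {v f : G → k} (hf : f ∈ Lsp v) (g : G) : lreg k G G g f ∈ Lsp v := by
  unfold Lsp at hf ⊢
  induction hf using Submodule.span_induction with
  | mem x hx =>
    obtain ⟨g', rfl⟩ := hx
    refine Submodule.subset_span ⟨g * g', ?_⟩
    simp only
    rw [map_mul]
    rfl
  | zero => rw [map_zero]; exact zero_mem _
  | add x y _ _ hx hy => rw [map_add]; exact add_mem hx hy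
  | smul a x _ hx => rw [map_smul]; exact Submodule.smul_mem _ _ hx

omit [IsAlgClosed k] [Infinite k] in
private theorem pia_self (v : G → k) (g : G) : lreg k G G g v ∈ Lsp v :=
  Submodule.subset_span ⟨g, rfl⟩

omit [IsAlgClosed k] in
private theorem pia_ext {Q Q' : MvPolynomial (Fin P.N) k} (h : ∀ c, eval c Q = eval c Q') :
    Q = Q' := MvPolynomial.funext h

omit [IsAlgClosed k] [Infinite k] in
/-- polynomial restriction of an element of `Ind n` -/
private theorem pia_pol {n : X} {y : G → k} (hy : y ∈ P.Ind n) :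
    ∃ Q : MvPolynomial (Fin P.N) k, ∀ c, y (P.u c) = eval c Q := by
  have h := hy.2 1
  simp only [one_mul] at h
  exact polyMap_iff.1 h

omit [IsAlgClosed k] in
/-- the restriction of a translate -/
private theorem pia_ltr (hP : P.Ax) {y : G → k} {Q : MvPolynomial (Fin P.N) k}
    (hQ : ∀ c, y (P.u c) = eval c Q) (b c : Fin P.N → k) :
    lreg k G G (P.u b)⁻¹ y (P.u c) = eval c (P.ltr hP b Q) := by
  rw [lreg_apply, inv_inv, smul_eq_mul, u_mu hP, hQ, eval_ltr]

omit [IsAlgClosed k] in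
private theorem pia_stable (hP : P.Ax) (v : G → k) (b : Fin P.N → k)
    {Q : MvPolynomial (Fin P.N) k}
    (hQ : Q ∈ Algebra.adjoin k (P.Lu v : Set (MvPolynomial (Fin P.N) k))) :
    P.ltr hP b Q ∈ Algebra.adjoin k (P.Lu v : Set (MvPolynomial (Fin P.N) k)) := by
  have h : Algebra.adjoin k (P.Lu v : Set (MvPolynomial (Fin P.N) k)) ≤
      (Algebra.adjoin k (P.Lu v : Set (MvPolynomial (Fin P.N) k))).comap (P.ltr hP b) := by
    apply Algebra.adjoin_le
    intro S hS
    obtain ⟨f, hf, hfS⟩ := hS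
    exact Algebra.subset_adjoin ⟨lreg k G G (P.u b)⁻¹ f, pia_lsp hf _, pia_ltr hP hfS b⟩
  exact h hQ

omit [IsAlgClosed k] in
private theorem pia_inv (hP : P.Ax) {b b' : Fin P.N → k} (h : (P.u b)⁻¹ = P.u b')
    (Q : MvPolynomial (Fin P.N) k) : P.ltr hP b (P.ltr hP b' Q) = Q := by
  apply pia_ext
  intro c
  rw [eval_ltr, eval_ltr]
  congr 2
  apply hP.u_inj
  rw [← u_mu, ← u_mu, ← h, inv_mul_cancel_left]

theorem pi_unip (p : ℕ) [Fact p.Prime] [CharP k p] (hP : P.Ax) {n : X} {v : G → k}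
    (hv : P.IsV n v) (hv0 : ∀ g, g ∉ P.cell → v g = 0) :
    ∃ e : ℕ, ∀ y ∈ P.Ind n, ∀ Q : MvPolynomial (Fin P.N) k, (∀ c, y (P.u c) = eval c Q) →
      Q ^ (p ^ e) ∈ Algebra.adjoin k (P.Lu v : Set (MvPolynomial (Fin P.N) k)) := by
  classical
  set A := Algebra.adjoin k (P.Lu v : Set (MvPolynomial (Fin P.N) k)) with hA
  -- `A` separates points
  have hsep : ∀ c c' : Fin P.N → k, (∀ a ∈ A, eval c a = eval c' a) → c = c' := by
    intro c c' h
    apply u_sep hP hv hv0
    intro g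
    obtain ⟨Q, hQ⟩ := polyMap_iff.1 (hv.1.2 g)
    have hQA : Q ∈ A := by
      apply Algebra.subset_adjoin
      refine ⟨lreg k G G g⁻¹ v, pia_self v _, fun c => ?_⟩
      rw [lreg_apply, inv_inv, smul_eq_mul, hQ]
    rw [hQ, hQ, h Q hQA]
  have := Ind_fin hP n
  let B := Module.finBasis k (P.Ind n)
  choose QB hQB using fun i => pia_pol (B i).2
  choose m r hr hr0 hrm using fun i => sep p A hsep (QB i)
  obtain ⟨e, he⟩ : ∃ e, ∀ i, m i ≤ e := ⟨∑ i, m i, fun i =>
    Finset.single_le_sum (fun _ _ => Nat.zero_le _) (Finset.mem_univ i)⟩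
  refine ⟨e, ?_⟩
  obtain ⟨s, hsA, hs0, hs⟩ : ∃ s ∈ A, s ≠ 0 ∧ ∀ i, s * QB i ^ (p ^ e) ∈ A := by
    refine ⟨∏ i, r i ^ (p ^ (e - m i)), A.prod_mem fun i _ => A.pow_mem (hr i) _,
      Finset.prod_ne_zero_iff.2 fun i _ => pow_ne_zero _ (hr0 i), fun i => ?_⟩
    rw [← Finset.prod_erase_mul _ _ (Finset.mem_univ i), mul_assoc]
    refine A.mul_mem (A.prod_mem fun j _ => A.pow_mem (hr j) _) ?_
    have h1 : r i ^ (p ^ (e - m i)) * QB i ^ (p ^ e) =
        (r i * QB i ^ (p ^ (m i))) ^ (p ^ (e - m i)) := by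
      rw [mul_pow, ← pow_mul, ← pow_add, Nat.add_sub_cancel' (he i)]
    rw [h1]
    exact A.pow_mem (hrm i) _
  have hall : ∀ y ∈ P.Ind n, ∀ Q : MvPolynomial (Fin P.N) k, (∀ c, y (P.u c) = eval c Q) →
      s * Q ^ (p ^ e) ∈ A := by
    intro y hy Q hQ
    have hyB : (y : G → k) = ∑ i, B.repr ⟨y, hy⟩ i • (B i : G → k) := by
      have h1 := congrArg (Subtype.val) (B.sum_repr ⟨y, hy⟩)
      rw [AddSubmonoidClass.coe_finsetSum] at h1
      exact h1.symm
    have hQs : Q = ∑ i, B.repr ⟨y, hy⟩ i • QB i := by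
      apply pia_ext
      intro c
      rw [← hQ, map_sum]
      conv_lhs => rw [hyB]
      rw [Finset.sum_apply]
      refine Finset.sum_congr rfl fun i _ => ?_
      rw [Pi.smul_apply, hQB, smul_eval, smul_eq_mul]
    rw [hQs, sum_pow_char_pow, Finset.mul_sum]
    refine A.sum_mem fun i _ => ?_
    rw [smul_pow, mul_smul_comm]
    exact A.smul_mem (hs i) _
  -- the stable subspace
  let E : Submodule k (MvPolynomial (Fin P.N) k) :=
    { carrier := {t | t ∈ A ∧ ∀ y ∈ P.Ind n, ∀ Q : MvPolynomial (Fin P.N) k,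
        (∀ c, y (P.u c) = eval c Q) → t * Q ^ (p ^ e) ∈ A}
      add_mem' := by
        rintro t t' ⟨h1, h2⟩ ⟨h1', h2'⟩
        refine ⟨A.add_mem h1 h1', fun y hy Q hQ => ?_⟩
        rw [add_mul]
        exact A.add_mem (h2 y hy Q hQ) (h2' y hy Q hQ)
      zero_mem' := ⟨A.zero_mem, fun y _ Q _ => by rw [zero_mul]; exact A.zero_mem⟩
      smul_mem' := by
        rintro a t ⟨h1, h2⟩
        refine ⟨A.smul_mem h1 a, fun y hy Q hQ => ?_⟩
        rw [smul_mul_assoc]
        exact A.smul_mem (h2 y hy Q hQ) a }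
  have hE : E ≠ ⊥ := (Submodule.ne_bot_iff E).2 ⟨s, ⟨hsA, hall⟩, hs0⟩
  have hst : ∀ b, ∀ Q ∈ E, P.ltr hP b Q ∈ E := by
    rintro b t ⟨h1, h2⟩
    refine ⟨pia_stable hP v b h1, fun y hy Q hQ => ?_⟩
    obtain ⟨mi, hmi⟩ := hP.u_inv
    have hb := hmi b
    set b' := fun i => eval b (mi i) with hb'
    have h3 := h2 (lreg k G G (P.u b')⁻¹ y) (Ind_stable n _ _ hy) (P.ltr hP b' Q)
      (pia_ltr hP hQ b')
    have h4 := pia_stable hP v b h3
    rwa [map_mul, map_pow, pia_inv hP hb] at h4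
  have h1 := one_mem_of_stable hP E hE hst
  intro y hy Q hQ
  have h2 := h1.2 y hy Q hQ
  rwa [one_mul] at h2

end PinData

end Pool.Agent.DM
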