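import Pool.Agent.DM.PIa

/-!
# DM, module PIb: from `U` to `G`

Proof of `pi_mul`.  `R₀ = Algebra.adjoin k (Lu v) = ⋃_j (Lu v)^j` (increasing since `1 ∈ Lu v`:
`v = 1` on `U`).  Let `e` be as in `pi_unip`, `q' = p^e`.  The `q'`-th powers of the restrictions of
a basis `y_i` of `Ind n` lie in `(Lu v)^(q'+j)` for some `j`, uniformly in `i`, hence also those of
all `y ∈ Ind n` (`(∑ a_i y_i)^q' = ∑ a_i^q' y_i^q'`).  So there is `f ∈ (Lsp v)^(q'+j)` with
the same restriction to `U` as `y^q' v^j` (`v = 1` on `U`; products of restrictions are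
restrictions of products: `Submodule.pow_induction_on_left'` or induction on the exponent); both lie
in `Ind((q'+j) • n)` (`Lsp_pow_le`), so `y^q' v^j = f ∈ (Lsp v)^(q'+j)` (`Ind_ext`).  Apply
`lreg g` and replace `y` by `lreg(g⁻¹) y`: `Lsp v` is stable under translations.
-/

set_option autoImplicit false

namespace Pool.Agent.DM

open MvPolynomial

variable {k : Type*} [Field k] [IsAlgClosed k] [Infinite k] {G : Type*} [Group G]
  {T : Type*} [CommGroup T] {X : Type*} [AddCommGroup X] {P : PinData k G T X}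

namespace PinData

omit [IsAlgClosed k] [Infinite k] in
private theorem pib_pow_ind {v : G → k} {p : ℕ → (G → k) → Prop}
    (h0 : ∀ r : k, p 0 (algebraMap k (G → k) r))
    (hadd : ∀ i f f', p i f → p i f' → p i (f + f'))
    (hmul : ∀ m ∈ Lsp v, ∀ i f, p i f → p (i + 1) (m * f)) (j : ℕ) {f : G → k}
    (hf : f ∈ Lsp v ^ j) : p j f := by
  refine Submodule.pow_induction_on_left' (Lsp v) (C := fun i x _ => p i x)
    (fun r => h0 r) (fun x y i _ _ hx hy => hadd i x y hx hy) (fun m hm i x _ hx => ?_) hf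
  exact hmul m hm i x hx

omit [IsAlgClosed k] [Infinite k] in
private theorem pib_lsp {v f : G → k} (hf : f ∈ Lsp v) (g : G) : lreg k G G g f ∈ Lsp v := by
  unfold Lsp at hf ⊢
  induction hf using Submodule.span_induction with
  | mem x hx =>
    obtain ⟨g', rfl⟩ := hx
    refine Submodule.subset_span ⟨g * g', ?_⟩
    simp only
    rw [map_mul]
    rfl
  | zero => rw [map_zero]; exact zero_mem _
  | add x y _ _ hx hy => rw [map_add]; exact add_mem hx hy
  | smul a x _ hx => rw [map_smul]; exact Submodule.smul_mem _ _ hx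

omit [IsAlgClosed k] [Infinite k] in
private theorem pib_lsp_pow {v f : G → k} (j : ℕ) (hf : f ∈ Lsp v ^ j) (g : G) :
    lreg k G G g f ∈ Lsp v ^ j := by
  refine pib_pow_ind (p := fun i f => lreg k G G g f ∈ Lsp v ^ i) (fun r => ?_)
    (fun i f f' h h' => ?_) (fun m hm i f h => ?_) j hf
  · have h1 : lreg k G G g (algebraMap k (G → k) r) = algebraMap k (G → k) r := by
      funext y
      rfl
    rw [h1, pow_zero]
    exact Submodule.algebraMap_mem r
  · rw [map_add]
    exact add_mem h h'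
  · rw [lreg_mul, pow_succ']
    exact Submodule.mul_mem_mul (pib_lsp hm g) h

omit [IsAlgClosed k] [Infinite k] in
/-- polynomial restriction of an element of `Ind n` -/
private theorem pib_pol {n : X} {y : G → k} (hy : y ∈ P.Ind n) :
    ∃ Q : MvPolynomial (Fin P.N) k, ∀ c, y (P.u c) = eval c Q := by
  have h := hy.2 1
  simp only [one_mul] at h
  exact polyMap_iff.1 h

omit [IsAlgClosed k] in
private theorem pib_lsp_le {n : X} {v : G → k} (hv : v ∈ P.Ind n) : Lsp v ≤ P.Ind n := by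
  apply Submodule.span_le.2
  rintro _ ⟨g, rfl⟩
  exact Ind_stable n g v hv

/-- the restriction to `U` of an element of `(Lsp v)^j` is in `(Lu v)^j` and conversely -/
theorem Lu_pow (hP : P.Ax) {n : X} {v : G → k} (hv : v ∈ P.Ind n) (j : ℕ)
    (Q : MvPolynomial (Fin P.N) k) :
    Q ∈ P.Lu v ^ j ↔ ∃ f ∈ Lsp v ^ j, ∀ c, f (P.u c) = eval c Q := by
  constructor
  · intro hQ
    refine Submodule.pow_induction_on_left' (P.Lu v)
      (C := fun i x _ => ∃ f ∈ Lsp v ^ i, ∀ c, f (P.u c) = eval c x)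
      (fun r => ?_) (fun x y i _ _ hx hy => ?_) (fun m hm i x _ hx => ?_) hQ
    · refine ⟨algebraMap k (G → k) r, by rw [pow_zero]; exact Submodule.algebraMap_mem r,
        fun c => ?_⟩
      rw [MvPolynomial.algebraMap_eq, eval_C]
      rfl
    · obtain ⟨f, hf, hfx⟩ := hx
      obtain ⟨f', hf', hfy⟩ := hy
      exact ⟨f + f', add_mem hf hf', fun c => by rw [Pi.add_apply, hfx, hfy, map_add]⟩
    · obtain ⟨f, hf, hfx⟩ := hx
      obtain ⟨f', hf', hfy⟩ := hm
      refine ⟨f' * f, by rw [pow_succ']; exact Submodule.mul_mem_mul hf' hf, fun c => ?_⟩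
      rw [Pi.mul_apply, hfx, hfy, map_mul]
  · rintro ⟨f, hf, hfQ⟩
    have h := pib_pow_ind (p := fun i f => ∃ Q ∈ P.Lu v ^ i, ∀ c, f (P.u c) = eval c Q)
      (fun r => ⟨algebraMap k _ r, by rw [pow_zero]; exact Submodule.algebraMap_mem r,
        fun c => by rw [MvPolynomial.algebraMap_eq, eval_C]; rfl⟩)
      (fun i f f' h h' => by
        obtain ⟨R, hR, hfR⟩ := h
        obtain ⟨R', hR', hfR'⟩ := h'
        exact ⟨R + R', add_mem hR hR', fun c => by rw [Pi.add_apply, hfR, hfR', map_add]⟩)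
      (fun m hm i f h => by
        obtain ⟨R, hR, hfR⟩ := h
        obtain ⟨S, hS⟩ := pib_pol (pib_lsp_le hv hm)
        refine ⟨S * R, by rw [pow_succ']; exact Submodule.mul_mem_mul ⟨m, hm, hS⟩ hR,
          fun c => ?_⟩
        rw [Pi.mul_apply, hS, hfR, map_mul]) j hf
    obtain ⟨R, hR, hfR⟩ := h
    have hRQ : Q = R := MvPolynomial.funext fun c => by rw [← hfQ, hfR]
    rw [hRQ]
    exact hR

theorem pi_mul (p : ℕ) [Fact p.Prime] [CharP k p] (hP : P.Ax) {n : X} {v : G → k}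
    (hv : P.IsV n v) (hv0 : ∀ g, g ∉ P.cell → v g = 0) :
    ∃ e j : ℕ, ∀ y ∈ P.Ind n, ∀ g : G,
      y ^ (p ^ e) * (lreg k G G g v) ^ j ∈ Lsp v ^ (p ^ e + j) := by
  classical
  obtain ⟨e, he⟩ := pi_unip p hP hv hv0
  have hone : (1 : Submodule k (MvPolynomial (Fin P.N) k)) ≤ P.Lu v := by
    rw [Submodule.one_le]
    exact ⟨v, by simpa using pib_lsp (v := v) (f := v) (Submodule.subset_span ⟨1, by simp⟩) 1,
      fun c => by rw [hv.2, map_one]⟩
  have hmono : ∀ {i j : ℕ}, i ≤ j → P.Lu v ^ i ≤ P.Lu v ^ j := fun h => pow_le_pow_right' hone h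
  -- elements of the algebra generated by `Lu v`
  have hadj : ∀ a ∈ Algebra.adjoin k (P.Lu v : Set (MvPolynomial (Fin P.N) k)),
      ∃ j, a ∈ P.Lu v ^ j := by
    intro a ha
    induction ha using Algebra.adjoin_induction with
    | mem x hx => exact ⟨1, by rw [pow_one]; exact hx⟩
    | algebraMap r => exact ⟨0, by rw [pow_zero]; exact Submodule.algebraMap_mem r⟩
    | add x y _ _ hx hy =>
      obtain ⟨i, hi⟩ := hx
      obtain ⟨j, hj⟩ := hy
      exact ⟨max i j, add_mem (hmono (le_max_left _ _) hi) (hmono (le_max_right _ _) hj)⟩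
    | mul x y _ _ hx hy =>
      obtain ⟨i, hi⟩ := hx
      obtain ⟨j, hj⟩ := hy
      exact ⟨i + j, by rw [pow_add]; exact Submodule.mul_mem_mul hi hj⟩
  have := Ind_fin hP n
  let B := Module.finBasis k (P.Ind n)
  choose QB hQB using fun i => pib_pol (B i).2
  choose m hm using fun i => hadj _ (he (B i) (B i).2 (QB i) (hQB i))
  obtain ⟨j, hj⟩ : ∃ j, ∀ i, m i ≤ p ^ e + j := ⟨∑ i, m i, fun i =>
    (Finset.single_le_sum (f := m) (fun _ _ => Nat.zero_le _) (Finset.mem_univ i)).trans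
      (Nat.le_add_left _ _)⟩
  have key : ∀ y ∈ P.Ind n, y ^ (p ^ e) * v ^ j ∈ Lsp v ^ (p ^ e + j) := by
    intro y hy
    obtain ⟨Q, hQ⟩ := pib_pol hy
    have hyB : (y : G → k) = ∑ i, B.repr ⟨y, hy⟩ i • (B i : G → k) := by
      have h1 := congrArg (Subtype.val) (B.sum_repr ⟨y, hy⟩)
      rw [AddSubmonoidClass.coe_finsetSum] at h1
      exact h1.symm
    have hQs : Q = ∑ i, B.repr ⟨y, hy⟩ i • QB i := by
      apply MvPolynomial.funext
      intro c
      rw [← hQ, map_sum]
      conv_lhs => rw [hyB]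
      rw [Finset.sum_apply]
      refine Finset.sum_congr rfl fun i _ => ?_
      rw [Pi.smul_apply, hQB, smul_eval, smul_eq_mul]
    have hmem : Q ^ (p ^ e) ∈ P.Lu v ^ (p ^ e + j) := by
      rw [hQs, sum_pow_char_pow]
      refine Submodule.sum_mem _ fun i _ => ?_
      rw [smul_pow]
      exact Submodule.smul_mem _ _ (hmono (hj i) (hm i))
    obtain ⟨f, hf, hfQ⟩ := (Lu_pow hP hv.1 (p ^ e + j) (Q ^ (p ^ e))).1 hmem
    have h1 : y ^ (p ^ e) * v ^ j ∈ P.Ind ((p ^ e + j) • n) := by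
      rw [add_smul]
      exact Ind_mul hP (Ind_pow hP hy _) (Ind_pow hP hv.1 _)
    have h2 : y ^ (p ^ e) * v ^ j = f := by
      refine Ind_ext hP h1 (Lsp_pow_le hP hv.1 _ hf) fun c => ?_
      rw [hfQ, map_pow, ← hQ, Pi.mul_apply, Pi.pow_apply, Pi.pow_apply, hv.2, one_pow, mul_one]
    rw [h2]
    exact hf
  refine ⟨e, j, fun y hy g => ?_⟩
  have h1 := pib_lsp_pow _ (key (lreg k G G g⁻¹ y) (Ind_stable n _ _ hy)) g
  rw [lreg_mul, lreg_pow, lreg_pow] at h1
  have h2 : lreg k G G g (lreg k G G g⁻¹ y) = y := by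
    rw [← Module.End.mul_apply, ← map_mul, mul_inv_cancel, map_one]
    rfl
  rwa [h2] at h1

end PinData

end Pool.Agent.DM
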