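import Pool.Agent.DM.Defs

/-!
# DM, module Pol: polynomial functions of one variable with values in a vector space

`Pol f` says that `f : k → V` is a polynomial function, `cf f n` is its `n`-th coefficient.
Hints: uniqueness of coefficients over an infinite field: apply linear functionals
(`Module.forall_dual_apply_eq_zero_iff`) and `Polynomial.funext`.  A very similar file is
Pool/Agent/Helper66/TR/Coef.lean (PolyCo, IsPoly).  From `Pol f` one gets `d, w` with
`f s = ∑_{j<d} s^j w_j`, then `cf_eq` computes everything.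
-/

set_option autoImplicit false

namespace Pool.Agent.DM

open Finset

section

variable {k : Type*} [Field k] {V W : Type*} [AddCommGroup V] [Module k V] [AddCommGroup W]
  [Module k W]

/-- polynomial functions of one variable -/
def Pol (f : k → V) : Prop := ∃ (d : ℕ) (w : ℕ → V), ∀ s, f s = ∑ j ∈ range d, s ^ j • w j

/-- coefficients of polynomial functions -/
noncomputable def cf (f : k → V) (n : ℕ) : V := by
  classical
  exact if h : Pol f then (if n < h.choose then h.choose_spec.choose n else 0) else 0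

variable [Infinite k] {f g : k → V}

private lemma uniq_zero {d : ℕ} {w : ℕ → V} (h : ∀ s : k, ∑ j ∈ range d, s ^ j • w j = 0)
    (n : ℕ) (hn : n < d) : w n = 0 := by
  rw [← Module.forall_dual_apply_eq_zero_iff k]
  intro φ
  have h1 : (∑ j ∈ range d, Polynomial.C (φ (w j)) * Polynomial.X ^ j : Polynomial k) = 0 := by
    apply Polynomial.funext
    intro s
    have h2 := congrArg φ (h s)
    rw [map_sum, map_zero] at h2
    rw [Polynomial.eval_finsetSum, Polynomial.eval_zero, ← h2]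
    refine sum_congr rfl fun j _ => ?_
    rw [map_smul, smul_eq_mul, Polynomial.eval_mul, Polynomial.eval_C, Polynomial.eval_pow,
      Polynomial.eval_X, mul_comm]
  have h3 := congrArg (fun P : Polynomial k => P.coeff n) h1
  simp only [Polynomial.finsetSum_coeff, Polynomial.coeff_C_mul_X_pow, Polynomial.coeff_zero] at h3
  rw [Finset.sum_eq_single n (fun j _ hj => by rw [if_neg (Ne.symm hj)])
    (fun h => absurd (mem_range.2 hn) h), if_pos rfl] at h3
  exact h3

omit [Infinite k] in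
private lemma sum_ext {d D : ℕ} (hD : d ≤ D) (w : ℕ → V) (s : k) :
    ∑ j ∈ range D, s ^ j • (if j < d then w j else 0) = ∑ j ∈ range d, s ^ j • w j := by
  rw [← Finset.sum_subset (range_subset_range.2 hD)]
  · refine sum_congr rfl fun j hj => ?_
    rw [if_pos (mem_range.1 hj)]
  · intro j _ hj
    rw [if_neg (fun h => hj (mem_range.2 h)), smul_zero]

private lemma uniq {d d' : ℕ} {w w' : ℕ → V}
    (h : ∀ s : k, ∑ j ∈ range d, s ^ j • w j = ∑ j ∈ range d', s ^ j • w' j) (n : ℕ) :
    (if n < d then w n else 0) = if n < d' then w' n else 0 := by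
  by_cases hn : n < max d d'
  · have h1 : ∀ s : k, ∑ j ∈ range (max d d'),
        s ^ j • ((if j < d then w j else 0) - if j < d' then w' j else 0) = 0 := by
      intro s
      simp only [smul_sub]
      rw [Finset.sum_sub_distrib, sum_ext (le_max_left _ _), sum_ext (le_max_right _ _), h s,
        sub_self]
    exact sub_eq_zero.1 (uniq_zero h1 n hn)
  · rw [not_lt, max_le_iff] at hn
    rw [if_neg (not_lt.2 hn.1), if_neg (not_lt.2 hn.2)]

lemma cf_eq {d : ℕ} {w : ℕ → V} (h : ∀ s, f s = ∑ j ∈ range d, s ^ j • w j) (n : ℕ) :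
    cf f n = if n < d then w n else 0 := by
  have hf : Pol f := ⟨d, w, h⟩
  unfold cf
  rw [dif_pos hf]
  exact uniq (fun s => (hf.choose_spec.choose_spec s).symm.trans (h s)) n

private lemma cf_eq' {d : ℕ} {w : ℕ → V} (h : ∀ s, f s = ∑ j ∈ range d, s ^ j • w j)
    (hw : ∀ n, d ≤ n → w n = 0) (n : ℕ) : cf f n = w n := by
  rw [cf_eq h]
  split_ifs with h1
  · rfl
  · exact (hw n (not_lt.1 h1)).symm

lemma Pol.sum_cf (h : Pol f) : ∃ d : ℕ, (∀ n, d ≤ n → cf f n = 0) ∧
    ∀ s, f s = ∑ j ∈ range d, s ^ j • cf f j := by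
  obtain ⟨d, w, hw⟩ := h
  refine ⟨d, fun n hn => ?_, fun s => ?_⟩
  · rw [cf_eq hw, if_neg (not_lt.2 hn)]
  · rw [hw s]
    refine sum_congr rfl fun j hj => ?_
    rw [cf_eq hw, if_pos (mem_range.1 hj)]

private lemma Pol.sum_ge (h : Pol f) : ∃ d : ℕ, (∀ n, d ≤ n → cf f n = 0) ∧
    ∀ D, d ≤ D → ∀ s, f s = ∑ j ∈ range D, s ^ j • cf f j := by
  obtain ⟨d, h1, h2⟩ := h.sum_cf
  refine ⟨d, h1, fun D hD s => ?_⟩
  rw [h2 s]
  apply Finset.sum_subset (range_subset_range.2 hD)
  intro j _ hj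
  rw [h1 j (not_lt.1 fun h => hj (mem_range.2 h)), smul_zero]

omit [Infinite k] in
lemma Pol.const (x : V) : Pol (fun _ : k => x) :=
  ⟨1, fun _ => x, fun s => by simp⟩

lemma cf_const (x : V) (n : ℕ) : cf (fun _ : k => x) n = if n = 0 then x else 0 := by
  rw [cf_eq (d := 1) (w := fun _ => x) (fun s => by simp)]
  simp only [Nat.lt_one_iff]

private lemma add_rep (hf : Pol f) (hg : Pol g) : ∃ D : ℕ,
    (∀ n, D ≤ n → cf f n + cf g n = 0) ∧
    ∀ s, f s + g s = ∑ j ∈ range D, s ^ j • (cf f j + cf g j) := by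
  obtain ⟨d, h1, h2⟩ := hf.sum_ge
  obtain ⟨d', h1', h2'⟩ := hg.sum_ge
  refine ⟨max d d', fun n hn => ?_, fun s => ?_⟩
  · rw [h1 n (le_trans (le_max_left _ _) hn), h1' n (le_trans (le_max_right _ _) hn), add_zero]
  · rw [h2 _ (le_max_left d d') s, h2' _ (le_max_right d d') s, ← Finset.sum_add_distrib]
    simp only [smul_add]

lemma Pol.add (hf : Pol f) (hg : Pol g) : Pol fun s => f s + g s := by
  obtain ⟨D, _, h⟩ := add_rep hf hg
  exact ⟨D, _, h⟩

lemma cf_add (hf : Pol f) (hg : Pol g) (n : ℕ) : cf (fun s => f s + g s) n = cf f n + cf g n := by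
  obtain ⟨D, h1, h⟩ := add_rep hf hg
  exact cf_eq' h h1 n

private lemma map_rep (hf : Pol f) (L : V →ₗ[k] W) : ∃ D : ℕ,
    (∀ n, D ≤ n → L (cf f n) = 0) ∧ ∀ s, L (f s) = ∑ j ∈ range D, s ^ j • L (cf f j) := by
  obtain ⟨d, h1, h2⟩ := hf.sum_cf
  refine ⟨d, fun n hn => by rw [h1 n hn, map_zero], fun s => ?_⟩
  rw [h2 s, map_sum]
  simp only [map_smul]

lemma Pol.map (hf : Pol f) (L : V →ₗ[k] W) : Pol fun s => L (f s) := by
  obtain ⟨D, _, h⟩ := map_rep hf L
  exact ⟨D, _, h⟩

lemma cf_map (hf : Pol f) (L : V →ₗ[k] W) (n : ℕ) : cf (fun s => L (f s)) n = L (cf f n) := by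
  obtain ⟨D, h1, h⟩ := map_rep hf L
  exact cf_eq' h h1 n

lemma Pol.smul (hf : Pol f) (a : k) : Pol fun s => a • f s :=
  hf.map (a • LinearMap.id)

lemma cf_smul (hf : Pol f) (a : k) (n : ℕ) : cf (fun s => a • f s) n = a • cf f n :=
  cf_map hf (a • LinearMap.id) n

lemma Pol.sum {ι : Type*} (F : Finset ι) {f : ι → k → V} (h : ∀ i ∈ F, Pol (f i)) :
    Pol fun s => ∑ i ∈ F, f i s := by
  classical
  induction F using Finset.induction_on with
  | empty => simpa using Pol.const (k := k) (0 : V)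
  | insert a F ha ih =>
    have h1 := (h a (mem_insert_self a F)).add (ih fun i hi => h i (mem_insert_of_mem hi))
    simpa only [Finset.sum_insert ha] using h1

lemma cf_sum {ι : Type*} (F : Finset ι) {f : ι → k → V} (h : ∀ i ∈ F, Pol (f i)) (n : ℕ) :
    cf (fun s => ∑ i ∈ F, f i s) n = ∑ i ∈ F, cf (f i) n := by
  classical
  induction F using Finset.induction_on with
  | empty =>
    have h1 := cf_const (k := k) (0 : V) n
    rw [ite_self] at h1
    simpa using h1
  | insert a F ha ih =>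
    have h0 : ∀ i ∈ F, Pol (f i) := fun i hi => h i (mem_insert_of_mem hi)
    rw [Finset.sum_insert ha, ← ih h0, ← cf_add (h a (mem_insert_self a F)) (Pol.sum F h0)]
    simp only [Finset.sum_insert ha]

private lemma pow_rep (hf : Pol f) (m : ℕ) : ∃ D : ℕ,
    (∀ n, D ≤ n → (if m ≤ n then cf f (n - m) else 0) = 0) ∧
    ∀ s, s ^ m • f s = ∑ j ∈ range D, s ^ j • (if m ≤ j then cf f (j - m) else 0) := by
  obtain ⟨d, h1, h2⟩ := hf.sum_cf
  refine ⟨m + d, fun n hn => ?_, fun s => ?_⟩
  · rw [h1 (n - m) (by omega), ite_self]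
  · rw [Finset.sum_range_add]
    have h3 : ∑ j ∈ range m, s ^ j • (if m ≤ j then cf f (j - m) else 0) = 0 := by
      refine Finset.sum_eq_zero fun j hj => ?_
      rw [if_neg (not_le.2 (mem_range.1 hj)), smul_zero]
    rw [h3, zero_add, h2 s, Finset.smul_sum]
    refine sum_congr rfl fun j _ => ?_
    rw [if_pos (Nat.le_add_right m j), Nat.add_sub_cancel_left, pow_add, smul_smul]

/-- multiplication with a power of the variable -/
lemma Pol.pow_smul (hf : Pol f) (m : ℕ) : Pol fun s => s ^ m • f s := by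
  obtain ⟨D, _, h⟩ := pow_rep hf m
  exact ⟨D, _, h⟩

lemma cf_pow_smul (hf : Pol f) (m n : ℕ) :
    cf (fun s => s ^ m • f s) n = if m ≤ n then cf f (n - m) else 0 := by
  obtain ⟨D, h1, h⟩ := pow_rep hf m
  exact cf_eq' h h1 n

omit [Infinite k] in
private lemma psmul_eq (Q : Polynomial k) (f : k → V) {N : ℕ} (hN : Q.natDegree < N) :
    (fun s => Q.eval s • f s) =
      fun s => ∑ i ∈ range N, Q.coeff i • (s ^ i • f s) := by
  funext s
  rw [Polynomial.eval_eq_sum_range' hN, Finset.sum_smul]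
  simp only [mul_smul]

/-- multiplication with a polynomial -/
lemma Pol.psmul (hf : Pol f) (Q : Polynomial k) : Pol fun s => Q.eval s • f s := by
  rw [psmul_eq Q f (Nat.lt_succ_self _)]
  exact Pol.sum _ fun i _ => (hf.pow_smul i).smul _

lemma cf_psmul_one (hf : Pol f) (Q : Polynomial k) :
    cf (fun s => Q.eval s • f s) 1 = Q.coeff 0 • cf f 1 + Q.coeff 1 • cf f 0 := by
  rw [psmul_eq Q f (N := Q.natDegree + 2) (by omega),
    cf_sum _ (fun i _ => (hf.pow_smul i).smul _)]
  rw [Finset.sum_range_succ', Finset.sum_range_succ', Finset.sum_eq_zero]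
  · rw [zero_add, cf_smul (hf.pow_smul _), cf_smul (hf.pow_smul _), cf_pow_smul hf,
      cf_pow_smul hf]
    simp [add_comm]
  · intro i _
    rw [cf_smul (hf.pow_smul _), cf_pow_smul hf, if_neg (by omega), smul_zero]

/-- The value at `0` is the coefficient of degree `0`. -/
lemma cf_zero (hf : Pol f) : cf f 0 = f 0 := by
  obtain ⟨d, _, h2⟩ := hf.sum_ge
  rw [h2 (d + 1) (Nat.le_succ d) 0, Finset.sum_range_succ', pow_zero, one_smul,
    Finset.sum_eq_zero, zero_add]
  intro i _
  rw [zero_pow (Nat.succ_ne_zero i), zero_smul]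

/-- Coefficients of a function with values in a subspace lie in the subspace (pass to the
quotient). -/
lemma cf_mem (K : Submodule k V) (hf : Pol f) (h : ∀ s, f s ∈ K) (n : ℕ) : cf f n ∈ K := by
  have h1 := cf_map hf K.mkQ n
  have h2 : (fun s => K.mkQ (f s)) = fun _ : k => (0 : V ⧸ K) := by
    funext s
    rw [Submodule.mkQ_apply, Submodule.Quotient.mk_eq_zero]
    exact h s
  rw [h2, cf_const, ite_self] at h1
  rw [← Submodule.Quotient.mk_eq_zero K, ← Submodule.mkQ_apply]
  exact h1.symm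

/-- A polynomial function whose coefficients lie in a subspace takes values in it. -/
lemma mem_of_cf (K : Submodule k V) (hf : Pol f) (h : ∀ n, cf f n ∈ K) (s : k) : f s ∈ K := by
  obtain ⟨d, _, h2⟩ := hf.sum_cf
  rw [h2 s]
  exact Submodule.sum_mem _ fun j _ => Submodule.smul_mem _ _ (h j)

private lemma dil_rep (hf : Pol f) (a : k) : ∃ D : ℕ,
    (∀ n, D ≤ n → a ^ n • cf f n = 0) ∧
    ∀ s, f (a * s) = ∑ j ∈ range D, s ^ j • (a ^ j • cf f j) := by
  obtain ⟨d, h1, h2⟩ := hf.sum_cf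
  refine ⟨d, fun n hn => by rw [h1 n hn, smul_zero], fun s => ?_⟩
  rw [h2 (a * s)]
  refine sum_congr rfl fun j _ => ?_
  rw [mul_pow, mul_comm, mul_smul]

/-- Dilation of the variable. -/
lemma Pol.dil (hf : Pol f) (a : k) : Pol fun s => f (a * s) := by
  obtain ⟨D, _, h⟩ := dil_rep hf a
  exact ⟨D, _, h⟩

lemma cf_dil (hf : Pol f) (a : k) (n : ℕ) : cf (fun s => f (a * s)) n = a ^ n • cf f n := by
  obtain ⟨D, h1, h⟩ := dil_rep hf a
  exact cf_eq' h h1 n

omit [Infinite k] in
private lemma Pol.dual (hf : Pol f) (φ : Module.Dual k V) :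
    ∃ Q : Polynomial k, ∀ s, φ (f s) = Q.eval s := by
  obtain ⟨d, w, h⟩ := hf
  refine ⟨∑ j ∈ range d, Polynomial.C (φ (w j)) * Polynomial.X ^ j, fun s => ?_⟩
  rw [h s, map_sum, Polynomial.eval_finsetSum]
  refine sum_congr rfl fun j _ => ?_
  rw [map_smul, smul_eq_mul, Polynomial.eval_mul, Polynomial.eval_C, Polynomial.eval_pow,
    Polynomial.eval_X, mul_comm]

/-- Two polynomial functions which agree outside the zeros of a nonzero polynomial are equal. -/
lemma Pol.eq_of (hf : Pol f) (hg : Pol g) (D : Polynomial k) (hD : D ≠ 0)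
    (h : ∀ s, D.eval s ≠ 0 → f s = g s) (s : k) : f s = g s := by
  rw [← sub_eq_zero, ← Module.forall_dual_apply_eq_zero_iff k]
  intro φ
  obtain ⟨Q, hQ⟩ := hf.dual φ
  obtain ⟨R, hR⟩ := hg.dual φ
  have h1 : D * (Q - R) = 0 := by
    apply Polynomial.funext
    intro t
    rw [Polynomial.eval_mul, Polynomial.eval_zero, Polynomial.eval_sub, ← hQ, ← hR]
    by_cases ht : D.eval t = 0
    · rw [ht, zero_mul]
    · rw [h t ht, sub_self, mul_zero]
  have h2 : Q = R := sub_eq_zero.1 ((mul_eq_zero.1 h1).resolve_left hD)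
  rw [map_sub, hQ, hR, h2, sub_self]

/-- A polynomial function which takes values in a subspace outside the zeros of a nonzero
polynomial takes values in it everywhere. -/
lemma Pol.mem_of (K : Submodule k V) (hf : Pol f) (D : Polynomial k) (hD : D ≠ 0)
    (h : ∀ s, D.eval s ≠ 0 → f s ∈ K) (s : k) : f s ∈ K := by
  have h1 := Pol.eq_of (hf.map K.mkQ) (Pol.const (0 : V ⧸ K)) D hD (fun t ht => by
    rw [Submodule.mkQ_apply, Submodule.Quotient.mk_eq_zero]
    exact h t ht) s
  rwa [Submodule.mkQ_apply, Submodule.Quotient.mk_eq_zero] at h1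

/-- If `f(s) = s^a g(1/s)` for `s ≠ 0` with polynomial functions `f, g`, then the degree of `f`
is at most `a` (so `f = 0` for negative `a`).
Proof: let `g(s) = ∑_{j<d} s^j w_j` and `m` a natural number with `m ≥ d` and `m + a ≥ 0`; then
`s^m f(s) = ∑_{j<d} s^(m + a - j) w_j` for `s ≠ 0`.  If `m + a ≥ d` the right side is polynomial
of degree `≤ m + a`; compare coefficients of `s^(m+n)` (`cf_pow_smul`, `Pol.eq_of` with
`D = X`). -/
lemma cf_inv_bound (hf : Pol f) (hg : Pol g) (a : ℤ)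
    (h : ∀ s : k, s ≠ 0 → f s = (s ^ a) • g (1 / s)) (n : ℕ) (hn : a < n) : cf f n = 0 := by
  obtain ⟨d, w, hw⟩ := hg
  obtain ⟨m, e, he, hed⟩ : ∃ m e : ℕ, (e : ℤ) = m + a ∧ d ≤ e :=
    ⟨d + a.natAbs, (d + a.natAbs + a).toNat, by omega, by omega⟩
  have hR : ∀ i ∈ range d, Pol fun s : k => s ^ (e - i) • w i :=
    fun i _ => (Pol.const (w i)).pow_smul (e - i)
  have h1 : ∀ s : k, s ^ m • f s = ∑ j ∈ range d, s ^ (e - j) • w j := by
    apply Pol.eq_of (hf.pow_smul m) (Pol.sum _ hR) Polynomial.X Polynomial.X_ne_zero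
    intro s hs
    rw [Polynomial.eval_X] at hs
    rw [h s hs, hw (1 / s), Finset.smul_sum, Finset.smul_sum]
    refine sum_congr rfl fun j hj => ?_
    rw [smul_smul, smul_smul]
    congr 1
    have hj' : j < e := lt_of_lt_of_le (mem_range.1 hj) hed
    rw [one_div, inv_pow, ← zpow_natCast s m, ← zpow_add₀ hs, ← he, zpow_natCast,
      pow_sub₀ s hs hj'.le]
  have h2 := cf_pow_smul hf m (m + n)
  rw [if_pos (Nat.le_add_right m n), Nat.add_sub_cancel_left] at h2
  rw [← h2, funext h1, cf_sum _ hR]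
  refine Finset.sum_eq_zero fun j _ => ?_
  rw [cf_pow_smul (Pol.const (w j)), cf_const]
  by_cases hj : e - j ≤ m + n
  · rw [if_pos hj, if_neg (by omega)]
  · rw [if_neg hj]

end

section mul

variable {k : Type*} [Field k] [Infinite k] {Y : Type*}

omit [Infinite k] in
private lemma mul_eq_sum {f g : k → Y → k} {d : ℕ} {w : ℕ → Y → k}
    (hw : ∀ s, f s = ∑ j ∈ range d, s ^ j • w j) :
    (fun s => f s * g s) =
      fun s => ∑ i ∈ range d, s ^ i • (LinearMap.mulLeft k (w i)) (g s) := by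
  funext s
  rw [hw s, Finset.sum_mul]
  refine sum_congr rfl fun i _ => ?_
  rw [LinearMap.mulLeft_apply, smul_mul_assoc]

/-- products of polynomial functions with values in functions -/
lemma Pol.mul {f g : k → Y → k} (hf : Pol f) (hg : Pol g) : Pol fun s => f s * g s := by
  obtain ⟨d, w, hw⟩ := hf
  rw [mul_eq_sum hw]
  exact Pol.sum _ fun i _ => (hg.map _).pow_smul i

lemma cf_mul_one {f g : k → Y → k} (hf : Pol f) (hg : Pol g) :
    cf (fun s => f s * g s) 1 = cf f 1 * cf g 0 + cf f 0 * cf g 1 := by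
  obtain ⟨d, _, hd⟩ := hf.sum_ge
  rw [mul_eq_sum (hd (d + 2) (by omega)), cf_sum _ (fun i _ => (hg.map _).pow_smul i)]
  rw [Finset.sum_range_succ', Finset.sum_range_succ', Finset.sum_eq_zero]
  · rw [zero_add, cf_pow_smul (hg.map _), cf_pow_smul (hg.map _), cf_map hg, cf_map hg]
    simp
  · intro i _
    rw [cf_pow_smul (hg.map _), if_neg (by omega)]

omit [Infinite k] in
private lemma frob_eq (p : ℕ) [Fact p.Prime] [CharP k p] {f : k → Y → k} {d : ℕ}
    {w : ℕ → Y → k} (hw : ∀ s, f s = ∑ j ∈ range d, s ^ j • w j) :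
    (fun s => f s ^ p) = fun s => ∑ j ∈ range d, s ^ (p * j) • w j ^ p := by
  funext s y
  rw [hw s, Pi.pow_apply, Finset.sum_apply, Finset.sum_apply, sum_pow_char]
  refine sum_congr rfl fun j _ => ?_
  rw [Pi.smul_apply, Pi.smul_apply, Pi.pow_apply, smul_eq_mul, smul_eq_mul, mul_pow, ← pow_mul,
    mul_comm j p]

/-- `p`-th powers in characteristic `p`: `(∑ s^j w_j)^p = ∑ s^(pj) w_j^p`. -/
lemma Pol.frob (p : ℕ) [Fact p.Prime] [CharP k p] {f : k → Y → k} (hf : Pol f) :
    Pol fun s => f s ^ p := by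
  obtain ⟨d, w, hw⟩ := hf
  rw [frob_eq p hw]
  exact Pol.sum _ fun i _ => (Pol.const (w i ^ p)).pow_smul (p * i)

lemma cf_frob (p : ℕ) [Fact p.Prime] [CharP k p] {f : k → Y → k} (hf : Pol f) (n : ℕ) :
    cf (fun s => f s ^ p) n = if p ∣ n then (cf f (n / p)) ^ p else 0 := by
  have hp : 0 < p := (Fact.out : p.Prime).pos
  obtain ⟨d, hd0, hd⟩ := hf.sum_cf
  rw [frob_eq p hd, cf_sum _ (fun i _ => (Pol.const (cf f i ^ p)).pow_smul (p * i))]
  have h1 : ∀ i ∈ range d, cf (fun s : k => s ^ (p * i) • cf f i ^ p) n =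
      if n = p * i then cf f i ^ p else 0 := by
    intro i _
    rw [cf_pow_smul (Pol.const (cf f i ^ p)), cf_const]
    by_cases h2 : n = p * i
    · rw [if_pos (by omega), if_pos (by omega), if_pos h2]
    · by_cases h3 : p * i ≤ n
      · rw [if_pos h3, if_neg (by omega), if_neg h2]
      · rw [if_neg h3, if_neg h2]
  rw [Finset.sum_congr rfl h1]
  by_cases hn : p ∣ n
  · obtain ⟨q, rfl⟩ := hn
    rw [if_pos (dvd_mul_right p q), Nat.mul_div_cancel_left q hp]
    by_cases hq : q < d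
    · rw [Finset.sum_eq_single q, if_pos rfl]
      · intro i _ hi
        rw [if_neg]
        intro h3
        exact hi (Nat.eq_of_mul_eq_mul_left hp h3).symm
      · intro h3
        exact absurd (mem_range.2 hq) h3
    · rw [hd0 q (not_lt.1 hq), zero_pow hp.ne']
      refine Finset.sum_eq_zero fun i hi => ?_
      rw [if_neg]
      intro h3
      have h4 := Nat.eq_of_mul_eq_mul_left hp h3
      rw [mem_range] at hi
      omega
  · rw [if_neg hn]
    refine Finset.sum_eq_zero fun i _ => ?_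
    rw [if_neg]
    rintro rfl
    exact hn (dvd_mul_right p i)

end mul

end Pool.Agent.DM
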