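import Pool.Agent.DM.IndC

/-!
# DM, module Prod: products of symbols

`Lsp v` is the span of all translates of the highest weight vector `v` of `Ind n`.  For
`m ∈ bx (Ind l) (Ind l')` of weight `n`, invariant under `U`, and `y` in the `j`-th power of
`Lsp v` there is `b ∈ bx (Ind (j l)) (Ind (j l'))` with symbol `y m^j`.

Proof: induction on `j` (`Submodule.mul_induction_on`, `pow_succ`).  `j = 0`: `y` is a scalar
(`1 : Submodule` consists of the constants), `b = y`.  Step: it suffices to treat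
`y = y₁ (lreg(g₁) v)` with `b₁` for `y₁`, and `b₂ = lreg(g₁) m`: by `hw_symbol` (and
`IsV.unique`) `lreg(g⁻¹) b₂ = lreg((g₁⁻¹ g)⁻¹) m ≡ v(g₁⁻¹ g) m = (lreg(g₁) v)(g) m` modulo
`low(h n)` (if `m = 0` everything is trivial).  Then `b = b₁ b₂`:
`lreg(g⁻¹) b = (y₁(g) m^j + r₁) (y₂(g) m + r₂)` with `r₁ ∈ low(j h n)`, `r₂ ∈ low(h n)`, `m^j` of
weight `j n` (`wt_pow`), use `low_mul`, `low_mul_wt`.
-/

set_option autoImplicit false

namespace Pool.Agent.DM

open MvPolynomial

variable {k : Type*} [Field k] [Infinite k] {G : Type*} [Group G] {T : Type*} [CommGroup T]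
  {X : Type*} [AddCommGroup X] {P : PinData k G T X}

/-- the span of all left translates of a function on `G` -/
def Lsp (v : G → k) : Submodule k (G → k) :=
  Submodule.span k (Set.range fun g => lreg k G G g v)

namespace PinData

omit [Infinite k] [Group G] in
private lemma prod_box_mul (a b a' b' : G → k) : box a b * box a' b' = box (a * a') (b * b') := by
  funext y
  simp only [box, Pi.mul_apply]
  ring

/-- products of elements of `M(l,l')` and `M(m,m')` -/
theorem bx_mul (hP : P.Ax) {l l' m m' : X} {f f' : G × G → k} (hf : f ∈ bx (P.Ind l) (P.Ind l'))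
    (hf' : f' ∈ bx (P.Ind m) (P.Ind m')) : f * f' ∈ bx (P.Ind (l + m)) (P.Ind (l' + m')) := by
  have h1 : bx (P.Ind l) (P.Ind l') ≤
      (bx (P.Ind (l + m)) (P.Ind (l' + m'))).comap (LinearMap.mulRight k f') := by
    refine bx_induct _ fun a ha b hb => ?_
    rw [Submodule.mem_comap, LinearMap.mulRight_apply]
    have h2 : bx (P.Ind m) (P.Ind m') ≤
        (bx (P.Ind (l + m)) (P.Ind (l' + m'))).comap (LinearMap.mulLeft k (box a b)) := by
      refine bx_induct _ fun a' ha' b' hb' => ?_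
      rw [Submodule.mem_comap, LinearMap.mulLeft_apply, prod_box_mul]
      exact box_mem (Ind_mul hP ha ha') (Ind_mul hP hb hb')
    exact h2 hf'
  exact h1 hf

theorem bx_pow (hP : P.Ax) {l l' : X} {f : G × G → k} (hf : f ∈ bx (P.Ind l) (P.Ind l')) (n : ℕ) :
    f ^ n ∈ bx (P.Ind (n • l)) (P.Ind (n • l')) := by
  induction n with
  | zero =>
    rw [pow_zero, zero_smul, zero_smul]
    have h : (1 : G × G → k) = box (1 : G → k) (1 : G → k) := by
      funext y
      simp [box]
    rw [h]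
    exact box_mem (Ind_one hP) (Ind_one hP)
  | succ n ih =>
    rw [pow_succ, succ_nsmul, succ_nsmul]
    exact bx_mul hP ih hf

/-- powers of `Lsp v` lie in induced modules -/
theorem Lsp_pow_le (hP : P.Ax) {n : X} {v : G → k} (hv : v ∈ P.Ind n) (j : ℕ) :
    Lsp v ^ j ≤ P.Ind (j • n) := by
  have h1 : Lsp v ≤ P.Ind n := by
    refine Submodule.span_le.2 ?_
    rintro _ ⟨g, rfl⟩
    exact Ind_stable n g _ hv
  induction j with
  | zero =>
    rw [pow_zero, zero_smul]
    intro y hy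
    obtain ⟨c, rfl⟩ := Submodule.mem_one.1 hy
    rw [Algebra.algebraMap_eq_smul_one]
    exact Submodule.smul_mem _ _ (Ind_one hP)
  | succ j ih =>
    rw [pow_succ, succ_nsmul]
    exact Submodule.mul_le.2 fun a ha b hb => Ind_mul hP (ih ha) (h1 hb)

/-- the functions `y` such that `y m^j` is a symbol -/
private def symSub (P : PinData k G T X) (l l' n : X) (m : G × G → k) (j : ℕ) :
    Submodule k (G → k) where
  carrier := {y | ∃ b ∈ bx (P.Ind (j • l)) (P.Ind (j • l')), ∀ g,
      lreg k G (G × G) g⁻¹ b - y g • m ^ j ∈ P.low (lreg k G (G × G)) (j * P.h n)}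
  add_mem' := by
    rintro y y' ⟨b, hb, h⟩ ⟨b', hb', h'⟩
    refine ⟨b + b', add_mem hb hb', fun g => ?_⟩
    have e : lreg k G (G × G) g⁻¹ (b + b') - (y + y') g • m ^ j =
        (lreg k G (G × G) g⁻¹ b - y g • m ^ j) + (lreg k G (G × G) g⁻¹ b' - y' g • m ^ j) := by
      rw [map_add, Pi.add_apply, add_smul]
      abel
    rw [e]
    exact add_mem (h g) (h' g)
  zero_mem' := ⟨0, zero_mem _, fun g => by
    rw [map_zero, Pi.zero_apply, zero_smul, sub_zero]
    exact zero_mem _⟩
  smul_mem' := by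
    rintro c y ⟨b, hb, h⟩
    refine ⟨c • b, Submodule.smul_mem _ _ hb, fun g => ?_⟩
    have e : lreg k G (G × G) g⁻¹ (c • b) - (c • y) g • m ^ j =
        c • (lreg k G (G × G) g⁻¹ b - y g • m ^ j) := by
      rw [map_smul, Pi.smul_apply, smul_assoc, smul_sub]
    rw [e]
    exact Submodule.smul_mem _ _ (h g)

private theorem prod_step (hP : P.Ax) {l l' n : X} {v : G → k} {m : G × G → k}
    (hm : m ∈ bx (P.Ind l) (P.Ind l')) (hw : m ∈ P.wt (lreg k G (G × G)) n)
    (hsym : ∀ g : G, lreg k G (G × G) g⁻¹ m - v g • m ∈ P.low (lreg k G (G × G)) (P.h n))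
    (j : ℕ) {y : G → k} (hy : y ∈ symSub P l l' n m j) (g₁ : G) :
    y * lreg k G G g₁ v ∈ symSub P l l' n m (j + 1) := by
  obtain ⟨b, hb, h⟩ := hy
  have hrat := bx_rat hP (Ind_rat hP l) (Ind_rat hP l')
  refine ⟨b * lreg k G (G × G) g₁ m, ?_, fun g => ?_⟩
  · rw [succ_nsmul, succ_nsmul]
    exact bx_mul hP hb (hrat.stable g₁ m hm)
  · set r1 := lreg k G (G × G) g⁻¹ b - y g • m ^ j with hr1
    have hr1l : r1 ∈ P.low (lreg k G (G × G)) (j * P.h n) := h g
    have e0 : lreg k G (G × G) g⁻¹ (lreg k G (G × G) g₁ m) =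
        lreg k G (G × G) (g₁⁻¹ * g)⁻¹ m := by
      rw [mul_inv_rev, inv_inv, map_mul]
      rfl
    set r2 := lreg k G (G × G) (g₁⁻¹ * g)⁻¹ m - v (g₁⁻¹ * g) • m with hr2
    have hr2l : r2 ∈ P.low (lreg k G (G × G)) (P.h n) := hsym (g₁⁻¹ * g)
    have e1 : lreg k G (G × G) g⁻¹ b = y g • m ^ j + r1 := by rw [hr1]; abel
    have e2 : lreg k G (G × G) (g₁⁻¹ * g)⁻¹ m = v (g₁⁻¹ * g) • m + r2 := by rw [hr2]; abel
    have e3 : (y * lreg k G G g₁ v) g = y g * v (g₁⁻¹ * g) := rfl
    have e4 : lreg k G (G × G) g⁻¹ (b * lreg k G (G × G) g₁ m) -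
        (y * lreg k G G g₁ v) g • m ^ (j + 1) =
        y g • (r2 * m ^ j) + v (g₁⁻¹ * g) • (r1 * m) + r1 * r2 := by
      rw [lreg_mul, e0, e1, e2, e3, pow_succ]
      funext x
      simp only [Pi.add_apply, Pi.sub_apply, Pi.mul_apply, Pi.smul_apply, Pi.pow_apply,
        smul_eq_mul]
      ring
    rw [e4]
    have hwj := wt_pow hP hw j
    have c1 : P.h n + P.h (j • n) = ((j + 1 : ℕ) : ℤ) * P.h n := by
      rw [map_nsmul, nsmul_eq_mul]
      push_cast
      ring
    have c2 : (j : ℤ) * P.h n + P.h n = ((j + 1 : ℕ) : ℤ) * P.h n := by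
      push_cast
      ring
    have f1 := low_mul_wt hP hr2l hwj
    rw [c1] at f1
    have f2 := low_mul_wt hP hr1l hw
    rw [c2] at f2
    have f3 := low_mono (ρ := lreg k G (G × G)) (P := P) (c := j * P.h n + P.h n - 1)
      (c' := ((j + 1 : ℕ) : ℤ) * P.h n) (by rw [← c2]; omega) (low_mul hP hr1l hr2l)
    exact add_mem (add_mem (Submodule.smul_mem _ _ f1) (Submodule.smul_mem _ _ f2)) f3

theorem prod_symbol (hP : P.Ax) {l l' n : X} {v : G → k} (hv : P.IsV n v) {m : G × G → k}
    (hm : m ∈ bx (P.Ind l) (P.Ind l')) (hm' : m ∈ P.hw (lreg k G (G × G)) n) (j : ℕ) {y : G → k}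
    (hy : y ∈ Lsp v ^ j) :
    ∃ b ∈ bx (P.Ind (j • l)) (P.Ind (j • l')), ∀ g,
      lreg k G (G × G) g⁻¹ b - y g • m ^ j ∈ P.low (lreg k G (G × G)) (j * P.h n) := by
  have hrat := bx_rat hP (Ind_rat hP l) (Ind_rat hP l')
  have hsym : ∀ g : G, lreg k G (G × G) g⁻¹ m - v g • m ∈
      P.low (lreg k G (G × G)) (P.h n) := by
    by_cases h0 : m = 0
    · intro g
      rw [h0, map_zero, smul_zero, sub_zero]
      exact zero_mem _
    · obtain ⟨v', hv', h⟩ := hw_symbol hP hrat hm hm' h0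
      rw [IsV.unique hP hv hv']
      exact h
  have key : Lsp v ^ j ≤ symSub P l l' n m j := by
    clear hy
    induction j with
    | zero =>
      rw [pow_zero]
      intro y hy
      obtain ⟨c, rfl⟩ := Submodule.mem_one.1 hy
      refine ⟨c • 1, Submodule.smul_mem _ _ ?_, fun g => ?_⟩
      · have := bx_pow hP hm 0
        rwa [pow_zero] at this
      · have e : lreg k G (G × G) g⁻¹ (c • (1 : G × G → k)) -
            (algebraMap k (G → k) c) g • m ^ 0 = 0 := by
          rw [pow_zero, map_smul]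
          funext x
          simp [lreg_apply]
        rw [e]
        exact zero_mem _
    | succ j ih =>
      rw [pow_succ]
      refine Submodule.mul_le.2 fun a ha b hb => ?_
      have h1 : Lsp v ≤ (symSub P l l' n m (j + 1)).comap (LinearMap.mulLeft k a) := by
        refine Submodule.span_le.2 ?_
        rintro _ ⟨g₁, rfl⟩
        exact prod_step hP hm hm'.1 hsym j (ih ha) g₁
      exact h1 hb
  exact key hy

end PinData

end Pool.Agent.DM
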