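import Pool.Agent.DM.Fix
import Pool.Agent.DM.Der

/-!
# DM, module Pth: `p`-th roots of highest weight vectors

`der_zero`: let `D` be as in `exists_der`.  Since the `D_j` are derivations vanishing on constants
(`D_j 1 = D_j (1·1)`), `D_j Q = ∑_i (D_j x_i) ∂_i Q`.  Claim: `D_j x_j = -1` and `D_j x_i = 0` if
`i ≠ j` and `h(rt i) ≤ h(rt j)`.  Indeed let `E ∈ Ind(n • 2ρ)` restrict to `x_i` (`hP.ext`); by
taking a weight component (`Ind_wts`, `Ind_homog`) we may assume that `E` has weight
`n • 2ρ - rt i`; `D_j x_i` is the restriction of `ep_j E`, of weight `n • 2ρ - rt i + rt j`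
(`ep_wt`), so its monomials `c^B` satisfy `∑ B_i' rt_i' = rt i - rt j` (`Ind_homog`,
`homog_coeff`); if `h(rt i) ≤ h(rt j)` this forces `B = 0` and `rt i = rt j`, i.e. `i = j`.  So
`D_j x_j` is a constant, the value at `c = 0`: `(ep_j E)(1)` is the coefficient of `s` in
`E(x_j(-s)) = -s`.  Now by downward induction on `h(rt j)`, `D_j Q = 0` for all `j` implies
`∂_j Q = 0` for all `j`: `0 = D_j Q = -∂_j Q + ∑_(h(rt i) > h(rt j)) (D_j x_i) ∂_i Q`.
If all `∂_j Q = 0` then only exponents divisible by `p` occur in `Q` and `Q` is a `p`-th power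
(`k` is algebraically closed).

`exists_root`: for `g ∈ G` the function `F = lreg(g⁻¹) v` restricts to `c ↦ v(g u(c))`, and
`ep_j F = 0` for all `j` (`ep_translate`).
-/

set_option autoImplicit false

namespace Pool.Agent.DM

open MvPolynomial

variable {k : Type*} [Field k] [IsAlgClosed k] [Infinite k] {G : Type*} [Group G]
  {T : Type*} [CommGroup T] {X : Type*} [AddCommGroup X] {P : PinData k G T X} {p : ℕ} {l : X}
  {v : G → k}

section aux

variable {σ : Type*}

omit [IsAlgClosed k] [Infinite k] in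
/-- the exponents of a polynomial with vanishing derivatives are divisible by `p` -/
private lemma dvd_of_pderiv [CharP k p] {Q : MvPolynomial σ k} {i : σ} (h : pderiv i Q = 0)
    (B : σ →₀ ℕ) (hB : coeff B Q ≠ 0) : p ∣ B i := by
  classical
  rcases Nat.eq_zero_or_pos (B i) with h0 | h0
  · rw [h0]
    exact dvd_zero p
  have h1 := coeff_pderiv (i := i) Q (B - Finsupp.single i 1)
  have h2 : B - Finsupp.single i 1 + Finsupp.single i 1 = B := by
    ext j
    by_cases hj : j = i
    · subst hj
      simp only [Finsupp.coe_add, Finsupp.coe_tsub, Pi.add_apply, Pi.sub_apply,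
        Finsupp.single_eq_same]
      omega
    · simp [Finsupp.single_eq_of_ne hj]
  rw [h, coeff_zero, h2] at h1
  have h3 : (((B - Finsupp.single i 1 : σ →₀ ℕ) i : ℕ) : k) + 1 = 0 := by
    rcases mul_eq_zero.1 h1.symm with h3 | h3
    · exact absurd h3 hB
    · exact h3
  have h4 : ((B i : ℕ) : k) = 0 := by
    have h5 : B i = (B - Finsupp.single i 1 : σ →₀ ℕ) i + 1 := by
      simp only [Finsupp.coe_tsub, Pi.sub_apply, Finsupp.single_eq_same]
      omega
    rw [h5]
    push_cast
    exact_mod_cast h3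
  exact (CharP.cast_eq_zero_iff k p _).1 h4

omit [Infinite k] in
/-- a polynomial with vanishing derivatives is a `p`-th power -/
private lemma root_of_pderiv [Fact p.Prime] [CharP k p] {Q : MvPolynomial σ k}
    (h : ∀ i, pderiv i Q = 0) : ∃ R : MvPolynomial σ k, Q = R ^ p := by
  classical
  have hp : 0 < p := (Fact.out : p.Prime).pos
  have hr : ∀ x : k, ∃ z, z ^ p = x := fun x => IsAlgClosed.exists_pow_nat_eq x hp
  choose r hr' using hr
  refine ⟨∑ B ∈ Q.support, monomial (B.mapRange (fun n => n / p) (Nat.zero_div p))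
    (r (coeff B Q)), ?_⟩
  rw [sum_pow_char]
  conv_lhs => rw [Q.as_sum]
  refine Finset.sum_congr rfl fun B hB => ?_
  rw [monomial_pow, hr']
  congr 2
  apply Finsupp.ext
  intro i
  rw [Finsupp.smul_apply, Finsupp.mapRange_apply, smul_eq_mul]
  exact (Nat.mul_div_cancel' (dvd_of_pderiv (h i) B (mem_support_iff.1 hB))).symm

omit [IsAlgClosed k] [Infinite k] in
/-- a derivation in terms of the partial derivatives -/
private lemma der_expand {n : ℕ} (D : Module.End k (MvPolynomial (Fin n) k))
    (hD : ∀ Q Q', D (Q * Q') = D Q * Q' + Q * D Q') (Q : MvPolynomial (Fin n) k) :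
    D Q = ∑ i, D (MvPolynomial.X i) * pderiv i Q := by
  have h1 : D 1 = 0 := by
    have h := hD 1 1
    rw [mul_one, one_mul, mul_one] at h
    exact left_eq_add.1 h
  let D₁ : Derivation k (MvPolynomial (Fin n) k) (MvPolynomial (Fin n) k) :=
    { toLinearMap := D
      map_one_eq_zero' := h1
      leibniz' := fun a b => by
        change D (a * b) = a • D b + b • D a
        rw [hD, smul_eq_mul, smul_eq_mul]
        ring }
  let D₂ : Derivation k (MvPolynomial (Fin n) k) (MvPolynomial (Fin n) k) :=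
    ∑ i, D (MvPolynomial.X i) • pderiv i
  have hsum : ∀ (s : Finset (Fin n)) (R : MvPolynomial (Fin n) k),
      (∑ i ∈ s, D (MvPolynomial.X i) • (pderiv i :
        Derivation k (MvPolynomial (Fin n) k) (MvPolynomial (Fin n) k))) R =
      ∑ i ∈ s, D (MvPolynomial.X i) * pderiv i R := by
    classical
    intro s R
    induction s using Finset.induction_on with
    | empty => simp
    | insert a s ha ih =>
      rw [Finset.sum_insert ha, Finset.sum_insert ha, Derivation.add_apply, ih]
      rfl
  have h2 : D₁ = D₂ := by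
    refine derivation_ext fun j => ?_
    change D (MvPolynomial.X j) = D₂ (MvPolynomial.X j)
    rw [hsum, Finset.sum_eq_single j]
    · rw [pderiv_X_self, mul_one]
    · intro i _ hi
      rw [pderiv_X_of_ne (Ne.symm hi), mul_zero]
    · intro h
      exact absurd (Finset.mem_univ _) h
  have h3 : D₁ Q = D₂ Q := by rw [h2]
  change D Q = D₂ Q at h3
  rw [h3, hsum]

end aux

namespace PinData

omit [IsAlgClosed k] in
/-- the extension of a coordinate function is a weight vector -/
private lemma ext_wt (hP : P.Ax) {m : X} {E : G → k} (hE : E ∈ P.Ind m) {i : Fin P.N}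
    (hEi : ∀ c, E (P.u c) = c i) : E ∈ P.wt (lreg k G G) (m - P.rt i) := by
  intro t
  refine Ind_ext hP (Ind_stable m _ _ hE) (Submodule.smul_mem _ _ hE) fun c => ?_
  have h1 := tor_u hP t⁻¹ c
  have h2 : (P.tor t)⁻¹ * P.u c = P.u (fun i => ((P.ch (P.rt i) t⁻¹ : kˣ) : k) * c i) *
      (P.tor t⁻¹ * P.v 0) := by
    rw [← h1, v_zero, mul_one, inv_mul_cancel_right, map_inv]
  rw [lreg_apply, smul_eq_mul, h2, hE.1, hEi, Pi.smul_apply, hEi, map_inv, map_inv, inv_inv,
    smul_eq_mul, sub_eq_add_neg, hP.ch_add, ch_neg hP, Units.val_mul]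
  ring

omit [IsAlgClosed k] in
/-- the values of the derivations on the coordinates -/
private lemma der_X (hP : P.Ax) (D : Fin P.N → Module.End k (MvPolynomial (Fin P.N) k))
    (hD : ∀ (l : X), ∀ f ∈ P.Ind l, ∀ Q : MvPolynomial (Fin P.N) k,
      (∀ c, f (P.u c) = eval c Q) → ∀ j c, P.ep (lreg k G G) j f (P.u c) = eval c (D j Q))
    (i j : Fin P.N) (hij : P.h (P.rt i) ≤ P.h (P.rt j)) :
    (i ≠ j → D j (MvPolynomial.X i) = 0) ∧
      (i = j → D j (MvPolynomial.X i) = C (-1)) := by
  classical
  obtain ⟨n, E, hE, hEi⟩ := hP.ext (MvPolynomial.X i)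
  have hEi' : ∀ c, E (P.u c) = c i := fun c => by rw [hEi, eval_X]
  have hR := Ind_rat hP (n • P.rho2)
  have hw := ext_wt hP hE hEi'
  have hw' := ep_wt hP hR hE hw j
  have hmem := hR.ep_mem hE j
  have hDe : ∀ c, P.ep (lreg k G G) j E (P.u c) = eval c (D j (MvPolynomial.X i)) :=
    fun c => hD _ E hE _ hEi j c
  have hhom := Ind_homog hP hmem hw'
  have hsub : n • P.rho2 - (n • P.rho2 - P.rt i + P.rt j) = P.rt i - P.rt j := by abel
  have hcoef : ∀ B : Fin P.N →₀ ℕ, coeff B (D j (MvPolynomial.X i)) ≠ 0 →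
      ∑ q, B q • P.rt q = P.rt i - P.rt j := by
    intro B hB
    refine homog_coeff hP (fun t c => ?_) B hB
    have h1 := hhom t c
    rw [hsub, hDe, hDe] at h1
    exact h1
  have hB0 : ∀ B : Fin P.N →₀ ℕ, coeff B (D j (MvPolynomial.X i)) ≠ 0 →
      B = 0 ∧ i = j := by
    intro B hB
    have h1 := hcoef B hB
    have h2 := congrArg P.h h1
    rw [map_sum, map_sub] at h2
    have h3 : ∀ q, 0 ≤ P.h (B q • P.rt q) := by
      intro q
      rw [map_nsmul]
      exact nsmul_nonneg (hP.h_pos q).le _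
    have h4 : ∑ q, P.h (B q • P.rt q) ≤ 0 := by rw [h2]; linarith
    have h5 := (Finset.sum_eq_zero_iff_of_nonneg fun q _ => h3 q).1
      (le_antisymm h4 (Finset.sum_nonneg fun q _ => h3 q))
    have h6 : B = 0 := by
      ext q
      have h7 := h5 q (Finset.mem_univ q)
      rw [map_nsmul, nsmul_eq_mul] at h7
      rcases mul_eq_zero.1 h7 with h8 | h8
      · rw [Finsupp.coe_zero, Pi.zero_apply]
        exact_mod_cast h8
      · exact absurd h8 (hP.h_pos q).ne'
    refine ⟨h6, ?_⟩
    rw [h6] at h1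
    simp only [Finsupp.coe_zero, Pi.zero_apply, zero_smul, Finset.sum_const_zero] at h1
    exact hP.rt_inj (sub_eq_zero.1 h1.symm)
  refine ⟨fun hne => ?_, fun heq => ?_⟩
  · ext B
    rw [coeff_zero]
    by_contra hB
    exact hne (hB0 B hB).2
  · have h1 : D j (MvPolynomial.X i) = C (coeff 0 (D j (MvPolynomial.X i))) := by
      ext B
      rw [coeff_C]
      split_ifs with hB
      · rw [hB]
      · by_contra hB'
        exact hB (hB0 B hB').1.symm
    have h2 : eval 0 (D j (MvPolynomial.X i)) = -1 := by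
      rw [← hDe 0, u_zero]
      have h3 := cf_map (hR.pol_xp hE j) (LinearMap.proj (R := k) (φ := fun _ : G => k) 1) 1
      have h4 : (fun s => (LinearMap.proj (R := k) (φ := fun _ : G => k) 1)
          (lreg k G G (P.xp j s) E)) = fun s => -s := by
        funext s
        rw [LinearMap.proj_apply, lreg_apply, smul_eq_mul, mul_one, xp_inv, ← u_single, hEi',
          heq, Pi.single_eq_same]
      rw [h4] at h3
      have h5 : cf (fun s : k => -s) 1 = (-1 : k) := by
        rw [cf_eq (d := 2) (w := fun n => if n = 1 then (-1 : k) else 0) (fun s => ?_)]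
        · simp
        · simp
      rw [h5] at h3
      exact h3.symm
    rw [h1, eval_C] at h2
    rw [h1, h2]

theorem der_zero [Fact p.Prime] [CharP k p] (hP : P.Ax) {f : G → k} (hf : f ∈ P.Ind l)
    (h : ∀ i, P.ep (lreg k G G) i f = 0) {Q : MvPolynomial (Fin P.N) k}
    (hQ : ∀ c, f (P.u c) = eval c Q) : ∃ R : MvPolynomial (Fin P.N) k, Q = R ^ p := by
  obtain ⟨D, hDm, -, -, hD⟩ := exists_der (p := p) hP
  have hDQ : ∀ j, D j Q = 0 := by
    intro j
    apply MvPolynomial.funext
    intro c
    rw [← hD l f hf Q hQ j c, h j, map_zero]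
    rfl
  refine root_of_pderiv fun i => ?_
  have key : ∀ (n : ℕ) (j : Fin P.N), P.N ≤ j + n → pderiv j Q = 0 := by
    intro n
    induction n with
    | zero =>
      intro j hj
      have := j.2
      omega
    | succ n ih =>
      intro j hj
      have h1 := der_expand (D j) (hDm j) Q
      rw [hDQ j, Finset.sum_eq_single j] at h1
      · rw [(der_X hP D hD j j le_rfl).2 rfl] at h1
        rw [map_neg, map_one, neg_one_mul] at h1
        exact neg_eq_zero.1 h1.symm
      · intro i _ hij
        rcases lt_or_gt_of_ne hij with h2 | h2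
        · rw [(der_X hP D hD i j (hP.h_mono i j h2.le)).1 hij, zero_mul]
        · have h3 : (j : ℕ) < i := h2
          rw [ih i (by omega), mul_zero]
      · intro h2
        exact absurd (Finset.mem_univ _) h2
  exact key P.N i (by omega)

theorem exists_root [Fact p.Prime] [CharP k p] (hP : P.Ax)
    (hl : ∀ i ∈ P.S, (p : ℤ) ∣ P.pair i l) (hv : P.IsV l v) (g : G) :
    ∃ R : MvPolynomial (Fin P.N) k, ∀ c, v (g * P.u c) = (eval c R) ^ p := by
  obtain ⟨Q, hQ⟩ := polyMap_iff.1 (hv.1.2 g)
  have hF : lreg k G G g⁻¹ v ∈ P.Ind l := Ind_stable l _ _ hv.1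
  have hFu : ∀ c, lreg k G G g⁻¹ v (P.u c) = eval c Q := by
    intro c
    rw [lreg_apply, inv_inv, smul_eq_mul]
    exact hQ c
  obtain ⟨R, hR⟩ := der_zero hP hF (fun i => ep_translate hP hl hv i g⁻¹) hFu
  refine ⟨R, fun c => ?_⟩
  have h1 := hQ c
  beta_reduce at h1
  rw [h1, hR, map_pow]

end PinData

end Pool.Agent.DM
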