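import Pool.Agent.DM.Box
import Pool.Agent.DM.Lower
import Pool.Agent.DM.IndB

/-!
# DM, module RatX: constructions of rational modules
-/

set_option autoImplicit false

namespace Pool.Agent.DM

open MvPolynomial

variable {k : Type*} [Field k] [Infinite k] {G : Type*} [Group G] {T : Type*} [CommGroup T]
  {X : Type*} [AddCommGroup X] {P : PinData k G T X}
  {Y : Type*} [MulAction G Y] {Y' : Type*} [MulAction G Y']

omit [Infinite k] [MulAction G Y] in
/-- A map with values in a finite dimensional space of functions is polynomial if its values at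
separating points are. -/
private lemma polyMap_of_sep {σ Z : Type*} {W : Submodule k (Y → k)} (hW : FiniteDimensional k W)
    (pt : Z → Y) (hsep : ∀ g ∈ W, (∀ z, g (pt z) = 0) → g = 0) {F : (σ → k) → Y → k}
    (hF : ∀ c, F c ∈ W) (hp : ∀ z, PolyMap fun c => F c (pt z)) : PolyMap F := by
  classical
  obtain ⟨ev, hev⟩ : ∃ ev : Z → Module.Dual k W, ∀ z (g : W), ev z g = g.1 (pt z) :=
    ⟨fun z => (LinearMap.proj (pt z)).comp W.subtype, fun z g => rfl⟩
  have htop : Submodule.span k (Set.range ev) = ⊤ := by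
    by_contra hne
    obtain ⟨φ, hφ, hφ'⟩ := Submodule.exists_le_ker_of_lt_top _ (lt_top_iff_ne_top.2 hne)
    obtain ⟨w, hw⟩ := (Module.evalEquiv k W).surjective φ
    apply hφ
    have h0 : w = 0 := by
      apply Subtype.ext
      refine hsep w.1 w.2 fun z => ?_
      have h1 : ev z ∈ LinearMap.ker φ := hφ' (Submodule.subset_span ⟨z, rfl⟩)
      rw [LinearMap.mem_ker, ← hw] at h1
      rw [← hev]
      exact h1
    rw [← hw, h0, map_zero]
  have key : ∀ φ : Module.Dual k W, PolyMap fun c => φ ⟨F c, hF c⟩ := by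
    intro φ
    have hφ : φ ∈ Submodule.span k (Set.range ev) := by
      rw [htop]
      exact Submodule.mem_top
    refine Submodule.span_induction (p := fun φ _ => PolyMap fun c => φ ⟨F c, hF c⟩)
      ?_ ?_ ?_ ?_ hφ
    · rintro _ ⟨z, rfl⟩
      simp only [hev]
      exact hp z
    · exact PolyMap.const 0
    · intro φ ψ _ _ h1 h2
      exact h1.add h2
    · intro a φ _ h1
      exact h1.smul a
  have e := Module.finBasis k W
  have h2 : F = fun c => ∑ j, (e.coord j ⟨F c, hF c⟩) • ((e j : W) : Y → k) := by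
    funext c
    have h3 := congrArg (fun x : W => (x : Y → k)) (e.sum_repr ⟨F c, hF c⟩)
    simp only [Submodule.coe_sum, Submodule.coe_smul] at h3
    exact h3.symm
  rw [h2]
  exact PolyMap.sum _ fun j _ => PolyMap.smul' (key _) (PolyMap.const _)

omit [Infinite k] [MulAction G Y] in
private lemma polyMap_pow {σ : Type*} {f : (σ → k) → Y → k} (hf : PolyMap f) (n : ℕ) :
    PolyMap fun c => f c ^ n := by
  induction n with
  | zero =>
    simp only [pow_zero]
    exact PolyMap.const 1
  | succ n ih =>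
    simp only [pow_succ]
    exact PolyMap.mul ih hf

omit [Infinite k] in
private lemma mul_app' {V : Type*} [AddCommGroup V] [Module k V] {ρ : Representation k G V}
    (g g' : G) (x : V) : ρ (g * g') x = ρ g (ρ g' x) := by
  rw [map_mul]; rfl

/-- the box product as a bilinear map -/
private def boxL : (Y → k) →ₗ[k] (Y' → k) →ₗ[k] (Y × Y' → k) :=
  LinearMap.mk₂ k (fun f f' => box f f')
    (fun f g h => by funext y; simp only [box, Pi.add_apply]; ring)
    (fun c f h => by funext y; simp only [box, Pi.smul_apply, smul_eq_mul]; ring)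
    (fun f g h => by funext y; simp only [box, Pi.add_apply]; ring)
    (fun c f h => by funext y; simp only [box, Pi.smul_apply, smul_eq_mul]; ring)

omit [Infinite k] [MulAction G Y] [MulAction G Y'] in
private lemma bx_fin {A : Submodule k (Y → k)} {B : Submodule k (Y' → k)}
    (hA : FiniteDimensional k A) (hB : FiniteDimensional k B) : FiniteDimensional k (bx A B) := by
  have h1 : bx A B = Submodule.map₂ boxL A B := by
    rw [Submodule.map₂_eq_span_image2]
    refine congrArg (Submodule.span k) (Set.ext fun F => ⟨?_, ?_⟩)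
    · rintro ⟨f, hf, f', hf', rfl⟩
      exact ⟨f, hf, f', hf', rfl⟩
    · rintro ⟨f, hf, f', hf', rfl⟩
      exact ⟨f, hf, f', hf', rfl⟩
  rw [h1]
  have hA' : A.FG := Submodule.fg_iff_finiteDimensional _ |>.2 hA
  have hB' : B.FG := Submodule.fg_iff_finiteDimensional _ |>.2 hB
  exact Submodule.fg_iff_finiteDimensional _ |>.1 (hA'.map₂ boxL hB')

omit [Infinite k] [MulAction G Y] [MulAction G Y'] in
private lemma polyMap_box {σ : Type*} {f : (σ → k) → Y → k} {g : (σ → k) → Y' → k}
    (hf : PolyMap f) (hg : PolyMap g) : PolyMap fun c => box (f c) (g c) := by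
  have h1 := hf.map (LinearMap.funLeft k k (Prod.fst : Y × Y' → Y))
  have h2 := hg.map (LinearMap.funLeft k k (Prod.snd : Y × Y' → Y'))
  exact PolyMap.mul h1 h2

namespace PinData

omit [Infinite k] in
private lemma ofFn_polyMap {V : Type*} [AddCommGroup V] [Module k V] {ρ : Representation k G V}
    [Infinite k] {W : Submodule k V} (hst : Stable ρ W) (x : Fin P.N → k → G)
    (h : ∀ y ∈ W, ∀ i, PolyMap fun c : Fin P.N → k => ρ (x i (c i)) y) (L : List (Fin P.N))
    {y : V} (hy : y ∈ W) : PolyMap fun c : Fin P.N → k => ρ (L.map fun i => x i (c i)).prod y := by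
  induction L with
  | nil =>
    simp only [List.map_nil, List.prod_nil, map_one, Module.End.one_apply]
    exact PolyMap.const y
  | cons i L ih =>
    simp only [List.map_cons, List.prod_cons, mul_app']
    obtain ⟨r, Q, v, hv, hQ⟩ := PolyMap.exists_mem W ih (fun c => hst _ _ hy)
    have h1 : (fun c : Fin P.N → k => ρ (x i (c i)) (ρ (L.map fun i => x i (c i)).prod y)) =
        fun c => ∑ j, eval c (Q j) • ρ (x i (c i)) (v j) := by
      funext c
      rw [hQ c, map_sum]
      exact Finset.sum_congr rfl fun j _ => by rw [map_smul]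
    rw [h1]
    exact PolyMap.sum _ fun j _ => PolyMap.psmul (h _ (hv j) i) _

private lemma Ind_pu (hP : P.Ax) (l : X) {f : G → k} (hf : f ∈ P.Ind l) :
    PolyMap fun c => lreg k G G (P.u c) f := by
  obtain ⟨Q, hQ⟩ := polyMap_iff.1 (hf.2 1)
  simp only [one_mul] at hQ
  obtain ⟨m, hm⟩ := hP.u_mul
  obtain ⟨m', hm'⟩ := hP.u_inv
  refine polyMap_of_sep (Ind_fin hP l) (fun c : Fin P.N → k => P.u c) (fun g hg h0 => ?_)
    (fun c => Ind_stable l _ _ hf) (fun z => ?_)
  · refine Ind_ext hP hg (zero_mem _) fun c => ?_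
    rw [h0 c]
    rfl
  · rw [polyMap_iff]
    refine ⟨bind₁ (fun i => bind₁ (Sum.elim m' fun j => C (z j)) (m i)) Q, fun c => ?_⟩
    rw [lreg_apply, smul_eq_mul, hm', hm, hQ]
    have h1 : ∀ (τ τ' : Type _) (q : τ → MvPolynomial τ' k) (R : MvPolynomial τ k) (c : τ' → k),
        eval c (bind₁ q R) = eval (fun i => eval c (q i)) R := by
      intro τ τ' q R c
      rw [← MvPolynomial.coe_aeval_eq_eval, ← MvPolynomial.coe_aeval_eq_eval]
      change aeval c (bind₁ q R) = aeval (fun i => eval c (q i)) R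
      rw [aeval_bind₁]
      rfl
    rw [h1]
    congr 2
    funext i
    rw [h1]
    congr 2
    funext j
    rcases j with j | j
    · rfl
    · simp

/-- The induced modules are rational.  `stable`: `Ind_stable`; `fin`: `Ind_fin`; `wts`: `Ind_wts`;
`pu`: let `f ∈ Ind l`.  The span `F ⊆ Ind l` of all translates has a finite basis `f_1, …, f_r`, and
the restrictions of the `f_j` to `U` are linearly independent (`Ind_ext`), so there are
`c_1, …, c_r` with `det(f_j(u c_i)) ≠ 0`.  Write `lreg(u c) f = ∑ a_j(c) f_j`; evaluating at the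
`u c_i`, `f((u c)⁻¹ u(c_i)) = ∑_j a_j(c) f_j(u c_i)`; the left side is a polynomial in `c`
(`u_inv`, `u_mul` and `f|_U` polynomial), so the `a_j(c)` are polynomials.
`pv`: it suffices that `s ↦ lreg(x_-i(s)) f` is polynomial for each `i` (products of elements of a
finite dimensional space with polynomial one-parameter actions are polynomial:
`v c = ∏ x_-i(c_i)`).  As `w₀ x_i'(s) w₀⁻¹ = x_-i(c s)` with `i = σ i'` (`w0_xp`),
`lreg(x_-i(s)) f = lreg(w₀) lreg(x_i'(s/c)) lreg(w₀⁻¹) f`, and `pu` applies. -/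
theorem Ind_rat (hP : P.Ax) (l : X) : P.RatOn (lreg k G G) (P.Ind l) := by
  refine ⟨Ind_stable l, fun x hx => ⟨P.Ind l, hx, le_rfl, Ind_fin hP l, Ind_stable l⟩, ?_,
    fun x hx => Ind_pu hP l hx, fun x hx => ?_⟩
  · intro f hf
    obtain ⟨F, y, hy, rfl⟩ := Ind_wts hP l hf
    exact Submodule.sum_mem _ fun e he => Submodule.mem_iSup_of_mem e (hy e he).1
  · have h1 : ∀ f ∈ P.Ind l, ∀ i, PolyMap fun c : Fin P.N → k => lreg k G G (P.xm i (c i)) f := by
      intro f hf i
      obtain ⟨a, ha, hax⟩ := hP.w0_xp (P.sg.symm i)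
      rw [Equiv.apply_symm_apply] at hax
      have h2 := Ind_pu hP l (Ind_stable l P.w0⁻¹ _ hf)
      have h3 := h2.subst (fun j => if j = P.sg.symm i then C a⁻¹ * MvPolynomial.X i else 0)
      have h4 := h3.map (lreg k G G P.w0)
      have h5 : (fun c : Fin P.N → k => lreg k G G (P.xm i (c i)) f) = fun c =>
          lreg k G G P.w0 (lreg k G G (P.u fun j => eval c
            (if j = P.sg.symm i then C a⁻¹ * MvPolynomial.X i else 0))
              (lreg k G G P.w0⁻¹ f)) := by
        funext c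
        have h6 : (fun j => eval c (if j = P.sg.symm i then C a⁻¹ * MvPolynomial.X i else 0)) =
            Pi.single (P.sg.symm i) (a⁻¹ * c i) := by
          funext j
          by_cases hj : j = P.sg.symm i
          · rw [if_pos hj, hj, Pi.single_eq_same, map_mul, eval_C, eval_X]
          · rw [if_neg hj, Pi.single_eq_of_ne hj, map_zero]
        rw [h6, u_single, ← mul_app', ← mul_app']
        congr 2
        rw [hax, mul_inv_cancel_left₀ ha]
      rw [h5]
      exact h4
    have h2 := ofFn_polyMap (Ind_stable l) P.xm h1 (List.finRange P.N) hx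
    have h3 : (fun c => lreg k G G (P.v c) x) = fun c : Fin P.N → k =>
        lreg k G G ((List.finRange P.N).map fun i => P.xm i (c i)).prod x := by
      funext c
      rw [v, List.ofFn_eq_map]
    rw [h3]
    exact h2

omit [Infinite k] in
private lemma stable_sup {V : Type*} [AddCommGroup V] [Module k V] {ρ : Representation k G V}
    {F F' : Submodule k V} (h : Stable ρ F) (h' : Stable ρ F') : Stable ρ (F ⊔ F') := by
  intro g x hx
  obtain ⟨y, hy, z, hz, rfl⟩ := Submodule.mem_sup.1 hx
  rw [map_add]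
  exact add_mem (Submodule.mem_sup_left (h g y hy)) (Submodule.mem_sup_right (h' g z hz))

theorem bx_rat (hP : P.Ax) {A : Submodule k (Y → k)} {B : Submodule k (Y' → k)}
    (hA : P.RatOn (lreg k G Y) A) (hB : P.RatOn (lreg k G Y') B) :
    P.RatOn (lreg k G (Y × Y')) (bx A B) := by
  have hst : ∀ {A : Submodule k (Y → k)} {B : Submodule k (Y' → k)},
      Stable (lreg k G Y) A → Stable (lreg k G Y') B → Stable (lreg k G (Y × Y')) (bx A B) := by
    intro A B hA hB g x hx
    have h1 : bx A B ≤ (bx A B).comap (lreg k G (Y × Y') g) := by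
      refine bx_induct _ fun f hf f' hf' => ?_
      rw [Submodule.mem_comap, lreg_box]
      exact box_mem (hA g f hf) (hB g f' hf')
    exact h1 hx
  refine ⟨hst hA.stable hB.stable, fun x hx => ?_, ?_, fun x hx => ?_, fun x hx => ?_⟩
  · refine Submodule.span_induction (p := fun x _ => ∃ F : Submodule k (Y × Y' → k),
      x ∈ F ∧ F ≤ bx A B ∧ FiniteDimensional k F ∧ Stable (lreg k G (Y × Y')) F) ?_ ?_ ?_ ?_ hx
    · rintro _ ⟨f, hf, f', hf', rfl⟩
      obtain ⟨F, h1, h2, h3, h4⟩ := hA.fin f hf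
      obtain ⟨F', h1', h2', h3', h4'⟩ := hB.fin f' hf'
      exact ⟨bx F F', box_mem h1 h1', bx_mono h2 h2', bx_fin h3 h3', hst h4 h4'⟩
    · refine ⟨⊥, zero_mem _, bot_le, inferInstance, fun g x hx => ?_⟩
      rw [Submodule.mem_bot] at hx
      rw [hx, map_zero]
      exact zero_mem _
    · rintro x y _ _ ⟨F, h1, h2, h3, h4⟩ ⟨F', h1', h2', h3', h4'⟩
      exact ⟨F ⊔ F', add_mem (Submodule.mem_sup_left h1) (Submodule.mem_sup_right h1'),
        sup_le h2 h2', inferInstance, stable_sup h4 h4'⟩
    · rintro a x _ ⟨F, h1, h2, h3, h4⟩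
      exact ⟨F, F.smul_mem a h1, h2, h3, h4⟩
  · refine bx_induct _ fun f hf f' hf' => ?_
    obtain ⟨F, y, hy, rfl⟩ := mem_iSup_wt (hA.wts hf)
    obtain ⟨F', y', hy', rfl⟩ := mem_iSup_wt (hB.wts hf')
    have h1 : box (∑ l ∈ F, y l) (∑ l ∈ F', y' l) = ∑ l ∈ F, ∑ m ∈ F', box (y l) (y' m) := by
      funext z
      simp only [box, Finset.sum_apply, Finset.sum_mul_sum]
    rw [h1]
    exact Submodule.sum_mem _ fun l hl => Submodule.sum_mem _ fun m hm =>
      Submodule.mem_iSup_of_mem (l + m) (wt_box hP (hy l hl) (hy' m hm))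
  · obtain ⟨n, a, b, ha, hb, _, rfl⟩ := mem_bx hx
    simp only [map_sum, lreg_box]
    exact PolyMap.sum _ fun i _ => polyMap_box (hA.pu _ (ha i)) (hB.pu _ (hb i))
  · obtain ⟨n, a, b, ha, hb, _, rfl⟩ := mem_bx hx
    simp only [map_sum, lreg_box]
    exact PolyMap.sum _ fun i _ => polyMap_box (hA.pv _ (ha i)) (hB.pv _ (hb i))

/-- `p`-th powers; `fr p A = {f^p}` (`mem_fr`), polynomial action:
`(∑ P_j(c) f_j)^p = ∑ P_j(c)^p f_j^p`, finite dimension: `fr p F` is spanned by the `p`-th powers
of a basis of `F`. -/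
theorem fr_rat [IsAlgClosed k] (p : ℕ) [Fact p.Prime] [CharP k p] (hP : P.Ax)
    {A : Submodule k (Y → k)} (hA : P.RatOn (lreg k G Y) A) :
    P.RatOn (lreg k G Y) (fr p A) := by
  have hst : ∀ {A : Submodule k (Y → k)}, Stable (lreg k G Y) A → Stable (lreg k G Y) (fr p A) := by
    intro A hA g x hx
    obtain ⟨f, hf, rfl⟩ := (mem_fr p).1 hx
    rw [lreg_pow]
    exact (mem_fr p).2 ⟨_, hA g f hf, rfl⟩
  refine ⟨hst hA.stable, fun x hx => ?_, fun x hx => ?_, fun x hx => ?_, fun x hx => ?_⟩
  · obtain ⟨f, hf, rfl⟩ := (mem_fr p).1 hx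
    obtain ⟨F, h1, h2, h3, h4⟩ := hA.fin f hf
    refine ⟨fr p F, (mem_fr p).2 ⟨f, h1, rfl⟩, fr_mono p h2, ?_, hst h4⟩
    have e := Module.finBasis k F
    have h5 : fr p F ≤ Submodule.span k (Set.range fun j => ((e j : F) : Y → k) ^ p) := by
      intro x hx
      obtain ⟨g, hg, rfl⟩ := (mem_fr p).1 hx
      have h6 := congrArg (fun x : F => (x : Y → k)) (e.sum_repr ⟨g, hg⟩)
      simp only [Submodule.coe_sum, Submodule.coe_smul] at h6
      rw [← h6]
      have h7 : (∑ i, e.repr ⟨g, hg⟩ i • ((e i : F) : Y → k)) ^ p =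
          ∑ i, (e.repr ⟨g, hg⟩ i • ((e i : F) : Y → k)) ^ p := by
        funext y
        simp only [Finset.sum_apply, Pi.pow_apply]
        exact sum_pow_char p _ (fun i => (e.repr ⟨g, hg⟩ i • ((e i : F) : Y → k)) y)
      rw [h7]
      refine Submodule.sum_mem _ fun j _ => ?_
      rw [smul_pow]
      exact Submodule.smul_mem _ _ (Submodule.subset_span ⟨j, rfl⟩)
    have h6 : FiniteDimensional k
        (Submodule.span k (Set.range fun j => ((e j : F) : Y → k) ^ p)) :=
      FiniteDimensional.span_of_finite k (Set.finite_range _)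
    exact Submodule.finiteDimensional_of_le h5
  · obtain ⟨f, hf, rfl⟩ := (mem_fr p).1 hx
    obtain ⟨F, y, hy, rfl⟩ := mem_iSup_wt (hA.wts hf)
    have h7 : (∑ l ∈ F, y l) ^ p = ∑ l ∈ F, y l ^ p := by
      funext z
      simp only [Finset.sum_apply, Pi.pow_apply]
      exact sum_pow_char p F (fun i => y i z)
    rw [h7]
    exact Submodule.sum_mem _ fun l hl => Submodule.mem_iSup_of_mem (p • l) (wt_pow hP (hy l hl) p)
  · obtain ⟨f, hf, rfl⟩ := (mem_fr p).1 hx
    simp only [lreg_pow]
    exact polyMap_pow (hA.pu f hf) p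
  · obtain ⟨f, hf, rfl⟩ := (mem_fr p).1 hx
    simp only [lreg_pow]
    exact polyMap_pow (hA.pv f hf) p

theorem iSup_rat {ι : Type*} {V : Type*} [AddCommGroup V] [Module k V]
    {ρ : Representation k G V} (W : ι → Submodule k V) (h : ∀ i, P.RatOn ρ (W i)) :
    P.RatOn ρ (⨆ i, W i) := by
  refine ⟨fun g x hx => ?_, fun x hx => ?_, iSup_le fun i => (h i).wts, fun x hx => ?_,
    fun x hx => ?_⟩
  · have h1 : (⨆ i, W i) ≤ (⨆ i, W i).comap (ρ g) :=
      iSup_le fun i y hy => Submodule.mem_iSup_of_mem i ((h i).stable g y hy)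
    exact h1 hx
  · refine Submodule.iSup_induction W (motive := fun x => ∃ F : Submodule k V,
      x ∈ F ∧ F ≤ ⨆ i, W i ∧ FiniteDimensional k F ∧ Stable ρ F) hx ?_ ?_ ?_
    · intro i x hx
      obtain ⟨F, h1, h2, h3, h4⟩ := (h i).fin x hx
      exact ⟨F, h1, h2.trans (le_iSup W i), h3, h4⟩
    · refine ⟨⊥, zero_mem _, bot_le, inferInstance, fun g x hx => ?_⟩
      rw [Submodule.mem_bot] at hx
      rw [hx, map_zero]
      exact zero_mem _
    · rintro x y ⟨F, h1, h2, h3, h4⟩ ⟨F', h1', h2', h3', h4'⟩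
      exact ⟨F ⊔ F', add_mem (Submodule.mem_sup_left h1) (Submodule.mem_sup_right h1'),
        sup_le h2 h2', inferInstance, stable_sup h4 h4'⟩
  · refine Submodule.iSup_induction W (motive := fun x => PolyMap fun c => ρ (P.u c) x) hx ?_ ?_ ?_
    · exact fun i x hx => (h i).pu x hx
    · simp only [map_zero]
      exact PolyMap.const 0
    · intro x y hx hy
      simp only [map_add]
      exact hx.add hy
  · refine Submodule.iSup_induction W (motive := fun x => PolyMap fun c => ρ (P.v c) x) hx ?_ ?_ ?_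
    · exact fun i x hx => (h i).pv x hx
    · simp only [map_zero]
      exact PolyMap.const 0
    · intro x y hx hy
      simp only [map_add]
      exact hx.add hy

/-- `cut W c` is a rational submodule. (`wts`: by `wt_comp` for the `T`-stable subspace `cut W c`
the weight components of its elements lie in it.) -/
theorem cut_rat (hP : P.Ax) {V : Type*} [AddCommGroup V] [Module k V]
    {ρ : Representation k G V} {W : Submodule k V} (h : P.RatOn ρ W) (c : ℤ) :
    P.RatOn ρ (P.cut ρ W c) := by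
  have hst : Stable ρ (P.cut ρ W c) := by
    rintro g x ⟨hx, hx'⟩
    refine ⟨h.stable g x hx, fun g' => ?_⟩
    rw [← mul_app']
    exact hx' _
  refine ⟨hst, fun x hx => ?_, fun x hx => h.wts hx.1, fun x hx => h.pu x hx.1,
    fun x hx => h.pv x hx.1⟩
  obtain ⟨F, h1, h2, h3, h4⟩ := h.fin x hx.1
  refine ⟨F ⊓ P.cut ρ W c, ⟨h1, hx⟩, inf_le_right, ?_, fun g y hy => ⟨h4 g y hy.1, hst g y hy.2⟩⟩
  exact Submodule.finiteDimensional_of_le (inf_le_left : F ⊓ P.cut ρ W c ≤ F)

end PinData

end Pool.Agent.DM
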