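import Pool.Agent.DM.Defs

/-!
# DM, module SLid: identities in `SL₂(k)`

All by `Matrix.SpecialLinearGroup.ext` / `Subtype.ext`, `Matrix.ext`, `fin_cases`, `simp`,
`field_simp`, `ring`.
-/

set_option autoImplicit false

namespace Pool.Agent.DM

variable {k : Type*} [Field k]

/-- the Weyl element -/
def nn : Matrix.SpecialLinearGroup (Fin 2) k := ⟨!![0, 1; -1, 0], by simp⟩

private lemma sl_ext {A B : Matrix.SpecialLinearGroup (Fin 2) k} (h00 : A.1 0 0 = B.1 0 0)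
    (h01 : A.1 0 1 = B.1 0 1) (h10 : A.1 1 0 = B.1 1 0) (h11 : A.1 1 1 = B.1 1 1) : A = B := by
  apply Subtype.ext
  apply Matrix.ext
  intro i j
  fin_cases i <;> fin_cases j <;> assumption

lemma up_zero : up (0 : k) = 1 := by
  apply sl_ext <;> simp [up]

lemma lo_zero : lo (0 : k) = 1 := by
  apply sl_ext <;> simp [lo]

lemma dg_one : dg (1 : kˣ) = 1 := by
  apply sl_ext <;> simp [dg]

lemma up_add (a b : k) : up a * up b = up (a + b) := by
  apply sl_ext <;> simp [up, Matrix.mul_apply, Fin.sum_univ_two, add_comm]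

lemma lo_add (a b : k) : lo a * lo b = lo (a + b) := by
  apply sl_ext <;> simp [lo, Matrix.mul_apply, Fin.sum_univ_two]

lemma dg_mul (z w : kˣ) : dg z * dg w = dg (z * w) := by
  apply sl_ext <;> simp [dg, Matrix.mul_apply, Fin.sum_univ_two, mul_comm]

lemma up_inv (a : k) : (up a)⁻¹ = up (-a) := by
  rw [inv_eq_iff_mul_eq_one, up_add, add_neg_cancel, up_zero]

lemma lo_inv (a : k) : (lo a)⁻¹ = lo (-a) := by
  rw [inv_eq_iff_mul_eq_one, lo_add, add_neg_cancel, lo_zero]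

lemma up_eq1 (s : kˣ) : up (s : k) = nn * up (-((s⁻¹ : kˣ) : k)) * (dg s⁻¹ * lo ((s⁻¹ : kˣ) : k)) := by
  apply sl_ext <;> simp [up, lo, dg, nn, Matrix.mul_apply, Fin.sum_univ_two]

lemma up_eq2 (s : kˣ) : up (s : k) = lo ((s⁻¹ : kˣ) : k) * nn * dg s⁻¹ * lo ((s⁻¹ : kˣ) : k) := by
  apply sl_ext <;> simp [up, lo, dg, nn, Matrix.mul_apply, Fin.sum_univ_two]

lemma lo_up_lo (s t : k) (w : kˣ) (hw : (w : k) = 1 - s * t) :
    lo s * up t * lo (-s) = lo (-(s ^ 2 * t) / w) * dg w * up (t / w) := by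
  have hw0 : (w : k) ≠ 0 := w.ne_zero
  apply sl_ext
  · simp [up, lo, dg, Matrix.mul_apply, Fin.sum_univ_two]
    linear_combination -hw
  · simp [up, lo, dg, Matrix.mul_apply, Fin.sum_univ_two]
    field_simp
  · simp [up, lo, dg, Matrix.mul_apply, Fin.sum_univ_two]
    ring
  · simp [up, lo, dg, Matrix.mul_apply, Fin.sum_univ_two]
    field_simp
    rw [hw]
    ring

/-- `lo s * up t` in the big cell (`1 + s t ≠ 0`) -/
lemma lo_up (s t : k) (w : kˣ) (hw : (w : k) = 1 + s * t) :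
    lo s * up t = up (t / w) * dg w⁻¹ * lo (s / w) := by
  have hw0 : (w : k) ≠ 0 := w.ne_zero
  apply sl_ext
  · simp [up, lo, dg, Matrix.mul_apply, Fin.sum_univ_two]
    field_simp
    rw [hw]
    ring
  · simp [up, lo, dg, Matrix.mul_apply, Fin.sum_univ_two]
  · simp [up, lo, dg, Matrix.mul_apply, Fin.sum_univ_two]
    field_simp
  · simp [up, lo, dg, Matrix.mul_apply, Fin.sum_univ_two]
    rw [hw]
    ring

/-- a Weyl element, `c ≠ 0` -/
def wy (c : kˣ) : Matrix.SpecialLinearGroup (Fin 2) k :=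
  up (-((c⁻¹ : kˣ) : k)) * lo (c : k) * up (-((c⁻¹ : kˣ) : k))

lemma wy_dg (c z : kˣ) : wy c * dg z = dg z⁻¹ * wy c := by
  apply sl_ext <;> simp [wy, up, lo, dg, Matrix.mul_apply, Fin.sum_univ_two, mul_comm]

lemma wy_scale (c a : kˣ) : wy (c * a⁻¹) = dg a * wy c := by
  have hc : (c : k) ≠ 0 := c.ne_zero
  have ha : (a : k) ≠ 0 := a.ne_zero
  have h1 : (a : k) * (c : k)⁻¹ * ((c : k) * (a : k)⁻¹) = 1 := by field_simp
  apply sl_ext <;>
    simp [wy, up, lo, dg, Matrix.mul_apply, Fin.sum_univ_two, mul_comm] <;>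
    rw [h1] <;> ring

end Pool.Agent.DM
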