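import Pool.Agent.DM.StTop
import Pool.Agent.DM.Der
import Pool.Agent.DM.Basis

/-!
# DM, module StBas: the restrictions of `e^A f₋` to `U` form a basis of `k[U]` over `p`-th powers

`s A = e^A f₋` (`mono (P.eI hP z) A fm`), `q A ∈ R` its restriction to `U`.

`st_indep`: let `D` be as in `exists_der`, `F = q 0`.  By compatibility `q A = mono D A F`, and
`mono D A (g^p F) = g^p q A` since the `D_j` are derivations killing `p`-th powers.  The elements
`g^p F` (`g ∈ R`) lie in the additive subgroup `K = {g^p F}` (`(g+g')^p = g^p + g'^p`; closed under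
negation: `-1 = (-1)^p` for odd `p` and in characteristic `2`, or `-g^p = (-g)^p` for `p` odd,
`= g^p` for `p = 2`), and
`mono D (p-1,…) (g^p F) = g^p q(top) = c g^p` with `c ≠ 0` (`mono_top`, `v = 1` on `U`), so it
vanishes only for `g = 0`.  Apply `elim`.
`st_basis`: `basis_of_weights` with `w i = h(rt i)` (`Int.toNat`): `q A` is homogeneous of degree
`∑ (p-1-A_i) h(rt_i)`: `s A ∈ Ind z` has weight `-z + ∑ A_i rt_i`, so by `Ind_homog`,
`homog_coeff` its monomials `c^B` satisfy
`∑ B_i rt_i = 2z - ∑ A_i rt_i = ∑ (p-1-A_i) rt_i`.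
-/

set_option autoImplicit false

namespace Pool.Agent.DM

open MvPolynomial

variable {k : Type*} [Field k] [IsAlgClosed k] {G : Type*} [Group G] {T : Type*} [CommGroup T]
  {X : Type*} [AddCommGroup X] {P : PinData k G T X} {p : ℕ} {z : X} {v : G → k}

namespace PinData

/-- relations between operators which are compatible with products -/
private theorem prod_rel {α β : Type*} [Monoid α] [Monoid β] (R : α → β → Prop) (h1 : R 1 1)
    (hm : ∀ a a' b b', R a b → R a' b' → R (a * a') (b * b')) : ∀ (n : ℕ) (f : Fin n → α)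
    (g : Fin n → β), (∀ i, R (f i) (g i)) → R (List.ofFn f).prod (List.ofFn g).prod := by
  intro n
  induction n with
  | zero =>
    intro f g _
    rw [List.ofFn_zero, List.ofFn_zero, List.prod_nil, List.prod_nil]
    exact h1
  | succ n ih =>
    intro f g h
    rw [List.ofFn_succ, List.ofFn_succ, List.prod_cons, List.prod_cons]
    exact hm _ _ _ _ (h 0) (ih _ _ fun i => h i.succ)

private theorem pow_rel {α β : Type*} [Monoid α] [Monoid β] (R : α → β → Prop) (h1 : R 1 1)
    (hm : ∀ a a' b b', R a b → R a' b' → R (a * a') (b * b')) (a : α) (b : β) (h : R a b) :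
    ∀ n : ℕ, R (a ^ n) (b ^ n) := by
  intro n
  induction n with
  | zero =>
    rw [pow_zero, pow_zero]
    exact h1
  | succ n ih =>
    rw [pow_succ, pow_succ]
    exact hm _ _ _ _ ih h

theorem st_indep [Infinite k] [Fact p.Prime] [CharP k p] (hP : P.Ax) (hz : P.Stz p z)
    (hv : P.IsV z v) (fm : P.Ind z) (hfm : (fm : G → k) = lreg k G G P.w0 v)
    (q : (Fin P.N → ℕ) → MvPolynomial (Fin P.N) k)
    (hq : ∀ A ∈ Ap P.N p, ∀ c, (mono (P.eI hP z) A fm : G → k) (P.u c) = eval c (q A))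
    (g : (Fin P.N → ℕ) → MvPolynomial (Fin P.N) k) (h : ∑ A ∈ Ap P.N p, g A ^ p * q A = 0) :
    ∀ A ∈ Ap P.N p, g A = 0 := by
  classical
  have hp : 0 < p := (Fact.out : p.Prime).pos
  obtain ⟨D, hder, hpow, htri, hcomp⟩ := exists_der (P := P) (p := p) hP
  obtain ⟨F, hF⟩ := polyMap_iff.1 (fm.2.2 1)
  have hF' : ∀ c, (fm : G → k) (P.u c) = eval c F := by
    intro c
    rw [← hF c, one_mul]
  have hqA : ∀ A ∈ Ap P.N p, q A = mono D A F := by
    intro A hA
    apply MvPolynomial.funext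
    intro c
    rw [← hq A hA c]
    refine prod_rel (fun (E : Module.End k (P.Ind z))
      (E' : Module.End k (MvPolynomial (Fin P.N) k)) =>
        ∀ (f : P.Ind z) (Q : MvPolynomial (Fin P.N) k), (∀ c, (f : G → k) (P.u c) = eval c Q) →
          ∀ c, (E f : G → k) (P.u c) = eval c (E' Q)) (fun f Q h c => h c)
      (fun E₁ E₂ E₁' E₂' h1 h2 f Q h c => h1 _ _ (h2 f Q h) c) P.N _ _ (fun j => ?_) fm F hF' c
    exact pow_rel (fun (E : Module.End k (P.Ind z))
      (E' : Module.End k (MvPolynomial (Fin P.N) k)) =>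
        ∀ (f : P.Ind z) (Q : MvPolynomial (Fin P.N) k), (∀ c, (f : G → k) (P.u c) = eval c Q) →
          ∀ c, (E f : G → k) (P.u c) = eval c (E' Q)) (fun f Q h c => h c)
      (fun E₁ E₂ E₁' E₂' h1 h2 f Q h c => h1 _ _ (h2 f Q h) c) _ _
      (fun f Q h c => hcomp z f f.2 Q h j c) (A j)
  have hlin : ∀ (A : Fin P.N → ℕ) (g Q : MvPolynomial (Fin P.N) k),
      mono D A (g ^ p * Q) = g ^ p * mono D A Q := by
    intro A g Q
    refine prod_rel (fun (E E' : Module.End k (MvPolynomial (Fin P.N) k)) =>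
      ∀ Q, E (g ^ p * Q) = g ^ p * E' Q) (fun Q => rfl)
      (fun E₁ E₂ E₁' E₂' h1 h2 Q => by
        rw [Module.End.mul_apply, Module.End.mul_apply, h2, h1]) P.N _ _ (fun j => ?_) Q
    refine pow_rel (fun (E E' : Module.End k (MvPolynomial (Fin P.N) k)) =>
      ∀ Q, E (g ^ p * Q) = g ^ p * E' Q) (fun Q => rfl)
      (fun E₁ E₂ E₁' E₂' h1 h2 Q => by
        rw [Module.End.mul_apply, Module.End.mul_apply, h2, h1]) _ _ (fun Q => ?_) (A j)
    rw [hder, hpow, zero_mul, zero_add]
  obtain ⟨c₀, hc₀, htop⟩ := mono_top hP hz hv fm hfm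
  have hAtop : (fun _ => p - 1) ∈ Ap P.N p := by
    unfold Ap
    rw [Fintype.mem_piFinset]
    intro j
    rw [Finset.mem_range]
    omega
  have hqtop : mono D (fun _ => p - 1) F = C c₀ := by
    rw [← hqA _ hAtop]
    apply MvPolynomial.funext
    intro c
    rw [← hq _ hAtop c, htop, Pi.smul_apply, hv.2 c, smul_eq_mul, mul_one, eval_C]
  have hF0 : F ≠ 0 := by
    intro h0
    rw [h0, map_zero] at hqtop
    exact hc₀ (C_injective _ _ (by rw [← hqtop, C_0]))
  obtain ⟨K, hK⟩ : ∃ K : AddSubgroup (MvPolynomial (Fin P.N) k),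
      ∀ y, y ∈ K ↔ ∃ g : MvPolynomial (Fin P.N) k, y = g ^ p * F := by
    refine ⟨{ carrier := {y | ∃ g : MvPolynomial (Fin P.N) k, y = g ^ p * F}
              add_mem' := ?_
              zero_mem' := ⟨0, by rw [zero_pow hp.ne', zero_mul]⟩
              neg_mem' := ?_ }, fun y => Iff.rfl⟩
    · rintro _ _ ⟨g, rfl⟩ ⟨g', rfl⟩
      exact ⟨g + g', by rw [add_pow_char, add_mul]⟩
    · rintro _ ⟨g, rfl⟩
      refine ⟨-g, ?_⟩
      have h1 : g ^ p + (-g) ^ p = 0 := by
        rw [← add_pow_char, add_neg_cancel, zero_pow hp.ne']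
      rw [eq_neg_of_add_eq_zero_right h1, neg_mul]
  have hfin := elim hp htri K (fun y hy h0 => ?_) (fun A => g A ^ p * F)
    (fun A _ => (hK _).2 ⟨g A, rfl⟩) ?_
  · intro A hA
    have h1 := hfin A hA
    exact pow_eq_zero_iff hp.ne' |>.1 ((mul_eq_zero.1 h1).resolve_right hF0)
  · obtain ⟨g', rfl⟩ := (hK y).1 hy
    rw [hlin, hqtop] at h0
    have h1 : g' ^ p = 0 := by
      rcases mul_eq_zero.1 h0 with h | h
      · exact h
      · exact absurd (C_injective _ _ (by rw [h, C_0])) hc₀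
    rw [h1, zero_mul]
  · rw [← h]
    refine Finset.sum_congr rfl fun A hA => ?_
    rw [hlin, hqA A hA]

theorem st_basis [Infinite k] [Fact p.Prime] [CharP k p] (hP : P.Ax) (hz : P.Stz p z)
    (hv : P.IsV z v) (fm : P.Ind z) (hfm : (fm : G → k) = lreg k G G P.w0 v)
    (q : (Fin P.N → ℕ) → MvPolynomial (Fin P.N) k)
    (hq : ∀ A ∈ Ap P.N p, ∀ c, (mono (P.eI hP z) A fm : G → k) (P.u c) = eval c (q A))
    (Q : MvPolynomial (Fin P.N) k) :
    ∃ g : (Fin P.N → ℕ) → MvPolynomial (Fin P.N) k, Q = ∑ A ∈ Ap P.N p, g A ^ p * q A := by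
  have hp : 0 < p := (Fact.out : p.Prime).pos
  refine basis_of_weights p (fun i => (P.h (P.rt i)).toNat) (fun i => ?_) q (fun A hA => ?_)
    (fun g hg => st_indep hP hz hv fm hfm q hq g hg) Q
  · have h1 := hP.h_pos i
    omega
  · intro B hB
    have hwt := mono_wt hP fm (by rw [hfm]; exact fm_wt hP hz hv) A
    have h1 := homog_coeff hP (d := z - (-z + ∑ i, A i • P.rt i)) (Q := q A) (fun t c => by
      rw [← hq A hA, ← hq A hA]
      exact Ind_homog hP (mono (P.eI hP z) A fm).2 hwt t c) B hB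
    have h2 := congrArg P.h h1
    have h3 : z - (-z + ∑ i, A i • P.rt i) = (p - 1) • P.rho2 - ∑ i, A i • P.rt i := by
      rw [← hz.two]
      abel
    rw [h3, map_sub, map_nsmul, rho2, map_sum, map_sum, map_sum] at h2
    simp only [map_nsmul, nsmul_eq_mul] at h2
    rw [Finset.mul_sum, ← Finset.sum_sub_distrib] at h2
    rw [Finsupp.weight_apply, Finsupp.sum_fintype _ _ (by simp)]
    have h4 : ∀ i, A i < p := by
      intro i
      unfold Ap at hA
      rw [Fintype.mem_piFinset] at hA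
      exact Finset.mem_range.1 (hA i)
    have h5 : ((∑ i, B i • (P.h (P.rt i)).toNat : ℕ) : ℤ) =
        ((∑ i, (p - 1 - A i) * (P.h (P.rt i)).toNat : ℕ) : ℤ) := by
      push_cast
      have h6 : ∀ i, (((P.h (P.rt i)).toNat : ℕ) : ℤ) = P.h (P.rt i) := by
        intro i
        exact Int.toNat_of_nonneg (hP.h_pos i).le
      simp only [smul_eq_mul]
      push_cast
      calc ∑ i, (B i : ℤ) * (((P.h (P.rt i)).toNat : ℕ) : ℤ) =
            ∑ i, (B i : ℤ) * P.h (P.rt i) := Finset.sum_congr rfl fun i _ => by rw [h6]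
        _ = _ := h2
        _ = _ := by
          refine Finset.sum_congr rfl fun i _ => ?_
          have h7 : (((p - 1 - A i : ℕ)) : ℤ) = ((p - 1 : ℕ) : ℤ) - A i := by
            have := h4 i
            omega
          rw [h7, h6]
          ring
    exact_mod_cast h5

end PinData

end Pool.Agent.DM
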