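import Pool.Agent.DM.LieD
import Pool.Agent.DM.LieC
import Pool.Agent.DM.IndC

/-!
# DM: the Steinberg module `St = Ind z` (definitions)
-/

set_option autoImplicit false

namespace Pool.Agent.DM

open MvPolynomial

variable {k : Type*} [Field k] [Infinite k] {G : Type*} [Group G] {T : Type*} [CommGroup T]
  {X : Type*} [AddCommGroup X] (P : PinData k G T X)
  {V : Type*} [AddCommGroup V] [Module k V]

namespace PinData

/-- `e_(w_1) e_(w_2) ⋯ x` -/
noncomputable def ewd (ρ : Representation k G V) (w : List (Fin P.N)) (x : V) : V :=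
  w.foldr (fun i y => P.ep ρ i y) x

/-- the span of all words in the operators of positive roots applied to `x` -/
noncomputable def eSpan (ρ : Representation k G V) (x : V) : Submodule k V :=
  Submodule.span k (Set.range fun w => P.ewd ρ w x)

/-- the operators of positive roots on `Ind l` -/
noncomputable def eI (hP : P.Ax) (l : X) (i : Fin P.N) : Module.End k (P.Ind l) :=
  (Ind_rat hP l).epL i

/-- What we use about the Steinberg module `St = Ind z`: `v` is its highest weight vector,
`s A` (`A` in the box `Ap N p`) a basis of weight vectors, `q A` their restrictions to `U`, a basis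
of `k[U]` over `p`-th powers; vectors killed by all `e_i` are multiples of `v`; `St` is generated
by `v` under the operators of negative roots. -/
structure IsSt (p : ℕ) (z : X) (v : G → k) (s : (Fin P.N → ℕ) → G → k)
    (q : (Fin P.N → ℕ) → MvPolynomial (Fin P.N) k) : Prop where
  isV : P.IsV z v
  mem : ∀ A ∈ Ap P.N p, s A ∈ P.Ind z
  eval : ∀ A ∈ Ap P.N p, ∀ c, s A (P.u c) = eval c (q A)
  wts : ∀ A ∈ Ap P.N p, s A ∈ P.wt (lreg k G G) (-z + ∑ i, A i • P.rt i)
  indep : ∀ g : (Fin P.N → ℕ) → MvPolynomial (Fin P.N) k,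
    ∑ A ∈ Ap P.N p, g A ^ p * q A = 0 → ∀ A ∈ Ap P.N p, g A = 0
  basis : ∀ Q : MvPolynomial (Fin P.N) k, ∃ g : (Fin P.N → ℕ) → MvPolynomial (Fin P.N) k,
    Q = ∑ A ∈ Ap P.N p, g A ^ p * q A
  span : ∀ f ∈ P.Ind z, ∃ a : (Fin P.N → ℕ) → k, f = ∑ A ∈ Ap P.N p, a A • s A
  top : ∀ f ∈ P.Ind z, (∀ i, P.ep (lreg k G G) i f = 0) → ∃ a : k, f = a • v
  gen : ∀ K : Submodule k (G → k), v ∈ K →
    (∀ i, ∀ f ∈ K, f ∈ P.Ind z → P.em (lreg k G G) i f ∈ K) → P.Ind z ≤ K

end PinData

end Pool.Agent.DM
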