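import Pool.Agent.DM.Core
import Pool.Agent.DM.Rep

/-!
# DM, module StDual: higher Steinberg modules are generated by their highest weight vectors and
self-dual

`gen_step`: let `vμ` be the highest weight vector of `Ind μ` and suppose that its translates span
`Ind μ`.  Let `Q` be the space of `φ ∈ bx (Ind z) (fr p (Ind μ))` whose restriction
`x ↦ φ(x, x)` to the diagonal lies in `Lsp (v vμ^p)`; it is `G`-stable, hence stable under `ep`,
`em` (`dv_mem`, `bx_rat`, `fr_rat`), so `ten_stable` gives `Q ≤ bx (Ind z) W'`,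
`W' = sl (Ind z) (fr p (Ind μ)) Q`.  `box v (vμ^p) ∈ Q`, so `vμ^p ∈ W'` (`box_sum_mem`).  `W'` is
`G`-stable (`box s (lreg(g) w) = lreg(g) (box (lreg(g⁻¹) s) w)`), so it contains all
`(lreg(g) vμ)^p` and their span `fr p (Lsp vμ) ⊇ fr p (Ind μ)`.  So `s a^p ∈ Lsp (v vμ^p)` for
`s ∈ Ind z`, `a ∈ Ind μ`, and by `thmK` these span `Ind (z + p μ)`.

`gen_zn`: induction on `n`: `zn 0 = 0`, `Ind 0` consists of the constants (`Ind_wts`, `Ind_wt_h`,
`Ind_wt_ge`, `Ind_top`: all weights have height `0`, so are `0`); `zn (n+1) = z + p • zn n`.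

`st_dual`: let `μ = zn n`, `f₋ = lreg(w₀) vμ`, of weight `-μ` (`wt_w0`, `hz.neg`) and invariant under
`x_-i(s)` (as `fm_inv`).  Put `Φ(lam)(g) = lam(lreg(g) f₋)`.  `Φ(lam) ∈ Ind μ`:
`lreg(tor t * v b) f₋ = (ch μ t)⁻¹ f₋`, and `c ↦ lam(lreg(g) lreg(u c) f₋)` is polynomial
(`Ind_rat`, `pu`).  Injective: `lam = 0` on all translates of `f₋`, which span `Ind μ` (`gen_zn`);
so bijective by dimension (`Ind_fin`).  `Φ(h lam)(g) = lam(lreg(h⁻¹ g) f₋) = Φ(lam)(h⁻¹ g)`.
-/

set_option autoImplicit false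

namespace Pool.Agent.DM

open MvPolynomial

variable {k : Type*} [Field k] [IsAlgClosed k] [Infinite k] {G : Type*} [Group G]
  {T : Type*} [CommGroup T] {X : Type*} [AddCommGroup X] {P : PinData k G T X}
  {z μ : X} {p : ℕ} {v vμ : G → k} {s : (Fin P.N → ℕ) → G → k}
  {q : (Fin P.N → ℕ) → MvPolynomial (Fin P.N) k}

namespace PinData

omit [IsAlgClosed k] [Infinite k] in
private theorem sdu_stable (w : G → k) (g : G) (f : G → k) (hf : f ∈ Lsp w) :
    lreg k G G g f ∈ Lsp w := by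
  refine Submodule.span_induction (p := fun f _ => lreg k G G g f ∈ Lsp w) ?_ ?_ ?_ ?_ hf
  · rintro _ ⟨h, rfl⟩
    refine Submodule.subset_span ⟨g * h, ?_⟩
    change lreg k G G (g * h) w = lreg k G G g (lreg k G G h w)
    rw [map_mul]
    rfl
  · rw [map_zero]
    exact zero_mem _
  · intro x y _ _ hx hy
    rw [map_add]
    exact add_mem hx hy
  · intro c x _ hx
    rw [map_smul]
    exact Submodule.smul_mem _ _ hx

omit [IsAlgClosed k] [Infinite k] in
private theorem sdu_self (w : G → k) : w ∈ Lsp w := by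
  refine Submodule.subset_span ⟨1, ?_⟩
  change lreg k G G 1 w = w
  rw [map_one]
  rfl

omit [IsAlgClosed k] [Infinite k] [Field k] [Group G] [CommGroup T] in
private theorem sdu_zn (n : ℕ) : zn p z (n + 1) = z + p • zn p z n := by
  unfold zn
  rw [Finset.sum_range_succ', pow_zero, add_smul, one_smul, add_comm, smul_smul, Finset.mul_sum]
  congr 3
  funext i
  rw [pow_succ']

theorem gen_z [Fact p.Prime] [CharP k p] (hP : P.Ax) (hst : P.IsSt p z v s q) :
    P.Ind z ≤ Lsp v := by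
  refine hst.gen _ (sdu_self v) fun i f hf hfz => ?_
  exact dv_mem _ ((Ind_rat hP z).pol_xm hfz i) fun s => sdu_stable v _ f hf

theorem gen_step [Fact p.Prime] [CharP k p] (hP : P.Ax) (hst : P.IsSt p z v s q)
    (hμ : P.IsV μ vμ) (h : P.Ind μ ≤ Lsp vμ) : P.Ind (z + p • μ) ≤ Lsp (v * vμ ^ p) := by
  classical
  set W : Submodule k (G → k) := fr p (P.Ind μ) with hWdef
  have hW : P.RatOn (lreg k G G) W := fr_rat p hP (Ind_rat hP μ)
  have hZ : P.RatOn (lreg k G (G × G)) (bx (P.Ind z) W) := bx_rat hP (Ind_rat hP z) hW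
  set res : (G × G → k) →ₗ[k] (G → k) :=
    { toFun := fun φ x => φ (x, x)
      map_add' := fun _ _ => rfl
      map_smul' := fun _ _ => rfl } with hres
  have hres_lreg : ∀ (g : G) (φ : G × G → k), res (lreg k G (G × G) g φ) =
      lreg k G G g (res φ) := fun g φ => rfl
  set Q : Submodule k (G × G → k) := bx (P.Ind z) W ⊓ (Lsp (v * vμ ^ p)).comap res with hQdef
  have hQst : ∀ (g : G), ∀ φ ∈ Q, lreg k G (G × G) g φ ∈ Q := by
    intro g φ hφ
    refine ⟨hZ.stable g φ hφ.1, ?_⟩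
    exact sdu_stable (v * vμ ^ p) g (res φ) hφ.2
  have hWe : ∀ w ∈ W, ∀ i, P.ep (lreg k G G) i w = 0 := by
    intro w hw i
    obtain ⟨f, hf, rfl⟩ := (mem_fr p).1 hw
    exact dv_frob p ((Ind_rat hP μ).pol_xp hf i)
  have hWm : ∀ w ∈ W, ∀ i, P.em (lreg k G G) i w = 0 := by
    intro w hw i
    obtain ⟨f, hf, rfl⟩ := (mem_fr p).1 hw
    exact dv_frob p ((Ind_rat hP μ).pol_xm hf i)
  have hle := ten_stable hP hst hW hWe hWm (Q := Q) inf_le_left
    (fun φ hφ i => dv_mem Q (hZ.pol_xp hφ.1 i) fun s => hQst _ _ hφ)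
    (fun φ hφ i => dv_mem Q (hZ.pol_xm hφ.1 i) fun s => hQst _ _ hφ)
  set W' : Submodule k (G → k) := sl (P.Ind z) W Q with hW'
  have hvW : vμ ^ p ∈ W := (mem_fr p).2 ⟨vμ, hμ.1, rfl⟩
  have hbox : box v (vμ ^ p) ∈ Q := by
    refine ⟨box_mem hst.isV.1 hvW, ?_⟩
    exact sdu_self (v * vμ ^ p)
  have hv0 : v ≠ 0 := by
    intro h0
    have h1 := hst.isV.2 0
    rw [h0] at h1
    exact zero_ne_one h1
  have hvW' : vμ ^ p ∈ W' := by
    have h1 := hle hbox
    have h2 : ∑ i : Fin 1, box ((fun _ : Fin 1 => v) i) ((fun _ : Fin 1 => vμ ^ p) i) ∈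
        bx (P.Ind z) W' := by
      rw [Fin.sum_univ_one]
      exact h1
    exact box_sum_mem (n := 1) (a := fun _ => v) (LinearIndependent.of_subsingleton 0 hv0) h2 0
  have hW'st : ∀ (g : G), ∀ w ∈ W', lreg k G G g w ∈ W' := by
    intro g w hw
    refine ⟨hW.stable g w hw.1, fun s' hs' => ?_⟩
    have h1 : (fun y : G × G => s' y.1 * (lreg k G G g w) y.2) =
        lreg k G (G × G) g (fun y : G × G => (lreg k G G g⁻¹ s') y.1 * w y.2) := by
      funext y
      change s' y.1 * w (g⁻¹ • y.2) = s' (g⁻¹⁻¹ • (g⁻¹ • y.1)) * w (g⁻¹ • y.2)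
      rw [inv_inv, smul_smul, mul_inv_cancel, one_smul]
    rw [h1]
    exact hQst g _ (hw.2 _ (Ind_stable z g⁻¹ s' hs'))
  have hpow : ∀ a ∈ Lsp vμ, a ^ p ∈ W' := by
    intro a ha
    refine Submodule.span_induction (p := fun a _ => a ^ p ∈ W') ?_ ?_ ?_ ?_ ha
    · rintro _ ⟨g, rfl⟩
      have h1 := hW'st g _ hvW'
      rw [lreg_pow] at h1
      exact h1
    · rw [zero_pow (Fact.out : p.Prime).ne_zero]
      exact zero_mem _
    · intro x y _ _ hx hy
      rw [frob_add]
      exact add_mem hx hy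
    · intro c x _ hx
      rw [smul_pow]
      exact Submodule.smul_mem _ _ hx
  intro f hf
  obtain ⟨F, hF, rfl⟩ := thmK hP hst hμ hf
  refine Submodule.sum_mem _ fun A hA => ?_
  exact ((hpow _ (h (hF A hA))).2 (s A) (hst.mem A hA)).2

theorem gen_zn [Fact p.Prime] [CharP k p] (hP : P.Ax) (hz : P.Stz p z) (n : ℕ) :
    ∃ w, P.IsV (zn p z n) w ∧ P.Ind (zn p z n) ≤ Lsp w := by
  induction n with
  | zero =>
    have h0 : zn p z 0 = 0 := by
      unfold zn
      rw [Finset.sum_range_zero, zero_smul]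
    rw [h0]
    refine ⟨1, ⟨Ind_one hP, fun c => rfl⟩, fun f hf => ?_⟩
    obtain ⟨F, y, hy, rfl⟩ := Ind_wts hP 0 hf
    refine Submodule.sum_mem _ fun e he => ?_
    obtain ⟨hw, hI⟩ := hy e he
    by_cases hy0 : y e = 0
    · rw [hy0]
      exact zero_mem _
    have he0 : e = 0 := by
      by_contra hne
      have h1 := Ind_wt_ge hP hI hw hy0
      have h2 := Ind_wt_h hP hI hw hy0 hne
      rw [map_zero] at h1 h2
      omega
    have hw' : y e ∈ P.wt (lreg k G G) 0 := he0 ▸ hw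
    have h3 : y e = (y e 1) • (1 : G → k) := by
      refine Ind_ext hP hI (Submodule.smul_mem _ _ (Ind_one hP)) fun c => ?_
      rw [Ind_top hP hI hw', Pi.smul_apply, Pi.one_apply, smul_eq_mul, mul_one]
    rw [h3]
    exact Submodule.smul_mem _ _ (sdu_self 1)
  | succ n ih =>
    obtain ⟨w, hw, hle⟩ := ih
    obtain ⟨v, s, q, hst⟩ := exists_st hP hz
    rw [sdu_zn]
    exact ⟨v * w ^ p, hst.isV.mul hP (hw.pow hP p), gen_step hP hst hw hle⟩

theorem st_dual [Fact p.Prime] [CharP k p] (hP : P.Ax) (hz : P.Stz p z) (n : ℕ) :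
    ∃ Φ : Module.Dual k (P.Ind (zn p z n)) ≃ₗ[k] P.Ind (zn p z n),
      ∀ g lam, Φ ((P.indRep (zn p z n)).dual g lam) = P.indRep (zn p z n) g (Φ lam) := by
  classical
  obtain ⟨w, hw, hle⟩ := gen_zn hP hz n
  set μ : X := zn p z n with hμ
  have hfm : lreg k G G P.w0 w ∈ P.Ind μ := Ind_stable μ _ _ hw.1
  have hwX : P.wX μ = -μ := by
    rw [hμ]
    unfold zn
    rw [map_nsmul, hz.neg, smul_neg]
  have hfmw : lreg k G G P.w0 w ∈ P.wt (lreg k G G) (-μ) := by
    rw [← hwX]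
    exact wt_w0 hP (hw.wt hP)
  have hfmv : ∀ b, lreg k G G (P.v b) (lreg k G G P.w0 w) = lreg k G G P.w0 w := by
    intro b
    refine v_induct (P := P) (fun g => lreg k G G g (lreg k G G P.w0 w) = lreg k G G P.w0 w)
      ?_ ?_ b
    · rw [map_one]
      rfl
    · intro i a g hg
      rw [map_mul, Module.End.mul_apply, hg]
      exact fm_inv hP hw i a
  set fm : P.Ind μ := ⟨lreg k G G P.w0 w, hfm⟩ with hfmdef
  -- extension of functionals
  have hext : ∀ lam : Module.Dual k (P.Ind μ), ∃ L : (G → k) →ₗ[k] k, ∀ x : P.Ind μ,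
      L (x : G → k) = lam x := by
    intro lam
    obtain ⟨L, hL⟩ := LinearMap.exists_extend lam
    exact ⟨L, fun x => LinearMap.congr_fun hL x⟩
  have hmem : ∀ lam : Module.Dual k (P.Ind μ), (fun g => lam (P.indRep μ g fm)) ∈ P.Ind μ := by
    intro lam
    obtain ⟨L, hL⟩ := hext lam
    have hval : ∀ g, lam (P.indRep μ g fm) = L (lreg k G G g (lreg k G G P.w0 w)) := by
      intro g
      rw [← hL]
      rfl
    refine ⟨fun g t b => ?_, fun g => ?_⟩
    · simp only [hval]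
      rw [map_mul, Module.End.mul_apply, map_mul, Module.End.mul_apply, hfmv, hfmw t, map_smul,
        map_smul, ch_neg hP, smul_eq_mul]
    · have h1 := ((Ind_rat hP μ).pu _ hfm).map (L.comp (lreg k G G g))
      refine (congrArg PolyMap (funext fun c => ?_)).mp h1
      change _ = lam (P.indRep μ (g * P.u c) fm)
      rw [hval, map_mul, Module.End.mul_apply]
      rfl
  set Φ₀ : Module.Dual k (P.Ind μ) →ₗ[k] P.Ind μ :=
    { toFun := fun lam => ⟨fun g => lam (P.indRep μ g fm), hmem lam⟩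
      map_add' := fun _ _ => rfl
      map_smul' := fun _ _ => rfl } with hΦ
  have hΦval : ∀ lam g, ((Φ₀ lam : P.Ind μ) : G → k) g = lam (P.indRep μ g fm) :=
    fun _ _ => rfl
  have hinj : Function.Injective Φ₀ := by
    rw [← LinearMap.ker_eq_bot, LinearMap.ker_eq_bot']
    intro lam hlam
    obtain ⟨L, hL⟩ := hext lam
    have h1 : ∀ g, lam (P.indRep μ g fm) = 0 := by
      intro g
      rw [← hΦval, hlam]
      rfl
    have h2 : Lsp w ≤ LinearMap.ker L := by
      refine Submodule.span_le.2 ?_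
      rintro _ ⟨g, rfl⟩
      have h3 := h1 (g * P.w0⁻¹)
      rw [← hL] at h3
      change L (lreg k G G (g * P.w0⁻¹) (lreg k G G P.w0 w)) = 0 at h3
      rw [← Module.End.mul_apply, ← map_mul, inv_mul_cancel_right] at h3
      exact h3
    ext x
    rw [← hL, h2 (hle x.2)]
    rfl
  have hfd : FiniteDimensional k (P.Ind μ) := Ind_fin hP μ
  refine ⟨LinearEquiv.ofInjectiveOfFinrankEq Φ₀ hinj Subspace.dual_finrank_eq, fun g lam => ?_⟩
  apply Subtype.ext
  funext h
  change (P.indRep μ).dual g lam (P.indRep μ h fm) = lam (P.indRep μ (g⁻¹ * h) fm)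
  rw [Representation.dual_apply, Module.Dual.transpose_apply, map_mul]
  rfl

end PinData

end Pool.Agent.DM
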