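import Pool.Agent.DM.VSurj

/-!
# DM, module VFilt: `V ⊗ Ind(z_n)` has a filtration by induced modules for large `n`

Proof.  `V` has a basis `e_0, …, e_(r-1)` of weight vectors, of weights `w_j`, ordered by
nondecreasing `h(w_j)` (`RatOn.wts`: `V` is the sum of its weight spaces; choose bases of them).
Let `E_j` be the span of `e_0, …, e_(j-1)`.  By `v_sub` (`ρ(v b) e_j - e_j ∈ low(h w_j)`, which is
spanned by the `e_i` with `h(w_i) < h(w_j)`) `E_j` is stable under `B⁻`, and for `lam_j` the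
`j`-th coordinate function, `lam_j(ρ(tor t * v b) y) = ch(w_j)(t) lam_j(y)` for `y ∈ E_(j+1)`.
`VI_surj` gives `D_j`; `pair i (w_j + m z) ≥ 0` for all simple `i` and `m ≥ m₀`.  If
`1 + p + ⋯ + p^(n-1) ≥ m₀ + max D_j` (true for `n ≥ n₀`, since it is `≥ n`) the surjectivity holds
for `μ = z_n`.  With `Ψ` from `exists_VI_equiv` put `N_j = Ψ⁻¹ {F | F(G) ⊆ E_j}` (`N_j = ⊤` for
`j ≥ r`, for instance `E_j = ⊤`), and `π_j y = (g ↦ lam_j (Ψ y g)) ∈ Ind (w_j + z_n)`:
equivariant, surjective, with kernel `N_j` on `N_(j+1)`.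
-/

set_option autoImplicit false

namespace Pool.Agent.DM

open MvPolynomial TensorProduct

variable {k : Type*} [Field k] [IsAlgClosed k] [Infinite k] {G : Type*} [Group G]
  {T : Type*} [CommGroup T] {X : Type*} [AddCommGroup X] {P : PinData k G T X}
  {z : X} {p : ℕ} {V : Type*} [AddCommGroup V] [Module k V] {ρ : Representation k G V}

namespace PinData

omit [IsAlgClosed k] [Infinite k] in
/-- a basis of weight vectors with nondecreasing heights -/
private theorem vf_basis [FiniteDimensional k V] (hρ : P.RatOn ρ ⊤) :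
    ∃ (r : ℕ) (b : Module.Basis (Fin r) k V) (w : Fin r → X), (∀ i, b i ∈ P.wt ρ (w i)) ∧
      ∀ i j, i ≤ j → P.h (w i) ≤ P.h (w j) := by
  classical
  have hs : ⊤ ≤ Submodule.span k {x : V | ∃ l, x ∈ P.wt ρ l} :=
    hρ.wts.trans (iSup_le fun l x hx => Submodule.subset_span ⟨l, hx⟩)
  have hb₀ : ∀ i, ∃ l, Module.Basis.ofSpan hs i ∈ P.wt ρ l := fun i =>
    Module.Basis.ofSpan_subset hs ⟨i, rfl⟩
  have := FiniteDimensional.fintypeBasisIndex (Module.Basis.ofSpan hs)
  let b₁ := (Module.Basis.ofSpan hs).reindex (Fintype.equivFin _)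
  have hb₁ : ∀ i, ∃ l, b₁ i ∈ P.wt ρ l := fun i => by
    obtain ⟨l, hl⟩ := hb₀ ((Fintype.equivFin _).symm i)
    refine ⟨l, ?_⟩
    rw [Module.Basis.reindex_apply]
    exact hl
  choose w₁ hw₁ using hb₁
  let σ := Tuple.sort fun i => P.h (w₁ i)
  refine ⟨_, b₁.reindex σ.symm, fun i => w₁ (σ i), fun i => ?_, fun i j hij => ?_⟩
  · rw [Module.Basis.reindex_apply]
    exact hw₁ _
  · exact Tuple.monotone_sort (fun i => P.h (w₁ i)) hij

omit [IsAlgClosed k] [Infinite k] in
private theorem vf_coord (hP : P.Ax) {r : ℕ} (b : Module.Basis (Fin r) k V) (w : Fin r → X)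
    (hb : ∀ i, b i ∈ P.wt ρ (w i)) {l : X} {y : V} (hy : y ∈ P.wt ρ l) (i : Fin r)
    (h0 : b.coord i y ≠ 0) : w i = l := by
  apply hP.ch_inj
  apply MonoidHom.ext
  intro t
  have h1 := congrArg (b.coord i) (hy t)
  have h2 : (b.coord i) ∘ₗ (ρ (P.tor t)) = ((P.ch (w i) t : kˣ) : k) • b.coord i := by
    refine b.ext fun j => ?_
    rw [LinearMap.comp_apply, hb j t, map_smul, LinearMap.smul_apply]
    by_cases hij : j = i
    · rw [hij]
    · have h3 : b.coord i (b j) = 0 := by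
        rw [Module.Basis.coord_apply, Module.Basis.repr_self, Finsupp.single_eq_of_ne (Ne.symm hij)]
      rw [h3, smul_zero, smul_zero]
  have h3 := LinearMap.congr_fun h2 y
  rw [LinearMap.comp_apply, h1, map_smul, LinearMap.smul_apply, smul_eq_mul, smul_eq_mul] at h3
  exact Units.ext (mul_right_cancel₀ h0 h3.symm)

omit [IsAlgClosed k] [Infinite k] in
private theorem vf_low (hP : P.Ax) {r : ℕ} (b : Module.Basis (Fin r) k V) (w : Fin r → X)
    (hb : ∀ i, b i ∈ P.wt ρ (w i)) {c : ℤ} {y : V} (hy : y ∈ P.low ρ c) (i : Fin r)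
    (hi : c ≤ P.h (w i)) : b.coord i y = 0 := by
  have h1 : P.low ρ c ≤ LinearMap.ker (b.coord i) := by
    refine iSup_le fun l => iSup_le fun hl => fun y hy => ?_
    rw [LinearMap.mem_ker]
    by_contra h0
    have h2 := vf_coord hP b w hb hy i h0
    rw [h2] at hi
    omega
  exact LinearMap.mem_ker.1 (h1 hy)

omit [IsAlgClosed k] in
private theorem vf_tri (hP : P.Ax) (hρ : P.RatOn ρ ⊤) {r : ℕ} (b : Module.Basis (Fin r) k V)
    (w : Fin r → X) (hb : ∀ i, b i ∈ P.wt ρ (w i)) (hm : ∀ i j, i ≤ j → P.h (w i) ≤ P.h (w j))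
    (t : T) (c : Fin P.N → k) (i i' : Fin r) (hi : i' ≤ i) :
    b.coord i (ρ (P.tor t * P.v c) (b i')) =
      ((P.ch (w i') t : kˣ) : k) * b.coord i (b i') := by
  have h1 := hρ.v_sub hP Submodule.mem_top (hb i') c
  have h2 := tor_low h1 t
  have h3 : ρ (P.tor t * P.v c) (b i') = ρ (P.tor t) (ρ (P.v c) (b i')) := by
    rw [map_mul]
    rfl
  rw [map_sub, ← h3, hb i' t] at h2
  have h4 := vf_low hP b w hb h2 i (hm _ _ hi)
  rw [map_sub, map_smul, smul_eq_mul, sub_eq_zero] at h4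
  exact h4

/-- the subspace spanned by the first `j` basis vectors -/
private noncomputable def vfE {r : ℕ} (b : Module.Basis (Fin r) k V) (j : ℕ) :
    Submodule k V where
  carrier := {y | ∀ i : Fin r, j ≤ (i : ℕ) → b.coord i y = 0}
  add_mem' := by
    intro x y hx hy i hi
    rw [map_add, hx i hi, hy i hi, add_zero]
  zero_mem' := fun i _ => map_zero _
  smul_mem' := by
    intro a x hx i hi
    rw [map_smul, hx i hi, smul_zero]

omit [IsAlgClosed k] [Infinite k] in
private theorem vf_expand {r : ℕ} (b : Module.Basis (Fin r) k V) (i : Fin r)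
    (L : V →ₗ[k] V) (y : V) :
    b.coord i (L y) = ∑ i', b.coord i' y * b.coord i (L (b i')) := by
  conv_lhs => rw [← b.sum_repr y]
  rw [map_sum, map_sum]
  refine Finset.sum_congr rfl fun i' _ => ?_
  rw [map_smul, map_smul, smul_eq_mul, Module.Basis.coord_apply b i']

omit [IsAlgClosed k] [Infinite k] in
private theorem vf_delta {r : ℕ} (b : Module.Basis (Fin r) k V) {i j : Fin r} (h : i ≠ j) :
    b.coord i (b j) = 0 := by
  rw [Module.Basis.coord_apply, Module.Basis.repr_self, Finsupp.single_eq_of_ne h]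

omit [IsAlgClosed k] in
private theorem vf_stable (hP : P.Ax) (hρ : P.RatOn ρ ⊤) {r : ℕ} (b : Module.Basis (Fin r) k V)
    (w : Fin r → X) (hb : ∀ i, b i ∈ P.wt ρ (w i)) (hm : ∀ i j, i ≤ j → P.h (w i) ≤ P.h (w j))
    (j : ℕ) (t : T) (c : Fin P.N → k) (y : V) (hy : y ∈ vfE b j) :
    ρ (P.tor t * P.v c) y ∈ vfE b j := by
  intro i hi
  rw [vf_expand]
  refine Finset.sum_eq_zero fun i' _ => ?_
  by_cases hi' : j ≤ (i' : ℕ)
  · rw [hy i' hi', zero_mul]
  · have hlt : i' < i := by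
      rw [Fin.lt_def]
      omega
    rw [vf_tri hP hρ b w hb hm t c i i' hlt.le, vf_delta b hlt.ne', mul_zero, mul_zero]

omit [IsAlgClosed k] in
private theorem vf_lam (hP : P.Ax) (hρ : P.RatOn ρ ⊤) {r : ℕ} (b : Module.Basis (Fin r) k V)
    (w : Fin r → X) (hb : ∀ i, b i ∈ P.wt ρ (w i)) (hm : ∀ i j, i ≤ j → P.h (w i) ≤ P.h (w j))
    (j : Fin r) (t : T) (c : Fin P.N → k) (y : V) (hy : y ∈ vfE b (j + 1)) :
    b.coord j (ρ (P.tor t * P.v c) y) = ((P.ch (w j) t : kˣ) : k) * b.coord j y := by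
  have h1 : b.coord j (b j) = 1 := by
    rw [Module.Basis.coord_apply, Module.Basis.repr_self, Finsupp.single_eq_same]
  rw [vf_expand, Finset.sum_eq_single j]
  · rw [vf_tri hP hρ b w hb hm t c j j le_rfl, h1, mul_one, mul_comm]
  · intro i' _ hne
    rcases lt_or_gt_of_ne hne with hlt | hlt
    · rw [vf_tri hP hρ b w hb hm t c j i' hlt.le, vf_delta b hlt.ne', mul_zero, mul_zero]
    · rw [hy i' (by rw [Fin.lt_def] at hlt; omega), zero_mul]
  · intro h
    exact absurd (Finset.mem_univ _) h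

omit [IsAlgClosed k] [Infinite k] in
private theorem vf_inv (hP : P.Ax) (t : T) (c : Fin P.N → k) :
    ∃ c' : Fin P.N → k, (P.tor t * P.v c)⁻¹ = P.tor t⁻¹ * P.v c' := by
  obtain ⟨m, hm⟩ := hP.v_inv
  refine ⟨fun i => (((P.ch (P.rt i) t)⁻¹ : kˣ) : k) * eval c (m i), ?_⟩
  rw [← tor_v hP t (fun i => eval c (m i)), ← hm, mul_inv_rev, map_inv]
  group

omit [IsAlgClosed k] [Infinite k] in
private theorem vf_zn_ge {p : ℕ} (hp : 0 < p) (n : ℕ) : n ≤ ∑ i ∈ Finset.range n, p ^ i := by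
  calc n = ∑ _i ∈ Finset.range n, 1 := by simp
    _ ≤ _ := Finset.sum_le_sum fun i _ => Nat.one_le_pow _ _ hp

theorem tensor_St_filt [Fact p.Prime] [CharP k p] [FiniteDimensional k V] (hP : P.Ax)
    (hz : P.Stz p z) (hE2 : P.Ext2) (hρ : P.RatOn ρ ⊤) :
    ∃ n₀ : ℕ, ∀ n, n₀ ≤ n → ∃ (r : ℕ) (w : ℕ → X)
      (N : ℕ → Submodule k (V ⊗[k] P.Ind (zn p z n))),
      N 0 = ⊥ ∧ N r = ⊤ ∧ (∀ j, Stable (ρ.tprod (P.indRep (zn p z n))) (N j)) ∧
      ∀ j < r, N j ≤ N (j + 1) ∧ ∃ π : N (j + 1) →ₗ[k] P.Ind (w j),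
        Function.Surjective π ∧
        (∀ y : N (j + 1), π y = 0 ↔ (y : V ⊗[k] P.Ind (zn p z n)) ∈ N j) ∧
        ∀ (g : G) (y y' : N (j + 1)),
          (y' : V ⊗[k] P.Ind (zn p z n)) = ρ.tprod (P.indRep (zn p z n)) g y →
            π y' = P.indRep (w j) g (π y) := by
  classical
  have hp : 0 < p := (Fact.out : p.Prime).pos
  have hp2 : 2 ≤ p := (Fact.out : p.Prime).two_le
  obtain ⟨r, b, w, hb, hmono⟩ := vf_basis (P := P) hρ
  have hone : ∀ j, b.coord j (b j) = 1 := fun j => by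
    rw [Module.Basis.coord_apply, Module.Basis.repr_self, Finsupp.single_eq_same]
  have hmem : ∀ j : Fin r, b j ∈ vfE b (j + 1) := fun j i hi => vf_delta b (by
    intro h
    rw [h] at hi
    omega)
  choose D hD using fun j : Fin r => VI_surj hP hz hE2 hρ (vfE b (j + 1))
    (fun t c y hy => vf_stable hP hρ b w hb hmono _ t c y hy) (hmem j) (hb j) (b.coord j) (hone j)
    (fun y hy t c => vf_lam hP hρ b w hb hmono j t c y hy)
  set m₀ : ℕ := ∑ j : Fin r, ∑ i : Fin P.N, (P.pair i (w j)).natAbs with hm₀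
  refine ⟨m₀ + ∑ j, D j, fun n hn => ?_⟩
  set M : ℕ := ∑ i ∈ Finset.range n, p ^ i with hM
  have hMn : n ≤ M := vf_zn_ge hp n
  have hzn : zn p z n = M • z := rfl
  have hDj : ∀ j : Fin r, m₀ ≤ M - D j ∧ M - D j + D j = M := by
    intro j
    have h1 : D j ≤ ∑ j, D j := Finset.single_le_sum (f := D) (fun _ _ => Nat.zero_le _)
      (Finset.mem_univ j)
    omega
  have hdom : ∀ j : Fin r, P.Dom (w j + (M - D j) • z) := by
    intro j i hi
    have h1 : (P.pair i (w j)).natAbs ≤ m₀ := by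
      refine le_trans ?_ (Finset.single_le_sum (f := fun j => ∑ i : Fin P.N,
        (P.pair i (w j)).natAbs) (fun _ _ => Nat.zero_le _) (Finset.mem_univ j))
      exact Finset.single_le_sum (f := fun i : Fin P.N => (P.pair i (w j)).natAbs)
        (fun _ _ => Nat.zero_le _) (Finset.mem_univ i)
    have h2 := (hDj j).1
    have h3 := pair_z hP hp hz hi
    rw [map_add, map_nsmul, h3, nsmul_eq_mul]
    have h4 : ((M - D j : ℕ) : ℤ) ≥ (P.pair i (w j)).natAbs := by
      exact_mod_cast h1.trans h2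
    have h5 : (1 : ℤ) ≤ (p : ℤ) - 1 := by
      have : (2 : ℤ) ≤ p := by exact_mod_cast hp2
      linarith
    have h6 : -((P.pair i (w j)).natAbs : ℤ) ≤ P.pair i (w j) := by omega
    have h7 : (0 : ℤ) ≤ ((M - D j : ℕ) : ℤ) := Int.natCast_nonneg _
    nlinarith
  obtain ⟨Ψ, hΨ1, hΨ2⟩ := exists_VI_equiv hP hρ (zn p z n)
  let N : ℕ → Submodule k (V ⊗[k] P.Ind (zn p z n)) := fun j =>
    { carrier := {y | ∀ g, (Ψ y : G → V) g ∈ vfE b j}
      add_mem' := by
        intro x y hx hy g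
        rw [map_add]
        exact add_mem (hx g) (hy g)
      zero_mem' := by
        intro g
        rw [map_zero]
        exact zero_mem _
      smul_mem' := by
        intro a x hx g
        rw [map_smul]
        exact Submodule.smul_mem _ _ (hx g) }
  have hN : ∀ j y, y ∈ N j ↔ ∀ g, (Ψ y : G → V) g ∈ vfE b j := fun j y => Iff.rfl
  refine ⟨r, fun j => if hj : j < r then w ⟨j, hj⟩ + zn p z n else 0, N, ?_, ?_, ?_, ?_⟩
  · rw [Submodule.eq_bot_iff]
    intro y hy
    have h1 : Ψ y = 0 := by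
      apply Subtype.ext
      funext g
      change (Ψ y : G → V) g = 0
      refine b.ext_elem fun i => ?_
      rw [map_zero, Finsupp.zero_apply]
      exact hy g i (Nat.zero_le _)
    exact (LinearEquiv.map_eq_zero_iff Ψ).1 h1
  · rw [Submodule.eq_top_iff']
    intro y g i hi
    exact absurd i.2 (by omega)
  · intro j h y hy g
    rw [hΨ2]
    exact hy _
  · intro j hj
    set jj : Fin r := ⟨j, hj⟩ with hjj
    have hw' : (fun j => if hj : j < r then w ⟨j, hj⟩ + zn p z n else 0) j =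
        w jj + zn p z n := dif_pos hj
    beta_reduce at hw' ⊢
    refine ⟨fun y hy g i hi => hy g i (by omega), ?_⟩
    -- the map
    have hind : ∀ y ∈ N (j + 1), (fun g => b.coord jj ((Ψ y : G → V) g)) ∈
        P.Ind (w jj + zn p z n) := by
      intro y hy
      have hF := (Ψ y).2
      refine ⟨fun g t c => ?_, fun g => ?_⟩
      · obtain ⟨c', hc'⟩ := vf_inv hP t c
        change b.coord jj ((Ψ y : G → V) (g * (P.tor t * P.v c))) = _
        rw [hF.1, map_smul, smul_eq_mul, hc',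
          vf_lam hP hρ b w hb hmono jj t⁻¹ c' _ (hy g), map_inv, hP.ch_add, mul_inv,
          Units.val_mul]
        ring
      · exact (hF.2 g).map (b.coord jj)
    let φ : N (j + 1) →ₗ[k] (G → k) :=
      { toFun := fun y g => b.coord jj ((Ψ (y : V ⊗[k] P.Ind (zn p z n)) : G → V) g)
        map_add' := by
          intro x y
          funext g
          rw [Submodule.coe_add, map_add]
          exact map_add _ _ _
        map_smul' := by
          intro a x
          funext g
          rw [Submodule.coe_smul, map_smul]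
          exact map_smul _ _ _ }
    refine ⟨LinearMap.codRestrict _ φ fun y => ?_, ?_, ?_, ?_⟩
    · rw [hw']
      exact hind y y.2
    · rintro ⟨x, hx⟩
      have hx' := hx
      rw [hw'] at hx'
      have e1 : w jj + zn p z n = w jj + (M - D jj + D jj) • z := by rw [(hDj jj).2, hzn]
      rw [e1] at hx'
      obtain ⟨F, hF, hFE, hFl⟩ := hD jj (M - D jj) (hdom jj) x hx'
      have hF' : F ∈ P.VI ρ (zn p z n) := by
        rw [hzn, ← (hDj jj).2]
        exact hF
      have hΨF : (Ψ (Ψ.symm ⟨F, hF'⟩) : G → V) = F := by rw [LinearEquiv.apply_symm_apply]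
      refine ⟨⟨Ψ.symm ⟨F, hF'⟩, ?_⟩, ?_⟩
      · intro g
        rw [hΨF]
        exact hFE g
      · apply Subtype.ext
        funext g
        change b.coord jj ((Ψ (Ψ.symm ⟨F, hF'⟩) : G → V) g) = x g
        rw [hΨF]
        exact hFl g
    · intro y
      constructor
      · intro h0 g i hi
        have h1 : b.coord jj ((Ψ (y : V ⊗[k] P.Ind (zn p z n)) : G → V) g) = 0 :=
          congrFun (congrArg Subtype.val h0) g
        by_cases hij : i = jj
        · rw [hij]
          exact h1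
        · refine y.2 g i ?_
          have h2 : (i : ℕ) ≠ j := fun h => hij (Fin.ext h)
          omega
      · intro h0
        apply Subtype.ext
        funext g
        change b.coord jj ((Ψ (y : V ⊗[k] P.Ind (zn p z n)) : G → V) g) = 0
        exact h0 g jj le_rfl
    · intro g y y' hyy
      apply Subtype.ext
      funext h
      change b.coord jj ((Ψ (y' : V ⊗[k] P.Ind (zn p z n)) : G → V) h) =
        b.coord jj ((Ψ (y : V ⊗[k] P.Ind (zn p z n)) : G → V) (g⁻¹ * h))
      rw [hyy, hΨ2]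

end PinData

end Pool.Agent.DM
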