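import Pool.Agent.DM.GTen
import Pool.Agent.DM.VFilt
import Pool.Agent.DM.StDual

/-!
# DM, module StGood: `V ⊗ End(St_n)` is good for large `n`

Take `n ≥ n₀` from `tensor_St_filt` and `l = zn p z n`.  `Ind l ≠ 0` since it contains a highest
weight vector (`gen_zn`).  `(V ⊗ Ind l) ⊗ Ind l` is good by `filt_tprod_good`
(`tprod_rat`, `indRep_rat`).  By `good_map` it suffices to give an equivariant isomorphism
`V ⊗ End(Ind l) → (V ⊗ Ind l) ⊗ Ind l` : `End(Ind l) ≅ Dual(Ind l) ⊗ Ind l` (`dualTensorHomEquiv`,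
equivariant by `Representation.dualTensorHom_comm`; `Ind_fin`), `Dual(Ind l) ≅ Ind l`
(`st_dual`), associativity.  Rationality of `V ⊗ End(Ind l)`: transport along the isomorphism.
-/

set_option autoImplicit false

namespace Pool.Agent.DM

open MvPolynomial TensorProduct

variable {k : Type*} [Field k] [IsAlgClosed k] [Infinite k] {G : Type*} [Group G]
  {T : Type*} [CommGroup T] {X : Type*} [AddCommGroup X] {P : PinData k G T X}
  {z : X} {p : ℕ} {V : Type*} [AddCommGroup V] [Module k V] {ρ : Representation k G V}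

namespace PinData

omit [IsAlgClosed k] [Infinite k] in
/-- transport of rationality along an equivariant isomorphism -/
private lemma rat_equiv {V₁ V₂ : Type*} [AddCommGroup V₁] [Module k V₁] [AddCommGroup V₂]
    [Module k V₂] {ρ₁ : Representation k G V₁} {ρ₂ : Representation k G V₂} (e : V₁ ≃ₗ[k] V₂)
    (he : ∀ g x, e (ρ₁ g x) = ρ₂ g (e x)) (h : P.RatOn ρ₁ ⊤) : P.RatOn ρ₂ ⊤ := by
  have he' : ∀ g x, ρ₂ g x = e (ρ₁ g (e.symm x)) := by
    intro g x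
    rw [he, LinearEquiv.apply_symm_apply]
  refine ⟨fun _ _ _ => Submodule.mem_top, fun x _ => ?_, fun x _ => ?_, fun x _ => ?_,
    fun x _ => ?_⟩
  · obtain ⟨F, h1, _, h3, h4⟩ := h.fin (e.symm x) Submodule.mem_top
    refine ⟨F.map e.toLinearMap, ⟨e.symm x, h1, LinearEquiv.apply_symm_apply e x⟩, le_top,
      Module.Finite.map F e.toLinearMap, ?_⟩
    rintro g _ ⟨y, hy, rfl⟩
    exact ⟨ρ₁ g y, h4 g y hy, he g y⟩
  · obtain ⟨F, y, hy, hxy⟩ := mem_iSup_wt (h.wts (Submodule.mem_top (x := e.symm x)))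
    have h1 : x = ∑ l ∈ F, e (y l) := by
      rw [← map_sum, ← hxy, LinearEquiv.apply_symm_apply]
    rw [h1]
    refine Submodule.sum_mem _ fun l hl => Submodule.mem_iSup_of_mem l fun t => ?_
    rw [← he, hy l hl t, map_smul]
  · simp only [he']
    exact (h.pu (e.symm x) Submodule.mem_top).map e.toLinearMap
  · simp only [he']
    exact (h.pv (e.symm x) Submodule.mem_top).map e.toLinearMap

private lemma good_aux {V₁ : Type*} [AddCommGroup V₁] [Module k V₁] {ρ₁ : Representation k G V₁}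
    (hP : P.Ax) (hρ : P.RatOn ρ ⊤) (h₁ : P.RatOn ρ₁ ⊤) [FiniteDimensional k V₁]
    (Φ : Module.Dual k V₁ ≃ₗ[k] V₁) (hΦ : ∀ g lam, Φ (ρ₁.dual g lam) = ρ₁ g (Φ lam))
    (hG : P.Good ((ρ.tprod ρ₁).tprod ρ₁) ⊤) : P.Good (ρ.tprod (ρ₁.linHom ρ₁)) ⊤ := by
  obtain ⟨Ψ, hΨ⟩ : ∃ Ψ : (V ⊗[k] V₁) ⊗[k] V₁ ≃ₗ[k] V ⊗[k] (V₁ →ₗ[k] V₁), ∀ x y y',
      Ψ ((x ⊗ₜ[k] y) ⊗ₜ[k] y') = x ⊗ₜ[k] dualTensorHom k V₁ V₁ (Φ.symm y ⊗ₜ[k] y') := by
    refine ⟨(TensorProduct.assoc k V V₁ V₁).trans (TensorProduct.congr (LinearEquiv.refl k V)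
      ((TensorProduct.congr Φ.symm (LinearEquiv.refl k V₁)).trans
        (dualTensorHomEquiv k V₁ V₁))), fun x y y' => ?_⟩
    rfl
  have hΨe : ∀ g x, Ψ (((ρ.tprod ρ₁).tprod ρ₁) g x) = (ρ.tprod (ρ₁.linHom ρ₁)) g (Ψ x) := by
    intro g x
    have h1 : Ψ.toLinearMap ∘ₗ ((ρ.tprod ρ₁).tprod ρ₁) g =
        (ρ.tprod (ρ₁.linHom ρ₁)) g ∘ₗ Ψ.toLinearMap := by
      apply TensorProduct.ext_threefold
      intro x y y'
      show Ψ ((ρ g x ⊗ₜ[k] ρ₁ g y) ⊗ₜ[k] ρ₁ g y') =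
        (ρ.tprod (ρ₁.linHom ρ₁)) g (Ψ ((x ⊗ₜ[k] y) ⊗ₜ[k] y'))
      rw [hΨ, hΨ, Representation.tprod_apply, TensorProduct.map_tmul]
      have h2 : Φ.symm (ρ₁ g y) = ρ₁.dual g (Φ.symm y) := by
        rw [LinearEquiv.symm_apply_eq, hΦ, LinearEquiv.apply_symm_apply]
      have h3 := LinearMap.congr_fun (Representation.dualTensorHom_comm ρ₁ ρ₁ g)
        (Φ.symm y ⊗ₜ[k] y')
      rw [LinearMap.comp_apply, LinearMap.comp_apply, TensorProduct.map_tmul] at h3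
      rw [h2, h3]
    exact LinearMap.congr_fun h1 x
  have hR : P.RatOn (ρ.tprod (ρ₁.linHom ρ₁)) ⊤ :=
    rat_equiv Ψ hΨe (tprod_rat hP (tprod_rat hP hρ h₁) h₁)
  refine good_map hP hR hG Ψ.symm.toLinearMap (fun x _ g => ?_) (fun x _ hx => ?_)
    (fun x _ => Submodule.mem_top) (fun y _ => ⟨Ψ y, Submodule.mem_top, ?_⟩)
  · show Ψ.symm ((ρ.tprod (ρ₁.linHom ρ₁)) g x) = ((ρ.tprod ρ₁).tprod ρ₁) g (Ψ.symm x)
    rw [LinearEquiv.symm_apply_eq, hΨe, LinearEquiv.apply_symm_apply]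
  · exact (LinearEquiv.map_eq_zero_iff Ψ.symm).1 hx
  · exact LinearEquiv.symm_apply_apply Ψ y

theorem st_good [Fact p.Prime] [CharP k p] [Module.Finite k V] (hP : P.Ax) (hz : P.Stz p z)
    (hE2 : P.Ext2) (hρ : P.RatOn ρ ⊤) :
    ∃ l : X, (∃ f ∈ P.Ind l, f ≠ 0) ∧
      P.Good (ρ.tprod ((P.indRep l).linHom (P.indRep l))) ⊤ := by
  obtain ⟨n, hn⟩ := tensor_St_filt hP hz hE2 hρ
  obtain ⟨r, w, N, h0, hr, hst, h⟩ := hn n le_rfl
  have hI := indRep_rat hP (zn p z n)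
  have hF : FiniteDimensional k (P.Ind (zn p z n)) := Ind_fin hP _
  have hG := filt_tprod_good hP hz (tprod_rat hP hρ hI) (zn p z n) r w N h0 hr hst h
  obtain ⟨Φ, hΦ⟩ := st_dual hP hz n
  obtain ⟨v, hv, _⟩ := gen_zn hP hz n
  refine ⟨zn p z n, ⟨v, hv.1, fun h0 => ?_⟩, good_aux hP hρ hI Φ hΦ hG⟩
  have h1 := hv.one
  rw [h0] at h1
  exact zero_ne_one h1

end PinData

end Pool.Agent.DM
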