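import Pool.Agent.DM.Curtis

/-!
# DM, module StTop: the ordered monomials applied to `f₋`; `e^top f₋ = c v`

`fm : P.Ind z` is the lowest weight vector `lreg(w₀) v`, `e i = P.eI hP z i`.
-/

set_option autoImplicit false

namespace Pool.Agent.DM

open MvPolynomial

variable {k : Type*} [Field k] [Infinite k] {G : Type*} [Group G] {T : Type*} [CommGroup T]
  {X : Type*} [AddCommGroup X] {P : PinData k G T X} {p : ℕ} {z : X} {v : G → k}

namespace PinData

/-- powers of one operator raise the weight -/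
private theorem pow_wt (hP : P.Ax) {l e : X} (x : P.Ind l)
    (hx : (x : G → k) ∈ P.wt (lreg k G G) e) (i : Fin P.N) (n : ℕ) :
    (((P.eI hP l i) ^ n) x : G → k) ∈ P.wt (lreg k G G) (e + n • P.rt i) := by
  induction n with
  | zero => simpa using hx
  | succ n ih =>
    have h1 := ep_wt hP (Ind_rat hP l) (((P.eI hP l i) ^ n) x).2 ih i
    have e1 : e + n • P.rt i + P.rt i = e + (n + 1) • P.rt i := by
      rw [succ_nsmul]
      abel
    rw [e1] at h1
    rw [pow_succ', Module.End.mul_apply]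
    exact h1

private theorem prod_wt (hP : P.Ax) {l e : X} (x : P.Ind l)
    (hx : (x : G → k) ∈ P.wt (lreg k G G) e) (A : Fin P.N → ℕ) (L : List (Fin P.N)) :
    ((L.map fun i => (P.eI hP l i) ^ A i).prod x : G → k) ∈
      P.wt (lreg k G G) (e + (L.map fun i => A i • P.rt i).sum) := by
  induction L with
  | nil => simpa using hx
  | cons i L ih =>
    simp only [List.map_cons, List.prod_cons, List.sum_cons, Module.End.mul_apply]
    have h1 := pow_wt hP _ ih i (A i)
    have e1 : e + (L.map fun i => A i • P.rt i).sum + A i • P.rt i =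
        e + (A i • P.rt i + (L.map fun i => A i • P.rt i).sum) := by abel
    rwa [e1] at h1

/-- words as operators -/
private theorem ewd_eq (hP : P.Ax) {l : X} (x : P.Ind l) (w : List (Fin P.N)) :
    P.ewd (lreg k G G) w (x : G → k) = (((w.map (P.eI hP l)).prod x : P.Ind l) : G → k) := by
  induction w with
  | nil => simp [ewd]
  | cons i w ih =>
    have h1 : P.ewd (lreg k G G) (i :: w) (x : G → k) =
        P.ep (lreg k G G) i (P.ewd (lreg k G G) w (x : G → k)) := rfl
    rw [h1, ih, List.map_cons, List.prod_cons, Module.End.mul_apply]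
    rfl

private theorem ewd_wt (hP : P.Ax) {l e : X} (x : P.Ind l)
    (hx : (x : G → k) ∈ P.wt (lreg k G G) e) (w : List (Fin P.N)) :
    P.ewd (lreg k G G) w (x : G → k) ∈ P.wt (lreg k G G) (e + (w.map P.rt).sum) := by
  induction w with
  | nil => simpa [ewd] using hx
  | cons i w ih =>
    have h1 : P.ewd (lreg k G G) (i :: w) (x : G → k) =
        P.ep (lreg k G G) i (P.ewd (lreg k G G) w (x : G → k)) := rfl
    rw [h1]
    rw [ewd_eq hP x w] at ih ⊢
    have h2 := ep_wt hP (Ind_rat hP l) (((w.map (P.eI hP l)).prod x : P.Ind l)).2 ih i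
    have e1 : e + (w.map P.rt).sum + P.rt i = e + ((i :: w).map P.rt).sum := by
      rw [List.map_cons, List.sum_cons]
      abel
    rwa [e1] at h2

private theorem h_list (hP : P.Ax) (w : List (Fin P.N)) :
    (w.length : ℤ) ≤ P.h (w.map P.rt).sum := by
  induction w with
  | nil => simp
  | cons i w ih =>
    rw [List.map_cons, List.sum_cons, map_add, List.length_cons]
    have := hP.h_pos i
    push_cast
    linarith

/-- weights of ordered monomials -/
theorem mono_wt (hP : P.Ax) {l e : X} (x : P.Ind l) (hx : (x : G → k) ∈ P.wt (lreg k G G) e)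
    (A : Fin P.N → ℕ) :
    (mono (P.eI hP l) A x : G → k) ∈ P.wt (lreg k G G) (e + ∑ i, A i • P.rt i) := by
  have h1 := prod_wt hP x hx A (List.finRange P.N)
  rw [← List.ofFn_eq_map, ← List.ofFn_eq_map, List.sum_ofFn] at h1
  exact h1

/-- `eSpan f₋` is contained in (in fact equal to) the span of the ordered monomials with exponents
`< p` applied to `f₋` (`pbw` with `tri_epL`, `ewd` as a product of the `eI`). -/
theorem eSpan_le [Fact p.Prime] [CharP k p] (hP : P.Ax) {l : X} (x : P.Ind l) {y : G → k}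
    (hy : y ∈ P.eSpan (lreg k G G) (x : G → k)) :
    ∃ a : (Fin P.N → ℕ) → k, y = ∑ A ∈ Ap P.N p, a A • (mono (P.eI hP l) A x : G → k) := by
  classical
  have hp : 0 < p := (Fact.out : p.Prime).pos
  have htri : Tri p (P.eI hP l) := tri_epL p hP (Ind_rat hP l)
  set M : Submodule k (P.Ind l) :=
    Submodule.span k ((fun A => mono (P.eI hP l) A x) '' (Ap P.N p : Set (Fin P.N → ℕ))) with hM
  have hx : x ∈ M := by
    apply Submodule.subset_span
    refine ⟨fun _ => 0, ?_, ?_⟩
    · rw [Finset.mem_coe, Ap, Fintype.mem_piFinset]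
      intro _
      exact Finset.mem_range.2 hp
    · have h1 : mono (P.eI hP l) (fun _ => 0) = 1 := by
        rw [mono]
        apply List.prod_eq_one
        intro y hy
        rw [List.mem_ofFn'] at hy
        obtain ⟨j, rfl⟩ := hy
        exact pow_zero _
      change mono (P.eI hP l) (fun _ => 0) x = x
      rw [h1, Module.End.one_apply]
  have hw : ∀ w : List (Fin P.N), (w.map (P.eI hP l)).prod x ∈ M := by
    intro w
    induction w with
    | nil => simpa using hx
    | cons i w ih =>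
      rw [List.map_cons, List.prod_cons, Module.End.mul_apply]
      exact pbw hp htri x i ih
  have hle : P.eSpan (lreg k G G) (x : G → k) ≤ M.map (P.Ind l).subtype := by
    rw [eSpan, Submodule.span_le]
    rintro _ ⟨w, rfl⟩
    refine ⟨(w.map (P.eI hP l)).prod x, hw w, ?_⟩
    exact (ewd_eq hP x w).symm
  obtain ⟨y', hy', rfl⟩ := hle hy
  rw [SetLike.mem_coe, hM, Submodule.mem_span_image_finset_iff_exists_fun] at hy'
  obtain ⟨a, rfl⟩ := hy'
  refine ⟨fun A => if h : A ∈ Ap P.N p then a ⟨A, h⟩ else 0, ?_⟩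
  rw [Submodule.subtype_apply, Submodule.coe_sum]
  rw [← Finset.sum_coe_sort (Ap P.N p)]
  refine Finset.sum_congr rfl fun A _ => ?_
  beta_reduce
  rw [dif_pos A.2]
  rfl

/-- `v ∈ eSpan f₋` by `curtis` (`v = lreg(w₀⁻¹) f₋`), so `v = ∑ a_A e^A f₋` (`eSpan_le`); `v` has
weight `z` and `e^A f₋` has weight `-z + ∑ A_i rt_i` (`fm_wt`, `mono_wt`), so by `wt_indep` (group the
`A` by weights) `v` is the sum over the `A` with `∑ A_i rt_i = 2z = (p-1) ∑ rt_i` (`hz.two`); applying
`h` (`h_pos`, `A_i ≤ p-1`) only `A = (p-1, …, p-1)` remains. -/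
theorem mono_top [Fact p.Prime] [CharP k p] (hP : P.Ax) (hz : P.Stz p z) (hv : P.IsV z v)
    (fm : P.Ind z) (hfm : (fm : G → k) = lreg k G G P.w0 v) :
    ∃ c : k, c ≠ 0 ∧ (mono (P.eI hP z) (fun _ => p - 1) fm : G → k) = c • v := by
  classical
  have hmem : (fm : G → k) ∈ P.eSpan (lreg k G G) (lreg k G G P.w0 v) := by
    rw [← hfm]
    exact Submodule.subset_span ⟨[], rfl⟩
  have hv1 : v ∈ P.eSpan (lreg k G G) (fm : G → k) := by
    have h1 := curtis hP hz hv P.w0⁻¹ _ hmem
    rw [hfm, ← Module.End.mul_apply, ← map_mul, inv_mul_cancel, map_one,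
      Module.End.one_apply] at h1
    rw [hfm]
    exact h1
  obtain ⟨a, ha⟩ := eSpan_le hP fm hv1
  have hfw : (fm : G → k) ∈ P.wt (lreg k G G) (-z) := by
    rw [hfm]
    exact fm_wt hP hz hv
  obtain ⟨wA, hwA⟩ : ∃ wA : (Fin P.N → ℕ) → X, ∀ A, wA A = -z + ∑ i, A i • P.rt i :=
    ⟨fun A => -z + ∑ i, A i • P.rt i, fun _ => rfl⟩
  have hmw : ∀ A, (mono (P.eI hP z) A fm : G → k) ∈ P.wt (lreg k G G) (wA A) := fun A => by
    rw [hwA]
    exact mono_wt hP fm hfw A
  -- the components
  set F : Finset X := insert z ((Ap P.N p).image wA) with hF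
  set y : X → G → k := fun e => (∑ A ∈ (Ap P.N p).filter (fun A => wA A = e),
    a A • (mono (P.eI hP z) A fm : G → k)) - (if e = z then v else 0) with hy
  have hyw : ∀ e ∈ F, y e ∈ P.wt (lreg k G G) e := by
    intro e _
    refine sub_mem (Submodule.sum_mem _ fun A hA => Submodule.smul_mem _ _ ?_) ?_
    · rw [← (Finset.mem_filter.1 hA).2]
      exact hmw A
    · split_ifs with h1
      · rw [h1]
        exact hv.wt hP
      · exact zero_mem _
  have hsum : ∑ e ∈ F, y e = 0 := by
    simp only [hy]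
    rw [Finset.sum_sub_distrib]
    have h1 : ∑ e ∈ F, (if e = z then v else 0) = v := by
      rw [Finset.sum_ite_eq' F z (fun _ => v), if_pos (Finset.mem_insert_self _ _)]
    have h2 : ∑ e ∈ F, ∑ A ∈ (Ap P.N p).filter (fun A => wA A = e),
        a A • (mono (P.eI hP z) A fm : G → k) = ∑ A ∈ Ap P.N p,
        a A • (mono (P.eI hP z) A fm : G → k) := by
      apply Finset.sum_fiberwise_of_maps_to
      intro A hA
      exact Finset.mem_insert_of_mem (Finset.mem_image_of_mem _ hA)
    rw [h1, h2, ← ha, sub_self]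
  have hz0 := wt_indep hP hyw hsum z (Finset.mem_insert_self _ _)
  simp only [hy, if_true] at hz0
  have hfilt : (Ap P.N p).filter (fun A => wA A = z) ⊆ {fun _ => p - 1} := by
    intro A hA
    rw [Finset.mem_filter, Ap, Fintype.mem_piFinset] at hA
    obtain ⟨hA1, hA2⟩ := hA
    rw [Finset.mem_singleton]
    rw [hwA] at hA2
    have h3 : ∑ i, A i • P.rt i = (p - 1) • P.rho2 := by
      rw [← hz.two, two_nsmul]
      exact (neg_add_eq_iff_eq_add.1 hA2)
    have h4 : ∑ i, (A i : ℤ) * P.h (P.rt i) = ∑ i, ((p - 1 : ℕ) : ℤ) * P.h (P.rt i) := by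
      have h5 := congrArg P.h h3
      rw [rho2, Finset.smul_sum, map_sum, map_sum] at h5
      simpa using h5
    funext i
    by_contra hne
    have hle : ∀ j, (A j : ℤ) * P.h (P.rt j) ≤ ((p - 1 : ℕ) : ℤ) * P.h (P.rt j) := by
      intro j
      apply mul_le_mul_of_nonneg_right _ (hP.h_pos j).le
      have := Finset.mem_range.1 (hA1 j)
      exact_mod_cast (by omega : A j ≤ p - 1)
    have hlt : (A i : ℤ) * P.h (P.rt i) < ((p - 1 : ℕ) : ℤ) * P.h (P.rt i) := by
      apply mul_lt_mul_of_pos_right _ (hP.h_pos i)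
      have := Finset.mem_range.1 (hA1 i)
      exact_mod_cast (by omega : A i < p - 1)
    have h6 := Finset.sum_lt_sum (s := Finset.univ) (fun j _ => hle j) ⟨i, Finset.mem_univ _, hlt⟩
    rw [h4] at h6
    exact lt_irrefl _ h6
  have hv0 : v ≠ 0 := by
    intro h0
    have h1 := hv.one
    rw [h0] at h1
    exact zero_ne_one h1
  rcases Finset.subset_singleton_iff.1 hfilt with h1 | h1
  · rw [h1, Finset.sum_empty, zero_sub, neg_eq_zero] at hz0
    exact absurd hz0 hv0
  · rw [h1, Finset.sum_singleton, sub_eq_zero] at hz0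
    have ha0 : a (fun _ => p - 1) ≠ 0 := by
      intro h0
      rw [h0, zero_smul] at hz0
      exact hv0 hz0.symm
    refine ⟨(a fun _ => p - 1)⁻¹, inv_ne_zero ha0, ?_⟩
    rw [← hz0, smul_smul, inv_mul_cancel₀ ha0, one_smul]

/-- Words of large length kill `Ind l`: heights of weights are between `-h l` and `h l`
(`Ind_wt_ge`, `Ind_wt_h`, `Ind_wts`), each `ep` raises the height by at least one. -/
theorem ewd_eq_zero (hP : P.Ax) (l : X) : ∃ n : ℕ, ∀ w : List (Fin P.N), n ≤ w.length →
    ∀ f ∈ P.Ind l, P.ewd (lreg k G G) w f = 0 := by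
  classical
  refine ⟨(2 * P.h l).toNat + 1, fun w hw f hf => ?_⟩
  have key : ∀ (e : X) (y : G → k), y ∈ P.wt (lreg k G G) e → y ∈ P.Ind l →
      P.ewd (lreg k G G) w y = 0 := by
    intro e y hy hyI
    by_contra hne
    have hy0 : y ≠ 0 := by
      rintro rfl
      apply hne
      have h1 := ewd_eq hP (⟨0, hyI⟩ : P.Ind l) w
      have h2 : (⟨0, hyI⟩ : P.Ind l) = 0 := rfl
      rw [h2, map_zero] at h1
      exact h1
    have h1 := Ind_wt_ge hP hyI hy hy0
    have h2 := ewd_wt hP ⟨y, hyI⟩ hy w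
    have h3 : P.ewd (lreg k G G) w y ∈ P.Ind l := by
      have h4 := ewd_eq hP (⟨y, hyI⟩ : P.Ind l) w
      change P.ewd (lreg k G G) w y = _ at h4
      rw [h4]
      exact Subtype.property _
    have h5 : P.h (e + (w.map P.rt).sum) ≤ P.h l := by
      by_cases h6 : e + (w.map P.rt).sum = l
      · rw [h6]
      · exact (Ind_wt_h hP h3 h2 hne h6).le
    rw [map_add] at h5
    have h7 := h_list hP w
    have h8 := Int.self_le_toNat (2 * P.h l)
    have h9 : (((2 * P.h l).toNat + 1 : ℕ) : ℤ) ≤ (w.length : ℤ) := by exact_mod_cast hw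
    push_cast at h9
    linarith
  obtain ⟨F, y, hy, rfl⟩ := Ind_wts hP l hf
  have hlin : ∀ F' ⊆ F, ∀ hm : (∑ e ∈ F', y e) ∈ P.Ind l,
      P.ewd (lreg k G G) w (∑ e ∈ F', y e) = 0 := by
    intro F'
    induction F' using Finset.induction_on with
    | empty =>
      intro _ hm
      have h1 := ewd_eq hP (⟨∑ e ∈ (∅ : Finset X), y e, hm⟩ : P.Ind l) w
      have h2 : (⟨∑ e ∈ (∅ : Finset X), y e, hm⟩ : P.Ind l) = 0 := by
        apply Subtype.ext
        change ∑ e ∈ (∅ : Finset X), y e = 0
        rw [Finset.sum_empty]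
      rw [h2, map_zero] at h1
      rw [Finset.sum_empty]
      exact h1
    | insert e F' he ih =>
      intro hsub hm
      have hsub' : F' ⊆ F := fun a ha => hsub (Finset.mem_insert_of_mem ha)
      have he' := hy e (hsub (Finset.mem_insert_self _ _))
      have hm' : (∑ e ∈ F', y e) ∈ P.Ind l := Submodule.sum_mem _ fun a ha => (hy a (hsub' ha)).2
      have h1 := ewd_eq hP ((⟨y e, he'.2⟩ : P.Ind l) + ⟨∑ e ∈ F', y e, hm'⟩) w
      rw [map_add, Submodule.coe_add, Submodule.coe_add, ← ewd_eq, ← ewd_eq] at h1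
      rw [Finset.sum_insert he]
      change P.ewd (lreg k G G) w (y e + ∑ e ∈ F', y e) = _ at h1
      rw [h1]
      change P.ewd (lreg k G G) w (y e) + P.ewd (lreg k G G) w (∑ e ∈ F', y e) = 0
      rw [key e _ he'.1 he'.2, ih hsub' hm', add_zero]
  exact hlin F (Finset.Subset.refl _) hf

end PinData

end Pool.Agent.DM
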