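import Pool.Agent.DM.StDef
import Pool.Agent.DM.StTop
import Pool.Agent.DM.Box

/-!
# DM, module Ten: subspaces of `St ⊗ W` stable under the operators of the Steinberg factor

`W` is a rational module of functions on `Y` killed by all operators `ep i`, `em i` (a Frobenius
twist); so by `dv_box` `ep i (box s w) = box (ep i s) w` for `s ∈ Ind z`, `w ∈ W`.

`st_lin`: `∑ a_A s_A = 0`, `a_A = b_A^p`; restrict to `U`, `hst.indep`.

`ten_top`: write `φ = ∑_A box s_A w_A`, `w_A ∈ W`, and `ep_i s_A = ∑_B E^i_(A,B) s_B`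
(`hst.span`).  Then `ep_i φ = ∑_B box s_B (∑_A E^i_(A,B) w_A) ∈ bx St W₀`, so
`∑_A E^i_(A,B) w_A ∈ W₀` (`box_sum_mem`, `st_lin`).  For a functional `λ` on `Y → k` vanishing on
`W₀` the element `x = ∑ λ(w_A) s_A` of `St` is killed by all `ep_i`, so `x = a v`
(`hst.top`).  With `v = ∑ v_A s_A`, `v_(A₀) ≠ 0` and `w = w_(A₀)/v_(A₀)`:
`λ(w_A) = a v_A`, so `λ(w_A - v_A w) = 0` for all such `λ`, i.e. `w_A - v_A w ∈ W₀`.  So
`φ - box v w = ∑ box s_A (w_A - v_A w) ∈ bx St W₀`.

`ten_stable`: let `W' = sl (Ind z) W Q`.  Suppose `φ ∈ Q`, `φ ∉ bx St W'`.  Long words in the `ep_i`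
kill `St`, hence `bx St W` (`ewd_eq_zero`), and `bx St W'` is stable under the `ep_i`, so there is a
word `w` of maximal length with `φ' = ewd w φ ∉ bx St W'`; `φ' ∈ Q` and all
`ep_i φ' ∈ bx St W'`.  By `ten_top` there is `w₀ ∈ W` with `φ' - box v w₀ ∈ bx St W' ⊆ Q`.  So
`box v w₀ ∈ Q`.  The set of `s' ∈ Ind z` with `box s' w₀ ∈ Q` contains `v` and is stable under the
`em_i` (`em_i (box s' w₀) = box (em_i s') w₀`), so it is `Ind z` (`hst.gen`) and `w₀ ∈ W'`.
Then `φ' ∈ bx St W'`, a contradiction.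
-/

set_option autoImplicit false

namespace Pool.Agent.DM

open MvPolynomial

/-- the elements `w` of `W` with `St ⊗ w ⊆ Q` -/
def sl {k : Type*} [Field k] {Y Y' : Type*} (S : Submodule k (Y → k)) (W : Submodule k (Y' → k))
    (Q : Submodule k (Y × Y' → k)) : Submodule k (Y' → k) where
  carrier := {w | w ∈ W ∧ ∀ s ∈ S, (fun y : Y × Y' => s y.1 * w y.2) ∈ Q}
  add_mem' := by
    rintro w w' ⟨h1, h2⟩ ⟨h1', h2'⟩
    refine ⟨add_mem h1 h1', fun s hs => ?_⟩
    have h3 := add_mem (h2 s hs) (h2' s hs)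
    have h4 : ((fun y : Y × Y' => s y.1 * w y.2) + fun y : Y × Y' => s y.1 * w' y.2) =
        fun y : Y × Y' => s y.1 * (w + w') y.2 := by
      funext y
      change s y.1 * w y.2 + s y.1 * w' y.2 = s y.1 * (w y.2 + w' y.2)
      ring
    rwa [h4] at h3
  zero_mem' := by
    refine ⟨zero_mem _, fun s _ => ?_⟩
    have h4 : (fun y : Y × Y' => s y.1 * (0 : Y' → k) y.2) = 0 := by
      funext y
      change s y.1 * 0 = 0
      ring
    rw [h4]
    exact zero_mem _
  smul_mem' := by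
    rintro a w ⟨h1, h2⟩
    refine ⟨Submodule.smul_mem _ _ h1, fun s hs => ?_⟩
    have h3 := Submodule.smul_mem _ a (h2 s hs)
    have h4 : (a • fun y : Y × Y' => s y.1 * w y.2) = fun y : Y × Y' => s y.1 * (a • w) y.2 := by
      funext y
      change a * (s y.1 * w y.2) = s y.1 * (a * w y.2)
      ring
    rwa [h4] at h3

variable {k : Type*} [Field k] [IsAlgClosed k] [Infinite k] {G : Type*} [Group G]
  {T : Type*} [CommGroup T] {X : Type*} [AddCommGroup X] {P : PinData k G T X} {p : ℕ} {z : X}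
  {v : G → k} {s : (Fin P.N → ℕ) → G → k}
  {q : (Fin P.N → ℕ) → MvPolynomial (Fin P.N) k} {Y : Type*} [MulAction G Y]

namespace PinData

theorem st_lin [Fact p.Prime] [CharP k p] (hst : P.IsSt p z v s q) {a : (Fin P.N → ℕ) → k}
    (h : ∑ A ∈ Ap P.N p, a A • s A = 0) : ∀ A ∈ Ap P.N p, a A = 0 := by
  have hp : p ≠ 0 := (Fact.out : p.Prime).ne_zero
  have hb : ∀ A, ∃ b : k, b ^ p = a A := fun A =>
    IsAlgClosed.exists_pow_nat_eq (a A) (Fact.out : p.Prime).pos
  choose b hb using hb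
  have h1 : ∑ A ∈ Ap P.N p, (C (b A) : MvPolynomial (Fin P.N) k) ^ p * q A = 0 := by
    apply MvPolynomial.funext
    intro c
    rw [map_sum, map_zero]
    have h2 := congrFun h (P.u c)
    rw [Finset.sum_apply, Pi.zero_apply] at h2
    rw [← h2]
    refine Finset.sum_congr rfl fun A hA => ?_
    rw [map_mul, map_pow, eval_C, hb, Pi.smul_apply, smul_eq_mul, hst.eval A hA c]
  intro A hA
  have h3 := hst.indep _ h1 A hA
  rw [C_eq_zero] at h3
  rw [← hb A, h3, zero_pow hp]

/-- a functional separating a vector from a subspace -/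
private theorem ten_sep {M : Type*} [AddCommGroup M] [Module k M] {K : Submodule k M} {x : M}
    (h : ∀ lam : M →ₗ[k] k, (∀ y ∈ K, lam y = 0) → lam x = 0) : x ∈ K := by
  by_contra hx
  obtain ⟨f, hf1, hf2⟩ := Submodule.exists_le_ker_of_notMem hx
  exact hf1 (h f fun y hy => LinearMap.mem_ker.1 (hf2 hy))

omit [IsAlgClosed k] [Infinite k] in
private theorem ten_fin (hst : P.IsSt p z v s q) : FiniteDimensional k (P.Ind z) := by
  classical
  have h1 : P.Ind z = Submodule.span k (Set.range fun A : {A // A ∈ Ap P.N p} => s A.1) := by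
    apply le_antisymm
    · intro f hf
      obtain ⟨a, rfl⟩ := hst.span f hf
      refine Submodule.sum_mem _ fun A hA => Submodule.smul_mem _ _ ?_
      exact Submodule.subset_span ⟨⟨A, hA⟩, rfl⟩
    · rw [Submodule.span_le]
      rintro _ ⟨A, rfl⟩
      exact hst.mem A.1 A.2
  rw [h1]
  exact FiniteDimensional.span_of_finite k (Set.finite_range _)

omit [IsAlgClosed k] in
/-- linearity of the operators on sums of box products -/
private theorem ten_ep (hP : P.Ax) {W : Submodule k (Y → k)} (hW : P.RatOn (lreg k G Y) W)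
    (hWe : ∀ w ∈ W, ∀ i, P.ep (lreg k G Y) i w = 0) (i : Fin P.N) {f : G → k}
    (hf : f ∈ P.Ind z) {w : Y → k} (hw : w ∈ W) :
    P.ep (lreg k G (G × Y)) i (box f w) = box (P.ep (lreg k G G) i f) w := by
  unfold ep
  rw [dv_box (xp_zero i) ((Ind_rat hP z).pol_xp hf i) (hW.pol_xp hw i)]
  have h1 := hWe w hw i
  unfold ep at h1
  rw [h1]
  have h2 : box f (0 : Y → k) = 0 := by
    funext y
    simp [box]
  rw [h2, add_zero]

omit [IsAlgClosed k] in
private theorem ten_em (hP : P.Ax) {W : Submodule k (Y → k)} (hW : P.RatOn (lreg k G Y) W)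
    (hWm : ∀ w ∈ W, ∀ i, P.em (lreg k G Y) i w = 0) (i : Fin P.N) {f : G → k}
    (hf : f ∈ P.Ind z) {w : Y → k} (hw : w ∈ W) :
    P.em (lreg k G (G × Y)) i (box f w) = box (P.em (lreg k G G) i f) w := by
  unfold em
  rw [dv_box (xm_zero i) ((Ind_rat hP z).pol_xm hf i) (hW.pol_xm hw i)]
  have h1 := hWm w hw i
  unfold em at h1
  rw [h1]
  have h2 : box f (0 : Y → k) = 0 := by
    funext y
    simp [box]
  rw [h2, add_zero]

omit [IsAlgClosed k] in
private theorem ten_ep_sum (hP : P.Ax) {W : Submodule k (Y → k)} (hW : P.RatOn (lreg k G Y) W)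
    (hWe : ∀ w ∈ W, ∀ i, P.ep (lreg k G Y) i w = 0) (i : Fin P.N) {n : ℕ}
    (f : Fin n → G → k) (hf : ∀ j, f j ∈ P.Ind z) (w : Fin n → Y → k) (hw : ∀ j, w j ∈ W) :
    P.ep (lreg k G (G × Y)) i (∑ j, box (f j) (w j)) =
      ∑ j, box (P.ep (lreg k G G) i (f j)) (w j) := by
  have hR := bx_rat hP (Ind_rat hP z) hW
  have h1 := congrArg Subtype.val (map_sum (hR.epL i)
    (fun j => (⟨box (f j) (w j), box_mem (hf j) (hw j)⟩ : bx (P.Ind z) W)) Finset.univ)
  have e1 : ((∑ j, (⟨box (f j) (w j), box_mem (hf j) (hw j)⟩ : bx (P.Ind z) W) :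
      bx (P.Ind z) W) : G × Y → k) = ∑ j, box (f j) (w j) := by
    rw [Submodule.coe_sum]
  have e2 : ((hR.epL i (∑ j, (⟨box (f j) (w j), box_mem (hf j) (hw j)⟩ : bx (P.Ind z) W)) :
      bx (P.Ind z) W) : G × Y → k) = P.ep (lreg k G (G × Y)) i (∑ j, box (f j) (w j)) := by
    rw [← e1]
    rfl
  rw [← e2, h1, Submodule.coe_sum]
  refine Finset.sum_congr rfl fun j _ => ?_
  exact ten_ep hP hW hWe i (hf j) (hw j)

omit [IsAlgClosed k] in
private theorem ten_ewd (hP : P.Ax) {W : Submodule k (Y → k)} (hW : P.RatOn (lreg k G Y) W)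
    (hWe : ∀ w ∈ W, ∀ i, P.ep (lreg k G Y) i w = 0) {n : ℕ}
    (f : Fin n → G → k) (hf : ∀ j, f j ∈ P.Ind z) (w : Fin n → Y → k) (hw : ∀ j, w j ∈ W)
    (l : List (Fin P.N)) : (∀ j, P.ewd (lreg k G G) l (f j) ∈ P.Ind z) ∧
      P.ewd (lreg k G (G × Y)) l (∑ j, box (f j) (w j)) =
      ∑ j, box (P.ewd (lreg k G G) l (f j)) (w j) := by
  induction l with
  | nil => exact ⟨hf, rfl⟩
  | cons i l ih =>
    refine ⟨fun j => (Ind_rat hP z).ep_mem (ih.1 j) i, ?_⟩
    have h1 : P.ewd (lreg k G (G × Y)) (i :: l) (∑ j, box (f j) (w j)) =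
        P.ep (lreg k G (G × Y)) i (P.ewd (lreg k G (G × Y)) l (∑ j, box (f j) (w j))) := rfl
    rw [h1, ih.2, ten_ep_sum hP hW hWe i _ ih.1 w hw]
    rfl

omit [IsAlgClosed k] [Infinite k] [MulAction G Y] in
/-- expansion in a basis of the left factor -/
private theorem ten_expand {S : Submodule k (G → k)} {n : ℕ} (e : Module.Basis (Fin n) k S)
    {W : Submodule k (Y → k)} {φ : G × Y → k} (hφ : φ ∈ bx S W) :
    ∃ w : Fin n → Y → k, (∀ j, w j ∈ W) ∧ φ = ∑ j, box (e j : G → k) (w j) := by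
  have hrep : ∀ f : S, (f : G → k) = ∑ j, e.repr f j • (e j : G → k) := by
    intro f
    have h2 := congrArg (fun x : S => (x : G → k)) (e.sum_repr f)
    simp only [Submodule.coe_sum, Submodule.coe_smul] at h2
    exact h2.symm
  unfold bx at hφ
  induction hφ using Submodule.span_induction with
  | mem g hg =>
    obtain ⟨f, hf, f', hf', rfl⟩ := hg
    refine ⟨fun j => e.repr ⟨f, hf⟩ j • f', fun j => W.smul_mem _ hf', ?_⟩
    funext y
    have h3 := congrFun (hrep ⟨f, hf⟩) y.1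
    simp only [Finset.sum_apply, Pi.smul_apply, smul_eq_mul] at h3
    simp only [Finset.sum_apply, box, Pi.smul_apply, smul_eq_mul]
    rw [h3, Finset.sum_mul]
    exact Finset.sum_congr rfl fun j _ => by ring
  | zero =>
    refine ⟨fun _ => 0, fun _ => zero_mem _, ?_⟩
    funext y
    simp [box]
  | add g g' _ _ ih ih' =>
    obtain ⟨w, hw, rfl⟩ := ih
    obtain ⟨w', hw', rfl⟩ := ih'
    refine ⟨fun j => w j + w' j, fun j => add_mem (hw j) (hw' j), ?_⟩
    funext y
    simp only [Pi.add_apply, Finset.sum_apply, box, mul_add, Finset.sum_add_distrib]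
  | smul c g _ ih =>
    obtain ⟨w, hw, rfl⟩ := ih
    refine ⟨fun j => c • w j, fun j => W.smul_mem _ (hw j), ?_⟩
    funext y
    simp only [Pi.smul_apply, Finset.sum_apply, box, smul_eq_mul, Finset.mul_sum]
    exact Finset.sum_congr rfl fun j _ => by ring

theorem ten_top [Fact p.Prime] [CharP k p] (hP : P.Ax) (hst : P.IsSt p z v s q)
    {W W₀ : Submodule k (Y → k)} (hW : P.RatOn (lreg k G Y) W)
    (hWe : ∀ w ∈ W, ∀ i, P.ep (lreg k G Y) i w = 0) (h0 : W₀ ≤ W) {φ : G × Y → k}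
    (hφ : φ ∈ bx (P.Ind z) W)
    (h : ∀ i, P.ep (lreg k G (G × Y)) i φ ∈ bx (P.Ind z) W₀) :
    ∃ w ∈ W, φ - box v w ∈ bx (P.Ind z) W₀ := by
  have hfd : FiniteDimensional k (P.Ind z) := ten_fin hst
  obtain ⟨n, ⟨e⟩⟩ : ∃ n, Nonempty (Module.Basis (Fin n) k (P.Ind z)) :=
    ⟨_, ⟨Module.finBasis k (P.Ind z)⟩⟩
  have hrep : ∀ f : P.Ind z, (f : G → k) = ∑ j, e.repr f j • (e j : G → k) := by
    intro f
    have h2 := congrArg (fun x : P.Ind z => (x : G → k)) (e.sum_repr f)
    simp only [Submodule.coe_sum, Submodule.coe_smul] at h2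
    exact h2.symm
  have hli : LinearIndependent k (fun j => (e j : G → k)) :=
    e.linearIndependent.map' (P.Ind z).subtype (Submodule.ker_subtype _)
  obtain ⟨w, hw, rfl⟩ := ten_expand e hφ
  have hR := Ind_rat hP z
  -- the matrices of the operators
  obtain ⟨E, hE⟩ : ∃ E : Fin P.N → Fin n → Fin n → k, ∀ i j l,
      E i j l = e.repr ⟨P.ep (lreg k G G) i (e j), hR.ep_mem (e j).2 i⟩ l := ⟨_, fun _ _ _ => rfl⟩
  have hEs : ∀ i j, P.ep (lreg k G G) i (e j) = ∑ l, E i j l • (e l : G → k) := by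
    intro i j
    have h1 := hrep ⟨P.ep (lreg k G G) i (e j), hR.ep_mem (e j).2 i⟩
    rw [← funext (hE i j)] at h1
    exact h1
  have hmem : ∀ i l, ∑ j, E i j l • w j ∈ W₀ := by
    intro i
    have h1 := h i
    rw [ten_ep_sum hP hW hWe i _ (fun j => (e j).2) w hw] at h1
    have h2 : ∑ j, box (P.ep (lreg k G G) i (e j)) (w j) =
        ∑ l, box (e l : G → k) (∑ j, E i j l • w j) := by
      simp only [hEs]
      funext y
      simp only [Finset.sum_apply, box, Pi.smul_apply, smul_eq_mul, Finset.sum_mul,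
        Finset.mul_sum]
      rw [Finset.sum_comm]
      exact Finset.sum_congr rfl fun l _ => Finset.sum_congr rfl fun j _ => by ring
    rw [h2] at h1
    exact fun l => box_sum_mem hli h1 l
  -- the coordinates of `v`
  obtain ⟨hv1, hv2⟩ := hst.isV
  obtain ⟨vc, hvc⟩ : ∃ vc : Fin n → k, v = ∑ j, vc j • (e j : G → k) :=
    ⟨fun j => e.repr ⟨v, hv1⟩ j, hrep ⟨v, hv1⟩⟩
  have hv0 : ∃ j₀, vc j₀ ≠ 0 := by
    by_contra hcon
    push Not at hcon
    have h1 := hv2 0
    rw [hvc, Finset.sum_apply] at h1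
    simp [hcon] at h1
  obtain ⟨j₀, hj₀⟩ := hv0
  have key : ∀ j, w j - vc j • ((vc j₀)⁻¹ • w j₀) ∈ W₀ := by
    intro j
    refine ten_sep fun lam hlam => ?_
    have hx : ∃ a : k, (∑ j, lam (w j) • (e j : G → k)) = a • v := by
      refine hst.top _ (Submodule.sum_mem _ fun j _ => Submodule.smul_mem _ _ (e j).2) fun i => ?_
      have h1 : P.ep (lreg k G G) i (∑ j, lam (w j) • (e j : G → k)) =
          ∑ j, lam (w j) • P.ep (lreg k G G) i (e j) := by
        have h2 := congrArg Subtype.val (map_sum (hR.epL i)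
          (fun j => lam (w j) • e j) Finset.univ)
        have e1 : ((∑ j, lam (w j) • e j : P.Ind z) : G → k) =
            ∑ j, lam (w j) • (e j : G → k) := by
          simp only [Submodule.coe_sum, Submodule.coe_smul]
        have e2 : ((hR.epL i (∑ j, lam (w j) • e j) : P.Ind z) : G → k) =
            P.ep (lreg k G G) i (∑ j, lam (w j) • (e j : G → k)) := by
          rw [← e1]
          rfl
        rw [← e2, h2, Submodule.coe_sum]
        refine Finset.sum_congr rfl fun j _ => ?_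
        rw [map_smul, Submodule.coe_smul]
        rfl
      rw [h1]
      have h3 : ∑ j, lam (w j) • P.ep (lreg k G G) i (e j) =
          ∑ l, lam (∑ j, E i j l • w j) • (e l : G → k) := by
        simp only [hEs, map_sum, map_smul, Finset.smul_sum, Finset.sum_smul, smul_eq_mul,
          smul_smul]
        rw [Finset.sum_comm]
        exact Finset.sum_congr rfl fun l _ => Finset.sum_congr rfl fun j _ => by rw [mul_comm]
      rw [h3]
      refine Finset.sum_eq_zero fun l _ => ?_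
      rw [hlam _ (hmem i l), zero_smul]
    obtain ⟨a, ha⟩ := hx
    have hc : ∀ j, lam (w j) = a * vc j := by
      intro j
      have h1 : ∑ j, (lam (w j) - a * vc j) • (e j : G → k) = 0 := by
        simp only [sub_smul, Finset.sum_sub_distrib]
        rw [ha, hvc, Finset.smul_sum, sub_eq_zero]
        exact Finset.sum_congr rfl fun j _ => by rw [smul_smul]
      exact sub_eq_zero.1 (Fintype.linearIndependent_iff.1 hli _ h1 j)
    rw [map_sub, map_smul, map_smul, hc, hc, smul_eq_mul, smul_eq_mul]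
    field_simp
    ring
  refine ⟨(vc j₀)⁻¹ • w j₀, W.smul_mem _ (hw j₀), ?_⟩
  have hfin : (∑ j, box (e j : G → k) (w j)) - box v ((vc j₀)⁻¹ • w j₀) =
      ∑ j, box (e j : G → k) (w j - vc j • ((vc j₀)⁻¹ • w j₀)) := by
    funext y
    have h3 := congrFun hvc y.1
    simp only [Finset.sum_apply, Pi.smul_apply, smul_eq_mul] at h3
    simp only [Pi.sub_apply, Finset.sum_apply, box, Pi.smul_apply, smul_eq_mul]
    rw [h3, Finset.sum_mul, ← Finset.sum_sub_distrib]
    exact Finset.sum_congr rfl fun j _ => by ring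
  rw [hfin]
  exact Submodule.sum_mem _ fun j _ => box_mem (e j).2 (key j)

theorem ten_stable [Fact p.Prime] [CharP k p] (hP : P.Ax) (hst : P.IsSt p z v s q)
    {W : Submodule k (Y → k)} (hW : P.RatOn (lreg k G Y) W)
    (hWe : ∀ w ∈ W, ∀ i, P.ep (lreg k G Y) i w = 0)
    (hWm : ∀ w ∈ W, ∀ i, P.em (lreg k G Y) i w = 0) {Q : Submodule k (G × Y → k)}
    (hQ : Q ≤ bx (P.Ind z) W)
    (hQe : ∀ φ ∈ Q, ∀ i, P.ep (lreg k G (G × Y)) i φ ∈ Q)
    (hQm : ∀ φ ∈ Q, ∀ i, P.em (lreg k G (G × Y)) i φ ∈ Q) :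
    Q ≤ bx (P.Ind z) (sl (P.Ind z) W Q) := by
  classical
  obtain ⟨W', hW'⟩ : ∃ W', W' = sl (P.Ind z) W Q := ⟨_, rfl⟩
  rw [← hW']
  have hW'W : W' ≤ W := by
    rw [hW']
    exact fun w hw => hw.1
  have hW'Q : bx (P.Ind z) W' ≤ Q := by
    refine bx_induct _ fun f hf w hw => ?_
    rw [hW'] at hw
    exact hw.2 f hf
  intro φ hφQ
  by_contra hφ
  have hfd : FiniteDimensional k (P.Ind z) := ten_fin hst
  obtain ⟨n, ⟨e⟩⟩ : ∃ n, Nonempty (Module.Basis (Fin n) k (P.Ind z)) :=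
    ⟨_, ⟨Module.finBasis k (P.Ind z)⟩⟩
  obtain ⟨w, hw, hφe⟩ := ten_expand e (hQ hφQ)
  obtain ⟨m, hm⟩ := ewd_eq_zero hP z
  have hzero : ∀ l : List (Fin P.N), m ≤ l.length → P.ewd (lreg k G (G × Y)) l φ = 0 := by
    intro l hl
    rw [hφe, (ten_ewd hP hW hWe _ (fun j => (e j).2) w hw l).2]
    refine Finset.sum_eq_zero fun j _ => ?_
    rw [hm l hl _ (e j).2]
    funext y
    simp [box]
  -- a word of maximal length
  let p' : ℕ → Prop := fun N => ∃ l : List (Fin P.N), l.length = N ∧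
    P.ewd (lreg k G (G × Y)) l φ ∉ bx (P.Ind z) W'
  have hp0 : ∃ N, p' N := ⟨0, [], rfl, hφ⟩
  have hpb : ∀ N, p' N → N ≤ m := by
    rintro N ⟨l, hl, hl2⟩
    by_contra hcon
    apply hl2
    rw [hzero l (by omega)]
    exact zero_mem _
  obtain ⟨N, hN1, hN2⟩ : ∃ N, p' N ∧ ∀ M, p' M → M ≤ N := by
    refine ⟨Nat.findGreatest p' m, ?_, fun M hM => Nat.le_findGreatest (hpb M hM) hM⟩
    exact Nat.findGreatest_spec (P := p') (Nat.zero_le m) ⟨[], rfl, hφ⟩
  obtain ⟨l, hl1, hl2⟩ := hN1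
  obtain ⟨φ', hφ'⟩ : ∃ φ', φ' = P.ewd (lreg k G (G × Y)) l φ := ⟨_, rfl⟩
  rw [← hφ'] at hl2
  have hφ'Q : φ' ∈ Q := by
    rw [hφ']
    clear hφ' hl1 hl2
    induction l with
    | nil => exact hφQ
    | cons i l ih => exact hQe _ ih i
  have hφ'e : ∀ i, P.ep (lreg k G (G × Y)) i φ' ∈ bx (P.Ind z) W' := by
    intro i
    by_contra hcon
    have h1 : p' (N + 1) := by
      refine ⟨i :: l, by rw [List.length_cons, hl1], ?_⟩
      have h2 : P.ewd (lreg k G (G × Y)) (i :: l) φ =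
          P.ep (lreg k G (G × Y)) i (P.ewd (lreg k G (G × Y)) l φ) := rfl
      rw [h2, ← hφ']
      exact hcon
    have h2 := hN2 _ h1
    omega
  obtain ⟨w₀, hw₀, hd⟩ := ten_top hP hst hW hWe hW'W (hQ hφ'Q) hφ'e
  have hbv : box v w₀ ∈ Q := by
    have h1 := sub_mem hφ'Q (hW'Q hd)
    rwa [sub_sub_cancel] at h1
  let K : Submodule k (G → k) :=
    { carrier := {f | box f w₀ ∈ Q}
      add_mem' := by
        intro f f' hf hf'
        have h1 : box (f + f') w₀ = box f w₀ + box f' w₀ := by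
          funext y
          simp only [box, Pi.add_apply, add_mul]
        show box (f + f') w₀ ∈ Q
        rw [h1]
        exact add_mem hf hf'
      zero_mem' := by
        have h1 : box (0 : G → k) w₀ = 0 := by
          funext y
          simp [box]
        show box (0 : G → k) w₀ ∈ Q
        rw [h1]
        exact zero_mem _
      smul_mem' := by
        intro c f hf
        have h1 : box (c • f) w₀ = c • box f w₀ := by
          funext y
          simp only [box, Pi.smul_apply, smul_eq_mul, mul_assoc]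
        show box (c • f) w₀ ∈ Q
        rw [h1]
        exact Q.smul_mem _ hf }
  have hK : P.Ind z ≤ K := by
    refine hst.gen K hbv fun i f hfK hfI => ?_
    show box (P.em (lreg k G G) i f) w₀ ∈ Q
    rw [← ten_em hP hW hWm i hfI hw₀]
    exact hQm _ hfK i
  have hw₀' : w₀ ∈ W' := by
    rw [hW']
    exact ⟨hw₀, fun f hf => hK hf⟩
  apply hl2
  have h1 := add_mem hd (box_mem hst.isV.1 hw₀')
  rwa [sub_add_cancel] at h1

end PinData

end Pool.Agent.DM
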