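import Pool.Agent.DM.Eps

/-!
# DM, module ThK: `Ind(z + p l) = St ⊗ Ind(l)^(1)`

Proof of `thmK`.  Let `ε` be as in `exists_eps` and `Γ(g) = lreg(g) (ε (lreg(g⁻¹) f)) ∈ Ind z`.
(5) `Γ(g b) = (ch l t)^(-p) Γ(g)` for `b = tor t * v b'`, by the second property of `ε`.
(6) Write `(lreg(g⁻¹) f)|_U = ∑ g_A^p q_A` (`hst.basis`, depends on `g`); then
`Γ(g u(c)) = ∑_A g_A(c)^p lreg(g) s_A` by the third property.
(7) The `s_A` form a basis of `Ind z` (independent: `∑ a_A s_A = 0`, `a_A = b_A^p`, `hst.indep`), so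
`Γ(g) = ∑ γ_A(g) s_A`; let `G_A(g)` be the `p`-th root of `γ_A(g)` (unique).  By (5)
`G_A(g b) = (ch l t)⁻¹ G_A(g)`.  With `lreg(g) s_B = ∑_A M_(B,A) s_A` and (6),
`γ_A(g u(c)) = ∑_B g_B(c)^p M_(B,A)`, so `G_A(g u(c)) = ∑_B M_(B,A)^(1/p) g_B(c)`, a polynomial.
So `G_A ∈ Ind l`.
(8) `f(g) = (lreg(g⁻¹) f)(1) = ∑ g_A(0)^p s_A(1) = ε(lreg(g⁻¹) f)(1) = Γ(g)(g)
  = ∑ G_A(g)^p s_A(g)`.
`uniqK`: restrict to `U` and use `hst.indep`, then `Ind_ext`.
-/

set_option autoImplicit false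

namespace Pool.Agent.DM

open MvPolynomial

variable {k : Type*} [Field k] [IsAlgClosed k] [Infinite k] {G : Type*} [Group G]
  {T : Type*} [CommGroup T] {X : Type*} [AddCommGroup X] {P : PinData k G T X} {p : ℕ} {z l : X}
  {v vl : G → k} {s : (Fin P.N → ℕ) → G → k}
  {q : (Fin P.N → ℕ) → MvPolynomial (Fin P.N) k}

namespace PinData

omit [Infinite k] in
private theorem thk_root [Fact p.Prime] (a : k) : ∃ b : k, b ^ p = a :=
  IsAlgClosed.exists_pow_nat_eq a (Fact.out : p.Prime).pos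

omit [IsAlgClosed k] in
private theorem thk_scal [Fact p.Prime] [CharP k p] (hst : P.IsSt p z v s q)
    {a b : (Fin P.N → ℕ) → k}
    (h : ∑ A ∈ Ap P.N p, (a A) ^ p • s A = ∑ A ∈ Ap P.N p, (b A) ^ p • s A) :
    ∀ A ∈ Ap P.N p, a A = b A := by
  have h1 : ∑ A ∈ Ap P.N p, (C (a A - b A) : MvPolynomial (Fin P.N) k) ^ p * q A = 0 := by
    refine MvPolynomial.funext fun c => ?_
    rw [map_zero, map_sum]
    have h2 := congrFun h (P.u c)
    rw [Finset.sum_apply, Finset.sum_apply] at h2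
    have h3 : ∀ A ∈ Ap P.N p, eval c ((C (a A - b A) : MvPolynomial (Fin P.N) k) ^ p * q A) =
        ((a A) ^ p • s A) (P.u c) - ((b A) ^ p • s A) (P.u c) := by
      intro A hA
      rw [map_mul, map_pow, eval_C, sub_pow_char, Pi.smul_apply, Pi.smul_apply, smul_eq_mul,
        smul_eq_mul, hst.eval A hA c]
      ring
    rw [Finset.sum_congr rfl h3, Finset.sum_sub_distrib, h2, sub_self]
  intro A hA
  have h4 := hst.indep (fun A => C (a A - b A)) h1 A hA
  have h5 : a A - b A = 0 := by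
    have := congrArg (eval (0 : Fin P.N → k)) h4
    simpa using this
  exact sub_eq_zero.1 h5

omit [IsAlgClosed k] [Infinite k] in
private theorem thk_mul (g g' : G) (f : G → k) :
    lreg k G G (g * g') f = lreg k G G g (lreg k G G g' f) := by
  rw [map_mul]
  rfl

omit [IsAlgClosed k] [Infinite k] in
private theorem thk_one (f : G → k) : lreg k G G (1 : G) f = f := by
  rw [map_one]
  rfl

omit [IsAlgClosed k] [Infinite k] in
private theorem thk_cancel (g : G) (f : G → k) : lreg k G G g (lreg k G G g⁻¹ f) = f := by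
  rw [← thk_mul, mul_inv_cancel, thk_one]

theorem thmK [Fact p.Prime] [CharP k p] (hP : P.Ax) (hst : P.IsSt p z v s q) (hl : P.IsV l vl)
    {f : G → k} (hf : f ∈ P.Ind (z + p • l)) :
    ∃ F : (Fin P.N → ℕ) → G → k, (∀ A ∈ Ap P.N p, F A ∈ P.Ind l) ∧
      f = ∑ A ∈ Ap P.N p, s A * F A ^ p := by
  obtain ⟨ε, hε1, hε2, hε3⟩ := exists_eps (l := l) (vl := vl) hP hst hl
  -- translates of `f`
  have hfg : ∀ g : G, lreg k G G g f ∈ P.Ind (z + p • l) := fun g => Ind_stable _ g f hf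
  -- `Γ`
  have hΓ : ∀ g : G, lreg k G G g (ε (lreg k G G g⁻¹ f)) ∈ P.Ind z := fun g =>
    Ind_stable _ g _ (hε1 _ (hfg _))
  have hspan : ∀ h ∈ P.Ind z, ∃ a : (Fin P.N → ℕ) → k, h = ∑ A ∈ Ap P.N p, (a A) ^ p • s A := by
    intro h hh
    obtain ⟨a, ha⟩ := hst.span h hh
    choose r hr using fun x : k => thk_root (p := p) x
    refine ⟨fun A => r (a A), ?_⟩
    rw [ha]
    exact Finset.sum_congr rfl fun A _ => by rw [hr]
  choose γ hγ using fun g : G => hspan _ (hΓ g)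
  -- local expansions
  have hloc : ∀ g : G, ∃ Q : (Fin P.N → ℕ) → MvPolynomial (Fin P.N) k,
      ∀ c, lreg k G G g⁻¹ f (P.u c) = ∑ A ∈ Ap P.N p, eval c (Q A) ^ p * s A (P.u c) := by
    intro g
    obtain ⟨Q, hQ⟩ := polyMap_iff.1 ((hfg g⁻¹).2 1)
    obtain ⟨gg, hgg⟩ := hst.basis Q
    refine ⟨gg, fun c => ?_⟩
    have h1 := hQ c
    rw [one_mul] at h1
    rw [h1, hgg, map_sum]
    refine Finset.sum_congr rfl fun A hA => ?_
    rw [map_mul, map_pow, hst.eval A hA c]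
  refine ⟨fun A g => γ g A, fun A hA => ⟨fun g t b => ?_, fun g => ?_⟩, ?_⟩
  · -- equivariance
    have h1 : lreg k G G (g * (P.tor t * P.v b))
        (ε (lreg k G G (g * (P.tor t * P.v b))⁻¹ f)) =
        ((((P.ch l t)⁻¹ : kˣ) : k) ^ p) • lreg k G G g (ε (lreg k G G g⁻¹ f)) := by
      rw [mul_inv_rev, thk_mul (P.tor t * P.v b)⁻¹ g⁻¹ f, hε2 _ (hfg g⁻¹) t b, map_smul, thk_mul,
        thk_cancel]
    rw [hγ (g * (P.tor t * P.v b)), hγ g, Finset.smul_sum] at h1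
    have h2 : ∑ A ∈ Ap P.N p, (γ (g * (P.tor t * P.v b)) A) ^ p • s A =
        ∑ A ∈ Ap P.N p, ((((P.ch l t)⁻¹ : kˣ) : k) * γ g A) ^ p • s A := by
      rw [h1]
      exact Finset.sum_congr rfl fun A _ => by rw [mul_pow, smul_smul]
    exact thk_scal hst h2 A hA
  · -- polynomiality
    obtain ⟨Q, hQ⟩ := hloc g
    choose M hM using fun B : (Fin P.N → ℕ) => fun hB : B ∈ Ap P.N p =>
      hspan _ (Ind_stable _ g _ (hst.mem B hB))
    classical
    set M' : (Fin P.N → ℕ) → (Fin P.N → ℕ) → k := fun B A => if hB : B ∈ Ap P.N p then M B hB A else 0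
      with hM'
    have hM'2 : ∀ B ∈ Ap P.N p, lreg k G G g (s B) = ∑ A ∈ Ap P.N p, (M' B A) ^ p • s A := by
      intro B hB
      rw [hM B hB]
      refine Finset.sum_congr rfl fun A _ => ?_
      rw [hM']
      simp only [hB, dif_pos]
    have h1 : ∀ c, ∑ A ∈ Ap P.N p, (γ (g * P.u c) A) ^ p • s A =
        ∑ A ∈ Ap P.N p, (∑ B ∈ Ap P.N p, eval c (Q B) * M' B A) ^ p • s A := by
      intro c
      rw [← hγ (g * P.u c), mul_inv_rev, thk_mul (P.u c)⁻¹ g⁻¹ f, hε3 _ (hfg g⁻¹) Q hQ c, thk_mul]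
      rw [map_sum, map_sum]
      have h2 : ∀ B ∈ Ap P.N p, lreg k G G g (lreg k G G (P.u c)
          ((eval c (Q B) ^ p) • lreg k G G (P.u c)⁻¹ (s B))) =
          ∑ A ∈ Ap P.N p, (eval c (Q B) ^ p * M' B A ^ p) • s A := by
        intro B hB
        rw [map_smul, map_smul, thk_cancel, hM'2 B hB, Finset.smul_sum]
        exact Finset.sum_congr rfl fun A _ => by rw [smul_smul]
      rw [Finset.sum_congr rfl h2, Finset.sum_comm]
      refine Finset.sum_congr rfl fun A _ => ?_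
      rw [← Finset.sum_smul, sum_pow_char]
      congr 1
      exact Finset.sum_congr rfl fun B _ => by rw [mul_pow]
    refine polyMap_iff.2 ⟨∑ B ∈ Ap P.N p, Q B * C (M' B A), fun c => ?_⟩
    beta_reduce
    rw [thk_scal hst (h1 c) A hA, map_sum]
    exact Finset.sum_congr rfl fun B _ => by rw [map_mul, eval_C]
  · funext g
    rw [Finset.sum_apply]
    obtain ⟨Q, hQ⟩ := hloc g
    have h1 := hε3 _ (hfg g⁻¹) Q hQ 0
    rw [u_zero, inv_one, thk_one] at h1
    have h2 := congrFun (hγ g) g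
    rw [lreg_apply, smul_eq_mul, inv_mul_cancel, h1, Finset.sum_apply] at h2
    have h3 := hQ 0
    rw [u_zero, lreg_apply, inv_inv, smul_eq_mul, mul_one] at h3
    rw [h3]
    have h4 : ∑ A ∈ Ap P.N p, eval 0 (Q A) ^ p * s A 1 =
        ∑ c ∈ Ap P.N p, (eval 0 (Q c) ^ p • lreg k G G 1 (s c)) 1 := by
      refine Finset.sum_congr rfl fun A _ => ?_
      rw [thk_one, Pi.smul_apply, smul_eq_mul]
    rw [h4, h2, Finset.sum_apply]
    refine Finset.sum_congr rfl fun A _ => ?_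
    rw [Pi.smul_apply, smul_eq_mul, Pi.mul_apply, Pi.pow_apply, mul_comm]

theorem uniqK [Fact p.Prime] [CharP k p] (hP : P.Ax) (hst : P.IsSt p z v s q)
    {F : (Fin P.N → ℕ) → G → k} (hF : ∀ A ∈ Ap P.N p, F A ∈ P.Ind l)
    (h : ∑ A ∈ Ap P.N p, s A * F A ^ p = 0) : ∀ A ∈ Ap P.N p, F A = 0 := by
  classical
  choose Q hQ using fun A : (Fin P.N → ℕ) => fun hA : A ∈ Ap P.N p =>
    polyMap_iff.1 ((hF A hA).2 1)
  set Q' : (Fin P.N → ℕ) → MvPolynomial (Fin P.N) k := fun A =>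
    if hA : A ∈ Ap P.N p then Q A hA else 0 with hQ'
  have hQ'2 : ∀ A ∈ Ap P.N p, ∀ c, F A (P.u c) = eval c (Q' A) := by
    intro A hA c
    have h1 := hQ A hA c
    rw [one_mul] at h1
    rw [h1, hQ']
    simp only [hA, dif_pos]
  have h1 : ∑ A ∈ Ap P.N p, Q' A ^ p * q A = 0 := by
    refine MvPolynomial.funext fun c => ?_
    rw [map_zero, map_sum]
    have h2 := congrFun h (P.u c)
    rw [Finset.sum_apply, Pi.zero_apply] at h2
    rw [← h2]
    refine Finset.sum_congr rfl fun A hA => ?_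
    rw [map_mul, map_pow, Pi.mul_apply, Pi.pow_apply, hst.eval A hA c, hQ'2 A hA c, mul_comm]
  intro A hA
  have h2 := hst.indep Q' h1 A hA
  refine Ind_ext hP (hF A hA) (Submodule.zero_mem _) fun c => ?_
  rw [hQ'2 A hA c, h2, map_zero, Pi.zero_apply]

end PinData

end Pool.Agent.DM
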