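import Pool.Agent.DM.Core
import Pool.Agent.DM.Rep

/-!
# DM, module Theta: a section of `ind(E) → k_e` after multiplication by a power of `v_z`

`ρ` a rational representation on `V`, `E ⊆ V` stable under the negative Borel group `B⁻`
(generated by the `tor t`, `v b`), `x₀ ∈ E` of weight `e`, `λ` a functional with `λ(x₀) = 1` and
`λ(b y) = e(b) λ(y)` for `y ∈ E`, `b ∈ B⁻`.

Let `θ(g) = ρ(v b)⁻¹ x₀` for `g = u(a) t v(b)` in the cell (well defined by `cell_inj`), `θ(g) = 0`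
outside, `v` the highest weight vector of `Ind z`.  Take `Θ = v^j θ` for suitable `j`:
* values in `E`: clear; `λ(Θ(g)) = v(g)^j`: in the cell `λ(ρ(v b)⁻¹ x₀) = λ(x₀) = 1` (apply the
  hypothesis to `y = ρ(v b)⁻¹ x₀` and `v b`), outside the cell `v(g) = 0` (`regular_v`-type:
  `v² = δ^(p-1)`; use `j > 0`).
* `g' = g (tor t' * v b')` with `g = u(a) t v(b)`:
  `g' = u(a) (t t') (t'⁻¹ v(b) t' v(b'))`, so `g'` is in the cell iff `g` is, and if
  `t'⁻¹ v(b) t' v(b') = v(b'')` (`tor_v`, `hP.v_mul`) then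
  `θ(g') = ρ(v b'')⁻¹ x₀ = ρ(v b')⁻¹ ρ(t'⁻¹) ρ(v b)⁻¹ ρ(t') x₀
   = (ch e t') ρ(tor t' * v b')⁻¹ θ(g)`; with `v(g')^j = (ch (j z) t')⁻¹ v(g)^j` this gives the
  third property.
* polynomiality: `b ↦ ρ(v b)⁻¹ x₀` is a polynomial map (`hρ.pv`, `hP.v_inv`), `= ∑ Q_i(b) y_i`.  By
  `Ext2` (and multiplication by powers of `δ`, `hP.delta`, which is polynomial along `g U`) there is
  `n` such that for all `g`, `i` the function of `c` which is `δ(g u c)^n Q_i(b)` if
  `g u(c) = u(a) t v(b)` and `0` outside the cell is polynomial.  `v² = δ^(p-1)` (both are `1` on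
  `U` and in `Ind((p-1) 2ρ)`), so `v^(2n) θ = δ^(n(p-2)) δ^n θ` is polynomial along all `g U`;
  take `j = 2 n + 2` (`v^j = v² v^(2n)`, polynomial factors).
-/

set_option autoImplicit false

namespace Pool.Agent.DM

open MvPolynomial

variable {k : Type*} [Field k] [IsAlgClosed k] [Infinite k] {G : Type*} [Group G]
  {T : Type*} [CommGroup T] {X : Type*} [AddCommGroup X] {P : PinData k G T X}
  {z : X} {p : ℕ} {V : Type*} [AddCommGroup V] [Module k V] {ρ : Representation k G V}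

namespace PinData

omit [IsAlgClosed k] [Infinite k] in
private theorem th_app (ρ : Representation k G V) (g g' : G) (x : V) :
    ρ (g * g') x = ρ g (ρ g' x) := by
  rw [map_mul]
  rfl

open Classical in
/-- the section over the cell -/
private noncomputable def tht (P : PinData k G T X) (ρ : Representation k G V) (x₀ : V) (g : G) :
    V :=
  if h : g ∈ P.cell then ρ (P.v h.choose_spec.choose_spec.choose)⁻¹ x₀ else 0

omit [IsAlgClosed k] [Infinite k] in
private theorem tht_cell (hP : P.Ax) (x₀ : V) (a : Fin P.N → k) (t : T) (b : Fin P.N → k) :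
    tht P ρ x₀ (P.u a * P.tor t * P.v b) = ρ (P.v b)⁻¹ x₀ := by
  have h : P.u a * P.tor t * P.v b ∈ P.cell := ⟨a, t, b, rfl⟩
  unfold tht
  rw [dif_pos h]
  have h1 := h.choose_spec.choose_spec.choose_spec
  rw [← (hP.cell_inj _ _ _ _ _ _ h1).2.2]

omit [IsAlgClosed k] [Infinite k] in
private theorem tht_not (x₀ : V) {g : G} (h : g ∉ P.cell) : tht P ρ x₀ g = 0 := by
  unfold tht
  rw [dif_neg h]

omit [IsAlgClosed k] [Infinite k] in
/-- the cell is stable under the negative Borel group -/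
private theorem th_mul (hP : P.Ax) (a : Fin P.N → k) (t₀ : T) (b₀ : Fin P.N → k) (t : T)
    (b : Fin P.N → k) : ∃ b', P.v b' = (P.tor t)⁻¹ * P.v b₀ * P.tor t * P.v b ∧
      P.u a * P.tor t₀ * P.v b₀ * (P.tor t * P.v b) = P.u a * P.tor (t₀ * t) * P.v b' := by
  obtain ⟨mm, hmm⟩ := hP.v_mul
  have h1 := tor_v hP t⁻¹ b₀
  rw [map_inv, inv_inv] at h1
  refine ⟨_, by rw [h1, hmm], ?_⟩
  rw [← hmm, ← h1, map_mul]
  group

omit [IsAlgClosed k] [Infinite k] in
private theorem th_cell (hP : P.Ax) {g : G} {t : T} {b : Fin P.N → k}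
    (h : g * (P.tor t * P.v b) ∈ P.cell) : g ∈ P.cell := by
  obtain ⟨a, t₀, b₀, h0⟩ := h
  obtain ⟨mi, hmi⟩ := hP.v_inv
  have h1 : g = P.u a * P.tor t₀ * P.v b₀ * (P.tor 1 * P.v fun i => eval b (mi i)) *
      (P.tor t⁻¹ * P.v 0) := by
    rw [← hmi, ← h0, v_zero, map_one, map_inv]
    group
  obtain ⟨b', -, h2⟩ := th_mul hP a t₀ b₀ 1 (fun i => eval b (mi i))
  rw [h2] at h1
  obtain ⟨b'', -, h3⟩ := th_mul hP a (t₀ * 1) b' t⁻¹ 0
  rw [h3] at h1
  exact ⟨_, _, _, h1⟩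

theorem exists_theta [Fact p.Prime] [CharP k p] (hP : P.Ax) (hz : P.Stz p z) (hE2 : P.Ext2)
    (hρ : P.RatOn ρ ⊤) {v : G → k} (hv : P.IsV z v) (E : Submodule k V)
    (hE : ∀ t b, ∀ y ∈ E, ρ (P.tor t * P.v b) y ∈ E) {e : X} {x₀ : V} (hx : x₀ ∈ E)
    (hw : x₀ ∈ P.wt ρ e) (lam : V →ₗ[k] k) (h1 : lam x₀ = 1)
    (h2 : ∀ y ∈ E, ∀ t b, lam (ρ (P.tor t * P.v b) y) = ((P.ch e t : kˣ) : k) * lam y) :
    ∃ (j : ℕ) (Θ : G → V), (∀ g, Θ g ∈ E) ∧ (∀ g, lam (Θ g) = v g ^ j) ∧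
      (∀ g t b, Θ (g * (P.tor t * P.v b)) =
        (((P.ch (j • z - e) t)⁻¹ : kˣ) : k) • ρ (P.tor t * P.v b)⁻¹ (Θ g)) ∧
      ∀ g, PolyMap fun c => Θ (g * P.u c) := by
  classical
  obtain ⟨δ, hδ, hδ1, hδ0⟩ := hP.delta
  have hδV : P.IsV P.rho2 δ := ⟨hδ, hδ1⟩
  have hp : 2 ≤ p := (Fact.out : p.Prime).two_le
  have hvδ : v ^ 2 = δ ^ (p - 1) := by
    have e1 := hv.pow hP 2
    rw [hz.two] at e1
    exact IsV.unique hP e1 (hδV.pow hP (p - 1))
  have hv0 : ∀ g, g ∉ P.cell → v g = 0 := by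
    intro g hg
    have e1 := congrFun hvδ g
    rw [Pi.pow_apply, Pi.pow_apply, hδ0 g hg, zero_pow (by omega)] at e1
    exact pow_eq_zero_iff (two_ne_zero) |>.1 e1
  obtain ⟨mi, hmi⟩ := hP.v_inv
  -- the polynomial map `b ↦ ρ (v b)⁻¹ x₀`
  have hpol : PolyMap fun b => ρ (P.v b)⁻¹ x₀ := by
    have e1 := (hρ.pv x₀ Submodule.mem_top).subst mi
    have e2 : (fun b => ρ (P.v b)⁻¹ x₀) = fun c => ρ (P.v fun i => eval c (mi i)) x₀ := by
      funext b
      rw [hmi]
    rw [e2]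
    exact e1
  obtain ⟨r, Q, y, hQ⟩ := hpol
  choose m hm using fun i => hE2 (Q i)
  obtain ⟨n, hn⟩ : ∃ n, ∀ i, m i ≤ n := ⟨∑ i, m i, fun i =>
    Finset.single_le_sum (fun _ _ => Nat.zero_le _) (Finset.mem_univ i)⟩
  have hEv : ∀ b, ρ (P.v b)⁻¹ x₀ ∈ E := by
    intro b
    have e1 := hE 1 (fun i => eval b (mi i)) x₀ hx
    rwa [map_one, one_mul, ← hmi] at e1
  have hlv : ∀ b, lam (ρ (P.v b)⁻¹ x₀) = 1 := by
    intro b
    have e1 := h2 x₀ hx 1 (fun i => eval b (mi i))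
    rw [map_one, one_mul, ← hmi] at e1
    rw [e1, map_one, Units.val_one, one_mul, h1]
  refine ⟨2 * n + 2, fun g => v g ^ (2 * n + 2) • tht P ρ x₀ g, fun g => ?_, fun g => ?_,
    fun g t b => ?_, fun g => ?_⟩
  · refine Submodule.smul_mem _ _ ?_
    by_cases hg : g ∈ P.cell
    · obtain ⟨a, t, b, rfl⟩ := hg
      rw [tht_cell hP]
      exact hEv b
    · rw [tht_not x₀ hg]
      exact zero_mem _
  · simp only
    by_cases hg : g ∈ P.cell
    · obtain ⟨a, t, b, rfl⟩ := hg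
      rw [tht_cell hP, map_smul, hlv, smul_eq_mul, mul_one]
    · rw [tht_not x₀ hg, smul_zero, map_zero, hv0 g hg, zero_pow (by omega)]
  · simp only
    by_cases hg : g ∈ P.cell
    · obtain ⟨a, t₀, b₀, rfl⟩ := hg
      obtain ⟨b', hb', hmul⟩ := th_mul hP a t₀ b₀ t b
      have e1 := hv.1.1 (P.u a * P.tor t₀ * P.v b₀) t b
      rw [e1, hmul, tht_cell hP, tht_cell hP, hb']
      have e2 : ρ ((P.tor t)⁻¹ * P.v b₀ * P.tor t * P.v b)⁻¹ x₀ =
          ((P.ch e t : kˣ) : k) • ρ (P.tor t * P.v b)⁻¹ (ρ (P.v b₀)⁻¹ x₀) := by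
        have e3 : ((P.tor t)⁻¹ * P.v b₀ * P.tor t * P.v b)⁻¹ =
            (P.tor t * P.v b)⁻¹ * (P.v b₀)⁻¹ * P.tor t := by group
        rw [e3, th_app, hw t, map_smul, th_app]
      have e3 : P.ch ((2 * n + 2) • z - e) t = P.ch z t ^ (2 * n + 2) * (P.ch e t)⁻¹ := by
        rw [sub_eq_add_neg, hP.ch_add, ch_nsmul hP, ch_neg hP]
      rw [e2, map_smul, smul_smul, smul_smul, e3, mul_inv, inv_inv, Units.val_mul, mul_pow,
        Units.val_inv_eq_inv_val, Units.val_inv_eq_inv_val, Units.val_pow_eq_pow_val, inv_pow]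
      congr 1
      ring
    · have hg' : g * (P.tor t * P.v b) ∉ P.cell := fun h => hg (th_cell hP h)
      rw [tht_not x₀ hg, tht_not x₀ hg', smul_zero, smul_zero, map_zero, smul_zero]
  · choose Q' hQ' using fun i => hm i g
    have e1 : (fun c => v (g * P.u c) ^ (2 * n + 2) • tht P ρ x₀ (g * P.u c)) =
        fun c => ∑ i, ((v ^ (2 * n + 2 - 2 * m i)) (g * P.u c) *
          (δ ^ ((p - 2) * m i)) (g * P.u c) * eval c (Q' i)) • y i := by
      funext c
      by_cases hc : g * P.u c ∈ P.cell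
      · obtain ⟨a, t, b, hc'⟩ := hc
        have e2 : tht P ρ x₀ (g * P.u c) = ∑ i, eval b (Q i) • y i := by
          rw [hc', tht_cell hP]
          exact hQ b
        rw [e2, Finset.smul_sum]
        refine Finset.sum_congr rfl fun i _ => ?_
        have e3 := (hQ' i c).1 a t b hc'
        have e4 : δ (g * P.u c) = (((P.ch P.rho2 t)⁻¹ : kˣ) : k) := by
          rw [hc', Ind_cell hδ, hδ1, mul_one]
        rw [← e4] at e3
        rw [e3, smul_smul, Pi.pow_apply, Pi.pow_apply]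
        congr 1
        have e5 : v (g * P.u c) ^ 2 = δ (g * P.u c) ^ (p - 1) := by
          have := congrFun hvδ (g * P.u c)
          rwa [Pi.pow_apply, Pi.pow_apply] at this
        have e6 : v (g * P.u c) ^ (2 * n + 2) = v (g * P.u c) ^ (2 * n + 2 - 2 * m i) *
            (δ (g * P.u c) ^ ((p - 2) * m i) * δ (g * P.u c) ^ (m i)) := by
          rw [← pow_add, show (p - 2) * m i + m i = (p - 1) * m i by
            rw [← Nat.succ_mul]; congr 1; omega, pow_mul, ← e5, ← pow_mul, ← pow_add]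
          congr 1
          have := hn i
          omega
        rw [e6]
        ring
      · rw [tht_not x₀ hc, smul_zero]
        symm
        refine Finset.sum_eq_zero fun i _ => ?_
        rw [(hQ' i c).2 hc, mul_zero, zero_smul]
    rw [e1]
    refine PolyMap.sum Finset.univ fun i _ => ?_
    refine PolyMap.smul' (PolyMap.mul' (PolyMap.mul' ?_ ?_) ?_) (PolyMap.const (y i))
    · exact (Ind_pow hP hv.1 _).2 g
    · exact (Ind_pow hP hδ _).2 g
    · exact polyMap_iff.2 ⟨Q' i, fun _ => rfl⟩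

end PinData

end Pool.Agent.DM
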