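import Pool.Agent.DM.Ten

/-!
# DM, module ULa: elements of `St ⊗ M^(1)` with small weights

Proof of `low_cut`.  Let `W = fr p M` (rational, `fr_rat`; killed by `ep`, `em`: `dv_frob`) and
`Q = {φ ∈ bx (Ind z) W | ∀ g, lreg g φ ∈ low (h z + p c)}`, a `G`-stable subspace, so stable
under `ep`, `em` (`dv_mem`, `bx_rat`).  By `ten_stable` it suffices that
`sl (Ind z) W Q ≤ fr p (cut M c)`.  Let `w = a^p` (`mem_fr`, `a ∈ M`) be in `sl`.  For `g ∈ G` take
`s' = lreg(g⁻¹) v`: `lreg(g) (box s' w) = box v ((lreg g a)^p) ∈ low(h z + p c)`, so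
`lreg g a ∈ low c` by `low_of_box` (`IsV.wt`, `lreg g a ∈ M ≤ ⨆ wt`).  So `a ∈ cut M c`.
-/

set_option autoImplicit false

namespace Pool.Agent.DM

open MvPolynomial

variable {k : Type*} [Field k] [IsAlgClosed k] [Infinite k] {G : Type*} [Group G]
  {T : Type*} [CommGroup T] {X : Type*} [AddCommGroup X] {P : PinData k G T X} {p : ℕ} {z : X}
  {v : G → k} {s : (Fin P.N → ℕ) → G → k}
  {q : (Fin P.N → ℕ) → MvPolynomial (Fin P.N) k} {Y : Type*} [MulAction G Y]

namespace PinData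

omit [IsAlgClosed k] [Infinite k] in
private lemma mul_app_a {V : Type*} [AddCommGroup V] [Module k V] {ρ : Representation k G V}
    (g g' : G) (x : V) : ρ (g * g') x = ρ g (ρ g' x) := by
  rw [map_mul]; rfl

omit [IsAlgClosed k] [Infinite k] in
private lemma one_app_a {V : Type*} [AddCommGroup V] [Module k V] {ρ : Representation k G V}
    (x : V) : ρ 1 x = x := by
  rw [map_one]; rfl

theorem low_cut [Fact p.Prime] [CharP k p] (hP : P.Ax) (hst : P.IsSt p z v s q)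
    {M : Submodule k (Y → k)} (hM : P.RatOn (lreg k G Y) M) {c : ℤ} {φ : G × Y → k}
    (hφ : φ ∈ bx (P.Ind z) (fr p M))
    (h : ∀ g, lreg k G (G × Y) g φ ∈ P.low (lreg k G (G × Y)) (P.h z + p * c)) :
    φ ∈ bx (P.Ind z) (fr p (P.cut (lreg k G Y) M c)) := by
  have hW : P.RatOn (lreg k G Y) (fr p M) := fr_rat p hP hM
  have hWe : ∀ w ∈ fr p M, ∀ i, P.ep (lreg k G Y) i w = 0 := by
    intro w hw i
    obtain ⟨f, hf, rfl⟩ := (mem_fr p).1 hw
    exact dv_frob p (hM.pol_xp hf i)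
  have hWm : ∀ w ∈ fr p M, ∀ i, P.em (lreg k G Y) i w = 0 := by
    intro w hw i
    obtain ⟨f, hf, rfl⟩ := (mem_fr p).1 hw
    exact dv_frob p (hM.pol_xm hf i)
  have hQr := cut_rat hP (bx_rat hP (Ind_rat hP z) hW) (P.h z + p * c)
  have h1 := ten_stable hP hst hW hWe hWm
    (Q := P.cut (lreg k G (G × Y)) (bx (P.Ind z) (fr p M)) (P.h z + p * c))
    (fun ψ hψ => hψ.1) (fun ψ hψ i => hQr.ep_mem hψ i) (fun ψ hψ i => hQr.em_mem hψ i)
  refine bx_mono le_rfl ?_ (h1 ⟨hφ, h⟩)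
  rintro w ⟨hw, hw2⟩
  obtain ⟨a, ha, rfl⟩ := (mem_fr p).1 hw
  refine (mem_fr p).2 ⟨a, ⟨ha, fun g => ?_⟩, rfl⟩
  have h2 := (hw2 _ (Ind_stable z g⁻¹ v hst.isV.1)).2 g
  have h3 : lreg k G (G × Y) g (fun y : G × Y => lreg k G G g⁻¹ v y.1 * (a ^ p) y.2) =
      box v (lreg k G Y g a ^ p) := by
    have h4 := lreg_box g (lreg k G G g⁻¹ v) (a ^ p)
    rw [← mul_app_a, mul_inv_cancel, one_app_a, lreg_pow] at h4
    exact h4
  rw [h3] at h2
  refine low_of_box hP p (hst.isV.wt hP) ?_ (hM.wts (hM.stable g a ha)) h2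
  intro h0
  have h5 := hst.isV.one
  rw [h0] at h5
  exact zero_ne_one h5

/-- converse: elements of `St ⊗ (cut M c)^(1)` have small weights (`Ind_low`, `low_frob`,
`low_box`) -/
theorem low_of_cut [Fact p.Prime] [CharP k p] (hP : P.Ax) {M : Submodule k (Y → k)} {c : ℤ}
    {φ : G × Y → k} (hφ : φ ∈ bx (P.Ind z) (fr p (P.cut (lreg k G Y) M c))) :
    φ ∈ P.low (lreg k G (G × Y)) (P.h z + p * c) := by
  have h1 : bx (P.Ind z) (fr p (P.cut (lreg k G Y) M c)) ≤
      P.low (lreg k G (G × Y)) (P.h z + p * c) := by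
    refine bx_induct _ fun f hf f' hf' => ?_
    obtain ⟨a, ha, rfl⟩ := (mem_fr p).1 hf'
    have h2 : a ∈ P.low (lreg k G Y) c := by
      have := ha.2 1
      rwa [one_app_a] at this
    have h3 := low_box hP (Ind_low hP hf) (low_frob hP p h2)
    refine low_mono ?_ h3
    have h4 : (1 : ℤ) ≤ p := by exact_mod_cast (Fact.out : p.Prime).one_lt.le
    have h5 : (p : ℤ) * (c - 1) = p * c - p := by ring
    rw [h5]
    omega
  exact h1 hφ

end PinData

end Pool.Agent.DM
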