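import Pool.Agent.DM.ULa

/-!
# DM, module ULb: the untwisting lemma

Situation: `M'` rational functions on `Y'`, `M` rational functions on `Y`, an equivariant linear map
`σ : M' → St ⊗ M^(1)`, `m' ∈ M'` with `σ m' = v ⊗ m^p`, `x ∈ Ind n`.  Suppose that for every
`s' ∈ St` there is `b ∈ M'` with symbol `s' x^p m'`, i.e. `Rel(s', b)`:
`lreg(g⁻¹) b - (s'(g) x(g)^p) m' ∈ low(h z + p c)` for all `g`.  Then there is `a ∈ M` with symbol
`x m`.

Proof.  Write `W₀ = fr p (cut M c)`, `B₀ = bx (Ind z) W₀`, `L = low(h z + p c)`.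
(0) If `b ∈ M'` and `lreg(g⁻¹) b ∈ L` for all `g` then `σ b ∈ B₀`: `lreg(g)(σ b) = σ(lreg(g) b) ∈ L`
  (`low_map`), and `low_cut`.  In particular `σ b - σ b' ∈ B₀` if `Rel(s', b)`, `Rel(s', b')`.
  `Rel` is additive and homogeneous in `(s', b)`.
(1) `Rel(s', b)` implies `Rel(ep_i s', ep_i b)` and `Rel(em_i s', em_i b)`: replace `g` by
  `x_i(-τ) g` in the relation: `lreg(g⁻¹) lreg(x_i(τ)) b - (s'(x_i(-τ) g) x(x_i(-τ) g)^p) m' ∈ L`
  for all `τ`; take the coefficient of `τ` (`cf_mem`; all functions of `τ` are polynomial, `x` and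
  `s'` lie in rational modules).  The coefficient of `τ` of `s'(x_i(-τ) g) x(x_i(-τ) g)^p` is
  `(ep_i s')(g) x(g)^p`, as `(lreg(x_i(τ)) x)^p` has no term in `τ` (`cf_frob`).
(2) Let `Rel(v, b₀)`.  `ep_i v = 0` (`IsV.inv`, `dv_inv`), so `Rel(0, ep_i b₀)` and
  `ep_i (σ b₀) = σ (ep_i b₀) ∈ B₀` (`dv_map`).  By `ten_top` (`W = fr p M`) there is `a ∈ M` with
  `σ b₀ - box v (a^p) ∈ B₀`.
(3) For all `s' ∈ Ind z` and `b ∈ M'` with `Rel(s', b)`: `σ b - box s' (a^p) ∈ B₀`.  The `s'` with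
  this property form a subspace (existence of `b` for summands, (0)) containing `v`; it is stable
  under `em_i`: let `Rel(s', b)`, `Rel(em_i s', b')`; then `σ b' - σ(em_i b) ∈ B₀`,
  `σ(em_i b) = em_i (σ b)`, and `em_i (σ b - box s' (a^p)) ∈ B₀` (`B₀` is stable under `G`:
  `bx_rat`, `cut_rat`, `fr_rat`), `em_i (box s' (a^p)) = box (em_i s') (a^p)` (`dv_box`, `dv_frob`).
  Apply `hst.gen`.
(4) Let `g ∈ G`, `s' = lreg(g) v`, so `s'(g) = v(1) = 1`; choose `b` with `Rel(s', b)`.  The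
  relation at `g` is `lreg(g⁻¹) b - x(g)^p m' ∈ L`, so (`low_map`)
  `σ(lreg(g⁻¹) b) - x(g)^p box v (m^p) ∈ L`.  By (3) and `lreg(g⁻¹) B₀ ⊆ B₀ ⊆ L` (`low_of_cut`)
  `σ(lreg(g⁻¹) b) = lreg(g⁻¹)(σ b) ≡ lreg(g⁻¹)(box s' (a^p)) = box v ((lreg(g⁻¹) a)^p)` modulo
  `L`.  So `box v ((lreg(g⁻¹) a - x(g) m)^p) ∈ L` and `lreg(g⁻¹) a - x(g) m ∈ low c` by
  `low_of_box`.
-/

set_option autoImplicit false

namespace Pool.Agent.DM

open MvPolynomial

variable {k : Type*} [Field k] [IsAlgClosed k] [Infinite k] {G : Type*} [Group G]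
  {T : Type*} [CommGroup T] {X : Type*} [AddCommGroup X] {P : PinData k G T X} {p : ℕ} {z : X}
  {v : G → k} {s : (Fin P.N → ℕ) → G → k}
  {q : (Fin P.N → ℕ) → MvPolynomial (Fin P.N) k} {Y : Type*} [MulAction G Y]
  {Y' : Type*} [MulAction G Y']

namespace PinData

omit [IsAlgClosed k] [Infinite k] in
private lemma mul_app_b {V : Type*} [AddCommGroup V] [Module k V] {ρ : Representation k G V}
    (g g' : G) (x : V) : ρ (g * g') x = ρ g (ρ g' x) := by
  rw [map_mul]; rfl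

omit [IsAlgClosed k] [Infinite k] in
private lemma one_app_b {V : Type*} [AddCommGroup V] [Module k V] {ρ : Representation k G V}
    (x : V) : ρ 1 x = x := by
  rw [map_one]; rfl

/-- `b` has the symbol `s' x^p m'`. -/
private def Rl (P : PinData k G T X) (e : ℤ) (p : ℕ) (x : G → k) (m' : Y' → k) (s' : G → k)
    (b : Y' → k) : Prop :=
  ∀ g, lreg k G Y' g⁻¹ b - (s' g * x g ^ p) • m' ∈ P.low (lreg k G Y') e

omit [IsAlgClosed k] [Infinite k] in
private lemma Rl.sub {e : ℤ} {x : G → k} {m' : Y' → k} {s₁ s₂ : G → k} {b₁ b₂ : Y' → k}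
    (h₁ : Rl P e p x m' s₁ b₁) (h₂ : Rl P e p x m' s₂ b₂) :
    Rl P e p x m' (s₁ - s₂) (b₁ - b₂) := by
  intro g
  have h := sub_mem (h₁ g) (h₂ g)
  have h3 : lreg k G Y' g⁻¹ (b₁ - b₂) - ((s₁ - s₂) g * x g ^ p) • m' =
      (lreg k G Y' g⁻¹ b₁ - (s₁ g * x g ^ p) • m') -
        (lreg k G Y' g⁻¹ b₂ - (s₂ g * x g ^ p) • m') := by
    rw [map_sub, Pi.sub_apply, sub_mul, sub_smul]
    abel
  rw [h3]
  exact h

omit [IsAlgClosed k] [Infinite k] in
private lemma Rl.smul {e : ℤ} {x : G → k} {m' : Y' → k} {s₁ : G → k} {b₁ : Y' → k} (a : k)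
    (h₁ : Rl P e p x m' s₁ b₁) : Rl P e p x m' (a • s₁) (a • b₁) := by
  intro g
  have h := Submodule.smul_mem _ a (h₁ g)
  have h3 : lreg k G Y' g⁻¹ (a • b₁) - ((a • s₁) g * x g ^ p) • m' =
      a • (lreg k G Y' g⁻¹ b₁ - (s₁ g * x g ^ p) • m') := by
    rw [map_smul, Pi.smul_apply, smul_eq_mul, mul_assoc, smul_sub, smul_smul a]
  rw [h3]
  exact h

omit [IsAlgClosed k] in
private lemma Rl.dv [Fact p.Prime] [CharP k p] {e : ℤ} {x : G → k} {m' : Y' → k} {s' : G → k}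
    {b : Y' → k} {γ : k → G} (h0 : γ 0 = 1) (hb : Pol fun τ => lreg k G Y' (γ τ) b)
    (hs : Pol fun τ => lreg k G G (γ τ) s') (hx : Pol fun τ => lreg k G G (γ τ) x)
    (h : Rl P e p x m' s' b) :
    Rl P e p x m' (DM.dv (lreg k G G) γ s') (DM.dv (lreg k G Y') γ b) := by
  intro g
  let Ev : (G → k) →ₗ[k] (Y' → k) := (LinearMap.proj g).smulRight m'
  have hEv : ∀ f : G → k, Ev f = f g • m' := fun f => rfl
  have hh : Pol fun τ => lreg k G G (γ τ) s' * (lreg k G G (γ τ) x) ^ p :=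
    Pol.mul hs (Pol.frob p hx)
  have hF : ∀ τ, lreg k G Y' g⁻¹ (lreg k G Y' (γ τ) b) +
      (-Ev) (lreg k G G (γ τ) s' * (lreg k G G (γ τ) x) ^ p) ∈ P.low (lreg k G Y') e := by
    intro τ
    have h1 := h ((γ τ)⁻¹ * g)
    rw [mul_inv_rev, inv_inv, mul_app_b] at h1
    rw [LinearMap.neg_apply, hEv, ← sub_eq_add_neg]
    exact h1
  have h2 := cf_mem _ (Pol.add (hb.map (lreg k G Y' g⁻¹)) (hh.map (-Ev))) hF 1
  rw [cf_add (hb.map _) (hh.map _), cf_map hb, cf_map hh, cf_mul_one hs (Pol.frob p hx),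
    cf_frob p hx, cf_frob p hx, LinearMap.neg_apply, hEv, ← sub_eq_add_neg] at h2
  have hp1 : ¬ p ∣ 1 := fun h' => (Fact.out : p.Prime).one_lt.ne' (Nat.dvd_one.1 h')
  rw [if_neg hp1, if_pos (dvd_zero p), Nat.zero_div, cf_zero hx, mul_zero, add_zero] at h2
  rw [h0, one_app_b] at h2
  exact h2

theorem untwist [Fact p.Prime] [CharP k p] (hP : P.Ax) (hst : P.IsSt p z v s q)
    {M : Submodule k (Y → k)} (hM : P.RatOn (lreg k G Y) M)
    {M' : Submodule k (Y' → k)} (hM' : P.RatOn (lreg k G Y') M')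
    (σ : (Y' → k) →ₗ[k] (G × Y → k)) (h1 : ∀ φ ∈ M', σ φ ∈ bx (P.Ind z) (fr p M))
    (h2 : ∀ φ ∈ M', ∀ g, σ (lreg k G Y' g φ) = lreg k G (G × Y) g (σ φ))
    {m : Y → k} (hm : m ∈ M) {m' : Y' → k} (hm' : m' ∈ M') (h3 : σ m' = box v (m ^ p))
    {n : X} {x : G → k} (hx : x ∈ P.Ind n) (c : ℤ)
    (hex : ∀ s' ∈ P.Ind z, ∃ b ∈ M', ∀ g,
      lreg k G Y' g⁻¹ b - (s' g * x g ^ p) • m' ∈ P.low (lreg k G Y') (P.h z + p * c)) :
    ∃ a ∈ M, ∀ g, lreg k G Y g⁻¹ a - x g • m ∈ P.low (lreg k G Y) c := by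
  have hW : P.RatOn (lreg k G Y) (fr p M) := fr_rat p hP hM
  have hcr := cut_rat hP hM c
  have hB₀r : P.RatOn (lreg k G (G × Y)) (bx (P.Ind z) (fr p (P.cut (lreg k G Y) M c))) :=
    bx_rat hP (Ind_rat hP z) (fr_rat p hP hcr)
  have hWe : ∀ w ∈ fr p M, ∀ i, P.ep (lreg k G Y) i w = 0 := by
    intro w hw i
    obtain ⟨f, hf, rfl⟩ := (mem_fr p).1 hw
    exact dv_frob p (hM.pol_xp hf i)
  have hIr := Ind_rat hP z
  have hIn := Ind_rat hP n
  -- (0)
  have step0 : ∀ b ∈ M', Rl P (P.h z + p * c) p x m' 0 b →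
      σ b ∈ bx (P.Ind z) (fr p (P.cut (lreg k G Y) M c)) := by
    intro b hb hR
    refine low_cut hP hst hM (h1 b hb) fun g => ?_
    rw [← h2 b hb g]
    refine low_map hP (W := M') (fun t y hy => hM'.stable _ y hy) σ
      (fun y hy t => h2 y hy _) (hM'.stable g b hb) ?_
    have h4 := hR g⁻¹
    rw [inv_inv, Pi.zero_apply, zero_mul, zero_smul, sub_zero] at h4
    exact h4
  -- (2)
  obtain ⟨b₀, hb₀, hR₀⟩ := hex v hst.isV.1
  have hR₀' : Rl P (P.h z + p * c) p x m' v b₀ := hR₀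
  have hep : ∀ i, P.ep (lreg k G (G × Y)) i (σ b₀) ∈
      bx (P.Ind z) (fr p (P.cut (lreg k G Y) M c)) := by
    intro i
    have h4 : Rl P (P.h z + p * c) p x m' (P.ep (lreg k G G) i v) (P.ep (lreg k G Y') i b₀) :=
      Rl.dv (xp_zero i) (hM'.pol_xp hb₀ i) (hIr.pol_xp hst.isV.1 i) (hIn.pol_xp hx i) hR₀'
    have h5 : P.ep (lreg k G G) i v = 0 := dv_inv fun τ => by
      rw [← u_single i τ]
      exact hst.isV.inv hP _
    rw [h5] at h4
    have h6 := step0 _ (hM'.ep_mem hb₀ i) h4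
    have h7 : σ (P.ep (lreg k G Y') i b₀) = P.ep (lreg k G (G × Y)) i (σ b₀) :=
      dv_map (hM'.pol_xp hb₀ i) σ fun τ => h2 b₀ hb₀ _
    rw [← h7]
    exact h6
  obtain ⟨w, hw, hw2⟩ := ten_top hP hst hW hWe 
    (fr_mono p (show P.cut (lreg k G Y) M c ≤ M from fun _ hy => hy.1)) (h1 b₀ hb₀) hep
  obtain ⟨a, ha, rfl⟩ := (mem_fr p).1 hw
  refine ⟨a, ha, ?_⟩
  -- (3)
  have step3 : ∀ s' ∈ P.Ind z, ∀ b ∈ M', Rl P (P.h z + p * c) p x m' s' b →
      σ b - box s' (a ^ p) ∈ bx (P.Ind z) (fr p (P.cut (lreg k G Y) M c)) := by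
    let K : Submodule k (G → k) :=
      { carrier := {s' | s' ∈ P.Ind z ∧ ∀ b ∈ M', Rl P (P.h z + p * c) p x m' s' b →
          σ b - box s' (a ^ p) ∈ bx (P.Ind z) (fr p (P.cut (lreg k G Y) M c))}
        add_mem' := by
          rintro s₁ s₂ ⟨hs₁, h₁⟩ ⟨hs₂, h₂⟩
          refine ⟨add_mem hs₁ hs₂, fun b hb hR => ?_⟩
          obtain ⟨b₁, hb₁, hR₁⟩ := hex s₁ hs₁
          have hR₂ : Rl P (P.h z + p * c) p x m' s₂ (b - b₁) := by
            have := Rl.sub hR hR₁
            rwa [add_sub_cancel_left] at this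
          have h4 := add_mem (h₁ b₁ hb₁ hR₁) (h₂ _ (sub_mem hb hb₁) hR₂)
          have h5 : σ b - box (s₁ + s₂) (a ^ p) =
              (σ b₁ - box s₁ (a ^ p)) + (σ (b - b₁) - box s₂ (a ^ p)) := by
            have h6 : box (s₁ + s₂) (a ^ p) = box s₁ (a ^ p) + box s₂ (a ^ p) := by
              funext y
              simp only [box, Pi.add_apply]
              ring
            rw [map_sub, h6]
            abel
          rw [h5]
          exact h4
        zero_mem' := by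
          refine ⟨zero_mem _, fun b hb hR => ?_⟩
          have h6 : box (0 : G → k) (a ^ p) = 0 := by
            funext y
            simp only [box, Pi.zero_apply, zero_mul]
          rw [h6, sub_zero]
          exact step0 b hb hR
        smul_mem' := by
          rintro r s₁ ⟨hs₁, h₁⟩
          refine ⟨Submodule.smul_mem _ _ hs₁, fun b hb hR => ?_⟩
          obtain ⟨b₁, hb₁, hR₁⟩ := hex s₁ hs₁
          have hR₂ : Rl P (P.h z + p * c) p x m' 0 (b - r • b₁) := by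
            have := Rl.sub hR (Rl.smul r hR₁)
            rwa [sub_self] at this
          have h4 := add_mem (step0 _ (sub_mem hb (Submodule.smul_mem _ _ hb₁)) hR₂)
            (Submodule.smul_mem _ r (h₁ b₁ hb₁ hR₁))
          have h5 : σ b - box (r • s₁) (a ^ p) =
              σ (b - r • b₁) + r • (σ b₁ - box s₁ (a ^ p)) := by
            have h6 : box (r • s₁) (a ^ p) = r • box s₁ (a ^ p) := by
              funext y
              simp only [box, Pi.smul_apply, smul_eq_mul]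
              ring
            rw [map_sub, map_smul, h6, smul_sub]
            abel
          rw [h5]
          exact h4 }
    have hK : P.Ind z ≤ K := by
      refine hst.gen K ⟨hst.isV.1, fun b hb hR => ?_⟩ ?_
      · have hR₂ : Rl P (P.h z + p * c) p x m' 0 (b - b₀) := by
          have := Rl.sub hR hR₀'
          rwa [sub_self] at this
        have h4 := add_mem (step0 _ (sub_mem hb hb₀) hR₂) hw2
        rw [map_sub, sub_add_sub_cancel] at h4
        exact h4
      · rintro i s' ⟨hs', h4⟩ -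
        refine ⟨hIr.em_mem hs' i, fun b' hb' hR' => ?_⟩
        obtain ⟨b, hb, hR⟩ := hex s' hs'
        have hR₁ : Rl P (P.h z + p * c) p x m' (P.em (lreg k G G) i s')
            (P.em (lreg k G Y') i b) :=
          Rl.dv (xm_zero i) (hM'.pol_xm hb i) (hIr.pol_xm hs' i) (hIn.pol_xm hx i) hR
        have hR₂ : Rl P (P.h z + p * c) p x m' 0 (b' - P.em (lreg k G Y') i b) := by
          have := Rl.sub hR' hR₁
          rwa [sub_self] at this
        have h5 := step0 _ (sub_mem hb' (hM'.em_mem hb i)) hR₂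
        have h6 := hB₀r.em_mem (h4 b hb hR) i
        have h7 : σ (P.em (lreg k G Y') i b) = P.em (lreg k G (G × Y)) i (σ b) :=
          dv_map (hM'.pol_xm hb i) σ fun τ => h2 b hb _
        have hap : a ^ p ∈ fr p M := (mem_fr p).2 ⟨a, ha, rfl⟩
        have hbox : box s' (a ^ p) ∈ bx (P.Ind z) (fr p M) := box_mem hs' hap
        have hbr := bx_rat hP hIr hW
        have h8 : P.em (lreg k G (G × Y)) i (box s' (a ^ p)) =
            box (P.em (lreg k G G) i s') (a ^ p) := by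
          have h9 := dv_box (xm_zero i) (hIr.pol_xm hs' i) (hW.pol_xm hap i)
          have h10 : DM.dv (lreg k G Y) (P.xm i) (a ^ p) = 0 := dv_frob p (hM.pol_xm ha i)
          rw [h10] at h9
          have h11 : box s' (0 : Y → k) = 0 := by
            funext y
            simp only [box, Pi.zero_apply, mul_zero]
          rw [h11, add_zero] at h9
          exact h9
        have h12 : P.em (lreg k G (G × Y)) i (σ b) =
            P.em (lreg k G (G × Y)) i (σ b - box s' (a ^ p)) +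
              P.em (lreg k G (G × Y)) i (box s' (a ^ p)) := by
          have h13 := dv_add (ρ := lreg k G (G × Y)) (γ := P.xm i)
            (hbr.pol_xm (sub_mem (h1 b hb) hbox) i) (hbr.pol_xm hbox i)
          rw [sub_add_cancel] at h13
          exact h13
        have h14 : σ b' - box (P.em (lreg k G G) i s') (a ^ p) =
            σ (b' - P.em (lreg k G Y') i b) +
              P.em (lreg k G (G × Y)) i (σ b - box s' (a ^ p)) := by
          rw [map_sub, h7, h12, h8]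
          abel
        rw [h14]
        exact add_mem h5 h6
    exact fun s' hs' => (hK hs').2
  -- (4)
  intro g
  obtain ⟨b, hb, hR⟩ := hex (lreg k G G g v) (Ind_stable z g v hst.isV.1)
  have h4 := step3 _ (Ind_stable z g v hst.isV.1) b hb hR
  have h5 := hR g
  have h6 : lreg k G G g v g = 1 := by
    rw [lreg_apply, smul_eq_mul, inv_mul_cancel]
    exact hst.isV.one
  rw [h6, one_mul] at h5
  have h7 := low_map hP (W := M') (fun t y hy => hM'.stable _ y hy) σ
    (fun y hy t => h2 y hy _)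
    (sub_mem (hM'.stable g⁻¹ b hb) (Submodule.smul_mem _ (x g ^ p) hm')) h5
  rw [map_sub, map_smul, h3, h2 b hb] at h7
  have h8 := low_of_cut (c := c) hP (hB₀r.stable g⁻¹ _ h4)
  rw [map_sub, lreg_box, ← mul_app_b, inv_mul_cancel, one_app_b, lreg_pow] at h8
  have h9 := sub_mem h7 h8
  have h10 : lreg k G (G × Y) g⁻¹ (σ b) - x g ^ p • box v (m ^ p) -
      (lreg k G (G × Y) g⁻¹ (σ b) - box v (lreg k G Y g⁻¹ a ^ p)) =
      box v ((lreg k G Y g⁻¹ a - x g • m) ^ p) := by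
    rw [frob_sub p]
    funext y
    simp only [box, Pi.sub_apply, Pi.smul_apply, Pi.pow_apply, smul_eq_mul, mul_pow]
    ring
  rw [h10] at h9
  refine low_of_box hP p (hst.isV.wt hP) ?_
    (hM.wts (sub_mem (hM.stable g⁻¹ a ha) (Submodule.smul_mem _ _ hm))) h9
  intro h0
  have h11 := hst.isV.one
  rw [h0] at h11
  exact zero_ne_one h11

end PinData

end Pool.Agent.DM
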