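import Pool.Agent.DM.Core
import Pool.Agent.DM.Rep

/-!
# DM, module VInd: `V ⊗ Ind μ` as functions `G → V`
-/

set_option autoImplicit false

namespace Pool.Agent.DM

open MvPolynomial TensorProduct

variable {k : Type*} [Field k] {G : Type*} [Group G]
  {T : Type*} [CommGroup T] {X : Type*} [AddCommGroup X] (P : PinData k G T X)
  {V : Type*} [AddCommGroup V] [Module k V] (ρ : Representation k G V)

namespace PinData

/-- `ind(V ⊗ μ)`: functions `F : G → V` with `F(g b) = μ(b)⁻¹ b⁻¹ F(g)` for `b` in the negative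
Borel group, polynomial along all cosets `g U`. -/
def VI (μ : X) : Submodule k (G → V) where
  carrier := {F | (∀ g t b, F (g * (P.tor t * P.v b)) =
      (((P.ch μ t)⁻¹ : kˣ) : k) • ρ (P.tor t * P.v b)⁻¹ (F g)) ∧
    ∀ g, PolyMap fun c => F (g * P.u c)}
  add_mem' := by
    rintro F F' ⟨h1, h2⟩ ⟨h1', h2'⟩
    refine ⟨fun g t b => ?_, fun g => ?_⟩
    · rw [Pi.add_apply, Pi.add_apply, h1, h1', map_add, smul_add]
    · obtain ⟨r, Q, w, hw⟩ := h2 g
      obtain ⟨r', Q', w', hw'⟩ := h2' g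
      refine ⟨r + r', Fin.append Q Q', Fin.append w w', fun c => ?_⟩
      have e1 := hw c
      have e2 := hw' c
      simp only at e1 e2
      change F (g * P.u c) + F' (g * P.u c) = _
      rw [e1, e2, Fin.sum_univ_add]
      simp
  zero_mem' := ⟨fun g t b => by simp, fun g => ⟨0, Fin.elim0, Fin.elim0, fun c => by simp⟩⟩
  smul_mem' := by
    rintro a F ⟨h1, h2⟩
    refine ⟨fun g t b => ?_, fun g => ?_⟩
    · rw [Pi.smul_apply, Pi.smul_apply, h1, map_smul, smul_comm]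
    · obtain ⟨r, Q, w, hw⟩ := h2 g
      refine ⟨r, Q, fun j => a • w j, fun c => ?_⟩
      have e1 := hw c
      simp only at e1
      change a • F (g * P.u c) = _
      rw [e1, Finset.smul_sum]
      exact Finset.sum_congr rfl fun j _ => smul_comm _ _ _

variable {P ρ}

private theorem vi_app (ρ : Representation k G V) (g g' : G) (x : V) :
    ρ (g * g') x = ρ g (ρ g' x) := by
  rw [map_mul]
  rfl

private theorem vi_inv (ρ : Representation k G V) (g : G) (x : V) : ρ g (ρ g⁻¹ x) = x := by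
  rw [← vi_app, mul_inv_cancel, map_one]
  rfl

private theorem vi_inv' (ρ : Representation k G V) (g : G) (x : V) : ρ g⁻¹ (ρ g x) = x := by
  rw [← vi_app, inv_mul_cancel, map_one]
  rfl

private theorem vi_mem [Infinite k] (hP : P.Ax) (hρ : P.RatOn ρ ⊤) (μ : X) (x : V)
    {f : G → k} (hf : f ∈ P.Ind μ) : (fun g => f g • ρ g⁻¹ x) ∈ P.VI ρ μ := by
  refine ⟨fun g t b => ?_, fun g => ?_⟩
  · simp only
    rw [hf.1, mul_inv_rev, vi_app, map_smul, smul_smul]
  · have h1 := PolyMap.smul' (hf.2 g) (hρ.pu_inv hP (x := ρ g⁻¹ x) Submodule.mem_top)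
    have h2 : (fun c => f (g * P.u c) • ρ (g * P.u c)⁻¹ x) =
        fun c => f (g * P.u c) • ρ (P.u c)⁻¹ (ρ g⁻¹ x) := by
      funext c
      rw [mul_inv_rev, vi_app]
    rw [h2]
    exact h1

private theorem vi_mem' [Infinite k] (hρ : P.RatOn ρ ⊤) (μ : X) (φ : V →ₗ[k] k)
    {F : G → V} (hF : F ∈ P.VI ρ μ) : (fun g => φ (ρ g (F g))) ∈ P.Ind μ := by
  refine ⟨fun g t b => ?_, fun g => ?_⟩
  · simp only
    rw [hF.1, map_smul, map_smul, vi_app, vi_inv, smul_eq_mul]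
  · obtain ⟨r, Q, w, hw⟩ := hF.2 g
    have h1 : PolyMap fun c => ∑ j, eval c (Q j) • ρ (P.u c) (w j) :=
      PolyMap.sum Finset.univ fun j _ => (hρ.pu (w j) Submodule.mem_top).psmul (Q j)
    have h2 := (h1.map (ρ g)).map φ
    have h3 : (fun c => φ (ρ (g * P.u c) (F (g * P.u c)))) =
        fun c => φ (ρ g (∑ j, eval c (Q j) • ρ (P.u c) (w j))) := by
      funext c
      have e := hw c
      simp only at e
      rw [e, vi_app, map_sum]
      simp only [map_smul]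
    rw [h3]
    exact h2

/-- the map `V ⊗ Ind μ → VI μ` -/
private noncomputable def viF [Infinite k] (hP : P.Ax) (hρ : P.RatOn ρ ⊤) (μ : X) :
    V ⊗[k] P.Ind μ →ₗ[k] P.VI ρ μ :=
  TensorProduct.lift (LinearMap.mk₂ k
    (fun x (f : P.Ind μ) => (⟨fun g => (f : G → k) g • ρ g⁻¹ x, vi_mem hP hρ μ x f.2⟩ :
      P.VI ρ μ))
    (fun x y f => by
      apply Subtype.ext
      funext g
      change (f : G → k) g • ρ g⁻¹ (x + y) = (f : G → k) g • ρ g⁻¹ x + (f : G → k) g • ρ g⁻¹ y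
      rw [map_add, smul_add])
    (fun a x f => by
      apply Subtype.ext
      funext g
      change (f : G → k) g • ρ g⁻¹ (a • x) = a • ((f : G → k) g • ρ g⁻¹ x)
      rw [map_smul, smul_comm])
    (fun x f f' => by
      apply Subtype.ext
      funext g
      change ((f : G → k) g + (f' : G → k) g) • ρ g⁻¹ x = _
      rw [add_smul]
      rfl)
    (fun a x f => by
      apply Subtype.ext
      funext g
      change (a * (f : G → k) g) • ρ g⁻¹ x = a • ((f : G → k) g • ρ g⁻¹ x)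
      rw [mul_smul]))

private theorem viF_tmul [Infinite k] (hP : P.Ax) (hρ : P.RatOn ρ ⊤) (μ : X) (x : V)
    (f : P.Ind μ) (g : G) :
    (viF hP hρ μ (x ⊗ₜ f) : G → V) g = (f : G → k) g • ρ g⁻¹ x := rfl

/-- coordinates of `ρ g (F g)` -/
private noncomputable def viC [Infinite k] (hρ : P.RatOn ρ ⊤) (μ : X) (φ : V →ₗ[k] k) :
    P.VI ρ μ →ₗ[k] P.Ind μ where
  toFun F := ⟨fun g => φ (ρ g ((F : G → V) g)), vi_mem' hρ μ φ F.2⟩
  map_add' F F' := by
    apply Subtype.ext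
    funext g
    change φ (ρ g ((F : G → V) g + (F' : G → V) g)) =
      φ (ρ g ((F : G → V) g)) + φ (ρ g ((F' : G → V) g))
    rw [map_add, map_add]
  map_smul' a F := by
    apply Subtype.ext
    funext g
    change φ (ρ g (a • (F : G → V) g)) = a • φ (ρ g ((F : G → V) g))
    rw [map_smul, map_smul]

/-- the inverse map -/
private noncomputable def viG [Infinite k] (hρ : P.RatOn ρ ⊤) (μ : X) {ι : Type*} [Fintype ι]
    (b : Module.Basis ι k V) : P.VI ρ μ →ₗ[k] V ⊗[k] P.Ind μ :=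
  ∑ i, (TensorProduct.mk k V (P.Ind μ) (b i)).comp (viC hρ μ (b.coord i))

private theorem viG_apply [Infinite k] (hρ : P.RatOn ρ ⊤) (μ : X) {ι : Type*} [Fintype ι]
    (b : Module.Basis ι k V) (F : P.VI ρ μ) :
    viG hρ μ b F = ∑ i, b i ⊗ₜ[k] viC hρ μ (b.coord i) F := by
  unfold viG
  rw [LinearMap.sum_apply]
  rfl

/-- The isomorphism `V ⊗ Ind μ ≅ VI μ`, `x ⊗ f ↦ (g ↦ f(g) ρ(g⁻¹) x)`, and its equivariance:
`(h F)(g) = F(h⁻¹ g)`.
Membership: `f(g b) ρ(g b)⁻¹ x = μ(b)⁻¹ ρ(b⁻¹) (f(g) ρ(g⁻¹) x)`, and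
`c ↦ f(g u(c)) ρ(u c)⁻¹ ρ(g⁻¹) x` is polynomial (`pu_inv`).  Injectivity: write an element as
`∑ e_i ⊗ f_i` with a basis `e_i` of `V`; `∑ f_i(g) ρ(g⁻¹) e_i = 0` gives `f_i(g) = 0`.
Surjectivity: for `F ∈ VI μ` let `f_i(g)` be the coordinates of `ρ(g) F(g)`;
`ρ(g b) F(g b) = μ(b)⁻¹ ρ(g) F(g)`, and `c ↦ ρ(g) ρ(u c) F(g u(c))` is polynomial (expand
`F(g u(c)) = ∑ Q_j(c) y_j`, `hρ.pu`). -/
theorem exists_VI_equiv [Infinite k] [FiniteDimensional k V] (hP : P.Ax) (hρ : P.RatOn ρ ⊤)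
    (μ : X) :
    ∃ Ψ : V ⊗[k] P.Ind μ ≃ₗ[k] P.VI ρ μ,
      (∀ (x : V) (f : P.Ind μ) (g : G),
        (Ψ (x ⊗ₜ f) : G → V) g = (f : G → k) g • ρ g⁻¹ x) ∧
      ∀ (h g : G) (y : V ⊗[k] P.Ind μ),
        (Ψ ((ρ.tprod (P.indRep μ)) h y) : G → V) g = (Ψ y : G → V) (h⁻¹ * g) := by
  classical
  let b := Module.finBasis k V
  refine ⟨LinearEquiv.ofLinearMap (viF hP hρ μ) (viG hρ μ b) ?_ ?_, fun x f g => rfl, ?_⟩
  · apply LinearMap.ext
    intro F
    apply Subtype.ext
    funext g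
    rw [LinearMap.comp_apply, viG_apply, map_sum, AddSubmonoidClass.coe_finsetSum,
      Finset.sum_apply]
    have h1 : ∀ i, (viF hP hρ μ (b i ⊗ₜ[k] viC hρ μ (b.coord i) F) : G → V) g =
        ρ g⁻¹ (b.repr (ρ g ((F : G → V) g)) i • b i) := by
      intro i
      rw [viF_tmul, map_smul]
      rfl
    rw [Finset.sum_congr rfl fun i _ => h1 i, ← map_sum, b.sum_repr, vi_inv']
    rfl
  · apply TensorProduct.ext'
    intro x f
    rw [LinearMap.comp_apply, viG_apply, LinearMap.id_apply]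
    have h1 : ∀ i, viC hρ μ (b.coord i) (viF hP hρ μ (x ⊗ₜ[k] f)) = b.repr x i • f := by
      intro i
      apply Subtype.ext
      funext g
      change b.coord i (ρ g ((f : G → k) g • ρ g⁻¹ x)) = b.repr x i * (f : G → k) g
      rw [map_smul, map_smul, vi_inv, smul_eq_mul, mul_comm]
      rfl
    have h2 : ∀ i, b i ⊗ₜ[k] viC hρ μ (b.coord i) (viF hP hρ μ (x ⊗ₜ[k] f)) =
        (b.repr x i • b i) ⊗ₜ[k] f := by
      intro i
      rw [h1 i, TensorProduct.tmul_smul, TensorProduct.smul_tmul']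
    rw [Finset.sum_congr rfl fun i _ => h2 i, ← TensorProduct.sum_tmul, b.sum_repr]
  · intro h g y
    change (viF hP hρ μ ((ρ.tprod (P.indRep μ)) h y) : G → V) g =
      (viF hP hρ μ y : G → V) (h⁻¹ * g)
    induction y using TensorProduct.induction_on with
    | zero =>
      rw [map_zero, map_zero]
      rfl
    | tmul x f =>
      rw [Representation.tprod_apply, TensorProduct.map_tmul, viF_tmul, viF_tmul, indRep_coe,
        ← vi_app, mul_inv_rev, inv_inv]
      rfl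
    | add y y' hy hy' =>
      rw [map_add, map_add, map_add]
      change (viF hP hρ μ ((ρ.tprod (P.indRep μ)) h y) : G → V) g +
        (viF hP hρ μ ((ρ.tprod (P.indRep μ)) h y') : G → V) g =
        (viF hP hρ μ y : G → V) (h⁻¹ * g) + (viF hP hρ μ y' : G → V) (h⁻¹ * g)
      rw [hy, hy']

end PinData

end Pool.Agent.DM
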