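import Pool.Agent.DM.Theta
import Pool.Agent.DM.VInd
import Pool.Agent.DM.Mult

/-!
# DM, module VSurj: surjectivity of `ind(E ⊗ (m+D) z) → Ind(e + (m+D) z)` for large twists

Situation of module Theta.  Let `j`, `Θ` be as in `exists_theta`, and for `m : ℕ` let `I_m` be the
space of functions `g ↦ lam (F g)`, `F ∈ VI (m z)` with values in `E`.
* `I_m` is stable under left translations.
* `y · I_m ⊆ I_(m+m')` for `y ∈ Ind (m' z)` (multiply `F` by the scalar function `y`).
* `I_m ⊆ Ind (e + m z)`: `lam(F(g b)) = (ch (m z) t)⁻¹ lam(ρ(b⁻¹) F(g)) = (ch (e + m z) t)⁻¹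
  lam(F g)` for `b = tor t * v b'` (apply `h2` to `ρ(b⁻¹) F(g)`).
* if `x ∈ Ind (e + m z)` then `v^j x ∈ I_(m+j)`: `F = x Θ` satisfies
  `F(g b) = (ch (e + m z + j z - e) t)⁻¹ ρ(b⁻¹) F(g)`, and `lam F = x v^j`.
  With translations: `(lreg(g) v)^j x ∈ I_(m+j)` for all `g`.
* `Ind z` is spanned by the translates of `v` (`IsSt.gen`: `Lsp v` is stable under `em`, `dv_mem`);
  let `g_1 v, …, g_r v` be a basis, `D = r j`.  `(Ind z)^D` is spanned by the monomials of
  degree `D` in the `g_i v`, each contains some `(g_i v)^j` (if `j > 0`; if `j = 0` trivial), so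
  `(Ind z)^D · Ind (e + m z) ⊆ I_(m+D)` (the remaining `D - j` factors are in `Ind((D-j) z)`).
* if `Ind (e + m z)` has a highest weight vector then by `mult_surj` (repeatedly)
  `(Ind z)^D · Ind (e + m z) = Ind (e + (m + D) z)`.
So `I_(m+D) = Ind (e + (m+D) z)`.
-/

set_option autoImplicit false

namespace Pool.Agent.DM

open MvPolynomial

variable {k : Type*} [Field k] [IsAlgClosed k] [Infinite k] {G : Type*} [Group G]
  {T : Type*} [CommGroup T] {X : Type*} [AddCommGroup X] {P : PinData k G T X}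
  {z : X} {p : ℕ} {V : Type*} [AddCommGroup V] [Module k V] {ρ : Representation k G V}

namespace PinData

/-- The functions `g ↦ lam (F g)`, `F ∈ VI (m z)` with values in `E`. -/
private noncomputable def vsI (P : PinData k G T X) (ρ : Representation k G V) (z : X)
    (E : Submodule k V) (lam : V →ₗ[k] k) (m : ℕ) : Submodule k (G → k) where
  carrier := {x | ∃ F ∈ P.VI ρ (m • z), (∀ g, F g ∈ E) ∧ ∀ g, lam (F g) = x g}
  add_mem' := by
    rintro x x' ⟨F, hF, hE, hx⟩ ⟨F', hF', hE', hx'⟩
    exact ⟨F + F', add_mem hF hF', fun g => add_mem (hE g) (hE' g), fun g => by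
      rw [Pi.add_apply, map_add, hx, hx', Pi.add_apply]⟩
  zero_mem' := ⟨0, zero_mem _, fun g => zero_mem _, fun g => by
    rw [Pi.zero_apply, map_zero, Pi.zero_apply]⟩
  smul_mem' := by
    rintro a x ⟨F, hF, hE, hx⟩
    exact ⟨a • F, Submodule.smul_mem _ _ hF, fun g => Submodule.smul_mem _ _ (hE g), fun g => by
      rw [Pi.smul_apply, map_smul, hx, Pi.smul_apply]⟩

omit [IsAlgClosed k] [Infinite k] in
private theorem vsI_lreg {E : Submodule k V} {lam : V →ₗ[k] k} {m : ℕ} {x : G → k}
    (hx : x ∈ vsI P ρ z E lam m) (h : G) : lreg k G G h x ∈ vsI P ρ z E lam m := by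
  obtain ⟨F, hF, hE, hx⟩ := hx
  refine ⟨fun g => F (h⁻¹ * g), ⟨fun g t b => ?_, fun g => ?_⟩, fun g => hE _, fun g => ?_⟩
  · change F (h⁻¹ * (g * (P.tor t * P.v b))) = _
    rw [← mul_assoc h⁻¹, hF.1]
  · have h1 := hF.2 (h⁻¹ * g)
    have h2 : (fun c => (fun g => F (h⁻¹ * g)) (g * P.u c)) = fun c => F (h⁻¹ * g * P.u c) := by
      funext c
      change F (h⁻¹ * (g * P.u c)) = _
      rw [mul_assoc]
    rw [h2]
    exact h1
  · rw [hx]
    rfl

omit [IsAlgClosed k] [Infinite k] in
private theorem vsI_mul (hP : P.Ax) {E : Submodule k V} {lam : V →ₗ[k] k} {m m' : ℕ}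
    {x y : G → k} (hx : x ∈ vsI P ρ z E lam m) (hy : y ∈ P.Ind (m' • z)) :
    x * y ∈ vsI P ρ z E lam (m + m') := by
  obtain ⟨F, hF, hE, hx⟩ := hx
  refine ⟨fun g => y g • F g, ⟨fun g t b => ?_, fun g => ?_⟩, fun g => E.smul_mem _ (hE g),
    fun g => ?_⟩
  · beta_reduce
    rw [hF.1, hy.1, add_smul, hP.ch_add, mul_inv, Units.val_mul, map_smul, smul_smul, smul_smul]
    congr 1
    ring
  · exact PolyMap.smul' (hy.2 g) (hF.2 g)
  · rw [map_smul, hx, Pi.mul_apply, smul_eq_mul, mul_comm]

omit [IsAlgClosed k] in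
private theorem vs_prod (hP : P.Ax) {ι : Type*} (s : Finset ι) (f : ι → G → k)
    (hf : ∀ i ∈ s, f i ∈ P.Ind z) : ∏ i ∈ s, f i ∈ P.Ind (s.card • z) := by
  classical
  induction s using Finset.induction_on with
  | empty =>
    rw [Finset.prod_empty, Finset.card_empty, zero_smul]
    exact Ind_one hP
  | insert i s hi ih =>
    rw [Finset.prod_insert hi, Finset.card_insert_of_notMem hi, add_smul, one_smul, add_comm]
    exact Ind_mul hP (hf i (Finset.mem_insert_self i s))
      (ih fun i' hi' => hf i' (Finset.mem_insert_of_mem hi'))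

omit [IsAlgClosed k] [Infinite k] in
private theorem vs_lsp {v f : G → k} (hf : f ∈ Lsp v) (g : G) : lreg k G G g f ∈ Lsp v := by
  unfold Lsp at hf ⊢
  induction hf using Submodule.span_induction with
  | mem x hx =>
    obtain ⟨g', rfl⟩ := hx
    refine Submodule.subset_span ⟨g * g', ?_⟩
    simp only
    rw [map_mul]
    rfl
  | zero => rw [map_zero]; exact zero_mem _
  | add x y _ _ hx hy => rw [map_add]; exact add_mem hx hy
  | smul a x _ hx => rw [map_smul]; exact Submodule.smul_mem _ _ hx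

private theorem vs_pow (hP : P.Ax) [Fact p.Prime] [CharP k p] (hz : P.Stz p z) {v : G → k}
    (hv : P.IsV z v) {l : X} {vl : G → k} (hl : P.IsV l vl) (D : ℕ) :
    P.Ind z ^ D * P.Ind l = P.Ind (l + D • z) := by
  induction D with
  | zero => rw [pow_zero, one_mul, zero_smul, add_zero]
  | succ D ih =>
    rw [pow_succ', mul_assoc, ih, mult_surj hP hz hv (hl.mul hP (hv.pow hP D))]
    congr 1
    rw [succ_nsmul]
    abel

theorem VI_surj [Fact p.Prime] [CharP k p] (hP : P.Ax) (hz : P.Stz p z) (hE2 : P.Ext2)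
    (hρ : P.RatOn ρ ⊤) (E : Submodule k V)
    (hE : ∀ t b, ∀ y ∈ E, ρ (P.tor t * P.v b) y ∈ E) {e : X} {x₀ : V} (hx : x₀ ∈ E)
    (hw : x₀ ∈ P.wt ρ e) (lam : V →ₗ[k] k) (h1 : lam x₀ = 1)
    (h2 : ∀ y ∈ E, ∀ t b, lam (ρ (P.tor t * P.v b) y) = ((P.ch e t : kˣ) : k) * lam y) :
    ∃ D : ℕ, ∀ m : ℕ, P.Dom (e + m • z) → ∀ x ∈ P.Ind (e + (m + D) • z),
      ∃ F ∈ P.VI ρ ((m + D) • z), (∀ g, F g ∈ E) ∧ ∀ g, lam (F g) = x g := by
  classical
  obtain ⟨v, s, q, hst⟩ := exists_st hP hz
  have hv := hst.isV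
  obtain ⟨j, Θ, hΘE, hΘlam, hΘb, hΘp⟩ := exists_theta hP hz hE2 hρ hv E hE hx hw lam h1 h2
  -- powers of `v`
  have key : ∀ (m : ℕ) (x : G → k), x ∈ P.Ind (e + m • z) →
      v ^ j * x ∈ vsI P ρ z E lam (m + j) := by
    intro m x hx
    refine ⟨fun g => x g • Θ g, ⟨fun g t b => ?_, fun g => ?_⟩, fun g => E.smul_mem _ (hΘE g),
      fun g => ?_⟩
    · beta_reduce
      rw [hΘb, hx.1, map_smul, smul_smul, smul_smul]
      congr 1
      have e1 : (m + j) • z = (e + m • z) + (j • z - e) := by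
        rw [add_smul]
        abel
      rw [e1, hP.ch_add (e + m • z) (j • z - e), mul_inv, Units.val_mul]
      ring
    · exact PolyMap.smul' (hx.2 g) (hΘp g)
    · rw [map_smul, hΘlam, Pi.mul_apply, Pi.pow_apply, smul_eq_mul, mul_comm]
  have key2 : ∀ (m : ℕ) (x : G → k), x ∈ P.Ind (e + m • z) → ∀ g,
      (lreg k G G g v) ^ j * x ∈ vsI P ρ z E lam (m + j) := by
    intro m x hx g
    have h3 := vsI_lreg (key m (lreg k G G g⁻¹ x) (Ind_stable _ _ _ hx)) g
    have h4 : lreg k G G g (v ^ j * lreg k G G g⁻¹ x) = (lreg k G G g v) ^ j * x := by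
      rw [lreg_mul, lreg_pow]
      congr 1
      funext y
      rw [lreg_apply, lreg_apply, smul_eq_mul, smul_eq_mul, inv_inv, mul_inv_cancel_left]
    rwa [h4] at h3
  -- `Ind z` is spanned by finitely many translates of `v`
  have hspan : P.Ind z = Lsp v := by
    refine le_antisymm ?_ ?_
    · refine hst.gen (Lsp v) ?_ ?_
      · refine Submodule.subset_span ⟨1, ?_⟩
        simp only
        rw [map_one]
        rfl
      · intro i f hf hfz
        exact dv_mem _ ((Ind_rat hP z).pol_xm hfz i) fun s => vs_lsp hf _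
    · refine Submodule.span_le.2 ?_
      rintro _ ⟨g, rfl⟩
      exact Ind_stable z g _ hv.1
  have := Ind_fin hP z
  have hfg : (P.Ind z).FG := Module.Finite.iff_fg.1 inferInstance
  have hfg' : (Submodule.span k (Set.range fun g => lreg k G G g v)).FG := by
    have := hfg
    rwa [hspan] at this
  obtain ⟨S, hS1, hS2⟩ := (Submodule.fg_span_iff_fg_span_finset_subset _).1 hfg'
  have hS3 : P.Ind z = Submodule.span k (S : Set (G → k)) := hspan.trans hS2
  have hSz : ∀ y ∈ S, y ∈ P.Ind z := fun y hy => by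
    rw [hS3]
    exact Submodule.subset_span hy
  have hSne : S.Nonempty := by
    rw [Finset.nonempty_iff_ne_empty]
    rintro rfl
    have h3 : v ∈ P.Ind z := hv.1
    rw [hS3, Finset.coe_empty, Submodule.span_empty, Submodule.mem_bot] at h3
    have h4 := hv.one
    rw [h3, Pi.zero_apply] at h4
    exact zero_ne_one h4
  -- monomials
  have hmon : ∀ (m : ℕ) (x : G → k), x ∈ P.Ind (e + m • z) →
      ∀ f : Fin (S.card * j) → (S : Set (G → k)),
        (∏ i, (f i : G → k)) * x ∈ vsI P ρ z E lam (m + S.card * j) := by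
    intro m x hx f
    obtain ⟨y, hy, hcard⟩ := Finset.exists_le_card_fiber_of_mul_le_card_of_maps_to
      (s := (Finset.univ : Finset (Fin (S.card * j)))) (t := S)
      (f := fun i => (f i : G → k)) (fun i _ => (f i).2) hSne (n := j) (by
        rw [Finset.card_univ, Fintype.card_fin])
    obtain ⟨g, hg⟩ := hS1 hy
    simp only at hg
    set A := Finset.univ.filter (fun i => (f i : G → k) = y) with hA
    set B := Finset.univ.filter (fun i => ¬ (f i : G → k) = y) with hB
    have h3 : ∏ i, (f i : G → k) = (∏ i ∈ A, (f i : G → k)) * ∏ i ∈ B, (f i : G → k) :=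
      (Finset.prod_filter_mul_prod_filter_not _ _ _).symm
    have h4 : ∏ i ∈ A, (f i : G → k) = y ^ A.card := by
      rw [Finset.prod_congr rfl (fun i hi => (Finset.mem_filter.1 hi).2), Finset.prod_const]
    have h5 : A.card + B.card = S.card * j := by
      have := Finset.card_filter_add_card_filter_not (s := (Finset.univ : Finset (Fin (S.card * j))))
        (fun i => (f i : G → k) = y)
      rw [Finset.card_univ, Fintype.card_fin] at this
      exact this
    have h6 : (y ^ j * x) * (y ^ (A.card - j) * ∏ i ∈ B, (f i : G → k)) ∈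
        vsI P ρ z E lam ((m + j) + (A.card - j + B.card)) := by
      refine vsI_mul hP ?_ ?_
      · rw [← hg]
        exact key2 m x hx g
      · rw [add_smul]
        exact Ind_mul hP (Ind_pow hP (hSz y hy) _) (vs_prod hP B _ fun i _ => hSz _ (f i).2)
    have h7 : m + j + (A.card - j + B.card) = m + S.card * j := by omega
    have h8 : (y ^ j * x) * (y ^ (A.card - j) * ∏ i ∈ B, (f i : G → k)) =
        (∏ i, (f i : G → k)) * x := by
      rw [h3, h4]
      have h9 : y ^ A.card = y ^ j * y ^ (A.card - j) := by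
        rw [← pow_add]
        congr 1
        omega
      rw [h9]
      ring
    rwa [h7, h8] at h6
  refine ⟨S.card * j, fun m hdom x hx => ?_⟩
  obtain ⟨vm, hvm⟩ := exists_isV_of_dom hP hdom
  have h3 := vs_pow hP hz hv hvm (S.card * j)
  have h4 : e + m • z + (S.card * j) • z = e + (m + S.card * j) • z := by
    rw [add_smul m]
    abel
  rw [h4] at h3
  have h5 : P.Ind z ^ (S.card * j) * P.Ind (e + m • z) ≤ vsI P ρ z E lam (m + S.card * j) := by
    refine Submodule.mul_le.2 fun w hw' x hx => ?_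
    have h6 : P.Ind z ^ (S.card * j) ≤
        (vsI P ρ z E lam (m + S.card * j)).comap (LinearMap.mulRight k x) := by
      rw [hS3, Submodule.span_pow, Submodule.span_le]
      intro w hw
      obtain ⟨f, hf⟩ := Set.mem_pow.1 hw
      have h7 := hmon m x hx f
      rw [List.prod_ofFn] at hf
      rw [hf] at h7
      exact h7
    exact h6 hw'
  rw [← h3] at hx
  exact h5 hx

end PinData

end Pool.Agent.DM
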