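import Mathlib

/-!
# DM, module Vert: an extremal vector in a set of pairwise non-proportional vectors

Proof of `exists_isolated`, induction on the number of elements of `S`.  Call `a ∈ S` isolated in
`S` if `∑_(i∈S) B_i r_i = n r_a` (`B_i ≥ 0`, `n ≥ 0`) implies `B_i = 0` for `i ≠ a`.  If `S = {a}`
then `a` is isolated.  Otherwise pick `a' ∈ S`; if it is not isolated there are `n, B` with
`∑_(i∈S) B_i r_i = n r_a'` and `B_(i₀) ≠ 0` for an `i₀ ≠ a'`.  If `B_a' ≥ n` then
`∑_(i≠a') B_i r_i + (B_a' - n) r_a' = 0`, and applying `h` gives a contradiction.  So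
`n' = n - B_a' > 0` and `n' r_a' = ∑_(i≠a') B_i r_i`.  Let `a` be isolated in `S \ {a'}`.  Then `a`
is isolated in `S`: if `∑_(i∈S) C_i r_i = m r_a`, multiply by `n'`:
`n' m r_a = ∑_(i≠a') (n' C_i + C_a' B_i) r_i`, so `n' C_i + C_a' B_i = 0` for `i ≠ a, a'`, hence
`C_i = 0` and `C_a' B_i = 0` for these `i`.  If `C_a' ≠ 0` then `B_i = 0` for all `i ≠ a, a'` and
`n' r_a' = B_a r_a`, so `a' = a` by `hred`, a contradiction.  So `C_a' = 0`.
-/

set_option autoImplicit false

namespace Pool.Agent.DM

theorem exists_isolated {X ι : Type*} [AddCommGroup X] (r : ι → X) (h : X →+ ℤ)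
    (hpos : ∀ i, 0 < h (r i))
    (hred : ∀ i j (m n : ℕ), 0 < m → m • r i = n • r j → i = j) (S : Finset ι)
    (hS : S.Nonempty) :
    ∃ a ∈ S, ∀ (n : ℕ) (B : ι → ℕ), ∑ i ∈ S, B i • r i = n • r a → ∀ i ∈ S, i ≠ a → B i = 0 := by
  classical
  induction S using Finset.induction_on with
  | empty => exact absurd hS Finset.not_nonempty_empty
  | insert a' S ha' ih =>
    rcases S.eq_empty_or_nonempty with rfl | hS'
    · refine ⟨a', Finset.mem_insert_self _ _, fun n B _ i hi hia => ?_⟩
      rw [Finset.mem_insert] at hi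
      rcases hi with hi | hi
      · exact absurd hi hia
      · exact absurd hi (Finset.notMem_empty i)
    by_cases hiso : ∀ (n : ℕ) (B : ι → ℕ), ∑ i ∈ insert a' S, B i • r i = n • r a' →
        ∀ i ∈ insert a' S, i ≠ a' → B i = 0
    · exact ⟨a', Finset.mem_insert_self _ _, hiso⟩
    push Not at hiso
    obtain ⟨n, B, hB, i₀, hi₀, hi₀a, hBi₀⟩ := hiso
    have hi₀S : i₀ ∈ S := by
      rcases Finset.mem_insert.1 hi₀ with h1 | h1
      · exact absurd h1 hi₀a
      · exact h1
    rw [Finset.sum_insert ha'] at hB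
    -- heights
    have hsum : 0 < ∑ i ∈ S, (B i : ℤ) * h (r i) := by
      have h1 : 0 < (B i₀ : ℤ) * h (r i₀) := mul_pos (by exact_mod_cast Nat.pos_of_ne_zero hBi₀)
        (hpos i₀)
      exact lt_of_lt_of_le h1 (Finset.single_le_sum
        (f := fun i => (B i : ℤ) * h (r i))
        (fun i _ => mul_nonneg (Nat.cast_nonneg _) (hpos i).le) hi₀S)
    have hht := congrArg h hB
    simp only [map_add, map_nsmul, map_sum, nsmul_eq_mul] at hht
    have hn : B a' < n := by
      have h1 : (B a' : ℤ) * h (r a') < (n : ℤ) * h (r a') := by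
        rw [← hht]
        linarith
      have h2 := lt_of_mul_lt_mul_right h1 (hpos a').le
      exact_mod_cast h2
    obtain ⟨n', rfl⟩ := Nat.exists_eq_add_of_lt hn
    have hn' : ∑ i ∈ S, B i • r i = (n' + 1) • r a' := by
      have h1 : (B a' + n' + 1) • r a' = B a' • r a' + (n' + 1) • r a' := by
        rw [← add_nsmul, add_assoc]
      rw [h1] at hB
      exact add_left_cancel hB
    obtain ⟨a, ha, hai⟩ := ih hS'
    refine ⟨a, Finset.mem_insert_of_mem ha, fun m C hC => ?_⟩
    have haa' : a ≠ a' := fun e => ha' (e ▸ ha)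
    rw [Finset.sum_insert ha'] at hC
    have h1 : ∑ i ∈ S, ((n' + 1) * C i + C a' * B i) • r i = ((n' + 1) * m) • r a := by
      have h2 : (n' + 1) • (C a' • r a' + ∑ i ∈ S, C i • r i) = (n' + 1) • (m • r a) := by
        rw [hC]
      rw [smul_add, smul_comm (n' + 1) (C a') (r a'), ← hn', Finset.smul_sum, Finset.smul_sum,
        ← Finset.sum_add_distrib, ← mul_nsmul'] at h2
      rw [← h2]
      refine Finset.sum_congr rfl fun i _ => ?_
      rw [add_nsmul, mul_nsmul', mul_nsmul', add_comm]
    have h2 := hai _ _ h1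
    have hCz : C a' = 0 := by
      by_contra hne
      have hBz : ∀ i ∈ S, i ≠ a → B i = 0 := by
        intro i hi hia
        have h3 := h2 i hi hia
        have h4 : C a' * B i = 0 := by omega
        exact (Nat.mul_eq_zero.1 h4).resolve_left hne
      have h3 : ∑ i ∈ S, B i • r i = B a • r a := by
        refine Finset.sum_eq_single a (fun i hi hia => ?_) (fun h' => absurd ha h')
        rw [hBz i hi hia, zero_nsmul]
      rw [hn'] at h3
      exact haa' (hred a' a (n' + 1) (B a) (Nat.succ_pos _) h3).symm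
    intro i hi hia
    rcases Finset.mem_insert.1 hi with h3 | h3
    · rw [h3]; exact hCz
    · have h4 := h2 i h3 hia
      have h5 : (n' + 1) * C i = 0 := by omega
      exact (Nat.mul_eq_zero.1 h5).resolve_left (Nat.succ_ne_zero _)

end Pool.Agent.DM
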