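import Pool.Agent.DM.Grp

/-!
# DM, module Wt: weight spaces

Independence of weight spaces: distinct characters `T → kˣ → k` are linearly independent
(`linearIndependent_monoidHom`), `P.ch` is injective.
-/

set_option autoImplicit false

namespace Pool.Agent.DM

variable {k : Type*} [Field k] {G : Type*} [Group G] {T : Type*} [CommGroup T]
  {X : Type*} [AddCommGroup X] {P : PinData k G T X}
  {V : Type*} [AddCommGroup V] [Module k V] {ρ : Representation k G V}
  {V' : Type*} [AddCommGroup V'] [Module k V'] {ρ' : Representation k G V'}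

namespace PinData

/-- The weight components of a vector in a `T`-stable subspace lie in the subspace.
Proof: induction on `F`: for `l ≠ m` choose `t` with `ch l t ≠ ch m t` and consider
`ρ(t) y - ch(l)(t) y`. -/
theorem wt_comp (hP : P.Ax) {W : Submodule k V} (hW : ∀ t, ∀ y ∈ W, ρ (P.tor t) y ∈ W)
    {F : Finset X} {x : X → V} (hx : ∀ l ∈ F, x l ∈ P.wt ρ l) (h : ∑ l ∈ F, x l ∈ W) :
    ∀ l ∈ F, x l ∈ W := by
  classical
  induction F using Finset.induction_on generalizing x with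
  | empty =>
    intro l hl
    exact absurd hl (Finset.notMem_empty l)
  | insert a F ha ih =>
    have key : ∀ l ∈ F, x l ∈ W := by
      intro l hl
      have hne : l ≠ a := fun e => ha (e ▸ hl)
      obtain ⟨t, ht⟩ : ∃ t, P.ch l t ≠ P.ch a t := by
        by_contra hcon
        push Not at hcon
        exact hne (hP.ch_inj (MonoidHom.ext hcon))
      have h1 : ∀ m ∈ F, (((P.ch m t : kˣ) : k) - ((P.ch a t : kˣ) : k)) • x m ∈ P.wt ρ m :=
        fun m hm => Submodule.smul_mem _ _ (hx m (Finset.mem_insert_of_mem hm))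
      have h2 : ∑ m ∈ F, (((P.ch m t : kˣ) : k) - ((P.ch a t : kˣ) : k)) • x m ∈ W := by
        have e : ∑ m ∈ F, (((P.ch m t : kˣ) : k) - ((P.ch a t : kˣ) : k)) • x m =
            ρ (P.tor t) (∑ m ∈ insert a F, x m) -
              ((P.ch a t : kˣ) : k) • ∑ m ∈ insert a F, x m := by
          rw [Finset.sum_insert ha, map_add, map_sum, smul_add, Finset.smul_sum,
            hx a (Finset.mem_insert_self a F) t]
          have e2 : ∑ m ∈ F, ρ (P.tor t) (x m) = ∑ m ∈ F, ((P.ch m t : kˣ) : k) • x m :=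
            Finset.sum_congr rfl fun m hm => hx m (Finset.mem_insert_of_mem hm) t
          rw [e2, add_sub_add_left_eq_sub, ← Finset.sum_sub_distrib]
          exact Finset.sum_congr rfl fun m _ => sub_smul _ _ _
        rw [e]
        exact sub_mem (hW t _ h) (Submodule.smul_mem _ _ h)
      have h3 := ih h1 h2 l hl
      have hc : ((P.ch l t : kˣ) : k) - ((P.ch a t : kˣ) : k) ≠ 0 := by
        intro e
        exact ht (Units.ext (sub_eq_zero.1 e))
      have h4 := Submodule.smul_mem W (((P.ch l t : kˣ) : k) - ((P.ch a t : kˣ) : k))⁻¹ h3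
      rwa [smul_smul, inv_mul_cancel₀ hc, one_smul] at h4
    intro l hl
    rcases Finset.mem_insert.1 hl with rfl | hl'
    · rw [Finset.sum_insert ha] at h
      have h5 : ∑ m ∈ F, x m ∈ W := Submodule.sum_mem _ key
      have h6 := sub_mem h h5
      rwa [add_sub_cancel_right] at h6
    · exact key l hl'

/-- Weight spaces are independent (`wt_comp` with `W = 0`). -/
theorem wt_indep (hP : P.Ax) {F : Finset X} {x : X → V} (hx : ∀ l ∈ F, x l ∈ P.wt ρ l)
    (h : ∑ l ∈ F, x l = 0) : ∀ l ∈ F, x l = 0 := by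
  intro l hl
  have := wt_comp (ρ := ρ) hP (W := ⊥) (fun t y hy => by
    rw [(Submodule.mem_bot k).1 hy, map_zero]
    exact zero_mem _) hx (by rw [h]; exact zero_mem _) l hl
  exact (Submodule.mem_bot k).1 this

theorem mem_low_iff {c : ℤ} {x : V} : x ∈ P.low ρ c ↔ ∃ (F : Finset X) (y : X → V),
    (∀ l ∈ F, P.h l < c ∧ y l ∈ P.wt ρ l) ∧ x = ∑ l ∈ F, y l := by
  constructor
  · intro hx
    unfold low at hx
    obtain ⟨f, hf, hs⟩ := (Submodule.mem_iSup_iff_exists_finsupp _ _).1 hx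
    refine ⟨f.support, f, fun l hl => ?_, hs.symm⟩
    have hl0 : f l ≠ 0 := Finsupp.mem_support_iff.1 hl
    have h1 := hf l
    by_cases hc : P.h l < c
    · rw [iSup_pos hc] at h1
      exact ⟨hc, h1⟩
    · rw [iSup_neg hc] at h1
      exact absurd ((Submodule.mem_bot k).1 h1) hl0
  · rintro ⟨F, y, hy, rfl⟩
    refine Submodule.sum_mem _ fun l hl => ?_
    exact Submodule.mem_iSup_of_mem l (Submodule.mem_iSup_of_mem (hy l hl).1 (hy l hl).2)

theorem mem_iSup_wt {x : V} (hx : x ∈ ⨆ l, P.wt ρ l) :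
    ∃ (F : Finset X) (y : X → V), (∀ l ∈ F, y l ∈ P.wt ρ l) ∧ x = ∑ l ∈ F, y l := by
  obtain ⟨f, hf, hs⟩ := (Submodule.mem_iSup_iff_exists_finsupp _ _).1 hx
  exact ⟨f.support, f, fun l _ => hf l, hs.symm⟩

/-- The components of a vector of `low c` have height less than `c`. -/
theorem low_comp (hP : P.Ax) {c : ℤ} {F : Finset X} {x : X → V} (hx : ∀ l ∈ F, x l ∈ P.wt ρ l)
    (h : ∑ l ∈ F, x l ∈ P.low ρ c) : ∀ l ∈ F, x l ≠ 0 → P.h l < c := by
  classical
  obtain ⟨F', y, hy, hs⟩ := mem_low_iff.1 h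
  have hz : ∑ l ∈ F ∪ F', ((if l ∈ F then x l else 0) - (if l ∈ F' then y l else 0)) = 0 := by
    rw [Finset.sum_sub_distrib, ← Finset.sum_filter, ← Finset.sum_filter]
    have e1 : (F ∪ F').filter (fun l => l ∈ F) = F := by
      ext l
      simp only [Finset.mem_filter, Finset.mem_union]
      tauto
    have e2 : (F ∪ F').filter (fun l => l ∈ F') = F' := by
      ext l
      simp only [Finset.mem_filter, Finset.mem_union]
      tauto
    rw [e1, e2, hs, sub_self]
  have hind := wt_indep (ρ := ρ) hP (F := F ∪ F')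
    (x := fun l => (if l ∈ F then x l else 0) - (if l ∈ F' then y l else 0)) (by
      intro l _
      refine sub_mem ?_ ?_
      · split_ifs with h1
        · exact hx l h1
        · exact zero_mem _
      · split_ifs with h1
        · exact (hy l h1).2
        · exact zero_mem _) hz
  intro l hl hl0
  have h1 := hind l (Finset.mem_union_left _ hl)
  by_cases h2 : l ∈ F'
  · exact (hy l h2).1
  · simp only [if_pos hl, if_neg h2, sub_zero] at h1
    exact absurd h1 hl0

theorem wt_le_low {l : X} {c : ℤ} (h : P.h l < c) : P.wt ρ l ≤ P.low ρ c :=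
  fun _ hx => Submodule.mem_iSup_of_mem l (Submodule.mem_iSup_of_mem h hx)

theorem low_mono {c c' : ℤ} (h : c ≤ c') : P.low ρ c ≤ P.low ρ c' :=
  iSup₂_le fun _ hl => wt_le_low (hl.trans_le h)

/-- a weight vector which lies in `low` -/
theorem wt_low (hP : P.Ax) {l : X} {c : ℤ} {x : V} (hx : x ∈ P.wt ρ l) (h : x ∈ P.low ρ c)
    (hc : c ≤ P.h l) : x = 0 := by
  by_contra h0
  have := low_comp (ρ := ρ) hP (F := {l}) (x := fun _ => x) (c := c) (by
    intro m hm
    rw [Finset.mem_singleton.1 hm]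
    exact hx) (by rwa [Finset.sum_singleton]) l (Finset.mem_singleton_self l) h0
  exact absurd this (not_lt.2 hc)

theorem tor_wt {l : X} {x : V} (hx : x ∈ P.wt ρ l) (t : T) : ρ (P.tor t) x ∈ P.wt ρ l := by
  rw [hx t]
  exact Submodule.smul_mem _ _ hx

theorem tor_low {c : ℤ} {x : V} (hx : x ∈ P.low ρ c) (t : T) : ρ (P.tor t) x ∈ P.low ρ c := by
  obtain ⟨F, y, hy, rfl⟩ := mem_low_iff.1 hx
  exact mem_low_iff.2 ⟨F, fun l => ρ (P.tor t) (y l),
    fun l hl => ⟨(hy l hl).1, tor_wt (hy l hl).2 t⟩, map_sum _ _ _⟩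

/-- Weight decomposition inside a rational module. -/
theorem RatOn.exists_wt (hP : P.Ax) {W : Submodule k V} (hW : P.RatOn ρ W) {x : V} (hx : x ∈ W) :
    ∃ (F : Finset X) (y : X → V), (∀ l ∈ F, y l ∈ P.wt ρ l ∧ y l ∈ W) ∧ x = ∑ l ∈ F, y l := by
  obtain ⟨F, y, hy, rfl⟩ := mem_iSup_wt (hW.wts hx)
  have h1 := wt_comp (ρ := ρ) hP (fun t y hy => hW.stable (P.tor t) y hy) hy hx
  exact ⟨F, y, fun l hl => ⟨hy l hl, h1 l hl⟩, rfl⟩

/-- Linear maps which commute with `T` on a subspace preserve weights. -/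
theorem wt_map {W : Submodule k V} (φ : V →ₗ[k] V')
    (hφ : ∀ x ∈ W, ∀ t, φ (ρ (P.tor t) x) = ρ' (P.tor t) (φ x)) {l : X} {x : V} (hx : x ∈ W)
    (hl : x ∈ P.wt ρ l) : φ x ∈ P.wt ρ' l := by
  intro t
  rw [← hφ x hx t, hl t, map_smul]

theorem low_map (hP : P.Ax) {W : Submodule k V} (hW : ∀ t, ∀ y ∈ W, ρ (P.tor t) y ∈ W)
    (φ : V →ₗ[k] V')
    (hφ : ∀ x ∈ W, ∀ t, φ (ρ (P.tor t) x) = ρ' (P.tor t) (φ x)) {c : ℤ} {x : V} (hx : x ∈ W)
    (hl : x ∈ P.low ρ c) : φ x ∈ P.low ρ' c := by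
  obtain ⟨F, y, hy, rfl⟩ := mem_low_iff.1 hl
  have h1 := wt_comp (ρ := ρ) hP hW (fun l hl => (hy l hl).2) hx
  exact mem_low_iff.2 ⟨F, fun l => φ (y l),
    fun l hl => ⟨(hy l hl).1, wt_map φ hφ (h1 l hl) (hy l hl).2⟩, map_sum _ _ _⟩

end PinData

end Pool.Agent.DM
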